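import Pool.Agent.Lib.MP_fe5cb4_co.FC.RawDef
set_option linter.defProp false
namespace Pool.Agent.FCT.R
open Pool.Agent.Lib.MP_fe5cb4_co.FC
noncomputable def s0 : Raw := ⟨[(0,[6,4,1,2,5]),(1,[7,3,2,0,4]),(2,[5,0,1,3,8]),(3,[8,2,1,7,9])], [5,6,4,7,9,8], [(0,5),(0,4),(2,8)]⟩
def c0 : RawB s0 := raw1 s0 (nat_lit 4) [⟨0,1,5,5,5,8,false,true⟩,⟨0,1,8,5,5,2,false,false⟩,⟨1,2,2,5,5,0,false,false⟩,⟨2,3,0,5,5,6,false,true⟩,⟨2,3,0,6,6,4,false,false⟩,⟨1,2,2,0,4,1,false,false⟩,⟨1,0,1,2,8,3,false,false⟩,⟨1,2,3,1,4,7,false,false⟩,⟨1,0,7,3,8,9,false,false⟩] (nat_lit 1) (nat_lit 1) (by decide +kernel)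
noncomputable def s1 : Raw := ⟨[(0,[6,4,1,2,5]),(1,[7,3,2,0,4,8]),(2,[5,0,1,3,9]),(3,[9,2,1,7,10])], [5,6,4,8,7,10,9], [(0,6),(2,5),(1,4),(2,1)]⟩
def c1 : RawB s1 := raw1 s1 (nat_lit 5) [⟨0,1,5,5,5,9,false,true⟩,⟨0,1,9,5,5,2,false,false⟩,⟨1,2,2,5,5,0,false,false⟩,⟨2,3,5,0,0,6,true,false⟩,⟨1,2,2,0,0,1,false,false⟩,⟨1,0,1,2,9,3,false,false⟩,⟨3,4,0,6,6,4,false,false⟩,⟨2,3,1,0,4,4,false,false⟩,⟨2,3,1,4,4,8,false,false⟩,⟨1,2,3,1,8,7,false,false⟩,⟨1,0,7,3,9,10,false,false⟩] (nat_lit 3) (nat_lit 5) (by decide +kernel)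
noncomputable def s2 : Raw := ⟨[(0,[7,5,1,2,6]),(1,[4,3,2,0,5]),(2,[9,6,0,1,3,8]),(3,[11,8,2,1,4,10]),(4,[10,3,1,5,12])], [7,5,12,10,11,8,9,6], [(0,6),(0,5),(4,5),(4,10)]⟩
def c2 : RawB s2 := raw1 s2 (nat_lit 6) [⟨0,1,5,5,5,7,false,true⟩,⟨0,1,7,5,5,0,false,false⟩,⟨0,2,0,7,7,6,false,true⟩,⟨0,2,6,0,0,2,false,false⟩,⟨1,3,0,5,5,1,false,false⟩,⟨2,1,2,0,1,1,false,false⟩,⟨0,1,6,2,2,9,false,false⟩,⟨3,4,1,5,5,4,false,false⟩,⟨2,3,2,1,4,3,false,false⟩,⟨2,1,3,2,9,8,false,false⟩,⟨4,5,4,5,5,12,false,false⟩,⟨3,4,3,4,12,10,false,false⟩,⟨2,3,8,3,10,11,false,false⟩] (nat_lit 4) (nat_lit 10) (by decide +kernel)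
noncomputable def s3 : Raw := ⟨[(0,[8,6,1,2,3,7]),(1,[9,4,2,0,6,10]),(2,[5,3,0,1,4]),(3,[7,0,2,5,11]),(4,[12,5,2,1,9,13]),(5,[11,3,2,4,12])], [7,8,6,10,9,13,12,11], [(0,7),(0,6)]⟩
def c3 : RawB s3 := raw1 s3 (nat_lit 6) [⟨0,1,7,7,7,11,false,true⟩,⟨0,2,11,7,7,3,false,false⟩,⟨0,1,11,3,3,5,false,false⟩,⟨2,3,3,7,7,0,false,false⟩,⟨2,1,0,3,5,2,false,false⟩,⟨2,4,2,0,0,1,false,false⟩,⟨2,1,1,2,5,4,false,false⟩,⟨1,0,4,5,11,12,false,false⟩,⟨3,5,7,0,0,8,true,false⟩,⟨4,5,1,0,8,6,false,false⟩,⟨4,3,6,1,1,10,false,false⟩,⟨2,3,4,1,10,9,false,false⟩,⟨2,1,9,4,12,13,false,false⟩] (nat_lit 4) (nat_lit 10) (by decide +kernel)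
noncomputable def s4 : Raw := ⟨[(0,[8,6,1,2,3,7]),(1,[9,4,2,0,6,10]),(2,[5,3,0,1,4]),(3,[7,0,2,5,11]),(4,[12,5,2,1,9,13]),(5,[14,11,3,2,4,12])], [7,8,6,10,9,13,12,14,11], [(0,8),(0,3),(0,1)]⟩
def c4 : RawB s4 := raw1 s4 (nat_lit 7) [⟨0,1,7,7,7,11,false,true⟩,⟨0,2,11,7,7,3,false,false⟩,⟨0,1,11,3,3,5,false,false⟩,⟨2,3,3,7,7,0,false,false⟩,⟨2,1,0,3,5,2,false,false⟩,⟨1,4,5,2,2,4,false,false⟩,⟨2,5,2,0,0,1,false,false⟩,⟨2,4,1,2,4,4,false,false⟩,⟨2,4,4,1,1,9,false,false⟩,⟨3,6,7,0,0,8,true,false⟩,⟨5,6,1,0,8,6,false,false⟩,⟨5,4,6,1,9,10,false,false⟩,⟨2,3,4,9,9,13,false,false⟩,⟨1,2,5,4,13,12,false,false⟩,⟨0,1,11,5,12,14,false,false⟩] (nat_lit 6) (nat_lit 42) (by decide +kernel)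
noncomputable def s5 : Raw := ⟨[(0,[6,4,1,2,5]),(1,[7,3,2,0,4,8]),(2,[10,5,0,1,3,9]),(3,[9,2,1,7,11])], [4,8,7,11,9,10,5,6], [(2,9),(2,5),(1,4),(1,7)]⟩
def c5 : RawB s5 := raw1 s5 (nat_lit 6) [⟨0,1,4,4,4,6,false,true⟩,⟨0,1,6,4,4,0,false,false⟩,⟨1,2,0,4,4,1,false,false⟩,⟨1,3,0,1,1,2,false,false⟩,⟨1,0,2,0,6,5,false,false⟩,⟨2,4,4,1,1,8,true,false⟩,⟨1,2,5,2,2,10,false,false⟩,⟨4,5,1,8,8,7,false,false⟩,⟨3,4,2,1,7,3,false,false⟩,⟨3,2,3,2,10,9,false,false⟩,⟨4,3,7,3,9,11,false,false⟩] (nat_lit 6) (nat_lit 21) (by decide +kernel)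
noncomputable def s6 : Raw := ⟨[(0,[6,5,4,1,2,8]),(1,[9,3,2,0,4]),(2,[8,0,1,3,10]),(3,[10,2,1,9,11]),(5,[12,4,0,6,7]),(6,[13,7,5,0,8]),(7,[14,12,5,6,13])], [9,11,10,8,13,14,12,4], [(3,11),(3,2),(0,8),(0,4)]⟩
def c6 : RawB s6 := raw1 s6 (nat_lit 6) [⟨0,1,4,4,4,9,false,true⟩,⟨0,1,4,9,9,1,false,false⟩,⟨0,2,4,1,1,0,false,false⟩,⟨1,3,1,9,9,3,false,false⟩,⟨1,4,1,3,3,2,false,false⟩,⟨2,1,0,1,2,2,false,false⟩,⟨0,1,4,0,0,5,false,false⟩,⟨3,5,9,3,3,11,true,false⟩,⟨4,5,2,3,11,10,false,false⟩,⟨2,4,0,2,10,8,false,false⟩,⟨1,2,5,0,8,6,false,false⟩,⟨2,3,6,8,8,13,false,false⟩,⟨1,2,5,6,13,7,false,false⟩,⟨0,1,4,5,7,12,false,false⟩,⟨1,2,12,7,13,14,false,false⟩] (nat_lit 3) (nat_lit 5) (by decide +kernel)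
noncomputable def s7 : Raw := ⟨[(0,[7,5,1,2,6]),(1,[8,4,3,2,0,5]),(2,[10,6,0,1,3,9]),(3,[12,9,2,1,4,11]),(4,[11,3,1,8,13])], [6,7,5,8,13,11,12,9,10], [(0,6),(2,9),(2,1)]⟩
def c7 : RawB s7 := raw1 s7 (nat_lit 7) [⟨0,1,6,6,6,10,false,true⟩,⟨0,2,10,6,6,2,false,false⟩,⟨0,1,10,2,2,9,false,false⟩,⟨1,3,9,2,2,3,false,false⟩,⟨2,4,2,6,6,0,false,false⟩,⟨2,5,2,0,0,1,false,false⟩,⟨2,3,1,2,3,3,false,false⟩,⟨2,3,3,1,1,4,false,false⟩,⟨4,6,6,0,0,7,true,false⟩,⟨5,6,1,0,7,5,false,false⟩,⟨3,5,4,1,5,8,false,false⟩,⟨3,4,4,8,8,13,false,false⟩,⟨2,3,3,4,13,11,false,false⟩,⟨1,2,9,3,11,12,false,false⟩] (nat_lit 8) (nat_lit 170) (by decide +kernel)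
noncomputable def s8 : Raw := ⟨[(0,[6,5,4,1,2,8]),(1,[9,3,2,0,4]),(2,[11,8,0,1,3,10]),(3,[10,2,1,9,12]),(5,[13,4,0,6,7]),(6,[14,7,5,0,8]),(7,[15,13,5,6,14])], [11,8,14,15,13,4,9,12,10], [(3,12),(1,9),(2,10),(1,2)]⟩
def c8 : RawB s8 := raw1 s8 (nat_lit 7) [⟨0,1,10,10,10,11,false,true⟩,⟨0,1,10,11,11,2,false,false⟩,⟨0,2,10,2,2,3,false,false⟩,⟨1,3,11,2,2,8,true,false⟩,⟨0,1,10,3,3,12,false,false⟩,⟨3,4,2,8,8,0,false,false⟩,⟨3,2,0,2,3,1,false,false⟩,⟨2,1,1,3,12,9,false,false⟩,⟨3,2,0,1,9,4,false,false⟩,⟨4,5,0,8,8,6,false,false⟩,⟨3,4,4,0,6,5,false,false⟩,⟨5,6,6,8,8,14,false,false⟩,⟨4,5,5,6,14,7,false,false⟩,⟨3,4,4,5,7,13,false,false⟩,⟨4,5,13,7,14,15,false,false⟩] (nat_lit 5) (nat_lit 21) (by decide +kernel)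
noncomputable def s9 : Raw := ⟨[(0,[8,6,1,2,7]),(1,[5,4,3,2,0,6]),(2,[10,7,0,1,3,9]),(3,[12,9,2,1,4,11]),(4,[14,11,3,1,5,13]),(5,[13,4,1,6,15])], [6,15,13,14,11,12,9,10,7,8], [(0,6),(1,3),(3,11),(3,9)]⟩
def c9 : RawB s9 := raw1 s9 (nat_lit 8) [⟨0,1,6,6,6,8,false,true⟩,⟨0,2,8,6,6,0,false,false⟩,⟨0,1,8,0,0,7,false,false⟩,⟨2,3,0,6,6,1,false,false⟩,⟨2,1,1,0,7,2,false,false⟩,⟨3,4,1,6,6,5,false,false⟩,⟨3,6,1,5,5,4,false,false⟩,⟨2,3,2,1,4,3,false,false⟩,⟨3,5,3,4,4,11,false,false⟩,⟨4,7,6,5,5,15,true,false⟩,⟨6,7,4,5,15,13,false,false⟩,⟨5,6,11,4,13,14,false,false⟩,⟨3,4,3,11,11,12,false,false⟩,⟨2,3,2,3,12,9,false,false⟩,⟨1,2,7,2,9,10,false,false⟩] (nat_lit 7) (nat_lit 85) (by decide +kernel)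
noncomputable def s10 : Raw := ⟨[(0,[6,5,4,1,2,8]),(1,[9,3,2,0,4]),(2,[11,8,0,1,3,10]),(3,[10,2,1,9,12]),(5,[13,4,0,6,7]),(6,[14,7,5,0,8,15]),(7,[16,13,5,6,14])], [10,11,8,15,14,16,13,4,9,12], [(6,14),(6,5),(5,13)]⟩
def c10 : RawB s10 := raw1 s10 (nat_lit 8) [⟨0,1,4,4,4,9,false,false⟩,⟨0,2,9,4,4,1,false,false⟩,⟨2,3,4,1,1,0,false,false⟩,⟨2,4,4,0,0,5,false,false⟩,⟨3,5,1,0,0,2,false,false⟩,⟨3,0,2,1,9,3,false,false⟩,⟨3,6,3,2,2,10,false,false⟩,⟨0,3,9,3,10,12,false,true⟩,⟨2,3,4,5,5,13,false,false⟩,⟨6,7,10,2,2,11,true,false⟩,⟨5,7,0,2,11,8,false,false⟩,⟨4,5,5,0,8,6,false,false⟩,⟨4,3,6,5,13,7,false,false⟩,⟨5,6,6,8,8,15,false,false⟩,⟨4,5,7,6,15,14,false,false⟩,⟨3,4,13,7,14,16,false,false⟩] (nat_lit 9) (nat_lit 170) (by decide +kernel)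
noncomputable def s11 : Raw := ⟨[(0,[9,7,1,2,3,8]),(1,[10,4,2,0,7,11]),(2,[5,3,0,1,4,6]),(3,[8,0,2,5,12]),(4,[13,6,2,1,10,14]),(5,[12,3,2,6,15]),(6,[15,5,2,4,13,16])], [8,9,7,11,10,14,13,16,15,12], [(0,8),(0,7),(0,2)]⟩
def c11 : RawB s11 := raw1 s11 (nat_lit 8) [⟨0,1,5,5,5,6,false,false⟩,⟨0,2,5,6,6,2,false,false⟩,⟨0,3,5,2,2,3,false,false⟩,⟨0,4,5,3,3,12,false,false⟩,⟨1,0,6,5,12,15,false,false⟩,⟨4,5,3,12,12,8,false,true⟩,⟨4,5,8,3,3,0,false,false⟩,⟨5,3,0,3,2,2,false,false⟩,⟨2,3,6,2,2,4,false,false⟩,⟨3,6,4,2,2,1,false,false⟩,⟨6,5,1,2,0,0,false,false⟩,⟨3,5,4,1,1,10,false,false⟩,⟨4,7,8,0,0,9,true,false⟩,⟨6,7,1,0,9,7,false,false⟩,⟨6,5,7,1,10,11,false,false⟩,⟨3,4,4,10,10,14,false,false⟩,⟨2,3,6,4,14,13,false,false⟩,⟨2,1,13,6,15,16,false,false⟩] (nat_lit 5) (nat_lit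 10) (by decide +kernel)
noncomputable def s12 : Raw := ⟨[(0,[6,5,4,1,2,8]),(1,[9,3,2,0,4]),(2,[11,8,0,1,3,10]),(3,[10,2,1,9,12]),(5,[13,4,0,6,7,14]),(6,[15,7,5,0,8]),(7,[16,14,5,6,15])], [11,8,15,16,14,13,4,9,12,10], [(3,9),(3,10),(2,8)]⟩
def c12 : RawB s12 := raw1 s12 (nat_lit 8) [⟨0,1,10,10,10,11,false,true⟩,⟨0,1,10,11,11,2,false,false⟩,⟨0,2,10,2,2,3,false,false⟩,⟨1,3,11,2,2,8,true,false⟩,⟨0,1,10,3,3,12,false,false⟩,⟨3,4,2,8,8,0,false,false⟩,⟨3,2,0,2,3,1,false,false⟩,⟨2,1,1,3,12,9,false,false⟩,⟨3,2,0,1,9,4,false,false⟩,⟨4,5,0,8,8,6,false,false⟩,⟨3,4,4,0,6,5,false,false⟩,⟨5,7,6,8,8,15,false,false⟩,⟨4,5,5,6,15,7,false,false⟩,⟨5,6,7,15,15,16,false,false⟩,⟨4,5,5,7,16,14,false,false⟩,⟨3,4,4,5,14,13,false,false⟩] (nat_lit 9) (nat_lit 170) (by decide +kernel)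
noncomputable def s13 : Raw := ⟨[(0,[9,7,1,2,3,8]),(1,[10,4,2,0,7,11]),(2,[5,3,0,1,4,6]),(3,[8,0,2,5,12]),(4,[13,6,2,1,10,14]),(5,[16,12,3,2,6,15]),(6,[15,5,2,4,13,17])], [7,11,10,14,13,17,15,16,12,8,9], [(0,8),(0,7),(4,10),(4,13)]⟩
def c13 : RawB s13 := raw1 s13 (nat_lit 9) [⟨0,1,3,3,3,12,false,false⟩,⟨0,2,3,12,12,5,false,false⟩,⟨0,3,3,5,5,2,false,false⟩,⟨0,4,3,2,2,0,false,false⟩,⟨0,1,0,3,12,8,false,false⟩,⟨0,5,8,0,0,9,false,false⟩,⟨5,6,0,9,9,7,false,true⟩,⟨4,5,2,0,7,1,false,false⟩,⟨4,6,2,1,1,4,false,false⟩,⟨4,3,4,2,5,6,false,false⟩,⟨5,8,7,1,1,11,true,false⟩,⟨6,8,4,1,11,10,false,false⟩,⟨6,7,4,10,10,14,false,false⟩,⟨4,6,6,4,14,13,false,false⟩,⟨4,5,6,13,13,17,false,false⟩,⟨3,4,5,6,17,15,false,false⟩,⟨2,3,12,5,15,16,false,false⟩] (nat_lit 6) (nat_lit 21)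 (by decide +kernel)
noncomputable def s14 : Raw := ⟨[(0,[7,5,1,2,6]),(1,[8,4,3,2,0,5,9]),(2,[6,0,1,3,10]),(3,[10,2,1,4,11]),(4,[11,3,1,8,12])], [6,7,5,9,8,12,11,10], [(0,2),(2,10),(4,8),(4,11)]⟩
def c14 : RawB s14 := raw1 s14 (nat_lit 6) [⟨0,1,2,2,2,10,false,false⟩,⟨0,2,10,2,2,3,false,false⟩,⟨1,3,10,2,2,6,true,false⟩,⟨0,1,10,3,3,11,false,false⟩,⟨3,4,2,6,6,0,false,false⟩,⟨3,2,0,2,3,1,false,false⟩,⟨2,1,1,3,11,4,false,false⟩,⟨4,5,6,0,0,7,true,false⟩,⟨3,5,1,0,7,5,false,false⟩,⟨3,4,1,5,5,9,false,false⟩,⟨2,3,4,1,9,8,false,false⟩,⟨2,1,8,4,11,12,false,false⟩] (nat_lit 2) (nat_lit 1) (by decide +kernel)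
noncomputable def s15 : Raw := ⟨[(0,[7,5,1,2,6]),(1,[8,4,3,2,0,5,9]),(2,[6,0,1,3,10]),(3,[12,10,2,1,4,11]),(4,[11,3,1,8,13])], [11,12,10,6,7,5,9,8,13], [(2,6),(1,3),(3,11),(3,10)]⟩
def c15 : RawB s15 := raw1 s15 (nat_lit 7) [⟨0,1,11,11,11,13,false,true⟩,⟨0,1,13,11,11,4,false,false⟩,⟨0,2,13,4,4,8,false,false⟩,⟨1,3,4,11,11,3,false,false⟩,⟨1,4,4,3,3,1,false,false⟩,⟨1,2,1,4,8,8,false,false⟩,⟨1,2,8,1,1,9,false,false⟩,⟨3,5,11,3,3,12,true,false⟩,⟨2,3,9,1,1,5,false,false⟩,⟨5,6,3,12,12,10,false,false⟩,⟨4,5,1,3,10,2,false,false⟩,⟨4,3,2,1,5,0,false,false⟩,⟨4,5,0,2,10,6,false,false⟩,⟨3,4,5,0,6,7,false,false⟩] (nat_lit 6) (nat_lit 21) (by decide +kernel)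
noncomputable def s16 : Raw := ⟨[(0,[8,1,2,3,4]),(1,[9,2,0,8,10]),(2,[11,3,0,1,9]),(3,[7,6,5,4,0,2,11]),(5,[12,4,3,6,13]),(6,[13,5,3,7,14]),(7,[14,6,3,11,15])], [8,10,9,11,15,14,13,12,4], [(7,11),(7,14),(5,13),(5,4)]⟩
def c16 : RawB s16 := raw1 s16 (nat_lit 7) [⟨0,1,4,4,4,8,false,true⟩,⟨0,2,4,8,8,0,false,false⟩,⟨0,3,4,0,0,3,false,false⟩,⟨0,1,4,3,3,5,false,false⟩,⟨2,4,0,8,8,1,false,false⟩,⟨2,5,0,1,1,2,false,false⟩,⟨3,2,3,0,2,2,false,false⟩,⟨1,2,5,3,3,6,false,false⟩,⟨4,6,8,1,1,10,true,false⟩,⟨5,6,2,1,10,9,false,false⟩,⟨3,5,3,2,9,11,false,false⟩,⟨2,3,6,3,11,7,false,false⟩,⟨3,4,7,11,11,15,false,false⟩,⟨2,3,6,7,15,14,false,false⟩,⟨1,2,5,6,14,13,false,false⟩,⟨0,1,4,5,13,12,false,false⟩] (nat_lit 5) (nat_lit 21) (by decide +kernel)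
noncomputable def s17 : Raw := ⟨[(0,[6,1,2,3,7]),(1,[8,2,0,6,9]),(2,[10,4,3,0,1,8,11]),(3,[13,7,0,2,4,5,12]),(4,[14,5,3,2,10]),(5,[15,12,3,4,14])], [15,12,13,7,6,9,8,11,10,14], [(2,8),(2,10),(5,14),(5,12)]⟩
def c17 : RawB s17 := raw1 s17 (nat_lit 8) [⟨0,1,2,2,2,4,false,false⟩,⟨0,2,4,2,2,3,false,false⟩,⟨0,3,4,3,3,5,false,false⟩,⟨0,4,4,5,5,14,false,false⟩,⟨1,0,2,4,14,10,false,false⟩,⟨2,5,2,3,3,0,false,false⟩,⟨3,6,5,3,3,12,false,false⟩,⟨3,4,12,5,14,15,true,true⟩,⟨2,4,2,0,0,1,false,false⟩,⟨2,3,2,1,1,8,false,false⟩,⟨6,7,3,12,12,13,false,false⟩,⟨5,6,0,3,13,7,false,false⟩,⟨4,5,1,0,7,6,false,false⟩,⟨4,3,6,1,8,9,false,false⟩,⟨2,1,8,2,10,11,false,false⟩] (nat_lit 9) (nat_lit 341) (by decide +kernel)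
noncomputable def s18 : Raw := ⟨[(0,[9,7,1,2,3,4,8]),(1,[10,6,5,2,0,7,11]),(2,[12,3,0,1,5]),(3,[13,4,0,2,12]),(4,[14,8,0,3,13]),(5,[16,12,2,1,6,15]),(6,[15,5,1,10,17])], [9,7,11,10,17,15,16,12,13,14,8], [(4,3),(1,5),(5,15),(5,12)]⟩
def c18 : RawB s18 := raw1 s18 (nat_lit 9) [⟨0,1,8,8,8,9,false,true⟩,⟨0,1,8,9,9,0,false,false⟩,⟨0,2,8,0,0,4,false,false⟩,⟨2,3,4,0,0,3,false,false⟩,⟨1,4,9,0,0,7,true,false⟩,⟨2,1,3,4,4,13,false,false⟩,⟨0,1,8,4,13,14,false,false⟩,⟨4,5,0,7,7,1,false,false⟩,⟨4,3,1,0,3,2,false,false⟩,⟨3,2,2,3,13,12,false,false⟩,⟨4,3,1,2,12,5,false,false⟩,⟨5,8,1,7,7,11,false,false⟩,⟨5,7,1,11,11,10,false,false⟩,⟨4,5,5,1,10,6,false,false⟩,⟨5,6,6,10,10,17,false,false⟩,⟨4,5,5,6,17,15,false,false⟩,⟨3,4,12,5,15,16,false,false⟩] (nat_lit 7) (nat_lit 85)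 (by decide +kernel)
noncomputable def s19 : Raw := ⟨[(0,[10,8,1,2,3,4,9]),(1,[11,7,6,5,2,0,8]),(2,[12,3,0,1,5]),(3,[13,4,0,2,12]),(4,[14,9,0,3,13]),(5,[16,12,2,1,6,15]),(6,[18,15,5,1,7,17]),(7,[17,6,1,11,19])], [9,10,8,11,19,17,18,15,16,12,13,14], [(3,12),(1,5),(5,15),(5,12)]⟩
def c19 : RawB s19 := raw1 s19 (nat_lit 10) [⟨0,1,3,3,3,12,false,false⟩,⟨0,2,3,12,12,2,false,false⟩,⟨0,3,3,2,2,0,false,false⟩,⟨0,4,3,0,0,4,false,false⟩,⟨0,1,4,3,12,13,false,false⟩,⟨4,5,4,0,0,9,false,false⟩,⟨4,0,9,4,13,14,true,false⟩,⟨3,8,2,0,0,1,false,false⟩,⟨3,2,1,2,12,5,false,false⟩,⟨3,4,5,1,1,6,false,false⟩,⟨4,7,6,1,1,7,false,false⟩,⟨4,6,6,7,7,17,false,false⟩,⟨5,9,9,0,0,10,true,false⟩,⟨8,9,1,0,10,8,false,false⟩,⟨7,8,7,1,8,11,false,false⟩,⟨7,6,11,7,17,19,false,false⟩,⟨4,5,6,17,17,18,false,false⟩,⟨3,4,5,6,18,15,false,false⟩,⟨2,3,12,5,15,16,false,false⟩]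 (nat_lit 7) (nat_lit 85) (by decide +kernel)
noncomputable def s20 : Raw := ⟨[(0,[7,1,2,3,8]),(1,[9,2,0,7,10]),(2,[11,4,3,0,1,9,12]),(3,[8,0,2,4,5,6,13]),(4,[14,5,3,2,11]),(5,[15,6,3,4,14,16]),(6,[17,13,3,5,15])], [14,16,15,17,13,8,7,10,9,12,11], [(3,5),(5,14),(5,15),(6,13)]⟩
def c20 : RawB s20 := raw1 s20 (nat_lit 9) [⟨0,1,1,1,1,9,false,false⟩,⟨0,2,1,9,9,10,false,false⟩,⟨0,3,1,10,10,7,false,false⟩,⟨0,4,1,7,7,0,false,false⟩,⟨0,1,0,1,9,2,false,false⟩,⟨4,5,7,0,0,8,false,false⟩,⟨0,5,2,0,8,3,false,false⟩,⟨0,6,2,3,3,4,false,false⟩,⟨0,7,2,4,4,11,false,false⟩,⟨7,8,4,11,11,14,false,true⟩,⟨6,7,3,4,14,5,false,false⟩,⟨7,8,5,14,14,16,false,true⟩,⟨7,8,5,16,16,15,false,false⟩,⟨6,7,3,5,15,6,false,false⟩,⟨6,5,6,3,8,13,false,false⟩,⟨6,7,13,6,15,17,false,false⟩,⟨1,0,9,2,11,12,false,false⟩]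 (nat_lit 9) (nat_lit 170) (by decide +kernel)
noncomputable def s21 : Raw := ⟨[(0,[8,1,2,3,9]),(1,[10,2,0,8,11]),(2,[12,4,3,0,1,10,13]),(3,[9,0,2,4,5,6,7]),(4,[14,5,3,2,12]),(5,[15,6,3,4,14,16]),(6,[17,7,3,5,15,18]),(7,[19,9,3,6,17])], [10,13,12,14,16,15,18,17,19,9,8,11], [(1,8),(1,10),(0,9),(0,2)]⟩
def c21 : RawB s21 := raw1 s21 (nat_lit 10) [⟨0,1,10,10,10,11,false,true⟩,⟨0,2,11,10,10,1,false,false⟩,⟨0,1,11,1,1,8,false,false⟩,⟨1,3,8,1,1,0,false,false⟩,⟨2,5,1,10,10,2,false,false⟩,⟨2,3,2,1,0,0,false,false⟩,⟨2,7,0,2,2,3,false,false⟩,⟨2,1,3,0,8,9,false,false⟩,⟨2,3,9,3,3,7,false,false⟩,⟨3,6,7,3,3,6,false,false⟩,⟨3,4,7,6,6,17,false,false⟩,⟨5,8,10,2,2,13,true,false⟩,⟨4,5,17,6,6,18,false,false⟩,⟨8,9,2,13,13,12,false,false⟩,⟨7,8,3,2,12,4,false,false⟩,⟨7,6,4,3,6,5,false,false⟩,⟨7,8,5,4,12,14,false,false⟩,⟨6,5,5,6,18,15,false,false⟩,⟨7,6,14,5,15,16,false,false⟩,⟨2,3,9,7,17,19,false,false⟩]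 (nat_lit 9) (nat_lit 170) (by decide +kernel)
noncomputable def s22 : Raw := ⟨[(0,[7,1,2,3,8]),(1,[9,2,0,7,10]),(2,[11,4,3,0,1,9,12]),(3,[14,8,0,2,4,5,6,13]),(4,[15,5,3,2,11]),(5,[16,6,3,4,15]),(6,[17,13,3,5,16])], [13,14,8,7,10,9,12,11,15,16,17], [(1,7),(1,9),(3,13),(3,8)]⟩
def c22 : RawB s22 := raw1 s22 (nat_lit 9) [⟨0,1,5,5,5,15,false,false⟩,⟨0,2,5,15,15,4,false,false⟩,⟨0,3,5,4,4,3,false,false⟩,⟨0,4,5,3,3,6,false,false⟩,⟨0,1,6,5,15,16,false,false⟩,⟨4,5,6,3,3,13,false,false⟩,⟨4,0,13,6,16,17,true,false⟩,⟨3,6,4,3,3,2,false,false⟩,⟨3,2,2,4,15,11,false,false⟩,⟨3,4,11,2,2,12,false,false⟩,⟨5,7,13,3,3,14,true,false⟩,⟨4,5,12,2,2,9,false,false⟩,⟨7,8,3,14,14,8,false,false⟩,⟨6,7,2,3,8,0,false,false⟩,⟨6,5,0,2,9,1,false,false⟩,⟨6,7,1,0,8,7,false,false⟩,⟨6,5,7,1,9,10,false,false⟩]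 (nat_lit 10) (nat_lit 682) (by decide +kernel)
noncomputable def s23 : Raw := ⟨[(0,[7,1,2,3,8]),(1,[9,2,0,7,10]),(2,[11,5,4,3,0,1,9,12]),(3,[14,8,0,2,4,6,13]),(4,[6,3,2,5,15]),(5,[15,4,2,11,16]),(6,[17,13,3,4,15])], [7,10,9,12,11,16,15,17,13,14,8], [(2,12),(2,3),(6,15),(6,13)]⟩
def c23 : RawB s23 := raw1 s23 (nat_lit 9) [⟨0,1,3,3,3,4,false,false⟩,⟨0,2,3,4,4,2,false,false⟩,⟨0,3,3,2,2,0,false,false⟩,⟨2,4,4,2,2,5,false,false⟩,⟨4,5,5,2,2,11,false,false⟩,⟨5,6,2,11,11,12,false,false⟩,⟨5,7,2,12,12,9,false,false⟩,⟨3,5,0,2,9,1,false,false⟩,⟨5,8,1,9,9,10,false,false⟩,⟨3,5,0,1,10,7,false,true⟩,⟨0,3,3,0,7,8,false,true⟩,⟨4,5,5,11,11,16,false,false⟩,⟨2,4,4,5,16,15,false,false⟩,⟨1,2,3,4,15,6,false,false⟩,⟨2,3,6,15,15,17,false,false⟩,⟨1,2,3,6,17,13,false,false⟩,⟨0,1,8,3,13,14,false,false⟩]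 (nat_lit 17) (nat_lit 87381) (by decide +kernel)
noncomputable def s24 : Raw := ⟨[(0,[8,1,2,3,9]),(1,[10,2,0,8,11]),(2,[12,4,3,0,1,10,13]),(3,[9,0,2,4,5,6,7,14]),(4,[15,5,3,2,12]),(5,[16,6,3,4,15]),(6,[17,7,3,5,16,18]),(7,[19,14,3,6,17])], [8,11,10,13,12,15,16,18,17,19,14,9], [(3,6),(6,16),(6,17),(7,14)]⟩
def c24 : RawB s24 := raw1 s24 (nat_lit 10) [⟨0,1,3,3,3,6,false,false⟩,⟨0,2,3,6,6,5,false,false⟩,⟨2,3,5,6,6,16,false,false⟩,⟨2,5,5,16,16,15,false,false⟩,⟨2,6,5,15,15,4,false,false⟩,⟨0,2,3,5,4,4,false,false⟩,⟨6,7,15,4,4,12,false,false⟩,⟨0,7,3,4,12,2,false,false⟩,⟨0,4,3,2,2,0,false,false⟩,⟨0,2,3,0,0,9,false,false⟩,⟨4,8,0,2,2,1,false,false⟩,⟨4,2,1,0,9,8,false,true⟩,⟨1,2,3,6,6,7,false,false⟩,⟨4,9,8,1,1,11,true,false⟩,⟨8,9,2,1,11,10,false,false⟩,⟨8,7,10,2,12,13,false,false⟩,⟨1,0,7,3,9,14,false,false⟩,⟨3,4,6,16,16,18,false,false⟩,⟨2,3,7,6,18,17,false,false⟩,⟨1,2,14,7,17,19,false,false⟩]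 (nat_lit 10) (nat_lit 682) (by decide +kernel)
noncomputable def s25 : Raw := ⟨[(0,[7,1,2,3,8]),(1,[9,2,0,7,10]),(2,[11,4,3,0,1,9,12]),(3,[14,8,0,2,4,5,6,13]),(4,[15,5,3,2,11]),(5,[16,6,3,4,15,17]),(6,[18,13,3,5,16])], [7,10,9,12,11,15,17,16,18,13,14,8], [(2,4),(3,5),(5,15),(5,16)]⟩
def c25 : RawB s25 := raw1 s25 (nat_lit 10) [⟨0,1,0,0,0,3,false,false⟩,⟨0,2,3,0,0,8,false,false⟩,⟨1,3,3,0,0,2,false,false⟩,⟨2,4,8,0,0,7,true,false⟩,⟨1,6,3,2,2,4,false,false⟩,⟨1,2,3,4,4,5,false,false⟩,⟨6,7,4,2,2,11,false,false⟩,⟨2,6,5,4,11,15,false,false⟩,⟨2,5,5,15,15,17,false,false⟩,⟨3,8,0,2,2,1,false,false⟩,⟨3,4,1,0,7,7,false,false⟩,⟨2,4,5,17,17,16,false,false⟩,⟨3,9,7,1,1,10,true,false⟩,⟨8,9,2,1,10,9,false,false⟩,⟨8,7,9,2,11,12,false,false⟩,⟨1,2,3,5,16,6,false,false⟩,⟨2,3,6,16,16,18,false,false⟩,⟨1,2,3,6,18,13,false,false⟩,⟨0,1,8,3,13,14,false,false⟩]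 (nat_lit 23) (nat_lit 5592405) (by decide +kernel)
noncomputable def s26 : Raw := ⟨[(0,[10,8,1,2,3,4,9]),(1,[11,7,6,5,2,0,8,12]),(2,[13,3,0,1,5]),(3,[14,4,0,2,13]),(4,[15,9,0,3,14]),(5,[13,2,1,6,16]),(6,[18,16,5,1,7,17]),(7,[17,6,1,11,19])], [14,15,9,10,8,12,11,19,17,18,16,13], [(7,11),(1,6),(6,17),(6,16)]⟩
def c26 : RawB s26 := raw1 s26 (nat_lit 10) [⟨0,1,5,5,5,6,false,false⟩,⟨0,2,5,6,6,1,false,false⟩,⟨0,3,5,1,1,2,false,false⟩,⟨0,4,5,2,2,13,false,false⟩,⟨1,0,6,5,13,16,false,false⟩,⟨4,5,2,13,13,3,false,false⟩,⟨3,4,1,2,3,0,false,false⟩,⟨5,6,3,13,13,14,false,true⟩,⟨3,7,1,0,0,8,false,false⟩,⟨3,6,1,8,8,12,false,false⟩,⟨4,8,3,0,0,4,false,false⟩,⟨4,5,4,3,14,14,false,false⟩,⟨4,9,14,4,4,15,true,false⟩,⟨8,9,0,4,15,9,false,false⟩,⟨7,8,8,0,9,10,false,false⟩,⟨3,5,1,12,12,11,false,false⟩,⟨2,3,6,1,11,7,false,false⟩,⟨3,4,7,11,11,19,false,false⟩,⟨2,3,6,7,19,17,false,false⟩,⟨1,2,16,6,17,18,false,false⟩]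 (nat_lit 8) (nat_lit 170) (by decide +kernel)
noncomputable def s27 : Raw := ⟨[(0,[9,7,1,2,3,4,8]),(1,[10,2,0,7,11]),(2,[12,5,3,0,1,10,13]),(3,[6,4,0,2,5]),(4,[8,0,3,6,14]),(5,[15,6,3,2,12,16]),(6,[14,4,3,5,15])], [7,11,10,13,12,16,15,14,8,9], [(4,8),(2,5),(5,15),(4,6)]⟩
def c27 : RawB s27 := raw1 s27 (nat_lit 8) [⟨0,1,6,6,6,14,false,false⟩,⟨0,2,6,14,14,15,false,false⟩,⟨0,3,6,15,15,5,false,false⟩,⟨0,4,6,5,5,3,false,false⟩,⟨0,1,3,6,14,4,false,false⟩,⟨0,5,4,3,3,0,false,false⟩,⟨5,4,0,3,5,2,false,false⟩,⟨0,1,0,4,14,8,false,false⟩,⟨0,6,8,0,0,9,false,false⟩,⟨6,7,0,9,9,7,false,true⟩,⟨5,6,2,0,7,1,false,false⟩,⟨6,7,7,1,1,11,true,false⟩,⟨5,7,2,1,11,10,false,false⟩,⟨5,6,2,10,10,13,false,false⟩,⟨4,5,5,2,13,12,false,false⟩,⟨4,3,12,5,15,16,false,false⟩] (nat_lit 6)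 (nat_lit 42) (by decide +kernel)
noncomputable def s28 : Raw := ⟨[(0,[10,8,1,2,3,4,9]),(1,[11,6,5,2,0,8,12]),(2,[7,3,0,1,5]),(3,[13,4,0,2,7]),(4,[14,9,0,3,13]),(5,[16,7,2,1,6,15,17]),(6,[15,5,1,11,18]),(7,[13,3,2,5,16])], [13,14,9,10,8,12,11,18,15,17,16], [(4,13),(4,9),(2,7),(7,13)]⟩
def c28 : RawB s28 := raw1 s28 (nat_lit 9) [⟨0,1,13,13,13,16,false,true⟩,⟨0,2,16,13,13,7,false,false⟩,⟨0,1,16,7,7,5,false,false⟩,⟨2,3,7,13,13,3,false,false⟩,⟨2,1,3,7,5,2,false,false⟩,⟨2,4,2,3,3,0,false,false⟩,⟨2,1,0,2,5,1,false,false⟩,⟨2,6,1,0,0,8,false,false⟩,⟨2,5,1,8,8,12,false,false⟩,⟨4,7,3,0,0,4,false,false⟩,⟨3,4,13,3,4,4,false,false⟩,⟨3,8,13,4,4,14,true,false⟩,⟨7,8,0,4,14,9,false,false⟩,⟨6,7,8,0,9,10,false,false⟩,⟨2,4,1,12,12,11,false,false⟩,⟨1,2,5,1,11,6,false,false⟩,⟨2,3,6,11,11,18,false,false⟩,⟨1,2,5,6,18,15,false,false⟩,⟨1,0,15,5,16,17,false,false⟩]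 (nat_lit 6) (nat_lit 42) (by decide +kernel)
noncomputable def s29 : Raw := ⟨[(0,[10,8,1,2,3,4,5,9]),(1,[11,6,2,0,8,12]),(2,[7,3,0,1,6]),(3,[15,13,4,0,2,7,14]),(4,[16,5,0,3,13]),(5,[17,9,0,4,16]),(6,[18,7,2,1,11]),(7,[14,3,2,6,18])], [16,17,9,10,8,12,11,18,14,15,13], [(5,16),(5,9),(1,8),(1,11)]⟩
def c29 : RawB s29 := raw1 s29 (nat_lit 9) [⟨0,1,6,6,6,7,false,false⟩,⟨0,2,6,7,7,18,false,false⟩,⟨0,3,6,18,18,11,false,false⟩,⟨0,4,6,11,11,1,false,false⟩,⟨0,1,1,6,7,2,false,false⟩,⟨0,5,2,1,1,0,false,false⟩,⟨0,1,0,2,7,3,false,false⟩,⟨1,2,3,7,18,14,false,false⟩,⟨0,6,3,0,0,4,false,false⟩,⟨0,7,3,4,4,13,false,false⟩,⟨0,1,13,3,14,15,false,false⟩,⟨7,8,4,13,13,16,false,true⟩,⟨6,7,0,4,16,5,false,false⟩,⟨7,8,16,5,5,17,true,false⟩,⟨6,8,0,5,17,9,false,false⟩,⟨6,7,0,9,9,10,false,false⟩,⟨5,6,1,0,10,8,false,false⟩,⟨5,4,8,1,11,12,false,false⟩]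 (nat_lit 8) (nat_lit 170) (by decide +kernel)
end Pool.Agent.FCT.R
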