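import Pool.Agent.Lib.MP_fe5cb4_co.FC.RawDef
set_option linter.defProp false
namespace Pool.Agent.FCT.R
open Pool.Agent.Lib.MP_fe5cb4_co.FC
noncomputable def s30 : Raw := ⟨[(0,[8,6,1,2,7]),(1,[9,5,4,3,2,0,6]),(2,[7,0,1,3,10]),(3,[12,10,2,1,4,11]),(4,[14,11,3,1,5,13]),(5,[13,4,1,9,15])], [7,8,6,9,15,13,14,11,12,10], [(0,8),(1,3),(3,11),(3,10)]⟩
def c30 : RawB s30 := raw1 s30 (nat_lit 8) [⟨0,1,3,3,3,4,false,false⟩,⟨0,2,3,4,4,1,false,false⟩,⟨0,3,3,1,1,2,false,false⟩,⟨3,4,2,1,1,0,false,false⟩,⟨4,5,1,0,0,6,false,false⟩,⟨4,6,1,6,6,9,false,false⟩,⟨2,4,4,1,9,5,false,false⟩,⟨5,7,0,6,6,8,false,false⟩,⟨3,5,2,0,8,7,false,true⟩,⟨0,3,3,2,7,10,false,true⟩,⟨4,5,5,9,9,15,false,false⟩,⟨2,4,4,5,15,13,false,false⟩,⟨2,3,4,13,13,14,false,false⟩,⟨1,2,3,4,14,11,false,false⟩,⟨0,1,10,3,11,12,false,false⟩]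 (nat_lit 7) (nat_lit 85) (by decide +kernel)
noncomputable def s31 : Raw := ⟨[(0,[8,1,2,3,4]),(1,[9,2,0,8,10]),(2,[11,3,0,1,9,12]),(3,[7,6,5,4,0,2,11]),(5,[13,4,3,6,14]),(6,[14,5,3,7,15]),(7,[15,6,3,11,16])], [8,10,9,12,11,16,15,14,13,4], [(3,11),(7,16),(3,6),(6,15)]⟩
def c31 : RawB s31 := raw1 s31 (nat_lit 8) [⟨0,1,4,4,4,8,false,true⟩,⟨0,2,4,8,8,0,false,false⟩,⟨0,1,4,0,0,3,false,false⟩,⟨1,4,3,0,0,2,false,false⟩,⟨1,5,3,2,2,11,false,false⟩,⟨1,3,3,11,11,7,false,false⟩,⟨4,6,0,2,2,1,false,false⟩,⟨4,2,1,0,8,8,false,false⟩,⟨1,2,3,7,7,6,false,false⟩,⟨4,7,8,1,1,10,true,false⟩,⟨6,7,2,1,10,9,false,false⟩,⟨6,5,9,2,11,12,false,false⟩,⟨0,1,4,3,6,5,false,false⟩,⟨3,4,7,11,11,16,false,false⟩,⟨2,3,6,7,16,15,false,false⟩,⟨1,2,5,6,15,14,false,false⟩,⟨0,1,4,5,14,13,false,false⟩]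 (nat_lit 7) (nat_lit 85) (by decide +kernel)
noncomputable def s32 : Raw := ⟨[(0,[10,8,1,2,3,4,5,9]),(1,[11,6,2,0,8]),(2,[12,3,0,1,6,7,13]),(3,[14,4,0,2,12,15]),(4,[16,5,0,3,14]),(5,[17,9,0,4,16]),(6,[18,7,2,1,11]),(7,[19,13,2,6,18])], [16,17,9,10,8,11,18,19,13,12,15,14], [(1,8),(1,2),(6,11),(6,7)]⟩
def c32 : RawB s32 := raw1 s32 (nat_lit 10) [⟨0,1,2,2,2,3,false,false⟩,⟨0,2,3,2,2,0,false,false⟩,⟨2,3,2,0,0,1,false,false⟩,⟨0,4,3,0,0,4,false,false⟩,⟨3,5,1,0,0,8,false,false⟩,⟨3,6,1,8,8,11,false,false⟩,⟨2,3,2,1,11,6,false,false⟩,⟨5,7,0,8,8,10,false,false⟩,⟨5,8,0,10,10,9,false,false⟩,⟨4,5,4,0,9,5,false,false⟩,⟨5,9,5,9,9,17,false,false⟩,⟨4,5,4,5,17,16,false,true⟩,⟨0,4,3,4,16,14,false,true⟩,⟨3,5,6,11,11,18,false,false⟩,⟨2,3,2,6,18,7,false,false⟩,⟨3,4,7,18,18,19,false,false⟩,⟨2,3,2,7,19,13,false,false⟩,⟨1,2,3,2,13,12,false,false⟩,⟨1,0,12,3,14,15,false,false⟩]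 (nat_lit 9) (nat_lit 341) (by decide +kernel)
noncomputable def s33 : Raw := ⟨[(0,[8,1,2,3,4,5,9]),(1,[10,6,2,0,8,11]),(2,[14,12,3,0,1,6,7,13]),(3,[15,4,0,2,12]),(4,[16,5,0,3,15]),(5,[17,9,0,4,16]),(6,[18,7,2,1,10,19]),(7,[20,13,2,6,18])], [16,17,9,8,11,10,19,18,20,13,14,12,15], [(5,16),(1,8),(1,10),(1,2)]⟩
def c33 : RawB s33 := raw1 s33 (nat_lit 11) [⟨0,1,2,2,2,3,false,false⟩,⟨0,2,3,2,2,0,false,false⟩,⟨2,4,2,0,0,1,false,false⟩,⟨2,3,2,1,1,6,false,false⟩,⟨3,5,6,1,1,10,false,false⟩,⟨3,6,6,10,10,19,false,false⟩,⟨5,7,1,10,10,11,false,false⟩,⟨5,8,1,11,11,8,false,false⟩,⟨5,4,8,1,0,0,false,false⟩,⟨0,4,3,0,0,4,false,false⟩,⟨5,9,0,8,8,9,false,false⟩,⟨4,5,4,0,9,5,false,false⟩,⟨5,10,5,9,9,17,false,false⟩,⟨4,5,4,5,17,16,false,true⟩,⟨0,4,3,4,16,15,false,true⟩,⟨1,0,2,3,15,12,false,false⟩,⟨3,5,6,19,19,18,false,false⟩,⟨2,3,2,6,18,7,false,false⟩,⟨3,4,7,18,18,20,false,false⟩,⟨2,3,2,7,20,13,false,false⟩,⟨1,2,12,2,13,14,false,false⟩]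 (nat_lit 19) (nat_lit 349525) (by decide +kernel)
noncomputable def s34 : Raw := ⟨[(0,[9,7,1,2,3,4,5,8]),(1,[10,6,2,0,7,11]),(2,[14,12,3,0,1,6,13]),(3,[15,4,0,2,12]),(4,[16,5,0,3,15]),(5,[17,8,0,4,16]),(6,[13,2,1,10,18])], [11,10,18,13,14,12,15,16,17,8,9,7], [(5,16),(0,8),(0,7),(0,2)]⟩
def c34 : RawB s34 := raw1 s34 (nat_lit 10) [⟨0,1,0,0,0,8,false,false⟩,⟨0,2,0,8,8,5,false,false⟩,⟨2,3,8,5,5,17,false,false⟩,⟨3,4,17,5,5,16,false,false⟩,⟨0,4,0,5,16,4,false,false⟩,⟨4,5,16,4,4,15,false,false⟩,⟨0,5,0,4,15,3,false,false⟩,⟨5,6,15,3,3,12,false,false⟩,⟨0,6,0,3,12,2,false,false⟩,⟨0,7,0,2,2,1,false,false⟩,⟨0,8,0,1,1,7,false,false⟩,⟨8,9,1,7,7,11,false,true⟩,⟨8,9,1,11,11,10,false,true⟩,⟨7,8,2,1,10,6,false,false⟩,⟨8,9,6,10,10,18,false,false⟩,⟨7,8,2,6,18,13,false,false⟩,⟨6,7,12,2,13,14,false,false⟩,⟨0,1,7,0,8,9,false,false⟩]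 (nat_lit 24) (nat_lit 5592405) (by decide +kernel)
noncomputable def s35 : Raw := ⟨[(0,[10,8,1,2,3,4,9]),(1,[11,7,6,5,2,0,8,12]),(2,[13,3,0,1,5]),(3,[14,4,0,2,13]),(4,[15,9,0,3,14]),(5,[17,13,2,1,6,16]),(6,[16,5,1,7,18]),(7,[18,6,1,11,19])], [14,15,9,10,8,12,11,19,18,16,17,13], [(3,0),(1,5),(5,16),(5,13)]⟩
def c35 : RawB s35 := raw1 s35 (nat_lit 10) [⟨0,1,5,5,5,6,false,false⟩,⟨0,2,5,6,6,1,false,false⟩,⟨0,3,5,1,1,2,false,false⟩,⟨0,4,5,2,2,13,false,false⟩,⟨3,5,2,1,1,0,false,false⟩,⟨3,4,0,2,13,3,false,false⟩,⟨4,6,13,3,3,14,true,false⟩,⟨2,4,6,1,1,7,false,false⟩,⟨5,7,1,0,0,8,false,false⟩,⟨3,8,3,0,0,4,false,false⟩,⟨6,3,14,3,4,4,false,false⟩,⟨2,3,6,7,7,18,false,false⟩,⟨6,9,14,4,4,15,true,false⟩,⟨8,9,0,4,15,9,false,false⟩,⟨7,8,8,0,9,10,false,false⟩,⟨1,2,5,6,18,16,false,false⟩,⟨0,1,13,5,16,17,false,false⟩,⟨5,6,1,8,8,12,false,false⟩,⟨4,5,7,1,12,11,false,false⟩,⟨4,3,11,7,18,19,false,false⟩]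 (nat_lit 8) (nat_lit 85) (by decide +kernel)
noncomputable def s36 : Raw := ⟨[(0,[10,8,1,2,3,4,5,9]),(1,[11,6,2,0,8]),(2,[7,3,0,1,6,12]),(3,[15,13,4,0,2,7,14]),(4,[16,5,0,3,13]),(5,[17,9,0,4,16]),(6,[12,2,1,11,18]),(7,[14,3,2,12,19])], [18,12,19,14,15,13,16,17,9,10,8,11], [(0,9),(0,8),(3,13),(2,12)]⟩
def c36 : RawB s36 := raw1 s36 (nat_lit 10) [⟨0,1,4,4,4,5,false,false⟩,⟨0,2,4,5,5,0,false,false⟩,⟨1,3,4,5,5,16,false,false⟩,⟨0,5,0,4,4,3,false,false⟩,⟨0,4,0,3,3,2,false,false⟩,⟨5,6,4,3,3,13,false,false⟩,⟨5,1,13,4,16,16,false,false⟩,⟨0,1,2,0,0,1,false,false⟩,⟨4,7,2,3,3,7,false,false⟩,⟨4,8,2,7,7,12,false,false⟩,⟨0,4,1,2,12,6,false,false⟩,⟨4,9,6,12,12,18,false,true⟩,⟨0,4,1,6,18,11,false,true⟩,⟨3,4,5,16,16,17,false,false⟩,⟨2,3,0,5,17,9,false,false⟩,⟨8,9,7,12,12,19,false,false⟩,⟨7,8,3,7,19,14,false,false⟩,⟨6,7,13,3,14,15,false,false⟩,⟨1,0,0,1,11,8,false,false⟩,⟨1,2,8,0,9,10,false,false⟩]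 (nat_lit 12) (nat_lit 1365) (by decide +kernel)
noncomputable def s37 : Raw := ⟨[(0,[8,1,2,3,9]),(1,[10,2,0,8,11]),(2,[12,4,3,0,1,10,13]),(3,[9,0,2,4,5,6,7,14]),(4,[15,5,3,2,12,16]),(5,[17,6,3,4,15]),(6,[18,7,3,5,17,19]),(7,[20,14,3,6,18])], [17,19,18,20,14,9,8,11,10,13,12,16,15], [(3,6),(6,17),(6,18),(7,14)]⟩
def c37 : RawB s37 := raw1 s37 (nat_lit 11) [⟨0,1,1,1,1,10,false,false⟩,⟨0,2,1,10,10,2,false,false⟩,⟨0,3,2,1,1,0,false,false⟩,⟨1,4,1,10,10,11,false,false⟩,⟨1,5,1,11,11,8,false,false⟩,⟨3,1,0,1,8,8,false,false⟩,⟨0,6,2,0,0,3,false,false⟩,⟨0,1,3,2,2,4,false,false⟩,⟨6,7,0,3,3,9,false,false⟩,⟨6,3,9,0,8,8,false,false⟩,⟨0,8,4,3,3,5,false,false⟩,⟨0,3,4,5,5,15,false,false⟩,⟨3,9,5,15,15,17,false,true⟩,⟨8,3,3,5,17,6,false,false⟩,⟨3,9,17,6,6,19,true,false⟩,⟨2,3,2,10,10,13,false,false⟩,⟨9,10,6,19,19,18,false,false⟩,⟨8,9,3,6,18,7,false,false⟩,⟨8,7,7,3,9,14,false,false⟩,⟨8,9,14,7,18,20,false,false⟩,⟨1,2,4,2,13,12,false,false⟩,⟨1,0,12,4,15,16,false,false⟩]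 (nat_lit 21) (nat_lit 699050) (by decide +kernel)
noncomputable def s38 : Raw := ⟨[(0,[8,6,1,2,7]),(1,[9,4,3,2,0,6,10]),(2,[7,0,1,3,5,11]),(3,[13,5,2,1,4,12,14]),(4,[12,3,1,9,15]),(5,[16,11,2,3,13])], [12,14,13,16,11,7,8,6,10,9,15], [(1,9),(1,3),(3,12),(3,13)]⟩
def c38 : RawB s38 := raw1 s38 (nat_lit 9) [⟨0,1,2,2,2,3,false,false⟩,⟨0,2,3,2,2,1,false,false⟩,⟨2,3,1,2,2,0,false,false⟩,⟨3,4,0,2,2,7,false,false⟩,⟨4,5,2,7,7,11,false,false⟩,⟨1,4,3,2,11,5,false,false⟩,⟨4,6,5,11,11,16,false,false⟩,⟨4,7,5,16,16,13,false,false⟩,⟨1,4,3,5,13,13,false,false⟩,⟨0,4,1,3,3,4,false,false⟩,⟨1,8,3,13,13,14,false,false⟩,⟨4,1,4,3,14,12,false,true⟩,⟨0,1,4,1,1,9,false,false⟩,⟨0,4,9,4,12,15,false,true⟩,⟨3,4,0,7,7,8,false,false⟩,⟨2,3,1,0,8,6,false,false⟩,⟨2,1,6,1,9,10,false,false⟩] (nat_lit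 23) (nat_lit 5592405) (by decide +kernel)
noncomputable def s39 : Raw := ⟨[(0,[9,7,1,2,3,8]),(1,[10,2,0,7,11]),(2,[12,5,4,3,0,1,10]),(3,[14,8,0,2,4,6,13]),(4,[6,3,2,5,15]),(5,[15,4,2,12,16]),(6,[17,13,3,4,15])], [12,16,15,17,13,14,8,9,7,11,10], [(1,11),(0,8),(0,7),(0,2)]⟩
def c39 : RawB s39 := raw1 s39 (nat_lit 9) [⟨0,1,2,2,2,3,false,false⟩,⟨0,2,2,3,3,0,false,false⟩,⟨1,3,3,2,2,4,false,false⟩,⟨2,4,0,3,3,8,false,false⟩,⟨4,5,8,3,3,14,false,false⟩,⟨5,6,14,3,3,13,false,false⟩,⟨1,6,4,3,13,6,false,false⟩,⟨6,7,13,6,6,17,false,false⟩,⟨1,7,4,6,17,15,false,false⟩,⟨3,1,2,4,15,5,false,false⟩,⟨1,8,5,15,15,16,false,false⟩,⟨3,1,2,5,16,12,false,true⟩,⟨0,1,2,0,0,1,false,false⟩,⟨0,3,1,2,12,10,false,true⟩,⟨2,3,0,8,8,9,false,false⟩,⟨1,2,1,0,9,7,false,false⟩,⟨1,0,7,1,10,11,false,false⟩]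 (nat_lit 11) (nat_lit 682) (by decide +kernel)
noncomputable def s40 : Raw := ⟨[(0,[9,7,1,2,3,8]),(1,[10,2,0,7,11]),(2,[12,5,4,3,0,1,10]),(3,[8,0,2,4,6,13]),(4,[15,6,3,2,5,14,16]),(5,[14,4,2,12,17]),(6,[18,13,3,4,15])], [16,15,18,13,8,9,7,11,10,12,17,14], [(5,12),(5,14),(2,4),(4,15)]⟩
def c40 : RawB s40 := raw1 s40 (nat_lit 10) [⟨0,1,5,5,5,12,false,false⟩,⟨0,2,5,12,12,2,false,false⟩,⟨0,3,5,2,2,4,false,false⟩,⟨0,4,5,4,4,14,false,false⟩,⟨3,6,2,4,4,3,false,false⟩,⟨3,5,2,3,3,0,false,false⟩,⟨6,7,4,3,3,6,false,false⟩,⟨6,8,4,6,6,15,false,false⟩,⟨4,6,14,4,15,16,true,true⟩,⟨8,9,6,15,15,18,false,false⟩,⟨7,8,3,6,18,13,false,false⟩,⟨5,7,0,3,13,8,false,false⟩,⟨1,0,12,5,14,17,false,false⟩,⟨3,4,2,0,0,1,false,false⟩,⟨3,2,1,2,12,10,false,false⟩,⟨5,6,0,8,8,9,false,false⟩,⟨4,5,1,0,9,7,false,false⟩,⟨4,3,7,1,10,11,false,false⟩]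 (nat_lit 20) (nat_lit 349525) (by decide +kernel)
noncomputable def s41 : Raw := ⟨[(0,[9,7,1,2,3,8]),(1,[10,2,0,7,11]),(2,[5,4,3,0,1,10]),(3,[13,8,0,2,4,6,12]),(4,[15,6,3,2,5,14,16]),(5,[14,4,2,10,17]),(6,[18,12,3,4,15])], [15,18,12,13,8,9,7,11,10,17,14,16], [(1,11),(0,8),(0,7),(0,2)]⟩
def c41 : RawB s41 := raw1 s41 (nat_lit 10) [⟨0,1,14,14,14,17,false,false⟩,⟨0,2,14,17,17,5,false,false⟩,⟨0,3,14,5,5,4,false,false⟩,⟨0,4,14,4,4,16,false,false⟩,⟨3,5,5,4,4,2,false,false⟩,⟨3,2,2,5,17,10,false,false⟩,⟨4,6,16,4,4,15,true,false⟩,⟨3,4,10,2,2,1,false,false⟩,⟨6,7,15,4,4,6,false,false⟩,⟨5,7,2,4,6,3,false,false⟩,⟨4,5,1,2,3,0,false,false⟩,⟨6,9,15,6,6,18,true,false⟩,⟨7,9,3,6,18,12,false,false⟩,⟨7,8,3,12,12,13,false,false⟩,⟨5,7,0,3,13,8,false,false⟩,⟨5,6,0,8,8,9,false,false⟩,⟨4,5,1,0,9,7,false,false⟩,⟨4,3,7,1,10,11,false,false⟩]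 (nat_lit 21) (nat_lit 1398101) (by decide +kernel)
noncomputable def s42 : Raw := ⟨[(0,[8,6,1,2,7]),(1,[9,4,3,2,0,6,10]),(2,[7,0,1,3,5]),(3,[12,5,2,1,4,11,13]),(4,[11,3,1,9,14]),(5,[15,7,2,3,12])], [7,8,6,10,9,14,11,13,12,15], [(0,7),(0,1),(1,3),(3,12)]⟩
def c42 : RawB s42 := raw1 s42 (nat_lit 8) [⟨0,1,7,7,7,15,false,true⟩,⟨0,2,15,7,7,5,false,false⟩,⟨0,1,15,5,5,12,false,false⟩,⟨2,3,5,7,7,2,false,false⟩,⟨2,1,2,5,12,3,false,false⟩,⟨3,4,2,7,7,0,false,false⟩,⟨3,2,0,2,3,1,false,false⟩,⟨4,7,7,0,0,8,true,false⟩,⟨3,7,1,0,8,6,false,false⟩,⟨3,6,1,6,6,10,false,false⟩,⟨3,5,1,10,10,9,false,false⟩,⟨2,3,3,1,9,4,false,false⟩,⟨3,4,4,9,9,14,false,false⟩,⟨2,3,3,4,14,11,false,false⟩,⟨2,1,11,3,12,13,false,false⟩] (nat_lit 12) (nat_lit 2730) (by decide +kernel)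
noncomputable def s43 : Raw := ⟨[(0,[10,8,1,2,3,4,5,9]),(1,[11,6,2,0,8,12]),(2,[7,3,0,1,6]),(3,[15,13,4,0,2,7,14]),(4,[16,5,0,3,13,17]),(5,[18,9,0,4,16]),(6,[19,7,2,1,11]),(7,[14,3,2,6,19])], [11,19,14,15,13,17,16,18,9,10,8,12], [(0,3),(3,14),(3,13),(1,6)]⟩
def c43 : RawB s43 := raw1 s43 (nat_lit 10) [⟨0,1,3,3,3,4,false,false⟩,⟨0,2,3,4,4,0,false,false⟩,⟨1,3,3,4,4,13,false,false⟩,⟨0,4,0,3,3,2,false,false⟩,⟨3,6,4,13,13,17,false,false⟩,⟨3,5,4,17,17,16,false,false⟩,⟨1,7,3,13,13,15,false,false⟩,⟨1,8,3,15,15,14,false,false⟩,⟨4,1,2,3,14,7,false,false⟩,⟨1,9,7,14,14,19,false,false⟩,⟨4,1,2,7,19,6,false,false⟩,⟨0,4,0,2,6,1,false,false⟩,⟨4,1,1,6,19,11,false,true⟩,⟨2,3,0,4,16,5,false,false⟩,⟨0,1,1,0,0,8,false,false⟩,⟨0,4,8,1,11,12,false,true⟩,⟨3,4,5,16,16,18,false,false⟩,⟨2,3,0,5,18,9,false,false⟩,⟨1,2,8,0,9,10,false,false⟩]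 (nat_lit 13) (nat_lit 5461) (by decide +kernel)
end Pool.Agent.FCT.R
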