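import Pool.Agent.Lib.MP_fe5cb4_co.FC.RawDef
set_option linter.defProp false
namespace Pool.Agent.FCT.R
open Pool.Agent.Lib.MP_fe5cb4_co.FC
noncomputable def s1143 : Raw := ⟨[(0,[11,9,1,2,3,4,5,6,10]),(1,[12,2,0,9,13]),(2,[14,7,3,0,1,12]),(3,[8,4,0,2,7]),(4,[17,15,5,0,3,8,16]),(5,[18,6,0,4,15]),(6,[19,10,0,5,18]),(7,[20,8,3,2,14]),(8,[21,16,4,3,7,20])], [19,10,11,9,13,12,14,20,21,16,17,15,18], [(0,4),(4,16),(4,15)]⟩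
def c1143 : RawB s1143 := raw1 s1143 (nat_lit 11) [⟨0,1,3,3,3,7,false,false⟩,⟨0,2,7,3,3,8,false,false⟩,⟨0,3,7,8,8,20,false,false⟩,⟨0,5,7,20,20,14,false,false⟩,⟨0,6,7,14,14,2,false,false⟩,⟨0,1,2,7,3,3,false,false⟩,⟨0,7,3,2,2,0,false,false⟩,⟨0,2,0,3,8,4,false,false⟩,⟨0,1,0,4,4,5,false,false⟩,⟨0,4,5,0,0,6,false,false⟩,⟨7,8,2,0,0,1,false,false⟩,⟨7,6,1,2,14,12,false,false⟩,⟨4,9,6,0,0,10,false,false⟩,⟨4,10,6,10,10,19,false,true⟩,⟨0,4,5,6,19,18,false,true⟩,⟨3,4,8,20,20,21,false,false⟩,⟨2,3,4,8,21,16,false,false⟩,⟨9,10,0,10,10,11,false,false⟩,⟨8,9,1,0,11,9,false,false⟩,⟨8,7,9,1,12,13,false,false⟩,⟨1,0,4,5,18,15,false,false⟩,⟨1,2,15,4,16,17,false,false⟩] (nat_lit 11) (nat_lit 1365) (by decide +kernel)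
noncomputable def s1144 : Raw := ⟨[(0,[11,9,1,2,3,4,5,6,10]),(1,[12,2,0,9,13]),(2,[14,7,3,0,1,12]),(3,[8,4,0,2,7]),(4,[17,15,5,0,3,8,16]),(5,[18,6,0,4,15]),(6,[19,10,0,5,18]),(7,[20,8,3,2,14]),(8,[16,4,3,7,20])], [11,9,13,12,14,20,16,17,15,18,19,10], [(6,19),(0,4),(4,16),(4,15)]⟩
def c1144 : RawB s1144 := raw1 s1144 (nat_lit 10) [⟨0,1,2,2,2,7,false,false⟩,⟨0,2,2,7,7,3,false,false⟩,⟨2,3,7,3,3,8,false,false⟩,⟨0,4,3,2,2,0,false,false⟩,⟨0,3,0,3,8,4,false,false⟩,⟨3,5,4,8,8,16,false,false⟩,⟨2,5,7,8,16,20,false,false⟩,⟨2,6,7,20,20,14,false,false⟩,⟨1,2,2,7,14,14,false,false⟩,⟨0,2,0,4,4,5,false,false⟩,⟨1,7,2,14,14,12,false,false⟩,⟨1,8,2,12,12,1,false,false⟩,⟨4,1,0,2,1,1,false,false⟩,⟨8,9,12,1,1,13,false,false⟩,⟨4,9,0,1,13,9,false,false⟩,⟨4,1,0,9,9,11,false,true⟩,⟨0,1,0,5,5,6,false,false⟩,⟨0,4,6,0,11,10,false,true⟩,⟨3,4,4,16,16,17,false,false⟩,⟨2,3,5,4,17,15,false,false⟩,⟨1,2,6,5,15,18,false,false⟩,⟨0,1,10,6,18,19,false,false⟩]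 (nat_lit 7) (nat_lit 85) (by decide +kernel)
noncomputable def s1145 : Raw := ⟨[(0,[12,10,1,2,3,4,5,6,11]),(1,[13,7,2,0,10]),(2,[16,14,3,0,1,7,15]),(3,[17,4,0,2,14]),(4,[18,8,5,0,3,17]),(5,[9,6,0,4,8]),(6,[20,11,0,5,9,19]),(7,[15,2,1,13,21]),(8,[22,9,5,4,18]),(9,[19,6,5,8,22])], [17,18,22,19,20,11,12,10,13,21,15,16,14], [(0,4),(4,17),(0,6),(6,19)]⟩
def c1145 : RawB s1145 := raw1 s1145 (nat_lit 11) [⟨0,1,0,0,0,2,false,false⟩,⟨0,2,2,0,0,3,false,false⟩,⟨2,3,0,3,3,4,false,false⟩,⟨2,4,0,4,4,5,false,false⟩,⟨2,5,0,5,5,6,false,false⟩,⟨2,7,0,6,6,11,false,false⟩,⟨2,6,0,11,11,12,false,false⟩,⟨5,8,5,6,6,9,false,false⟩,⟨5,9,5,9,9,8,false,false⟩,⟨4,5,4,5,8,8,false,false⟩,⟨9,10,9,8,8,22,false,false⟩,⟨8,9,6,9,22,19,false,false⟩,⟨7,8,11,6,19,20,false,false⟩,⟨4,10,4,8,22,18,false,false⟩,⟨3,4,3,4,18,17,false,true⟩,⟨0,3,2,3,17,14,false,true⟩,⟨2,5,0,12,12,10,false,false⟩,⟨1,2,2,0,10,1,false,false⟩,⟨2,4,1,10,10,13,false,false⟩,⟨1,2,2,1,13,7,false,false⟩,⟨2,3,7,13,13,21,false,false⟩,⟨1,2,2,7,21,15,false,false⟩,⟨0,1,14,2,15,16,false,false⟩]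 (nat_lit 8) (nat_lit 85) (by decide +kernel)
noncomputable def s1146 : Raw := ⟨[(0,[12,10,1,2,3,4,5,6,11]),(1,[13,7,2,0,10]),(2,[16,14,3,0,1,7,15]),(3,[17,4,0,2,14,18]),(4,[19,8,5,0,3,17]),(5,[9,6,0,4,8]),(6,[21,11,0,5,9,20]),(7,[15,2,1,13,22]),(8,[23,9,5,4,19]),(9,[20,6,5,8,23])], [13,22,15,16,14,18,17,19,23,20,21,11,12,10], [(3,14),(3,17),(0,3),(6,21)]⟩
def c1146 : RawB s1146 := raw1 s1146 (nat_lit 12) [⟨0,1,5,5,5,6,false,false⟩,⟨0,2,5,6,6,9,false,false⟩,⟨2,3,6,9,9,20,false,false⟩,⟨3,4,9,20,20,23,false,false⟩,⟨0,3,5,9,23,8,false,false⟩,⟨3,5,8,23,23,19,false,false⟩,⟨0,3,5,8,19,4,false,false⟩,⟨0,1,4,5,6,0,false,false⟩,⟨3,6,4,19,19,17,false,false⟩,⟨3,7,4,17,17,3,false,false⟩,⟨0,3,0,4,3,3,false,false⟩,⟨0,8,0,3,3,2,false,false⟩,⟨0,3,0,2,2,1,false,false⟩,⟨3,9,1,2,2,7,false,false⟩,⟨9,10,2,7,7,15,false,false⟩,⟨10,11,7,15,15,22,false,false⟩,⟨3,10,1,7,22,13,false,true⟩,⟨9,10,2,15,15,16,false,false⟩,⟨8,9,3,2,16,14,false,false⟩,⟨8,7,14,3,17,18,false,false⟩,⟨0,3,0,1,13,10,false,true⟩,⟨2,3,6,20,20,21,false,false⟩,⟨1,2,0,6,21,11,false,false⟩,⟨0,1,10,0,11,12,false,false⟩]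 (nat_lit 17) (nat_lit 87381) (by decide +kernel)
noncomputable def s1147 : Raw := ⟨[(0,[12,10,1,2,3,4,5,6,11]),(1,[13,2,0,10,14]),(2,[15,7,3,0,1,13]),(3,[8,4,0,2,7]),(4,[16,5,0,3,8,9,17]),(5,[18,6,0,4,16]),(6,[19,11,0,5,18]),(7,[20,8,3,2,15]),(8,[21,9,4,3,7,20,22]),(9,[23,17,4,8,21])], [18,19,11,12,10,14,13,15,20,22,21,23,17,16], [(0,3)]⟩
def c1147 : RawB s1147 := raw1 s1147 (nat_lit 12) [⟨0,1,0,0,0,4,false,false⟩,⟨0,2,4,0,0,5,false,false⟩,⟨1,3,4,0,0,3,false,false⟩,⟨3,4,3,0,0,2,false,false⟩,⟨3,5,3,2,2,7,false,false⟩,⟨1,3,4,3,7,8,false,false⟩,⟨5,6,7,2,2,15,false,false⟩,⟨3,5,8,7,15,20,false,false⟩,⟨6,7,15,2,2,13,false,false⟩,⟨4,7,0,2,13,1,false,false⟩,⟨7,8,13,1,1,14,false,false⟩,⟨4,8,0,1,14,10,false,false⟩,⟨4,9,0,10,10,12,false,false⟩,⟨4,10,0,12,12,11,false,false⟩,⟨2,4,5,0,11,6,false,false⟩,⟨4,11,6,11,11,19,false,false⟩,⟨2,4,5,6,19,18,false,true⟩,⟨0,2,4,5,18,16,false,true⟩,⟨1,2,4,8,8,9,false,false⟩,⟨1,0,9,4,16,17,false,false⟩,⟨3,4,8,20,20,22,false,false⟩,⟨2,3,9,8,22,21,false,false⟩,⟨1,2,17,9,21,23,false,false⟩]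 (nat_lit 12) (nat_lit 2730) (by decide +kernel)
noncomputable def s1148 : Raw := ⟨[(0,[11,9,1,2,3,4,5,6,10]),(1,[12,2,0,9,13]),(2,[14,7,3,0,1,12,15]),(3,[8,4,0,2,7]),(4,[16,5,0,3,8,17]),(5,[18,6,0,4,16]),(6,[19,10,0,5,18]),(7,[20,8,3,2,14,21]),(8,[17,4,3,7,20])], [19,10,11,9,13,12,15,14,21,20,17,16,18], [(6,5),(5,16),(0,4),(4,17)]⟩
def c1148 : RawB s1148 := raw1 s1148 (nat_lit 11) [⟨0,1,8,8,8,17,false,false⟩,⟨0,2,8,17,17,20,false,false⟩,⟨0,3,8,20,20,7,false,false⟩,⟨0,4,8,7,7,3,false,false⟩,⟨0,1,3,8,17,4,false,false⟩,⟨0,5,4,3,3,0,false,false⟩,⟨5,4,0,3,7,2,false,false⟩,⟨0,6,4,0,0,5,false,false⟩,⟨0,1,5,4,17,16,false,false⟩,⟨6,7,5,0,0,6,false,false⟩,⟨6,0,6,5,16,18,false,false⟩,⟨6,8,6,18,18,19,false,true⟩,⟨7,6,0,6,19,10,false,true⟩,⟨7,10,0,10,10,11,false,false⟩,⟨7,9,0,11,11,9,false,false⟩,⟨5,7,2,0,9,1,false,false⟩,⟨7,8,1,9,9,13,false,false⟩,⟨5,7,2,1,13,12,false,false⟩,⟨5,6,2,12,12,15,false,false⟩,⟨4,5,7,2,15,14,false,false⟩,⟨4,3,14,7,20,21,false,false⟩]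 (nat_lit 10) (nat_lit 682) (by decide +kernel)
noncomputable def s1149 : Raw := ⟨[(0,[11,9,1,2,3,4,5,6,10]),(1,[12,7,2,0,9]),(2,[8,3,0,1,7]),(3,[15,13,4,0,2,8,14]),(4,[16,5,0,3,13]),(5,[17,6,0,4,16,18]),(6,[19,10,0,5,17]),(7,[20,8,2,1,12]),(8,[21,14,3,2,7,20])], [19,10,11,9,12,20,21,14,15,13,16,18,17], [(0,3),(3,14),(3,13),(7,12)]⟩
def c1149 : RawB s1149 := raw1 s1149 (nat_lit 11) [⟨0,1,4,4,4,5,false,false⟩,⟨0,2,5,4,4,0,false,false⟩,⟨2,3,4,0,0,3,false,false⟩,⟨3,4,0,3,3,2,false,false⟩,⟨4,5,3,2,2,8,false,false⟩,⟨5,6,8,2,2,7,false,false⟩,⟨6,7,2,7,7,1,false,false⟩,⟨3,6,0,2,1,1,false,false⟩,⟨7,8,7,1,1,12,false,false⟩,⟨5,7,8,7,12,20,false,false⟩,⟨3,8,0,1,12,9,false,false⟩,⟨3,9,0,9,9,11,false,false⟩,⟨3,10,0,11,11,10,false,false⟩,⟨0,3,5,0,10,6,false,false⟩,⟨3,6,6,10,10,19,false,true⟩,⟨0,3,5,6,19,17,false,true⟩,⟨2,3,4,3,3,13,false,false⟩,⟨1,2,5,4,13,16,false,false⟩,⟨1,0,16,5,17,18,false,false⟩,⟨5,6,8,20,20,21,false,false⟩,⟨4,5,3,8,21,14,false,false⟩,⟨3,4,13,3,14,15,false,false⟩]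 (nat_lit 17) (nat_lit 87381) (by decide +kernel)
noncomputable def s1150 : Raw := ⟨[(0,[12,10,1,2,3,4,5,6,11]),(1,[13,7,2,0,10]),(2,[8,3,0,1,7]),(3,[14,4,0,2,8,9,15]),(4,[16,5,0,3,14]),(5,[17,6,0,4,16,18]),(6,[19,11,0,5,17]),(7,[20,8,2,1,13]),(8,[21,9,3,2,7,20,22]),(9,[23,15,3,8,21])], [20,22,21,23,15,14,16,18,17,19,11,12,10,13], [(1,13),(8,20),(8,21),(3,8)]⟩
def c1150 : RawB s1150 := raw1 s1150 (nat_lit 12) [⟨0,1,0,0,0,1,false,false⟩,⟨0,2,1,0,0,2,false,false⟩,⟨2,4,0,2,2,3,false,false⟩,⟨2,5,0,3,3,4,false,false⟩,⟨2,3,0,4,4,5,false,false⟩,⟨3,7,5,4,4,16,false,false⟩,⟨5,8,4,3,3,14,false,false⟩,⟨7,5,16,4,14,14,false,false⟩,⟨4,9,2,3,3,8,false,false⟩,⟨0,4,1,2,8,7,false,false⟩,⟨4,5,8,7,7,20,false,false⟩,⟨0,5,1,7,20,13,false,true⟩,⟨3,6,5,16,16,18,false,false⟩,⟨3,5,5,18,18,17,false,false⟩,⟨2,3,0,5,17,6,false,false⟩,⟨4,10,20,8,8,22,true,false⟩,⟨3,4,6,17,17,19,false,false⟩,⟨10,11,8,22,22,21,false,false⟩,⟨9,10,3,8,21,9,false,false⟩,⟨9,8,9,3,14,15,false,false⟩,⟨9,10,15,9,21,23,false,false⟩,⟨2,3,0,6,19,11,false,false⟩,⟨1,0,0,1,13,10,false,false⟩,⟨1,2,10,0,11,12,false,false⟩]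 (nat_lit 10) (nat_lit 341) (by decide +kernel)
noncomputable def s1151 : Raw := ⟨[(0,[12,10,1,2,3,4,5,11]),(1,[13,6,2,0,10]),(2,[7,3,0,1,6]),(3,[16,14,4,0,2,7,8,9,15]),(4,[17,5,0,3,14]),(5,[18,11,0,4,17]),(6,[19,7,2,1,13]),(7,[20,8,3,2,6,19]),(8,[21,9,3,7,20]),(9,[22,15,3,8,21])], [17,18,11,12,10,13,19,20,21,22,15,16,14], [(0,1),(1,13),(3,2)]⟩
def c1151 : RawB s1151 := raw1 s1151 (nat_lit 11) [⟨0,1,0,0,0,3,false,false⟩,⟨0,3,3,0,0,4,false,false⟩,⟨1,4,3,0,0,2,false,false⟩,⟨1,5,3,2,2,7,false,false⟩,⟨1,2,3,7,7,8,false,false⟩,⟨5,6,7,2,2,6,false,false⟩,⟨4,7,2,0,0,1,false,false⟩,⟨6,4,6,2,1,1,false,false⟩,⟨0,4,3,4,4,14,false,false⟩,⟨7,8,1,0,0,10,false,false⟩,⟨6,7,6,1,10,13,false,false⟩,⟨5,6,7,6,13,19,false,false⟩,⟨2,5,8,7,19,20,false,false⟩,⟨3,9,4,0,0,5,false,false⟩,⟨3,4,5,4,14,17,false,true⟩,⟨2,4,8,20,20,21,false,false⟩,⟨3,10,17,5,5,18,true,false⟩,⟨9,10,0,5,18,11,false,false⟩,⟨8,9,10,0,11,12,false,false⟩,⟨1,2,3,8,21,9,false,false⟩,⟨2,3,9,21,21,22,false,false⟩,⟨1,2,3,9,22,15,false,false⟩,⟨0,1,14,3,15,16,false,false⟩]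 (nat_lit 10) (nat_lit 682) (by decide +kernel)
noncomputable def s1152 : Raw := ⟨[(0,[8,1,2,3,9]),(1,[10,2,0,8,11]),(2,[12,4,3,0,1,10,13]),(3,[15,9,0,2,4,5,6,7,14]),(4,[16,5,3,2,12]),(5,[17,6,3,4,16]),(6,[18,7,3,5,17]),(7,[19,14,3,6,18])], [8,11,10,13,12,16,17,18,19,14,15,9], [(2,4),(4,16),(6,17),(6,7)]⟩
def c1152 : RawB s1152 := raw1 s1152 (nat_lit 10) [⟨0,1,3,3,3,6,false,false⟩,⟨0,2,3,6,6,5,false,false⟩,⟨2,3,6,5,5,17,false,false⟩,⟨3,5,5,17,17,16,false,false⟩,⟨3,6,5,16,16,4,false,false⟩,⟨0,3,3,5,4,4,false,false⟩,⟨6,7,16,4,4,12,false,false⟩,⟨0,7,3,4,12,2,false,false⟩,⟨0,3,3,2,2,0,false,false⟩,⟨0,4,3,0,0,9,false,false⟩,⟨3,8,0,2,2,1,false,false⟩,⟨3,4,1,0,9,8,false,true⟩,⟨2,4,6,17,17,18,false,false⟩,⟨3,9,8,1,1,11,true,false⟩,⟨8,9,2,1,11,10,false,false⟩,⟨8,7,10,2,12,13,false,false⟩,⟨1,2,3,6,18,7,false,false⟩,⟨2,3,7,18,18,19,false,false⟩,⟨1,2,3,7,19,14,false,false⟩,⟨0,1,9,3,14,15,false,false⟩]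 (nat_lit 11) (nat_lit 682) (by decide +kernel)
noncomputable def s1153 : Raw := ⟨[(0,[11,9,1,2,3,4,5,10]),(1,[12,6,2,0,9]),(2,[15,13,3,0,1,6,7,8,14]),(3,[16,4,0,2,13]),(4,[17,5,0,3,16]),(5,[18,10,0,4,17]),(6,[19,7,2,1,12]),(7,[20,8,2,6,19]),(8,[21,14,2,7,20])], [20,21,14,15,13,16,17,18,10,11,9,12,19], [(1,9),(1,2),(8,20),(8,14)]⟩
def c1153 : RawB s1153 := raw1 s1153 (nat_lit 11) [⟨0,1,1,1,1,12,false,false⟩,⟨0,2,12,1,1,6,false,false⟩,⟨0,3,12,6,6,19,false,false⟩,⟨3,4,19,6,6,7,false,false⟩,⟨2,4,1,6,7,2,false,false⟩,⟨3,5,19,7,7,20,true,false⟩,⟨4,5,2,7,20,8,false,false⟩,⟨2,3,1,2,2,0,false,false⟩,⟨2,1,0,1,12,9,false,false⟩,⟨5,10,20,8,8,21,true,false⟩,⟨4,10,2,8,21,14,false,false⟩,⟨4,9,2,14,14,15,false,false⟩,⟨4,8,2,15,15,13,false,false⟩,⟨3,4,0,2,13,3,false,false⟩,⟨4,7,3,13,13,16,false,false⟩,⟨3,4,0,3,16,4,false,false⟩,⟨4,6,4,16,16,17,false,false⟩,⟨3,4,0,4,17,5,false,false⟩,⟨4,5,5,17,17,18,false,false⟩,⟨3,4,0,5,18,10,false,false⟩,⟨2,3,9,0,10,11,false,false⟩]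 (nat_lit 11) (nat_lit 682) (by decide +kernel)
end Pool.Agent.FCT.R
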