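import Pool.Agent.Lib.MP_fe5cb4_co.FC.RawDef
set_option linter.defProp false
namespace Pool.Agent.FCT.R
open Pool.Agent.Lib.MP_fe5cb4_co.FC
noncomputable def s1165 : Raw := ⟨[(0,[10,8,1,2,3,4,5,6,9]),(1,[11,7,2,0,8,12]),(2,[15,13,3,0,1,7,14]),(3,[16,4,0,2,13]),(4,[17,5,0,3,16]),(5,[18,6,0,4,17]),(6,[19,9,0,5,18]),(7,[14,2,1,11,20])], [8,12,11,20,14,15,13,16,17,18,19,9,10], [(0,9),(0,8),(5,4),(0,2)]⟩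
def c1165 : RawB s1165 := raw1 s1165 (nat_lit 11) [⟨0,1,6,6,6,19,false,false⟩,⟨0,2,6,19,19,18,false,false⟩,⟨0,3,6,18,18,5,false,false⟩,⟨0,4,6,5,5,0,false,false⟩,⟨0,1,0,6,19,9,false,false⟩,⟨4,5,5,0,0,4,false,false⟩,⟨4,3,4,5,18,17,false,false⟩,⟨5,6,4,0,0,3,false,false⟩,⟨5,4,3,4,17,16,false,false⟩,⟨6,7,3,0,0,2,false,false⟩,⟨6,5,2,3,16,13,false,false⟩,⟨0,8,9,0,0,10,false,false⟩,⟨8,9,0,10,10,8,false,true⟩,⟨7,8,2,0,8,1,false,false⟩,⟨8,9,1,8,8,12,false,true⟩,⟨8,10,1,12,12,11,false,false⟩,⟨7,8,2,1,11,7,false,false⟩,⟨8,9,7,11,11,20,false,false⟩,⟨7,8,2,7,20,14,false,false⟩,⟨6,7,13,2,14,15,false,false⟩] (nat_lit 27) (nat_lit 44739242) (by decide +kernel)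
noncomputable def s1166 : Raw := ⟨[(0,[12,10,1,2,3,4,5,6,11]),(1,[13,8,7,2,0,10,14]),(2,[9,3,0,1,7]),(3,[15,4,0,2,9]),(4,[16,5,0,3,15]),(5,[17,6,0,4,16]),(6,[18,11,0,5,17]),(7,[20,9,2,1,8,19]),(8,[19,7,1,13,21]),(9,[15,3,2,7,20])], [17,18,11,12,10,14,13,21,19,20,15,16], [(0,2)]⟩
def c1166 : RawB s1166 := raw1 s1166 (nat_lit 10) [⟨0,1,3,3,3,9,false,false⟩,⟨0,2,3,9,9,2,false,false⟩,⟨0,3,3,2,2,0,false,false⟩,⟨0,4,3,0,0,4,false,false⟩,⟨0,1,4,3,9,15,false,false⟩,⟨3,5,2,0,0,1,false,false⟩,⟨3,2,1,2,9,7,false,false⟩,⟨2,1,7,9,15,20,false,false⟩,⟨4,6,4,0,0,5,false,false⟩,⟨4,0,5,4,15,16,false,false⟩,⟨5,7,1,0,0,10,false,false⟩,⟨6,8,5,0,0,6,false,false⟩,⟨6,4,6,5,16,17,false,true⟩,⟨3,4,7,1,1,8,false,false⟩,⟨6,9,17,6,6,18,true,false⟩,⟨8,9,0,6,18,11,false,false⟩,⟨7,8,10,0,11,12,false,false⟩,⟨3,2,8,7,20,19,false,false⟩,⟨5,6,1,10,10,14,false,false⟩,⟨4,5,8,1,14,13,false,false⟩,⟨4,3,13,8,19,21,false,false⟩]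 (nat_lit 6) (nat_lit 42) (by decide +kernel)
noncomputable def s1167 : Raw := ⟨[(0,[11,9,1,2,3,4,10]),(1,[12,8,7,6,5,2,0,9,13]),(2,[14,3,0,1,5]),(3,[15,4,0,2,14]),(4,[16,10,0,3,15]),(5,[14,2,1,6,17]),(6,[17,5,1,7,18]),(7,[18,6,1,8,19]),(8,[19,7,1,12,20])], [15,16,10,11,9,13,12,20,19,18,17,14], [(4,15),(4,10),(1,5),(5,14)]⟩
def c1167 : RawB s1167 := raw1 s1167 (nat_lit 10) [⟨0,1,6,6,6,18,false,false⟩,⟨0,2,6,18,18,7,false,false⟩,⟨0,3,6,7,7,1,false,false⟩,⟨0,4,6,1,1,5,false,false⟩,⟨0,1,5,6,18,17,false,false⟩,⟨4,5,5,1,1,2,false,false⟩,⟨4,0,2,5,17,14,false,false⟩,⟨4,6,14,2,2,3,false,false⟩,⟨5,6,1,2,3,0,false,false⟩,⟨5,7,1,0,0,9,false,false⟩,⟨6,8,3,0,0,4,false,false⟩,⟨6,4,4,3,14,15,false,true⟩,⟨3,4,7,1,1,8,false,false⟩,⟨6,9,15,4,4,16,true,false⟩,⟨8,9,0,4,16,10,false,false⟩,⟨7,8,9,0,10,11,false,false⟩,⟨3,2,8,7,18,19,false,false⟩,⟨5,6,1,9,9,13,false,false⟩,⟨4,5,8,1,13,12,false,false⟩,⟨4,3,12,8,19,20,false,false⟩]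 (nat_lit 5) (nat_lit 21) (by decide +kernel)
noncomputable def s1168 : Raw := ⟨[(0,[13,11,1,2,3,4,5,6,12]),(1,[14,7,2,0,11,15]),(2,[16,3,0,1,7,17]),(3,[18,9,8,4,0,2,16]),(4,[10,5,0,3,8]),(5,[19,6,0,4,10]),(6,[20,12,0,5,19]),(7,[17,2,1,14,21]),(8,[23,10,4,3,9,22]),(9,[22,8,3,18,24]),(10,[19,5,4,8,23])], [24,22,23,19,20,12,13,11,15,14,21,17,16,18], [(7,2),(3,16),(0,3),(3,9)]⟩
def c1168 : RawB s1168 := raw1 s1168 (nat_lit 12) [⟨0,1,2,2,2,16,false,false⟩,⟨0,2,16,2,2,3,false,false⟩,⟨2,3,2,3,3,0,false,false⟩,⟨3,4,3,0,0,4,false,false⟩,⟨4,5,0,4,4,5,false,false⟩,⟨5,6,4,5,5,10,false,false⟩,⟨3,5,3,4,10,8,false,false⟩,⟨6,7,10,5,5,19,false,false⟩,⟨7,8,5,19,19,6,false,false⟩,⟨4,7,0,5,6,6,false,false⟩,⟨8,9,6,19,19,20,false,false⟩,⟨4,8,0,6,20,12,false,false⟩,⟨4,7,0,12,12,13,false,false⟩,⟨6,10,10,19,19,23,false,false⟩,⟨5,6,8,10,23,23,false,false⟩,⟨5,11,8,23,23,22,false,false⟩,⟨3,5,3,8,22,9,false,false⟩,⟨3,0,9,3,16,18,false,false⟩,⟨3,5,18,9,22,24,true,true⟩,⟨4,6,0,13,13,11,false,false⟩,⟨2,4,2,0,11,1,false,false⟩,⟨2,3,2,1,1,7,false,false⟩,⟨2,1,7,2,16,17,false,false⟩,⟨4,5,1,11,11,15,false,false⟩,⟨3,4,7,1,15,14,false,false⟩,⟨3,2,14,7,17,21,false,false⟩]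 (nat_lit 8) (nat_lit 170) (by decide +kernel)
noncomputable def s1169 : Raw := ⟨[(0,[14,12,1,2,3,4,5,6,13]),(1,[15,7,2,0,12,16]),(2,[8,3,0,1,7]),(3,[17,4,0,2,8]),(4,[9,5,0,3,17]),(5,[10,6,0,4,9]),(6,[19,13,0,5,10,11,18]),(7,[20,8,2,1,15,21]),(8,[17,3,2,7,20]),(9,[22,10,5,4,17]),(10,[23,11,6,5,9,22]),(11,[24,18,6,10,23])], [14,12,16,15,21,20,17,22,23,24,18,19,13], [(0,4),(4,17),(1,7)]⟩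
def c1169 : RawB s1169 := raw1 s1169 (nat_lit 11) [⟨0,1,5,5,5,10,false,false⟩,⟨0,2,5,10,10,9,false,false⟩,⟨2,3,10,9,9,22,false,false⟩,⟨2,4,10,22,22,23,false,false⟩,⟨3,5,9,22,22,17,false,false⟩,⟨0,3,5,9,17,4,false,false⟩,⟨3,6,4,17,17,3,false,false⟩,⟨3,0,3,4,5,0,false,false⟩,⟨0,1,0,5,10,6,false,false⟩,⟨1,2,6,10,23,11,false,false⟩,⟨6,7,17,3,3,8,false,false⟩,⟨3,7,0,3,8,2,false,false⟩,⟨7,8,8,2,2,7,false,false⟩,⟨7,6,7,8,17,20,false,false⟩,⟨3,8,0,2,7,1,false,false⟩,⟨3,9,0,1,1,12,false,false⟩,⟨3,10,0,12,12,14,false,true⟩,⟨0,3,6,0,14,13,false,true⟩,⟨2,3,11,23,23,24,false,false⟩,⟨1,2,6,11,24,18,false,false⟩,⟨9,10,1,12,12,16,false,false⟩,⟨8,9,7,1,16,15,false,false⟩,⟨8,7,15,7,20,21,false,false⟩,⟨0,1,13,6,18,19,false,false⟩] (nat_lit 4) (nat_lit 5) (by decide +kernel)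
noncomputable def s1170 : Raw := ⟨[(0,[14,12,1,2,3,4,5,6,13]),(1,[15,7,2,0,12,16]),(2,[8,3,0,1,7]),(3,[17,4,0,2,8]),(4,[9,5,0,3,17]),(5,[10,6,0,4,9]),(6,[19,13,0,5,10,11,18]),(7,[20,8,2,1,15,21]),(8,[17,3,2,7,20]),(9,[22,10,5,4,17]),(10,[23,11,6,5,9,22,24]),(11,[25,18,6,10,23])], [23,25,18,19,13,14,12,16,15,21,20,17,22,24], [(6,5),(0,3),(3,17),(1,7)]⟩
def c1170 : RawB s1170 := raw1 s1170 (nat_lit 12) [⟨0,1,8,8,8,17,false,false⟩,⟨0,2,8,17,17,20,false,false⟩,⟨0,3,8,20,20,7,false,false⟩,⟨0,4,8,7,7,2,false,false⟩,⟨0,1,2,8,17,3,false,false⟩,⟨0,5,3,2,2,0,false,false⟩,⟨5,4,0,2,7,1,false,false⟩,⟨0,1,0,3,17,4,false,false⟩,⟨0,6,4,0,0,5,false,false⟩,⟨0,1,5,4,17,9,false,false⟩,⟨6,7,5,0,0,6,false,false⟩,⟨6,0,6,5,9,10,false,false⟩,⟨0,1,10,9,17,22,false,false⟩,⟨0,8,22,10,10,24,false,false⟩,⟨6,9,10,6,6,11,false,false⟩,⟨6,8,11,10,24,23,false,true⟩,⟨6,11,23,11,11,25,true,false⟩,⟨9,11,6,11,25,18,false,false⟩,⟨9,10,6,18,18,19,false,false⟩,⟨7,9,0,6,19,13,false,false⟩,⟨7,8,0,13,13,14,false,false⟩,⟨5,7,1,0,14,12,false,false⟩,⟨5,6,1,12,12,16,false,false⟩,⟨4,5,7,1,16,15,false,false⟩,⟨4,3,15,7,20,21,false,false⟩]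 (nat_lit 6) (nat_lit 21) (by decide +kernel)
noncomputable def s1171 : Raw := ⟨[(0,[9,1,2,3,10]),(1,[11,2,0,9,12]),(2,[13,4,3,0,1,11,14]),(3,[10,0,2,4,5,6,7,8,15]),(4,[16,5,3,2,13]),(5,[17,6,3,4,16]),(6,[18,7,3,5,17]),(7,[19,8,3,6,18,20]),(8,[21,15,3,7,19])], [17,18,20,19,21,15,10,9,12,11,14,13,16], [(3,7),(7,18),(7,19)]⟩
def c1171 : RawB s1171 := raw1 s1171 (nat_lit 11) [⟨0,1,2,2,2,4,false,false⟩,⟨0,2,4,2,2,3,false,false⟩,⟨2,3,2,3,3,0,false,false⟩,⟨0,4,4,3,3,5,false,false⟩,⟨3,5,0,3,3,10,false,false⟩,⟨5,6,3,10,10,15,false,false⟩,⟨5,7,3,15,15,8,false,false⟩,⟨5,8,3,8,8,7,false,false⟩,⟨4,5,5,3,7,6,false,false⟩,⟨5,9,6,7,7,18,false,false⟩,⟨4,5,5,6,18,17,false,true⟩,⟨0,4,4,5,17,16,false,true⟩,⟨3,5,0,10,10,9,false,false⟩,⟨2,3,2,0,9,1,false,false⟩,⟨3,4,1,9,9,12,false,false⟩,⟨2,3,2,1,12,11,false,false⟩,⟨9,10,7,18,18,20,false,false⟩,⟨8,9,8,7,20,19,false,false⟩,⟨7,8,15,8,19,21,false,false⟩,⟨1,0,2,4,16,13,false,false⟩,⟨2,1,11,2,13,14,false,false⟩]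 (nat_lit 11) (nat_lit 682) (by decide +kernel)
noncomputable def s1172 : Raw := ⟨[(0,[12,10,1,2,3,4,5,6,11]),(1,[13,7,2,0,10,14]),(2,[15,3,0,1,7]),(3,[8,4,0,2,15]),(4,[9,5,0,3,8]),(5,[18,16,6,0,4,9,17]),(6,[19,11,0,5,16]),(7,[15,2,1,13,20]),(8,[21,9,4,3,15]),(9,[22,17,5,4,8,21])], [20,15,21,22,17,18,16,19,11,12,10,14,13], [(7,2),(3,15),(0,3)]⟩
def c1172 : RawB s1172 := raw1 s1172 (nat_lit 11) [⟨0,1,2,2,2,15,false,false⟩,⟨0,2,2,15,15,7,false,false⟩,⟨2,3,15,7,7,20,true,false⟩,⟨1,4,2,15,15,3,false,false⟩,⟨1,2,2,3,3,0,false,false⟩,⟨2,5,0,3,3,4,false,false⟩,⟨4,8,3,15,15,8,false,false⟩,⟨4,5,8,3,4,4,false,false⟩,⟨8,10,8,15,15,21,false,false⟩,⟨4,8,4,8,21,9,false,false⟩,⟨8,9,9,21,21,22,false,false⟩,⟨2,4,0,4,9,5,false,false⟩,⟨4,8,5,9,22,17,false,false⟩,⟨1,0,0,2,7,1,false,false⟩,⟨0,3,1,7,20,13,false,true⟩,⟨4,7,5,17,17,18,false,false⟩,⟨4,6,5,18,18,16,false,false⟩,⟨2,4,0,5,16,6,false,false⟩,⟨4,5,6,16,16,19,false,false⟩,⟨2,4,0,6,19,11,false,false⟩,⟨2,3,0,11,11,12,false,false⟩,⟨1,2,1,0,12,10,false,false⟩,⟨1,0,10,1,13,14,false,false⟩]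 (nat_lit 7) (nat_lit 85) (by decide +kernel)
noncomputable def s1173 : Raw := ⟨[(0,[11,9,1,2,3,4,5,6,10]),(1,[12,7,2,0,9,13]),(2,[8,3,0,1,7]),(3,[16,14,4,0,2,8,15]),(4,[17,5,0,3,14]),(5,[18,6,0,4,17]),(6,[19,10,0,5,18]),(7,[20,8,2,1,12]),(8,[15,3,2,7,20])], [18,19,10,11,9,13,12,20,15,16,14,17], [(1,9),(1,12),(8,20),(3,8)]⟩
def c1173 : RawB s1173 := raw1 s1173 (nat_lit 10) [⟨0,1,3,3,3,8,false,false⟩,⟨0,2,8,3,3,2,false,false⟩,⟨1,3,3,8,8,15,false,false⟩,⟨3,4,15,8,8,20,false,false⟩,⟨0,4,2,8,20,7,false,false⟩,⟨4,5,20,7,7,12,false,false⟩,⟨0,5,2,7,12,1,false,false⟩,⟨0,6,2,1,1,0,false,false⟩,⟨0,2,0,2,3,3,false,false⟩,⟨1,2,3,15,15,16,false,false⟩,⟨0,7,3,0,0,4,false,false⟩,⟨0,1,4,3,16,14,false,false⟩,⟨0,8,14,4,4,17,false,false⟩,⟨7,8,0,4,17,5,false,false⟩,⟨8,9,5,17,17,18,false,true⟩,⟨7,8,0,5,18,6,false,false⟩,⟨8,9,18,6,6,19,true,false⟩,⟨7,9,0,6,19,10,false,false⟩,⟨7,8,0,10,10,11,false,false⟩,⟨6,7,1,0,11,9,false,false⟩,⟨6,5,9,1,12,13,false,false⟩]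 (nat_lit 8) (nat_lit 170) (by decide +kernel)
noncomputable def s1174 : Raw := ⟨[(0,[11,9,1,2,3,4,5,6,10]),(1,[12,2,0,9,13]),(2,[14,7,3,0,1,12,15]),(3,[8,4,0,2,7]),(4,[16,5,0,3,8,17]),(5,[18,6,0,4,16,19]),(6,[20,10,0,5,18]),(7,[21,8,3,2,14]),(8,[17,4,3,7,21])], [15,14,21,17,16,19,18,20,10,11,9,13,12], [(5,16),(5,18),(5,0)]⟩
def c1174 : RawB s1174 := raw1 s1174 (nat_lit 11) [⟨0,1,4,4,4,5,false,false⟩,⟨0,2,4,5,5,0,false,false⟩,⟨0,3,0,4,4,3,false,false⟩,⟨2,5,0,5,5,6,false,false⟩,⟨2,4,0,6,6,10,false,false⟩,⟨5,6,6,5,5,18,false,false⟩,⟨4,5,10,6,18,20,false,false⟩,⟨6,7,18,5,5,19,false,false⟩,⟨1,7,4,5,19,16,false,false⟩,⟨1,8,4,16,16,17,false,false⟩,⟨1,9,4,17,17,8,false,false⟩,⟨3,1,3,4,8,8,false,false⟩,⟨9,10,17,8,8,21,false,false⟩,⟨3,10,3,8,21,7,false,false⟩,⟨0,3,0,3,7,2,false,false⟩,⟨3,10,2,7,21,14,false,false⟩,⟨3,1,2,14,14,15,false,true⟩,⟨0,1,2,0,0,1,false,false⟩,⟨0,3,1,2,15,12,false,true⟩,⟨2,3,0,10,10,11,false,false⟩,⟨1,2,1,0,11,9,false,false⟩,⟨1,0,9,1,12,13,false,false⟩]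 (nat_lit 10) (nat_lit 341) (by decide +kernel)
noncomputable def s1175 : Raw := ⟨[(0,[9,8,7,6,5,4,1,2,12]),(1,[13,3,2,0,4]),(2,[12,0,1,3,14]),(3,[14,2,1,13,15]),(5,[16,4,0,6,10,17]),(6,[10,5,0,7,11]),(7,[19,11,6,0,8,18]),(8,[21,18,7,0,9,20]),(9,[20,8,0,12,22]),(10,[17,5,6,11,23]),(11,[23,10,6,7,19])], [13,15,14,12,22,20,21,18,19,23,17,16,4], [(9,22),(0,8),(8,20),(8,18)]⟩
def c1175 : RawB s1175 := raw1 s1175 (nat_lit 11) [⟨0,1,6,6,6,10,false,false⟩,⟨0,2,6,10,10,11,false,false⟩,⟨2,3,10,11,11,23,false,false⟩,⟨3,4,23,11,11,19,false,false⟩,⟨0,4,6,11,19,7,false,false⟩,⟨0,5,6,7,7,0,false,false⟩,⟨0,1,0,6,10,5,false,false⟩,⟨0,6,5,0,0,4,false,false⟩,⟨6,7,0,4,4,1,false,false⟩,⟨7,8,1,4,4,13,false,true⟩,⟨7,9,13,1,1,3,false,false⟩,⟨6,9,0,1,3,2,false,false⟩,⟨7,10,13,3,3,15,true,false⟩,⟨9,10,2,3,15,14,false,false⟩,⟨6,9,0,2,14,12,false,false⟩,⟨1,2,5,10,23,17,false,false⟩,⟨0,1,4,5,17,16,false,false⟩,⟨6,7,0,12,12,9,false,false⟩,⟨5,6,7,0,9,8,false,false⟩,⟨5,4,8,7,19,18,false,false⟩,⟨7,8,9,12,12,22,false,false⟩,⟨6,7,8,9,22,20,false,false⟩,⟨5,6,18,8,20,21,false,false⟩]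 (nat_lit 8) (nat_lit 85) (by decide +kernel)
noncomputable def s1176 : Raw := ⟨[(0,[11,6,5,3,1,2,4,10,12]),(1,[7,2,0,3,13]),(2,[16,14,4,0,1,7,15]),(3,[13,1,0,5,8]),(4,[17,10,0,2,14]),(5,[8,3,0,6,9]),(6,[18,9,5,0,11,19]),(7,[15,2,1,13,20]),(8,[13,3,5,9,21]),(9,[21,8,5,6,18,22])], [13,20,15,16,14,17,10,12,11,19,18,22,21], [(7,13),(7,15),(0,3),(3,13)]⟩
def c1176 : RawB s1176 := raw1 s1176 (nat_lit 11) [⟨0,1,13,13,13,21,false,true⟩,⟨0,2,21,13,13,8,false,false⟩,⟨0,1,21,8,8,9,false,false⟩,⟨2,3,8,13,13,3,false,false⟩,⟨2,1,3,8,9,5,false,false⟩,⟨2,4,5,3,3,0,false,false⟩,⟨4,3,0,3,13,1,false,false⟩,⟨2,1,0,5,9,6,false,false⟩,⟨4,5,0,1,1,2,false,false⟩,⟨5,6,1,2,2,7,false,false⟩,⟨3,5,13,1,7,7,false,false⟩,⟨3,10,13,7,7,20,true,false⟩,⟨6,10,2,7,20,15,false,false⟩,⟨6,9,2,15,15,16,false,false⟩,⟨6,8,2,16,16,14,false,false⟩,⟨4,6,0,2,14,4,false,false⟩,⟨6,7,4,14,14,17,false,false⟩,⟨4,6,0,4,17,10,false,false⟩,⟨4,5,0,10,10,12,false,false⟩,⟨2,4,6,0,12,11,false,false⟩,⟨2,3,6,11,11,19,false,false⟩,⟨1,2,9,6,19,18,false,false⟩,⟨1,0,18,9,21,22,false,false⟩]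 (nat_lit 7) (nat_lit 85) (by decide +kernel)
noncomputable def s1177 : Raw := ⟨[(0,[12,10,1,2,3,4,5,6,11]),(1,[13,7,2,0,10,14]),(2,[8,3,0,1,7]),(3,[16,9,4,0,2,8,15,17]),(4,[18,5,0,3,9]),(5,[19,6,0,4,18]),(6,[20,11,0,5,19]),(7,[21,8,2,1,13]),(8,[15,3,2,7,21]),(9,[18,4,3,16,22])], [19,20,11,12,10,14,13,21,15,17,16,22,18], [(0,1),(1,13)]⟩
def c1177 : RawB s1177 := raw1 s1177 (nat_lit 11) [⟨0,1,7,7,7,21,false,false⟩,⟨0,2,7,21,21,8,false,false⟩,⟨0,3,8,7,7,2,false,false⟩,⟨2,4,8,21,21,15,false,false⟩,⟨0,2,2,8,15,3,false,false⟩,⟨1,5,7,21,21,13,false,false⟩,⟨1,6,7,13,13,1,false,false⟩,⟨1,3,1,7,2,2,false,false⟩,⟨1,7,2,1,1,0,false,false⟩,⟨1,0,0,2,3,3,false,false⟩,⟨0,3,0,0,0,6,false,false⟩,⟨3,8,6,0,0,11,false,false⟩,⟨3,10,6,11,11,20,false,false⟩,⟨3,9,6,20,20,19,false,true⟩,⟨8,9,0,11,11,12,false,false⟩,⟨7,8,1,0,12,10,false,false⟩,⟨7,6,10,1,13,14,false,false⟩,⟨0,3,0,6,19,5,false,false⟩,⟨1,0,3,0,5,4,false,false⟩,⟨0,3,4,5,19,18,false,true⟩,⟨1,0,3,4,18,9,false,false⟩,⟨2,3,3,15,15,17,false,false⟩,⟨1,2,9,3,17,16,false,false⟩,⟨1,0,16,9,18,22,false,false⟩]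 (nat_lit 11) (nat_lit 1365) (by decide +kernel)
noncomputable def s1178 : Raw := ⟨[(0,[11,9,1,2,3,4,5,6,10]),(1,[12,2,0,9,13]),(2,[14,7,3,0,1,12]),(3,[8,4,0,2,7]),(4,[17,15,5,0,3,8,16]),(5,[18,6,0,4,15,19]),(6,[20,10,0,5,18]),(7,[21,8,3,2,14]),(8,[16,4,3,7,21])], [17,15,19,18,20,10,11,9,13,12,14,21,16], [(0,4),(4,16),(4,15),(2,7)]⟩
def c1178 : RawB s1178 := raw1 s1178 (nat_lit 11) [⟨0,1,7,7,7,14,false,false⟩,⟨0,2,7,14,14,2,false,false⟩,⟨0,3,7,2,2,3,false,false⟩,⟨0,4,7,3,3,8,false,false⟩,⟨0,1,8,7,14,21,false,false⟩,⟨4,5,3,8,8,4,false,false⟩,⟨3,4,2,3,4,0,false,false⟩,⟨5,6,8,4,4,16,false,false⟩,⟨0,5,21,8,16,16,false,false⟩,⟨4,5,4,0,0,5,false,false⟩,⟨5,8,0,5,5,6,false,false⟩,⟨5,7,0,6,6,10,false,false⟩,⟨4,9,4,5,5,15,false,false⟩,⟨4,6,15,4,16,17,true,true⟩,⟨3,4,2,0,0,1,false,false⟩,⟨9,10,5,15,15,19,false,false⟩,⟨8,9,6,5,19,18,false,false⟩,⟨7,8,10,6,18,20,false,false⟩,⟨3,2,1,2,14,12,false,false⟩,⟨5,6,0,10,10,11,false,false⟩,⟨4,5,1,0,11,9,false,false⟩,⟨4,3,9,1,12,13,false,false⟩]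 (nat_lit 12) (nat_lit 1365) (by decide +kernel)
end Pool.Agent.FCT.R
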