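import Pool.Agent.Lib.MP_fe5cb4_co.FC.RawDef
set_option linter.defProp false
namespace Pool.Agent.FCT.R
open Pool.Agent.Lib.MP_fe5cb4_co.FC
noncomputable def s1190 : Raw := ⟨[(0,[13,11,1,2,3,4,5,6,12]),(1,[14,7,2,0,11,15]),(2,[8,3,0,1,7]),(3,[16,4,0,2,8,17]),(4,[18,5,0,3,16]),(5,[19,9,6,0,4,18,20]),(6,[12,0,5,9,10]),(7,[21,8,2,1,14]),(8,[17,3,2,7,21]),(9,[22,10,6,5,19,23]),(10,[24,12,6,9,22])], [12,13,11,15,14,21,17,16,18,20,19,23,22,24], [(10,22),(5,18),(5,19),(5,0)]⟩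
def c1190 : RawB s1190 := raw1 s1190 (nat_lit 12) [⟨0,1,3,3,3,4,false,false⟩,⟨0,2,4,3,3,0,false,false⟩,⟨1,3,3,4,4,16,false,false⟩,⟨2,4,3,0,0,2,false,false⟩,⟨3,5,4,16,16,18,false,false⟩,⟨0,3,0,4,18,5,false,false⟩,⟨1,6,3,16,16,17,false,false⟩,⟨2,1,2,3,17,8,false,false⟩,⟨1,7,8,17,17,21,false,false⟩,⟨1,8,8,21,21,7,false,false⟩,⟨2,1,2,8,7,7,false,false⟩,⟨0,1,0,5,5,6,false,false⟩,⟨8,9,21,7,7,14,false,false⟩,⟨2,9,2,7,14,1,false,false⟩,⟨4,2,0,2,1,1,false,false⟩,⟨1,2,6,5,5,9,false,false⟩,⟨9,10,14,1,1,15,false,false⟩,⟨4,10,0,1,15,11,false,false⟩,⟨4,11,0,11,11,13,false,false⟩,⟨0,4,6,0,13,12,false,true⟩,⟨1,0,9,6,12,10,false,false⟩,⟨0,4,10,12,12,24,false,true⟩,⟨1,0,9,10,24,22,false,false⟩,⟨3,4,5,18,18,20,false,false⟩,⟨2,3,9,5,20,19,false,false⟩,⟨2,1,19,9,22,23,false,false⟩] (nat_lit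 9) (nat_lit 170) (by decide +kernel)
noncomputable def s1191 : Raw := ⟨[(0,[13,11,1,2,3,4,5,6,12]),(1,[14,7,2,0,11,15]),(2,[8,3,0,1,7]),(3,[9,4,0,2,8,16]),(4,[10,5,0,3,9]),(5,[19,17,6,0,4,10,18]),(6,[20,12,0,5,17]),(7,[21,8,2,1,14]),(8,[16,3,2,7,21]),(9,[22,10,4,3,16]),(10,[23,18,5,4,9,22])], [14,21,16,22,23,18,19,17,20,12,13,11,15], [(1,11),(1,14),(0,3),(3,16)]⟩
def c1191 : RawB s1191 := raw1 s1191 (nat_lit 11) [⟨0,1,3,3,3,4,false,false⟩,⟨0,2,3,4,4,0,false,false⟩,⟨2,3,0,4,4,5,false,false⟩,⟨3,4,5,4,4,10,false,false⟩,⟨3,7,5,10,10,18,false,false⟩,⟨3,6,5,18,18,19,false,false⟩,⟨3,5,5,19,19,17,false,false⟩,⟨4,8,4,10,10,9,false,false⟩,⟨1,4,3,4,9,9,false,false⟩,⟨0,4,0,3,3,2,false,false⟩,⟨8,9,10,9,9,22,false,false⟩,⟨7,8,18,10,22,23,false,false⟩,⟨1,9,3,9,22,16,false,false⟩,⟨4,1,2,3,16,8,false,false⟩,⟨1,10,8,16,16,21,false,false⟩,⟨4,1,2,8,21,7,false,false⟩,⟨0,4,0,2,7,1,false,false⟩,⟨4,1,1,7,21,14,false,true⟩,⟨2,3,0,5,17,6,false,false⟩,⟨0,1,1,0,0,11,false,false⟩,⟨0,4,11,1,14,15,false,true⟩,⟨3,4,6,17,17,20,false,false⟩,⟨2,3,0,6,20,12,false,false⟩,⟨1,2,11,0,12,13,false,false⟩]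 (nat_lit 5) (nat_lit 21) (by decide +kernel)
noncomputable def s1192 : Raw := ⟨[(0,[12,10,1,2,3,4,5,6,11]),(1,[13,7,2,0,10,14]),(2,[16,8,3,0,1,7,15]),(3,[9,4,0,2,8]),(4,[17,5,0,3,9,18]),(5,[19,6,0,4,17]),(6,[20,11,0,5,19]),(7,[15,2,1,13,21]),(8,[22,9,3,2,16]),(9,[18,4,3,8,22])], [20,11,12,10,14,13,21,15,16,22,18,17,19], [(6,5),(5,17),(0,4),(4,18)]⟩
def c1192 : RawB s1192 := raw1 s1192 (nat_lit 11) [⟨0,1,8,8,8,9,false,false⟩,⟨0,2,8,9,9,22,false,false⟩,⟨0,3,8,22,22,16,false,false⟩,⟨0,4,8,16,16,2,false,false⟩,⟨0,1,2,8,9,3,false,false⟩,⟨0,5,3,2,2,0,false,false⟩,⟨0,1,0,3,9,4,false,false⟩,⟨1,2,4,9,22,18,false,false⟩,⟨0,6,4,0,0,5,false,false⟩,⟨0,1,5,4,18,17,false,false⟩,⟨0,7,17,5,5,19,false,false⟩,⟨6,7,0,5,19,6,false,false⟩,⟨5,8,2,0,0,1,false,false⟩,⟨6,9,6,0,0,11,false,false⟩,⟨6,7,11,6,19,20,true,true⟩,⟨5,6,2,1,1,7,false,false⟩,⟨5,4,7,2,16,15,false,false⟩,⟨6,7,7,1,1,13,false,false⟩,⟨6,5,13,7,15,21,false,false⟩,⟨9,10,0,11,11,12,false,false⟩,⟨8,9,1,0,12,10,false,false⟩,⟨8,7,10,1,13,14,false,false⟩]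 (nat_lit 7) (nat_lit 85) (by decide +kernel)
noncomputable def s1193 : Raw := ⟨[(0,[12,10,1,2,3,4,5,6,11]),(1,[13,8,7,2,0,10,14]),(2,[9,3,0,1,7]),(3,[15,4,0,2,9,16]),(4,[17,5,0,3,15]),(5,[18,6,0,4,17]),(6,[19,11,0,5,18]),(7,[9,2,1,8,20]),(8,[20,7,1,13,21]),(9,[16,3,2,7,20])], [18,19,11,12,10,14,13,21,20,16,15,17], [(1,10),(1,13),(1,7),(7,20)]⟩
def c1193 : RawB s1193 := raw1 s1193 (nat_lit 10) [⟨0,1,7,7,7,9,false,false⟩,⟨0,2,7,9,9,20,false,false⟩,⟨0,3,7,20,20,8,false,false⟩,⟨0,4,7,8,8,1,false,false⟩,⟨0,1,1,7,9,2,false,false⟩,⟨0,5,2,1,1,0,false,false⟩,⟨0,1,0,2,9,3,false,false⟩,⟨1,2,3,9,20,16,false,false⟩,⟨0,6,3,0,0,4,false,false⟩,⟨0,1,4,3,16,15,false,false⟩,⟨6,7,4,0,0,5,false,false⟩,⟨6,0,5,4,15,17,false,false⟩,⟨6,8,5,17,17,18,false,true⟩,⟨6,8,18,5,5,6,false,false⟩,⟨8,7,6,5,0,0,false,false⟩,⟨5,7,1,0,0,10,false,false⟩,⟨6,9,18,6,6,19,true,false⟩,⟨8,9,0,6,19,11,false,false⟩,⟨7,8,10,0,11,12,false,false⟩,⟨5,6,1,10,10,14,false,false⟩,⟨4,5,8,1,14,13,false,false⟩,⟨4,3,13,8,20,21,false,false⟩]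 (nat_lit 5) (nat_lit 10) (by decide +kernel)
noncomputable def s1194 : Raw := ⟨[(0,[13,11,1,2,3,4,5,6,12]),(1,[14,7,2,0,11,15]),(2,[8,3,0,1,7]),(3,[17,9,4,0,2,8,16]),(4,[10,5,0,3,9]),(5,[20,18,6,0,4,10,19]),(6,[21,12,0,5,18]),(7,[22,8,2,1,14]),(8,[16,3,2,7,22]),(9,[23,10,4,3,17]),(10,[19,5,4,9,23])], [18,21,12,13,11,15,14,22,16,17,23,19,20], [(5,10),(10,23)]⟩
def c1194 : RawB s1194 := raw1 s1194 (nat_lit 11) [⟨0,1,3,3,3,8,false,false⟩,⟨0,2,8,3,3,2,false,false⟩,⟨0,3,8,2,2,7,false,false⟩,⟨1,4,3,8,8,16,false,false⟩,⟨0,4,7,8,16,22,false,false⟩,⟨0,5,7,22,22,14,false,false⟩,⟨0,6,7,14,14,1,false,false⟩,⟨0,3,1,7,2,2,false,false⟩,⟨1,3,3,16,16,17,false,false⟩,⟨0,7,2,1,1,0,false,false⟩,⟨0,2,0,2,3,3,false,false⟩,⟨1,2,3,17,17,9,false,false⟩,⟨0,1,0,3,9,4,false,false⟩,⟨0,8,4,0,0,5,false,false⟩,⟨0,1,5,4,9,10,false,false⟩,⟨1,2,10,9,17,23,false,false⟩,⟨0,1,5,10,23,19,false,false⟩,⟨0,9,19,5,5,20,false,false⟩,⟨9,10,5,20,20,18,false,true⟩,⟨8,9,0,5,18,6,false,false⟩,⟨9,10,18,6,6,21,true,false⟩,⟨8,10,0,6,21,12,false,false⟩,⟨8,9,0,12,12,13,false,false⟩,⟨7,8,1,0,13,11,false,false⟩,⟨7,6,11,1,14,15,false,false⟩]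 (nat_lit 7) (nat_lit 85) (by decide +kernel)
noncomputable def s1195 : Raw := ⟨[(0,[11,9,1,2,3,4,5,6,10]),(1,[12,2,0,9,13]),(2,[14,7,3,0,1,12,15]),(3,[8,4,0,2,7]),(4,[18,16,5,0,3,8,17]),(5,[19,6,0,4,16]),(6,[20,10,0,5,19]),(7,[21,8,3,2,14]),(8,[17,4,3,7,21])], [15,14,21,17,18,16,19,20,10,11,9,13,12], [(6,19),(0,4),(4,17),(4,16)]⟩
def c1195 : RawB s1195 := raw1 s1195 (nat_lit 11) [⟨0,1,5,5,5,6,false,false⟩,⟨0,2,5,6,6,0,false,false⟩,⟨2,3,0,6,6,10,false,false⟩,⟨3,4,6,10,10,20,false,false⟩,⟨3,5,6,20,20,19,false,false⟩,⟨1,3,5,6,19,19,false,false⟩,⟨1,6,5,19,19,16,false,false⟩,⟨0,1,0,5,16,4,false,false⟩,⟨0,3,0,4,4,3,false,false⟩,⟨1,7,4,16,16,18,false,false⟩,⟨1,8,4,18,18,17,false,false⟩,⟨1,9,4,17,17,8,false,false⟩,⟨3,1,3,4,8,8,false,false⟩,⟨9,10,17,8,8,21,false,false⟩,⟨3,10,3,8,21,7,false,false⟩,⟨0,3,0,3,7,2,false,false⟩,⟨3,10,2,7,21,14,false,false⟩,⟨3,1,2,14,14,15,false,true⟩,⟨0,1,2,0,0,1,false,false⟩,⟨0,3,1,2,15,12,false,true⟩,⟨2,3,0,10,10,11,false,false⟩,⟨1,2,1,0,11,9,false,false⟩,⟨1,0,9,1,12,13,false,false⟩]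 (nat_lit 13) (nat_lit 2730) (by decide +kernel)
noncomputable def s1196 : Raw := ⟨[(0,[13,11,1,2,3,4,5,6,12]),(1,[14,8,7,2,0,11,15]),(2,[9,3,0,1,7]),(3,[16,4,0,2,9,10,17]),(4,[18,5,0,3,16,19]),(5,[20,6,0,4,18]),(6,[21,12,0,5,20]),(7,[9,2,1,8,22]),(8,[22,7,1,14,23]),(9,[10,3,2,7,22]),(10,[24,17,3,9,22])], [16,19,18,20,21,12,13,11,15,14,23,22,24,17], [(0,4),(4,16),(4,18)]⟩
def c1196 : RawB s1196 := raw1 s1196 (nat_lit 12) [⟨0,1,9,9,9,22,false,false⟩,⟨0,2,9,22,22,7,false,false⟩,⟨0,3,9,7,7,2,false,false⟩,⟨0,4,9,2,2,3,false,false⟩,⟨0,1,3,9,22,10,false,false⟩,⟨0,5,10,3,3,17,false,false⟩,⟨0,1,17,10,22,24,false,false⟩,⟨5,6,3,17,17,16,false,true⟩,⟨5,6,16,3,3,4,false,false⟩,⟨4,6,2,3,4,0,false,false⟩,⟨4,3,0,2,7,1,false,false⟩,⟨3,2,1,7,22,8,false,false⟩,⟨5,8,16,4,4,19,true,false⟩,⟨8,11,4,19,19,18,false,false⟩,⟨6,8,0,4,18,5,false,false⟩,⟨8,10,5,18,18,20,false,false⟩,⟨6,8,0,5,20,6,false,false⟩,⟨8,9,6,20,20,21,false,false⟩,⟨6,8,0,6,21,12,false,false⟩,⟨6,7,0,12,12,13,false,false⟩,⟨4,6,1,0,13,11,false,false⟩,⟨4,5,1,11,11,15,false,false⟩,⟨3,4,8,1,15,14,false,false⟩,⟨3,2,14,8,22,23,false,false⟩]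 (nat_lit 9) (nat_lit 170) (by decide +kernel)
noncomputable def s1197 : Raw := ⟨[(0,[14,12,1,2,3,4,5,6,13]),(1,[15,7,2,0,12,16]),(2,[8,3,0,1,7]),(3,[17,4,0,2,8,18]),(4,[19,9,5,0,3,17]),(5,[10,6,0,4,9]),(6,[21,13,0,5,10,11,20]),(7,[22,8,2,1,15]),(8,[18,3,2,7,22]),(9,[23,10,5,4,19]),(10,[11,6,5,9,23]),(11,[24,20,6,10,23])], [18,17,19,23,24,20,21,13,14,12,16,15,22], [(0,1),(1,15),(0,3),(3,17)]⟩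
def c1197 : RawB s1197 := raw1 s1197 (nat_lit 11) [⟨0,1,18,18,18,22,false,true⟩,⟨0,2,22,18,18,8,false,false⟩,⟨0,1,22,8,8,7,false,false⟩,⟨1,3,7,8,8,2,false,false⟩,⟨2,4,8,18,18,3,false,false⟩,⟨2,3,3,8,2,2,false,false⟩,⟨2,3,2,3,3,0,false,false⟩,⟨2,1,0,2,7,1,false,false⟩,⟨4,9,18,3,3,17,true,false⟩,⟨3,9,0,3,17,4,false,false⟩,⟨3,8,0,4,4,5,false,false⟩,⟨3,7,0,5,5,6,false,false⟩,⟨3,5,0,6,6,13,false,false⟩,⟨5,6,13,6,6,21,false,false⟩,⟨3,4,0,13,13,14,false,false⟩,⟨9,10,4,17,17,19,false,false⟩,⟨8,9,5,4,19,9,false,false⟩,⟨7,8,6,5,9,10,false,false⟩,⟨8,9,10,9,19,23,false,false⟩,⟨7,8,6,10,23,11,false,false⟩,⟨7,6,11,6,21,20,false,false⟩,⟨7,8,20,11,23,24,false,false⟩,⟨2,3,1,0,14,12,false,false⟩,⟨1,0,1,7,22,15,false,false⟩,⟨2,1,12,1,15,16,false,false⟩] (nat_lit 4) (nat_lit 5) (by decide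 +kernel)
noncomputable def s1198 : Raw := ⟨[(0,[10,9,8,7,6,1,2,3,11]),(1,[12,4,2,0,6,13]),(2,[5,3,0,1,4]),(3,[15,11,0,2,5,14]),(4,[16,5,2,1,12]),(5,[14,3,2,4,16]),(7,[17,6,0,8,18]),(8,[18,7,0,9,19]),(9,[19,8,0,10,20]),(10,[20,9,0,11,21])], [18,17,6,13,12,16,14,15,11,21,20,19], [(7,8),(8,19),(0,10),(10,20)]⟩
def c1198 : RawB s1198 := raw1 s1198 (nat_lit 10) [⟨0,1,2,2,2,3,false,false⟩,⟨0,2,2,3,3,0,false,false⟩,⟨1,3,2,3,3,5,false,false⟩,⟨1,4,5,2,2,4,false,false⟩,⟨3,5,3,5,5,14,false,false⟩,⟨1,5,4,5,14,16,false,false⟩,⟨1,6,4,16,16,12,false,false⟩,⟨1,7,4,12,12,1,false,false⟩,⟨1,4,1,4,2,2,false,false⟩,⟨0,1,0,2,1,1,false,false⟩,⟨7,8,12,1,1,13,false,false⟩,⟨0,8,0,1,13,6,false,false⟩,⟨0,1,0,6,6,7,false,false⟩,⟨0,4,0,7,7,8,false,false⟩,⟨1,9,7,6,6,17,false,false⟩,⟨4,1,8,7,17,18,false,true⟩,⟨0,1,8,0,0,9,false,false⟩,⟨0,4,9,8,18,19,false,true⟩,⟨3,4,3,14,14,15,false,false⟩,⟨2,3,0,3,15,11,false,false⟩,⟨1,2,9,0,11,10,false,false⟩,⟨1,0,10,9,19,20,false,false⟩,⟨2,1,11,10,20,21,false,false⟩]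 (nat_lit 5) (nat_lit 21) (by decide +kernel)
noncomputable def s1199 : Raw := ⟨[(0,[10,9,8,7,1,2,3,4,11]),(1,[12,2,0,7,13]),(2,[14,5,3,0,1,12]),(3,[6,4,0,2,5]),(4,[16,11,0,3,6,15]),(5,[17,6,3,2,14]),(6,[15,4,3,5,17]),(8,[18,7,0,9,19]),(9,[19,8,0,10,20]),(10,[20,9,0,11,21])], [19,18,7,13,12,14,17,15,16,11,21,20], [(8,19),(8,7),(0,11),(10,21)]⟩
def c1199 : RawB s1199 := raw1 s1199 (nat_lit 10) [⟨0,1,2,2,2,3,false,false⟩,⟨0,2,2,3,3,0,false,false⟩,⟨1,3,2,3,3,5,false,false⟩,⟨1,4,2,5,5,14,false,false⟩,⟨1,6,2,14,14,12,false,false⟩,⟨1,7,2,12,12,1,false,false⟩,⟨0,1,0,2,1,1,false,false⟩,⟨7,8,12,1,1,13,false,false⟩,⟨0,8,0,1,13,7,false,false⟩,⟨0,1,0,7,7,8,false,false⟩,⟨0,5,0,8,8,9,false,false⟩,⟨1,9,8,7,7,18,false,false⟩,⟨5,1,9,8,18,19,false,true⟩,⟨0,1,9,0,0,10,false,false⟩,⟨0,5,10,9,19,20,false,true⟩,⟨4,5,5,14,14,17,false,false⟩,⟨3,4,3,5,17,6,false,false⟩,⟨2,3,0,3,6,4,false,false⟩,⟨3,4,4,6,17,15,false,false⟩,⟨2,1,4,0,10,11,false,false⟩,⟨2,3,11,4,15,16,false,false⟩,⟨1,0,11,10,20,21,false,false⟩]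 (nat_lit 6) (nat_lit 21) (by decide +kernel)
noncomputable def s1200 : Raw := ⟨[(0,[12,6,5,3,1,2,4,11,13]),(1,[7,2,0,3,14]),(2,[17,15,4,0,1,7,16]),(3,[14,1,0,5,8]),(4,[18,11,0,2,15]),(5,[8,3,0,6,9]),(6,[19,10,9,5,0,12,20]),(7,[16,2,1,14,21]),(8,[14,3,5,9,22]),(9,[22,8,5,6,10,23]),(10,[23,9,6,19,24])], [14,21,16,17,15,18,11,13,12,20,19,24,23,22], [(7,14),(7,16),(0,3),(3,14)]⟩
def c1200 : RawB s1200 := raw1 s1200 (nat_lit 12) [⟨0,1,14,14,14,22,false,true⟩,⟨0,1,22,14,14,8,false,false⟩,⟨1,2,8,14,14,3,false,false⟩,⟨1,3,8,3,3,5,false,false⟩,⟨1,0,5,8,22,9,false,false⟩,⟨3,4,3,5,5,0,false,false⟩,⟨4,5,5,0,0,6,false,false⟩,⟨1,4,9,5,6,6,false,false⟩,⟨3,6,3,0,0,1,false,false⟩,⟨3,2,1,3,14,14,false,false⟩,⟨2,4,6,6,6,20,false,false⟩,⟨6,8,0,1,1,2,false,false⟩,⟨6,7,0,2,2,4,false,fal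se⟩,⟨7,9,4,2,2,15,false,false⟩,⟨8,10,1,2,2,7,false,false⟩,⟨3,8,14,1,7,7,false,false⟩,⟨7,8,4,15,15,18,false,false⟩,⟨3,11,14,7,7,21,true,false⟩,⟨2,3,6,20,20,19,false,false⟩,⟨10,11,2,7,21,16,false,false⟩,⟨9,10,15,2,16,17,false,false⟩,⟨6,7,0,4,18,11,false,false⟩,⟨5,4,0,6,20,12,false,false⟩,⟨6,5,11,0,12,13,false,false⟩,⟨1,2,9,6,19,10,false,false⟩,⟨1,0,10,9,22,23,false,false⟩,⟨2,1,19,10,23,24,false,false⟩] (nat_lit 8) (nat_lit 170) (by decide +kernel)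
noncomputable def s1201 : Raw := ⟨[(0,[9,8,7,6,5,4,1,2,12]),(1,[13,3,2,0,4]),(2,[12,0,1,3,14]),(3,[14,2,1,13,15]),(5,[16,4,0,6,17]),(6,[17,5,0,7,10,18]),(7,[10,6,0,8,11]),(8,[20,11,7,0,9,19,21]),(9,[19,8,0,12,22]),(10,[18,6,7,11,23]),(11,[23,10,7,8,20])], [13,15,14,12,22,19,21,20,23,18,17,16,4], [(3,13),(3,14),(0,4),(0,8)]⟩
def c1201 : RawB s1201 := raw1 s1201 (nat_lit 11) [⟨0,1,0,0,0,6,false,false⟩,⟨0,2,0,6,6,7,false,false⟩,⟨2,3,6,7,7,10,false,false⟩,⟨3,4,10,7,7,11,false,false⟩,⟨0,4,0,7,11,8,false,false⟩,⟨0,6,0,8,8,9,false,false⟩,⟨0,7,0,9,9,12,false,false⟩,⟨0,8,0,12,12,2,false,false⟩,⟨0,5,0,2,2,1,false,false⟩,⟨8,9,2,12,12,14,false,false⟩,⟨5,8,1,2,14,3,false,false⟩,⟨8,10,3,14,14,15,false,false⟩,⟨5,8,1,3,15,13,false,true⟩,⟨0,5,0,1,13,4,false,true⟩,⟨0,1,4,0,6,5,false,false⟩,⟨4,5,11,8,8,20,false,false⟩,⟨3,4,10,11,20,23,false,false⟩,⟨2,3,6,10,23,18,false,false⟩,⟨1,2,5,6,18,17,false,false⟩,⟨0,1,4,5,17,16,false,false⟩,⟨7,8,9,12,12,22,false,false⟩,⟨6,7,8,9,22,19,false,false⟩,⟨6,5,19,8,20,21,false,false⟩]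 (nat_lit 8) (nat_lit 85) (by decide +kernel)
noncomputable def s1202 : Raw := ⟨[(0,[10,5,1,2,9]),(1,[11,4,3,2,0,5,6,7,8]),(2,[9,0,1,3,12]),(3,[12,2,1,4,13]),(4,[13,3,1,11,14]),(6,[16,7,1,5,15]),(7,[17,8,1,6,16,18]),(8,[19,11,1,7,17])], [10,5,15,16,18,17,19,11,14,13,12,9], [(1,5),(1,11),(7,16),(7,17)]⟩
def c1202 : RawB s1202 := raw1 s1202 (nat_lit 10) [⟨0,1,3,3,3,13,false,false⟩,⟨0,2,3,13,13,4,false,false⟩,⟨0,3,3,4,4,1,false,false⟩,⟨0,4,3,1,1,2,false,false⟩,⟨0,1,2,3,13,12,false,false⟩,⟨0,5,12,2,2,9,false,false⟩,⟨4,5,1,2,9,0,false,false⟩,⟨4,6,0,1,1,5,false,false⟩,⟨4,5,5,0,9,10,true,true⟩,⟨3,4,4,1,1,11,false,false⟩,⟨3,2,11,4,13,14,false,false⟩,⟨4,5,11,1,1,8,false,false⟩,⟨6,8,1,5,5,6,false,false⟩,⟨6,5,6,1,8,7,false,false⟩,⟨8,9,6,5,5,15,false,false⟩,⟨6,8,7,6,15,16,false,false⟩,⟨6,7,7,16,16,18,false,false⟩,⟨5,6,8,7,18,17,false,false⟩,⟨4,5,11,8,17,19,false,false⟩]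 (nat_lit 13) (nat_lit 5461) (by decide +kernel)
noncomputable def s1203 : Raw := ⟨[(0,[10,9,8,7,1,2,3,4,11]),(1,[12,2,0,7,13]),(2,[14,5,3,0,1,12]),(3,[6,4,0,2,5]),(4,[11,0,3,6,15]),(5,[16,6,3,2,14,17]),(6,[15,4,3,5,16]),(8,[18,7,0,9,19]),(9,[21,19,8,0,10,20]),(10,[20,9,0,11,22])], [19,18,7,13,12,14,17,16,15,11,22,20,21], [(9,20),(9,19),(0,7),(0,11)]⟩
def c1203 : RawB s1203 := raw1 s1203 (nat_lit 11) [⟨0,1,3,3,3,4,false,false⟩,⟨0,2,3,4,4,0,false,false⟩,⟨1,3,3,4,4,6,false,false⟩,⟨1,4,3,6,6,5,false,false⟩,⟨0,1,0,3,5,2,false,false⟩,⟨1,5,2,5,5,14,false,false⟩,⟨1,7,2,14,14,12,false,false⟩,⟨1,8,2,12,12,1,false,false⟩,⟨0,1,0,2,1,1,false,false⟩,⟨8,9,12,1,1,13,false,false⟩,⟨0,9,0,1,13,7,false,false⟩,⟨0,6,0,7,7,8,false,false⟩,⟨0,1,8,0,0,9,false,false⟩,⟨6,10,8,7,7,18,false,false⟩,⟨0,6,9,8,18,19,false,true⟩,⟨0,6,9,19,19,21,false,true⟩,⟨5,6,5,14,14,17,false,false⟩,⟨4,5,6,5,17,16,false,false⟩,⟨3,4,4,6,16,15,false,false⟩,⟨2,3,0,4,15,11,false,false⟩,⟨1,2,9,0,11,10,false,false⟩,⟨1,0,10,9,21,20,false,false⟩,⟨2,1,11,10,20,22,false,false⟩]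 (nat_lit 9) (nat_lit 341) (by decide +kernel)
noncomputable def s1204 : Raw := ⟨[(0,[14,12,1,2,3,4,5,6,13]),(1,[15,2,0,12,16]),(2,[17,7,3,0,1,15,18]),(3,[8,4,0,2,7]),(4,[9,5,0,3,8,19]),(5,[10,6,0,4,9]),(6,[21,13,0,5,10,11,20]),(7,[22,8,3,2,17]),(8,[19,4,3,7,22]),(9,[23,10,5,4,19]),(10,[24,11,6,5,9,23]),(11,[25,20,6,10,24])], [24,25,20,21,13,14,12,16,15,18,17,22,19,23], [(8,19),(2,7),(7,22)]⟩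
def c1204 : RawB s1204 := raw1 s1204 (nat_lit 12) [⟨0,1,7,7,7,22,false,false⟩,⟨0,2,7,22,22,17,false,false⟩,⟨0,3,7,17,17,2,false,false⟩,⟨0,4,7,2,2,3,false,false⟩,⟨0,1,3,7,22,8,false,false⟩,⟨0,5,8,3,3,4,false,false⟩,⟨4,5,2,3,4,0,false,false⟩,⟨0,1,4,8,22,19,false,false⟩,⟨0,6,19,4,4,9,false,false⟩,⟨5,6,0,4,9,5,false,false⟩,⟨0,7,19,9,9,23,false,false⟩,⟨6,7,5,9,23,10,false,false⟩,⟨5,6,0,5,10,6,false,false⟩,⟨5,9,0,6,6,13,false,false⟩,⟨5,8,0,13,13,14,false,false⟩,⟨6,10,10,6,6,11,false,false⟩,⟨6,7,11,10,23,24,false,true⟩,⟨6,11,24,11,11,25,true,false⟩,⟨10,11,6,11,25,20,false,false⟩,⟨9,10,13,6,20,21,false,false⟩,⟨5,7,0,14,14,12,false,false⟩,⟨4,5,2,0,12,1,false,false⟩,⟨5,6,1,12,12,16,false,false⟩,⟨4,5,2,1,16,15,false,false⟩,⟨4,3,15,2,17,18,false,false⟩] (nat_lit 7) (nat_lit 42)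 (by decide +kernel)
noncomputable def s1205 : Raw := ⟨[(0,[9,8,7,6,5,4,1,2,11]),(1,[12,3,2,0,4]),(2,[11,0,1,3,13]),(3,[13,2,1,12,14]),(5,[15,4,0,6,10]),(6,[10,5,0,7,16]),(7,[18,16,6,0,8,17]),(8,[17,7,0,9,19]),(9,[19,8,0,11,20]),(10,[21,15,5,6,16])], [17,18,16,21,15,4,12,14,13,11,20,19], [(0,7),(7,17),(7,16)]⟩
def c1205 : RawB s1205 := raw1 s1205 (nat_lit 10) [⟨0,1,9,9,9,11,false,false⟩,⟨0,2,9,11,11,0,false,false⟩,⟨0,3,9,0,0,8,false,false⟩,⟨3,4,0,8,8,7,false,false⟩,⟨3,5,0,7,7,6,false,false⟩,⟨5,6,7,6,6,16,false,false⟩,⟨6,7,6,16,16,10,false,false⟩,⟨3,6,0,6,10,5,false,false⟩,⟨7,8,10,16,16,21,false,false⟩,⟨6,7,5,10,21,15,false,false⟩,⟨3,6,0,5,15,4,false,false⟩,⟨5,9,7,16,16,18,false,false⟩,⟨4,5,8,7,18,17,false,true⟩,⟨0,4,9,8,17,19,false,true⟩,⟨1,0,11,9,19,20,false,false⟩,⟨3,4,0,4,4,1,false,false⟩,⟨3,2,1,0,11,2,false,false⟩,⟨4,5,1,4,4,12,false,false⟩,⟨3,4,2,1,12,3,false,false⟩,⟨3,2,3,2,11,13,false,false⟩,⟨4,3,12,3,13,14,false,false⟩]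 (nat_lit 8) (nat_lit 85) (by decide +kernel)
noncomputable def s1206 : Raw := ⟨[(0,[10,1,2,3,4]),(1,[11,2,0,10,12]),(2,[13,3,0,1,11]),(3,[9,8,7,6,5,4,0,2,13]),(5,[14,4,3,6,15]),(6,[15,5,3,7,16]),(7,[16,6,3,8,17]),(8,[19,17,7,3,9,18]),(9,[18,8,3,13,20])], [18,19,17,16,15,14,4,10,12,11,13,20], [(3,8),(8,18),(8,17),(7,16)]⟩
def c1206 : RawB s1206 := raw1 s1206 (nat_lit 10) [⟨0,1,6,6,6,7,false,false⟩,⟨0,2,7,6,6,3,false,false⟩,⟨2,3,3,6,6,5,false,false⟩,⟨0,4,3,7,7,8,false,false⟩,⟨3,5,6,5,5,15,false,false⟩,⟨5,6,5,15,15,14,false,false⟩,⟨2,5,3,5,14,4,false,false⟩,⟨3,7,6,15,15,16,false,false⟩,⟨1,3,7,6,16,16,false,false⟩,⟨0,3,3,8,8,9,false,false⟩,⟨1,8,7,16,16,17,false,false⟩,⟨4,1,8,7,17,17,false,false⟩,⟨0,1,9,3,3,13,false,false⟩,⟨4,9,8,17,17,19,false,false⟩,⟨3,4,9,8,19,18,false,true⟩,⟨0,3,13,9,18,20,false,true⟩,⟨2,3,3,4,4,0,false,false⟩,⟨2,1,0,3,13,2,false,false⟩,⟨3,4,0,4,4,10,false,false⟩,⟨2,3,2,0,10,1,false,false⟩,⟨2,1,1,2,13,11,false,false⟩,⟨3,2,10,1,11,12,false,false⟩]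 (nat_lit 10) (nat_lit 341) (by decide +kernel)
end Pool.Agent.FCT.R
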