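import Pool.Agent.Lib.MP_fe5cb4_co.FC.RawDef
set_option linter.defProp false
namespace Pool.Agent.FCT.R
open Pool.Agent.Lib.MP_fe5cb4_co.FC
noncomputable def s1219 : Raw := ⟨[(0,[11,10,9,8,7,1,2,3,12]),(1,[13,5,4,2,0,7,14]),(2,[6,3,0,1,4]),(3,[12,0,2,6,15]),(4,[17,6,2,1,5,16]),(5,[16,4,1,13,18]),(6,[15,3,2,4,17]),(8,[19,7,0,9,20]),(9,[20,8,0,10,21]),(10,[21,9,0,11,22]),(11,[22,10,0,12,23])], [20,19,7,14,13,18,16,17,15,12,23,22,21], [(8,9),(9,21),(11,12),(11,22)]⟩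
def c1219 : RawB s1219 := raw1 s1219 (nat_lit 11) [⟨0,1,10,10,10,11,false,false⟩,⟨0,2,10,11,11,0,false,false⟩,⟨2,3,11,0,0,12,false,false⟩,⟨3,5,12,0,0,3,false,false⟩,⟨3,4,12,3,3,15,false,false⟩,⟨5,6,3,0,0,2,false,false⟩,⟨5,4,2,3,15,6,false,false⟩,⟨6,7,2,0,0,1,false,false⟩,⟨6,5,1,2,6,4,false,false⟩,⟨5,4,4,6,15,17,false,false⟩,⟨7,8,0,1,1,7,false,false⟩,⟨7,9,0,7,7,8,false,false⟩,⟨7,0,8,0,10,9,false,false⟩,⟨9,10,8,7,7,19,false,false⟩,⟨7,9,9,8,19,20,false,true⟩,⟨0,7,10,9,20,21,false,true⟩,⟨1,0,11,10,21,22,false,false⟩,⟨2,1,12,11,22,23,false,false⟩,⟨6,7,4,1,1,5,false,false⟩,⟨6,5,5,4,17,16,false,false⟩,⟨8,9,1,7,7,14,false,false⟩,⟨7,8,5,1,14,13,false,false⟩,⟨7,6,13,5,16,18,false,false⟩] (nat_lit 5) (nat_lit 21) (by decide +kernel)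
noncomputable def s1220 : Raw := ⟨[(0,[13,11,1,2,3,4,5,6,12]),(1,[14,7,2,0,11]),(2,[8,3,0,1,7]),(3,[15,9,4,0,2,8,10]),(4,[18,16,5,0,3,9,17]),(5,[19,6,0,4,16]),(6,[20,12,0,5,19]),(7,[21,8,2,1,14]),(8,[22,10,3,2,7,21]),(9,[17,4,3,15,23]),(10,[24,15,3,8,22])], [19,20,12,13,11,14,21,22,24,15,23,17,18,16], [(8,21),(3,8),(10,22),(10,15)]⟩
def c1220 : RawB s1220 := raw1 s1220 (nat_lit 12) [⟨0,1,2,2,2,8,false,false⟩,⟨0,2,2,8,8,3,false,false⟩,⟨0,3,3,2,2,0,false,false⟩,⟨2,4,3,8,8,10,false,false⟩,⟨3,5,2,0,0,1,false,false⟩,⟨3,1,1,2,8,7,false,false⟩,⟨4,6,10,8,8,22,false,false⟩,⟨1,6,7,8,22,21,false,false⟩,⟨1,7,7,21,21,14,false,false⟩,⟨3,1,1,7,14,14,false,false⟩,⟨0,1,0,3,3,4,false,false⟩,⟨3,8,1,14,14,11,false,false⟩,⟨5,3,0,1,11,11,false,false⟩,⟨0,3,4,0,0,5,false,false⟩,⟨5,9,0,11,11,13,false,false⟩,⟨5,10,0,13,13,12,false,false⟩,⟨3,5,5,0,12,6,false,false⟩,⟨5,11,6,12,12,20,false,false⟩,⟨3,5,5,6,20,19,false,true⟩,⟨0,3,4,5,19,16,false,true⟩,⟨4,5,10,22,22,24,false,false⟩,⟨2,4,3,10,24,15,false,false⟩,⟨1,2,4,3,15,9,false,false⟩,⟨2,3,9,15,15,23,false,false⟩,⟨1,2,4,9,23,17,false,false⟩,⟨0,1,16,4,17,18,false,false⟩]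 (nat_lit 10) (nat_lit 682) (by decide +kernel)
noncomputable def s1221 : Raw := ⟨[(0,[13,11,1,2,3,4,5,6,12]),(1,[14,7,2,0,11,15]),(2,[8,3,0,1,7]),(3,[16,9,4,0,2,8,10]),(4,[19,17,5,0,3,9,18]),(5,[20,6,0,4,17]),(6,[21,12,0,5,20]),(7,[22,8,2,1,14]),(8,[10,3,2,7,22]),(9,[18,4,3,16,23]),(10,[24,16,3,8,22])], [14,22,24,16,23,18,19,17,20,21,12,13,11,15], [(0,1),(0,3),(10,22),(10,16)]⟩
def c1221 : RawB s1221 := raw1 s1221 (nat_lit 12) [⟨0,1,5,5,5,6,false,false⟩,⟨0,2,5,6,6,0,false,false⟩,⟨1,3,5,6,6,20,false,false⟩,⟨1,5,5,20,20,17,false,false⟩,⟨1,6,5,17,17,4,false,false⟩,⟨0,1,0,5,4,4,false,false⟩,⟨6,7,17,4,4,19,false,false⟩,⟨0,8,0,4,4,3,false,false⟩,⟨0,4,0,3,3,2,false,false⟩,⟨0,1,2,0,0,1,false,false⟩,⟨4,9,2,3,3,8,false,false⟩,⟨0,4,1,2,8,7,false,false⟩,⟨9,10,3,8,8,10,false,false⟩,⟨4,10,7,8,10,22,false,false⟩,⟨0,4,1,7,22,14,false,true⟩,⟨3,4,6,20,20,21,false,false⟩,⟨0,11,1,14,14,15,false,true⟩,⟨10,11,10,22,22,24,false,false⟩,⟨9,10,3,10,24,16,false,false⟩,⟨8,9,4,3,16,9,false,false⟩,⟨8,7,9,4,19,18,false,false⟩,⟨9,8,16,9,18,23,false,false⟩,⟨2,3,0,6,21,12,false,false⟩,⟨1,0,0,1,15,11,false,false⟩,⟨1,2,11,0,12,13,false,false⟩]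 (nat_lit 9) (nat_lit 170) (by decide +kernel)
noncomputable def s1222 : Raw := ⟨[(0,[9,8,7,6,5,4,1,2,13]),(1,[14,3,2,0,4]),(2,[13,0,1,3,15]),(3,[15,2,1,14,16]),(5,[17,4,0,6,10,11,18]),(6,[10,5,0,7,12]),(7,[12,6,0,8,19]),(8,[19,7,0,9,20]),(9,[20,8,0,13,21]),(10,[22,11,5,6,12,23]),(11,[24,18,5,10,22]),(12,[23,10,6,7,19])], [14,16,15,13,21,20,19,23,22,24,18,17,4], [(0,8),(8,19),(0,5)]⟩
def c1222 : RawB s1222 := raw1 s1222 (nat_lit 11) [⟨0,1,6,6,6,10,false,false⟩,⟨0,2,6,10,10,12,false,false⟩,⟨2,3,10,12,12,23,false,false⟩,⟨2,4,10,23,23,22,false,false⟩,⟨3,5,12,23,23,19,false,false⟩,⟨3,6,12,19,19,7,false,false⟩,⟨0,3,6,12,7,7,false,false⟩,⟨1,3,10,6,6,5,false,false⟩,⟨6,7,19,7,7,8,false,false⟩,⟨0,7,6,7,8,0,false,false⟩,⟨0,3,0,6,5,5,false,false⟩,⟨0,3,5,0,0,4,false,false⟩,⟨3,8,4,0,0,1,false,false⟩,⟨3,9,1,4,4,14,false,true⟩,⟨3,9,14,1,1,3,false,false⟩,⟨8,9,0,1,3,2,false,false⟩,⟨3,10,14,3,3,16,true,false⟩,⟨9,10,2,3,16,15,false,false⟩,⟨8,9,0,2,15,13,false,false⟩,⟨7,8,8,0,13,9,false,false⟩,⟨7,6,9,8,19,20,false,false⟩,⟨8,7,13,9,20,21,false,false⟩,⟨1,2,5,10,22,11,false,false⟩,⟨2,3,11,22,22,24,false,false⟩,⟨1,2,5,11,24,18,false,false⟩,⟨0,1,4,5,18,17,false,false⟩]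 (nat_lit 7) (nat_lit 42) (by decide +kernel)
noncomputable def s1223 : Raw := ⟨[(0,[9,8,7,6,5,4,1,2,13]),(1,[14,3,2,0,4]),(2,[13,0,1,3,15]),(3,[15,2,1,14,16]),(5,[17,4,0,6,10,11,18]),(6,[10,5,0,7,12]),(7,[20,12,6,0,8,19]),(8,[19,7,0,9,21]),(9,[21,8,0,13,22]),(10,[23,11,5,6,12,24]),(11,[25,18,5,10,23]),(12,[24,10,6,7,20])], [14,16,15,13,22,21,19,20,24,23,25,18,17,4], [(3,14),(3,15),(1,0)]⟩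
def c1223 : RawB s1223 := raw1 s1223 (nat_lit 12) [⟨0,1,0,0,0,6,false,false⟩,⟨0,2,0,6,6,7,false,false⟩,⟨0,3,0,7,7,8,false,false⟩,⟨3,4,8,7,7,19,false,false⟩,⟨2,5,6,7,7,12,false,false⟩,⟨4,6,7,19,19,20,false,false⟩,⟨5,4,12,7,20,20,false,false⟩,⟨3,7,8,19,19,21,false,false⟩,⟨3,8,8,21,21,9,false,false⟩,⟨0,3,0,8,9,9,false,false⟩,⟨8,9,21,9,9,22,false,false⟩,⟨0,9,0,9,22,13,false,false⟩,⟨0,4,0,13,13,2,false,false⟩,⟨0,3,0,2,2,1,false,false⟩,⟨4,10,2,13,13,15,false,false⟩,⟨3,4,1,2,15,3,false,false⟩,⟨4,11,3,15,15,16,false,false⟩,⟨3,4,1,3,16,14,false,true⟩,⟨0,3,0,1,14,4,false,true⟩,⟨0,1,4,0,6,5,false,false⟩,⟨1,2,5,6,12,10,false,false⟩,⟨2,5,10,12,20,24,false,false⟩,⟨2,4,10,24,24,23,false,false⟩,⟨1,2,5,10,23,11,false,false⟩,⟨2,3,11,23,23,25,false,false⟩,⟨1,2,5,11,25,18,false,false⟩,⟨0,1,4,5,18,17,false,false⟩]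 (nat_lit 8) (nat_lit 170) (by decide +kernel)
noncomputable def s1224 : Raw := ⟨[(0,[9,8,7,6,5,4,1,2,12]),(1,[13,3,2,0,4]),(2,[12,0,1,3,14]),(3,[14,2,1,13,15]),(5,[16,4,0,6,10]),(6,[10,5,0,7,11]),(7,[18,11,6,0,8,17,19]),(8,[17,7,0,9,20]),(9,[20,8,0,12,21]),(10,[16,5,6,11,22]),(11,[22,10,6,7,18,23])], [13,15,14,12,21,20,17,19,18,23,22,16,4], [(3,13),(3,14),(0,4),(0,8)]⟩
def c1224 : RawB s1224 := raw1 s1224 (nat_lit 11) [⟨0,1,6,6,6,10,false,false⟩,⟨0,2,6,10,10,11,false,false⟩,⟨0,3,6,11,11,7,false,false⟩,⟨0,4,6,7,7,0,false,false⟩,⟨0,1,0,6,10,5,false,false⟩,⟨0,5,5,0,0,4,false,false⟩,⟨5,6,4,0,0,1,false,false⟩,⟨5,7,1,4,4,13,false,true⟩,⟨5,9,13,1,1,3,false,false⟩,⟨6,9,0,1,3,2,false,false⟩,⟨5,10,13,3,3,15,true,false⟩,⟨9,10,2,3,15,14,false,false⟩,⟨6,9,0,2,14,12,false,false⟩,⟨0,1,4,5,10,16,false,false⟩,⟨2,1,11,10,16,22,false,false⟩,⟨6,7,0,12,12,9,false,false⟩,⟨4,6,7,0,9,8,false,false⟩,⟨7,8,9,12,12,21,false,false⟩,⟨6,7,8,9,21,20,false,false⟩,⟨4,6,7,8,20,17,false,false⟩,⟨4,5,7,17,17,19,false,false⟩,⟨3,4,11,7,19,18,false,false⟩,⟨3,2,18,11,22,23,false,false⟩]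 (nat_lit 11) (nat_lit 682) (by decide +kernel)
noncomputable def s1225 : Raw := ⟨[(0,[10,8,1,2,9]),(1,[11,7,6,5,4,3,2,0,8,12]),(2,[9,0,1,3,13]),(3,[13,2,1,4,14]),(4,[14,3,1,5,15]),(5,[15,4,1,6,16]),(6,[16,5,1,7,17]),(7,[17,6,1,11,18])], [9,10,8,12,11,18,17,16,15,14,13], [(7,6),(6,16),(4,15),(3,4)]⟩
def c1225 : RawB s1225 := raw1 s1225 (nat_lit 9) [⟨0,1,5,5,5,15,false,false⟩,⟨0,2,5,15,15,16,false,false⟩,⟨0,3,5,16,16,6,false,false⟩,⟨0,4,5,6,6,1,false,false⟩,⟨0,1,1,5,15,4,false,false⟩,⟨0,5,4,1,1,3,false,false⟩,⟨0,1,3,4,15,14,false,false⟩,⟨5,6,3,1,1,2,false,false⟩,⟨5,0,2,3,14,13,false,false⟩,⟨5,7,13,2,2,9,true,false⟩,⟨6,7,1,2,9,0,false,false⟩,⟨4,5,6,1,1,7,false,false⟩,⟨4,3,7,6,16,17,false,false⟩,⟨7,8,9,0,0,10,true,false⟩,⟨6,8,1,0,10,8,false,false⟩,⟨6,7,1,8,8,12,false,false⟩,⟨5,6,7,1,12,11,false,false⟩,⟨5,4,11,7,17,18,false,false⟩]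 (nat_lit 6) (nat_lit 42) (by decide +kernel)
noncomputable def s1226 : Raw := ⟨[(0,[10,8,1,2,9]),(1,[11,7,6,5,4,3,2,0,8,12]),(2,[9,0,1,3,13]),(3,[13,2,1,4,14]),(4,[14,3,1,5,15]),(5,[17,15,4,1,6,16]),(6,[16,5,1,7,18]),(7,[18,6,1,11,19])], [16,17,15,14,13,9,10,8,12,11,19,18], [(0,2),(1,5),(5,16),(5,15)]⟩
def c1226 : RawB s1226 := raw1 s1226 (nat_lit 10) [⟨0,1,0,0,0,8,false,false⟩,⟨0,2,0,8,8,1,false,false⟩,⟨0,3,1,0,0,2,false,false⟩,⟨1,4,0,8,8,10,false,false⟩,⟨1,5,0,10,10,9,false,false⟩,⟨3,1,2,0,9,9,false,false⟩,⟨3,6,2,9,9,13,false,false⟩,⟨0,3,1,2,13,3,false,false⟩,⟨0,1,1,3,3,4,false,false⟩,⟨3,7,3,13,13,14,false,false⟩,⟨1,3,4,3,14,14,false,false⟩,⟨1,8,4,14,14,15,false,false⟩,⟨0,1,1,4,15,5,false,false⟩,⟨0,3,1,5,5,6,false,false⟩,⟨1,9,5,15,15,17,false,false⟩,⟨3,1,6,5,17,16,false,true⟩,⟨0,1,6,1,1,7,false,false⟩,⟨0,3,7,6,16,18,false,true⟩,⟨2,3,1,8,8,12,false,false⟩,⟨1,2,7,1,12,11,false,false⟩,⟨1,0,11,7,18,19,false,false⟩]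 (nat_lit 9) (nat_lit 170) (by decide +kernel)
noncomputable def s1227 : Raw := ⟨[(0,[10,8,1,2,9]),(1,[11,7,6,5,4,3,2,0,8,12]),(2,[9,0,1,3,13]),(3,[13,2,1,4,14]),(4,[14,3,1,5,15]),(5,[15,4,1,6,16]),(6,[18,16,5,1,7,17]),(7,[17,6,1,11,19])], [9,10,8,12,11,19,17,18,16,15,14,13], [(1,6),(6,17),(6,16)]⟩
def c1227 : RawB s1227 := raw1 s1227 (nat_lit 10) [⟨0,1,4,4,4,15,false,false⟩,⟨0,2,4,15,15,5,false,false⟩,⟨0,3,4,5,5,1,false,false⟩,⟨0,4,4,1,1,3,false,false⟩,⟨0,1,3,4,15,14,false,false⟩,⟨4,5,3,1,1,2,false,false⟩,⟨4,0,2,3,14,13,false,false⟩,⟨4,6,13,2,2,9,true,false⟩,⟨5,6,1,2,9,0,false,false⟩,⟨3,4,5,1,1,6,false,false⟩,⟨3,2,6,5,15,16,false,false⟩,⟨6,9,9,0,0,10,true,false⟩,⟨5,9,1,0,10,8,false,false⟩,⟨5,8,1,8,8,12,false,false⟩,⟨5,7,1,12,12,11,false,false⟩,⟨4,5,6,1,11,7,false,false⟩,⟨5,6,7,11,11,19,false,false⟩,⟨4,5,6,7,19,17,false,false⟩,⟨3,4,16,6,17,18,false,false⟩]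 (nat_lit 10) (nat_lit 341) (by decide +kernel)
noncomputable def s1228 : Raw := ⟨[(0,[10,8,1,2,9]),(1,[11,7,6,5,4,3,2,0,8,12]),(2,[9,0,1,3,13]),(3,[13,2,1,4,14]),(4,[14,3,1,5,15]),(5,[17,15,4,1,6,16]),(6,[19,16,5,1,7,18]),(7,[18,6,1,11,20])], [9,10,8,12,11,20,18,19,16,17,15,14,13], [(0,2),(1,5),(5,16),(5,15)]⟩
def c1228 : RawB s1228 := raw1 s1228 (nat_lit 11) [⟨0,1,3,3,3,14,false,false⟩,⟨0,2,14,3,3,13,false,false⟩,⟨2,3,3,13,13,2,false,false⟩,⟨2,4,3,2,2,1,false,false⟩,⟨2,1,1,3,14,4,false,false⟩,⟨3,5,13,2,2,9,true,false⟩,⟨4,5,1,2,9,0,false,false⟩,⟨2,3,4,1,1,5,false,false⟩,⟨2,1,5,4,14,15,false,false⟩,⟨5,10,9,0,0,10,true,false⟩,⟨4,10,1,0,10,8,false,false⟩,⟨4,9,1,8,8,12,false,false⟩,⟨4,8,1,12,12,11,false,false⟩,⟨4,6,1,11,11,7,false,false⟩,⟨3,4,5,1,7,6,false,false⟩,⟨6,7,7,11,11,20,false,false⟩,⟨4,6,6,7,20,18,false,false⟩,⟨4,5,6,18,18,19,false,false⟩,⟨3,4,5,6,19,16,false,false⟩,⟨2,3,15,5,16,17,false,false⟩]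 (nat_lit 23) (nat_lit 5592405) (by decide +kernel)
noncomputable def s1229 : Raw := ⟨[(0,[12,10,1,2,3,4,5,6,7,11]),(1,[13,8,2,0,10,14]),(2,[9,3,0,1,8]),(3,[15,4,0,2,9,16]),(4,[17,5,0,3,15]),(5,[18,6,0,4,17]),(6,[19,7,0,5,18]),(7,[20,11,0,6,19]),(8,[21,9,2,1,13]),(9,[16,3,2,8,21])], [19,20,11,12,10,14,13,21,16,15,17,18], [(7,19),(7,11)]⟩
def c1229 : RawB s1229 := raw1 s1229 (nat_lit 10) [⟨0,1,3,3,3,9,false,false⟩,⟨0,2,9,3,3,2,false,false⟩,⟨1,3,3,9,9,16,false,false⟩,⟨3,4,16,9,9,21,false,false⟩,⟨0,4,2,9,21,8,false,false⟩,⟨4,5,21,8,8,13,false,false⟩,⟨0,5,2,8,13,1,false,false⟩,⟨0,6,2,1,1,0,false,false⟩,⟨0,2,0,2,3,3,false,false⟩,⟨1,2,3,16,16,15,false,false⟩,⟨0,1,0,3,15,4,false,false⟩,⟨0,7,4,0,0,5,false,false⟩,⟨0,1,5,4,15,17,false,false⟩,⟨0,8,17,5,5,18,false,false⟩,⟨7,8,0,5,18,6,false,false⟩,⟨8,9,6,18,18,19,false,true⟩,⟨7,8,0,6,19,7,false,false⟩,⟨8,9,19,7,7,20,true,false⟩,⟨7,9,0,7,20,11,false,false⟩,⟨7,8,0,11,11,12,false,false⟩,⟨6,7,1,0,12,10,false,false⟩,⟨6,5,10,1,13,14,false,false⟩]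 (nat_lit 6) (nat_lit 42) (by decide +kernel)
noncomputable def s1230 : Raw := ⟨[(0,[10,8,1,2,9]),(1,[11,7,6,5,4,3,2,0,8,12]),(2,[9,0,1,3,13]),(3,[13,2,1,4,14]),(4,[16,14,3,1,5,15]),(5,[15,4,1,6,17]),(6,[19,17,5,1,7,18]),(7,[18,6,1,11,20])], [19,17,15,16,14,13,9,10,8,12,11,20,18], [(1,6),(6,18),(6,17),(5,4)]⟩
def c1230 : RawB s1230 := raw1 s1230 (nat_lit 11) [⟨0,1,2,2,2,3,false,false⟩,⟨0,2,3,2,2,1,false,false⟩,⟨2,3,1,2,2,0,false,false⟩,⟨3,4,2,0,0,9,false,false⟩,⟨4,5,0,9,9,10,false,false⟩,⟨2,4,1,0,10,8,false,false⟩,⟨3,6,2,9,9,13,false,false⟩,⟨1,3,3,2,13,13,false,false⟩,⟨1,7,3,13,13,14,false,false⟩,⟨0,1,1,3,14,4,false,false⟩,⟨0,3,1,4,4,5,false,false⟩,⟨1,8,4,14,14,16,false,false⟩,⟨1,9,4,16,16,15,false,false⟩,⟨3,1,5,4,15,15,false,false⟩,⟨3,10,5,15,15,17,false,false⟩,⟨0,3,1,5,17,6,false,false⟩,⟨3,1,6,17,17,19,false,true⟩,⟨0,1,6,1,1,7,false,false⟩,⟨0,3,7,6,19,18,false,true⟩,⟨2,3,1,8,8,12,false,false⟩,⟨1,2,7,1,12,11,false,false⟩,⟨1,0,11,7,18,20,false,false⟩]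 (nat_lit 24) (nat_lit 5592405) (by decide +kernel)
noncomputable def s1231 : Raw := ⟨[(0,[9,1,2,3,10]),(1,[11,2,0,9,12]),(2,[13,4,3,0,1,11,14]),(3,[16,10,0,2,4,5,6,7,8,15]),(4,[17,5,3,2,13]),(5,[18,6,3,4,17]),(6,[19,7,3,5,18]),(7,[20,8,3,6,19]),(8,[21,15,3,7,20])], [21,15,16,10,9,12,11,14,13,17,18,19,20], [(2,13),(2,3),(3,15),(3,10)]⟩
def c1231 : RawB s1231 := raw1 s1231 (nat_lit 11) [⟨0,1,6,6,6,18,false,false⟩,⟨0,2,6,18,18,5,false,false⟩,⟨0,3,6,5,5,3,false,false⟩,⟨0,4,6,3,3,7,false,false⟩,⟨0,1,7,6,18,19,false,false⟩,⟨0,5,19,7,7,20,false,false⟩,⟨4,5,3,7,20,8,false,false⟩,⟨4,6,8,3,3,15,false,false⟩,⟨4,5,15,8,20,21,true,true⟩,⟨3,4,5,3,3,4,false,false⟩,⟨3,2,4,5,18,17,false,false⟩,⟨4,5,4,3,3,2,false,false⟩,⟨4,3,2,4,17,13,false,false⟩,⟨6,10,3,15,15,16,false,false⟩,⟨6,9,3,16,16,10,false,false⟩,⟨5,6,2,3,10,0,false,false⟩,⟨6,8,0,10,10,9,false,false⟩,⟨5,6,2,0,9,1,false,false⟩,⟨6,7,1,9,9,12,false,false⟩,⟨5,6,2,1,12,11,false,false⟩,⟨5,4,11,2,13,14,false,false⟩]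 (nat_lit 11) (nat_lit 1365) (by decide +kernel)
end Pool.Agent.FCT.R
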