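import Pool.Agent.Lib.MP_fe5cb4_co.FC.RawDef
set_option linter.defProp false
namespace Pool.Agent.FCT.R
open Pool.Agent.Lib.MP_fe5cb4_co.FC
noncomputable def s1232 : Raw := ⟨[(0,[10,8,1,2,9]),(1,[11,7,6,5,4,3,2,0,8,12]),(2,[9,0,1,3,13]),(3,[15,13,2,1,4,14]),(4,[14,3,1,5,16]),(5,[16,4,1,6,17]),(6,[19,17,5,1,7,18]),(7,[18,6,1,11,20])], [15,13,9,10,8,12,11,20,18,19,17,16,14], [(0,8),(1,3),(3,14),(3,13)]⟩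
def c1232 : RawB s1232 := raw1 s1232 (nat_lit 11) [⟨0,1,4,4,4,5,false,false⟩,⟨0,2,4,5,5,1,false,false⟩,⟨2,3,5,1,1,6,false,false⟩,⟨0,4,4,1,1,3,false,false⟩,⟨4,5,1,3,3,2,false,false⟩,⟨0,6,4,3,3,14,false,false⟩,⟨1,0,5,4,14,16,false,false⟩,⟨4,9,1,2,2,0,false,false⟩,⟨4,8,1,0,0,8,false,false⟩,⟨4,7,1,8,8,12,false,false⟩,⟨5,10,3,2,2,13,false,false⟩,⟨5,6,13,3,14,15,true,true⟩,⟨9,10,0,2,13,9,false,false⟩,⟨8,9,8,0,9,10,false,false⟩,⟨2,1,6,5,16,17,false,false⟩,⟨4,6,1,12,12,11,false,false⟩,⟨3,4,6,1,11,7,false,false⟩,⟨4,5,7,11,11,20,false,false⟩,⟨3,4,6,7,20,18,false,false⟩,⟨2,3,17,6,18,19,false,false⟩] (nat_lit 16) (nat_lit 21845) (by decide +kernel)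
noncomputable def s1233 : Raw := ⟨[(0,[10,8,1,2,9]),(1,[11,7,6,5,4,3,2,0,8,12]),(2,[9,0,1,3,13]),(3,[13,2,1,4,14]),(4,[16,14,3,1,5,15]),(5,[15,4,1,6,17]),(6,[17,5,1,7,18]),(7,[18,6,1,11,19])], [9,10,8,12,11,19,18,17,15,16,14,13], [(7,11),(1,4),(4,15),(4,14)]⟩
def c1233 : RawB s1233 := raw1 s1233 (nat_lit 10) [⟨0,1,4,4,4,16,false,false⟩,⟨0,2,4,16,16,15,false,false⟩,⟨0,3,4,15,15,5,false,false⟩,⟨3,4,15,5,5,17,false,false⟩,⟨4,5,17,5,5,6,false,false⟩,⟨0,5,4,5,6,1,false,false⟩,⟨0,6,4,1,1,3,false,false⟩,⟨0,1,3,4,16,14,false,false⟩,⟨6,7,3,1,1,2,false,false⟩,⟨6,0,2,3,14,13,false,false⟩,⟨6,8,13,2,2,9,true,false⟩,⟨7,8,1,2,9,0,false,false⟩,⟨5,6,6,1,1,7,false,false⟩,⟨5,4,7,6,17,18,false,false⟩,⟨8,9,9,0,0,10,true,false⟩,⟨7,9,1,0,10,8,false,false⟩,⟨7,8,1,8,8,12,false,false⟩,⟨6,7,7,1,12,11,false,false⟩,⟨6,5,11,7,18,19,false,false⟩]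 (nat_lit 10) (nat_lit 341) (by decide +kernel)
noncomputable def s1234 : Raw := ⟨[(0,[12,10,1,2,3,4,5,6,7,11]),(1,[13,8,2,0,10,14]),(2,[9,3,0,1,8]),(3,[15,4,0,2,9]),(4,[16,5,0,3,15,17]),(5,[18,6,0,4,16]),(6,[19,7,0,5,18]),(7,[20,11,0,6,19]),(8,[21,9,2,1,13,22]),(9,[15,3,2,8,21])], [13,22,21,15,17,16,18,19,20,11,12,10,14], [(7,20),(0,4),(4,15),(4,16)]⟩
def c1234 : RawB s1234 := raw1 s1234 (nat_lit 11) [⟨0,1,5,5,5,6,false,false⟩,⟨0,2,5,6,6,0,false,false⟩,⟨2,3,0,6,6,7,false,false⟩,⟨3,4,7,6,6,19,false,false⟩,⟨4,5,6,19,19,18,false,false⟩,⟨1,4,5,6,18,18,false,false⟩,⟨1,6,5,18,18,16,false,false⟩,⟨0,1,0,5,16,4,false,false⟩,⟨1,7,4,16,16,17,false,false⟩,⟨1,8,4,17,17,15,false,false⟩,⟨0,1,0,4,15,3,false,false⟩,⟨1,4,15,3,3,9,false,false⟩,⟨0,4,0,3,9,2,false,false⟩,⟨1,9,9,15,15,21,false,false⟩,⟨4,1,2,9,21,8,false,false⟩,⟨0,4,0,2,8,1,false,false⟩,⟨1,10,8,21,21,22,false,false⟩,⟨4,1,1,8,22,13,false,true⟩,⟨0,1,1,0,0,10,false,false⟩,⟨0,4,10,1,13,14,false,true⟩,⟨3,4,7,19,19,20,false,false⟩,⟨2,3,0,7,20,11,false,false⟩,⟨1,2,10,0,11,12,false,false⟩]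 (nat_lit 7) (nat_lit 85) (by decide +kernel)
noncomputable def s1235 : Raw := ⟨[(0,[12,10,1,2,3,4,5,6,7,11]),(1,[13,2,0,10,14]),(2,[15,3,0,1,13,16]),(3,[17,8,4,0,2,15]),(4,[9,5,0,3,8]),(5,[18,6,0,4,9,19]),(6,[20,7,0,5,18]),(7,[21,11,0,6,20]),(8,[22,9,4,3,17]),(9,[19,5,4,8,22])], [16,15,17,22,19,18,20,21,11,12,10,14,13], [(0,2),(2,13),(2,15)]⟩
def c1235 : RawB s1235 := raw1 s1235 (nat_lit 11) [⟨0,1,5,5,5,6,false,false⟩,⟨0,2,5,6,6,0,false,false⟩,⟨2,3,0,6,6,7,false,false⟩,⟨3,4,6,7,7,20,false,false⟩,⟨4,5,7,20,20,21,false,false⟩,⟨2,4,0,7,21,11,false,false⟩,⟨3,6,6,20,20,18,false,false⟩,⟨1,3,5,6,18,18,false,false⟩,⟨0,3,0,5,5,4,false,false⟩,⟨1,7,5,18,18,19,false,false⟩,⟨3,1,4,5,19,9,false,false⟩,⟨1,8,9,19,19,22,false,false⟩,⟨3,1,4,9,22,8,false,false⟩,⟨0,3,0,4,8,3,false,false⟩,⟨1,9,8,22,22,17,false,false⟩,⟨3,1,3,8,17,17,false,false⟩,⟨3,10,3,17,17,15,false,false⟩,⟨0,3,0,3,15,2,false,false⟩,⟨3,1,2,15,15,16,false,true⟩,⟨0,1,2,0,0,1,false,false⟩,⟨0,3,1,2,16,13,false,true⟩,⟨2,3,0,11,11,12,false,false⟩,⟨1,2,1,0,12,10,false,false⟩,⟨1,0,10,1,13,14,false,false⟩]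 (nat_lit 7) (nat_lit 85) (by decide +kernel)
noncomputable def s1236 : Raw := ⟨[(0,[12,10,1,2,3,4,5,6,7,11]),(1,[13,8,2,0,10,14]),(2,[9,3,0,1,8]),(3,[15,4,0,2,9]),(4,[16,5,0,3,15]),(5,[17,6,0,4,16,18]),(6,[19,7,0,5,17]),(7,[20,11,0,6,19]),(8,[21,9,2,1,13,22]),(9,[15,3,2,8,21])], [12,10,14,13,22,21,15,16,18,17,19,20,11], [(0,5),(5,16),(5,17),(4,15)]⟩
def c1236 : RawB s1236 := raw1 s1236 (nat_lit 11) [⟨0,1,0,0,0,5,false,false⟩,⟨0,2,0,5,5,4,false,false⟩,⟨2,3,5,4,4,16,false,false⟩,⟨2,4,5,16,16,18,false,false⟩,⟨3,5,4,16,16,15,false,false⟩,⟨0,3,0,4,15,3,false,false⟩,⟨3,6,3,15,15,9,false,false⟩,⟨0,3,0,3,9,2,false,false⟩,⟨6,7,15,9,9,21,false,false⟩,⟨3,7,2,9,21,8,false,false⟩,⟨3,8,2,8,8,1,false,false⟩,⟨0,3,0,2,1,1,false,false⟩,⟨2,3,5,18,18,17,false,false⟩,⟨0,9,0,1,1,10,false,false⟩,⟨0,10,0,10,10,12,false,true⟩,⟨0,10,0,12,12,11,false,true⟩,⟨9,10,1,10,10,14,false,false⟩,⟨8,9,8,1,14,13,false,false⟩,⟨8,7,13,8,21,22,false,false⟩,⟨1,2,0,5,17,6,false,false⟩,⟨1,0,6,0,11,7,false,false⟩,⟨1,2,7,6,17,19,false,false⟩,⟨0,1,11,7,19,20,false,false⟩]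 (nat_lit 8) (nat_lit 85) (by decide +kernel)
noncomputable def s1237 : Raw := ⟨[(0,[12,10,1,2,3,4,5,6,7,11]),(1,[13,8,2,0,10]),(2,[9,3,0,1,8]),(3,[16,14,4,0,2,9,15]),(4,[17,5,0,3,14]),(5,[18,6,0,4,17]),(6,[19,7,0,5,18,20]),(7,[21,11,0,6,19]),(8,[22,9,2,1,13]),(9,[23,15,3,2,8,22])], [11,12,10,13,22,23,15,16,14,17,18,20,19,21], [(5,17),(0,3),(3,15),(3,14)]⟩
def c1237 : RawB s1237 := raw1 s1237 (nat_lit 12) [⟨0,1,6,6,6,7,false,false⟩,⟨0,2,7,6,6,0,false,false⟩,⟨2,3,6,0,0,5,false,false⟩,⟨3,5,5,0,0,4,false,false⟩,⟨3,4,5,4,4,17,false,false⟩,⟨5,6,4,0,0,3,false,false⟩,⟨5,4,3,4,17,14,false,false⟩,⟨6,7,3,0,0,2,false,false⟩,⟨7,8,2,0,0,1,false,false⟩,⟨7,9,2,1,1,8,false,false⟩,⟨6,7,3,2,8,9,false,false⟩,⟨9,10,8,1,1,13,false,false⟩,⟨8,10,0,1,13,10,false,false⟩,⟨7,9,9,8,13,22,false,false⟩,⟨2,3,6,5,17,18,false,false⟩,⟨8,11,0,10,10,12,false,false⟩,⟨0,8,7,0,12,11,false,true⟩,⟨0,8,7,11,11,21,false,true⟩,⟨1,0,6,7,21,19,false,false⟩,⟨2,1,18,6,19,20,false,false⟩,⟨7,8,9,22,22,23,false,false⟩,⟨6,7,3,9,23,15,false,false⟩,⟨5,6,14,3,15,16,false,false⟩]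 (nat_lit 14) (nat_lit 5461) (by decide +kernel)
noncomputable def s1238 : Raw := ⟨[(0,[13,11,1,2,3,4,5,6,7,12]),(1,[14,9,8,2,0,11,15]),(2,[10,3,0,1,8]),(3,[16,4,0,2,10]),(4,[17,5,0,3,16,18]),(5,[19,6,0,4,17]),(6,[20,7,0,5,19]),(7,[21,12,0,6,20]),(8,[23,10,2,1,9,22]),(9,[22,8,1,14,24]),(10,[16,3,2,8,23])], [20,21,12,13,11,15,14,24,22,23,16,18,17,19], [(0,4),(4,16),(4,17),(1,8)]⟩
def c1238 : RawB s1238 := raw1 s1238 (nat_lit 12) [⟨0,1,4,4,4,18,false,false⟩,⟨0,2,4,18,18,16,false,false⟩,⟨0,3,4,16,16,3,false,false⟩,⟨0,4,4,3,3,0,false,false⟩,⟨4,5,3,0,0,2,false,false⟩,⟨4,3,2,3,16,10,false,false⟩,⟨0,6,4,0,0,5,false,false⟩,⟨0,1,5,4,18,17,false,false⟩,⟨5,7,2,0,0,1,false,false⟩,⟨5,4,1,2,10,8,false,false⟩,⟨4,3,8,10,16,23,false,false⟩,⟨0,8,17,5,5,19,false,false⟩,⟨6,8,0,5,19,6,false,false⟩,⟨6,9,6,0,0,7,false,false⟩,⟨6,8,7,6,19,20,false,true⟩,⟨6,11,20,7,7,21,true,false⟩,⟨9,11,0,7,21,12,false,false⟩,⟨9,10,0,12,12,13,false,false⟩,⟨7,9,1,0,13,11,false,false⟩,⟨5,6,8,1,1,9,false,false⟩,⟨5,4,9,8,23,22,false,false⟩,⟨7,8,1,11,11,15,false,false⟩,⟨6,7,9,1,15,14,false,false⟩,⟨6,5,14,9,22,24,false,false⟩]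 (nat_lit 8) (nat_lit 170) (by decide +kernel)
noncomputable def s1239 : Raw := ⟨[(0,[14,12,1,2,3,4,5,6,7,13]),(1,[15,8,2,0,12,16]),(2,[9,3,0,1,8]),(3,[17,4,0,2,9,18]),(4,[19,5,0,3,17]),(5,[10,6,0,4,19]),(6,[11,7,0,5,10]),(7,[21,13,0,6,11,20]),(8,[22,9,2,1,15]),(9,[18,3,2,8,22]),(10,[23,11,6,5,19]),(11,[24,20,7,6,10,23])], [23,24,20,21,13,14,12,16,15,22,18,17,19], [(1,12),(1,15),(0,3),(3,18)]⟩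
def c1239 : RawB s1239 := raw1 s1239 (nat_lit 11) [⟨0,1,8,8,8,9,false,false⟩,⟨0,2,8,9,9,22,false,false⟩,⟨0,3,8,22,22,15,false,false⟩,⟨0,4,8,15,15,1,false,false⟩,⟨0,1,1,8,9,2,false,false⟩,⟨0,5,2,1,1,0,false,false⟩,⟨0,1,0,2,9,3,false,false⟩,⟨1,2,3,9,22,18,false,false⟩,⟨0,6,3,0,0,4,false,false⟩,⟨0,1,4,3,18,17,false,false⟩,⟨0,7,17,4,4,19,false,false⟩,⟨6,7,0,4,19,5,false,false⟩,⟨7,8,19,5,5,10,false,false⟩,⟨6,8,0,5,10,6,false,false⟩,⟨7,9,10,19,19,23,false,true⟩,⟨8,7,6,10,23,11,false,false⟩,⟨6,9,0,6,6,7,false,false⟩,⟨9,8,7,6,11,11,false,false⟩,⟨6,8,0,7,7,13,false,false⟩,⟨7,10,23,11,11,24,true,false⟩,⟨9,10,7,11,24,20,false,false⟩,⟨8,9,13,7,20,21,false,false⟩,⟨6,7,0,13,13,14,false,false⟩,⟨5,6,1,0,14,12,false,false⟩,⟨5,4,12,1,15,16,false,false⟩] (nat_lit 5) (nat_lit 10) (by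 decide +kernel)
noncomputable def s1240 : Raw := ⟨[(0,[13,11,1,2,3,4,5,6,7,12]),(1,[14,8,2,0,11,15]),(2,[16,3,0,1,8]),(3,[17,4,0,2,16]),(4,[18,9,5,0,3,17]),(5,[10,6,0,4,9]),(6,[19,7,0,5,10,20]),(7,[21,12,0,6,19]),(8,[16,2,1,14,22]),(9,[23,10,5,4,18]),(10,[20,6,5,9,23])], [14,22,16,17,18,23,20,19,21,12,13,11,15], [(0,4),(4,18)]⟩
def c1240 : RawB s1240 := raw1 s1240 (nat_lit 11) [⟨0,1,5,5,5,6,false,false⟩,⟨0,2,5,6,6,0,false,false⟩,⟨2,3,0,6,6,7,false,false⟩,⟨0,4,0,5,5,4,false,false⟩,⟨1,5,5,6,6,10,false,false⟩,⟨1,6,5,10,10,9,false,false⟩,⟨4,1,4,5,9,9,false,false⟩,⟨0,1,0,4,4,3,false,false⟩,⟨6,7,10,9,9,23,false,false⟩,⟨5,6,6,10,23,20,false,false⟩,⟨4,7,4,9,23,18,false,false⟩,⟨3,5,7,6,20,19,false,false⟩,⟨4,8,4,18,18,17,false,false⟩,⟨1,4,3,4,17,17,false,false⟩,⟨1,9,3,17,17,16,false,false⟩,⟨0,1,0,3,16,2,false,false⟩,⟨1,4,16,2,2,8,false,false⟩,⟨0,4,0,2,8,1,false,false⟩,⟨1,10,8,16,16,22,false,false⟩,⟨4,1,1,8,22,14,false,true⟩,⟨0,1,1,0,0,11,false,false⟩,⟨0,4,11,1,14,15,false,true⟩,⟨3,4,7,19,19,21,false,false⟩,⟨2,3,0,7,21,12,false,false⟩,⟨1,2,11,0,12,13,false,false⟩]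 (nat_lit 5) (nat_lit 21) (by decide +kernel)
noncomputable def s1241 : Raw := ⟨[(0,[12,10,1,2,3,4,5,6,7,11]),(1,[13,8,2,0,10]),(2,[9,3,0,1,8]),(3,[16,14,4,0,2,9,15]),(4,[17,5,0,3,14]),(5,[18,6,0,4,17]),(6,[19,7,0,5,18]),(7,[20,11,0,6,19]),(8,[21,9,2,1,13]),(9,[22,15,3,2,8,21])], [19,20,11,12,10,13,21,22,15,16,14,17,18], [(7,6),(0,3),(3,15),(3,14)]⟩
def c1241 : RawB s1241 := raw1 s1241 (nat_lit 11) [⟨0,1,0,0,0,3,false,false⟩,⟨0,2,0,3,3,2,false,false⟩,⟨2,3,2,3,3,9,false,false⟩,⟨2,4,2,9,9,8,false,false⟩,⟨0,2,0,2,8,1,false,false⟩,⟨4,5,9,8,8,21,false,false⟩,⟨5,6,8,21,21,13,false,false⟩,⟨2,5,1,8,13,13,false,false⟩,⟨2,7,1,13,13,10,false,false⟩,⟨0,2,0,1,10,10,false,false⟩,⟨0,8,0,10,10,12,false,false⟩,⟨0,9,0,12,12,11,false,false⟩,⟨0,2,0,11,11,7,false,false⟩,⟨0,5,0,7,7,6,false,false⟩,⟨2,10,7,11,11,20,false,false⟩,⟨5,2,6,7,20,19,false,true⟩,⟨1,2,0,3,3,4,false,false⟩,⟨1,0,4,0,6,5,false,false⟩,⟨0,5,5,6,19,18,false,true⟩,⟨1,0,4,5,18,17,false,false⟩,⟨2,1,3,4,17,14,false,false⟩,⟨4,5,9,21,21,22,false,false⟩,⟨3,4,3,9,22,15,false,false⟩,⟨2,3,14,3,15,16,false,false⟩]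 (nat_lit 9) (nat_lit 341) (by decide +kernel)
noncomputable def s1242 : Raw := ⟨[(0,[12,10,1,2,3,4,5,6,7,11]),(1,[13,2,0,10,14]),(2,[15,3,0,1,13]),(3,[16,8,4,0,2,15,17]),(4,[9,5,0,3,8]),(5,[18,6,0,4,9]),(6,[19,7,0,5,18]),(7,[20,11,0,6,19]),(8,[21,9,4,3,16,22]),(9,[18,5,4,8,21])], [20,11,12,10,14,13,15,17,16,22,21,18,19], [(7,19),(7,11),(0,5),(5,18)]⟩
def c1242 : RawB s1242 := raw1 s1242 (nat_lit 11) [⟨0,1,4,4,4,9,false,false⟩,⟨0,2,4,9,9,8,false,false⟩,⟨0,3,4,8,8,3,false,false⟩,⟨0,4,4,3,3,0,false,false⟩,⟨0,1,0,4,9,5,false,false⟩,⟨0,5,5,0,0,6,false,false⟩,⟨0,1,6,5,9,18,false,false⟩,⟨0,6,18,6,6,19,false,false⟩,⟨5,6,0,6,19,7,false,false⟩,⟨4,7,3,0,0,2,false,false⟩,⟨7,8,2,0,0,1,false,false⟩,⟨5,9,7,0,0,11,false,false⟩,⟨5,6,11,7,19,20,true,true⟩,⟨7,6,1,2,2,13,false,false⟩,⟨4,6,3,2,13,15,false,false⟩,⟨4,5,3,15,15,17,false,false⟩,⟨3,4,8,3,17,16,false,false⟩,⟨9,10,0,11,11,12,false,false⟩,⟨8,9,1,0,12,10,false,false⟩,⟨8,7,10,1,13,14,false,false⟩,⟨2,1,8,9,18,21,false,false⟩,⟨3,2,16,8,21,22,false,false⟩]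 (nat_lit 8) (nat_lit 85) (by decide +kernel)
noncomputable def s1243 : Raw := ⟨[(0,[12,10,1,2,3,4,5,6,7,11]),(1,[13,2,0,10,14]),(2,[15,8,3,0,1,13,16]),(3,[9,4,0,2,8]),(4,[17,5,0,3,9,18]),(5,[19,6,0,4,17]),(6,[20,7,0,5,19]),(7,[21,11,0,6,20]),(8,[22,9,3,2,15]),(9,[18,4,3,8,22])], [20,21,11,12,10,14,13,16,15,22,18,17,19], [(7,6),(6,19),(0,5),(5,17)]⟩
def c1243 : RawB s1243 := raw1 s1243 (nat_lit 11) [⟨0,1,8,8,8,9,false,false⟩,⟨0,2,8,9,9,22,false,false⟩,⟨0,3,8,22,22,15,false,false⟩,⟨0,4,8,15,15,2,false,false⟩,⟨0,1,2,8,9,3,false,false⟩,⟨0,5,3,2,2,0,false,false⟩,⟨0,1,0,3,9,4,false,false⟩,⟨1,2,4,9,22,18,false,false⟩,⟨0,6,4,0,0,5,false,false⟩,⟨0,1,5,4,18,17,false,false⟩,⟨6,7,5,0,0,6,false,false⟩,⟨6,0,6,5,17,19,false,false⟩,⟨5,8,2,0,0,1,false,false⟩,⟨7,9,6,0,0,7,false,false⟩,⟨7,6,7,6,19,20,false,true⟩,⟨8,6,0,1,1,10,false,false⟩,⟨7,10,20,7,7,21,true,false⟩,⟨9,10,0,7,21,11,false,false⟩,⟨8,9,10,0,11,12,false,false⟩,⟨6,7,1,10,10,14,false,false⟩,⟨5,6,2,1,14,13,false,false⟩,⟨5,4,13,2,15,16,false,false⟩]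 (nat_lit 7) (nat_lit 85) (by decide +kernel)
noncomputable def s1244 : Raw := ⟨[(0,[11,5,1,2,10]),(1,[12,4,3,2,0,5,6,7,8,9]),(2,[10,0,1,3,13]),(3,[13,2,1,4,14]),(4,[14,3,1,12,15]),(6,[17,7,1,5,16]),(7,[18,8,1,6,17]),(8,[19,9,1,7,18]),(9,[20,12,1,8,19])], [11,5,16,17,18,19,20,12,15,14,13,10], [(0,2),(2,13),(1,4),(4,14)]⟩
def c1244 : RawB s1244 := raw1 s1244 (nat_lit 10) [⟨0,1,8,8,8,9,false,false⟩,⟨0,2,8,9,9,1,false,false⟩,⟨2,3,1,9,9,12,false,false⟩,⟨3,4,9,12,12,20,false,false⟩,⟨3,5,9,20,20,19,false,false⟩,⟨1,3,8,9,19,19,false,false⟩,⟨1,6,8,19,19,18,false,false⟩,⟨0,1,1,8,18,7,false,false⟩,⟨1,7,7,18,18,17,false,false⟩,⟨1,8,7,17,17,6,false,false⟩,⟨0,1,1,7,6,6,false,false⟩,⟨8,9,17,6,6,16,false,false⟩,⟨0,9,1,6,16,5,false,false⟩,⟨0,3,1,5,5,0,false,false⟩,⟨3,1,0,5,5,11,false,true⟩,⟨0,1,0,1,1,2,false,false⟩,⟨0,3,2,0,11,10,false,true⟩,⟨2,3,1,12,12,4,false,false⟩,⟨1,2,2,1,4,3,false,false⟩,⟨1,0,3,2,10,13,false,false⟩,⟨2,1,4,3,13,14,false,false⟩,⟨3,2,12,4,14,15,false,false⟩]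 (nat_lit 7) (nat_lit 42) (by decide +kernel)
noncomputable def s1245 : Raw := ⟨[(0,[11,9,1,2,10]),(1,[12,8,7,6,5,4,3,2,0,9,13]),(2,[10,0,1,3,14]),(3,[14,2,1,4,15]),(4,[15,3,1,5,16]),(5,[16,4,1,6,17]),(6,[17,5,1,7,18]),(7,[18,6,1,8,19]),(8,[19,7,1,12,20])], [13,12,20,19,18,17,16,15,14,10,11,9], [(0,10),(0,9),(1,6),(6,18)]⟩
def c1245 : RawB s1245 := raw1 s1245 (nat_lit 10) [⟨0,1,1,1,1,3,false,false⟩,⟨0,2,1,3,3,4,false,false⟩,⟨2,3,3,4,4,15,false,false⟩,⟨3,4,4,15,15,16,false,false⟩,⟨0,3,1,4,16,5,false,false⟩,⟨3,5,5,16,16,17,false,false⟩,⟨0,3,1,5,17,6,false,false⟩,⟨3,6,6,17,17,18,false,false⟩,⟨0,3,1,6,18,7,false,false⟩,⟨3,7,7,18,18,19,false,false⟩,⟨3,8,7,19,19,8,false,false⟩,⟨0,3,1,7,8,8,false,false⟩,⟨8,9,19,8,8,20,false,false⟩,⟨0,9,1,8,20,12,false,false⟩,⟨0,3,1,12,12,13,false,true⟩,⟨0,3,1,13,13,9,false,true⟩,⟨2,3,3,15,15,14,false,false⟩,⟨1,2,1,3,14,2,false,false⟩,⟨1,0,2,1,9,0,false,false⟩,⟨1,2,0,2,14,10,false,false⟩,⟨0,1,9,0,10,11,false,false⟩]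 (nat_lit 7) (nat_lit 85) (by decide +kernel)
end Pool.Agent.FCT.R
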