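import Pool.Agent.Lib.MP_fe5cb4_co.FC.RawDef
set_option linter.defProp false
namespace Pool.Agent.FCT.R
open Pool.Agent.Lib.MP_fe5cb4_co.FC
noncomputable def s209 : Raw := ⟨[(0,[8,7,6,5,1,2,3,10]),(1,[11,4,2,0,5,12]),(2,[13,3,0,1,4,14]),(3,[15,10,0,2,13]),(4,[14,2,1,11,16]),(6,[17,5,0,7,9,18]),(7,[20,9,6,0,8,19]),(8,[19,7,0,10,21]),(9,[22,18,6,7,20])], [17,5,12,11,16,14,13,15,10,21,19,20,22,18], [(2,0),(0,10),(0,5),(0,7)]⟩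
def c209 : RawB s209 := raw1 s209 (nat_lit 12) [⟨0,1,0,0,0,10,false,false⟩,⟨0,2,0,10,10,3,false,false⟩,⟨1,3,0,10,10,8,false,false⟩,⟨3,4,8,10,10,21,false,false⟩,⟨2,5,3,10,10,15,false,false⟩,⟨2,6,3,15,15,13,false,false⟩,⟨0,2,0,3,13,2,false,false⟩,⟨2,7,2,13,13,14,false,false⟩,⟨2,8,2,14,14,4,false,false⟩,⟨2,9,2,4,4,1,false,false⟩,⟨0,2,0,2,1,1,false,false⟩,⟨1,2,0,8,8,7,false,false⟩,⟨0,10,0,1,1,5,false,false⟩,⟨0,1,5,0,7,6,false,false⟩,⟨0,11,6,5,5,17,false,true⟩,⟨0,11,6,17,17,18,false,true⟩,⟨10,11,1,5,5,12,false,false⟩,⟨9,10,4,1,12,11,false,false⟩,⟨9,8,11,4,14,16,false,false⟩,⟨2,3,7,8,21,19,false,false⟩,⟨1,0,7,6,18,9,false,false⟩,⟨1,2,9,7,19,20,false,false⟩,⟨0,1,18,9,20,22,false,false⟩] (nat_lit 14) (nat_lit 5461) (by decide +kernel)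
noncomputable def s210 : Raw := ⟨[(0,[10,8,1,2,3,4,5,9]),(1,[11,6,2,0,8,12]),(2,[13,3,0,1,6,7,14]),(3,[15,4,0,2,13]),(4,[16,5,0,3,15]),(5,[17,9,0,4,16]),(6,[18,7,2,1,11,19]),(7,[20,14,2,6,18])], [15,16,17,9,10,8,12,11,19,18,20,14,13], [(3,13),(1,8),(1,11),(1,2)]⟩
def c210 : RawB s210 := raw1 s210 (nat_lit 11) [⟨0,1,0,0,0,2,false,false⟩,⟨0,3,2,0,0,3,false,false⟩,⟨0,4,2,3,3,13,false,false⟩,⟨1,6,2,0,0,1,false,false⟩,⟨1,2,2,1,1,6,false,false⟩,⟨2,5,6,1,1,11,false,false⟩,⟨6,7,1,0,0,8,false,false⟩,⟨6,5,8,1,11,12,false,false⟩,⟨3,8,3,0,0,4,false,false⟩,⟨3,4,4,3,13,15,false,true⟩,⟨2,4,6,11,11,19,false,false⟩,⟨3,9,15,4,4,16,true,false⟩,⟨8,9,0,4,16,5,false,false⟩,⟨2,3,6,19,19,18,false,false⟩,⟨9,10,5,16,16,17,false,false⟩,⟨8,9,0,5,17,9,false,false⟩,⟨7,8,8,0,9,10,false,false⟩,⟨1,2,2,6,18,7,false,false⟩,⟨1,0,7,2,13,14,false,false⟩,⟨1,2,14,7,18,20,false,false⟩]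 (nat_lit 18) (nat_lit 174762) (by decide +kernel)
noncomputable def s211 : Raw := ⟨[(0,[9,1,2,3,10]),(1,[11,2,0,9,12]),(2,[13,5,4,3,0,1,11,14]),(3,[10,0,2,4,6,7,8]),(4,[16,6,3,2,5,15]),(5,[15,4,2,13,17]),(6,[18,7,3,4,16,19]),(7,[20,8,3,6,18]),(8,[21,10,3,7,20])], [14,13,17,15,16,19,18,20,21,10,9,12,11], [(3,10),(3,4),(6,16),(6,18)]⟩
def c211 : RawB s211 := raw1 s211 (nat_lit 11) [⟨0,1,2,2,2,3,false,false⟩,⟨0,2,2,3,3,4,false,false⟩,⟨2,4,3,4,4,6,false,false⟩,⟨2,5,3,6,6,7,false,false⟩,⟨2,3,3,7,7,8,false,false⟩,⟨5,6,7,6,6,18,false,false⟩,⟨3,5,8,7,18,20,false,false⟩,⟨6,7,18,6,6,19,false,false⟩,⟨4,7,4,6,19,16,false,false⟩,⟨4,8,4,16,16,15,false,false⟩,⟨4,9,4,15,15,5,false,false⟩,⟨0,4,2,4,5,5,false,false⟩,⟨9,10,15,5,5,17,false,false⟩,⟨0,10,2,5,17,13,false,false⟩,⟨0,4,2,13,13,14,false,true⟩,⟨0,4,2,14,14,11,false,true⟩,⟨3,4,8,20,20,21,false,false⟩,⟨2,3,3,8,21,10,false,false⟩,⟨1,2,2,3,10,0,false,false⟩,⟨1,0,0,2,11,1,false,false⟩,⟨1,2,1,0,10,9,false,false⟩,⟨1,0,9,1,11,12,false,false⟩]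 (nat_lit 11) (nat_lit 682) (by decide +kernel)
noncomputable def s212 : Raw := ⟨[(0,[10,8,1,2,3,4,5,9]),(1,[11,2,0,8,12]),(2,[13,7,6,3,0,1,11]),(3,[14,4,0,2,6,15]),(4,[16,5,0,3,14]),(5,[17,9,0,4,16]),(6,[19,15,3,2,7,18]),(7,[18,6,2,13,20])], [16,17,9,10,8,12,11,13,20,18,19,15,14], [(2,6),(6,18),(6,15),(7,20)]⟩
def c212 : RawB s212 := raw1 s212 (nat_lit 11) [⟨0,1,3,3,3,6,false,false⟩,⟨0,2,3,6,6,2,false,false⟩,⟨0,3,3,2,2,0,false,false⟩,⟨0,4,3,0,0,4,false,false⟩,⟨3,5,2,0,0,1,false,false⟩,⟨5,6,0,1,1,8,false,false⟩,⟨6,7,1,8,8,12,false,false⟩,⟨3,6,2,1,12,11,false,false⟩,⟨5,8,0,8,8,10,false,false⟩,⟨5,9,0,10,10,9,false,false⟩,⟨4,5,4,0,9,5,false,false⟩,⟨5,10,5,9,9,17,false,false⟩,⟨4,5,4,5,17,16,false,true⟩,⟨0,4,3,4,16,14,false,true⟩,⟨1,0,6,3,14,15,false,false⟩,⟨3,5,2,11,11,13,false,false⟩,⟨2,3,6,2,13,7,false,false⟩,⟨3,4,7,13,13,20,false,false⟩,⟨2,3,6,7,20,18,false,false⟩,⟨1,2,15,6,18,19,false,false⟩]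 (nat_lit 19) (nat_lit 349525) (by decide +kernel)
noncomputable def s213 : Raw := ⟨[(0,[9,1,2,3,4,5,10]),(1,[7,6,2,0,9]),(2,[13,11,3,0,1,6,8,12]),(3,[14,4,0,2,11,15]),(4,[16,5,0,3,14,17]),(5,[18,10,0,4,16]),(6,[20,8,2,1,7,19]),(7,[19,6,1,9,21]),(8,[22,12,2,6,20])], [20,22,12,13,11,15,14,17,16,18,10,9,21,19], [(0,3),(3,11),(3,14),(0,1)]⟩
def c213 : RawB s213 := raw1 s213 (nat_lit 12) [⟨0,1,1,1,1,9,false,false⟩,⟨0,2,1,9,9,0,false,false⟩,⟨0,3,1,0,0,2,false,false⟩,⟨0,4,1,2,2,6,false,false⟩,⟨0,1,6,1,9,7,false,false⟩,⟨3,6,0,2,2,3,false,false⟩,⟨3,5,0,3,3,4,false,false⟩,⟨6,7,2,3,3,11,false,false⟩,⟨7,8,3,11,11,15,false,false⟩,⟨5,7,4,3,15,14,false,false⟩,⟨6,9,2,11,11,13,false,false⟩,⟨6,10,2,13,13,12,false,false⟩,⟨4,6,6,2,12,8,false,false⟩,⟨6,11,8,12,12,22,false,false⟩,⟨4,6,6,8,22,20,false,true⟩,⟨0,4,7,6,20,19,false,true⟩,⟨1,0,9,7,19,21,false,false⟩,⟨3,4,0,4,4,5,false,false⟩,⟨3,2,5,0,9,10,false,false⟩,⟨5,6,4,14,14,17,false,false⟩,⟨4,5,5,4,17,16,false,false⟩,⟨3,4,10,5,16,18,false,false⟩]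 (nat_lit 17) (nat_lit 43690) (by decide +kernel)
noncomputable def s214 : Raw := ⟨[(0,[8,1,2,3,4,5,9]),(1,[10,6,2,0,8,11]),(2,[12,3,0,1,6,7,13]),(3,[14,4,0,2,12]),(4,[15,5,0,3,14,16]),(5,[17,9,0,4,15]),(6,[18,7,2,1,10,19]),(7,[20,13,2,6,18])], [12,14,16,15,17,9,8,11,10,19,18,20,13], [(0,3),(1,8),(1,10),(1,2)]⟩
def c214 : RawB s214 := raw1 s214 (nat_lit 11) [⟨0,1,1,1,1,2,false,false⟩,⟨0,2,2,1,1,6,false,false⟩,⟨1,3,1,2,2,0,false,false⟩,⟨2,4,6,1,1,10,false,false⟩,⟨4,5,10,1,1,11,false,false⟩,⟨1,5,0,1,11,8,false,false⟩,⟨1,6,0,8,8,9,false,false⟩,⟨1,7,0,9,9,5,false,false⟩,⟨1,8,0,5,5,4,false,false⟩,⟨3,1,2,0,4,3,false,false⟩,⟨1,9,3,4,4,14,false,false⟩,⟨3,1,2,3,14,12,false,true⟩,⟨0,1,2,6,6,7,false,false⟩,⟨0,3,7,2,12,13,false,true⟩,⟨2,3,6,10,10,19,false,false⟩,⟨9,10,4,14,14,16,false,false⟩,⟨8,9,5,4,16,15,false,false⟩,⟨7,8,9,5,15,17,false,false⟩,⟨1,2,7,6,19,18,false,false⟩,⟨0,1,13,7,18,20,false,false⟩]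 (nat_lit 17) (nat_lit 87381) (by decide +kernel)
noncomputable def s215 : Raw := ⟨[(0,[8,1,2,3,4,5,9]),(1,[7,6,2,0,8]),(2,[12,10,3,0,1,6,11]),(3,[13,4,0,2,10,14]),(4,[15,5,0,3,13,16]),(5,[17,9,0,4,15]),(6,[19,11,2,1,7,18]),(7,[18,6,1,8,20])], [15,17,9,8,20,18,19,11,12,10,14,13,16], [(0,2),(2,11),(2,10),(7,8)]⟩
def c215 : RawB s215 := raw1 s215 (nat_lit 11) [⟨0,1,0,0,0,2,false,false⟩,⟨0,2,0,2,2,3,false,false⟩,⟨1,3,0,2,2,1,false,false⟩,⟨3,4,2,1,1,6,false,false⟩,⟨3,5,2,6,6,11,false,false⟩,⟨5,6,11,6,6,19,false,false⟩,⟨6,7,19,6,6,18,false,false⟩,⟨4,7,1,6,18,7,false,false⟩,⟨7,8,18,7,7,20,false,false⟩,⟨4,8,1,7,20,8,false,false⟩,⟨1,4,0,1,8,8,false,false⟩,⟨0,4,3,0,0,4,false,false⟩,⟨1,9,0,8,8,9,false,false⟩,⟨4,1,4,0,9,5,false,false⟩,⟨1,10,5,9,9,17,false,false⟩,⟨4,1,4,5,17,15,false,true⟩,⟨0,1,4,3,3,13,false,false⟩,⟨0,4,13,4,15,16,false,true⟩,⟨3,4,2,11,11,12,false,false⟩,⟨2,3,3,2,12,10,false,false⟩,⟨2,1,10,3,13,14,false,false⟩]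 (nat_lit 17) (nat_lit 87381) (by decide +kernel)
noncomputable def s216 : Raw := ⟨[(0,[10,8,1,2,3,9]),(1,[11,2,0,8,12]),(2,[13,5,4,3,0,1,11]),(3,[9,0,2,4,6,7]),(4,[15,6,3,2,5,14,16]),(5,[14,4,2,13,17]),(6,[18,7,3,4,15,19]),(7,[20,9,3,6,18])], [11,13,17,14,16,15,19,18,20,9,10,8,12], [(3,6),(6,15),(6,18)]⟩
def c216 : RawB s216 := raw1 s216 (nat_lit 11) [⟨0,1,8,8,8,10,false,false⟩,⟨0,2,8,10,10,0,false,false⟩,⟨0,3,8,0,0,1,false,false⟩,⟨3,4,0,1,1,2,false,false⟩,⟨3,5,0,2,2,3,false,false⟩,⟨3,2,3,0,10,9,false,false⟩,⟨4,6,1,2,2,11,false,false⟩,⟨0,4,8,1,11,12,false,true⟩,⟨3,4,9,3,3,7,false,false⟩,⟨5,7,3,2,2,4,false,false⟩,⟨5,4,4,3,7,6,false,false⟩,⟨6,9,11,2,2,13,true,false⟩,⟨7,9,4,2,13,5,false,false⟩,⟨9,10,5,13,13,17,false,false⟩,⟨7,9,4,5,17,14,false,false⟩,⟨7,8,4,14,14,16,false,false⟩,⟨5,7,6,4,16,15,false,false⟩,⟨5,6,6,15,15,19,false,false⟩,⟨4,5,7,6,19,18,false,false⟩,⟨3,4,9,7,18,20,false,false⟩]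 (nat_lit 19) (nat_lit 174762) (by decide +kernel)
end Pool.Agent.FCT.R
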