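import Pool.Agent.Lib.MP_fe5cb4_co.FC.RawDef
set_option linter.defProp false
namespace Pool.Agent.FCT.R
open Pool.Agent.Lib.MP_fe5cb4_co.FC
noncomputable def s44 : Raw := ⟨[(0,[10,8,1,2,3,4,9]),(1,[6,5,2,0,8]),(2,[13,11,3,0,1,5,7,12]),(3,[14,4,0,2,11,15]),(4,[16,9,0,3,14]),(5,[18,7,2,1,6,17]),(6,[17,5,1,8,19]),(7,[20,12,2,5,18])], [20,12,13,11,15,14,16,9,10,8,19,17,18], [(4,16),(0,2),(2,12),(2,11)]⟩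
def c44 : RawB s44 := raw1 s44 (nat_lit 11) [⟨0,1,5,5,5,17,false,false⟩,⟨0,2,17,5,5,18,false,false⟩,⟨2,3,18,5,5,7,false,false⟩,⟨2,4,18,7,7,20,true,false⟩,⟨1,2,17,5,5,6,false,false⟩,⟨4,5,20,7,7,12,true,false⟩,⟨3,5,5,7,12,2,false,false⟩,⟨3,2,2,5,6,1,false,false⟩,⟨3,4,1,2,2,0,false,false⟩,⟨3,2,0,1,6,8,false,false⟩,⟨2,1,8,6,17,19,false,false⟩,⟨5,10,2,12,12,13,false,false⟩,⟨5,9,2,13,13,11,false,false⟩,⟨4,5,0,2,11,3,false,false⟩,⟨5,8,3,11,11,15,false,false⟩,⟨5,7,3,15,15,14,false,false⟩,⟨4,5,0,3,14,4,false,false⟩,⟨5,6,4,14,14,16,false,false⟩,⟨4,5,0,4,16,9,false,false⟩,⟨3,4,8,0,9,10,false,false⟩] (nat_lit 23) (nat_lit 2796202) (by decide +kernel)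
noncomputable def s45 : Raw := ⟨[(0,[9,7,1,2,3,4,8]),(1,[6,5,2,0,7]),(2,[12,10,3,0,1,5,11]),(3,[13,4,0,2,10,14]),(4,[15,8,0,3,13]),(5,[17,11,2,1,6,16]),(6,[16,5,1,7,18])], [8,9,7,18,16,17,11,12,10,14,13,15], [(0,2),(2,11),(2,10),(5,16)]⟩
def c45 : RawB s45 := raw1 s45 (nat_lit 10) [⟨0,1,0,0,0,2,false,false⟩,⟨0,2,0,2,2,3,false,false⟩,⟨1,3,0,2,2,1,false,false⟩,⟨3,4,2,1,1,5,false,false⟩,⟨3,5,2,5,5,11,false,false⟩,⟨4,6,1,5,5,6,false,false⟩,⟨4,7,1,6,6,7,false,false⟩,⟨4,1,7,1,0,0,false,false⟩,⟨0,1,0,3,3,4,false,false⟩,⟨7,8,6,7,7,18,false,false⟩,⟨6,7,5,6,18,16,false,false⟩,⟨5,6,11,5,16,17,false,false⟩,⟨4,9,0,7,7,9,false,false⟩,⟨0,4,4,0,9,8,false,true⟩,⟨0,4,4,8,8,15,false,true⟩,⟨1,0,3,4,15,13,false,false⟩,⟨3,4,2,11,11,12,false,false⟩,⟨2,3,3,2,12,10,false,false⟩,⟨2,1,10,3,13,14,false,false⟩]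 (nat_lit 21) (nat_lit 1398101) (by decide +kernel)
noncomputable def s46 : Raw := ⟨[(0,[8,1,2,3,9]),(1,[10,2,0,8,11]),(2,[12,4,3,0,1,10,13]),(3,[9,0,2,4,5,6,7]),(4,[14,5,3,2,12,15]),(5,[16,6,3,4,14,17]),(6,[18,7,3,5,16,19]),(7,[20,9,3,6,18])], [12,15,14,17,16,19,18,20,9,8,11,10,13], [(2,3),(3,9),(5,14),(5,16)]⟩
def c46 : RawB s46 := raw1 s46 (nat_lit 11) [⟨0,1,1,1,1,11,false,false⟩,⟨0,2,1,11,11,8,false,false⟩,⟨0,3,1,8,8,0,false,false⟩,⟨0,4,1,0,0,2,false,false⟩,⟨0,1,2,1,11,10,false,false⟩,⟨4,5,0,2,2,3,false,false⟩,⟨4,3,3,0,8,9,false,false⟩,⟨5,6,2,3,3,4,false,false⟩,⟨5,7,2,4,4,12,false,false⟩,⟨0,5,10,2,12,13,false,true⟩,⟨4,5,9,3,3,7,false,false⟩,⟨6,8,3,4,4,5,false,false⟩,⟨6,5,5,3,7,6,false,false⟩,⟨7,10,12,4,4,15,true,false⟩,⟨8,10,5,4,15,14,false,false⟩,⟨8,9,5,14,14,17,false,false⟩,⟨6,8,6,5,17,16,false,false⟩,⟨6,7,6,16,16,19,false,false⟩,⟨5,6,7,6,19,18,false,false⟩,⟨4,5,9,7,18,20,false,false⟩]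 (nat_lit 14) (nat_lit 10922) (by decide +kernel)
noncomputable def s47 : Raw := ⟨[(0,[9,7,1,2,3,8]),(1,[10,2,0,7,11]),(2,[12,5,4,3,0,1,10,13]),(3,[8,0,2,4,6]),(4,[15,6,3,2,5,14,16]),(5,[14,4,2,12,17]),(6,[18,8,3,4,15])], [18,8,9,7,11,10,13,12,17,14,16,15], [(0,8),(0,7),(0,2),(3,6)]⟩
def c47 : RawB s47 := raw1 s47 (nat_lit 10) [⟨0,1,4,4,4,5,false,false⟩,⟨0,2,4,5,5,2,false,false⟩,⟨2,3,5,2,2,12,false,false⟩,⟨3,4,2,12,12,13,false,false⟩,⟨3,5,2,13,13,10,false,false⟩,⟨3,6,2,10,10,1,false,false⟩,⟨3,7,2,1,1,0,false,false⟩,⟨3,0,0,2,4,3,false,false⟩,⟨3,8,3,0,0,8,false,false⟩,⟨0,3,4,3,8,6,false,false⟩,⟨3,9,6,8,8,18,false,true⟩,⟨0,3,4,6,18,15,false,true⟩,⟨2,3,5,12,12,17,false,false⟩,⟨8,9,0,8,8,9,false,false⟩,⟨7,8,1,0,9,7,false,false⟩,⟨7,6,7,1,10,11,false,false⟩,⟨1,2,4,5,17,14,false,false⟩,⟨1,0,14,4,15,16,false,false⟩]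 (nat_lit 20) (nat_lit 349525) (by decide +kernel)
noncomputable def s48 : Raw := ⟨[(0,[10,8,1,2,3,4,9]),(1,[11,7,6,5,2,0,8,12]),(2,[13,3,0,1,5]),(3,[14,4,0,2,13]),(4,[15,9,0,3,14]),(5,[17,13,2,1,6,16]),(6,[19,16,5,1,7,18]),(7,[18,6,1,11,20])], [14,15,9,10,8,12,11,20,18,19,16,17,13], [(4,9),(1,5),(5,16),(5,13)]⟩
def c48 : RawB s48 := raw1 s48 (nat_lit 11) [⟨0,1,1,1,1,5,false,false⟩,⟨0,2,5,1,1,2,false,false⟩,⟨0,3,5,2,2,13,false,false⟩,⟨3,4,2,13,13,3,false,false⟩,⟨4,5,3,13,13,14,false,true⟩,⟨2,5,2,1,1,0,false,false⟩,⟨3,2,3,2,0,0,false,false⟩,⟨2,6,1,1,1,11,false,false⟩,⟨6,7,11,1,1,12,false,false⟩,⟨5,8,1,0,0,8,false,false⟩,⟨7,5,12,1,8,8,false,false⟩,⟨3,9,3,0,0,4,false,false⟩,⟨3,4,4,3,14,14,false,false⟩,⟨3,10,14,4,4,15,true,false⟩,⟨9,10,0,4,15,9,false,false⟩,⟨8,9,8,0,9,10,false,false⟩,⟨2,4,1,11,11,7,false,false⟩,⟨1,2,5,1,7,6,false,false⟩,⟨4,5,7,11,11,20,false,false⟩,⟨2,4,6,7,20,18,false,false⟩,⟨2,3,6,18,18,19,false,false⟩,⟨1,2,5,6,19,16,false,false⟩,⟨0,1,13,5,16,17,false,false⟩]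 (nat_lit 15) (nat_lit 10922) (by decide +kernel)
noncomputable def s49 : Raw := ⟨[(0,[7,1,2,3,8]),(1,[9,2,0,7,10]),(2,[11,5,4,3,0,1,9,12]),(3,[8,0,2,4,6]),(4,[14,6,3,2,5,13,15]),(5,[13,4,2,11,16]),(6,[17,8,3,4,14])], [10,9,12,11,16,13,15,14,17,8,7], [(1,7),(1,2),(2,3),(3,6)]⟩
def c49 : RawB s49 := raw1 s49 (nat_lit 9) [⟨0,1,3,3,3,6,false,false⟩,⟨0,2,3,6,6,4,false,false⟩,⟨0,3,3,4,4,2,false,false⟩,⟨0,4,3,2,2,0,false,false⟩,⟨0,1,0,3,6,8,false,false⟩,⟨4,5,0,2,2,1,false,false⟩,⟨4,0,1,0,8,7,false,false⟩,⟨3,6,4,2,2,5,false,false⟩,⟨5,7,1,2,2,9,false,false⟩,⟨4,5,7,1,9,10,true,true⟩,⟨3,5,4,5,5,13,false,false⟩,⟨3,4,4,13,13,15,false,false⟩,⟨2,3,6,4,15,14,false,false⟩,⟨7,8,2,9,9,12,false,false⟩,⟨6,7,5,2,12,11,false,false⟩,⟨6,5,11,5,13,16,false,false⟩,⟨1,2,8,6,14,17,false,false⟩]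 (nat_lit 9) (nat_lit 341) (by decide +kernel)
noncomputable def s50 : Raw := ⟨[(0,[8,1,2,3,9]),(1,[10,2,0,8,11]),(2,[12,4,3,0,1,10,13]),(3,[9,0,2,4,5,6,7,14]),(4,[15,5,3,2,12]),(5,[16,6,3,4,15,17]),(6,[18,7,3,5,16,19]),(7,[20,14,3,6,18])], [15,17,16,19,18,20,14,9,8,11,10,13,12], [(3,5),(5,15),(5,16),(6,19)]⟩
def c50 : RawB s50 := raw1 s50 (nat_lit 11) [⟨0,1,0,0,0,2,false,false⟩,⟨0,2,2,0,0,3,false,false⟩,⟨0,3,2,3,3,4,false,false⟩,⟨2,4,0,3,3,9,false,false⟩,⟨4,5,3,9,9,14,false,false⟩,⟨4,6,3,14,14,7,false,false⟩,⟨4,7,3,7,7,6,false,false⟩,⟨3,4,4,3,6,5,false,false⟩,⟨7,8,7,6,6,18,false,false⟩,⟨6,7,14,7,18,20,false,false⟩,⟨8,9,18,6,6,19,false,false⟩,⟨4,9,5,6,19,16,false,false⟩,⟨4,10,5,16,16,17,false,false⟩,⟨3,4,4,5,17,15,false,true⟩,⟨0,3,2,4,15,12,false,true⟩,⟨2,4,0,9,9,8,false,false⟩,⟨1,2,2,0,8,1,false,false⟩,⟨2,3,1,8,8,11,false,false⟩,⟨1,2,2,1,11,10,false,false⟩,⟨1,0,10,2,12,13,false,false⟩]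 (nat_lit 24) (nat_lit 11184810) (by decide +kernel)
noncomputable def s51 : Raw := ⟨[(0,[6,1,2,3,7]),(1,[8,2,0,6,9]),(2,[10,4,3,0,1,8,11]),(3,[7,0,2,4,5]),(4,[12,5,3,2,10,13]),(5,[14,7,3,4,12])], [11,10,13,12,14,7,6,9,8], [(1,0),(0,7),(4,10),(4,5)]⟩
def c51 : RawB s51 := raw1 s51 (nat_lit 7) [⟨0,1,8,8,8,11,false,true⟩,⟨0,1,8,11,11,2,false,false⟩,⟨0,2,8,2,2,1,false,false⟩,⟨2,3,1,2,2,0,false,false⟩,⟨1,4,11,2,2,10,true,false⟩,⟨2,1,0,1,1,6,false,false⟩,⟨1,0,6,1,8,9,false,false⟩,⟨4,5,2,10,10,4,false,false⟩,⟨3,4,0,2,4,3,false,false⟩,⟨3,2,3,0,6,7,false,false⟩,⟨4,3,4,3,7,5,false,false⟩,⟨5,6,4,10,10,13,false,false⟩,⟨4,5,5,4,13,12,false,false⟩,⟨3,4,7,5,12,14,false,false⟩] (nat_lit 4) (nat_lit 10) (by decide +kernel)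
noncomputable def s52 : Raw := ⟨[(0,[9,7,1,2,3,4,8]),(1,[6,5,2,0,7]),(2,[12,10,3,0,1,5,11]),(3,[13,4,0,2,10]),(4,[14,8,0,3,13]),(5,[16,11,2,1,6,15]),(6,[15,5,1,7,17])], [13,14,8,9,7,17,15,16,11,12,10], [(4,13),(4,8),(2,11),(2,10)]⟩
def c52 : RawB s52 := raw1 s52 (nat_lit 9) [⟨0,1,2,2,2,5,false,false⟩,⟨0,2,2,5,5,1,false,false⟩,⟨0,4,2,1,1,0,false,false⟩,⟨0,3,2,0,0,3,false,false⟩,⟨0,5,2,3,3,10,false,false⟩,⟨4,6,1,0,0,7,false,false⟩,⟨2,4,5,1,7,6,false,false⟩,⟨3,7,3,0,0,4,false,false⟩,⟨3,5,4,3,10,13,false,true⟩,⟨4,5,6,7,7,17,false,false⟩,⟨3,8,13,4,4,14,true,false⟩,⟨7,8,0,4,14,8,false,false⟩,⟨6,7,7,0,8,9,false,false⟩,⟨2,4,5,6,17,15,false,false⟩,⟨2,3,5,15,15,16,false,false⟩,⟨1,2,2,5,16,11,false,false⟩,⟨0,1,10,2,11,12,false,false⟩] (nat_lit 9) (nat_lit 341) (by decide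 +kernel)
noncomputable def s53 : Raw := ⟨[(0,[10,8,1,2,3,4,9]),(1,[6,5,2,0,8]),(2,[11,3,0,1,5,7,12]),(3,[13,4,0,2,11]),(4,[14,9,0,3,13]),(5,[16,7,2,1,6,15,17]),(6,[15,5,1,8,18]),(7,[19,12,2,5,16])], [8,18,15,17,16,19,12,11,13,14,9,10], [(0,9),(0,8),(6,8),(6,15)]⟩
def c53 : RawB s53 := raw1 s53 (nat_lit 10) [⟨0,1,4,4,4,14,false,false⟩,⟨0,2,4,14,14,13,false,false⟩,⟨0,3,4,13,13,3,false,false⟩,⟨0,4,4,3,3,0,false,false⟩,⟨0,1,0,4,14,9,false,false⟩,⟨4,5,3,0,0,2,false,false⟩,⟨4,3,2,3,13,11,false,false⟩,⟨5,6,0,2,2,1,false,false⟩,⟨5,7,0,1,1,8,false,false⟩,⟨5,0,8,0,9,10,true,false⟩,⟨4,5,11,2,2,12,false,false⟩,⟨7,8,1,8,8,6,false,false⟩,⟨6,7,2,1,6,5,false,false⟩,⟨6,5,5,2,12,7,false,false⟩,⟨8,9,8,6,6,18,true,false⟩,⟨7,9,5,6,18,15,false,false⟩,⟨7,8,5,15,15,17,false,false⟩,⟨6,7,7,5,17,16,false,false⟩,⟨5,6,12,7,16,19,false,false⟩]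 (nat_lit 10) (nat_lit 341) (by decide +kernel)
noncomputable def s54 : Raw := ⟨[(0,[10,8,1,2,3,4,5,9]),(1,[11,2,0,8,12]),(2,[13,7,6,3,0,1,11]),(3,[14,4,0,2,6,15]),(4,[16,5,0,3,14]),(5,[17,9,0,4,16]),(6,[15,3,2,7,18]),(7,[18,6,2,13,19])], [16,17,9,10,8,12,11,13,19,18,15,14], [(4,14),(4,0),(3,15),(2,13)]⟩
def c54 : RawB s54 := raw1 s54 (nat_lit 10) [⟨0,1,7,7,7,18,false,false⟩,⟨0,2,7,18,18,19,false,false⟩,⟨0,3,7,19,19,13,false,false⟩,⟨0,4,7,13,13,2,false,false⟩,⟨0,1,2,7,18,6,false,false⟩,⟨0,5,6,2,2,3,false,false⟩,⟨0,1,3,6,18,15,false,false⟩,⟨0,6,15,3,3,14,false,false⟩,⟨6,7,14,3,3,4,false,false⟩,⟨5,7,2,3,4,0,false,false⟩,⟨6,8,14,4,4,16,true,false⟩,⟨7,8,0,4,16,5,false,false⟩,⟨5,6,2,0,0,1,false,false⟩,⟨5,4,1,2,13,11,false,false⟩,⟨8,9,16,5,5,17,true,false⟩,⟨7,9,0,5,17,9,false,false⟩,⟨7,8,0,9,9,10,false,false⟩,⟨6,7,1,0,10,8,false,false⟩,⟨6,5,8,1,11,12,false,false⟩]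 (nat_lit 10) (nat_lit 341) (by decide +kernel)
end Pool.Agent.FCT.R
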