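import Pool.Agent.Lib.MP_fe5cb4_co.FC.RawDef
set_option linter.defProp false
namespace Pool.Agent.FCT.R
open Pool.Agent.Lib.MP_fe5cb4_co.FC
noncomputable def s245 : Raw := ⟨[(0,[10,1,2,3,4,5,6]),(1,[11,2,0,10,12]),(2,[13,8,7,3,0,1,11,14]),(3,[15,4,0,2,7,9,16]),(4,[17,5,0,3,15]),(5,[18,6,0,4,17,19]),(6,[20,10,0,5,18]),(7,[9,3,2,8,21]),(8,[21,7,2,13,22]),(9,[23,16,3,7,21])], [17,19,18,20,10,12,11,14,13,22,21,23,16,15], [(5,17),(5,18),(5,0)]⟩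
def c245 : RawB s245 := raw1 s245 (nat_lit 12) [⟨0,1,7,7,7,9,false,false⟩,⟨0,2,7,9,9,21,false,false⟩,⟨0,3,7,21,21,8,false,false⟩,⟨0,4,7,8,8,2,false,false⟩,⟨0,1,2,7,9,3,false,false⟩,⟨0,5,3,2,2,0,false,false⟩,⟨0,6,3,0,0,4,false,false⟩,⟨6,7,4,0,0,5,false,false⟩,⟨7,8,0,5,5,6,false,false⟩,⟨7,9,0,6,6,10,false,false⟩,⟨5,7,2,0,10,1,false,false⟩,⟨9,10,10,6,6,20,false,false⟩,⟨8,10,5,6,20,18,false,false⟩,⟨8,11,5,18,18,19,false,false⟩,⟨6,8,4,5,19,17,false,true⟩,⟨0,6,3,4,17,15,false,true⟩,⟨1,0,9,3,15,16,false,false⟩,⟨1,2,16,9,21,23,false,false⟩,⟨7,8,1,10,10,12,false,false⟩,⟨5,7,2,1,12,11,false,false⟩,⟨5,6,2,11,11,14,false,false⟩,⟨4,5,8,2,14,13,false,false⟩,⟨4,3,13,8,21,22,false,false⟩] (nat_lit 13) (nat_lit 2730) (by decide +kernel)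
noncomputable def s246 : Raw := ⟨[(0,[7,6,5,4,1,2,11]),(1,[12,3,2,0,4]),(2,[11,0,1,3,13]),(3,[13,2,1,12,14]),(5,[15,4,0,6,8,9,10,16]),(6,[8,5,0,7,17]),(7,[17,6,0,11,18]),(8,[19,9,5,6,17]),(9,[20,10,5,8,19,21]),(10,[22,16,5,9,20])], [12,14,13,11,18,17,19,21,20,22,16,15,4], [(3,14),(3,2),(0,11),(0,4)]⟩
def c246 : RawB s246 := raw1 s246 (nat_lit 11) [⟨0,1,5,5,5,8,false,false⟩,⟨0,2,5,8,8,6,false,false⟩,⟨2,3,8,6,6,17,false,false⟩,⟨3,4,6,17,17,7,false,false⟩,⟨0,3,5,6,7,0,false,false⟩,⟨2,6,8,17,17,19,false,false⟩,⟨1,2,5,8,19,9,false,false⟩,⟨2,5,9,19,19,21,false,false⟩,⟨4,7,7,17,17,18,false,false⟩,⟨4,8,7,18,18,11,false,false⟩,⟨3,4,0,7,11,11,false,false⟩,⟨0,4,5,0,0,4,false,false⟩,⟨3,9,0,11,11,2,false,false⟩,⟨3,4,2,0,4,1,false,false⟩,⟨9,10,11,2,2,13,false,false⟩,⟨3,10,1,2,13,3,false,false⟩,⟨3,4,3,1,4,12,false,true⟩,⟨3,10,12,3,13,14,true,false⟩,⟨2,4,9,21,21,20,false,false⟩,⟨1,2,5,9,20,10,false,false⟩,⟨2,3,10,20,20,22,false,false⟩,⟨1,2,5,10,22,16,false,false⟩,⟨0,1,4,5,16,15,false,false⟩]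 (nat_lit 10) (nat_lit 682) (by decide +kernel)
noncomputable def s247 : Raw := ⟨[(0,[12,5,3,1,2,4,6]),(1,[15,13,7,2,0,3,8,14]),(2,[17,9,4,0,1,7,16,18]),(3,[8,1,0,5,10]),(4,[11,6,0,2,9]),(5,[19,10,3,0,12]),(6,[12,0,4,11,20]),(7,[16,2,1,13,21]),(8,[23,14,1,3,10,22]),(9,[24,11,4,2,17,25]),(10,[22,8,3,5,19]),(11,[20,6,4,9,24])], [17,25,24,20,12,19,22,23,14,15,13,21,16,18], [(0,5),(5,19)]⟩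
def c247 : RawB s247 := raw1 s247 (nat_lit 12) [⟨0,1,0,0,0,3,false,false⟩,⟨0,2,0,3,3,1,false,false⟩,⟨2,3,3,1,1,8,false,false⟩,⟨0,4,1,0,0,2,false,false⟩,⟨3,5,1,8,8,14,false,false⟩,⟨2,6,3,8,8,10,false,false⟩,⟨2,7,3,10,10,5,false,false⟩,⟨1,2,0,3,5,5,false,false⟩,⟨0,2,2,1,1,7,false,false⟩,⟨7,8,10,5,5,19,false,false⟩,⟨6,7,8,10,19,22,false,false⟩,⟨5,6,14,8,22,23,false,false⟩,⟨1,8,0,5,19,12,false,false⟩,⟨1,9,0,12,12,6,false,false⟩,⟨4,1,2,0,6,4,false,false⟩,⟨9,10,12,6,6,20,false,false⟩,⟨1,10,4,6,20,11,false,false⟩,⟨4,1,2,4,11,9,false,false⟩,⟨1,10,9,11,20,24,false,false⟩,⟨1,11,9,24,24,25,false,false⟩,⟨4,1,2,9,25,17,false,true⟩,⟨0,1,2,7,7,16,false,false⟩,⟨0,4,16,2,17,18,false,true⟩,⟨3,4,1,14,14,15,false,false⟩,⟨2,3,7,1,15,13,false,false⟩,⟨2,1,13,7,16,21,false,false⟩] (nat_lit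 8) (nat_lit 85) (by decide +kernel)
noncomputable def s248 : Raw := ⟨[(0,[8,1,2,3,4]),(1,[9,2,0,8,10]),(2,[11,3,0,1,9]),(3,[7,6,5,4,0,2,11]),(5,[12,4,3,6,13]),(6,[15,13,5,3,7,14]),(7,[14,6,3,11,16])], [8,10,9,11,16,14,15,13,12,4], [(3,11),(3,4),(6,14),(6,13)]⟩
def c248 : RawB s248 := raw1 s248 (nat_lit 8) [⟨0,1,5,5,5,12,false,false⟩,⟨0,2,12,5,5,4,false,false⟩,⟨2,3,5,4,4,3,false,false⟩,⟨2,4,5,3,3,6,false,false⟩,⟨2,1,6,5,12,13,false,false⟩,⟨3,5,4,3,3,0,false,false⟩,⟨3,6,0,4,4,8,false,true⟩,⟨3,6,8,0,0,1,false,false⟩,⟨3,7,8,1,1,10,true,false⟩,⟨2,3,13,6,6,15,false,false⟩,⟨6,5,1,0,3,2,false,false⟩,⟨6,7,2,1,10,9,false,false⟩,⟨5,6,3,2,9,11,false,false⟩,⟨4,5,6,3,11,7,false,false⟩,⟨4,3,7,6,15,14,false,false⟩,⟨5,4,11,7,14,16,false,false⟩] (nat_lit 7) (nat_lit 85) (by decide +kernel)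
noncomputable def s249 : Raw := ⟨[(0,[7,6,5,4,1,2,9]),(1,[10,3,2,0,4]),(2,[9,0,1,3,11]),(3,[11,2,1,10,12]),(5,[13,4,0,6,8,14]),(6,[16,8,5,0,7,15]),(7,[15,6,0,9,17]),(8,[18,14,5,6,16])], [10,12,11,9,17,15,16,18,14,13,4], [(3,10),(3,11),(0,4),(0,6)]⟩
def c249 : RawB s249 := raw1 s249 (nat_lit 9) [⟨0,1,0,0,0,6,false,false⟩,⟨0,2,0,6,6,7,false,false⟩,⟨0,3,0,7,7,9,false,false⟩,⟨0,4,0,9,9,2,false,false⟩,⟨2,5,6,7,7,15,false,false⟩,⟨3,6,7,9,9,17,false,false⟩,⟨5,3,15,7,17,17,false,false⟩,⟨0,3,0,2,2,1,false,false⟩,⟨4,7,2,9,9,11,false,false⟩,⟨3,4,1,2,11,3,false,false⟩,⟨4,8,3,11,11,12,false,false⟩,⟨3,4,1,3,12,10,false,true⟩,⟨0,3,0,1,10,4,false,true⟩,⟨0,1,4,0,6,5,false,false⟩,⟨2,4,6,15,15,16,false,false⟩,⟨1,2,5,6,16,8,false,false⟩,⟨2,3,8,16,16,18,false,false⟩,⟨1,2,5,8,18,14,false,false⟩,⟨0,1,4,5,14,13,false,false⟩]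 (nat_lit 8) (nat_lit 85) (by decide +kernel)
noncomputable def s250 : Raw := ⟨[(0,[7,6,5,4,1,2,11]),(1,[12,3,2,0,4]),(2,[11,0,1,3,13]),(3,[13,2,1,12,14]),(5,[15,4,0,6,8]),(6,[10,8,5,0,7,9]),(7,[16,9,6,0,11,17]),(8,[15,5,6,10,18]),(9,[19,10,6,7,16,20]),(10,[21,18,8,6,9,19])], [12,14,13,11,17,16,20,19,21,18,15,4], [(3,14),(1,12),(2,11)]⟩
def c250 : RawB s250 := raw1 s250 (nat_lit 10) [⟨0,2,6,6,6,10,false,false⟩,⟨0,3,6,10,10,9,false,false⟩,⟨0,4,6,9,9,7,false,false⟩,⟨0,5,6,7,7,0,false,false⟩,⟨0,1,0,6,6,5,false,false⟩,⟨5,6,0,7,7,11,false,false⟩,⟨0,7,5,0,0,4,false,false⟩,⟨5,8,0,11,11,2,false,false⟩,⟨5,7,2,0,4,1,false,false⟩,⟨8,9,11,2,2,13,false,false⟩,⟨5,9,1,2,13,3,false,false⟩,⟨5,7,3,1,4,12,false,true⟩,⟨5,9,12,3,13,14,true,false⟩,⟨1,2,5,6,10,8,false,false⟩,⟨0,1,4,5,8,15,false,false⟩,⟨2,1,10,8,15,18,false,false⟩,⟨6,7,7,11,11,17,false,false⟩,⟨4,6,9,7,17,16,false,false⟩,⟨4,5,9,16,16,20,false,false⟩,⟨3,4,10,9,20,19,false,false⟩,⟨2,3,18,10,19,21,false,false⟩]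 (nat_lit 6) (nat_lit 42) (by decide +kernel)
noncomputable def s251 : Raw := ⟨[(0,[6,5,4,1,2,8]),(1,[9,3,2,0,4]),(2,[8,0,1,3,10]),(3,[10,2,1,9,11]),(5,[12,4,0,6,7,13]),(6,[14,7,5,0,8,15]),(7,[16,13,5,6,14])], [8,15,14,16,13,12,4,9,11,10], [(6,8),(6,14),(5,13),(5,4)]⟩
def c251 : RawB s251 := raw1 s251 (nat_lit 8) [⟨0,1,2,2,2,10,false,false⟩,⟨0,2,10,2,2,3,false,false⟩,⟨1,3,10,2,2,8,true,false⟩,⟨0,1,10,3,3,11,false,false⟩,⟨3,4,2,8,8,0,false,false⟩,⟨3,2,0,2,3,1,false,false⟩,⟨2,1,1,3,11,9,false,false⟩,⟨3,2,0,1,9,4,false,false⟩,⟨4,5,0,8,8,6,false,false⟩,⟨3,4,4,0,6,5,false,false⟩,⟨5,6,6,8,8,15,false,true⟩,⟨5,7,6,15,15,14,false,false⟩,⟨4,5,5,6,14,7,false,false⟩,⟨5,6,7,14,14,16,false,false⟩,⟨4,5,5,7,16,13,false,false⟩,⟨3,4,4,5,13,12,false,false⟩] (nat_lit 12) (nat_lit 2730)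 (by decide +kernel)
noncomputable def s252 : Raw := ⟨[(0,[6,5,4,1,2,9]),(1,[10,3,2,0,4]),(2,[9,0,1,3,11]),(3,[11,2,1,10,12]),(5,[13,4,0,6,7,8]),(6,[14,7,5,0,9,15]),(7,[16,8,5,6,14,17]),(8,[18,13,5,7,16])], [10,12,11,9,15,14,17,16,18,13,4], [(3,10),(3,11),(0,4),(0,6)]⟩
def c252 : RawB s252 := raw1 s252 (nat_lit 9) [⟨0,1,5,5,5,6,false,false⟩,⟨0,2,5,6,6,0,false,false⟩,⟨2,3,0,6,6,9,false,false⟩,⟨0,4,5,0,0,4,false,false⟩,⟨3,6,6,9,9,15,false,false⟩,⟨3,5,6,15,15,14,false,false⟩,⟨2,7,0,9,9,2,false,false⟩,⟨2,4,2,0,4,1,false,false⟩,⟨7,8,9,2,2,11,false,false⟩,⟨2,8,1,2,11,3,false,false⟩,⟨2,4,3,1,4,10,false,true⟩,⟨2,8,10,3,11,12,true,false⟩,⟨1,3,5,6,14,7,false,false⟩,⟨1,2,5,7,7,8,false,false⟩,⟨0,1,4,5,8,13,false,false⟩,⟨3,4,7,14,14,17,false,false⟩,⟨2,3,8,7,17,16,false,false⟩,⟨1,2,13,8,16,18,false,false⟩]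 (nat_lit 8) (nat_lit 85) (by decide +kernel)
noncomputable def s253 : Raw := ⟨[(0,[9,1,2,3,4,5,10]),(1,[11,6,2,0,9]),(2,[12,3,0,1,6,13]),(3,[14,7,4,0,2,12]),(4,[17,15,5,0,3,7,8,16]),(5,[18,10,0,4,15]),(6,[13,2,1,11,19]),(7,[20,8,4,3,14,21]),(8,[22,16,4,7,20])], [13,12,14,21,20,22,16,17,15,18,10,9,11,19], [(2,12),(2,0),(3,14),(3,4)]⟩
def c253 : RawB s253 := raw1 s253 (nat_lit 12) [⟨0,1,1,1,1,11,false,false⟩,⟨0,2,11,1,1,6,false,false⟩,⟨2,3,1,6,6,2,false,false⟩,⟨2,4,1,2,2,0,false,false⟩,⟨2,1,0,1,11,9,false,false⟩,⟨4,5,2,0,0,3,false,false⟩,⟨3,6,6,2,2,13,false,false⟩,⟨0,3,11,6,13,19,false,true⟩,⟨5,3,3,0,0,4,false,false⟩,⟨6,7,13,2,2,12,true,false⟩,⟨7,4,12,2,3,3,false,false⟩,⟨7,11,3,12,12,14,false,false⟩,⟨5,7,4,3,14,7,false,false⟩,⟨7,10,7,14,14,21,false,false⟩,⟨7,9,7,21,21,20,false,false⟩,⟨5,7,4,7,20,8,false,false⟩,⟨7,8,8,20,20,22,false,false⟩,⟨5,7,4,8,22,16,false,false⟩,⟨3,4,0,4,4,5,false,false⟩,⟨3,2,5,0,9,10,false,false⟩,⟨5,6,4,16,16,17,false,false⟩,⟨4,5,5,4,17,15,false,false⟩,⟨3,4,10,5,15,18,false,false⟩]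 (nat_lit 17) (nat_lit 43690) (by decide +kernel)
noncomputable def s254 : Raw := ⟨[(0,[7,6,5,4,1,2,11]),(1,[12,3,2,0,4]),(2,[14,11,0,1,3,13]),(3,[13,2,1,12,15]),(5,[16,4,0,6,8]),(6,[8,5,0,7,9]),(7,[17,10,9,6,0,11,18]),(8,[16,5,6,9,19]),(9,[21,19,8,6,7,10,20]),(10,[20,9,7,17,22])], [12,15,13,14,11,18,17,22,20,21,19,16,4], [(3,1),(1,4),(2,13),(2,11)]⟩
def c254 : RawB s254 := raw1 s254 (nat_lit 11) [⟨0,1,8,8,8,19,false,false⟩,⟨0,2,8,19,19,9,false,false⟩,⟨0,3,8,9,9,6,false,false⟩,⟨0,4,8,6,6,5,false,false⟩,⟨0,1,5,8,19,16,false,false⟩,⟨4,5,6,5,5,0,false,false⟩,⟨4,3,0,6,9,7,false,false⟩,⟨5,6,5,0,0,4,false,false⟩,⟨0,5,16,5,4,4,false,false⟩,⟨4,5,7,0,0,11,false,false⟩,⟨4,7,7,11,11,18,false,false⟩,⟨5,8,0,11,11,2,false,false⟩,⟨5,6,2,0,4,1,false,false⟩,⟨5,9,1,2,2,3,false,false⟩,⟨5,6,3,1,4,12,false,true⟩,⟨5,10,12,3,3,15,true,false⟩,⟨9,10,2,3,15,13,false,false⟩,⟨8,9,11,2,13,14,false,false⟩,⟨4,6,7,18,18,17,false,false⟩,⟨3,4,9,7,17,10,false,false⟩,⟨4,5,10,17,17,22,false,false⟩,⟨3,4,9,10,22,20,false,false⟩,⟨2,3,19,9,20,21,false,false⟩]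 (nat_lit 9) (nat_lit 341) (by decide +kernel)
noncomputable def s255 : Raw := ⟨[(0,[9,1,2,3,4,5,6,10]),(1,[11,7,2,0,9,12]),(2,[8,3,0,1,7]),(3,[15,13,4,0,2,8,14]),(4,[16,5,0,3,13,17]),(5,[18,6,0,4,16,19]),(6,[20,10,0,5,18]),(7,[21,8,2,1,11]),(8,[14,3,2,7,21])], [18,20,10,9,12,11,21,14,15,13,17,16,19], [(0,3),(3,14),(3,13),(7,21)]⟩
def c255 : RawB s255 := raw1 s255 (nat_lit 11) [⟨0,1,0,0,0,3,false,false⟩,⟨0,2,0,3,3,4,false,false⟩,⟨1,3,0,3,3,2,false,false⟩,⟨3,4,3,2,2,8,false,false⟩,⟨4,5,2,8,8,7,false,false⟩,⟨1,4,0,2,7,1,false,false⟩,⟨5,6,8,7,7,21,false,false⟩,⟨4,6,1,7,21,11,false,false⟩,⟨3,5,3,8,21,14,false,false⟩,⟨4,7,1,11,11,12,false,false⟩,⟨4,8,1,12,12,9,false,false⟩,⟨1,4,0,1,9,9,false,false⟩,⟨0,4,4,0,0,5,false,false⟩,⟨1,9,0,9,9,10,false,false⟩,⟨4,1,5,0,10,6,false,false⟩,⟨1,10,6,10,10,20,false,false⟩,⟨4,1,5,6,20,18,false,true⟩,⟨0,1,5,4,4,16,false,false⟩,⟨0,4,16,5,18,19,false,true⟩,⟨3,4,3,14,14,15,false,false⟩,⟨2,3,4,3,15,13,false,false⟩,⟨2,1,13,4,16,17,false,false⟩]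 (nat_lit 13) (nat_lit 5461) (by decide +kernel)
noncomputable def s256 : Raw := ⟨[(0,[8,1,2,3,4,9]),(1,[10,6,5,2,0,8,11]),(2,[12,3,0,1,5,7,13]),(3,[14,4,0,2,12]),(4,[15,9,0,3,14]),(5,[17,7,2,1,6,16,18]),(6,[16,5,1,10,19]),(7,[20,13,2,5,17])], [14,15,9,8,11,10,19,16,18,17,20,13,12], [(1,8),(1,5),(6,10),(6,16)]⟩
def c256 : RawB s256 := raw1 s256 (nat_lit 11) [⟨0,1,0,0,0,2,false,false⟩,⟨0,2,2,0,0,3,false,false⟩,⟨1,4,2,0,0,1,false,false⟩,⟨1,3,2,1,1,5,false,false⟩,⟨3,6,5,1,1,6,false,false⟩,⟨3,5,5,6,6,16,false,false⟩,⟨6,7,6,1,1,10,false,false⟩,⟨6,5,10,6,16,19,false,false⟩,⟨7,8,10,1,1,11,false,false⟩,⟨4,8,0,1,11,8,false,false⟩,⟨4,9,0,8,8,9,false,false⟩,⟨2,4,3,0,9,4,false,false⟩,⟨4,10,4,9,9,15,false,false⟩,⟨2,4,3,4,15,14,false,true⟩,⟨0,2,2,3,14,12,false,true⟩,⟨1,2,2,5,5,7,false,false⟩,⟨1,0,7,2,12,13,false,false⟩,⟨3,4,5,16,16,18,false,false⟩,⟨2,3,7,5,18,17,false,false⟩,⟨1,2,13,7,17,20,false,false⟩]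 (nat_lit 27) (nat_lit 89478485) (by decide +kernel)
end Pool.Agent.FCT.R
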