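import Pool.Agent.Lib.MP_fe5cb4_co.FC.RawDef
set_option linter.defProp false
namespace Pool.Agent.FCT.R
open Pool.Agent.Lib.MP_fe5cb4_co.FC
noncomputable def s284 : Raw := ⟨[(0,[6,5,3,1,2,4,10]),(1,[12,7,2,0,3,11,13]),(2,[16,14,4,0,1,7,15]),(3,[18,11,1,0,5,8,17]),(4,[19,10,0,2,14]),(5,[8,3,0,6,9]),(6,[20,9,5,0,10]),(7,[15,2,1,12,21]),(8,[23,17,3,5,9,22]),(9,[22,8,5,6,20])], [12,21,15,16,14,19,10,20,22,23,17,18,11,13], [(2,0),(0,10),(0,3),(3,8)]⟩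
def c284 : RawB s284 := raw1 s284 (nat_lit 12) [⟨0,1,5,5,5,8,false,false⟩,⟨0,2,5,8,8,3,false,false⟩,⟨1,3,5,8,8,9,false,false⟩,⟨1,4,5,9,9,6,false,false⟩,⟨0,1,3,5,6,0,false,false⟩,⟨4,5,6,9,9,20,false,false⟩,⟨3,5,8,9,20,22,false,false⟩,⟨4,6,6,20,20,10,false,false⟩,⟨1,4,0,6,10,10,false,false⟩,⟨0,4,3,0,0,1,false,false⟩,⟨1,7,0,10,10,4,false,false⟩,⟨4,1,1,0,4,2,false,false⟩,⟨7,8,10,4,4,19,false,false⟩,⟨1,8,2,4,19,14,false,false⟩,⟨1,9,2,14,14,16,false,false⟩,⟨1,10,2,16,16,15,false,false⟩,⟨4,1,1,2,15,7,false,false⟩,⟨1,11,7,15,15,21,false,false⟩,⟨4,1,1,7,21,12,false,true⟩,⟨0,1,1,3,3,11,false,false⟩,⟨0,4,11,1,12,13,false,true⟩,⟨3,4,8,22,22,23,false,false⟩,⟨2,3,3,8,23,17,false,false⟩,⟨1,2,11,3,17,18,false,false⟩] (nat_lit 15) (nat_lit 10922) (by decide +kernel)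
noncomputable def s285 : Raw := ⟨[(0,[10,1,2,3,4,5,6]),(1,[11,7,2,0,10,12]),(2,[15,13,3,0,1,7,14]),(3,[16,8,4,0,2,13,17]),(4,[9,5,0,3,8]),(5,[20,18,6,0,4,9,19]),(6,[21,10,0,5,18]),(7,[14,2,1,11,22]),(8,[23,9,4,3,16]),(9,[19,5,4,8,23])], [19,20,18,21,10,12,11,22,14,15,13,17,16,23], [(0,5),(5,19),(5,18),(8,23)]⟩
def c285 : RawB s285 := raw1 s285 (nat_lit 12) [⟨0,1,3,3,3,4,false,false⟩,⟨0,2,4,3,3,0,false,false⟩,⟨2,3,3,0,0,2,false,false⟩,⟨3,4,2,0,0,1,false,false⟩,⟨3,5,2,1,1,7,false,false⟩,⟨5,6,7,1,1,11,false,false⟩,⟨6,7,1,11,11,12,false,false⟩,⟨6,8,1,12,12,10,false,false⟩,⟨6,4,10,1,0,0,false,false⟩,⟨6,9,0,10,10,6,false,false⟩,⟨0,6,4,0,6,5,false,false⟩,⟨0,4,4,5,5,9,false,false⟩,⟨1,0,3,4,9,8,false,false⟩,⟨9,10,10,6,6,21,false,false⟩,⟨6,10,5,6,21,18,false,false⟩,⟨6,11,5,18,18,20,false,false⟩,⟨4,6,9,5,20,19,false,true⟩,⟨0,4,8,9,19,23,false,true⟩,⟨1,0,3,8,23,16,false,false⟩,⟨5,6,7,11,11,22,false,false⟩,⟨3,5,2,7,22,14,false,false⟩,⟨3,4,2,14,14,15,false,false⟩,⟨2,3,3,2,15,13,false,false⟩,⟨2,1,13,3,16,17,false,false⟩]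 (nat_lit 11) (nat_lit 682) (by decide +kernel)
noncomputable def s286 : Raw := ⟨[(0,[9,8,7,1,2,3,12]),(1,[13,5,4,2,0,7,14]),(2,[6,3,0,1,4]),(3,[12,0,2,6,15]),(4,[17,6,2,1,5,16]),(5,[16,4,1,13,18]),(6,[15,3,2,4,17]),(8,[19,7,0,9,10,11,20]),(9,[21,10,8,0,12]),(10,[22,11,8,9,21]),(11,[23,20,8,10,22])], [22,23,20,19,7,14,13,18,16,17,15,12,21], [(11,10),(10,21),(8,9),(9,12)]⟩
def c286 : RawB s286 := raw1 s286 (nat_lit 11) [⟨0,1,6,6,6,15,false,false⟩,⟨0,2,6,15,15,17,false,false⟩,⟨0,3,6,17,17,4,false,false⟩,⟨0,4,6,4,4,2,false,false⟩,⟨0,1,2,6,15,3,false,false⟩,⟨0,5,3,2,2,0,false,false⟩,⟨5,4,0,2,4,1,false,false⟩,⟨0,1,0,3,15,12,false,false⟩,⟨5,6,0,1,1,7,false,false⟩,⟨5,8,0,7,7,8,false,false⟩,⟨5,0,8,0,12,9,false,false⟩,⟨5,7,9,8,8,10,false,false⟩,⟨5,0,10,9,12,21,false,false⟩,⟨7,9,10,8,8,11,false,false⟩,⟨7,5,11,10,21,22,false,true⟩,⟨4,5,4,1,1,5,false,false⟩,⟨4,3,5,4,17,16,false,false⟩,⟨7,10,22,11,11,23,true,false⟩,⟨9,10,8,11,23,20,false,false⟩,⟨8,9,7,8,20,19,false,false⟩,⟨6,7,1,7,7,14,false,false⟩,⟨5,6,5,1,14,13,false,false⟩,⟨5,4,13,5,16,18,false,false⟩]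 (nat_lit 5) (nat_lit 21) (by decide +kernel)
noncomputable def s287 : Raw := ⟨[(0,[9,8,7,1,2,3,12]),(1,[13,5,4,2,0,7,14]),(2,[6,3,0,1,4]),(3,[12,0,2,6,15]),(4,[17,6,2,1,5,16]),(5,[16,4,1,13,18]),(6,[15,3,2,4,17]),(8,[19,7,0,9,10,11,20]),(9,[21,10,8,0,12]),(10,[22,11,8,9,21,23]),(11,[24,20,8,10,22])], [23,22,24,20,19,7,14,13,18,16,17,15,12,21], [(10,21),(10,22),(10,8),(9,0)]⟩
def c287 : RawB s287 := raw1 s287 (nat_lit 12) [⟨0,1,4,4,4,6,false,false⟩,⟨0,2,4,6,6,17,false,false⟩,⟨0,3,4,17,17,16,false,false⟩,⟨0,4,4,16,16,5,false,false⟩,⟨0,5,4,5,5,1,false,false⟩,⟨0,1,1,4,6,2,false,false⟩,⟨0,6,2,1,1,0,false,false⟩,⟨0,1,0,2,6,3,false,false⟩,⟨1,2,3,6,17,15,false,false⟩,⟨0,1,0,3,15,12,false,false⟩,⟨0,7,12,0,0,9,false,false⟩,⟨7,8,9,0,0,8,false,false⟩,⟨6,8,1,0,8,7,false,false⟩,⟨7,9,9,8,8,10,false,false⟩,⟨7,0,10,9,12,21,false,false⟩,⟨7,10,10,21,21,23,false,true⟩,⟨7,10,23,10,10,22,true,false⟩,⟨9,10,8,10,22,11,false,false⟩,⟨10,11,11,22,22,24,false,false⟩,⟨9,10,8,11,24,20,false,false⟩,⟨8,9,7,8,20,19,false,false⟩,⟨6,7,1,7,7,14,false,false⟩,⟨5,6,5,1,14,13,false,false⟩,⟨5,4,13,5,16,18,false,false⟩]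 (nat_lit 8) (nat_lit 85) (by decide +kernel)
noncomputable def s288 : Raw := ⟨[(0,[7,5,3,1,2,4,6]),(1,[12,8,2,0,3,11,13]),(2,[16,14,4,0,1,8,15]),(3,[18,11,1,0,5,17]),(4,[19,9,6,0,2,14,20]),(5,[17,3,0,7,21]),(6,[10,7,0,4,9]),(7,[21,5,0,6,10,22]),(8,[15,2,1,12,23]),(9,[24,10,6,4,19]),(10,[22,7,6,9,24])], [15,16,14,20,19,24,22,21,17,18,11,13,12,23], [(4,6),(6,7)]⟩
def c288 : RawB s288 := raw1 s288 (nat_lit 12) [⟨0,1,0,0,0,2,false,false⟩,⟨0,2,2,0,0,1,false,false⟩,⟨2,3,1,0,0,3,false,false⟩,⟨0,4,1,2,2,8,false,false⟩,⟨3,5,3,0,0,5,false,false⟩,⟨5,6,5,0,0,7,false,false⟩,⟨6,7,7,0,0,6,false,false⟩,⟨1,7,2,0,6,4,false,false⟩,⟨7,8,6,4,4,9,false,false⟩,⟨6,7,7,6,9,10,false,false⟩,⟨8,9,9,4,4,19,false,false⟩,⟨7,8,10,9,19,24,false,false⟩,⟨6,7,7,10,24,22,false,false⟩,⟨5,6,5,7,22,21,false,false⟩,⟨3,5,3,5,21,17,false,false⟩,⟨9,10,19,4,4,20,false,false⟩,⟨1,10,2,4,20,14,false,false⟩,⟨1,11,2,14,14,16,false,false⟩,⟨4,1,8,2,16,15,false,true⟩,⟨0,1,8,1,1,12,false,false⟩,⟨0,4,12,8,15,23,false,true⟩,⟨3,4,3,17,17,18,false,false⟩,⟨2,3,1,3,18,11,false,false⟩,⟨2,1,11,1,12,13,false,false⟩]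 (nat_lit 7) (nat_lit 85) (by decide +kernel)
noncomputable def s289 : Raw := ⟨[(0,[8,1,2,3,4,5,6,9]),(1,[10,2,0,8,11]),(2,[12,7,3,0,1,10,13]),(3,[14,4,0,2,7]),(4,[15,5,0,3,14,16]),(5,[17,6,0,4,15,18]),(6,[19,9,0,5,17]),(7,[14,3,2,12,20])], [14,16,15,18,17,19,9,8,11,10,13,12,20], [(0,4),(4,14),(4,15),(2,3)]⟩
def c289 : RawB s289 := raw1 s289 (nat_lit 11) [⟨0,1,0,0,0,3,false,false⟩,⟨0,2,3,0,0,2,false,false⟩,⟨2,3,2,0,0,1,false,false⟩,⟨1,4,0,3,3,4,false,false⟩,⟨3,5,1,0,0,8,false,false⟩,⟨5,6,8,0,0,9,false,false⟩,⟨6,7,9,0,0,6,false,false⟩,⟨1,7,4,0,6,5,false,false⟩,⟨7,8,6,5,5,17,false,false⟩,⟨6,7,9,6,17,19,false,false⟩,⟨8,9,17,5,5,18,false,false⟩,⟨1,9,4,5,18,15,false,false⟩,⟨1,10,4,15,15,16,false,false⟩,⟨4,1,3,4,16,14,false,true⟩,⟨0,4,2,3,14,7,false,false⟩,⟨0,1,7,2,2,12,false,false⟩,⟨0,4,12,7,14,20,false,true⟩,⟨3,4,1,8,8,11,false,false⟩,⟨2,3,2,1,11,10,false,false⟩,⟨2,1,10,2,12,13,false,false⟩]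 (nat_lit 17) (nat_lit 43690) (by decide +kernel)
noncomputable def s290 : Raw := ⟨[(0,[7,6,5,4,1,2,10]),(1,[11,3,2,0,4]),(2,[13,10,0,1,3,12]),(3,[12,2,1,11,14]),(5,[15,4,0,6,8,9,16]),(6,[18,8,5,0,7,17]),(7,[17,6,0,10,19]),(8,[20,9,5,6,18]),(9,[21,16,5,8,20])], [14,12,13,10,19,17,18,20,21,16,15,4,11], [(5,16),(5,4),(8,18),(9,21)]⟩
def c290 : RawB s290 := raw1 s290 (nat_lit 11) [⟨0,1,4,4,4,5,false,false⟩,⟨0,2,4,5,5,0,false,false⟩,⟨0,5,4,0,0,1,false,false⟩,⟨0,4,4,1,1,11,false,false⟩,⟨2,7,5,0,0,6,false,false⟩,⟨2,3,5,6,6,8,false,false⟩,⟨3,6,8,6,6,18,false,false⟩,⟨5,8,1,0,0,2,false,false⟩,⟨5,4,2,1,11,3,false,false⟩,⟨5,9,3,2,2,12,false,false⟩,⟨4,5,11,3,12,14,true,true⟩,⟨3,5,8,18,18,20,false,false⟩,⟨2,3,5,8,20,9,false,false⟩,⟨3,4,9,20,20,21,false,false⟩,⟨9,10,2,12,12,13,false,false⟩,⟨8,9,0,2,13,10,false,false⟩,⟨7,8,6,0,10,7,false,false⟩,⟨7,6,7,6,18,17,false,false⟩,⟨8,7,10,7,17,19,false,false⟩,⟨2,3,5,9,21,16,false,false⟩,⟨1,2,4,5,16,15,false,false⟩]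 (nat_lit 13) (nat_lit 5461) (by decide +kernel)
noncomputable def s291 : Raw := ⟨[(0,[11,9,1,2,3,4,10]),(1,[8,7,6,5,2,0,9]),(2,[12,3,0,1,5,13]),(3,[14,4,0,2,12]),(4,[15,10,0,3,14]),(5,[13,2,1,6,16]),(6,[18,16,5,1,7,17]),(7,[20,17,6,1,8,19]),(8,[19,7,1,9,21])], [14,15,10,11,9,21,19,20,17,18,16,13,12], [(4,14),(4,10),(3,12),(3,0)]⟩
def c291 : RawB s291 := raw1 s291 (nat_lit 11) [⟨0,1,2,2,2,5,false,false⟩,⟨0,2,2,5,5,1,false,false⟩,⟨2,3,5,1,1,6,false,false⟩,⟨3,4,6,1,1,7,false,false⟩,⟨4,5,7,1,1,8,false,false⟩,⟨5,6,1,8,8,9,false,false⟩,⟨5,7,1,9,9,0,false,false⟩,⟨0,5,2,1,0,0,false,false⟩,⟨0,5,2,0,0,3,false,false⟩,⟨7,8,0,9,9,11,false,false⟩,⟨7,9,0,11,11,10,false,false⟩,⟨5,7,3,0,10,4,false,false⟩,⟨7,10,4,10,10,15,false,false⟩,⟨5,7,3,4,15,14,false,true⟩,⟨0,5,2,3,14,12,false,true⟩,⟨1,0,5,2,12,13,false,false⟩,⟨2,1,6,5,13,16,false,false⟩,⟨6,7,8,9,9,21,false,false⟩,⟨4,6,7,8,21,19,false,false⟩,⟨4,5,7,19,19,20,false,false⟩,⟨3,4,6,7,20,17,false,false⟩,⟨2,3,16,6,17,18,false,false⟩]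 (nat_lit 10) (nat_lit 341) (by decide +kernel)
noncomputable def s292 : Raw := ⟨[(0,[11,5,1,2,3,4,10]),(1,[12,2,0,5,6,7,8,9]),(2,[13,3,0,1,12]),(3,[14,4,0,2,13]),(4,[15,10,0,3,14]),(6,[17,7,1,5,16]),(7,[18,8,1,6,17]),(8,[19,9,1,7,18]),(9,[20,12,1,8,19])], [14,15,10,11,5,16,17,18,19,20,12,13], [(4,14),(4,10),(2,13),(2,1)]⟩
def c292 : RawB s292 := raw1 s292 (nat_lit 10) [⟨0,1,2,2,2,12,false,false⟩,⟨0,2,12,2,2,13,false,false⟩,⟨2,3,2,13,13,3,false,false⟩,⟨2,4,2,3,3,0,false,false⟩,⟨2,1,0,2,12,1,false,false⟩,⟨3,5,13,3,3,14,true,false⟩,⟨2,7,1,0,0,5,false,false⟩,⟨2,3,1,5,5,6,false,false⟩,⟨3,6,6,5,5,16,false,false⟩,⟨4,8,3,0,0,4,false,false⟩,⟨4,5,4,3,14,14,false,false⟩,⟨4,9,14,4,4,15,true,false⟩,⟨8,9,0,4,15,10,false,false⟩,⟨7,8,5,0,10,11,false,false⟩,⟨3,5,6,16,16,17,false,false⟩,⟨2,3,1,6,17,7,false,false⟩,⟨3,4,7,17,17,18,false,false⟩,⟨2,3,1,7,18,8,false,false⟩,⟨2,1,8,1,12,9,false,false⟩,⟨2,3,9,8,18,19,false,false⟩,⟨1,2,12,9,19,20,false,false⟩]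 (nat_lit 7) (nat_lit 85) (by decide +kernel)
noncomputable def s293 : Raw := ⟨[(0,[11,5,1,2,3,4,10]),(1,[12,2,0,5,6,7,8,9]),(2,[13,3,0,1,12]),(3,[14,4,0,2,13]),(4,[15,10,0,3,14]),(6,[17,7,1,5,16]),(7,[18,8,1,6,17]),(8,[19,9,1,7,18,20]),(9,[21,12,1,8,19])], [14,15,10,11,5,16,17,18,20,19,21,12,13], [(1,8),(8,18),(8,19),(9,12)]⟩
def c293 : RawB s293 := raw1 s293 (nat_lit 11) [⟨0,1,1,1,1,2,false,false⟩,⟨0,2,2,1,1,0,false,false⟩,⟨0,4,2,0,0,3,false,false⟩,⟨2,5,1,0,0,5,false,false⟩,⟨2,6,1,5,5,6,false,false⟩,⟨2,3,1,6,6,7,false,false⟩,⟨6,7,6,5,5,16,false,false⟩,⟨3,6,7,6,16,17,false,false⟩,⟨5,8,0,5,5,11,false,false⟩,⟨5,9,0,11,11,10,false,false⟩,⟨4,5,3,0,10,4,false,false⟩,⟨5,10,4,10,10,15,false,false⟩,⟨4,5,3,4,15,14,false,true⟩,⟨0,4,2,3,14,13,false,true⟩,⟨1,0,1,2,13,12,false,false⟩,⟨3,5,7,17,17,18,false,false⟩,⟨2,3,1,7,18,8,false,false⟩,⟨2,1,8,1,12,9,false,false⟩,⟨3,4,8,18,18,20,false,false⟩,⟨2,3,9,8,20,19,false,false⟩,⟨1,2,12,9,19,21,false,false⟩]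 (nat_lit 12) (nat_lit 2730) (by decide +kernel)
noncomputable def s294 : Raw := ⟨[(0,[9,8,7,6,5,1,2,10]),(1,[11,4,3,2,0,5,12]),(2,[10,0,1,3,13]),(3,[15,13,2,1,4,14]),(4,[14,3,1,11,16]),(6,[17,5,0,7,18]),(7,[18,6,0,8,19]),(8,[19,7,0,9,20]),(9,[20,8,0,10,21])], [10,21,20,19,18,17,5,12,11,16,14,15,13], [(7,18),(7,0),(8,19),(8,9)]⟩
def c294 : RawB s294 := raw1 s294 (nat_lit 11) [⟨0,1,8,8,8,9,false,false⟩,⟨0,3,8,9,9,0,false,false⟩,⟨0,4,0,8,8,7,false,false⟩,⟨0,5,0,7,7,6,false,false⟩,⟨0,6,0,6,6,5,false,false⟩,⟨0,2,0,5,5,1,false,false⟩,⟨6,7,5,6,6,17,false,false⟩,⟨5,7,7,6,17,18,false,false⟩,⟨5,8,7,18,18,19,false,false⟩,⟨4,5,8,7,19,19,false,false⟩,⟨4,9,8,19,19,20,false,false⟩,⟨1,4,9,8,20,20,false,false⟩,⟨1,10,9,20,20,21,false,false⟩,⟨3,1,0,9,21,10,false,true⟩,⟨0,3,1,0,10,2,false,false⟩,⟨0,1,2,1,1,3,false,false⟩,⟨0,3,3,2,10,13,false,true⟩,⟨2,5,1,5,5,12,false,false⟩,⟨2,4,1,12,12,11,false,false⟩,⟨1,2,3,1,11,4,false,false⟩,⟨2,3,4,11,11,16,false,false⟩,⟨1,2,3,4,16,14,false,false⟩,⟨0,1,13,3,14,15,false,false⟩]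 (nat_lit 10) (nat_lit 341) (by decide +kernel)
end Pool.Agent.FCT.R
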