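import Pool.Agent.Lib.MP_fe5cb4_co.FC.RawDef
set_option linter.defProp false
namespace Pool.Agent.FCT.R
open Pool.Agent.Lib.MP_fe5cb4_co.FC
noncomputable def s55 : Raw := ⟨[(0,[8,1,2,3,4,5,9]),(1,[10,2,0,8,11]),(2,[12,7,6,3,0,1,10,13]),(3,[14,4,0,2,6,15]),(4,[16,5,0,3,14]),(5,[17,9,0,4,16]),(6,[19,15,3,2,7,18]),(7,[18,6,2,12,20])], [17,9,8,11,10,13,12,20,18,19,15,14,16], [(3,15),(1,8),(1,10),(3,2)]⟩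
def c55 : RawB s55 := raw1 s55 (nat_lit 11) [⟨0,1,3,3,3,4,false,false⟩,⟨0,2,4,3,3,0,false,false⟩,⟨0,3,4,0,0,5,false,false⟩,⟨0,4,4,5,5,16,false,false⟩,⟨1,0,3,4,16,14,false,false⟩,⟨4,5,16,5,5,17,true,false⟩,⟨2,4,3,0,0,2,false,false⟩,⟨5,8,17,5,5,9,true,false⟩,⟨8,3,9,5,0,0,false,false⟩,⟨8,10,0,9,9,8,false,false⟩,⟨4,8,2,0,8,1,false,false⟩,⟨8,9,1,8,8,11,false,false⟩,⟨4,8,2,1,11,10,false,false⟩,⟨2,3,3,2,2,6,false,false⟩,⟨2,1,6,3,14,15,false,false⟩,⟨4,7,2,10,10,13,false,false⟩,⟨4,6,2,13,13,12,false,false⟩,⟨3,4,6,2,12,7,false,false⟩,⟨4,5,7,12,12,20,false,false⟩,⟨3,4,6,7,20,18,false,false⟩,⟨2,3,15,6,18,19,false,false⟩] (nat_lit 23) (nat_lit 5592405) (by decide +kernel)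
noncomputable def s56 : Raw := ⟨[(0,[10,8,1,2,3,4,9]),(1,[11,7,6,5,2,0,8,12]),(2,[13,3,0,1,5,14]),(3,[15,4,0,2,13]),(4,[16,9,0,3,15]),(5,[14,2,1,6,17]),(6,[19,17,5,1,7,18]),(7,[18,6,1,11,20])], [15,16,9,10,8,12,11,20,18,19,17,14,13], [(7,20),(1,6),(6,18),(6,17)]⟩
def c56 : RawB s56 := raw1 s56 (nat_lit 11) [⟨0,1,5,5,5,17,false,false⟩,⟨0,2,5,17,17,6,false,false⟩,⟨0,3,5,6,6,1,false,false⟩,⟨0,4,5,1,1,2,false,false⟩,⟨0,1,2,5,17,14,false,false⟩,⟨0,5,14,2,2,13,false,false⟩,⟨5,6,2,13,13,3,false,false⟩,⟨4,5,1,2,3,0,false,false⟩,⟨4,8,1,0,0,8,false,false⟩,⟨4,7,1,8,8,12,false,false⟩,⟨5,9,3,0,0,4,false,false⟩,⟨5,6,4,3,13,15,false,true⟩,⟨5,10,15,4,4,16,true,false⟩,⟨9,10,0,4,16,9,false,false⟩,⟨8,9,8,0,9,10,false,false⟩,⟨4,6,1,12,12,11,false,false⟩,⟨3,4,6,1,11,7,false,false⟩,⟨4,5,7,11,11,20,false,false⟩,⟨3,4,6,7,20,18,false,false⟩,⟨2,3,17,6,18,19,false,false⟩]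 (nat_lit 19) (nat_lit 349525) (by decide +kernel)
noncomputable def s57 : Raw := ⟨[(0,[8,1,2,3,9]),(1,[10,2,0,8,11]),(2,[12,5,4,3,0,1,10,13]),(3,[9,0,2,4,6,7,14]),(4,[16,6,3,2,5,15]),(5,[15,4,2,12,17]),(6,[18,7,3,4,16]),(7,[19,14,3,6,18])], [18,19,14,9,8,11,10,13,12,17,15,16], [(3,9),(3,4),(7,18),(7,14)]⟩
def c57 : RawB s57 := raw1 s57 (nat_lit 10) [⟨0,1,2,2,2,4,false,false⟩,⟨0,2,4,2,2,3,false,false⟩,⟨2,3,3,2,2,0,false,false⟩,⟨3,4,2,0,0,1,false,false⟩,⟨4,5,0,1,1,8,false,false⟩,⟨5,6,1,8,8,11,false,false⟩,⟨3,5,2,1,11,10,false,false⟩,⟨4,7,0,8,8,9,false,false⟩,⟨4,2,9,0,3,3,false,false⟩,⟨0,2,4,3,3,6,false,false⟩,⟨4,8,3,9,9,14,false,false⟩,⟨2,4,6,3,14,7,false,false⟩,⟨4,9,7,14,14,19,false,false⟩,⟨2,4,6,7,19,18,false,true⟩,⟨0,2,4,6,18,16,false,true⟩,⟨1,2,4,2,2,5,false,false⟩,⟨1,0,5,4,16,15,false,false⟩,⟨3,4,2,10,10,13,false,false⟩,⟨2,3,5,2,13,12,false,false⟩,⟨2,1,12,5,15,17,false,false⟩]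 (nat_lit 11) (nat_lit 682) (by decide +kernel)
noncomputable def s58 : Raw := ⟨[(0,[8,1,2,3,4,5,6,9]),(1,[10,2,0,8,11]),(2,[12,7,3,0,1,10]),(3,[15,13,4,0,2,7,14]),(4,[16,5,0,3,13]),(5,[17,6,0,4,16,18]),(6,[19,9,0,5,17]),(7,[14,3,2,12,20])], [10,12,20,14,15,13,16,18,17,19,9,8,11], [(6,17),(6,0),(0,4),(4,16)]⟩
def c58 : RawB s58 := raw1 s58 (nat_lit 11) [⟨0,1,3,3,3,4,false,false⟩,⟨0,2,3,4,4,0,false,false⟩,⟨2,3,0,4,4,5,false,false⟩,⟨0,4,0,3,3,2,false,false⟩,⟨3,6,5,4,4,16,false,false⟩,⟨3,5,5,16,16,18,false,false⟩,⟨1,7,4,3,3,13,false,false⟩,⟨6,1,16,4,13,13,false,false⟩,⟨0,1,2,0,0,1,false,false⟩,⟨4,8,2,3,3,7,false,false⟩,⟨4,9,2,7,7,12,false,false⟩,⟨0,4,1,2,12,10,false,true⟩,⟨3,4,5,18,18,17,false,false⟩,⟨0,10,1,10,10,11,false,true⟩,⟨9,10,7,12,12,20,false,false⟩,⟨8,9,3,7,20,14,false,false⟩,⟨7,8,13,3,14,15,false,false⟩,⟨2,3,0,5,17,6,false,false⟩,⟨1,0,0,1,11,8,false,false⟩,⟨2,1,6,0,8,9,false,false⟩,⟨2,3,9,6,17,19,false,false⟩]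 (nat_lit 20) (nat_lit 699050) (by decide +kernel)
noncomputable def s59 : Raw := ⟨[(0,[8,1,2,3,4]),(1,[9,6,5,2,0,8,10]),(2,[13,11,3,0,1,5,7,12]),(3,[14,4,0,2,11,15]),(4,[16,8,0,3,14]),(5,[18,7,2,1,6,17]),(6,[17,5,1,9,19]),(7,[20,12,2,5,18])], [13,11,15,14,16,8,10,9,19,17,18,20,12], [(4,8),(3,11),(3,14)]⟩
def c59 : RawB s59 := raw1 s59 (nat_lit 11) [⟨0,1,2,2,2,5,false,false⟩,⟨0,2,2,5,5,1,false,false⟩,⟨2,3,5,1,1,6,false,false⟩,⟨3,4,6,1,1,9,false,false⟩,⟨4,5,1,9,9,10,false,false⟩,⟨4,6,1,10,10,8,false,false⟩,⟨0,4,2,1,8,0,false,false⟩,⟨4,7,0,8,8,4,false,false⟩,⟨4,8,0,4,4,3,false,false⟩,⟨0,4,2,0,3,3,false,false⟩,⟨3,4,6,9,9,19,false,false⟩,⟨0,9,2,3,3,11,false,false⟩,⟨0,10,2,11,11,13,false,true⟩,⟨0,10,2,13,13,12,false,true⟩,⟨9,10,3,11,11,15,false,false⟩,⟨8,9,4,3,15,14,false,false⟩,⟨7,8,8,4,14,16,false,false⟩,⟨2,3,5,6,19,17,false,false⟩,⟨1,0,5,2,12,7,false,false⟩,⟨1,2,7,5,17,18,false,false⟩,⟨0,1,12,7,18,20,false,false⟩]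 (nat_lit 20) (nat_lit 349525) (by decide +kernel)
noncomputable def s60 : Raw := ⟨[(0,[10,8,1,2,3,9]),(1,[11,2,0,8,12]),(2,[13,4,3,0,1,11,14]),(3,[9,0,2,4,5,6,7,15]),(4,[16,5,3,2,13]),(5,[17,6,3,4,16]),(6,[18,7,3,5,17,19]),(7,[20,15,3,6,18])], [17,19,18,20,15,9,10,8,12,11,14,13,16], [(3,6),(6,17),(6,18),(7,15)]⟩
def c60 : RawB s60 := raw1 s60 (nat_lit 11) [⟨0,1,2,2,2,4,false,false⟩,⟨0,2,4,2,2,3,false,false⟩,⟨2,3,2,3,3,0,false,false⟩,⟨0,4,4,3,3,5,false,false⟩,⟨0,5,4,5,5,16,false,false⟩,⟨3,7,0,3,3,9,false,false⟩,⟨3,6,0,9,9,10,false,false⟩,⟨4,8,5,3,3,6,false,false⟩,⟨4,5,6,5,16,17,false,true⟩,⟨3,5,0,10,10,8,false,false⟩,⟨2,3,2,0,8,1,false,false⟩,⟨4,9,17,6,6,19,true,false⟩,⟨3,4,1,8,8,12,false,false⟩,⟨9,10,6,19,19,18,false,false⟩,⟨8,9,3,6,18,7,false,false⟩,⟨8,7,7,3,9,15,false,false⟩,⟨8,9,15,7,18,20,false,false⟩,⟨2,3,2,1,12,11,false,false⟩,⟨1,0,2,4,16,13,false,false⟩,⟨2,1,11,2,13,14,false,false⟩]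 (nat_lit 16) (nat_lit 21845) (by decide +kernel)
noncomputable def s61 : Raw := ⟨[(0,[10,8,1,2,3,4,5,9]),(1,[11,6,2,0,8,12]),(2,[7,3,0,1,6,13]),(3,[16,14,4,0,2,7,15]),(4,[17,5,0,3,14]),(5,[18,9,0,4,17]),(6,[13,2,1,11,19]),(7,[15,3,2,13,20])], [10,8,12,11,19,13,20,15,16,14,17,18,9], [(1,8),(1,11),(2,13),(3,2)]⟩
def c61 : RawB s61 := raw1 s61 (nat_lit 11) [⟨0,1,2,2,2,3,false,false⟩,⟨0,2,2,3,3,7,false,false⟩,⟨2,3,3,7,7,15,false,false⟩,⟨2,4,3,15,15,16,false,false⟩,⟨3,5,7,15,15,20,false,false⟩,⟨3,6,7,20,20,13,false,false⟩,⟨0,3,2,7,13,13,false,false⟩,⟨2,3,3,16,16,14,false,false⟩,⟨0,7,2,13,13,6,false,false⟩,⟨0,8,2,6,6,1,false,false⟩,⟨0,1,1,2,3,0,false,false⟩,⟨0,9,0,1,1,8,false,false⟩,⟨0,10,0,8,8,10,false,true⟩,⟨0,10,0,10,10,9,false,true⟩,⟨9,10,1,8,8,12,false,false⟩,⟨8,9,6,1,12,11,false,false⟩,⟨8,7,11,6,13,19,false,false⟩,⟨1,2,0,3,14,4,false,false⟩,⟨1,0,4,0,9,5,false,false⟩,⟨1,2,5,4,14,17,false,false⟩,⟨0,1,9,5,17,18,false,false⟩]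 (nat_lit 31) (nat_lit 1431655765) (by decide +kernel)
noncomputable def s62 : Raw := ⟨[(0,[7,1,2,3,8]),(1,[9,2,0,7,10]),(2,[11,4,3,0,1,9,12]),(3,[8,0,2,4,5,6,13]),(4,[14,5,3,2,11,15]),(5,[16,6,3,4,14]),(6,[17,13,3,5,16])], [11,15,14,16,17,13,8,7,10,9,12], [(4,11),(4,14),(3,4)]⟩
def c62 : RawB s62 := raw1 s62 (nat_lit 9) [⟨0,1,3,3,3,13,false,false⟩,⟨0,2,3,13,13,6,false,false⟩,⟨0,3,3,6,6,5,false,false⟩,⟨1,4,3,13,13,8,false,false⟩,⟨2,5,6,13,13,17,false,false⟩,⟨2,6,6,17,17,16,false,false⟩,⟨3,2,5,6,16,16,false,false⟩,⟨1,2,3,8,8,0,false,false⟩,⟨3,7,5,16,16,14,false,false⟩,⟨0,3,3,5,14,4,false,false⟩,⟨1,0,0,3,4,2,false,false⟩,⟨3,8,4,14,14,15,false,false⟩,⟨0,3,2,4,15,11,false,true⟩,⟨0,3,2,11,11,12,false,true⟩,⟨2,3,0,8,8,7,false,false⟩,⟨1,2,2,0,7,1,false,false⟩,⟨1,0,1,2,12,9,false,false⟩,⟨2,1,7,1,9,10,false,false⟩]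 (nat_lit 9) (nat_lit 170) (by decide +kernel)
end Pool.Agent.FCT.R
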