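import Pool.Agent.Lib.MP_fe5cb4_co.FC.RawDef
set_option linter.defProp false
namespace Pool.Agent.FCT.R
open Pool.Agent.Lib.MP_fe5cb4_co.FC
noncomputable def s341 : Raw := ⟨[(0,[10,8,1,2,3,4,5,9]),(1,[11,6,2,0,8]),(2,[12,3,0,1,6,7,13]),(3,[14,4,0,2,12]),(4,[15,5,0,3,14,16]),(5,[17,9,0,4,15]),(6,[18,7,2,1,11,19]),(7,[20,13,2,6,18])], [15,17,9,10,8,11,19,18,20,13,12,14,16], [(0,3),(3,12),(1,8),(1,2)]⟩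
def c341 : RawB s341 := raw1 s341 (nat_lit 11) [⟨0,1,3,3,3,12,false,false⟩,⟨0,2,3,12,12,2,false,false⟩,⟨0,3,3,2,2,0,false,false⟩,⟨0,4,3,0,0,4,false,false⟩,⟨0,1,4,3,12,14,false,false⟩,⟨3,5,2,0,0,1,false,false⟩,⟨5,6,1,0,0,8,false,false⟩,⟨5,7,1,8,8,11,false,false⟩,⟨3,5,2,1,11,6,false,false⟩,⟨6,8,0,8,8,10,false,false⟩,⟨6,9,0,10,10,9,false,false⟩,⟨4,6,4,0,9,5,false,false⟩,⟨6,10,5,9,9,17,false,false⟩,⟨4,6,4,5,17,15,false,true⟩,⟨0,4,14,4,15,16,false,true⟩,⟨3,4,2,6,6,7,false,false⟩,⟨3,2,7,2,12,13,false,false⟩,⟨5,6,6,11,11,19,false,false⟩,⟨4,5,7,6,19,18,false,false⟩,⟨3,4,13,7,18,20,false,false⟩] (nat_lit 26) (nat_lit 44739242) (by decide +kernel)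
noncomputable def s342 : Raw := ⟨[(0,[11,9,1,2,3,4,5,10]),(1,[12,7,6,2,0,9,13]),(2,[8,3,0,1,6]),(3,[14,4,0,2,8]),(4,[15,5,0,3,14,16]),(5,[17,10,0,4,15]),(6,[19,8,2,1,7,18]),(7,[18,6,1,12,20]),(8,[14,3,2,6,19])], [15,17,10,11,9,13,12,20,18,19,14,16], [(4,14),(4,15),(4,0),(1,6)]⟩
def c342 : RawB s342 := raw1 s342 (nat_lit 10) [⟨0,1,3,3,3,8,false,false⟩,⟨0,2,3,8,8,2,false,false⟩,⟨0,3,3,2,2,0,false,false⟩,⟨0,4,3,0,0,4,false,false⟩,⟨0,1,4,3,8,14,false,false⟩,⟨3,5,2,0,0,1,false,false⟩,⟨3,2,1,2,8,6,false,false⟩,⟨2,1,6,8,14,19,false,false⟩,⟨0,6,14,4,4,16,false,false⟩,⟨4,7,4,0,0,5,false,false⟩,⟨4,6,5,4,16,15,false,true⟩,⟨4,9,15,5,5,17,true,false⟩,⟨7,9,0,5,17,10,false,false⟩,⟨7,8,0,10,10,11,false,false⟩,⟨5,7,1,0,11,9,false,false⟩,⟨3,4,6,1,1,7,false,false⟩,⟨3,2,7,6,19,18,false,false⟩,⟨5,6,1,9,9,13,false,false⟩,⟨4,5,7,1,13,12,false,false⟩,⟨4,3,12,7,18,20,false,false⟩]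 (nat_lit 7) (nat_lit 42) (by decide +kernel)
noncomputable def s343 : Raw := ⟨[(0,[8,1,2,3,4]),(1,[9,6,5,2,0,8,10]),(2,[13,11,3,0,1,5,7,12]),(3,[14,4,0,2,11]),(4,[15,8,0,3,14]),(5,[17,7,2,1,6,16]),(6,[16,5,1,9,18]),(7,[19,12,2,5,17])], [12,13,11,14,15,8,10,9,18,16,17,19], [(4,8),(3,11),(3,0),(0,1)]⟩
def c343 : RawB s343 := raw1 s343 (nat_lit 10) [⟨0,1,5,5,5,7,false,false⟩,⟨0,2,7,5,5,2,false,false⟩,⟨2,3,5,2,2,1,false,false⟩,⟨3,4,2,1,1,0,false,false⟩,⟨4,5,1,0,0,8,false,false⟩,⟨5,6,0,8,8,4,false,false⟩,⟨3,5,2,0,4,3,false,false⟩,⟨6,7,8,4,4,15,false,false⟩,⟨5,7,3,4,15,14,false,false⟩,⟨5,8,3,14,14,11,false,false⟩,⟨3,5,2,3,11,11,false,false⟩,⟨3,9,2,11,11,13,false,false⟩,⟨0,3,7,2,13,12,false,true⟩,⟨0,3,7,12,12,19,false,true⟩,⟨1,0,5,7,19,17,false,false⟩,⟨2,3,5,1,1,6,false,false⟩,⟨2,1,6,5,17,16,false,false⟩,⟨4,5,1,8,8,10,false,false⟩,⟨3,4,6,1,10,9,false,false⟩,⟨3,2,9,6,16,18,false,false⟩]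 (nat_lit 15) (nat_lit 21845) (by decide +kernel)
noncomputable def s344 : Raw := ⟨[(0,[11,9,1,2,3,4,5,10]),(1,[12,6,2,0,9,13]),(2,[14,3,0,1,6]),(3,[15,7,4,0,2,14,16]),(4,[8,5,0,3,7]),(5,[10,0,4,8,17]),(6,[14,2,1,12,18]),(7,[19,8,4,3,15,20]),(8,[17,5,4,7,19])], [14,16,15,20,19,17,10,11,9,13,12,18], [(6,18),(0,10),(0,9),(0,3)]⟩
def c344 : RawB s344 := raw1 s344 (nat_lit 10) [⟨0,1,3,3,3,4,false,false⟩,⟨0,2,3,4,4,0,false,false⟩,⟨2,3,4,0,0,5,false,false⟩,⟨0,4,0,3,3,2,false,false⟩,⟨2,5,4,5,5,8,false,false⟩,⟨1,2,3,4,8,7,false,false⟩,⟨5,6,5,8,8,17,false,false⟩,⟨3,5,0,5,17,10,false,false⟩,⟨2,6,7,8,17,19,false,false⟩,⟨2,7,7,19,19,20,false,false⟩,⟨2,8,7,20,20,15,false,false⟩,⟨1,2,3,7,15,15,false,false⟩,⟨0,2,2,0,0,1,false,false⟩,⟨1,9,3,15,15,16,false,false⟩,⟨4,1,2,3,16,14,false,true⟩,⟨0,4,1,2,14,6,false,false⟩,⟨0,1,6,1,1,12,false,false⟩,⟨0,4,12,6,14,18,false,true⟩,⟨3,4,0,10,10,11,false,false⟩,⟨2,3,1,0,11,9,false,false⟩,⟨2,1,9,1,12,13,false,false⟩]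 (nat_lit 8) (nat_lit 85) (by decide +kernel)
noncomputable def s345 : Raw := ⟨[(0,[8,1,2,3,4,9]),(1,[10,2,0,8,11]),(2,[12,6,5,3,0,1,10,13]),(3,[7,4,0,2,5]),(4,[9,0,3,7,14]),(5,[16,7,3,2,6,15,17]),(6,[15,5,2,12,18]),(7,[19,14,4,3,5,16])], [10,13,12,18,15,17,16,19,14,9,8,11], [(2,10),(2,12),(0,2),(2,5)]⟩
def c345 : RawB s345 := raw1 s345 (nat_lit 10) [⟨0,1,0,0,0,9,false,false⟩,⟨0,2,0,9,9,4,false,false⟩,⟨0,3,0,4,4,3,false,false⟩,⟨0,4,0,3,3,2,false,false⟩,⟨0,5,0,2,2,1,false,false⟩,⟨0,1,1,0,9,8,false,false⟩,⟨5,6,1,2,2,10,false,false⟩,⟨0,5,8,1,10,11,false,true⟩,⟨4,5,3,2,2,5,false,false⟩,⟨3,4,4,3,5,7,false,false⟩,⟨3,2,7,4,9,14,false,false⟩,⟨6,7,10,2,2,13,true,false⟩,⟨7,9,2,13,13,12,false,false⟩,⟨5,7,5,2,12,6,false,false⟩,⟨7,8,6,12,12,18,false,false⟩,⟨5,7,5,6,18,15,false,false⟩,⟨5,6,5,15,15,17,false,false⟩,⟨4,5,7,5,17,16,false,false⟩,⟨3,4,14,7,16,19,false,false⟩]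 (nat_lit 9) (nat_lit 170) (by decide +kernel)
noncomputable def s346 : Raw := ⟨[(0,[10,8,1,2,3,4,5,9]),(1,[11,6,2,0,8]),(2,[12,3,0,1,6,7,13]),(3,[14,4,0,2,12]),(4,[15,5,0,3,14]),(5,[16,9,0,4,15]),(6,[17,7,2,1,11,18]),(7,[19,13,2,6,17])], [15,16,9,10,8,11,18,17,19,13,12,14], [(0,9),(0,8),(0,2),(1,6)]⟩
def c346 : RawB s346 := raw1 s346 (nat_lit 10) [⟨0,1,2,2,2,3,false,false⟩,⟨0,2,3,2,2,0,false,false⟩,⟨0,5,3,0,0,4,false,false⟩,⟨0,3,3,4,4,14,false,false⟩,⟨2,6,2,0,0,1,false,false⟩,⟨2,4,2,1,1,6,false,false⟩,⟨6,7,1,0,0,8,false,false⟩,⟨4,6,6,1,8,11,false,false⟩,⟨5,8,4,0,0,5,false,false⟩,⟨5,3,5,4,14,15,false,true⟩,⟨2,3,2,6,6,7,false,false⟩,⟨5,9,15,5,5,16,true,false⟩,⟨8,9,0,5,16,9,false,false⟩,⟨7,8,8,0,9,10,false,false⟩,⟨1,0,2,3,14,12,false,false⟩,⟨2,1,7,2,12,13,false,false⟩,⟨4,5,6,11,11,18,false,false⟩,⟨3,4,7,6,18,17,false,false⟩,⟨2,3,13,7,17,19,false,false⟩]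 (nat_lit 11) (nat_lit 682) (by decide +kernel)
noncomputable def s347 : Raw := ⟨[(0,[11,9,1,2,3,4,5,10]),(1,[12,8,7,6,2,0,9]),(2,[13,3,0,1,6,14]),(3,[15,4,0,2,13]),(4,[16,5,0,3,15,17]),(5,[18,10,0,4,16]),(6,[14,2,1,7,19]),(7,[21,19,6,1,8,20]),(8,[20,7,1,12,22])], [15,17,16,18,10,11,9,12,22,20,21,19,14,13], [(1,7),(7,20),(7,19),(2,6)]⟩
def c347 : RawB s347 := raw1 s347 (nat_lit 12) [⟨0,1,2,2,2,6,false,false⟩,⟨0,2,2,6,6,1,false,false⟩,⟨2,3,6,1,1,7,false,false⟩,⟨0,4,2,1,1,0,false,false⟩,⟨0,5,2,0,0,3,false,false⟩,⟨4,6,1,0,0,9,false,false⟩,⟨6,7,0,9,9,11,false,false⟩,⟨6,8,0,11,11,10,false,false⟩,⟨6,9,0,10,10,5,false,false⟩,⟨5,6,3,0,5,4,false,false⟩,⟨9,10,10,5,5,18,false,false⟩,⟨6,10,4,5,18,16,false,false⟩,⟨6,11,4,16,16,17,false,false⟩,⟨5,6,3,4,17,15,false,true⟩,⟨0,5,2,3,15,13,false,true⟩,⟨1,0,6,2,13,14,false,false⟩,⟨2,1,7,6,14,19,false,false⟩,⟨4,6,1,9,9,12,false,false⟩,⟨3,4,7,1,12,8,false,false⟩,⟨4,5,8,12,12,22,false,false⟩,⟨3,4,7,8,22,20,false,false⟩,⟨2,3,19,7,20,21,false,false⟩]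 (nat_lit 17) (nat_lit 87381) (by decide +kernel)
noncomputable def s348 : Raw := ⟨[(0,[8,1,2,3,9]),(1,[10,2,0,8,11]),(2,[12,5,4,3,0,1,10,13]),(3,[9,0,2,4,6,7,14]),(4,[6,3,2,5,15]),(5,[15,4,2,12,16]),(6,[17,7,3,4,15,18]),(7,[19,14,3,6,17])], [8,11,10,13,12,16,15,18,17,19,14,9], [(3,6),(6,15),(6,17),(7,14)]⟩
def c348 : RawB s348 := raw1 s348 (nat_lit 10) [⟨0,1,3,3,3,6,false,false⟩,⟨0,2,3,6,6,4,false,false⟩,⟨2,3,4,6,6,15,false,false⟩,⟨0,5,3,4,4,2,false,false⟩,⟨0,4,3,2,2,0,false,false⟩,⟨5,6,4,2,2,5,false,false⟩,⟨5,2,5,4,15,15,false,false⟩,⟨0,2,3,0,0,9,false,false⟩,⟨6,7,5,2,2,12,false,false⟩,⟨6,5,12,5,15,16,false,false⟩,⟨4,8,0,2,2,1,false,false⟩,⟨4,2,1,0,9,8,false,true⟩,⟨1,2,3,6,6,7,false,false⟩,⟨4,9,8,1,1,11,true,false⟩,⟨8,9,2,1,11,10,false,false⟩,⟨8,7,10,2,12,13,false,false⟩,⟨1,0,7,3,9,14,false,false⟩,⟨3,4,6,15,15,18,false,false⟩,⟨2,3,7,6,18,17,false,false⟩,⟨1,2,14,7,17,19,false,false⟩]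 (nat_lit 11) (nat_lit 682) (by decide +kernel)
noncomputable def s349 : Raw := ⟨[(0,[10,8,1,2,3,4,5,9]),(1,[11,7,6,2,0,8,12]),(2,[13,3,0,1,6]),(3,[14,4,0,2,13]),(4,[15,5,0,3,14]),(5,[16,9,0,4,15]),(6,[18,13,2,1,7,17]),(7,[17,6,1,11,19])], [17,18,13,14,15,16,9,10,8,12,11,19], [(5,16),(1,6),(6,17),(6,13)]⟩
def c349 : RawB s349 := raw1 s349 (nat_lit 10) [⟨0,1,3,3,3,4,false,false⟩,⟨0,2,3,4,4,0,false,false⟩,⟨2,3,4,0,0,5,false,false⟩,⟨3,4,0,5,5,9,false,false⟩,⟨4,5,5,9,9,16,false,false⟩,⟨4,6,5,16,16,15,false,false⟩,⟨2,4,4,5,15,15,false,false⟩,⟨2,7,4,15,15,14,false,false⟩,⟨1,2,3,4,14,14,false,false⟩,⟨1,8,3,14,14,13,false,false⟩,⟨0,1,0,3,13,2,false,false⟩,⟨0,2,2,0,0,1,false,false⟩,⟨0,1,1,2,13,6,false,false⟩,⟨0,4,1,6,6,7,false,false⟩,⟨1,9,6,13,13,18,false,false⟩,⟨4,1,7,6,18,17,false,true⟩,⟨0,1,7,1,1,11,false,false⟩,⟨0,4,11,7,17,19,false,true⟩,⟨3,4,0,9,9,10,false,false⟩,⟨2,3,1,0,10,8,false,false⟩,⟨2,1,8,1,11,12,false,false⟩]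 (nat_lit 9) (nat_lit 170) (by decide +kernel)
noncomputable def s350 : Raw := ⟨[(0,[10,8,1,2,3,4,5,9]),(1,[11,6,2,0,8,12]),(2,[7,3,0,1,6]),(3,[15,13,4,0,2,7,14]),(4,[16,5,0,3,13,17]),(5,[18,9,0,4,16]),(6,[19,7,2,1,11]),(7,[20,14,3,2,6,19])], [19,20,14,15,13,17,16,18,9,10,8,12,11], [(0,3),(3,14),(3,13),(6,11)]⟩
def c350 : RawB s350 := raw1 s350 (nat_lit 11) [⟨0,1,0,0,0,1,false,false⟩,⟨0,2,1,0,0,2,false,false⟩,⟨0,3,1,2,2,6,false,false⟩,⟨3,4,6,2,2,7,false,false⟩,⟨4,5,2,7,7,3,false,false⟩,⟨2,4,0,2,3,3,false,false⟩,⟨2,7,0,3,3,4,false,false⟩,⟨2,4,0,4,4,5,false,false⟩,⟨4,6,5,4,4,16,false,false⟩,⟨7,8,4,3,3,13,false,false⟩,⟨7,6,13,4,16,17,false,false⟩,⟨8,9,13,3,3,15,false,false⟩,⟨5,9,7,3,15,14,false,false⟩,⟨5,10,7,14,14,20,false,false⟩,⟨3,5,6,7,20,19,false,true⟩,⟨0,3,1,6,19,11,false,true⟩,⟨4,5,5,16,16,18,false,false⟩,⟨2,4,0,5,18,9,false,false⟩,⟨2,3,0,9,9,10,false,false⟩,⟨1,2,1,0,10,8,false,false⟩,⟨1,0,8,1,11,12,false,false⟩]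 (nat_lit 27) (nat_lit 44739242) (by decide +kernel)
noncomputable def s351 : Raw := ⟨[(0,[10,8,1,2,3,4,5,9]),(1,[11,6,2,0,8]),(2,[12,3,0,1,6,7,13]),(3,[14,4,0,2,12,15]),(4,[16,5,0,3,14]),(5,[17,9,0,4,16]),(6,[18,7,2,1,11,19]),(7,[20,13,2,6,18])], [12,15,14,16,17,9,10,8,11,19,18,20,13], [(0,3),(3,12),(3,14),(1,11)]⟩
def c351 : RawB s351 := raw1 s351 (nat_lit 11) [⟨0,1,0,0,0,8,false,false⟩,⟨0,2,0,8,8,1,false,false⟩,⟨0,3,1,0,0,2,false,false⟩,⟨2,4,1,8,8,11,false,false⟩,⟨0,2,2,1,11,6,false,false⟩,⟨1,5,0,8,8,10,false,false⟩,⟨1,6,0,10,10,9,false,false⟩,⟨1,7,0,9,9,5,false,false⟩,⟨1,8,0,5,5,4,false,false⟩,⟨3,1,2,0,4,3,false,false⟩,⟨8,9,5,4,4,16,false,false⟩,⟨7,8,9,5,16,17,false,false⟩,⟨1,9,3,4,16,14,false,false⟩,⟨1,10,3,14,14,15,false,false⟩,⟨3,1,2,3,15,12,false,true⟩,⟨0,1,2,6,6,7,false,false⟩,⟨0,3,7,2,12,13,false,true⟩,⟨2,3,6,11,11,19,false,false⟩,⟨1,2,7,6,19,18,false,false⟩,⟨0,1,13,7,18,20,false,false⟩]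 (nat_lit 20) (nat_lit 699050) (by decide +kernel)
end Pool.Agent.FCT.R
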