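import Pool.Agent.Lib.MP_fe5cb4_co.FC.RawDef
set_option linter.defProp false
namespace Pool.Agent.FCT.R
open Pool.Agent.Lib.MP_fe5cb4_co.FC
noncomputable def s367 : Raw := ⟨[(0,[11,6,1,2,3,4,5,10]),(1,[12,2,0,6,7,8,9]),(2,[13,3,0,1,12]),(3,[14,4,0,2,13]),(4,[15,5,0,3,14]),(5,[16,10,0,4,15]),(7,[18,8,1,6,17]),(8,[19,9,1,7,18,20]),(9,[21,12,1,8,19])], [21,12,13,14,15,16,10,11,6,17,18,20,19], [(1,6),(1,12),(8,18),(8,19)]⟩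
def c367 : RawB s367 := raw1 s367 (nat_lit 11) [⟨0,1,0,0,0,4,false,false⟩,⟨0,2,0,4,4,3,false,false⟩,⟨1,3,0,4,4,5,false,false⟩,⟨1,4,5,0,0,10,false,false⟩,⟨4,5,0,10,10,11,false,false⟩,⟨1,6,5,10,10,16,false,false⟩,⟨1,7,5,16,16,15,false,false⟩,⟨3,1,4,5,15,15,false,false⟩,⟨0,1,3,0,0,2,false,false⟩,⟨2,8,3,4,4,14,false,false⟩,⟨8,3,14,4,15,15,false,false⟩,⟨2,9,3,14,14,13,false,false⟩,⟨0,2,2,3,13,13,false,false⟩,⟨0,10,2,13,13,12,false,false⟩,⟨1,0,0,2,12,1,false,false⟩,⟨1,4,1,0,11,6,false,false⟩,⟨0,3,1,12,12,9,false,false⟩,⟨3,2,9,12,12,21,false,true⟩,⟨1,2,1,6,6,7,false,false⟩,⟨1,0,7,1,9,8,false,false⟩,⟨0,3,8,9,21,19,false,true⟩,⟨2,3,7,6,6,17,false,false⟩,⟨1,2,8,7,17,18,false,false⟩,⟨1,0,18,8,19,20,false,false⟩] (nat_lit 13) (nat_lit 5461) (by decide +kernel)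
noncomputable def s368 : Raw := ⟨[(0,[9,8,7,6,1,2,3,10]),(1,[11,2,0,6,12]),(2,[4,3,0,1,11]),(3,[14,10,0,2,4,5,13]),(4,[15,5,3,2,11,16]),(5,[17,13,3,4,15]),(7,[18,6,0,8,19]),(8,[19,7,0,9,20]),(9,[20,8,0,10,21])], [19,18,6,12,11,16,15,17,13,14,10,21,20], [(7,19),(7,6),(9,10),(9,20)]⟩
def c368 : RawB s368 := raw1 s368 (nat_lit 11) [⟨0,1,9,9,9,10,false,false⟩,⟨0,2,9,10,10,0,false,false⟩,⟨2,3,10,0,0,3,false,false⟩,⟨3,5,3,0,0,2,false,false⟩,⟨3,4,3,2,2,4,false,false⟩,⟨4,6,4,2,2,11,false,false⟩,⟨4,7,4,11,11,16,false,false⟩,⟨6,8,2,11,11,1,false,false⟩,⟨6,5,1,2,0,0,false,false⟩,⟨0,5,9,0,0,8,false,false⟩,⟨8,9,11,1,1,12,false,false⟩,⟨6,9,0,1,12,6,false,false⟩,⟨6,5,6,0,8,7,false,false⟩,⟨6,10,7,6,6,18,false,false⟩,⟨5,6,8,7,18,19,false,true⟩,⟨0,5,9,8,19,20,false,true⟩,⟨1,0,10,9,20,21,false,false⟩,⟨4,6,4,16,16,15,false,false⟩,⟨3,4,3,4,15,5,false,false⟩,⟨4,5,5,15,15,17,false,false⟩,⟨3,4,3,5,17,13,false,false⟩,⟨2,3,10,3,13,14,false,false⟩]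 (nat_lit 12) (nat_lit 1365) (by decide +kernel)
noncomputable def s369 : Raw := ⟨[(0,[8,6,1,2,7]),(1,[9,4,3,2,0,6,10]),(2,[7,0,1,3,5,11]),(3,[13,5,2,1,4,12]),(4,[12,3,1,9,14]),(5,[15,11,2,3,13])], [7,8,6,10,9,14,12,13,15,11], [(2,7),(2,5),(4,9),(4,12)]⟩
def c369 : RawB s369 := raw1 s369 (nat_lit 8) [⟨0,1,5,5,5,15,false,false⟩,⟨0,2,15,5,5,11,false,false⟩,⟨2,3,5,11,11,2,false,false⟩,⟨2,4,5,2,2,3,false,false⟩,⟨2,1,3,5,15,13,false,false⟩,⟨3,5,11,2,2,7,true,false⟩,⟨2,3,13,3,3,12,false,false⟩,⟨5,6,2,7,7,0,false,false⟩,⟨5,4,0,2,3,1,false,false⟩,⟨4,3,1,3,12,4,false,false⟩,⟨6,7,7,0,0,8,true,false⟩,⟨5,7,1,0,8,6,false,false⟩,⟨5,6,1,6,6,10,false,false⟩,⟨4,5,4,1,10,9,false,false⟩,⟨4,3,9,4,12,14,false,false⟩] (nat_lit 8) (nat_lit 170) (by decide +kernel)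
noncomputable def s370 : Raw := ⟨[(0,[9,7,1,2,3,8]),(1,[10,2,0,7,11]),(2,[5,4,3,0,1,10]),(3,[8,0,2,4,6,12]),(4,[14,6,3,2,5,13,15]),(5,[13,4,2,10,16]),(6,[17,12,3,4,14])], [8,9,7,11,10,16,13,15,14,17,12], [(0,8),(0,7),(0,2)]⟩
def c370 : RawB s370 := raw1 s370 (nat_lit 9) [⟨0,1,2,2,2,5,false,false⟩,⟨0,2,2,5,5,4,false,false⟩,⟨0,3,4,2,2,3,false,false⟩,⟨2,4,4,5,5,13,false,false⟩,⟨4,5,13,5,5,16,false,false⟩,⟨1,5,2,5,16,10,false,false⟩,⟨1,6,2,10,10,1,false,false⟩,⟨1,3,1,2,3,0,false,false⟩,⟨6,7,10,1,1,11,false,false⟩,⟨1,7,0,1,11,7,false,false⟩,⟨1,8,0,7,7,9,false,false⟩,⟨3,1,3,0,9,8,false,true⟩,⟨0,1,3,4,4,6,false,false⟩,⟨0,3,6,3,8,12,false,true⟩,⟨2,3,4,13,13,15,false,false⟩,⟨1,2,6,4,15,14,false,false⟩,⟨0,1,12,6,14,17,false,false⟩] (nat_lit 8) (nat_lit 85) (by decide +kernel)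
noncomputable def s371 : Raw := ⟨[(0,[11,9,1,2,3,4,5,10]),(1,[12,6,2,0,9]),(2,[13,3,0,1,6,7,8]),(3,[14,4,0,2,13]),(4,[15,5,0,3,14]),(5,[16,10,0,4,15]),(6,[17,7,2,1,12,18]),(7,[19,8,2,6,17,20]),(8,[21,13,2,7,19])], [15,16,10,11,9,12,18,17,20,19,21,13,14], [(1,9),(6,12),(6,17),(2,6)]⟩
def c371 : RawB s371 := raw1 s371 (nat_lit 11) [⟨0,1,2,2,2,3,false,false⟩,⟨0,2,3,2,2,0,false,false⟩,⟨2,4,2,0,0,1,false,false⟩,⟨2,5,2,1,1,6,false,false⟩,⟨2,3,2,6,6,7,false,false⟩,⟨4,6,1,0,0,9,false,false⟩,⟨4,7,1,9,9,12,false,false⟩,⟨5,4,6,1,12,12,false,false⟩,⟨0,4,3,0,0,4,false,false⟩,⟨6,8,0,9,9,11,false,false⟩,⟨6,9,0,11,11,10,false,false⟩,⟨4,6,4,0,10,5,false,false⟩,⟨6,10,5,10,10,16,false,false⟩,⟨4,6,4,5,16,15,false,true⟩,⟨0,4,3,4,15,14,false,true⟩,⟨1,0,2,3,14,13,false,false⟩,⟨2,1,7,2,13,8,false,false⟩,⟨5,6,6,12,12,18,false,false⟩,⟨3,5,7,6,18,17,false,false⟩,⟨3,4,7,17,17,20,false,false⟩,⟨2,3,8,7,20,19,false,false⟩,⟨1,2,13,8,19,21,false,false⟩]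 (nat_lit 10) (nat_lit 682) (by decide +kernel)
noncomputable def s372 : Raw := ⟨[(0,[9,1,2,3,10]),(1,[11,2,0,9,12]),(2,[13,5,4,3,0,1,11,14]),(3,[10,0,2,4,6,7,8]),(4,[6,3,2,5,15]),(5,[15,4,2,13,16]),(6,[17,7,3,4,15,18]),(7,[19,8,3,6,17,20]),(8,[21,10,3,7,19])], [9,12,11,14,13,16,15,18,17,20,19,21,10], [(3,6),(6,15),(6,17)]⟩
def c372 : RawB s372 := raw1 s372 (nat_lit 11) [⟨0,1,3,3,3,7,false,false⟩,⟨0,2,3,7,7,6,false,false⟩,⟨0,3,3,6,6,4,false,false⟩,⟨3,4,4,6,6,15,false,false⟩,⟨3,5,15,4,4,5,false,false⟩,⟨0,5,3,4,5,2,false,false⟩,⟨3,6,5,15,15,16,false,false⟩,⟨3,7,5,16,16,13,false,false⟩,⟨5,3,2,5,13,13,false,false⟩,⟨0,3,3,2,2,0,false,false⟩,⟨5,8,2,13,13,14,false,false⟩,⟨5,9,2,14,14,11,false,false⟩,⟨3,5,0,2,11,1,false,false⟩,⟨5,10,1,11,11,12,false,false⟩,⟨3,5,0,1,12,9,false,true⟩,⟨0,3,3,0,9,10,false,true⟩,⟨1,0,7,3,10,8,false,false⟩,⟨4,5,6,15,15,18,false,false⟩,⟨2,4,7,6,18,17,false,false⟩,⟨2,3,7,17,17,20,false,false⟩,⟨1,2,8,7,20,19,false,false⟩,⟨0,1,10,8,19,21,false,false⟩]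 (nat_lit 11) (nat_lit 1365) (by decide +kernel)
noncomputable def s373 : Raw := ⟨[(0,[10,1,2,3,4]),(1,[8,7,6,5,2,0,10]),(2,[13,11,3,0,1,5,9,12]),(3,[14,4,0,2,11,15]),(4,[16,10,0,3,14]),(5,[9,2,1,6,17]),(6,[19,17,5,1,7,18]),(7,[21,18,6,1,8,20]),(8,[20,7,1,10,22]),(9,[23,12,2,5,17])], [20,21,18,19,17,23,12,13,11,15,14,16,10,22], [(2,9),(1,6),(6,18),(6,17)]⟩
def c373 : RawB s373 := raw1 s373 (nat_lit 12) [⟨0,1,0,0,0,10,false,false⟩,⟨0,2,10,0,0,1,false,false⟩,⟨0,4,10,1,1,8,false,false⟩,⟨2,5,0,1,1,2,false,false⟩,⟨2,3,0,2,2,3,false,false⟩,⟨5,6,2,1,1,5,false,false⟩,⟨5,8,2,5,5,9,false,false⟩,⟨5,7,2,9,9,12,false,false⟩,⟨8,9,9,5,5,17,false,false⟩,⟨7,8,12,9,17,23,false,false⟩,⟨6,9,1,5,17,6,false,false⟩,⟨6,4,6,1,8,7,false,false⟩,⟨2,1,3,0,10,4,false,false⟩,⟨9,10,17,6,6,19,false,false⟩,⟨6,10,7,6,19,18,false,false⟩,⟨6,11,7,18,18,21,false,false⟩,⟨4,6,8,7,21,20,false,true⟩,⟨0,4,10,8,20,22,false,true⟩,⟨5,6,2,12,12,13,false,false⟩,⟨3,5,3,2,13,11,false,false⟩,⟨3,4,3,11,11,15,false,false⟩,⟨2,3,4,3,15,14,false,false⟩,⟨1,2,10,4,14,16,false,false⟩]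 (nat_lit 10) (nat_lit 341) (by decide +kernel)
noncomputable def s374 : Raw := ⟨[(0,[9,4,1,2,8]),(1,[10,3,2,0,4,5,6,7]),(2,[8,0,1,3,11]),(3,[11,2,1,10,12]),(5,[14,6,1,4,13]),(6,[15,7,1,5,14,16]),(7,[17,10,1,6,15])], [4,13,14,16,15,17,10,12,11,8,9], [(1,4),(1,10),(6,14),(6,15)]⟩
def c374 : RawB s374 := raw1 s374 (nat_lit 9) [⟨0,1,2,2,2,11,false,false⟩,⟨0,2,2,11,11,3,false,false⟩,⟨0,3,2,3,3,1,false,false⟩,⟨0,4,2,1,1,0,false,false⟩,⟨0,1,0,2,11,8,false,false⟩,⟨4,5,0,1,1,4,false,false⟩,⟨4,0,4,0,8,9,true,false⟩,⟨3,4,3,1,1,10,false,false⟩,⟨3,2,10,3,11,12,false,false⟩,⟨5,6,1,4,4,5,false,false⟩,⟨5,7,1,5,5,6,false,false⟩,⟨5,4,6,1,10,7,false,false⟩,⟨6,8,4,5,5,13,true,false⟩,⟨7,8,6,5,13,14,false,false⟩,⟨7,6,14,6,6,16,false,false⟩,⟨5,6,7,6,16,15,false,false⟩,⟨4,5,10,7,15,17,false,false⟩]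 (nat_lit 11) (nat_lit 1365) (by decide +kernel)
noncomputable def s375 : Raw := ⟨[(0,[9,1,2,3,4,5]),(1,[8,7,6,2,0,9]),(2,[10,3,0,1,6,11]),(3,[12,4,0,2,10,13]),(4,[14,5,0,3,12,15]),(5,[16,9,0,4,14]),(6,[18,11,2,1,7,17]),(7,[20,17,6,1,8,19]),(8,[19,7,1,9,21])], [15,14,16,9,21,19,20,17,18,11,10,13,12], [(5,14),(5,9),(3,10),(3,12)]⟩
def c375 : RawB s375 := raw1 s375 (nat_lit 11) [⟨0,1,12,12,12,15,false,true⟩,⟨0,1,12,15,15,4,false,false⟩,⟨0,2,12,4,4,3,false,false⟩,⟨2,4,3,4,4,0,false,false⟩,⟨2,3,3,0,0,2,false,false⟩,⟨1,5,15,4,4,14,true,false⟩,⟨2,1,2,3,3,10,false,false⟩,⟨5,9,4,14,14,5,false,false⟩,⟨5,4,5,4,0,0,false,false⟩,⟨9,10,5,14,14,16,false,false⟩,⟨5,9,0,5,16,9,false,false⟩,⟨3,5,2,0,9,1,false,false⟩,⟨1,0,10,3,12,13,false,false⟩,⟨3,4,2,1,1,6,false,false⟩,⟨3,2,6,2,10,11,false,false⟩,⟨5,7,1,9,9,8,false,false⟩,⟨4,5,6,1,8,7,false,false⟩,⟨7,8,8,9,9,21,false,false⟩,⟨5,7,7,8,21,19,false,false⟩,⟨5,6,7,19,19,20,false,false⟩,⟨4,5,6,7,20,17,false,false⟩,⟨3,4,11,6,17,18,false,false⟩]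 (nat_lit 7) (nat_lit 85) (by decide +kernel)
noncomputable def s376 : Raw := ⟨[(0,[10,8,1,2,3,4,5,9]),(1,[11,2,0,8,12]),(2,[7,6,3,0,1,11]),(3,[15,13,4,0,2,6,14]),(4,[16,5,0,3,13]),(5,[17,9,0,4,16]),(6,[14,3,2,7,18]),(7,[18,6,2,11,19])], [9,10,8,12,11,19,18,14,15,13,16,17], [(5,4),(4,13),(0,10),(0,3)]⟩
def c376 : RawB s376 := raw1 s376 (nat_lit 10) [⟨0,1,4,4,4,13,false,false⟩,⟨0,2,4,13,13,3,false,false⟩,⟨0,3,4,3,3,0,false,false⟩,⟨0,4,4,0,0,5,false,false⟩,⟨0,1,5,4,13,16,false,false⟩,⟨4,5,5,0,0,9,false,false⟩,⟨4,0,9,5,16,17,true,false⟩,⟨3,4,3,0,0,2,false,false⟩,⟨5,7,9,0,0,10,true,false⟩,⟨7,9,0,10,10,8,false,false⟩,⟨4,7,2,0,8,1,false,false⟩,⟨7,8,1,8,8,12,false,false⟩,⟨4,7,2,1,12,11,false,false⟩,⟨4,5,2,11,11,7,false,false⟩,⟨3,4,3,2,7,6,false,false⟩,⟨5,6,7,11,11,19,false,false⟩,⟨4,5,6,7,19,18,false,false⟩,⟨3,4,3,6,18,14,false,false⟩,⟨2,3,13,3,14,15,false,false⟩]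 (nat_lit 14) (nat_lit 5461) (by decide +kernel)
noncomputable def s377 : Raw := ⟨[(0,[8,1,2,3,9]),(1,[10,2,0,8,11]),(2,[12,5,4,3,0,1,10,13]),(3,[9,0,2,4,6,7]),(4,[15,6,3,2,5,14,16]),(5,[14,4,2,12,17]),(6,[18,7,3,4,15]),(7,[19,9,3,6,18])], [8,11,10,13,12,17,14,16,15,18,19,9], [(1,11),(0,9),(2,10),(2,4)]⟩
def c377 : RawB s377 := raw1 s377 (nat_lit 10) [⟨0,1,6,6,6,18,false,false⟩,⟨0,2,6,18,18,15,false,false⟩,⟨0,3,6,15,15,4,false,false⟩,⟨0,4,6,4,4,3,false,false⟩,⟨0,1,3,6,18,7,false,false⟩,⟨0,5,7,3,3,9,false,false⟩,⟨0,1,9,7,18,19,false,false⟩,⟨5,6,3,9,9,0,false,false⟩,⟨5,4,0,3,4,2,false,false⟩,⟨6,7,0,9,9,8,false,true⟩,⟨5,6,2,0,8,1,false,false⟩,⟨6,9,8,1,1,11,true,false⟩,⟨5,9,2,1,11,10,false,false⟩,⟨5,8,2,10,10,13,false,false⟩,⟨5,7,2,13,13,12,false,false⟩,⟨4,5,4,2,12,5,false,false⟩,⟨5,6,5,12,12,17,false,false⟩,⟨4,5,4,5,17,14,false,false⟩,⟨4,3,14,4,15,16,false,false⟩]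 (nat_lit 11) (nat_lit 1365) (by decide +kernel)
noncomputable def s378 : Raw := ⟨[(0,[9,1,2,3,4]),(1,[10,2,0,9,11]),(2,[12,3,0,1,10]),(3,[8,7,6,5,4,0,2,12]),(5,[13,4,3,6,14]),(6,[14,5,3,7,15]),(7,[15,6,3,8,16]),(8,[16,7,3,12,17])], [16,15,14,13,4,9,11,10,12,17], [(3,7),(7,16),(6,15),(6,5)]⟩
def c378 : RawB s378 := raw1 s378 (nat_lit 8) [⟨0,1,16,16,16,17,false,true⟩,⟨0,1,17,16,16,8,false,false⟩,⟨1,2,8,16,16,7,false,false⟩,⟨1,3,8,7,7,3,false,false⟩,⟨1,0,3,8,17,12,false,false⟩,⟨1,4,12,3,3,2,false,false⟩,⟨2,5,16,7,7,15,true,false⟩,⟨4,2,3,2,2,0,false,false⟩,⟨5,6,7,15,15,6,false,false⟩,⟨5,3,6,7,3,3,false,false⟩,⟨2,3,2,0,0,1,false,false⟩,⟨6,7,6,15,15,14,false,false⟩,⟨5,6,3,6,14,5,false,false⟩,⟨4,5,0,3,5,4,false,false⟩,⟨5,6,4,5,14,13,false,false⟩,⟨3,4,1,0,4,9,false,false⟩,⟨2,1,1,2,12,10,false,false⟩,⟨3,2,9,1,10,11,false,false⟩]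 (nat_lit 5) (nat_lit 10) (by decide +kernel)
noncomputable def s379 : Raw := ⟨[(0,[7,6,5,4,1,2,9]),(1,[10,3,2,0,4]),(2,[12,9,0,1,3,11]),(3,[11,2,1,10,13]),(5,[14,4,0,6,8]),(6,[16,8,5,0,7,15,17]),(7,[15,6,0,9,18]),(8,[19,14,5,6,16])], [10,13,11,12,9,18,15,17,16,19,14,4], [(0,5),(8,16),(8,14)]⟩
def c379 : RawB s379 := raw1 s379 (nat_lit 10) [⟨0,1,0,0,0,5,false,false⟩,⟨0,2,5,0,0,4,false,false⟩,⟨1,3,5,0,0,6,false,false⟩,⟨3,4,6,0,0,7,false,false⟩,⟨4,5,0,7,7,9,false,false⟩,⟨5,6,7,9,9,18,false,false⟩,⟨3,5,6,7,18,15,false,false⟩,⟨4,7,0,9,9,2,false,false⟩,⟨4,2,2,0,4,1,false,false⟩,⟨4,8,1,2,2,3,false,false⟩,⟨4,2,3,1,4,10,false,true⟩,⟨1,2,5,6,6,8,false,false⟩,⟨4,9,10,3,3,13,true,false⟩,⟨8,9,2,3,13,11,false,false⟩,⟨7,8,9,2,11,12,false,false⟩,⟨0,1,4,5,8,14,false,false⟩,⟨3,4,6,15,15,17,false,false⟩,⟨2,3,8,6,17,16,false,false⟩,⟨1,2,14,8,16,19,false,false⟩]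 (nat_lit 13) (nat_lit 5461) (by decide +kernel)
noncomputable def s380 : Raw := ⟨[(0,[7,6,5,4,1,2,9]),(1,[10,3,2,0,4]),(2,[12,9,0,1,3,11]),(3,[11,2,1,10,13]),(5,[14,4,0,6,15]),(6,[17,15,5,0,7,8,16]),(7,[18,8,6,0,9]),(8,[19,16,6,7,18])], [10,13,11,12,9,18,19,16,17,15,14,4], [(1,2),(0,9),(0,4),(0,6)]⟩
def c380 : RawB s380 := raw1 s380 (nat_lit 10) [⟨0,1,0,0,0,6,false,false⟩,⟨0,2,0,6,6,7,false,false⟩,⟨2,3,6,7,7,8,false,false⟩,⟨3,4,7,8,8,18,false,false⟩,⟨3,6,7,18,18,9,false,false⟩,⟨0,3,0,7,9,9,false,false⟩,⟨0,7,0,9,9,2,false,false⟩,⟨0,3,0,2,2,1,false,false⟩,⟨0,5,0,1,1,4,false,false⟩,⟨3,8,1,2,2,3,false,false⟩,⟨3,5,3,1,4,10,false,true⟩,⟨4,5,8,18,18,19,false,false⟩,⟨3,9,10,3,3,13,true,false⟩,⟨8,9,2,3,13,11,false,false⟩,⟨7,8,9,2,11,12,false,false⟩,⟨2,4,6,8,19,16,false,false⟩,⟨0,1,4,0,6,5,false,false⟩,⟨2,3,6,16,16,17,false,false⟩,⟨1,2,5,6,17,15,false,false⟩,⟨0,1,4,5,15,14,false,false⟩]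 (nat_lit 12) (nat_lit 1365) (by decide +kernel)
noncomputable def s381 : Raw := ⟨[(0,[10,8,1,2,3,4,5,9]),(1,[7,6,2,0,8]),(2,[13,11,3,0,1,6,12]),(3,[14,4,0,2,11]),(4,[15,5,0,3,14,16]),(5,[17,9,0,4,15]),(6,[19,12,2,1,7,18]),(7,[18,6,1,8,20])], [10,8,20,18,19,12,13,11,14,16,15,17,9], [(0,2),(2,12),(2,11),(7,8)]⟩
def c381 : RawB s381 := raw1 s381 (nat_lit 11) [⟨0,1,3,3,3,4,false,false⟩,⟨0,2,3,4,4,14,false,false⟩,⟨2,3,4,14,14,16,false,false⟩,⟨0,4,3,14,14,11,false,false⟩,⟨0,5,3,11,11,2,false,false⟩,⟨0,1,2,3,4,0,false,false⟩,⟨5,6,11,2,2,13,false,false⟩,⟨6,7,13,2,2,12,false,false⟩,⟨7,8,12,2,2,6,false,false⟩,⟨0,8,0,2,6,1,false,false⟩,⟨8,9,6,1,1,7,false,false⟩,⟨0,9,0,1,7,8,false,false⟩,⟨0,10,0,8,8,10,false,true⟩,⟨0,10,0,10,10,9,false,true⟩,⟨9,10,7,8,8,20,false,false⟩,⟨8,9,6,7,20,18,false,false⟩,⟨7,8,12,6,18,19,false,false⟩,⟨1,0,4,0,9,5,false,false⟩,⟨1,2,5,4,16,15,false,false⟩,⟨0,1,9,5,15,17,false,false⟩]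 (nat_lit 21) (nat_lit 699050) (by decide +kernel)
end Pool.Agent.FCT.R
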