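import Pool.Agent.Lib.MP_fe5cb4_co.FC.RawDef
set_option linter.defProp false
namespace Pool.Agent.FCT.R
open Pool.Agent.Lib.MP_fe5cb4_co.FC
noncomputable def s63 : Raw := ⟨[(0,[9,7,1,2,3,8]),(1,[10,2,0,7,11]),(2,[12,4,3,0,1,10,13]),(3,[8,0,2,4,5,6,14]),(4,[15,5,3,2,12]),(5,[16,6,3,4,15,17]),(6,[18,14,3,5,16])], [16,18,14,8,9,7,11,10,13,12,15,17], [(0,8),(0,2),(4,12),(3,4)]⟩
def c63 : RawB s63 := raw1 s63 (nat_lit 10) [⟨0,1,12,12,12,15,false,false⟩,⟨0,2,15,12,12,4,false,false⟩,⟨2,3,12,4,4,2,false,false⟩,⟨3,4,2,4,4,3,false,false⟩,⟨4,5,4,3,3,5,false,false⟩,⟨0,4,15,4,5,5,false,false⟩,⟨3,4,2,3,3,0,false,false⟩,⟨4,6,0,3,3,8,false,false⟩,⟨4,7,0,8,8,9,false,false⟩,⟨6,8,3,8,8,14,false,false⟩,⟨5,6,5,3,14,6,false,false⟩,⟨6,9,6,14,14,18,false,false⟩,⟨5,6,5,6,18,16,false,true⟩,⟨0,5,15,5,16,17,false,true⟩,⟨4,6,0,9,9,7,false,false⟩,⟨3,4,2,0,7,1,false,false⟩,⟨4,5,1,7,7,11,false,false⟩,⟨3,4,2,1,11,10,false,false⟩,⟨3,2,10,2,12,13,false,false⟩]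 (nat_lit 24) (nat_lit 11184810) (by decide +kernel)
noncomputable def s64 : Raw := ⟨[(0,[10,8,1,2,3,4,9]),(1,[11,7,6,5,2,0,8]),(2,[12,3,0,1,5,13]),(3,[14,4,0,2,12]),(4,[15,9,0,3,14]),(5,[17,13,2,1,6,16]),(6,[19,16,5,1,7,18]),(7,[18,6,1,11,20])], [14,15,9,10,8,11,20,18,19,16,17,13,12], [(4,3),(3,12),(1,5),(5,13)]⟩
def c64 : RawB s64 := raw1 s64 (nat_lit 11) [⟨0,1,2,2,2,5,false,false⟩,⟨0,2,2,5,5,1,false,false⟩,⟨2,3,5,1,1,6,false,false⟩,⟨0,5,2,1,1,0,false,false⟩,⟨0,4,2,0,0,3,false,false⟩,⟨5,6,1,0,0,8,false,false⟩,⟨5,7,1,8,8,11,false,false⟩,⟨3,5,6,1,11,7,false,false⟩,⟨6,8,0,8,8,10,false,false⟩,⟨6,9,0,10,10,9,false,false⟩,⟨4,6,3,0,9,4,false,false⟩,⟨6,10,4,9,9,15,false,false⟩,⟨4,6,3,4,15,14,false,true⟩,⟨0,4,2,3,14,12,false,true⟩,⟨1,0,5,2,12,13,false,false⟩,⟨5,6,7,11,11,20,false,false⟩,⟨3,5,6,7,20,18,false,false⟩,⟨3,4,6,18,18,19,false,false⟩,⟨2,3,5,6,19,16,false,false⟩,⟨1,2,13,5,16,17,false,false⟩]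 (nat_lit 16) (nat_lit 43690) (by decide +kernel)
noncomputable def s65 : Raw := ⟨[(0,[10,8,1,2,3,4,9]),(1,[6,5,2,0,8]),(2,[11,3,0,1,5,7,12]),(3,[13,4,0,2,11,14]),(4,[15,9,0,3,13]),(5,[17,7,2,1,6,16,18]),(6,[16,5,1,8,19]),(7,[20,12,2,5,17])], [13,15,9,10,8,19,16,18,17,20,12,11,14], [(1,8),(2,1),(6,19),(5,6)]⟩
def c65 : RawB s65 := raw1 s65 (nat_lit 11) [⟨0,1,2,2,2,11,false,false⟩,⟨0,2,11,2,2,3,false,false⟩,⟨2,3,2,3,3,0,false,false⟩,⟨2,4,2,0,0,1,false,false⟩,⟨4,5,1,0,0,8,false,false⟩,⟨4,6,1,8,8,6,false,false⟩,⟨2,4,2,1,6,5,false,false⟩,⟨6,7,6,8,8,19,false,false⟩,⟨4,6,5,6,19,16,false,false⟩,⟨5,8,0,8,8,10,false,false⟩,⟨5,9,0,10,10,9,false,false⟩,⟨3,5,3,0,9,4,false,false⟩,⟨5,10,4,9,9,15,false,false⟩,⟨3,5,3,4,15,13,false,true⟩,⟨0,3,11,3,13,14,false,true⟩,⟨2,3,2,5,5,7,false,false⟩,⟨2,1,7,2,11,12,false,false⟩,⟨4,5,5,16,16,18,false,false⟩,⟨3,4,7,5,18,17,false,false⟩,⟨2,3,12,7,17,20,false,false⟩]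 (nat_lit 20) (nat_lit 699050) (by decide +kernel)
noncomputable def s66 : Raw := ⟨[(0,[10,8,1,2,3,9]),(1,[11,2,0,8,12]),(2,[13,4,3,0,1,11,14]),(3,[9,0,2,4,5,6,7]),(4,[15,5,3,2,13]),(5,[16,6,3,4,15,17]),(6,[18,7,3,5,16,19]),(7,[20,9,3,6,18])], [15,17,16,19,18,20,9,10,8,12,11,14,13], [(3,6),(6,16),(6,18)]⟩
def c66 : RawB s66 := raw1 s66 (nat_lit 11) [⟨0,1,0,0,0,2,false,false⟩,⟨0,2,2,0,0,3,false,false⟩,⟨0,3,2,3,3,4,false,false⟩,⟨2,4,0,3,3,9,false,false⟩,⟨2,5,0,9,9,10,false,false⟩,⟨4,6,3,9,9,7,false,false⟩,⟨4,7,3,7,7,6,false,false⟩,⟨3,4,4,3,6,5,false,false⟩,⟨7,8,7,6,6,18,false,false⟩,⟨6,7,9,7,18,20,false,false⟩,⟨8,9,18,6,6,19,false,false⟩,⟨4,9,5,6,19,16,false,false⟩,⟨4,10,5,16,16,17,false,false⟩,⟨3,4,4,5,17,15,false,true⟩,⟨0,3,2,4,15,13,false,true⟩,⟨2,4,0,10,10,8,false,false⟩,⟨1,2,2,0,8,1,false,false⟩,⟨2,3,1,8,8,12,false,false⟩,⟨1,2,2,1,12,11,false,false⟩,⟨1,0,11,2,13,14,false,false⟩]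 (nat_lit 17) (nat_lit 87381) (by decide +kernel)
noncomputable def s67 : Raw := ⟨[(0,[7,1,2,3,4]),(1,[8,2,0,7,9]),(2,[10,5,3,0,1,8,11]),(3,[6,4,0,2,5]),(4,[7,0,3,6,12]),(5,[13,6,3,2,10,14]),(6,[15,12,4,3,5,13])], [8,11,10,14,13,15,12,7,9], [(0,7),(0,2),(5,6)]⟩
def c67 : RawB s67 := raw1 s67 (nat_lit 7) [⟨0,1,8,8,8,9,false,true⟩,⟨0,2,9,8,8,1,false,false⟩,⟨0,1,9,1,1,7,false,false⟩,⟨1,3,7,1,1,0,false,false⟩,⟨2,4,1,8,8,2,false,false⟩,⟨2,3,2,1,0,0,false,false⟩,⟨2,3,0,2,2,3,false,false⟩,⟨2,1,3,0,7,4,false,false⟩,⟨3,5,3,2,2,5,false,false⟩,⟨2,3,4,3,5,6,false,false⟩,⟨2,1,6,4,7,12,false,false⟩,⟨4,6,8,2,2,11,true,false⟩,⟨5,6,5,2,11,10,false,false⟩,⟨5,4,10,5,5,14,false,false⟩,⟨3,4,6,5,14,13,false,false⟩,⟨2,3,12,6,13,15,false,false⟩] (nat_lit 3) (nat_lit 5) (by decide +kernel)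
noncomputable def s68 : Raw := ⟨[(0,[8,1,2,3,4,5,6]),(1,[9,2,0,8,10]),(2,[11,7,3,0,1,9,12]),(3,[15,13,4,0,2,7,14]),(4,[16,5,0,3,13]),(5,[17,6,0,4,16]),(6,[18,8,0,5,17]),(7,[14,3,2,11,19])], [17,18,8,10,9,12,11,19,14,15,13,16], [(6,17),(6,8),(1,8),(1,9)]⟩
def c68 : RawB s68 := raw1 s68 (nat_lit 10) [⟨0,1,3,3,3,4,false,false⟩,⟨0,2,4,3,3,0,false,false⟩,⟨0,3,4,0,0,5,false,false⟩,⟨3,4,0,5,5,6,false,false⟩,⟨3,5,0,6,6,8,false,false⟩,⟨2,6,3,0,0,2,false,false⟩,⟨3,7,0,8,8,1,false,false⟩,⟨3,6,1,0,2,2,false,false⟩,⟨7,8,1,8,8,10,false,false⟩,⟨3,7,2,1,10,9,false,false⟩,⟨3,6,2,9,9,12,false,false⟩,⟨5,9,6,8,8,18,false,false⟩,⟨4,5,5,6,18,17,false,true⟩,⟨0,4,4,5,17,16,false,true⟩,⟨1,0,3,4,16,13,false,false⟩,⟨3,5,2,12,12,11,false,false⟩,⟨2,3,3,2,11,7,false,false⟩,⟨3,4,7,11,11,19,false,false⟩,⟨2,3,3,7,19,14,false,false⟩,⟨1,2,13,3,14,15,false,false⟩]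 (nat_lit 9) (nat_lit 341) (by decide +kernel)
noncomputable def s69 : Raw := ⟨[(0,[9,7,1,2,3,4,8]),(1,[10,6,5,2,0,7,11]),(2,[12,3,0,1,5]),(3,[13,4,0,2,12]),(4,[14,8,0,3,13]),(5,[12,2,1,6,15]),(6,[15,5,1,10,16])], [13,14,8,9,7,11,10,16,15,12], [(0,2),(2,12),(6,10),(6,15)]⟩
def c69 : RawB s69 := raw1 s69 (nat_lit 8) [⟨0,1,5,5,5,6,false,false⟩,⟨0,2,5,6,6,1,false,false⟩,⟨0,3,5,1,1,2,false,false⟩,⟨0,4,5,2,2,12,false,false⟩,⟨1,0,6,5,12,15,false,false⟩,⟨4,5,2,12,12,3,false,false⟩,⟨3,4,1,2,3,0,false,false⟩,⟨4,6,3,0,0,4,false,false⟩,⟨4,5,4,3,12,13,false,true⟩,⟨3,5,1,0,0,7,false,false⟩,⟨4,7,13,4,4,14,true,false⟩,⟨6,7,0,4,14,8,false,false⟩,⟨5,6,7,0,8,9,false,false⟩,⟨3,4,1,7,7,11,false,false⟩,⟨2,3,6,1,11,10,false,false⟩,⟨2,1,10,6,15,16,false,false⟩] (nat_lit 4) (nat_lit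 5) (by decide +kernel)
noncomputable def s70 : Raw := ⟨[(0,[8,1,2,3,4,5,9]),(1,[10,7,6,2,0,8,11]),(2,[14,12,3,0,1,6,13]),(3,[15,4,0,2,12]),(4,[16,5,0,3,15]),(5,[17,9,0,4,16]),(6,[19,13,2,1,7,18]),(7,[18,6,1,10,20])], [13,14,12,15,16,17,9,8,11,10,20,18,19], [(5,4),(1,2),(2,13),(2,12)]⟩
def c70 : RawB s70 := raw1 s70 (nat_lit 11) [⟨0,1,4,4,4,5,false,false⟩,⟨0,2,4,5,5,0,false,false⟩,⟨2,3,5,0,0,9,false,false⟩,⟨0,4,0,4,4,3,false,false⟩,⟨3,5,0,9,9,8,false,false⟩,⟨2,6,5,9,9,17,false,false⟩,⟨2,7,5,17,17,16,false,false⟩,⟨1,2,4,5,16,16,false,false⟩,⟨1,8,4,16,16,15,false,false⟩,⟨4,1,3,4,15,15,false,false⟩,⟨4,9,3,15,15,12,false,false⟩,⟨0,4,0,3,12,2,false,false⟩,⟨0,3,2,0,8,1,false,false⟩,⟨0,1,2,1,1,6,false,false⟩,⟨1,2,6,1,1,7,false,false⟩,⟨4,10,2,12,12,14,false,false⟩,⟨0,4,6,2,14,13,false,true⟩,⟨0,4,6,13,13,19,false,true⟩,⟨1,0,7,6,19,18,false,false⟩,⟨3,4,1,8,8,11,false,false⟩,⟨2,3,7,1,11,10,false,false⟩,⟨2,1,10,7,18,20,false,false⟩]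 (nat_lit 20) (nat_lit 349525) (by decide +kernel)
noncomputable def s71 : Raw := ⟨[(0,[10,5,1,2,3,4,9]),(1,[11,2,0,5,6,7,8]),(2,[12,3,0,1,11]),(3,[13,4,0,2,12]),(4,[14,9,0,3,13]),(6,[16,7,1,5,15]),(7,[17,8,1,6,16]),(8,[18,11,1,7,17])], [13,14,9,10,5,15,16,17,18,11,12], [(4,13),(4,0),(2,12),(2,1)]⟩
def c71 : RawB s71 := raw1 s71 (nat_lit 9) [⟨0,1,2,2,2,11,false,false⟩,⟨0,2,11,2,2,12,false,false⟩,⟨2,3,2,12,12,3,false,false⟩,⟨1,4,11,2,2,1,false,false⟩,⟨2,5,2,3,3,0,false,false⟩,⟨2,4,0,2,1,1,false,false⟩,⟨2,6,1,0,0,5,false,false⟩,⟨2,4,1,5,5,6,false,false⟩,⟨5,7,3,0,0,4,false,false⟩,⟨5,3,4,3,12,13,false,true⟩,⟨2,3,1,6,6,7,false,false⟩,⟨5,8,13,4,4,14,true,false⟩,⟨7,8,0,4,14,9,false,false⟩,⟨6,7,5,0,9,10,false,false⟩,⟨2,1,7,1,11,8,false,false⟩,⟨4,5,6,5,5,15,false,false⟩,⟨3,4,7,6,15,16,false,false⟩,⟨2,3,8,7,16,17,false,false⟩,⟨1,2,11,8,17,18,false,false⟩]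 (nat_lit 7) (nat_lit 85) (by decide +kernel)
noncomputable def s72 : Raw := ⟨[(0,[8,7,6,5,1,2,9]),(1,[10,4,3,2,0,5,11]),(2,[9,0,1,3,12]),(3,[14,12,2,1,4,13]),(4,[13,3,1,10,15]),(6,[16,5,0,7,17]),(7,[17,6,0,8,18]),(8,[18,7,0,9,19])], [17,16,5,11,10,15,13,14,12,9,19,18], [(0,5),(8,9),(8,18),(2,12)]⟩
def c72 : RawB s72 := raw1 s72 (nat_lit 10) [⟨0,1,2,2,2,9,false,false⟩,⟨0,2,2,9,9,12,false,false⟩,⟨0,3,2,12,12,3,false,false⟩,⟨0,4,2,3,3,1,false,false⟩,⟨0,5,2,1,1,0,false,false⟩,⟨0,1,0,2,9,9,false,false⟩,⟨0,1,0,9,9,8,false,false⟩,⟨0,6,8,0,0,7,false,false⟩,⟨6,7,7,0,0,6,false,false⟩,⟨5,7,1,0,6,5,false,false⟩,⟨5,8,1,5,5,11,false,false⟩,⟨7,9,6,5,5,16,false,false⟩,⟨6,7,7,6,16,17,false,true⟩,⟨0,6,8,7,17,18,false,true⟩,⟨1,0,9,8,18,19,false,false⟩,⟨5,7,1,11,11,10,false,false⟩,⟨4,5,3,1,10,4,false,false⟩,⟨5,6,4,10,10,15,false,false⟩,⟨4,5,3,4,15,13,false,false⟩,⟨3,4,12,3,13,14,false,false⟩]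 (nat_lit 12) (nat_lit 1365) (by decide +kernel)
noncomputable def s73 : Raw := ⟨[(0,[8,1,2,3,4,5,6,9]),(1,[10,2,0,8,11]),(2,[12,7,3,0,1,10,13]),(3,[16,14,4,0,2,7,15]),(4,[17,5,0,3,14]),(5,[18,6,0,4,17]),(6,[19,9,0,5,18]),(7,[15,3,2,12,20])], [18,19,9,8,11,10,13,12,20,15,16,14,17], [(2,12),(2,3),(3,15),(3,14)]⟩
def c73 : RawB s73 := raw1 s73 (nat_lit 11) [⟨0,1,3,3,3,4,false,false⟩,⟨0,2,4,3,3,0,false,false⟩,⟨2,3,3,0,0,2,false,false⟩,⟨3,4,2,0,0,1,false,false⟩,⟨3,5,2,1,1,10,false,false⟩,⟨3,6,2,10,10,13,false,false⟩,⟨5,7,1,10,10,11,false,false⟩,⟨5,8,1,11,11,8,false,false⟩,⟨5,4,8,1,0,0,false,false⟩,⟨0,4,4,0,0,5,false,false⟩,⟨5,9,0,8,8,9,false,false⟩,⟨4,5,5,0,9,6,false,false⟩,⟨5,10,6,9,9,19,false,false⟩,⟨4,5,5,6,19,18,false,true⟩,⟨0,4,4,5,18,17,false,true⟩,⟨1,0,3,4,17,14,false,false⟩,⟨3,5,2,13,13,12,false,false⟩,⟨2,3,3,2,12,7,false,false⟩,⟨3,4,7,12,12,20,false,false⟩,⟨2,3,3,7,20,15,false,false⟩,⟨1,2,14,3,15,16,false,false⟩]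 (nat_lit 25) (nat_lit 11184810) (by decide +kernel)
noncomputable def s74 : Raw := ⟨[(0,[10,8,1,2,3,4,9]),(1,[11,7,6,5,2,0,8,12]),(2,[13,3,0,1,5]),(3,[14,4,0,2,13]),(4,[15,9,0,3,14]),(5,[13,2,1,6,16]),(6,[16,5,1,7,17]),(7,[17,6,1,11,18])], [10,8,12,11,18,17,16,13,14,15,9], [(4,14),(4,9),(1,5),(5,13)]⟩
def c74 : RawB s74 := raw1 s74 (nat_lit 9) [⟨0,1,3,3,3,14,false,false⟩,⟨0,2,3,14,14,13,false,false⟩,⟨0,3,3,13,13,2,false,false⟩,⟨0,4,3,2,2,0,false,false⟩,⟨0,1,0,3,14,4,false,false⟩,⟨4,5,2,0,0,1,false,false⟩,⟨4,3,1,2,13,5,false,false⟩,⟨0,6,4,0,0,9,false,false⟩,⟨0,1,9,4,14,15,false,false⟩,⟨5,7,0,1,1,8,false,false⟩,⟨5,6,8,0,9,10,true,true⟩,⟨4,5,5,1,1,6,false,false⟩,⟨4,3,6,5,13,16,false,false⟩,⟨5,6,6,1,1,7,false,false⟩,⟨5,4,7,6,16,17,false,false⟩,⟨7,8,1,8,8,12,false,false⟩,⟨6,7,7,1,12,11,false,false⟩,⟨6,5,11,7,17,18,false,false⟩]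 (nat_lit 5) (nat_lit 21) (by decide +kernel)
end Pool.Agent.FCT.R
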