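import Pool.Agent.Lib.MP_fe5cb4_co.FC.RawDef
set_option linter.defProp false
namespace Pool.Agent.FCT.R
open Pool.Agent.Lib.MP_fe5cb4_co.FC
noncomputable def s431 : Raw := ⟨[(0,[9,1,2,3,4,5,10]),(1,[11,8,7,6,2,0,9]),(2,[12,3,0,1,6,13]),(3,[14,4,0,2,12]),(4,[15,5,0,3,14,16]),(5,[17,10,0,4,15]),(6,[19,13,2,1,7,18]),(7,[21,18,6,1,8,20]),(8,[20,7,1,11,22])], [14,16,15,17,10,9,11,22,20,21,18,19,13,12], [(5,10),(4,14),(4,15),(4,0)]⟩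
def c431 : RawB s431 := raw1 s431 (nat_lit 12) [⟨0,1,2,2,2,6,false,false⟩,⟨0,2,2,6,6,1,false,false⟩,⟨2,3,6,1,1,7,false,false⟩,⟨0,5,2,1,1,0,false,false⟩,⟨0,4,2,0,0,3,false,false⟩,⟨5,6,1,0,0,9,false,false⟩,⟨5,7,1,9,9,11,false,false⟩,⟨3,5,7,1,11,8,false,false⟩,⟨6,8,0,9,9,10,false,false⟩,⟨6,9,0,10,10,5,false,false⟩,⟨4,6,3,0,5,4,false,false⟩,⟨9,10,10,5,5,17,false,false⟩,⟨6,10,4,5,17,15,false,false⟩,⟨6,11,4,15,15,16,false,false⟩,⟨4,6,3,4,16,14,false,true⟩,⟨0,4,2,3,14,12,false,true⟩,⟨1,0,6,2,12,13,false,false⟩,⟨5,6,8,11,11,22,false,false⟩,⟨3,5,7,8,22,20,false,false⟩,⟨3,4,7,20,20,21,false,false⟩,⟨2,3,6,7,21,18,false,false⟩,⟨1,2,13,6,18,19,false,false⟩] (nat_lit 16) (nat_lit 21845) (by decide +kernel)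
noncomputable def s432 : Raw := ⟨[(0,[8,1,2,3,4,5,9]),(1,[10,6,2,0,8,11]),(2,[12,3,0,1,6,7]),(3,[13,4,0,2,12]),(4,[14,5,0,3,13,15]),(5,[16,9,0,4,14]),(6,[17,7,2,1,10,18]),(7,[19,12,2,6,17])], [11,10,18,17,19,12,13,15,14,16,9,8], [(0,3),(3,12),(1,8),(1,10)]⟩
def c432 : RawB s432 := raw1 s432 (nat_lit 10) [⟨0,1,0,0,0,4,false,false⟩,⟨0,2,0,4,4,3,false,false⟩,⟨2,3,4,3,3,13,false,false⟩,⟨0,5,0,3,3,2,false,false⟩,⟨0,4,0,2,2,1,false,false⟩,⟨5,6,3,2,2,12,false,false⟩,⟨5,3,12,3,13,13,false,false⟩,⟨0,3,0,1,1,8,false,false⟩,⟨6,7,12,2,2,7,false,false⟩,⟨4,7,1,2,7,6,false,false⟩,⟨4,8,1,6,6,10,false,false⟩,⟨3,4,8,1,10,11,true,true⟩,⟨2,4,4,13,13,15,false,false⟩,⟨2,3,4,15,15,14,false,false⟩,⟨1,2,0,4,14,5,false,false⟩,⟨8,9,6,10,10,18,false,false⟩,⟨7,8,7,6,18,17,false,false⟩,⟨6,7,12,7,17,19,false,false⟩,⟨1,0,5,0,8,9,false,false⟩,⟨1,2,9,5,14,16,false,false⟩]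 (nat_lit 7) (nat_lit 85) (by decide +kernel)
noncomputable def s433 : Raw := ⟨[(0,[8,1,2,3,4,9]),(1,[10,5,2,0,8,11]),(2,[12,3,0,1,5,13]),(3,[14,6,4,0,2,12,15]),(4,[9,0,3,6,7]),(5,[13,2,1,10,16]),(6,[17,7,4,3,14,18]),(7,[19,9,4,6,17])], [15,14,18,17,19,9,8,11,10,16,13,12], [(1,8),(1,10),(1,2)]⟩
def c433 : RawB s433 := raw1 s433 (nat_lit 10) [⟨0,1,1,1,1,2,false,false⟩,⟨0,2,2,1,1,0,false,false⟩,⟨0,4,2,0,0,3,false,false⟩,⟨0,3,2,3,3,12,false,false⟩,⟨4,5,3,0,0,4,false,false⟩,⟨5,6,0,4,4,9,false,false⟩,⟨2,5,1,0,9,8,false,false⟩,⟨6,7,9,4,4,7,false,false⟩,⟨4,7,3,4,7,6,false,false⟩,⟨4,8,3,6,6,14,false,false⟩,⟨3,4,12,3,14,15,true,true⟩,⟨2,4,1,8,8,11,false,false⟩,⟨2,3,1,11,11,10,false,false⟩,⟨1,2,2,1,10,5,false,false⟩,⟨8,9,6,14,14,18,false,false⟩,⟨7,8,7,6,18,17,false,false⟩,⟨6,7,9,7,17,19,false,false⟩,⟨1,0,5,2,12,13,false,false⟩,⟨2,1,10,5,13,16,false,false⟩]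 (nat_lit 8) (nat_lit 85) (by decide +kernel)
noncomputable def s434 : Raw := ⟨[(0,[11,9,1,2,3,4,10]),(1,[12,5,2,0,9,13]),(2,[14,3,0,1,5]),(3,[15,6,4,0,2,14]),(4,[10,0,3,6,7,8]),(5,[14,2,1,12,16]),(6,[17,7,4,3,15,18]),(7,[19,8,4,6,17,20]),(8,[21,10,4,7,19])], [12,16,14,15,18,17,20,19,21,10,11,9,13], [(4,10),(6,15),(6,17),(4,7)]⟩
def c434 : RawB s434 := raw1 s434 (nat_lit 11) [⟨0,1,0,0,0,11,false,false⟩,⟨0,2,0,11,11,10,false,false⟩,⟨0,3,0,10,10,4,false,false⟩,⟨3,4,10,4,4,8,false,false⟩,⟨0,5,0,4,4,3,false,false⟩,⟨0,6,0,3,3,2,false,false⟩,⟨6,7,2,3,3,14,false,false⟩,⟨6,8,2,14,14,5,false,false⟩,⟨0,6,0,2,5,1,false,false⟩,⟨7,9,3,14,14,15,false,false⟩,⟨5,7,4,3,15,6,false,false⟩,⟨5,4,6,4,8,7,false,false⟩,⟨0,1,1,0,11,9,false,false⟩,⟨8,10,5,14,14,16,false,false⟩,⟨6,8,1,5,16,12,false,true⟩,⟨0,6,9,1,12,13,false,true⟩,⟨7,8,6,15,15,18,false,false⟩,⟨5,7,7,6,18,17,false,false⟩,⟨5,6,7,17,17,20,false,false⟩,⟨4,5,8,7,20,19,false,false⟩,⟨3,4,10,8,19,21,false,false⟩]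 (nat_lit 8) (nat_lit 85) (by decide +kernel)
noncomputable def s435 : Raw := ⟨[(0,[8,1,2,3,4,9]),(1,[10,7,6,5,2,0,8]),(2,[11,3,0,1,5,12]),(3,[13,4,0,2,11,14]),(4,[15,9,0,3,13]),(5,[12,2,1,6,16]),(6,[18,16,5,1,7,17]),(7,[17,6,1,10,19])], [18,16,12,11,14,13,15,9,8,10,19,17], [(3,11),(3,13),(3,0),(5,16)]⟩
def c435 : RawB s435 := raw1 s435 (nat_lit 10) [⟨0,1,17,17,17,18,false,true⟩,⟨0,1,17,18,18,6,false,false⟩,⟨0,2,17,6,6,7,false,false⟩,⟨1,3,18,6,6,16,true,false⟩,⟨0,1,17,7,7,19,false,false⟩,⟨2,4,7,6,6,1,false,false⟩,⟨2,1,1,7,19,10,false,false⟩,⟨3,6,6,16,16,5,false,false⟩,⟨3,4,5,6,1,1,false,false⟩,⟨6,9,5,16,16,12,false,false⟩,⟨3,6,1,5,12,2,false,false⟩,⟨3,4,1,2,2,0,false,false⟩,⟨3,2,0,1,10,8,false,false⟩,⟨6,8,2,12,12,11,false,false⟩,⟨4,6,0,2,11,3,false,false⟩,⟨4,5,0,3,3,4,false,false⟩,⟨4,3,4,0,8,9,false,false⟩,⟨6,7,3,11,11,14,false,false⟩,⟨5,6,4,3,14,13,false,false⟩,⟨4,5,9,4,13,15,false,false⟩]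 (nat_lit 9) (nat_lit 341) (by decide +kernel)
noncomputable def s436 : Raw := ⟨[(0,[13,11,1,2,3,4,5,12]),(1,[14,6,2,0,11,15]),(2,[9,7,3,0,1,6,8]),(3,[10,4,0,2,7]),(4,[16,5,0,3,10]),(5,[17,12,0,4,16]),(6,[18,8,2,1,14,19]),(7,[21,10,3,2,9,20]),(8,[22,9,2,6,18,23]),(9,[20,7,2,8,22]),(10,[16,4,3,7,21])], [16,17,12,13,11,15,14,19,18,23,22,20,21], [(6,14),(6,18),(2,6),(8,23)]⟩
def c436 : RawB s436 := raw1 s436 (nat_lit 11) [⟨0,1,7,7,7,9,false,false⟩,⟨0,2,7,9,9,2,false,false⟩,⟨2,3,9,2,2,8,false,false⟩,⟨0,4,7,2,2,3,false,false⟩,⟨4,5,2,3,3,0,false,false⟩,⟨4,6,2,0,0,1,false,false⟩,⟨4,3,1,2,8,6,false,false⟩,⟨0,7,7,3,3,10,false,false⟩,⟨5,7,0,3,10,4,false,false⟩,⟨5,8,4,0,0,5,false,false⟩,⟨5,7,5,4,10,16,false,false⟩,⟨0,7,7,10,16,21,false,true⟩,⟨1,0,9,7,21,20,false,false⟩,⟨2,1,8,9,20,22,false,false⟩,⟨5,10,16,5,5,17,true,false⟩,⟨8,10,0,5,17,12,false,false⟩,⟨8,9,0,12,12,13,false,false⟩,⟨6,8,1,0,13,11,false,false⟩,⟨6,7,1,11,11,15,false,false⟩,⟨4,6,6,1,15,14,false,false⟩,⟨4,5,6,14,14,19,false,false⟩,⟨3,4,8,6,19,18,false,false⟩,⟨3,2,18,8,22,23,false,false⟩]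 (nat_lit 5) (nat_lit 10) (by decide +kernel)
noncomputable def s437 : Raw := ⟨[(0,[12,1,2,3,4,5,6]),(1,[13,7,2,0,12]),(2,[8,3,0,1,7]),(3,[11,9,4,0,2,8,10]),(4,[16,14,5,0,3,9,15]),(5,[17,6,0,4,14,18]),(6,[19,12,0,5,17]),(7,[20,8,2,1,13]),(8,[21,10,3,2,7,20]),(9,[23,15,4,3,11,22]),(10,[24,11,3,8,21]),(11,[25,22,9,3,10,24])], [17,19,12,13,20,21,24,25,22,23,15,16,14,18], [(1,12),(7,8)]⟩
def c437 : RawB s437 := raw1 s437 (nat_lit 12) [⟨0,1,9,9,9,11,false,false⟩,⟨0,2,11,9,9,3,false,false⟩,⟨1,3,11,9,9,22,false,false⟩,⟨0,4,3,11,11,10,false,false⟩,⟨1,5,11,22,22,25,false,false⟩,⟨1,6,11,25,25,24,false,false⟩,⟨4,1,10,11,24,24,false,false⟩,⟨4,7,10,24,24,21,false,false⟩,⟨0,4,3,10,21,8,false,false⟩,⟨0,1,3,8,8,2,false,false⟩,⟨4,8,8,21,21,20,false,false⟩,⟨4,9,8,20,20,7,false,false⟩,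⟨1,4,2,8,7,7,false,false⟩,⟨9,10,20,7,7,13,false,false⟩,⟨1,10,2,7,13,1,false,false⟩,⟨1,0,1,2,3,0,false,false⟩,⟨1,10,0,1,13,12,false,false⟩,⟨0,2,0,3,9,4,false,false⟩,⟨1,4,12,0,0,6,false,false⟩,⟨0,4,4,0,6,5,false,false⟩,⟨1,11,6,12,12,19,false,false⟩,⟨4,1,5,6,19,17,false,true⟩,⟨0,1,5,4,4,14,false,false⟩,⟨0,4,14,5,17,18,false,true⟩,⟨3,4,9,22,22,23,false,false⟩,⟨2,3,4,9,23,15,false,false⟩,⟨1,2,14,4,15,16,false,false⟩] (nat_lit 6) (nat_lit 42) (by decide +kernel)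
noncomputable def s438 : Raw := ⟨[(0,[13,11,1,2,3,4,5,12]),(1,[14,6,2,0,11]),(2,[7,3,0,1,6]),(3,[10,8,4,0,2,7,9]),(4,[17,15,5,0,3,8,16]),(5,[18,12,0,4,15]),(6,[19,7,2,1,14]),(7,[20,9,3,2,6,19]),(8,[22,16,4,3,10,21]),(9,[23,10,3,7,20]),(10,[24,21,8,3,9,23])], [15,18,12,13,11,14,19,20,23,24,21,22,16,17], [(3,7),(7,19)]⟩
def c438 : RawB s438 := raw1 s438 (nat_lit 12) [⟨0,1,3,3,3,8,false,false⟩,⟨0,2,3,8,8,10,false,false⟩,⟨0,3,3,10,10,9,false,false⟩,⟨3,4,10,9,9,23,false,false⟩,⟨4,5,9,23,23,20,false,false⟩,⟨0,4,3,9,20,7,false,false⟩,⟨4,6,7,20,20,19,false,false⟩,⟨4,7,7,19,19,6,false,false⟩,⟨0,4,3,7,6,2,false,false⟩,⟨7,8,19,6,6,14,false,false⟩,⟨4,8,2,6,14,1,false,false⟩,⟨4,0,1,2,3,0,false,false⟩,⟨4,8,0,1,14,11,false,false⟩,⟨0,1,0,3,8,4,false,false⟩,⟨4,9,0,11,11,13,false,false⟩,⟨4,10,0,13,13,12,false,false⟩,⟨0,4,4,0,12,5,false,false⟩,⟨4,11,5,12,12,18,false,false⟩,⟨0,4,4,5,18,15,false,true⟩,⟨0,4,4,15,15,17,false,true⟩,⟨1,0,8,4,17,16,false,false⟩,⟨3,4,10,23,23,24,false,false⟩,⟨2,3,8,10,24,21,false,false⟩,⟨1,2,16,8,21,22,false,false⟩]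 (nat_lit 7) (nat_lit 85) (by decide +kernel)
noncomputable def s439 : Raw := ⟨[(0,[11,9,1,2,3,4,5,10]),(1,[7,6,2,0,9]),(2,[12,3,0,1,6,8,13]),(3,[14,4,0,2,12,15]),(4,[16,5,0,3,14,17]),(5,[18,10,0,4,16]),(6,[20,8,2,1,7,19]),(7,[19,6,1,9,21]),(8,[22,13,2,6,20])], [15,14,17,16,18,10,11,9,21,19,20,22,13,12], [(0,3),(3,12),(3,14),(8,20)]⟩
def c439 : RawB s439 := raw1 s439 (nat_lit 12) [⟨0,1,2,2,2,6,false,false⟩,⟨0,2,2,6,6,1,false,false⟩,⟨2,3,6,1,1,7,false,false⟩,⟨3,4,1,7,7,9,false,false⟩,⟨0,3,2,1,9,0,false,false⟩,⟨4,5,7,9,9,21,false,false⟩,⟨2,4,6,7,21,19,false,false⟩,⟨3,6,0,9,9,11,false,false⟩,⟨3,7,0,11,11,10,false,false⟩,⟨3,8,0,10,10,5,false,false⟩,⟨3,9,0,5,5,4,false,false⟩,⟨0,3,2,0,4,3,false,false⟩,⟨3,10,3,4,4,14,false,false⟩,⟨3,11,3,14,14,15,false,true⟩,⟨0,3,2,3,15,12,false,true⟩,⟨2,3,6,19,19,20,false,false⟩,⟨10,11,4,14,14,17,false,false⟩,⟨9,10,5,4,17,16,false,false⟩,⟨8,9,10,5,16,18,false,false⟩,⟨1,2,2,6,20,8,false,false⟩,⟨1,0,8,2,12,13,false,false⟩,⟨1,2,13,8,20,22,false,false⟩]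 (nat_lit 16) (nat_lit 43690) (by decide +kernel)
noncomputable def s440 : Raw := ⟨[(0,[9,1,2,3,4,5,10]),(1,[11,6,2,0,9,12]),(2,[13,3,0,1,6,7,8]),(3,[14,4,0,2,13]),(4,[15,5,0,3,14,16]),(5,[17,10,0,4,15]),(6,[18,7,2,1,11,19]),(7,[20,8,2,6,18,21]),(8,[22,13,2,7,20])], [11,19,18,21,20,22,13,14,16,15,17,10,9,12], [(5,15),(5,0),(0,3),(3,14)]⟩
def c440 : RawB s440 := raw1 s440 (nat_lit 12) [⟨0,1,0,0,0,9,false,false⟩,⟨0,2,9,0,0,1,false,false⟩,⟨2,3,0,1,1,2,false,false⟩,⟨2,4,0,2,2,3,false,false⟩,⟨4,5,3,2,2,13,false,false⟩,⟨4,6,3,13,13,14,false,false⟩,⟨2,4,0,3,14,4,false,false⟩,⟨5,7,2,13,13,8,false,false⟩,⟨5,8,2,8,8,7,false,false⟩,⟨3,5,1,2,7,6,false,false⟩,⟨8,9,8,7,7,20,false,false⟩,⟨7,8,13,8,20,22,false,false⟩,⟨9,10,20,7,7,21,false,false⟩,⟨5,10,6,7,21,18,false,false⟩,⟨5,11,6,18,18,19,false,false⟩,⟨3,5,1,6,19,11,false,true⟩,⟨0,3,9,1,11,12,false,true⟩,⟨2,3,0,4,4,5,false,false⟩,⟨2,1,5,0,9,10,false,false⟩,⟨4,5,4,14,14,16,false,false⟩,⟨3,4,5,4,16,15,false,false⟩,⟨2,3,10,5,15,17,false,false⟩]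 (nat_lit 16) (nat_lit 43690) (by decide +kernel)
noncomputable def s441 : Raw := ⟨[(0,[10,8,1,2,3,4,5,9]),(1,[11,6,2,0,8]),(2,[7,3,0,1,6]),(3,[14,12,4,0,2,7,13]),(4,[15,5,0,3,12,16]),(5,[17,9,0,4,15]),(6,[18,7,2,1,11]),(7,[19,13,3,2,6,18])], [14,12,16,15,17,9,10,8,11,18,19,13], [(0,3),(3,13),(3,12),(1,6)]⟩
def c441 : RawB s441 := raw1 s441 (nat_lit 10) [⟨0,1,1,1,1,6,false,false⟩,⟨0,2,1,6,6,11,false,false⟩,⟨0,3,1,11,11,8,false,false⟩,⟨0,4,1,8,8,0,false,false⟩,⟨0,1,0,1,6,2,false,false⟩,⟨0,5,2,0,0,3,false,false⟩,⟨0,1,3,2,6,7,false,false⟩,⟨1,2,7,6,11,18,false,false⟩,⟨0,6,7,3,3,13,false,false⟩,⟨0,1,13,7,18,19,false,false⟩,⟨6,7,3,13,13,14,false,true⟩,⟨6,7,3,14,14,12,false,true⟩,⟨5,6,0,3,12,4,false,false⟩,⟨6,9,4,12,12,16,false,false⟩,⟨6,8,4,16,16,15,false,false⟩,⟨5,6,0,4,15,5,false,false⟩,⟨6,7,5,15,15,17,false,false⟩,⟨5,6,0,5,17,9,false,false⟩,⟨4,5,8,0,9,10,false,false⟩]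 (nat_lit 16) (nat_lit 43690) (by decide +kernel)
noncomputable def s442 : Raw := ⟨[(0,[7,6,5,4,1,2,9]),(1,[10,3,2,0,4]),(2,[12,9,0,1,3,11]),(3,[11,2,1,10,13]),(5,[14,4,0,6,15]),(6,[15,5,0,7,8,16]),(7,[17,8,6,0,9,18]),(8,[19,16,6,7,17])], [10,13,11,12,9,18,17,19,16,15,14,4], [(3,13),(0,9),(0,4),(0,6)]⟩
def c442 : RawB s442 := raw1 s442 (nat_lit 10) [⟨0,1,5,5,5,6,false,false⟩,⟨0,2,5,6,6,0,false,false⟩,⟨0,3,5,0,0,4,false,false⟩,⟨2,5,6,0,0,7,false,false⟩,⟨2,4,6,7,7,8,false,false⟩,⟨3,6,4,0,0,1,false,false⟩,⟨5,7,7,0,0,9,false,false⟩,⟨6,7,1,0,9,2,false,false⟩,⟨6,8,1,2,2,3,false,false⟩,⟨6,3,3,1,4,10,false,true⟩,⟨2,3,6,8,8,16,false,false⟩,⟨6,9,10,3,3,13,true,false⟩,⟨8,9,2,3,13,11,false,false⟩,⟨7,8,9,2,11,12,false,false⟩,⟨1,2,5,6,16,15,false,false⟩,⟨0,1,4,5,15,14,false,false⟩,⟨5,6,7,9,9,18,false,false⟩,⟨4,5,8,7,18,17,false,false⟩,⟨3,4,16,8,17,19,false,false⟩]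 (nat_lit 11) (nat_lit 1365) (by decide +kernel)
end Pool.Agent.FCT.R
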