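import Pool.Agent.Lib.MP_fe5cb4_co.FC.RawDef
set_option linter.defProp false
namespace Pool.Agent.FCT.R
open Pool.Agent.Lib.MP_fe5cb4_co.FC
noncomputable def s452 : Raw := ⟨[(0,[9,1,2,3,4,10]),(1,[11,2,0,9,12]),(2,[13,5,3,0,1,11,14]),(3,[8,6,4,0,2,5,7]),(4,[16,10,0,3,6,15]),(5,[17,7,3,2,13,18]),(6,[20,15,4,3,8,19]),(7,[21,8,3,5,17,22]),(8,[19,6,3,7,21])], [9,12,11,14,13,18,17,22,21,19,20,15,16,10], [(0,3),(5,13),(5,17),(3,8)]⟩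
def c452 : RawB s452 := raw1 s452 (nat_lit 12) [⟨0,1,4,4,4,6,false,false⟩,⟨0,2,4,6,6,3,false,false⟩,⟨0,3,4,3,3,0,false,false⟩,⟨2,4,6,3,3,8,false,false⟩,⟨4,5,8,3,3,7,false,false⟩,⟨5,6,7,3,3,5,false,false⟩,⟨3,6,0,3,5,2,false,false⟩,⟨6,7,2,5,5,13,false,false⟩,⟨7,8,5,13,13,18,false,false⟩,⟨5,7,7,5,18,17,false,false⟩,⟨6,9,2,13,13,14,false,false⟩,⟨6,10,2,14,14,11,false,false⟩,⟨3,6,0,2,11,1,false,false⟩,⟨6,11,1,11,11,12,false,false⟩,⟨3,6,0,1,12,9,false,true⟩,⟨0,3,4,0,9,10,false,true⟩,⟨5,6,7,17,17,22,false,false⟩,⟨4,5,8,7,22,21,false,false⟩,⟨2,4,6,8,21,19,false,false⟩,⟨2,3,6,19,19,20,false,false⟩,⟨1,2,4,6,20,15,false,false⟩,⟨0,1,10,4,15,16,false,false⟩] (nat_lit 14) (nat_lit 10922) (by decide +kernel)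
noncomputable def s453 : Raw := ⟨[(0,[9,1,2,3,4,10]),(1,[11,5,2,0,9,12]),(2,[13,3,0,1,5,14]),(3,[15,7,6,4,0,2,13]),(4,[10,0,3,6,8]),(5,[14,2,1,11,16]),(6,[18,8,4,3,7,17,19]),(7,[17,6,3,15,20]),(8,[21,10,4,6,18])], [14,13,15,20,17,19,18,21,10,9,12,11,16], [(2,0),(0,9),(3,4),(4,10)]⟩
def c453 : RawB s453 := raw1 s453 (nat_lit 11) [⟨0,1,1,1,1,11,false,false⟩,⟨0,2,11,1,1,5,false,false⟩,⟨2,3,1,5,5,2,false,false⟩,⟨2,4,1,2,2,0,false,false⟩,⟨3,5,5,2,2,14,false,false⟩,⟨0,3,11,5,14,16,false,true⟩,⟨2,3,1,0,0,9,false,false⟩,⟨2,1,9,1,11,12,false,false⟩,⟨5,8,14,2,2,13,true,false⟩,⟨4,8,0,2,13,3,false,false⟩,⟨4,5,0,3,3,4,false,false⟩,⟨4,3,4,0,9,10,false,false⟩,⟨5,6,4,3,3,6,false,false⟩,⟨5,4,6,4,10,8,false,false⟩,⟨8,10,3,13,13,15,false,false⟩,⟨6,8,6,3,15,7,false,false⟩,⟨8,9,7,15,15,20,false,false⟩,⟨6,8,6,7,20,17,false,false⟩,⟨6,7,6,17,17,19,false,false⟩,⟨5,6,8,6,19,18,false,false⟩,⟨4,5,10,8,18,21,false,false⟩]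 (nat_lit 8) (nat_lit 170) (by decide +kernel)
noncomputable def s454 : Raw := ⟨[(0,[8,1,2,3,4,9]),(1,[10,6,5,2,0,8,11]),(2,[14,12,3,0,1,5,7,13]),(3,[15,4,0,2,12]),(4,[16,9,0,3,15]),(5,[18,7,2,1,6,17]),(6,[17,5,1,10,19]),(7,[20,13,2,5,18])], [13,14,12,15,16,9,8,11,10,19,17,18,20], [(4,16),(3,15),(0,8),(0,2)]⟩
def c454 : RawB s454 := raw1 s454 (nat_lit 11) [⟨0,1,5,5,5,7,false,false⟩,⟨0,2,7,5,5,2,false,false⟩,⟨2,3,5,2,2,1,false,false⟩,⟨3,4,2,1,1,0,false,false⟩,⟨4,5,1,0,0,8,false,false⟩,⟨5,6,0,8,8,9,false,false⟩,⟨5,7,0,9,9,4,false,false⟩,⟨3,5,2,0,4,3,false,false⟩,⟨7,8,9,4,4,16,false,false⟩,⟨5,8,3,4,16,15,false,false⟩,⟨5,9,3,15,15,12,false,false⟩,⟨3,5,2,3,12,12,false,false⟩,⟨3,10,2,12,12,14,false,false⟩,⟨0,3,7,2,14,13,false,true⟩,⟨0,3,7,13,13,20,false,true⟩,⟨1,0,5,7,20,18,false,false⟩,⟨2,3,5,1,1,6,false,false⟩,⟨2,1,6,5,18,17,false,false⟩,⟨4,5,1,8,8,11,false,false⟩,⟨3,4,6,1,11,10,false,false⟩,⟨3,2,10,6,17,19,false,false⟩]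 (nat_lit 22) (nat_lit 1398101) (by decide +kernel)
noncomputable def s455 : Raw := ⟨[(0,[8,7,6,5,1,2,3,10]),(1,[11,4,2,0,5,12]),(2,[13,3,0,1,4,14]),(3,[15,10,0,2,13]),(4,[14,2,1,11,16]),(6,[17,5,0,7,9,18]),(7,[9,6,0,8,19]),(8,[19,7,0,10,20]),(9,[21,18,6,7,19])], [13,15,10,20,19,21,18,17,5,12,11,16,14], [(2,0),(0,5),(0,8),(9,18)]⟩
def c455 : RawB s455 := raw1 s455 (nat_lit 11) [⟨0,1,0,0,0,5,false,false⟩,⟨0,2,0,5,5,1,false,false⟩,⟨1,3,0,5,5,6,false,false⟩,⟨3,4,6,5,5,17,false,false⟩,⟨3,5,6,17,17,18,false,false⟩,⟨3,6,6,18,18,9,false,false⟩,⟨1,3,0,6,9,7,false,false⟩,⟨6,7,18,9,9,21,false,false⟩,⟨3,7,7,9,21,19,false,false⟩,⟨3,8,7,19,19,8,false,false⟩,⟨1,3,0,7,8,8,false,false⟩,⟨0,3,1,0,0,2,false,false⟩,⟨8,9,19,8,8,20,false,false⟩,⟨1,9,0,8,20,10,false,false⟩,⟨3,1,2,0,10,3,false,false⟩,⟨1,10,3,10,10,15,false,false⟩,⟨3,1,2,3,15,13,false,true⟩,⟨0,1,2,1,1,4,false,false⟩,⟨0,3,4,2,13,14,false,true⟩,⟨2,3,1,5,5,12,false,false⟩,⟨1,2,4,1,12,11,false,false⟩,⟨1,0,11,4,14,16,false,false⟩]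 (nat_lit 11) (nat_lit 1365) (by decide +kernel)
noncomputable def s456 : Raw := ⟨[(0,[9,7,1,2,3,8]),(1,[10,2,0,7,11]),(2,[12,4,3,0,1,10]),(3,[8,0,2,4,5,6]),(4,[13,5,3,2,12,14]),(5,[15,6,3,4,13,16]),(6,[17,8,3,5,15])], [8,9,7,11,10,12,14,13,16,15,17], [(1,2),(4,12),(4,13),(3,4)]⟩
def c456 : RawB s456 := raw1 s456 (nat_lit 9) [⟨0,1,5,5,5,6,false,false⟩,⟨0,2,6,5,5,3,false,false⟩,⟨2,4,5,3,3,4,false,false⟩,⟨2,3,5,4,4,13,false,false⟩,⟨0,5,6,3,3,8,false,false⟩,⟨0,6,6,8,8,17,false,true⟩,⟨5,6,8,3,3,0,false,false⟩,⟨6,4,0,3,4,2,false,false⟩,⟨5,7,8,0,0,9,true,false⟩,⟨4,5,4,2,2,12,false,false⟩,⟨7,8,0,9,9,7,false,false⟩,⟨6,7,2,0,7,1,false,false⟩,⟨6,5,1,2,12,10,false,false⟩,⟨7,6,7,1,10,11,false,false⟩,⟨4,3,12,4,13,14,false,false⟩,⟨1,0,5,6,17,15,false,false⟩,⟨2,1,13,5,15,16,false,false⟩]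 (nat_lit 7) (nat_lit 42) (by decide +kernel)
noncomputable def s457 : Raw := ⟨[(0,[8,1,2,3,4,9]),(1,[7,6,5,2,0,8]),(2,[10,3,0,1,5,11]),(3,[12,4,0,2,10,13]),(4,[14,9,0,3,12]),(5,[16,11,2,1,6,15]),(6,[18,15,5,1,7,17]),(7,[17,6,1,8,19])], [18,15,16,11,10,13,12,14,9,8,19,17], [(4,12),(1,8),(2,1),(1,6)]⟩
def c457 : RawB s457 := raw1 s457 (nat_lit 10) [⟨0,1,7,7,7,8,false,false⟩,⟨0,2,7,8,8,1,false,false⟩,⟨2,3,8,1,1,0,false,false⟩,⟨0,4,7,1,1,6,false,false⟩,⟨4,5,6,1,1,5,false,false⟩,⟨3,5,0,1,5,2,false,false⟩,⟨0,6,7,6,6,17,false,false⟩,⟨1,0,8,7,17,19,false,false⟩,⟨4,8,6,5,5,15,false,false⟩,⟨4,6,15,6,17,18,true,true⟩,⟨8,9,5,15,15,16,false,false⟩,⟨5,8,2,5,16,11,false,false⟩,⟨5,7,2,11,11,10,false,false⟩,⟨3,5,0,2,10,3,false,false⟩,⟨3,4,0,3,3,4,false,false⟩,⟨3,2,4,0,8,9,false,false⟩,⟨5,6,3,10,10,13,false,false⟩,⟨4,5,4,3,13,12,false,false⟩,⟨3,4,9,4,12,14,false,false⟩]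 (nat_lit 7) (nat_lit 85) (by decide +kernel)
noncomputable def s458 : Raw := ⟨[(0,[9,1,2,3,4,5]),(1,[7,6,2,0,9]),(2,[10,3,0,1,6,8,11]),(3,[12,4,0,2,10,13]),(4,[14,5,0,3,12,15]),(5,[16,9,0,4,14]),(6,[18,8,2,1,7,17,19]),(7,[17,6,1,9,20]),(8,[21,11,2,6,18])], [14,16,9,20,17,19,18,21,11,10,13,12,15], [(0,9),(0,2),(6,17),(2,6)]⟩
def c458 : RawB s458 := raw1 s458 (nat_lit 11) [⟨0,1,3,3,3,13,false,false⟩,⟨0,2,3,13,13,10,false,false⟩,⟨0,3,3,10,10,2,false,false⟩,⟨0,4,3,2,2,0,false,false⟩,⟨0,5,3,0,0,4,false,false⟩,⟨0,1,4,3,13,12,false,false⟩,⟨5,6,4,0,0,5,false,false⟩,⟨6,7,0,5,5,9,false,false⟩,⟨4,6,2,0,9,1,false,false⟩,⟨6,8,1,9,9,7,false,false⟩,⟨4,6,2,1,7,6,false,false⟩,⟨8,9,7,9,9,20,false,false⟩,⟨6,8,6,7,20,17,false,false⟩,⟨7,10,5,9,9,16,false,false⟩,⟨5,7,4,5,16,14,false,true⟩,⟨0,5,12,4,14,15,false,true⟩,⟨4,5,2,6,6,8,false,false⟩,⟨4,3,8,2,10,11,false,false⟩,⟨6,7,6,17,17,19,false,false⟩,⟨5,6,8,6,19,18,false,false⟩,⟨4,5,11,8,18,21,false,false⟩]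 (nat_lit 9) (nat_lit 170) (by decide +kernel)
noncomputable def s459 : Raw := ⟨[(0,[7,1,2,3,4,8]),(1,[9,6,5,2,0,7]),(2,[12,10,3,0,1,5,11]),(3,[13,4,0,2,10]),(4,[14,8,0,3,13]),(5,[16,11,2,1,6,15]),(6,[15,5,1,9,17])], [11,12,10,13,14,8,7,9,17,15,16], [(4,14),(3,13),(0,7),(0,2)]⟩
def c459 : RawB s459 := raw1 s459 (nat_lit 9) [⟨0,1,1,1,1,5,false,false⟩,⟨0,2,5,1,1,2,false,false⟩,⟨2,3,1,2,2,0,false,false⟩,⟨2,4,1,0,0,7,false,false⟩,⟨4,5,7,0,0,8,false,false⟩,⟨5,6,8,0,0,4,false,false⟩,⟨3,6,2,0,4,3,false,false⟩,⟨6,7,4,3,3,13,false,false⟩,⟨5,6,8,4,13,14,false,false⟩,⟨3,7,2,3,13,10,false,false⟩,⟨3,8,2,10,10,12,false,false⟩,⟨0,3,5,2,12,11,false,true⟩,⟨0,3,5,11,11,16,false,true⟩,⟨2,3,1,7,7,9,false,false⟩,⟨1,2,5,1,9,6,false,false⟩,⟨1,0,6,5,16,15,false,false⟩,⟨2,1,9,6,15,17,false,false⟩]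 (nat_lit 8) (nat_lit 85) (by decide +kernel)
noncomputable def s460 : Raw := ⟨[(0,[11,9,1,2,3,4,5,10]),(1,[12,8,7,6,2,0,9]),(2,[13,3,0,1,6,14]),(3,[15,4,0,2,13]),(4,[16,5,0,3,15]),(5,[17,10,0,4,16]),(6,[19,14,2,1,7,18]),(7,[21,18,6,1,8,20]),(8,[20,7,1,12,22])], [16,17,10,11,9,12,22,20,21,18,19,14,13,15], [(5,16),(5,10),(1,2),(2,14)]⟩
def c460 : RawB s460 := raw1 s460 (nat_lit 12) [⟨0,1,2,2,2,14,false,false⟩,⟨0,2,2,14,14,6,false,false⟩,⟨0,3,2,6,6,1,false,false⟩,⟨0,4,2,1,1,0,false,false⟩,⟨0,5,2,0,0,3,false,false⟩,⟨0,1,3,2,14,13,false,false⟩,⟨0,6,13,3,3,15,false,false⟩,⟨5,6,0,3,15,4,false,false⟩,⟨4,9,1,0,0,9,false,false⟩,⟨4,8,1,9,9,12,false,false⟩,⟨5,10,4,0,0,5,false,false⟩,⟨5,6,5,4,15,16,false,true⟩,⟨5,11,16,5,5,17,true,false⟩,⟨10,11,0,5,17,10,false,false⟩,⟨9,10,9,0,10,11,false,false⟩,⟨4,6,1,12,12,8,false,false⟩,⟨3,4,6,1,8,7,false,false⟩,⟨6,7,8,12,12,22,false,false⟩,⟨4,6,7,8,22,20,false,false⟩,⟨4,5,7,20,20,21,false,false⟩,⟨3,4,6,7,21,18,false,false⟩,⟨2,3,14,6,18,19,false,false⟩]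 (nat_lit 17) (nat_lit 87381) (by decide +kernel)
noncomputable def s461 : Raw := ⟨[(0,[8,1,2,3,4,9]),(1,[10,6,5,2,0,8]),(2,[11,3,0,1,5,7,12]),(3,[13,4,0,2,11,14]),(4,[15,9,0,3,13]),(5,[17,7,2,1,6,16,18]),(6,[16,5,1,10,19]),(7,[20,12,2,5,17])], [11,14,13,15,9,8,10,19,16,18,17,20,12], [(2,5),(5,16),(7,17),(7,12)]⟩
def c461 : RawB s461 := raw1 s461 (nat_lit 11) [⟨0,1,1,1,1,6,false,false⟩,⟨0,2,1,6,6,5,false,false⟩,⟨0,3,5,1,1,2,false,false⟩,⟨2,4,5,6,6,16,false,false⟩,⟨4,5,16,6,6,19,false,false⟩,⟨1,5,1,6,19,10,false,false⟩,⟨1,6,1,10,10,8,false,false⟩,⟨3,1,2,1,8,0,false,false⟩,⟨1,7,0,8,8,9,false,false⟩,⟨1,8,0,9,9,4,false,false⟩,⟨3,1,2,0,4,3,false,false⟩,⟨8,9,9,4,4,15,false,false⟩,⟨1,9,3,4,15,13,false,false⟩,⟨1,10,3,13,13,14,false,false⟩,⟨3,1,2,3,14,11,false,true⟩,⟨0,1,2,5,5,7,false,false⟩,⟨0,3,7,2,11,12,false,true⟩,⟨2,3,5,16,16,18,false,false⟩,⟨1,2,7,5,18,17,false,false⟩,⟨0,1,12,7,17,20,false,false⟩]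 (nat_lit 19) (nat_lit 349525) (by decide +kernel)
noncomputable def s462 : Raw := ⟨[(0,[8,1,2,3,4,5,9]),(1,[10,6,2,0,8]),(2,[13,11,3,0,1,6,12]),(3,[14,4,0,2,11,15]),(4,[16,7,5,0,3,14]),(5,[18,9,0,4,7,17]),(6,[12,2,1,10,19]),(7,[17,5,4,16,20])], [10,19,12,13,11,15,14,16,20,17,18,9,8], [(6,1),(1,8),(0,9),(0,3)]⟩
def c462 : RawB s462 := raw1 s462 (nat_lit 11) [⟨0,1,0,0,0,5,false,false⟩,⟨0,2,0,5,5,4,false,false⟩,⟨0,3,0,4,4,3,false,false⟩,⟨3,4,4,3,3,14,false,false⟩,⟨0,5,0,3,3,2,false,false⟩,⟨4,6,3,14,14,15,false,false⟩,⟨4,7,3,15,15,11,false,false⟩,⟨5,4,2,3,11,11,false,false⟩,⟨0,4,0,2,2,1,false,false⟩,⟨5,8,2,11,11,13,false,false⟩,⟨5,9,2,13,13,12,false,false⟩,⟨4,5,1,2,12,6,false,false⟩,⟨5,10,6,12,12,19,false,false⟩,⟨4,5,1,6,19,10,false,true⟩,⟨0,4,0,1,10,8,false,true⟩,⟨1,0,5,0,8,9,false,false⟩,⟨3,5,4,14,14,16,false,false⟩,⟨2,3,5,4,16,7,false,false⟩,⟨3,4,7,16,16,20,false,false⟩,⟨2,3,5,7,20,17,false,false⟩,⟨1,2,9,5,17,18,false,false⟩]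 (nat_lit 19) (nat_lit 174762) (by decide +kernel)
end Pool.Agent.FCT.R
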