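import Pool.Agent.Lib.MP_fe5cb4_co.FC.RawDef
set_option linter.defProp false
namespace Pool.Agent.FCT.R
open Pool.Agent.Lib.MP_fe5cb4_co.FC
noncomputable def s463 : Raw := ⟨[(0,[9,1,2,3,4,5,10]),(1,[11,6,2,0,9]),(2,[12,3,0,1,6,13]),(3,[14,4,0,2,12,15]),(4,[16,7,5,0,3,14]),(5,[18,10,0,4,7,8,17]),(6,[13,2,1,11,19]),(7,[20,8,5,4,16,21]),(8,[22,17,5,7,20])], [13,12,15,14,16,21,20,22,17,18,10,9,11,19], [(1,0),(3,12),(3,14),(0,3)]⟩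
def c463 : RawB s463 := raw1 s463 (nat_lit 12) [⟨0,1,1,1,1,9,false,false⟩,⟨0,2,1,9,9,0,false,false⟩,⟨2,3,9,0,0,10,false,false⟩,⟨3,4,10,0,0,5,false,false⟩,⟨0,5,1,0,0,2,false,false⟩,⟨0,6,1,2,2,6,false,false⟩,⟨0,1,6,1,9,11,false,false⟩,⟨5,7,0,2,2,3,false,false⟩,⟨5,4,3,0,5,4,false,false⟩,⟨7,10,2,3,3,12,false,false⟩,⟨6,7,6,2,12,13,false,true⟩,⟨0,6,11,6,13,19,false,true⟩,⟨10,11,3,12,12,15,false,false⟩,⟨5,10,4,3,15,14,false,false⟩,⟨5,9,4,14,14,16,false,false⟩,⟨4,5,5,4,16,7,false,false⟩,⟨5,8,7,16,16,21,false,false⟩,⟨5,7,7,21,21,20,false,false⟩,⟨4,5,5,7,20,8,false,false⟩,⟨5,6,8,20,20,22,false,false⟩,⟨4,5,5,8,22,17,false,false⟩,⟨3,4,10,5,17,18,false,false⟩] (nat_lit 14) (nat_lit 10922) (by decide +kernel)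
noncomputable def s464 : Raw := ⟨[(0,[9,1,2,3,4,5]),(1,[10,6,2,0,9,11]),(2,[12,7,3,0,1,6,8]),(3,[15,13,4,0,2,7,14]),(4,[16,5,0,3,13,17]),(5,[18,9,0,4,16]),(6,[19,8,2,1,10,20]),(7,[14,3,2,12,21]),(8,[22,12,2,6,19])], [18,9,11,10,20,19,22,12,21,14,15,13,17,16], [(5,18),(1,9),(1,10),(1,2)]⟩
def c464 : RawB s464 := raw1 s464 (nat_lit 12) [⟨0,1,2,2,2,7,false,false⟩,⟨0,2,2,7,7,3,false,false⟩,⟨1,4,2,7,7,12,false,false⟩,⟨1,3,12,2,2,8,false,false⟩,⟨4,5,7,12,12,21,false,false⟩,⟨2,4,3,7,21,14,false,false⟩,⟨1,6,8,12,12,22,false,false⟩,⟨1,7,8,22,22,19,false,false⟩,⟨1,8,8,19,19,6,false,false⟩,⟨3,1,2,8,6,6,false,false⟩,⟨3,9,2,6,6,1,false,false⟩,⟨3,0,1,2,3,0,false,false⟩,⟨0,1,0,3,3,4,false,false⟩,⟨3,10,0,1,1,9,false,false⟩,⟨0,3,4,0,9,5,false,false⟩,⟨3,11,5,9,9,18,false,true⟩,⟨0,3,4,5,18,16,false,true⟩,⟨2,3,3,14,14,15,false,false⟩,⟨10,11,1,9,9,11,false,false⟩,⟨9,10,6,1,11,10,false,false⟩,⟨9,8,10,6,19,20,false,false⟩,⟨1,2,4,3,15,13,false,false⟩,⟨1,0,13,4,16,17,false,false⟩]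 (nat_lit 16) (nat_lit 43690) (by decide +kernel)
noncomputable def s465 : Raw := ⟨[(0,[7,6,5,1,2,3,10]),(1,[11,4,2,0,5,12]),(2,[13,3,0,1,4,14]),(3,[15,10,0,2,13]),(4,[14,2,1,11,16]),(6,[17,5,0,7,8,9,18]),(7,[19,8,6,0,10]),(8,[20,9,6,7,19,21]),(9,[22,18,6,8,20])], [18,17,5,12,11,16,14,13,15,10,19,21,20,22], [(8,19),(8,20),(8,6),(7,0)]⟩
def c465 : RawB s465 := raw1 s465 (nat_lit 12) [⟨0,1,2,2,2,3,false,false⟩,⟨0,3,2,3,3,0,false,false⟩,⟨1,4,2,3,3,13,false,false⟩,⟨1,6,2,13,13,14,false,false⟩,⟨1,2,14,2,2,4,false,false⟩,⟨1,7,4,14,14,16,false,false⟩,⟨1,8,4,16,16,11,false,false⟩,⟨1,9,4,11,11,1,false,false⟩,⟨1,2,1,4,2,2,false,false⟩,⟨0,1,0,2,1,1,false,false⟩,⟨9,10,11,1,1,12,false,false⟩,⟨0,10,0,1,12,5,false,false⟩,⟨0,2,5,0,0,6,false,false⟩,⟨0,11,6,5,5,17,false,false⟩,⟨0,1,6,17,17,18,false,true⟩,⟨0,1,18,6,6,9,false,false⟩,⟨0,5,9,18,18,22,false,true⟩,⟨4,5,3,13,13,15,false,false⟩,⟨3,4,0,3,15,10,false,false⟩,⟨2,3,6,0,10,7,false,false⟩,⟨2,1,7,6,9,8,false,false⟩,⟨2,3,8,7,10,19,false,false⟩,⟨1,0,8,9,22,20,false,false⟩,⟨2,1,19,8,20,21,false,false⟩]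 (nat_lit 17) (nat_lit 87381) (by decide +kernel)
noncomputable def s466 : Raw := ⟨[(0,[9,1,2,3,4,5,10]),(1,[11,6,2,0,9,12]),(2,[13,3,0,1,6,14]),(3,[15,4,0,2,13]),(4,[16,7,5,0,3,15,17]),(5,[10,0,4,7,8]),(6,[14,2,1,11,18]),(7,[19,8,5,4,16,20]),(8,[21,10,5,7,19])], [15,17,16,20,19,21,10,9,12,11,18,14,13], [(2,3),(0,4),(4,15),(4,16)]⟩
def c466 : RawB s466 := raw1 s466 (nat_lit 11) [⟨0,1,0,0,0,2,false,false⟩,⟨0,2,2,0,0,3,false,false⟩,⟨1,3,2,0,0,1,false,false⟩,⟨3,4,1,0,0,9,false,false⟩,⟨4,5,0,9,9,10,false,false⟩,⟨4,6,0,10,10,5,false,false⟩,⟨2,4,3,0,5,4,false,false⟩,⟨6,7,10,5,5,8,false,false⟩,⟨4,7,4,5,8,7,false,false⟩,⟨7,8,8,7,7,19,false,false⟩,⟨6,7,10,8,19,21,false,false⟩,⟨8,9,19,7,7,20,false,false⟩,⟨4,9,4,7,20,16,false,false⟩,⟨4,10,4,16,16,17,false,false⟩,⟨2,4,3,4,17,15,false,true⟩,⟨0,2,2,3,15,13,false,true⟩,⟨1,2,2,1,1,6,false,false⟩,⟨1,0,6,2,13,14,false,false⟩,⟨3,4,1,9,9,12,false,false⟩,⟨2,3,6,1,12,11,false,false⟩,⟨2,1,11,6,14,18,false,false⟩]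 (nat_lit 9) (nat_lit 341) (by decide +kernel)
noncomputable def s467 : Raw := ⟨[(0,[9,1,2,3,4,5,6]),(1,[10,7,2,0,9]),(2,[11,3,0,1,7,12]),(3,[13,4,0,2,11,14]),(4,[15,8,5,0,3,13,16]),(5,[19,17,6,0,4,8,18]),(6,[20,9,0,5,17]),(7,[12,2,1,10,21]),(8,[18,5,4,15,22])], [10,21,12,11,14,13,16,15,22,18,19,17,20,9], [(7,21),(1,10),(2,11),(2,0)]⟩
def c467 : RawB s467 := raw1 s467 (nat_lit 12) [⟨0,1,0,0,0,5,false,false⟩,⟨0,2,0,5,5,4,false,false⟩,⟨2,4,5,4,4,8,false,false⟩,⟨4,6,8,4,4,15,false,false⟩,⟨0,7,0,4,4,3,false,false⟩,⟨0,5,0,3,3,2,false,false⟩,⟨0,3,0,2,2,1,false,false⟩,⟨7,8,4,3,3,13,false,false⟩,⟨7,6,13,4,15,16,false,false⟩,⟨8,9,13,3,3,14,false,false⟩,⟨5,9,2,3,14,11,false,false⟩,⟨5,10,2,11,11,12,false,false⟩,⟨3,5,1,2,12,7,false,false⟩,⟨5,11,7,12,12,21,false,false⟩,⟨3,5,1,7,21,10,false,true⟩,⟨0,3,0,1,10,9,false,true⟩,⟨1,0,5,0,9,6,false,false⟩,⟨4,5,8,15,15,22,false,false⟩,⟨2,4,5,8,22,18,false,false⟩,⟨2,3,5,18,18,19,false,false⟩,⟨1,2,6,5,19,17,false,false⟩,⟨0,1,9,6,17,20,false,false⟩]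 (nat_lit 17) (nat_lit 87381) (by decide +kernel)
noncomputable def s468 : Raw := ⟨[(0,[9,8,7,1,2,3,12]),(1,[13,4,2,0,7,14]),(2,[5,3,0,1,4,6]),(3,[12,0,2,5,15]),(4,[16,6,2,1,13,17]),(5,[15,3,2,6,18]),(6,[18,5,2,4,16,19]),(8,[20,7,0,9,10,11,21]),(9,[22,10,8,0,12]),(10,[23,11,8,9,22]),(11,[24,21,8,10,23])], [24,21,20,7,14,13,17,16,19,18,15,12,22,23], [(11,10),(10,22),(8,9),(9,12)]⟩
def c468 : RawB s468 := raw1 s468 (nat_lit 12) [⟨0,2,3,3,3,12,false,false⟩,⟨0,3,12,3,3,0,false,false⟩,⟨3,4,3,0,0,2,false,false⟩,⟨0,5,12,0,0,9,false,false⟩,⟨0,1,9,12,12,22,false,false⟩,⟨5,8,9,0,0,8,false,false⟩,⟨5,0,8,9,22,10,false,false⟩,⟨5,7,10,8,8,11,false,false⟩,⟨5,9,10,11,11,23,false,false⟩,⟨0,5,22,10,23,23,false,false⟩,⟨8,10,0,8,8,7,false,false⟩,⟨4,8,2,0,7,1,false,false⟩,⟨4,6,2,1,1,4,false,false⟩,⟨4,5,2,4,4,6,false,false⟩,⟨7,11,11,8,8,21,false,false⟩,⟨7,9,21,11,23,24,true,true⟩,⟨10,11,7,8,21,20,false,false⟩,⟨3,4,3,2,6,5,false,false⟩,⟨3,2,5,3,12,15,false,false⟩,⟨4,3,6,5,15,18,false,false⟩,⟨8,9,1,7,7,14,false,false⟩,⟨6,8,4,1,14,13,false,false⟩,⟨6,7,4,13,13,17,false,false⟩,⟨5,6,6,4,17,16,false,false⟩,⟨5,4,16,6,18,19,false,false⟩]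 (nat_lit 6) (nat_lit 21) (by decide +kernel)
noncomputable def s469 : Raw := ⟨[(0,[7,1,2,3,4,8]),(1,[9,6,5,2,0,7]),(2,[10,3,0,1,5,11]),(3,[12,4,0,2,10,13]),(4,[14,8,0,3,12]),(5,[16,11,2,1,6,15]),(6,[15,5,1,9,17])], [8,7,9,17,15,16,11,10,13,12,14], [(3,10),(3,12),(3,0)]⟩
def c469 : RawB s469 := raw1 s469 (nat_lit 9) [⟨0,1,8,8,8,14,false,true⟩,⟨0,2,14,8,8,4,false,false⟩,⟨0,1,14,4,4,12,false,false⟩,⟨1,3,12,4,4,3,false,false⟩,⟨2,4,4,8,8,0,false,false⟩,⟨3,2,3,4,0,0,false,false⟩,⟨1,2,12,3,3,13,false,false⟩,⟨3,5,3,0,0,2,false,false⟩,⟨3,2,2,3,13,10,false,false⟩,⟨4,6,8,0,0,7,true,false⟩,⟨5,6,2,0,7,1,false,false⟩,⟨5,4,1,2,2,5,false,false⟩,⟨4,3,5,2,10,11,false,false⟩,⟨6,8,1,7,7,9,false,false⟩,⟨5,6,5,1,9,6,false,false⟩,⟨6,7,6,9,9,17,false,false⟩,⟨5,6,5,6,17,15,false,false⟩,⟨4,5,11,5,15,16,false,false⟩]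 (nat_lit 7) (nat_lit 85) (by decide +kernel)
noncomputable def s470 : Raw := ⟨[(0,[7,1,2,3,4,8]),(1,[9,6,5,2,0,7,10]),(2,[11,3,0,1,5,12]),(3,[13,4,0,2,11]),(4,[14,8,0,3,13]),(5,[16,12,2,1,6,15]),(6,[15,5,1,9,17])], [13,14,8,7,10,9,17,15,16,12,11], [(4,3),(3,11),(2,12),(2,1)]⟩
def c470 : RawB s470 := raw1 s470 (nat_lit 9) [⟨0,1,2,2,2,5,false,false⟩,⟨0,2,2,5,5,1,false,false⟩,⟨0,3,2,1,1,0,false,false⟩,⟨0,4,2,0,0,3,false,false⟩,⟨0,5,2,3,3,11,false,false⟩,⟨1,0,5,2,11,12,false,false⟩,⟨4,7,3,0,0,4,false,false⟩,⟨4,5,4,3,11,13,false,true⟩,⟨4,8,13,4,4,14,true,false⟩,⟨7,8,0,4,14,8,false,false⟩,⟨3,7,1,0,8,7,false,false⟩,⟨3,6,1,7,7,10,false,false⟩,⟨3,5,1,10,10,9,false,false⟩,⟨2,3,5,1,9,6,false,false⟩,⟨3,4,6,9,9,17,false,false⟩,⟨2,3,5,6,17,15,false,false⟩,⟨1,2,12,5,15,16,false,false⟩]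 (nat_lit 8) (nat_lit 85) (by decide +kernel)
noncomputable def s471 : Raw := ⟨[(0,[7,6,5,1,2,3,10]),(1,[11,4,2,0,5,12]),(2,[13,3,0,1,4,14]),(3,[15,10,0,2,13]),(4,[14,2,1,11,16]),(6,[17,5,0,7,8,9,18]),(7,[19,8,6,0,10]),(8,[20,9,6,7,19]),(9,[21,18,6,8,20])], [18,17,5,12,11,16,14,13,15,10,19,20,21], [(9,8),(8,19),(6,0),(0,10)]⟩
def c471 : RawB s471 := raw1 s471 (nat_lit 11) [⟨0,1,8,8,8,19,false,false⟩,⟨0,2,8,19,19,7,false,false⟩,⟨0,3,8,7,7,6,false,false⟩,⟨0,4,8,6,6,9,false,false⟩,⟨0,1,9,8,19,20,false,false⟩,⟨4,7,9,6,6,18,false,false⟩,⟨4,0,18,9,20,21,true,false⟩,⟨3,8,7,6,6,0,false,false⟩,⟨3,2,0,7,19,10,false,false⟩,⟨3,4,10,0,0,3,false,false⟩,⟨4,6,3,0,0,2,false,false⟩,⟨4,5,3,2,2,13,false,false⟩,⟨7,10,18,6,6,17,true,false⟩,⟨8,10,0,6,17,5,false,false⟩,⟨6,8,2,0,5,1,false,false⟩,⟨3,4,10,3,13,15,false,false⟩,⟨6,7,2,1,1,4,false,false⟩,⟨6,5,4,2,13,14,false,false⟩,⟨8,9,1,5,5,12,false,false⟩,⟨7,8,4,1,12,11,false,false⟩,⟨7,6,11,4,14,16,false,false⟩]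 (nat_lit 9) (nat_lit 341) (by decide +kernel)
noncomputable def s472 : Raw := ⟨[(0,[10,1,2,3,4,6,11]),(1,[12,5,2,0,10]),(2,[13,3,0,1,5,14]),(3,[15,4,0,2,13,16]),(4,[9,8,7,6,0,3,15]),(5,[14,2,1,12,17]),(7,[18,6,4,8,19]),(8,[19,7,4,9,20]),(9,[20,8,4,15,21])], [11,10,12,17,14,13,16,15,21,20,19,18,6], [(5,12),(3,13),(3,15),(0,3)]⟩
def c472 : RawB s472 := raw1 s472 (nat_lit 11) [⟨0,1,0,0,0,4,false,false⟩,⟨0,2,4,0,0,6,false,false⟩,⟨2,3,6,0,0,11,true,false⟩,⟨1,7,4,0,0,3,false,false⟩,⟨1,5,4,3,3,15,false,false⟩,⟨5,6,15,3,3,16,false,false⟩,⟨1,2,4,15,15,9,false,false⟩,⟨2,4,9,15,15,21,false,false⟩,⟨7,8,3,0,0,2,false,false⟩,⟨7,6,2,3,16,13,false,false⟩,⟨3,9,11,0,0,10,true,false⟩,⟨8,9,2,0,10,1,false,false⟩,⟨2,3,9,21,21,20,false,false⟩,⟨9,10,1,10,10,12,false,false⟩,⟨8,9,2,1,12,5,false,false⟩,⟨8,7,5,2,13,14,false,false⟩,⟨9,8,12,5,14,17,false,false⟩,⟨1,2,4,9,20,8,false,false⟩,⟨0,1,6,4,8,7,false,false⟩,⟨1,2,7,8,20,19,false,false⟩,⟨0,1,6,7,19,18,false,false⟩]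 (nat_lit 9) (nat_lit 341) (by decide +kernel)
end Pool.Agent.FCT.R
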