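import Pool.Agent.Lib.MP_fe5cb4_co.FC.RawDef
set_option linter.defProp false
namespace Pool.Agent.FCT.R
open Pool.Agent.Lib.MP_fe5cb4_co.FC
noncomputable def s494 : Raw := ⟨[(0,[8,1,2,3,4,9]),(1,[10,5,2,0,8]),(2,[13,11,3,0,1,5,12]),(3,[14,6,4,0,2,11,15]),(4,[9,0,3,6,7]),(5,[12,2,1,10,16]),(6,[17,7,4,3,14,18]),(7,[19,9,4,6,17])], [16,12,13,11,15,14,18,17,19,9,8,10], [(5,1),(1,8),(3,4),(4,9)]⟩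
def c494 : RawB s494 := raw1 s494 (nat_lit 10) [⟨0,1,8,8,8,9,false,false⟩,⟨0,2,8,9,9,0,false,false⟩,⟨0,3,8,0,0,1,false,false⟩,⟨0,4,8,1,1,10,false,false⟩,⟨4,5,1,10,10,5,false,false⟩,⟨4,6,1,5,5,2,false,false⟩,⟨3,4,0,1,2,2,false,false⟩,⟨3,7,0,2,2,3,false,false⟩,⟨3,2,3,0,9,4,false,false⟩,⟨3,4,4,3,3,6,false,false⟩,⟨3,2,6,4,9,7,false,false⟩,⟨6,8,5,2,2,12,false,false⟩,⟨5,6,10,5,12,16,true,true⟩,⟨4,6,6,3,3,14,false,false⟩,⟨4,5,6,14,14,18,false,false⟩,⟨3,4,7,6,18,17,false,false⟩,⟨8,9,2,12,12,13,false,false⟩,⟨7,8,3,2,13,11,false,false⟩,⟨7,6,11,3,14,15,false,false⟩,⟨2,3,9,7,17,19,false,false⟩] (nat_lit 10) (nat_lit 341) (by decide +kernel)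
noncomputable def s495 : Raw := ⟨[(0,[8,1,2,3,4,9]),(1,[10,5,2,0,8,11]),(2,[14,12,3,0,1,5,13]),(3,[15,6,4,0,2,12,16]),(4,[9,0,3,6,7]),(5,[13,2,1,10,17]),(6,[18,7,4,3,15,19]),(7,[20,9,4,6,18])], [12,16,15,19,18,20,9,8,11,10,17,13,14], [(1,8),(1,2),(4,9),(4,6)]⟩
def c495 : RawB s495 := raw1 s495 (nat_lit 11) [⟨0,1,2,2,2,5,false,false⟩,⟨0,2,2,5,5,1,false,false⟩,⟨0,3,2,1,1,0,false,false⟩,⟨3,4,1,0,0,8,false,false⟩,⟨4,5,0,8,8,9,false,false⟩,⟨4,6,0,9,9,4,false,false⟩,⟨0,4,2,0,4,3,false,false⟩,⟨6,7,9,4,4,7,false,false⟩,⟨4,7,3,4,7,6,false,false⟩,⟨7,8,7,6,6,18,false,false⟩,⟨6,7,9,7,18,20,false,false⟩,⟨8,9,18,6,6,19,false,false⟩,⟨4,9,3,6,19,15,false,false⟩,⟨4,10,3,15,15,16,false,false⟩,⟨0,4,2,3,16,12,false,true⟩,⟨0,4,2,12,12,14,false,true⟩,⟨1,0,5,2,14,13,false,false⟩,⟨3,4,1,8,8,11,false,false⟩,⟨2,3,5,1,11,10,false,false⟩,⟨2,1,10,5,13,17,false,false⟩]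 (nat_lit 19) (nat_lit 174762) (by decide +kernel)
noncomputable def s496 : Raw := ⟨[(0,[9,1,2,3,4,5,10]),(1,[11,8,7,6,2,0,9]),(2,[12,3,0,1,6,13]),(3,[14,4,0,2,12]),(4,[15,5,0,3,14,16]),(5,[17,10,0,4,15]),(6,[13,2,1,7,18]),(7,[20,18,6,1,8,19]),(8,[19,7,1,11,21])], [10,9,11,21,19,20,18,13,12,14,16,15,17], [(4,14),(4,15),(4,0)]⟩
def c496 : RawB s496 := raw1 s496 (nat_lit 11) [⟨0,1,4,4,4,15,false,false⟩,⟨0,2,15,4,4,5,false,false⟩,⟨2,3,4,5,5,0,false,false⟩,⟨2,4,4,0,0,3,false,false⟩,⟨3,5,5,0,0,10,false,false⟩,⟨3,0,10,5,15,17,true,false⟩,⟨2,3,4,3,3,14,false,false⟩,⟨2,1,14,4,15,16,false,false⟩,⟨4,6,3,0,0,2,false,false⟩,⟨4,3,2,3,14,12,false,false⟩,⟨5,8,10,0,0,9,true,false⟩,⟨6,8,2,0,9,1,false,false⟩,⟨6,5,1,2,2,6,false,false⟩,⟨5,4,6,2,12,13,false,false⟩,⟨6,7,6,1,1,7,false,false⟩,⟨6,5,7,6,13,18,false,false⟩,⟨8,10,1,9,9,11,false,false⟩,⟨7,8,7,1,11,8,false,false⟩,⟨8,9,8,11,11,21,false,false⟩,⟨7,8,7,8,21,19,false,false⟩,⟨6,7,18,7,19,20,false,false⟩]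 (nat_lit 10) (nat_lit 682) (by decide +kernel)
noncomputable def s497 : Raw := ⟨[(0,[7,5,3,1,2,4,6]),(1,[14,12,2,0,3,8,9,13]),(2,[15,4,0,1,12,16]),(3,[18,8,1,0,5,17]),(4,[19,10,6,0,2,15,20]),(5,[17,3,0,7,21]),(6,[11,7,0,4,10]),(7,[21,5,0,6,11,22]),(8,[23,9,1,3,18]),(9,[24,13,1,8,23]),(10,[25,11,6,4,19]),(11,[22,7,6,10,25])], [23,24,13,14,12,16,15,20,19,25,22,21,17,18], [(9,23),(9,13)]⟩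
def c497 : RawB s497 := raw1 s497 (nat_lit 12) [⟨0,1,7,7,7,11,false,false⟩,⟨0,2,11,7,7,6,false,false⟩,⟨1,3,7,11,11,22,false,false⟩,⟨3,4,22,11,11,25,false,false⟩,⟨0,4,6,11,25,10,false,false⟩,⟨4,5,25,10,10,19,false,false⟩,⟨0,5,6,10,19,4,false,false⟩,⟨0,6,6,4,4,0,false,false⟩,⟨0,2,0,6,7,7,false,false⟩,⟨1,2,7,22,22,21,false,false⟩,⟨0,1,0,7,21,5,false,false⟩,⟨0,7,5,0,0,3,false,false⟩,⟨0,1,3,5,21,17,false,false⟩,⟨7,8,0,3,3,1,false,false⟩,⟨7,6,1,0,4,2,false,false⟩,⟨8,9,3,1,1,8,false,false⟩,⟨8,0,8,3,17,18,false,false⟩,⟨8,10,8,18,18,23,false,true⟩,⟨8,10,23,8,8,9,false,false⟩,⟨10,9,9,8,1,1,false,false⟩,⟨7,9,2,1,1,12,false,false⟩,⟨8,11,23,9,9,24,true,false⟩,⟨10,11,1,9,24,13,false,false⟩,⟨9,10,12,1,13,14,false,false⟩,⟨7,8,2,12,12,16,false,false⟩,⟨6,7,4,2,16,15,false,false⟩,⟨6,5,15,4,19,20,false,false⟩]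 (nat_lit 6) (nat_lit 42) (by decide +kernel)
noncomputable def s498 : Raw := ⟨[(0,[8,7,6,5,4,1,2,10]),(1,[11,3,2,0,4]),(2,[13,10,0,1,3,12]),(3,[12,2,1,11,14]),(5,[15,4,0,6,16]),(6,[16,5,0,7,17]),(7,[17,6,0,8,9,18]),(8,[19,9,7,0,10,20]),(9,[21,18,7,8,19])], [11,14,12,13,10,20,19,21,18,17,16,15,4], [(0,10),(0,4),(6,17),(6,5)]⟩
def c498 : RawB s498 := raw1 s498 (nat_lit 11) [⟨0,1,0,0,0,6,false,false⟩,⟨0,2,0,6,6,7,false,false⟩,⟨2,3,6,7,7,17,false,false⟩,⟨0,4,0,7,7,8,false,false⟩,⟨0,6,0,8,8,10,false,false⟩,⟨0,7,0,10,10,2,false,false⟩,⟨0,5,0,2,2,1,false,false⟩,⟨7,8,2,10,10,13,false,false⟩,⟨7,9,2,13,13,12,false,false⟩,⟨5,7,1,2,12,3,false,false⟩,⟨7,10,3,12,12,14,false,false⟩,⟨5,7,1,3,14,11,false,true⟩,⟨0,5,0,1,11,4,false,true⟩,⟨0,1,4,0,6,5,false,false⟩,⟨1,2,5,6,17,16,false,false⟩,⟨0,1,4,5,16,15,false,false⟩,⟨4,5,7,8,8,9,false,false⟩,⟨4,3,9,7,17,18,false,false⟩,⟨6,7,8,10,10,20,false,false⟩,⟨5,6,9,8,20,19,false,false⟩,⟨4,5,18,9,19,21,false,false⟩]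 (nat_lit 13) (nat_lit 5461) (by decide +kernel)
noncomputable def s499 : Raw := ⟨[(0,[7,5,3,1,2,4,6]),(1,[12,2,0,3,8,9]),(2,[13,4,0,1,12]),(3,[15,8,1,0,5,14,16]),(4,[17,10,6,0,2,13]),(5,[19,14,3,0,7,18]),(6,[11,7,0,4,10]),(7,[21,18,5,0,6,11,20]),(8,[22,9,1,3,15,23]),(9,[24,12,1,8,22]),(10,[25,11,6,4,17]),(11,[20,7,6,10,25])], [22,24,12,13,17,25,20,21,18,19,14,16,15,23], [(9,22),(9,12)]⟩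
def c499 : RawB s499 := raw1 s499 (nat_lit 12) [⟨0,1,6,6,6,7,false,false⟩,⟨0,2,6,7,7,0,false,false⟩,⟨2,3,0,7,7,5,false,false⟩,⟨0,4,0,6,6,4,false,false⟩,⟨3,5,5,7,7,18,false,false⟩,⟨1,6,6,7,7,11,false,false⟩,⟨1,7,6,11,11,10,false,false⟩,⟨4,1,4,6,10,10,false,false⟩,⟨0,1,0,4,4,2,false,false⟩,⟨7,8,11,10,10,25,false,false⟩,⟨6,7,7,11,25,20,false,false⟩,⟨5,6,18,7,20,21,false,false⟩,⟨4,8,4,10,25,17,false,false⟩,⟨4,9,4,17,17,13,false,false⟩,⟨1,4,2,4,13,13,false,false⟩,⟨1,10,2,13,13,12,false,false⟩,⟨0,1,0,2,12,1,false,false⟩,⟨0,2,1,0,5,3,false,false⟩,⟨1,4,12,1,1,9,false,false⟩,⟨0,4,3,1,9,8,false,false⟩,⟨1,11,9,12,12,24,false,false⟩,⟨4,1,8,9,24,22,false,true⟩,⟨0,1,8,3,3,15,false,false⟩,⟨0,4,15,8,22,23,false,true⟩,⟨3,4,5,18,18,19,false,false⟩,⟨2,3,3,5,19,14,false,false⟩,⟨2,1,14,3,15,16,false,false⟩]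 (nat_lit 6) (nat_lit 42) (by decide +kernel)
noncomputable def s500 : Raw := ⟨[(0,[10,1,2,3,4,5,11]),(1,[12,6,2,0,10,13]),(2,[7,3,0,1,6]),(3,[16,14,4,0,2,7,15]),(4,[17,8,5,0,3,14]),(5,[19,11,0,4,8,9,18]),(6,[20,7,2,1,12]),(7,[15,3,2,6,20]),(8,[21,9,5,4,17,22]),(9,[23,18,5,8,21])], [16,14,17,22,21,23,18,19,11,10,13,12,20,15], [(0,3),(3,15),(3,14),(6,20)]⟩
def c500 : RawB s500 := raw1 s500 (nat_lit 12) [⟨0,1,6,6,6,7,false,false⟩,⟨0,2,7,6,6,2,false,false⟩,⟨0,3,7,2,2,3,false,false⟩,⟨0,4,7,3,3,15,false,false⟩,⟨1,0,6,7,15,20,false,false⟩,⟨3,5,2,3,3,0,false,false⟩,⟨3,2,0,2,6,1,false,false⟩,⟨2,1,1,6,20,12,false,false⟩,⟨4,6,15,3,3,16,true,false⟩,⟨3,4,1,0,0,10,false,false⟩,⟨3,2,10,1,12,13,false,false⟩,⟨6,7,16,3,3,14,true,false⟩,⟨5,7,0,3,14,4,false,false⟩,⟨5,6,0,4,4,5,false,false⟩,⟨5,4,5,0,10,11,false,false⟩,⟨7,11,4,14,14,17,false,false⟩,⟨6,7,5,4,17,8,false,false⟩,⟨7,10,8,17,17,22,false,false⟩,⟨7,9,8,22,22,21,false,false⟩,⟨6,7,5,8,21,9,false,false⟩,⟨7,8,9,21,21,23,false,false⟩,⟨6,7,5,9,23,18,false,false⟩,⟨5,6,11,5,18,19,false,false⟩]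 (nat_lit 10) (nat_lit 341) (by decide +kernel)
noncomputable def s501 : Raw := ⟨[(0,[9,1,2,3,4,5,10]),(1,[11,6,2,0,9,12]),(2,[13,3,0,1,6,14]),(3,[15,7,4,0,2,13,16]),(4,[8,5,0,3,7]),(5,[10,0,4,8,17]),(6,[14,2,1,11,18]),(7,[19,8,4,3,15,20]),(8,[17,5,4,7,19])], [9,12,11,18,14,13,16,15,20,19,17,10], [(6,14),(1,9),(1,11),(1,2)]⟩
def c501 : RawB s501 := raw1 s501 (nat_lit 10) [⟨0,1,4,4,4,8,false,false⟩,⟨0,2,4,8,8,7,false,false⟩,⟨0,3,4,7,7,3,false,false⟩,⟨0,4,4,3,3,0,false,false⟩,⟨0,1,0,4,8,5,false,false⟩,⟨0,5,5,0,0,10,false,false⟩,⟨1,0,8,5,10,17,false,false⟩,⟨2,1,7,8,17,19,false,false⟩,⟨5,6,0,10,10,9,false,true⟩,⟨5,6,9,0,0,1,false,false⟩,⟨6,4,1,0,3,2,false,false⟩,⟨5,7,9,1,1,12,true,false⟩,⟨7,9,1,12,12,11,false,false⟩,⟨6,7,2,1,11,6,false,false⟩,⟨7,8,6,11,11,18,false,false⟩,⟨6,7,2,6,18,14,false,false⟩,⟨4,6,3,2,14,13,false,false⟩,⟨4,5,3,13,13,16,false,false⟩,⟨3,4,7,3,16,15,false,false⟩,⟨3,2,15,7,19,20,false,false⟩]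 (nat_lit 7) (nat_lit 42) (by decide +kernel)
noncomputable def s502 : Raw := ⟨[(0,[7,5,3,1,2,4,6]),(1,[14,12,2,0,3,8,9,13]),(2,[15,4,0,1,12,16]),(3,[8,1,0,5,10]),(4,[17,11,6,0,2,15,18]),(5,[20,10,3,0,7,19]),(6,[21,7,0,4,11,22]),(7,[19,5,0,6,21]),(8,[23,9,1,3,10]),(9,[24,13,1,8,23]),(10,[23,8,3,5,20]),(11,[22,6,4,17,25])], [23,24,13,14,12,16,15,18,17,25,22,21,19,20], [(9,23),(9,1)]⟩
def c502 : RawB s502 := raw1 s502 (nat_lit 12) [⟨0,1,7,7,7,21,false,false⟩,⟨0,2,7,21,21,6,false,false⟩,⟨0,3,7,6,6,0,false,false⟩,⟨3,4,6,0,0,4,false,false⟩,⟨4,5,0,4,4,2,false,false⟩,⟨0,6,7,0,0,5,false,false⟩,⟨4,7,0,2,2,1,false,false⟩,⟨4,6,1,0,5,3,false,false⟩,⟨6,8,5,3,3,10,false,false⟩,⟨4,8,1,3,10,8,false,false⟩,⟨4,9,8,1,1,9,false,false⟩,⟨4,8,9,8,10,23,false,false⟩,⟨6,8,5,10,23,20,false,true⟩,⟨0,1,5,7,21,19,false,false⟩,⟨0,6,19,5,20,20,false,false⟩,⟨4,11,23,9,9,24,true,false⟩,⟨9,11,1,9,24,13,false,false⟩,⟨9,10,1,13,13,14,false,false⟩,⟨7,9,2,1,14,12,false,false⟩,⟨7,8,2,12,12,16,false,false⟩,⟨5,7,4,2,16,15,false,false⟩,⟨3,4,6,4,4,11,false,false⟩,⟨3,2,11,6,21,22,false,false⟩,⟨5,6,4,15,15,18,false,false⟩,⟨4,5,11,4,18,17,false,false⟩,⟨4,3,17,11,22,25,false,false⟩]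 (nat_lit 6) (nat_lit 42) (by decide +kernel)
noncomputable def s503 : Raw := ⟨[(0,[12,10,1,2,3,4,5,11]),(1,[13,6,2,0,10,14]),(2,[15,3,0,1,6,16]),(3,[17,8,7,4,0,2,15]),(4,[9,5,0,3,7]),(5,[11,0,4,9,18]),(6,[16,2,1,13,19]),(7,[21,9,4,3,8,20]),(8,[20,7,3,17,22]),(9,[18,5,4,7,21])], [13,19,16,15,17,22,20,21,18,11,12,10,14], [(0,5),(5,18),(8,7),(7,21)]⟩
def c503 : RawB s503 := raw1 s503 (nat_lit 11) [⟨0,1,0,0,0,11,false,false⟩,⟨0,2,0,11,11,5,false,false⟩,⟨2,3,5,11,11,18,false,false⟩,⟨2,4,5,18,18,9,false,false⟩,⟨0,2,0,5,9,4,false,false⟩,⟨4,5,18,9,9,21,false,false⟩,⟨2,5,4,9,21,7,false,false⟩,⟨2,6,4,7,7,3,false,false⟩,⟨0,2,0,4,3,3,false,false⟩,⟨0,2,0,3,3,2,false,false⟩,⟨2,7,2,3,3,15,false,false⟩,⟨0,8,0,2,2,1,false,false⟩,⟨2,9,2,15,15,16,false,false⟩,⟨8,2,1,2,16,6,false,false⟩,⟨2,10,6,16,16,19,false,false⟩,⟨8,2,1,6,19,13,false,true⟩,⟨1,2,0,11,11,12,false,false⟩,⟨0,1,1,0,12,10,false,false⟩,⟨0,8,10,1,13,14,false,true⟩,⟨7,8,3,15,15,17,false,false⟩,⟨6,7,7,3,17,8,false,false⟩,⟨6,5,8,7,21,20,false,false⟩,⟨7,6,17,8,20,22,false,false⟩]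 (nat_lit 8) (nat_lit 170) (by decide +kernel)
noncomputable def s504 : Raw := ⟨[(0,[9,1,2,3,4,5,6]),(1,[10,7,2,0,9]),(2,[13,11,3,0,1,7,12]),(3,[14,4,0,2,11,15]),(4,[16,5,0,3,14,17]),(5,[18,8,6,0,4,16,19]),(6,[9,0,5,8,20]),(7,[12,2,1,10,21]),(8,[20,6,5,18,22])], [10,21,12,13,11,15,14,17,16,19,18,22,20,9], [(7,1),(1,9),(2,12),(2,11)]⟩
def c504 : RawB s504 := raw1 s504 (nat_lit 12) [⟨0,1,0,0,0,6,false,false⟩,⟨0,2,6,0,0,9,false,false⟩,⟨1,3,6,0,0,5,false,false⟩,⟨3,4,5,0,0,4,false,false⟩,⟨4,5,0,4,4,3,false,false⟩,⟨5,7,4,3,3,14,false,false⟩,⟨5,6,4,14,14,17,false,false⟩,⟨4,8,0,3,3,2,false,false⟩,⟨4,2,2,0,9,1,false,false⟩,⟨8,9,3,2,2,11,false,false⟩,⟨8,7,11,3,14,15,false,false⟩,⟨4,10,1,2,2,7,false,false⟩,⟨4,2,7,1,9,10,false,true⟩,⟨1,2,6,5,5,8,false,false⟩,⟨4,11,10,7,7,21,true,false⟩,⟨10,11,2,7,21,12,false,false⟩,⟨9,10,11,2,12,13,false,false⟩,⟨3,5,5,4,17,16,false,false⟩,⟨1,0,8,6,9,20,false,false⟩,⟨3,4,5,16,16,19,false,false⟩,⟨2,3,8,5,19,18,false,false⟩,⟨2,1,18,8,20,22,false,false⟩]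 (nat_lit 17) (nat_lit 43690) (by decide +kernel)
noncomputable def s505 : Raw := ⟨[(0,[5,1,2,3,4,9]),(1,[10,2,0,5,6,7,8]),(2,[11,3,0,1,10,12]),(3,[13,4,0,2,11]),(4,[14,9,0,3,13]),(6,[16,7,1,5,15]),(7,[17,8,1,6,16,18]),(8,[19,10,1,7,17])], [13,14,9,5,15,16,18,17,19,10,12,11], [(1,5),(1,10),(7,16),(7,17)]⟩
def c505 : RawB s505 := raw1 s505 (nat_lit 10) [⟨0,1,2,2,2,10,false,false⟩,⟨0,2,2,10,10,1,false,false⟩,⟨2,3,10,1,1,8,false,false⟩,⟨3,4,8,1,1,7,false,false⟩,⟨4,5,7,1,1,6,false,false⟩,⟨5,6,1,6,6,5,false,false⟩,⟨0,7,2,1,1,0,false,false⟩,⟨7,5,0,1,5,5,false,false⟩,⟨0,5,2,0,0,3,false,false⟩,⟨7,8,0,5,5,9,false,false⟩,⟨5,7,3,0,9,4,false,false⟩,⟨7,9,4,9,9,14,false,false⟩,⟨5,7,3,4,14,13,false,true⟩,⟨0,5,2,3,13,11,false,true⟩,⟨1,0,10,2,11,12,false,false⟩,⟨6,7,6,5,5,15,false,false⟩,⟨4,6,7,6,15,16,false,false⟩,⟨4,5,7,16,16,18,false,false⟩,⟨3,4,8,7,18,17,false,false⟩,⟨2,3,10,8,17,19,false,false⟩]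 (nat_lit 9) (nat_lit 341) (by decide +kernel)
end Pool.Agent.FCT.R
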