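import Pool.Agent.Lib.MP_fe5cb4_co.FC.RawDef
set_option linter.defProp false
namespace Pool.Agent.FCT.R
open Pool.Agent.Lib.MP_fe5cb4_co.FC
noncomputable def s506 : Raw := ⟨[(0,[10,8,1,2,3,4,9]),(1,[7,6,5,2,0,8]),(2,[13,11,3,0,1,5,12]),(3,[14,4,0,2,11]),(4,[15,9,0,3,14]),(5,[17,12,2,1,6,16]),(6,[19,16,5,1,7,18]),(7,[18,6,1,8,20])], [10,8,20,18,19,16,17,12,13,11,14,15,9], [(1,8),(2,1),(5,16),(5,12)]⟩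
def c506 : RawB s506 := raw1 s506 (nat_lit 11) [⟨0,1,4,4,4,14,false,false⟩,⟨0,2,4,14,14,3,false,false⟩,⟨0,3,4,3,3,0,false,false⟩,⟨0,4,4,0,0,9,false,false⟩,⟨0,1,9,4,14,15,false,false⟩,⟨4,5,0,9,9,10,false,true⟩,⟨3,5,3,0,0,2,false,false⟩,⟨3,2,2,3,14,11,false,false⟩,⟨4,7,10,0,0,8,true,false⟩,⟨5,7,2,0,8,1,false,false⟩,⟨5,4,1,2,2,5,false,false⟩,⟨7,9,1,8,8,7,false,false⟩,⟨5,7,5,1,7,6,false,false⟩,⟨9,10,7,8,8,20,false,false⟩,⟨7,9,6,7,20,18,false,false⟩,⟨7,8,6,18,18,19,false,false⟩,⟨5,7,5,6,19,16,false,false⟩,⟨5,6,5,16,16,17,false,false⟩,⟨4,5,2,5,17,12,false,false⟩,⟨3,4,11,2,12,13,false,false⟩] (nat_lit 19) (nat_lit 174762) (by decide +kernel)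
noncomputable def s507 : Raw := ⟨[(0,[11,9,1,2,3,4,5,10]),(1,[12,6,2,0,9]),(2,[7,3,0,1,6,8]),(3,[15,13,4,0,2,7,14]),(4,[16,5,0,3,13]),(5,[17,10,0,4,16]),(6,[18,8,2,1,12]),(7,[20,14,3,2,8,19]),(8,[19,7,2,6,18,21])], [16,17,10,11,9,12,18,21,19,20,14,15,13], [(4,16),(0,3),(3,14),(3,13)]⟩
def c507 : RawB s507 := raw1 s507 (nat_lit 11) [⟨0,1,2,2,2,7,false,false⟩,⟨0,2,2,7,7,8,false,false⟩,⟨1,3,7,2,2,3,false,false⟩,⟨0,4,2,8,8,6,false,false⟩,⟨4,5,8,6,6,18,false,false⟩,⟨5,6,6,18,18,12,false,false⟩,⟨0,5,2,6,12,1,false,false⟩,⟨5,7,1,12,12,9,false,false⟩,⟨0,5,2,1,9,0,false,false⟩,⟨0,3,0,2,3,3,false,false⟩,⟨0,3,3,0,0,4,false,false⟩,⟨5,8,0,9,9,11,false,false⟩,⟨5,9,0,11,11,10,false,false⟩,⟨3,5,4,0,10,5,false,false⟩,⟨5,10,5,10,10,17,false,false⟩,⟨3,5,4,5,17,16,false,true⟩,⟨0,3,3,4,16,13,false,true⟩,⟨4,5,8,18,18,21,false,false⟩,⟨2,4,7,8,21,19,false,false⟩,⟨2,3,7,19,19,20,false,false⟩,⟨1,2,3,7,20,14,false,false⟩,⟨0,1,13,3,14,15,false,false⟩]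 (nat_lit 11) (nat_lit 682) (by decide +kernel)
noncomputable def s508 : Raw := ⟨[(0,[11,9,1,2,3,4,5,10]),(1,[12,7,6,2,0,9,13]),(2,[8,3,0,1,6]),(3,[16,14,4,0,2,8,15]),(4,[17,5,0,3,14]),(5,[18,10,0,4,17]),(6,[20,8,2,1,7,19]),(7,[19,6,1,12,21]),(8,[15,3,2,6,20])], [15,16,14,17,18,10,11,9,13,12,21,19,20], [(0,3),(3,15),(3,14)]⟩
def c508 : RawB s508 := raw1 s508 (nat_lit 11) [⟨0,1,2,2,2,3,false,false⟩,⟨0,2,2,3,3,8,false,false⟩,⟨1,4,2,3,3,0,false,false⟩,⟨1,3,2,0,0,1,false,false⟩,⟨3,5,1,0,0,9,false,false⟩,⟨5,6,9,0,0,11,false,false⟩,⟨6,7,11,0,0,10,false,false⟩,⟨7,8,10,0,0,5,false,false⟩,⟨4,8,3,0,5,4,false,false⟩,⟨8,9,5,4,4,17,false,false⟩,⟨7,8,10,5,17,18,false,false⟩,⟨4,9,3,4,17,14,false,false⟩,⟨1,0,1,2,8,6,false,false⟩,⟨4,10,3,14,14,16,false,false⟩,⟨2,4,8,3,16,15,false,true⟩,⟨0,2,6,8,15,20,false,true⟩,⟨1,2,6,1,1,7,false,false⟩,⟨1,0,7,6,20,19,false,false⟩,⟨3,4,1,9,9,13,false,false⟩,⟨2,3,7,1,13,12,false,false⟩,⟨2,1,12,7,19,21,false,false⟩]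 (nat_lit 11) (nat_lit 682) (by decide +kernel)
noncomputable def s509 : Raw := ⟨[(0,[10,1,2,3,4,5,11]),(1,[12,6,2,0,10,13]),(2,[14,3,0,1,6,15]),(3,[16,8,7,4,0,2,14,17]),(4,[9,5,0,3,7]),(5,[19,11,0,4,9,18]),(6,[15,2,1,12,20]),(7,[9,4,3,8,21]),(8,[21,7,3,16,22]),(9,[18,5,4,7,21])], [12,20,15,14,17,16,22,21,18,19,11,10,13], [(6,15),(1,10),(1,12),(1,2)]⟩
def c509 : RawB s509 := raw1 s509 (nat_lit 11) [⟨0,1,0,0,0,5,false,false⟩,⟨0,2,0,5,5,4,false,false⟩,⟨2,3,5,4,4,9,false,false⟩,⟨3,4,4,9,9,7,false,false⟩,⟨4,5,9,7,7,21,false,false⟩,⟨2,4,5,9,21,18,false,false⟩,⟨5,6,21,7,7,8,false,false⟩,⟨3,6,4,7,8,3,false,false⟩,⟨0,3,0,4,3,3,false,false⟩,⟨0,3,0,3,3,2,false,false⟩,⟨3,7,2,3,3,14,false,false⟩,⟨0,8,0,2,2,1,false,false⟩,⟨3,9,2,14,14,15,false,false⟩,⟨8,3,1,2,15,6,false,false⟩,⟨3,10,6,15,15,20,false,false⟩,⟨8,3,1,6,20,12,false,true⟩,⟨2,3,5,18,18,19,false,false⟩,⟨1,2,0,5,19,11,false,false⟩,⟨0,1,1,0,11,10,false,false⟩,⟨0,8,10,1,12,13,false,true⟩,⟨7,8,3,14,14,17,false,false⟩,⟨6,7,8,3,17,16,false,false⟩,⟨6,5,16,8,21,22,false,false⟩]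 (nat_lit 8) (nat_lit 85) (by decide +kernel)
noncomputable def s510 : Raw := ⟨[(0,[9,1,2,3,4,10]),(1,[11,5,2,0,9,12]),(2,[13,3,0,1,5,14]),(3,[15,6,4,0,2,13,16]),(4,[18,10,0,3,6,7,8,17]),(5,[14,2,1,11,19]),(6,[20,7,4,3,15]),(7,[21,8,4,6,20]),(8,[22,17,4,7,21])], [13,16,15,20,21,22,17,18,10,9,12,11,19,14], [(4,17),(4,10),(4,3),(1,11)]⟩
def c510 : RawB s510 := raw1 s510 (nat_lit 12) [⟨0,1,4,4,4,7,false,false⟩,⟨0,2,4,7,7,8,false,false⟩,⟨1,3,7,4,4,6,false,false⟩,⟨0,4,4,8,8,17,false,false⟩,⟨0,6,4,17,17,18,false,false⟩,⟨0,5,4,18,18,10,false,false⟩,⟨4,7,8,17,17,22,false,false⟩,⟨4,8,8,22,22,21,false,false⟩,⟨2,4,7,8,21,21,false,false⟩,⟨2,9,7,21,21,20,false,false⟩,⟨1,2,6,7,20,20,false,false⟩,⟨1,10,6,20,20,15,false,false⟩,⟨3,1,4,6,15,3,false,false⟩,⟨3,0,3,4,10,0,false,false⟩,⟨0,4,0,10,10,9,false,false⟩,⟨0,2,0,9,9,1,false,false⟩,⟨0,3,1,0,3,2,false,false⟩,⟨1,11,3,15,15,16,false,false⟩,⟨3,1,2,3,16,13,false,true⟩,⟨0,1,2,1,1,5,false,false⟩,⟨0,3,5,2,13,14,false,true⟩,⟨2,3,1,9,9,12,false,false⟩,⟨1,2,5,1,12,11,false,false⟩,⟨1,0,11,5,14,19,false,false⟩]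 (nat_lit 17) (nat_lit 43690) (by decide +kernel)
noncomputable def s511 : Raw := ⟨[(0,[11,9,1,2,3,4,5,10]),(1,[12,6,2,0,9]),(2,[15,13,3,0,1,6,14]),(3,[16,7,4,0,2,13,17]),(4,[8,5,0,3,7]),(5,[10,0,4,8,18]),(6,[14,2,1,12,19]),(7,[20,8,4,3,16,21]),(8,[18,5,4,7,20])], [14,15,13,17,16,21,20,18,10,11,9,12,19], [(3,13),(3,16),(0,3),(8,18)]⟩
def c511 : RawB s511 := raw1 s511 (nat_lit 11) [⟨0,1,4,4,4,8,false,false⟩,⟨0,2,4,8,8,5,false,false⟩,⟨2,3,8,5,5,18,false,false⟩,⟨3,4,5,18,18,10,false,false⟩,⟨0,3,4,5,10,0,false,false⟩,⟨2,5,8,18,18,20,false,false⟩,⟨2,6,8,20,20,7,false,false⟩,⟨1,2,4,8,7,7,false,false⟩,⟨1,7,4,7,7,3,false,false⟩,⟨0,1,0,4,3,3,false,false⟩,⟨0,8,0,3,3,2,false,false⟩,⟨0,2,2,0,0,1,false,false⟩,⟨0,1,2,1,1,6,false,false⟩,⟨0,9,6,2,2,14,false,false⟩,⟨0,10,6,14,14,19,false,true⟩,⟨1,0,1,6,19,12,false,false⟩,⟨2,1,0,1,12,9,false,false⟩,⟨2,3,9,0,10,11,false,false⟩,⟨9,10,14,2,2,15,true,false⟩,⟨8,10,3,2,15,13,false,false⟩,⟨8,9,3,13,13,17,false,false⟩,⟨7,8,7,3,17,16,false,false⟩,⟨7,6,16,7,20,21,false,false⟩]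 (nat_lit 20) (nat_lit 699050) (by decide +kernel)
noncomputable def s512 : Raw := ⟨[(0,[12,10,1,2,3,4,11]),(1,[13,5,2,0,10,14]),(2,[6,3,0,1,5]),(3,[16,7,4,0,2,6,15,17]),(4,[11,0,3,7,8,9,18]),(5,[19,6,2,1,13]),(6,[15,3,2,5,19]),(7,[20,8,4,3,16]),(8,[21,9,4,7,20,22]),(9,[23,18,4,8,21])], [11,12,10,14,13,19,15,17,16,20,22,21,23,18], [(4,7),(0,11),(0,10),(0,3)]⟩
def c512 : RawB s512 := raw1 s512 (nat_lit 12) [⟨0,1,3,3,3,4,false,false⟩,⟨0,2,4,3,3,7,false,false⟩,⟨1,3,3,4,4,0,false,false⟩,⟨2,5,7,3,3,16,false,false⟩,⟨2,4,7,16,16,20,false,false⟩,⟨1,6,0,3,3,2,false,false⟩,⟨6,7,3,2,2,6,false,false⟩,⟨7,8,6,2,2,5,false,false⟩,⟨1,8,0,2,5,1,false,false⟩,⟨8,9,5,1,1,13,false,false⟩,⟨7,8,6,5,13,19,false,false⟩,⟨6,7,3,6,19,15,false,false⟩,⟨6,5,15,3,16,17,false,false⟩,⟨0,2,4,7,20,8,false,false⟩,⟨9,10,13,1,1,14,false,false⟩,⟨1,10,0,1,14,10,false,false⟩,⟨1,11,0,10,10,12,false,false⟩,⟨3,1,4,0,12,11,false,true⟩,⟨0,1,4,8,8,9,false,false⟩,⟨0,3,9,4,11,18,false,true⟩,⟨2,3,8,20,20,22,false,false⟩,⟨1,2,9,8,22,21,false,false⟩,⟨0,1,18,9,21,23,false,false⟩]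 (nat_lit 17) (nat_lit 87381) (by decide +kernel)
noncomputable def s513 : Raw := ⟨[(0,[7,5,3,1,2,4,6]),(1,[12,8,2,0,3,11,13]),(2,[16,14,4,0,1,8,15]),(3,[11,1,0,5,17]),(4,[18,6,0,2,14,19]),(5,[17,3,0,7,9,20]),(6,[21,10,7,0,4,18,22]),(7,[9,5,0,6,10]),(8,[15,2,1,12,23]),(9,[20,5,7,10,24]),(10,[24,9,7,6,21])], [12,23,15,16,14,19,18,22,21,24,20,17,11,13], [(0,7)]⟩
def c513 : RawB s513 := raw1 s513 (nat_lit 12) [⟨0,1,5,5,5,9,false,false⟩,⟨0,2,9,5,5,7,false,false⟩,⟨1,3,5,9,9,20,false,false⟩,⟨3,4,20,9,9,24,false,false⟩,⟨0,4,7,9,24,10,false,false⟩,⟨4,5,24,10,10,21,false,false⟩,⟨0,5,7,10,21,6,false,false⟩,⟨0,6,7,6,6,0,false,false⟩,⟨0,2,0,7,5,5,false,false⟩,⟨1,2,5,20,20,17,false,false⟩,⟨0,1,0,5,17,3,false,false⟩,⟨0,7,3,0,0,1,false,false⟩,⟨0,1,1,3,17,11,false,false⟩,⟨0,8,11,1,1,13,false,false⟩,⟨8,9,1,13,13,12,false,true⟩,⟨8,9,12,1,1,8,false,false⟩,⟨7,9,0,1,8,2,false,false⟩,⟨7,6,2,0,6,4,false,false⟩,⟨8,11,12,8,8,23,true,false⟩,⟨9,11,2,8,23,15,false,false⟩,⟨9,10,2,15,15,16,false,false⟩,⟨7,9,4,2,16,14,false,false⟩,⟨7,8,4,14,14,19,false,false⟩,⟨6,7,6,4,19,18,false,false⟩,⟨6,5,18,6,21,22,false,false⟩]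 (nat_lit 8) (nat_lit 170) (by decide +kernel)
end Pool.Agent.FCT.R
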