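import Pool.Agent.Lib.MP_fe5cb4_co.FC.RawDef
set_option linter.defProp false
namespace Pool.Agent.FCT.R
open Pool.Agent.Lib.MP_fe5cb4_co.FC
noncomputable def s514 : Raw := ⟨[(0,[8,1,2,3,4,9]),(1,[10,5,2,0,8]),(2,[13,11,3,0,1,5,12]),(3,[14,6,4,0,2,11,15]),(4,[17,9,0,3,6,7,16]),(5,[12,2,1,10,18]),(6,[19,7,4,3,14]),(7,[20,16,4,6,19])], [14,19,20,16,17,9,8,10,18,12,13,11,15], [(1,0),(0,9),(0,3)]⟩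
def c514 : RawB s514 := raw1 s514 (nat_lit 11) [⟨0,1,1,1,1,2,false,false⟩,⟨0,2,1,2,2,5,false,false⟩,⟨2,3,2,5,5,12,false,false⟩,⟨3,4,12,5,5,18,false,false⟩,⟨0,4,1,5,18,10,false,false⟩,⟨0,5,1,10,10,8,false,false⟩,⟨1,0,2,1,8,0,false,false⟩,⟨0,6,0,8,8,9,false,false⟩,⟨0,7,0,9,9,4,false,false⟩,⟨1,0,2,0,4,3,false,false⟩,⟨0,8,3,4,4,6,false,false⟩,⟨0,9,3,6,6,14,false,false⟩,⟨9,10,6,14,14,19,false,true⟩,⟨8,9,4,6,19,7,false,false⟩,⟨0,10,3,14,14,15,false,true⟩,⟨9,10,7,19,19,20,false,false⟩,⟨8,9,4,7,20,16,false,false⟩,⟨7,8,9,4,16,17,false,false⟩,⟨1,0,2,3,15,11,false,false⟩,⟨1,2,11,2,12,13,false,false⟩] (nat_lit 29) (nat_lit 178956970) (by decide +kernel)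
noncomputable def s515 : Raw := ⟨[(0,[11,9,1,2,3,4,5,10]),(1,[12,7,6,2,0,9,13]),(2,[8,3,0,1,6]),(3,[14,4,0,2,8,15]),(4,[16,5,0,3,14,17]),(5,[18,10,0,4,16]),(6,[20,8,2,1,7,19]),(7,[19,6,1,12,21]),(8,[15,3,2,6,20])], [21,19,20,15,14,17,16,18,10,11,9,13,12], [(0,3),(3,14),(8,20)]⟩
def c515 : RawB s515 := raw1 s515 (nat_lit 11) [⟨0,1,0,0,0,1,false,false⟩,⟨0,2,1,0,0,2,false,false⟩,⟨2,3,0,2,2,3,false,false⟩,⟨2,5,0,3,3,4,false,false⟩,⟨2,4,0,4,4,5,false,false⟩,⟨5,6,3,4,4,14,false,false⟩,⟨6,7,4,14,14,17,false,false⟩,⟨4,6,5,4,17,16,false,false⟩,⟨5,8,3,14,14,15,false,false⟩,⟨3,5,2,3,15,8,false,false⟩,⟨0,3,1,2,8,6,false,false⟩,⟨5,9,8,15,15,20,false,false⟩,⟨3,5,6,8,20,20,false,false⟩,⟨3,10,6,20,20,19,false,false⟩,⟨0,3,1,6,19,7,false,false⟩,⟨3,5,7,19,19,21,false,true⟩,⟨0,3,1,7,21,12,false,true⟩,⟨4,5,5,16,16,18,false,false⟩,⟨2,4,0,5,18,10,false,false⟩,⟨2,3,0,10,10,11,false,false⟩,⟨1,2,1,0,11,9,false,false⟩,⟨1,0,9,1,12,13,false,false⟩]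 (nat_lit 9) (nat_lit 170) (by decide +kernel)
noncomputable def s516 : Raw := ⟨[(0,[7,6,5,4,1,2,10]),(1,[11,3,2,0,4]),(2,[13,10,0,1,3,12]),(3,[12,2,1,11,14]),(5,[15,4,0,6,8]),(6,[16,8,5,0,7,9,17]),(7,[18,9,6,0,10,19]),(8,[20,15,5,6,16]),(9,[21,17,6,7,18])], [14,12,13,10,19,18,21,17,16,20,15,4,11], [(2,12),(0,10),(0,4),(0,6)]⟩
def c516 : RawB s516 := raw1 s516 (nat_lit 11) [⟨0,1,5,5,5,15,false,false⟩,⟨0,2,5,15,15,8,false,false⟩,⟨2,3,15,8,8,20,false,false⟩,⟨3,4,20,8,8,16,false,false⟩,⟨0,4,5,8,16,6,false,false⟩,⟨0,5,5,6,6,0,false,false⟩,⟨0,1,0,5,15,4,false,false⟩,⟨0,6,4,0,0,1,false,false⟩,⟨6,7,1,0,0,2,false,false⟩,⟨6,8,1,2,2,3,false,false⟩,⟨6,0,3,1,4,11,false,false⟩,⟨8,9,3,2,2,12,false,false⟩,⟨6,8,11,3,12,14,true,true⟩,⟨9,10,2,12,12,13,false,false⟩,⟨7,9,0,2,13,10,false,false⟩,⟨5,7,6,0,10,7,false,false⟩,⟨5,6,6,7,7,9,false,false⟩,⟨5,4,9,6,16,17,false,false⟩,⟨7,8,7,10,10,19,false,false⟩,⟨6,7,9,7,19,18,false,false⟩,⟨5,6,17,9,18,21,false,false⟩]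 (nat_lit 11) (nat_lit 1365) (by decide +kernel)
noncomputable def s517 : Raw := ⟨[(0,[8,1,2,3,4,9]),(1,[10,5,2,0,8]),(2,[11,3,0,1,5]),(3,[12,6,4,0,2,11,13]),(4,[15,9,0,3,6,7,14]),(5,[11,2,1,10,16]),(6,[17,7,4,3,12,18]),(7,[19,14,4,6,17])], [13,12,18,17,19,14,15,9,8,10,16,11], [(0,8),(3,11),(3,12),(3,4)]⟩
def c517 : RawB s517 := raw1 s517 (nat_lit 10) [⟨0,1,11,11,11,13,false,true⟩,⟨0,1,11,13,13,3,false,false⟩,⟨0,3,11,3,3,2,false,false⟩,⟨0,2,11,2,2,5,false,false⟩,⟨3,4,2,3,3,0,false,false⟩,⟨3,2,0,2,5,1,false,false⟩,⟨1,5,13,3,3,12,true,false⟩,⟨2,1,1,5,5,10,false,false⟩,⟨3,2,0,1,10,8,false,false⟩,⟨1,0,10,5,11,16,false,false⟩,⟨5,6,3,12,12,6,false,false⟩,⟨4,5,0,3,6,4,false,false⟩,⟨4,3,4,0,8,9,false,false⟩,⟨6,9,6,12,12,18,false,false⟩,⟨6,8,6,18,18,17,false,false⟩,⟨5,6,4,6,17,7,false,false⟩,⟨6,7,7,17,17,19,false,false⟩,⟨5,6,4,7,19,14,false,false⟩,⟨4,5,9,4,14,15,false,false⟩]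 (nat_lit 15) (nat_lit 21845) (by decide +kernel)
noncomputable def s518 : Raw := ⟨[(0,[11,9,1,2,3,4,10]),(1,[12,5,2,0,9]),(2,[13,3,0,1,5,14]),(3,[15,6,4,0,2,13,16]),(4,[10,0,3,6,7,8]),(5,[14,2,1,12,17]),(6,[18,7,4,3,15,19]),(7,[20,8,4,6,18]),(8,[21,10,4,7,20])], [15,19,18,20,21,10,11,9,12,17,14,13,16], [(2,13),(2,0),(3,4),(4,10)]⟩
def c518 : RawB s518 := raw1 s518 (nat_lit 11) [⟨0,1,0,0,0,3,false,false⟩,⟨0,2,3,0,0,2,false,false⟩,⟨2,3,2,0,0,1,false,false⟩,⟨1,4,0,3,3,4,false,false⟩,⟨3,5,1,0,0,9,false,false⟩,⟨5,6,9,0,0,11,false,false⟩,⟨1,6,4,0,11,10,false,false⟩,⟨1,7,4,10,10,8,false,false⟩,⟨1,8,4,8,8,7,false,false⟩,⟨4,1,3,4,7,6,false,false⟩,⟨8,9,8,7,7,20,false,false⟩,⟨7,8,10,8,20,21,false,false⟩,⟨1,9,6,7,20,18,false,false⟩,⟨1,10,6,18,18,19,false,false⟩,⟨4,1,3,6,19,15,false,true⟩,⟨0,1,3,2,2,13,false,false⟩,⟨0,4,13,3,15,16,false,true⟩,⟨3,4,1,9,9,12,false,false⟩,⟨2,3,2,1,12,5,false,false⟩,⟨2,1,5,2,13,14,false,false⟩,⟨3,2,12,5,14,17,false,false⟩]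 (nat_lit 11) (nat_lit 682) (by decide +kernel)
noncomputable def s519 : Raw := ⟨[(0,[8,1,2,3,4,5,9]),(1,[10,6,2,0,8]),(2,[13,11,3,0,1,6,12]),(3,[14,4,0,2,11]),(4,[15,7,5,0,3,14,16]),(5,[18,9,0,4,7,17]),(6,[12,2,1,10,19]),(7,[17,5,4,15,20])], [10,19,12,13,11,14,16,15,20,17,18,9,8], [(1,8),(1,2),(2,3),(3,14)]⟩
def c519 : RawB s519 := raw1 s519 (nat_lit 11) [⟨0,1,0,0,0,9,false,false⟩,⟨0,2,9,0,0,8,false,false⟩,⟨2,3,8,0,0,1,false,false⟩,⟨3,4,0,1,1,2,false,false⟩,⟨2,5,8,1,1,10,true,false⟩,⟨1,2,9,0,0,5,false,false⟩,⟨2,6,5,0,0,4,false,false⟩,⟨3,7,0,2,2,3,false,false⟩,⟨3,6,3,0,4,4,false,false⟩,⟨7,8,3,2,2,11,false,false⟩,⟨3,7,4,3,11,14,false,false⟩,⟨3,6,4,14,14,16,false,false⟩,⟨4,9,1,2,2,6,false,false⟩,⟨4,5,6,1,10,10,false,false⟩,⟨4,10,10,6,6,19,true,false⟩,⟨9,10,2,6,19,12,false,false⟩,⟨8,9,11,2,12,13,false,false⟩,⟨3,5,4,16,16,15,false,false⟩,⟨2,3,5,4,15,7,false,false⟩,⟨3,4,7,15,15,20,false,false⟩,⟨2,3,5,7,20,17,false,false⟩,⟨1,2,9,5,17,18,false,false⟩]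 (nat_lit 21) (nat_lit 699050) (by decide +kernel)
noncomputable def s520 : Raw := ⟨[(0,[9,1,2,3,4,10]),(1,[11,5,2,0,9]),(2,[14,12,3,0,1,5,13]),(3,[15,7,6,4,0,2,12]),(4,[10,0,3,6,8]),(5,[13,2,1,11,16]),(6,[18,8,4,3,7,17,19]),(7,[17,6,3,15,20]),(8,[21,10,4,6,18])], [14,12,15,20,17,19,18,21,10,9,11,16,13], [(2,0),(0,9),(3,4),(4,10)]⟩
def c520 : RawB s520 := raw1 s520 (nat_lit 11) [⟨0,1,5,5,5,11,false,false⟩,⟨0,2,5,11,11,1,false,false⟩,⟨2,3,11,1,1,9,false,false⟩,⟨3,4,9,1,1,0,false,false⟩,⟨0,5,5,1,1,2,false,false⟩,⟨5,4,2,1,0,0,false,false⟩,⟨3,4,9,0,0,10,false,false⟩,⟨5,6,0,2,2,3,false,false⟩,⟨5,4,3,0,10,4,false,false⟩,⟨0,7,5,2,2,13,false,false⟩,⟨1,0,11,5,13,16,false,false⟩,⟨6,8,2,3,3,12,false,false⟩,⟨6,7,12,2,13,14,true,true⟩,⟨5,6,4,3,3,6,false,false⟩,⟨5,4,6,4,10,8,false,false⟩,⟨8,10,3,12,12,15,false,false⟩,⟨6,8,6,3,15,7,false,false⟩,⟨8,9,7,15,15,20,false,false⟩,⟨6,8,6,7,20,17,false,false⟩,⟨6,7,6,17,17,19,false,false⟩,⟨5,6,8,6,19,18,false,false⟩,⟨4,5,10,8,18,21,false,false⟩]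 (nat_lit 9) (nat_lit 341) (by decide +kernel)
noncomputable def s521 : Raw := ⟨[(0,[9,1,2,3,4,10]),(1,[11,5,2,0,9,12]),(2,[15,13,3,0,1,5,14]),(3,[16,7,6,4,0,2,13]),(4,[10,0,3,6,8]),(5,[14,2,1,11,17]),(6,[19,8,4,3,7,18,20]),(7,[18,6,3,16,21]),(8,[22,10,4,6,19])], [10,9,12,11,17,14,15,13,16,21,18,20,19,22], [(2,0),(0,9),(3,4),(4,10)]⟩
def c521 : RawB s521 := raw1 s521 (nat_lit 12) [⟨0,1,4,4,4,6,false,false⟩,⟨0,2,4,6,6,3,false,false⟩,⟨2,3,6,3,3,7,false,false⟩,⟨0,4,4,3,3,0,false,false⟩,⟨4,5,0,3,3,2,false,false⟩,⟨5,6,3,2,2,13,false,false⟩,⟨3,5,7,3,13,16,false,false⟩,⟨6,7,13,2,2,15,false,false⟩,⟨7,8,15,2,2,14,false,false⟩,⟨8,9,14,2,2,5,false,false⟩,⟨4,9,0,2,5,1,false,false⟩,⟨4,10,0,1,1,9,false,false⟩,⟨0,4,4,0,9,10,false,true⟩,⟨1,0,6,4,10,8,false,false⟩,⟨3,4,7,16,16,21,false,false⟩,⟨0,11,8,10,10,22,false,true⟩,⟨10,11,1,9,9,12,false,false⟩,⟨9,10,5,1,12,11,false,false⟩,⟨9,8,11,5,14,17,false,false⟩,⟨2,3,6,7,21,18,false,false⟩,⟨1,0,6,8,22,19,false,false⟩,⟨2,1,18,6,19,20,false,false⟩]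 (nat_lit 14) (nat_lit 10922) (by decide +kernel)
noncomputable def s522 : Raw := ⟨[(0,[10,1,2,3,4,5,11]),(1,[12,2,0,10,13]),(2,[14,6,3,0,1,12,15]),(3,[16,4,0,2,6]),(4,[17,7,5,0,3,16]),(5,[11,0,4,7,8,9,18]),(6,[16,3,2,14,19]),(7,[20,8,5,4,17]),(8,[21,9,5,7,20,22]),(9,[23,18,5,8,21])], [15,14,19,16,17,20,22,21,23,18,11,10,13,12], [(5,7),(7,17),(0,3),(3,16)]⟩
def c522 : RawB s522 := raw1 s522 (nat_lit 12) [⟨0,1,1,1,1,10,false,false⟩,⟨0,2,1,10,10,0,false,false⟩,⟨0,3,1,0,0,2,false,false⟩,⟨0,4,1,2,2,12,false,false⟩,⟨1,0,10,1,12,13,false,false⟩,⟨4,5,2,12,12,15,false,true⟩,⟨4,6,15,2,2,14,true,false⟩,⟨6,10,2,14,14,6,false,false⟩,⟨3,6,0,2,6,3,false,false⟩,⟨10,11,6,14,14,19,false,false⟩,⟨6,10,3,6,19,16,false,false⟩,⟨3,6,0,3,16,4,false,false⟩,⟨3,4,0,4,4,5,false,false⟩,⟨3,2,5,0,10,11,false,false⟩,⟨6,9,4,16,16,17,false,false⟩,⟨4,6,5,4,17,7,false,false⟩,⟨6,8,7,17,17,20,false,false⟩,⟨4,6,5,7,20,8,false,false⟩,⟨4,5,5,8,8,9,false,false⟩,⟨4,3,9,5,11,18,false,false⟩,⟨6,7,8,20,20,22,false,false⟩,⟨5,6,9,8,22,21,false,false⟩,⟨4,5,18,9,21,23,false,false⟩]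 (nat_lit 9) (nat_lit 341) (by decide +kernel)
noncomputable def s523 : Raw := ⟨[(0,[11,9,1,2,3,4,5,10]),(1,[12,6,2,0,9]),(2,[7,3,0,1,6]),(3,[13,4,0,2,7,8,14]),(4,[15,5,0,3,13,16]),(5,[17,10,0,4,15]),(6,[18,7,2,1,12]),(7,[19,8,3,2,6,18,20]),(8,[21,14,3,7,19])], [11,9,12,18,20,19,21,14,13,16,15,17,10], [(1,12),(3,7),(7,18),(7,19)]⟩
def c523 : RawB s523 := raw1 s523 (nat_lit 11) [⟨0,1,7,7,7,8,false,false⟩,⟨0,2,7,8,8,3,false,false⟩,⟨2,3,3,8,8,14,false,false⟩,⟨2,4,3,14,14,13,false,false⟩,⟨3,5,8,14,14,21,false,false⟩,⟨3,6,8,21,21,19,false,false⟩,⟨1,3,7,8,19,19,false,false⟩,⟨0,3,3,7,7,2,false,false⟩,⟨1,7,7,19,19,20,false,false⟩,⟨1,8,7,20,20,18,false,false⟩,⟨1,9,7,18,18,6,false,false⟩,⟨3,1,2,7,6,6,false,false⟩,⟨9,10,18,6,6,12,false,false⟩,⟨3,10,2,6,12,1,false,false⟩,⟨3,0,1,2,3,0,false,false⟩,⟨3,10,0,1,12,9,false,false⟩,⟨0,2,0,3,13,4,false,false⟩,⟨3,1,0,9,9,11,false,true⟩,⟨0,1,0,4,4,5,false,false⟩,⟨0,3,5,0,11,10,false,true⟩,⟨2,3,4,13,13,16,false,false⟩,⟨1,2,5,4,16,15,false,false⟩,⟨0,1,10,5,15,17,false,false⟩]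 (nat_lit 10) (nat_lit 341) (by decide +kernel)
end Pool.Agent.FCT.R
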