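import Pool.Agent.Lib.MP_fe5cb4_co.FC.RawDef
set_option linter.defProp false
namespace Pool.Agent.FCT.R
open Pool.Agent.Lib.MP_fe5cb4_co.FC
noncomputable def s552 : Raw := ⟨[(0,[9,1,2,3,4,10]),(1,[11,5,2,0,9]),(2,[14,12,3,0,1,5,13]),(3,[15,7,6,4,0,2,12]),(4,[10,0,3,6,8,16]),(5,[13,2,1,11,17]),(6,[19,8,4,3,7,18,20]),(7,[18,6,3,15,21]),(8,[22,16,4,6,19])], [11,17,13,14,12,15,21,18,20,19,22,16,10,9], [(5,1),(1,9),(0,10),(0,3)]⟩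
def c552 : RawB s552 := raw1 s552 (nat_lit 12) [⟨0,1,0,0,0,4,false,false⟩,⟨0,2,0,4,4,3,false,false⟩,⟨2,3,4,3,3,6,false,false⟩,⟨3,4,3,6,6,7,false,false⟩,⟨4,5,6,7,7,18,false,false⟩,⟨5,6,7,18,18,21,false,false⟩,⟨5,7,7,21,21,15,false,false⟩,⟨5,3,15,7,3,3,false,false⟩,⟨5,8,3,15,15,12,false,false⟩,⟨0,5,0,3,12,2,false,false⟩,⟨0,3,0,2,2,1,false,false⟩,⟨5,9,2,12,12,14,false,false⟩,⟨5,10,2,14,14,13,false,false⟩,⟨3,5,1,2,13,5,false,false⟩,⟨5,11,5,13,13,17,false,false⟩,⟨3,5,1,5,17,11,false,true⟩,⟨0,3,0,1,11,9,false,true⟩,⟨1,0,4,0,9,10,false,false⟩,⟨2,3,4,6,6,8,false,false⟩,⟨2,1,8,4,10,16,false,false⟩,⟨4,5,6,18,18,20,false,false⟩,⟨3,4,8,6,20,19,false,false⟩,⟨2,3,16,8,19,22,false,false⟩] (nat_lit 17) (nat_lit 87381) (by decide +kernel)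
noncomputable def s553 : Raw := ⟨[(0,[8,7,6,5,4,1,2,10]),(1,[11,3,2,0,4]),(2,[10,0,1,3,12]),(3,[12,2,1,11,13]),(5,[14,4,0,6,9,15]),(6,[9,5,0,7,16]),(7,[16,6,0,8,17]),(8,[17,7,0,10,18]),(9,[19,15,5,6,16])], [11,13,12,10,18,17,16,19,15,14,4], [(0,10),(0,4),(6,16),(5,14)]⟩
def c553 : RawB s553 := raw1 s553 (nat_lit 9) [⟨0,1,0,0,0,7,false,false⟩,⟨0,2,0,7,7,8,false,false⟩,⟨0,3,0,8,8,10,false,false⟩,⟨0,4,0,10,10,2,false,false⟩,⟨2,5,7,8,8,17,false,false⟩,⟨3,6,8,10,10,18,false,false⟩,⟨5,3,17,8,18,18,false,false⟩,⟨0,3,0,2,2,1,false,false⟩,⟨4,7,2,10,10,12,false,false⟩,⟨3,4,1,2,12,3,false,false⟩,⟨4,8,3,12,12,13,false,false⟩,⟨3,4,1,3,13,11,false,true⟩,⟨0,3,0,1,11,4,false,true⟩,⟨2,4,7,17,17,16,false,false⟩,⟨1,2,0,7,16,6,false,false⟩,⟨0,1,4,0,6,5,false,false⟩,⟨1,2,5,6,16,9,false,false⟩,⟨2,3,9,16,16,19,false,false⟩,⟨1,2,5,9,19,15,false,false⟩,⟨0,1,4,5,15,14,false,false⟩]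 (nat_lit 6) (nat_lit 42) (by decide +kernel)
noncomputable def s554 : Raw := ⟨[(0,[9,7,1,2,3,8]),(1,[10,2,0,7,11]),(2,[12,4,3,0,1,10]),(3,[8,0,2,4,5,6,13]),(4,[14,5,3,2,12,15]),(5,[16,6,3,4,14,17]),(6,[18,13,3,5,16])], [12,15,14,17,16,18,13,8,9,7,11,10], [(2,3),(3,13),(4,12),(4,14)]⟩
def c554 : RawB s554 := raw1 s554 (nat_lit 10) [⟨0,1,2,2,2,3,false,false⟩,⟨0,2,2,3,3,0,false,false⟩,⟨1,3,3,2,2,4,false,false⟩,⟨2,4,0,3,3,8,false,false⟩,⟨4,5,8,3,3,13,false,false⟩,⟨5,6,13,3,3,6,false,false⟩,⟨1,6,4,3,6,5,false,false⟩,⟨6,7,6,5,5,16,false,false⟩,⟨5,6,13,6,16,18,false,false⟩,⟨7,8,16,5,5,17,false,false⟩,⟨1,8,4,5,17,14,false,false⟩,⟨1,9,4,14,14,15,false,false⟩,⟨3,1,2,4,15,12,false,true⟩,⟨0,1,2,0,0,1,false,false⟩,⟨0,3,1,2,12,10,false,true⟩,⟨2,3,0,8,8,9,false,false⟩,⟨1,2,1,0,9,7,false,false⟩,⟨1,0,7,1,10,11,false,false⟩]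 (nat_lit 17) (nat_lit 43690) (by decide +kernel)
noncomputable def s555 : Raw := ⟨[(0,[10,9,8,7,6,1,2,11]),(1,[12,4,3,2,0,6,13]),(2,[11,0,1,3,5]),(3,[15,5,2,1,4,14,16]),(4,[14,3,1,12,17]),(5,[18,11,2,3,15]),(7,[19,6,0,8,20]),(8,[20,7,0,9,21]),(9,[21,8,0,10,22]),(10,[22,9,0,11,23])], [21,20,19,6,13,12,17,14,16,15,18,11,23,22], [(7,20),(7,0),(9,21),(9,10)]⟩
def c555 : RawB s555 := raw1 s555 (nat_lit 12) [⟨0,1,21,21,21,22,false,true⟩,⟨0,2,22,21,21,9,false,false⟩,⟨0,3,22,9,9,10,false,false⟩,⟨0,1,22,10,10,23,false,false⟩,⟨3,4,10,9,9,0,false,false⟩,⟨3,1,0,10,23,11,false,false⟩,⟨4,5,0,9,9,8,false,false⟩,⟨5,2,8,9,21,21,false,false⟩,⟨3,2,0,11,11,2,false,false⟩,⟨5,6,21,8,8,20,true,false⟩,⟨6,10,8,20,20,7,false,false⟩,⟨6,4,7,8,0,0,false,false⟩,⟨10,11,7,20,20,19,false,false⟩,⟨6,10,0,7,19,6,false,false⟩,⟨3,6,2,0,6,1,false,false⟩,⟨3,4,2,1,1,3,false,false⟩,⟨3,2,3,2,11,5,false,false⟩,⟨6,9,1,6,6,13,false,false⟩,⟨6,8,1,13,13,12,false,false⟩,⟨4,6,3,1,12,4,false,false⟩,⟨6,7,4,12,12,17,false,false⟩,⟨4,6,3,4,17,14,false,false⟩,⟨4,5,3,14,14,16,false,false⟩,⟨3,4,5,3,16,15,false,false⟩,⟨2,3,11,5,15,18,false,false⟩]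 (nat_lit 14) (nat_lit 5461) (by decide +kernel)
noncomputable def s556 : Raw := ⟨[(0,[10,8,1,2,3,4,9]),(1,[11,2,0,8,12]),(2,[13,5,3,0,1,11,14]),(3,[6,4,0,2,5,7]),(4,[9,0,3,6,15]),(5,[16,7,3,2,13,17]),(6,[19,15,4,3,7,18]),(7,[18,6,3,5,16,20])], [11,14,13,17,16,20,18,19,15,9,10,8,12], [(0,3),(7,16),(7,18)]⟩
def c556 : RawB s556 := raw1 s556 (nat_lit 11) [⟨0,1,8,8,8,10,false,false⟩,⟨0,2,8,10,10,0,false,false⟩,⟨2,3,10,0,0,9,false,false⟩,⟨0,4,8,0,0,1,false,false⟩,⟨4,5,0,1,1,2,false,false⟩,⟨4,6,0,2,2,3,false,false⟩,⟨4,3,3,0,9,4,false,false⟩,⟨5,7,1,2,2,11,false,false⟩,⟨0,5,8,1,11,12,false,true⟩,⟨4,5,4,3,3,6,false,false⟩,⟨4,3,6,4,9,15,false,false⟩,⟨6,8,3,2,2,5,false,false⟩,⟨6,5,5,3,6,7,false,false⟩,⟨7,10,11,2,2,14,true,false⟩,⟨8,10,5,2,14,13,false,false⟩,⟨8,9,5,13,13,17,false,false⟩,⟨6,8,7,5,17,16,false,false⟩,⟨6,7,7,16,16,20,false,false⟩,⟨5,6,6,7,20,18,false,false⟩,⟨4,5,15,6,18,19,false,false⟩]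 (nat_lit 13) (nat_lit 5461) (by decide +kernel)
noncomputable def s557 : Raw := ⟨[(0,[9,1,2,3,4,5]),(1,[10,7,6,2,0,9,11]),(2,[12,3,0,1,6,8]),(3,[13,4,0,2,12,14]),(4,[15,5,0,3,13,16]),(5,[17,9,0,4,15]),(6,[19,8,2,1,7,18,20]),(7,[18,6,1,10,21]),(8,[22,12,2,6,19])], [19,22,12,14,13,16,15,17,9,11,10,21,18,20], [(0,9),(3,12),(3,13),(0,2)]⟩
def c557 : RawB s557 := raw1 s557 (nat_lit 12) [⟨0,1,0,0,0,2,false,false⟩,⟨0,2,2,0,0,1,false,false⟩,⟨2,3,0,1,1,9,false,false⟩,⟨0,4,1,2,2,6,false,false⟩,⟨2,5,0,9,9,5,false,false⟩,⟨5,6,9,5,5,17,false,false⟩,⟨6,7,17,5,5,15,false,false⟩,⟨2,7,0,5,15,4,false,false⟩,⟨2,8,0,4,4,3,false,false⟩,⟨1,2,2,0,3,3,false,false⟩,⟨0,2,6,1,1,7,false,false⟩,⟨8,9,4,3,3,13,false,false⟩,⟨8,7,13,4,15,16,false,false⟩,⟨9,10,13,3,3,14,false,false⟩,⟨1,10,2,3,14,12,false,false⟩,⟨4,1,6,2,12,8,false,false⟩,⟨1,11,8,12,12,22,false,false⟩,⟨4,1,6,8,22,19,false,true⟩,⟨0,1,6,7,7,18,false,false⟩,⟨0,4,18,6,19,20,false,true⟩,⟨3,4,1,9,9,11,false,false⟩,⟨2,3,7,1,11,10,false,false⟩,⟨2,1,10,7,18,21,false,false⟩]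 (nat_lit 13) (nat_lit 5461) (by decide +kernel)
noncomputable def s558 : Raw := ⟨[(0,[11,9,1,2,3,4,10]),(1,[12,5,2,0,9]),(2,[15,13,3,0,1,5,14]),(3,[16,6,4,0,2,13]),(4,[10,0,3,6,7,8,17]),(5,[14,2,1,12,18]),(6,[19,7,4,3,16,20]),(7,[21,8,4,6,19]),(8,[22,17,4,7,21])], [12,18,14,15,13,16,20,19,21,22,17,10,11,9], [(3,4),(4,17),(6,16),(6,19)]⟩
def c558 : RawB s558 := raw1 s558 (nat_lit 12) [⟨0,1,0,0,0,4,false,false⟩,⟨0,2,0,4,4,3,false,false⟩,⟨2,4,4,3,3,6,false,false⟩,⟨2,3,4,6,6,7,false,false⟩,⟨3,5,7,6,6,19,false,false⟩,⟨5,6,6,19,19,20,false,false⟩,⟨5,7,6,20,20,16,false,false⟩,⟨5,4,16,6,3,3,false,false⟩,⟨5,8,3,16,16,13,false,false⟩,⟨0,5,0,3,13,2,false,false⟩,⟨0,4,0,2,2,1,false,false⟩,⟨5,9,2,13,13,15,false,false⟩,⟨5,10,2,15,15,14,false,false⟩,⟨4,5,1,2,14,5,false,false⟩,⟨5,11,5,14,14,18,false,false⟩,⟨4,5,1,5,18,12,false,true⟩,⟨0,4,0,1,12,9,false,true⟩,⟨3,5,7,19,19,21,false,false⟩,⟨2,3,4,7,21,8,false,false⟩,⟨3,4,8,21,21,22,false,false⟩,⟨2,3,4,8,22,17,false,false⟩,⟨1,2,0,4,17,10,false,false⟩,⟨0,1,9,0,10,11,false,false⟩]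 (nat_lit 16) (nat_lit 21845) (by decide +kernel)
noncomputable def s559 : Raw := ⟨[(0,[10,1,2,3,4,5,11]),(1,[12,6,2,0,10,13]),(2,[16,14,3,0,1,6,15]),(3,[17,8,7,4,0,2,14]),(4,[9,5,0,3,7]),(5,[11,0,4,9,18]),(6,[15,2,1,12,19]),(7,[21,9,4,3,8,20,22]),(8,[20,7,3,17,23]),(9,[18,5,4,7,21])], [20,22,21,18,11,10,13,12,19,15,16,14,17,23], [(5,11),(3,7),(7,20),(7,21)]⟩
def c559 : RawB s559 := raw1 s559 (nat_lit 12) [⟨0,1,14,14,14,17,false,false⟩,⟨0,2,17,14,14,3,false,false⟩,⟨2,3,14,3,3,2,false,false⟩,⟨3,5,2,3,3,0,false,false⟩,⟨3,4,2,0,0,1,false,false⟩,⟨4,6,1,0,0,10,false,false⟩,⟨4,7,1,10,10,13,false,false⟩,⟨6,8,0,10,10,11,false,false⟩,⟨6,9,0,11,11,5,false,false⟩,⟨5,6,3,0,5,4,false,false⟩,⟨9,10,11,5,5,18,false,false⟩,⟨6,10,4,5,18,9,false,false⟩,⟨5,6,3,4,9,7,false,false⟩,⟨6,10,7,9,18,21,false,false⟩,⟨5,0,7,3,17,8,false,false⟩,⟨6,11,7,21,21,22,false,false⟩,⟨5,6,8,7,22,20,false,true⟩,⟨0,5,17,8,20,23,false,true⟩,⟨4,6,1,13,13,12,false,false⟩,⟨3,4,2,1,12,6,false,false⟩,⟨4,5,6,12,12,19,false,false⟩,⟨3,4,2,6,19,15,false,false⟩,⟨2,3,14,2,15,16,false,false⟩]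 (nat_lit 10) (nat_lit 341) (by decide +kernel)
noncomputable def s560 : Raw := ⟨[(0,[11,1,2,3,4,5,12]),(1,[13,2,0,11,14]),(2,[15,6,3,0,1,13,16]),(3,[7,4,0,2,6]),(4,[18,8,5,0,3,7,17]),(5,[12,0,4,8,9,10,19]),(6,[20,7,3,2,15]),(7,[17,4,3,6,20]),(8,[21,9,5,4,18]),(9,[22,10,5,8,21,23]),(10,[24,19,5,9,22])], [21,23,22,24,19,12,11,14,13,16,15,20,17,18], [(9,21),(9,22),(9,5),(8,4)]⟩
def c560 : RawB s560 := raw1 s560 (nat_lit 12) [⟨0,1,6,6,6,20,false,false⟩,⟨0,2,6,20,20,15,false,false⟩,⟨0,3,6,15,15,2,false,false⟩,⟨0,4,6,2,2,3,false,false⟩,⟨0,1,3,6,20,7,false,false⟩,⟨0,5,7,3,3,4,false,false⟩,⟨4,5,2,3,4,0,false,false⟩,⟨0,1,4,7,20,17,false,false⟩,⟨0,6,17,4,4,18,false,false⟩,⟨6,7,4,18,18,8,false,false⟩,⟨5,6,0,4,8,5,false,false⟩,⟨6,8,8,5,5,9,false,false⟩,⟨6,7,9,8,18,21,false,true⟩,⟨6,9,21,9,9,23,true,false⟩,⟨9,11,9,23,23,22,false,false⟩,⟨8,9,5,9,22,10,false,false⟩,⟨9,10,10,22,22,24,false,false⟩,⟨8,9,5,10,24,19,false,false⟩,⟨5,8,0,5,19,12,false,false⟩,⟨5,7,0,12,12,11,false,false⟩,⟨4,5,2,0,11,1,false,false⟩,⟨5,6,1,11,11,14,false,false⟩,⟨4,5,2,1,14,13,false,false⟩,⟨4,3,13,2,15,16,false,false⟩]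 (nat_lit 8) (nat_lit 85) (by decide +kernel)
end Pool.Agent.FCT.R
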