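import Pool.Agent.Lib.MP_fe5cb4_co.FC.RawDef
set_option linter.defProp false
namespace Pool.Agent.FCT.R
open Pool.Agent.Lib.MP_fe5cb4_co.FC
noncomputable def s588 : Raw := ⟨[(0,[9,1,2,3,4,5,10]),(1,[11,7,6,2,0,9]),(2,[13,8,3,0,1,6,12]),(3,[14,4,0,2,8,15]),(4,[16,5,0,3,14]),(5,[17,10,0,4,16]),(6,[19,12,2,1,7,18]),(7,[18,6,1,11,20]),(8,[15,3,2,13,21])], [16,17,10,9,11,20,18,19,12,13,21,15,14], [(5,16),(5,10),(0,9),(0,3)]⟩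
def c588 : RawB s588 := raw1 s588 (nat_lit 11) [⟨0,1,2,2,2,8,false,false⟩,⟨0,2,2,8,8,13,false,false⟩,⟨0,3,2,13,13,12,false,false⟩,⟨0,4,2,12,12,6,false,false⟩,⟨0,5,2,6,6,1,false,false⟩,⟨0,6,2,1,1,0,false,false⟩,⟨0,1,0,2,8,3,false,false⟩,⟨0,7,3,0,0,4,false,false⟩,⟨7,8,4,0,0,5,false,false⟩,⟨8,9,5,0,0,10,false,false⟩,⟨6,9,1,0,10,9,false,false⟩,⟨8,10,5,10,10,17,false,false⟩,⟨7,8,4,5,17,16,false,true⟩,⟨0,7,3,4,16,14,false,true⟩,⟨1,0,8,3,14,15,false,false⟩,⟨2,1,13,8,15,21,false,false⟩,⟨6,8,1,9,9,11,false,false⟩,⟨5,6,6,1,11,7,false,false⟩,⟨6,7,7,11,11,20,false,false⟩,⟨5,6,6,7,20,18,false,false⟩,⟨4,5,12,6,18,19,false,false⟩] (nat_lit 9) (nat_lit 341) (by decide +kernel)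
noncomputable def s589 : Raw := ⟨[(0,[7,6,5,4,1,2,10]),(1,[11,3,2,0,4]),(2,[13,10,0,1,3,12]),(3,[12,2,1,11,14]),(5,[15,4,0,6,8,16]),(6,[8,5,0,7,9]),(7,[17,9,6,0,10]),(8,[19,16,5,6,9,18]),(9,[18,8,6,7,17])], [11,14,12,13,10,17,18,19,16,15,4], [(3,11),(3,12),(2,10),(1,0)]⟩
def c589 : RawB s589 := raw1 s589 (nat_lit 9) [⟨0,1,6,6,6,8,false,false⟩,⟨0,2,6,8,8,9,false,false⟩,⟨2,3,8,9,9,18,false,false⟩,⟨3,4,9,18,18,17,false,false⟩,⟨0,3,6,9,17,7,false,false⟩,⟨3,5,7,17,17,10,false,false⟩,⟨0,3,6,7,10,0,false,false⟩,⟨0,1,0,6,8,5,false,false⟩,⟨3,6,0,10,10,2,false,false⟩,⟨3,7,0,2,2,1,false,false⟩,⟨3,0,1,0,5,4,false,false⟩,⟨3,8,1,4,4,11,false,true⟩,⟨7,3,2,1,11,3,false,false⟩,⟨3,8,11,3,3,14,true,false⟩,⟨7,8,2,3,14,12,false,false⟩,⟨6,7,10,2,12,13,false,false⟩,⟨2,3,8,18,18,19,false,false⟩,⟨1,2,5,8,19,16,false,false⟩,⟨0,1,4,5,16,15,false,false⟩]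 (nat_lit 6) (nat_lit 21) (by decide +kernel)
noncomputable def s590 : Raw := ⟨[(0,[10,1,2,3,4]),(1,[11,5,2,0,10]),(2,[6,3,0,1,5]),(3,[13,7,4,0,2,6,12]),(4,[15,10,0,3,7,8,9,14]),(5,[16,6,2,1,11,17]),(6,[18,12,3,2,5,16]),(7,[19,8,4,3,13,20]),(8,[21,9,4,7,19]),(9,[22,14,4,8,21])], [21,22,14,15,10,11,17,16,18,12,13,20,19], [(4,7),(7,13),(7,19)]⟩
def c590 : RawB s590 := raw1 s590 (nat_lit 11) [⟨0,1,0,0,0,2,false,false⟩,⟨0,2,0,2,2,3,false,false⟩,⟨1,4,0,2,2,1,false,false⟩,⟨1,3,0,1,1,10,false,false⟩,⟨4,5,2,1,1,5,false,false⟩,⟨2,4,3,2,5,6,false,false⟩,⟨1,6,0,10,10,4,false,false⟩,⟨0,1,3,0,4,4,false,false⟩,⟨0,1,4,3,3,7,false,false⟩,⟨3,7,1,10,10,11,false,false⟩,⟨5,3,5,1,11,11,false,false⟩,⟨0,3,7,4,4,8,false,false⟩,⟨6,8,4,10,10,15,false,false⟩,⟨6,9,4,15,15,14,false,false⟩,⟨3,6,8,4,14,9,false,false⟩,⟨6,10,9,14,14,22,false,false⟩,⟨3,6,8,9,22,21,false,true⟩,⟨0,3,7,8,21,19,false,true⟩,⟨2,3,3,6,6,12,false,false⟩,⟨1,2,7,3,12,13,false,false⟩,⟨1,0,13,7,19,20,false,false⟩,⟨5,6,5,11,11,17,false,false⟩,⟨4,5,6,5,17,16,false,false⟩,⟨3,4,12,6,16,18,false,false⟩]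 (nat_lit 7) (nat_lit 85) (by decide +kernel)
noncomputable def s591 : Raw := ⟨[(0,[5,3,1,2,4]),(1,[10,6,2,0,3,9,11]),(2,[14,12,4,0,1,6,13]),(3,[9,1,0,5,7]),(4,[15,8,5,0,2,12,16]),(5,[7,3,0,4,8]),(6,[13,2,1,10,17]),(7,[19,9,3,5,8,18]),(8,[18,7,5,4,15,20])], [10,17,13,14,12,16,15,20,18,19,9,11], [(2,0),(3,7)]⟩
def c591 : RawB s591 := raw1 s591 (nat_lit 10) [⟨0,1,5,5,5,7,false,false⟩,⟨0,2,5,7,7,8,false,false⟩,⟨0,3,5,8,8,4,false,false⟩,⟨0,4,5,4,4,0,false,false⟩,⟨0,1,0,5,7,3,false,false⟩,⟨4,5,0,4,4,2,false,false⟩,⟨4,0,2,0,3,1,false,false⟩,⟨0,1,1,3,7,9,false,false⟩,⟨0,6,9,1,1,11,false,false⟩,⟨4,7,1,2,2,6,false,false⟩,⟨4,6,6,1,11,10,false,true⟩,⟨4,9,10,6,6,17,true,false⟩,⟨7,9,2,6,17,13,false,false⟩,⟨7,8,2,13,13,14,false,false⟩,⟨5,7,4,2,14,12,false,false⟩,⟨5,6,4,12,12,16,false,false⟩,⟨3,5,8,4,16,15,false,false⟩,⟨3,4,8,15,15,20,false,false⟩,⟨2,3,7,8,20,18,false,false⟩,⟨1,2,9,7,18,19,false,false⟩]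 (nat_lit 7) (nat_lit 85) (by decide +kernel)
noncomputable def s592 : Raw := ⟨[(0,[9,1,2,3,4,5]),(1,[10,6,2,0,9]),(2,[11,3,0,1,6]),(3,[12,7,4,0,2,11,13]),(4,[15,8,5,0,3,7,14,16]),(5,[18,9,0,4,8,17]),(6,[11,2,1,10,19]),(7,[14,4,3,12,20]),(8,[17,5,4,15,21])], [10,19,11,13,12,20,14,16,15,21,17,18,9], [(1,0),(3,11),(3,12),(3,4)]⟩
def c592 : RawB s592 := raw1 s592 (nat_lit 11) [⟨0,1,0,0,0,4,false,false⟩,⟨0,2,0,4,4,3,false,false⟩,⟨0,4,0,3,3,2,false,false⟩,⟨0,3,0,2,2,1,false,false⟩,⟨2,7,4,3,3,7,false,false⟩,⟨2,6,4,7,7,14,false,false⟩,⟨2,5,4,14,14,16,false,false⟩,⟨7,8,7,3,3,12,false,false⟩,⟨7,6,12,7,14,20,false,false⟩,⟨8,9,12,3,3,13,false,false⟩,⟨4,9,2,3,13,11,false,false⟩,⟨3,4,1,2,11,6,false,false⟩,⟨4,10,6,11,11,19,false,false⟩,⟨3,4,1,6,19,10,false,true⟩,⟨0,3,0,1,10,9,false,true⟩,⟨1,0,4,0,9,5,false,false⟩,⟨2,4,4,16,16,15,false,false⟩,⟨1,2,5,4,15,8,false,false⟩,⟨2,3,8,15,15,21,false,false⟩,⟨1,2,5,8,21,17,false,false⟩,⟨0,1,9,5,17,18,false,false⟩]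 (nat_lit 13) (nat_lit 2730) (by decide +kernel)
noncomputable def s593 : Raw := ⟨[(0,[8,7,6,1,2,3,11]),(1,[12,4,2,0,6]),(2,[5,3,0,1,4]),(3,[14,11,0,2,5,13]),(4,[15,5,2,1,12]),(5,[16,13,3,2,4,15]),(7,[17,6,0,8,9,10,18]),(8,[19,9,7,0,11]),(9,[20,10,7,8,19]),(10,[21,18,7,9,20])], [18,17,6,12,15,16,13,14,11,19,20,21], [(10,9),(9,19),(7,0),(0,11)]⟩
def c593 : RawB s593 := raw1 s593 (nat_lit 10) [⟨0,1,9,9,9,19,false,false⟩,⟨0,2,9,19,19,8,false,false⟩,⟨0,3,9,8,8,7,false,false⟩,⟨0,4,9,7,7,10,false,false⟩,⟨0,1,10,9,19,20,false,false⟩,⟨4,6,10,7,7,18,false,false⟩,⟨4,0,18,10,20,21,true,false⟩,⟨3,7,8,7,7,0,false,false⟩,⟨3,2,0,8,19,11,false,false⟩,⟨3,4,11,0,0,3,false,false⟩,⟨4,5,3,0,0,2,false,false⟩,⟨6,9,18,7,7,17,true,false⟩,⟨7,9,0,7,17,6,false,false⟩,⟨5,7,2,0,6,1,false,false⟩,⟨7,8,1,6,6,12,false,false⟩,⟨5,7,2,1,12,4,false,false⟩,⟨4,5,3,2,4,5,false,false⟩,⟨5,7,5,4,12,15,false,false⟩,⟨5,6,5,15,15,16,false,false⟩,⟨4,5,3,5,16,13,false,false⟩,⟨3,4,11,3,13,14,false,false⟩]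 (nat_lit 5) (nat_lit 10) (by decide +kernel)
noncomputable def s594 : Raw := ⟨[(0,[5,3,1,2,4]),(1,[10,6,2,0,3,9]),(2,[13,11,4,0,1,6,12]),(3,[9,1,0,5,7]),(4,[14,8,5,0,2,11,15]),(5,[7,3,0,4,8]),(6,[12,2,1,10,16]),(7,[18,9,3,5,8,17]),(8,[17,7,5,4,14,19])], [10,16,12,13,11,15,14,19,17,18,9], [(6,1),(1,9),(7,9),(7,8)]⟩
def c594 : RawB s594 := raw1 s594 (nat_lit 9) [⟨0,1,0,0,0,3,false,false⟩,⟨0,2,3,0,0,1,false,false⟩,⟨2,3,0,1,1,2,false,false⟩,⟨2,4,0,2,2,4,false,false⟩,⟨1,2,3,0,4,5,false,false⟩,⟨0,5,3,1,1,9,false,false⟩,⟨1,0,5,3,9,7,false,false⟩,⟨2,1,4,5,7,8,false,false⟩,⟨4,6,4,2,2,11,false,false⟩,⟨3,7,1,2,2,6,false,false⟩,⟨3,5,6,1,9,10,false,true⟩,⟨4,5,4,11,11,15,false,false⟩,⟨2,4,8,4,15,14,false,false⟩,⟨3,8,10,6,6,16,true,false⟩,⟨7,8,2,6,16,12,false,false⟩,⟨6,7,11,2,12,13,false,false⟩,⟨2,3,8,14,14,19,false,false⟩,⟨1,2,7,8,19,17,false,false⟩,⟨0,1,9,7,17,18,false,false⟩]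 (nat_lit 4) (nat_lit 10) (by decide +kernel)
noncomputable def s595 : Raw := ⟨[(0,[8,7,6,1,2,3,11]),(1,[12,4,2,0,6]),(2,[5,3,0,1,4]),(3,[14,11,0,2,5,13]),(4,[15,5,2,1,12]),(5,[16,13,3,2,4,15]),(7,[17,6,0,8,9,10,18]),(8,[19,9,7,0,11]),(9,[20,10,7,8,19,21]),(10,[22,18,7,9,20])], [19,21,20,22,18,17,6,12,15,16,13,14,11], [(9,19),(9,20),(9,7),(8,11)]⟩
def c595 : RawB s595 := raw1 s595 (nat_lit 11) [⟨0,1,2,2,2,5,false,false⟩,⟨0,2,2,5,5,4,false,false⟩,⟨2,3,5,4,4,15,false,false⟩,⟨3,4,4,15,15,12,false,false⟩,⟨0,3,2,4,12,1,false,false⟩,⟨3,5,1,12,12,6,false,false⟩,⟨0,3,2,1,6,0,false,false⟩,⟨0,1,0,2,5,3,false,false⟩,⟨3,6,0,6,6,7,false,false⟩,⟨3,7,7,0,0,8,false,false⟩,⟨0,7,3,0,8,11,false,false⟩,⟨3,8,8,7,7,9,false,false⟩,⟨3,7,9,8,11,19,false,true⟩,⟨6,7,6,7,7,17,false,false⟩,⟨3,9,19,9,9,21,true,false⟩,⟨2,3,5,15,15,16,false,false⟩,⟨9,10,9,21,21,20,false,false⟩,⟨8,9,7,9,20,10,false,false⟩,⟨8,7,10,7,17,18,false,false⟩,⟨8,9,18,10,20,22,false,false⟩,⟨1,2,3,5,16,13,false,false⟩,⟨0,1,11,3,13,14,false,false⟩]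 (nat_lit 8) (nat_lit 85) (by decide +kernel)
noncomputable def s596 : Raw := ⟨[(0,[8,7,6,1,2,3,12]),(1,[13,4,2,0,6]),(2,[5,3,0,1,4]),(3,[15,12,0,2,5,14]),(4,[16,5,2,1,13]),(5,[17,14,3,2,4,16]),(7,[18,6,0,8,9,10,11,19]),(8,[20,9,7,0,12]),(9,[21,10,7,8,20]),(10,[22,11,7,9,21]),(11,[23,19,7,10,22])], [23,19,18,6,13,16,17,14,15,12,20,21,22], [(11,22),(11,19),(9,21),(9,8)]⟩
def c596 : RawB s596 := raw1 s596 (nat_lit 11) [⟨0,1,9,9,9,20,false,false⟩,⟨0,2,9,20,20,8,false,false⟩,⟨0,3,9,8,8,7,false,false⟩,⟨0,4,9,7,7,10,false,false⟩,⟨0,1,10,9,20,21,false,false⟩,⟨4,5,10,7,7,11,false,false⟩,⟨4,6,10,11,11,22,false,false⟩,⟨0,4,21,10,22,22,false,false⟩,⟨3,8,8,7,7,0,false,false⟩,⟨3,2,0,8,20,12,false,false⟩,⟨3,4,12,0,0,3,false,false⟩,⟨4,7,3,0,0,2,false,false⟩,⟨5,9,11,7,7,19,false,false⟩,⟨5,6,19,11,22,23,true,true⟩,⟨4,6,3,2,2,5,false,false⟩,⟨4,5,3,5,5,14,false,false⟩,⟨9,10,7,19,19,18,false,false⟩,⟨8,9,0,7,18,6,false,false⟩,⟨7,8,2,0,6,1,false,false⟩,⟨7,6,1,2,5,4,false,false⟩,⟨7,8,4,1,6,13,false,false⟩,⟨6,7,5,4,13,16,false,false⟩,⟨5,6,14,5,16,17,false,false⟩,⟨3,4,12,3,14,15,false,false⟩]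 (nat_lit 7) (nat_lit 85) (by decide +kernel)
noncomputable def s597 : Raw := ⟨[(0,[11,1,2,3,4,7,12]),(1,[13,5,2,0,11,14]),(2,[6,3,0,1,5]),(3,[15,4,0,2,6]),(4,[10,9,8,7,0,3,15]),(5,[16,6,2,1,13,17]),(6,[15,3,2,5,16]),(8,[18,7,4,9,19]),(9,[19,8,4,10,20]),(10,[20,9,4,15,21])], [18,7,12,11,14,13,17,16,15,21,20,19], [(9,20),(4,15),(9,4),(4,0)]⟩
def c597 : RawB s597 := raw1 s597 (nat_lit 10) [⟨0,1,18,18,18,19,false,true⟩,⟨0,1,19,18,18,8,false,false⟩,⟨0,2,19,8,8,9,false,false⟩,⟨1,3,18,8,8,7,true,false⟩,⟨0,1,19,9,9,20,false,false⟩,⟨2,4,9,8,8,4,false,false⟩,⟨2,1,4,9,20,10,false,false⟩,⟨4,3,4,8,7,7,false,false⟩,⟨2,3,10,4,4,15,false,false⟩,⟨2,1,15,10,20,21,false,false⟩,⟨4,8,4,7,7,0,false,false⟩,⟨4,3,0,4,15,3,false,false⟩,⟨4,5,3,0,0,2,false,false⟩,⟨4,3,2,3,15,6,false,false⟩,⟨5,6,2,0,0,1,false,false⟩,⟨5,4,1,2,6,5,false,false⟩,⟨4,3,5,6,15,16,false,false⟩,⟨8,9,0,7,7,12,false,false⟩,⟨6,8,1,0,12,11,false,false⟩,⟨6,7,1,11,11,14,false,false⟩,⟨5,6,5,1,14,13,false,false⟩,⟨5,4,13,5,16,17,false,false⟩]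 (nat_lit 5) (nat_lit 21) (by decide +kernel)
noncomputable def s598 : Raw := ⟨[(0,[11,1,2,3,4,7,12]),(1,[13,5,2,0,11,14]),(2,[6,3,0,1,5]),(3,[15,4,0,2,6]),(4,[10,9,8,7,0,3,15]),(5,[16,6,2,1,13,17]),(6,[15,3,2,5,16]),(8,[18,7,4,9,19]),(9,[21,19,8,4,10,20]),(10,[20,9,4,15,22])], [12,11,14,13,17,16,15,22,20,21,19,18,7], [(9,20),(9,19),(4,7),(4,15)]⟩
def c598 : RawB s598 := raw1 s598 (nat_lit 11) [⟨0,1,4,4,4,8,false,false⟩,⟨0,2,8,4,4,7,false,false⟩,⟨2,3,4,7,7,0,false,false⟩,⟨2,5,4,0,0,3,false,false⟩,⟨2,6,4,3,3,15,false,false⟩,⟨2,4,4,15,15,10,false,false⟩,⟨6,7,15,3,3,6,false,false⟩,⟨5,7,0,3,6,2,false,false⟩,⟨7,8,6,2,2,5,false,false⟩,⟨7,6,5,6,15,16,false,false⟩,⟨5,8,0,2,5,1,false,false⟩,⟨1,2,8,4,10,9,false,false⟩,⟨5,9,0,1,1,11,false,false⟩,⟨3,5,7,0,11,12,true,true⟩,⟨4,5,10,15,15,22,false,false⟩,⟨2,4,9,10,22,20,false,false⟩,⟨2,3,9,20,20,21,false,false⟩,⟨9,10,1,11,11,14,false,false⟩,⟨8,9,5,1,14,13,false,false⟩,⟨8,7,13,5,16,17,false,false⟩,⟨1,2,8,9,21,19,false,false⟩,⟨0,1,7,8,19,18,false,false⟩]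 (nat_lit 9) (nat_lit 341) (by decide +kernel)
noncomputable def s599 : Raw := ⟨[(0,[8,7,6,5,4,1,2,11]),(1,[12,3,2,0,4]),(2,[11,0,1,3,13]),(3,[13,2,1,12,14]),(5,[15,4,0,6,9,10,16]),(6,[18,9,5,0,7,17]),(7,[17,6,0,8,19]),(8,[19,7,0,11,20]),(9,[21,10,5,6,18]),(10,[22,16,5,9,21])], [20,19,17,18,21,22,16,15,4,12,14,13,11], [(10,9),(9,18),(7,17),(7,8)]⟩
def c599 : RawB s599 := raw1 s599 (nat_lit 11) [⟨0,1,1,1,1,3,false,false⟩,⟨0,2,1,3,3,12,false,false⟩,⟨0,3,1,12,12,4,false,false⟩,⟨0,4,1,4,4,0,false,false⟩,⟨0,1,0,1,3,2,false,false⟩,⟨0,5,2,0,0,11,false,false⟩,⟨1,0,3,2,11,13,false,false⟩,⟨2,1,12,3,13,14,false,false⟩,⟨5,6,0,11,11,8,false,false⟩,⟨6,7,8,11,11,20,false,true⟩,⟨6,7,8,20,20,19,false,true⟩,⟨5,6,0,8,19,7,false,false⟩,⟨6,10,7,19,19,17,false,false⟩,⟨5,6,0,7,17,6,false,false⟩,⟨4,5,4,0,6,5,false,false⟩,⟨6,9,6,17,17,18,false,false⟩,⟨5,6,5,6,18,9,false,false⟩,⟨6,8,9,18,18,21,false,false⟩,⟨5,6,5,9,21,10,false,false⟩,⟨6,7,10,21,21,22,false,false⟩,⟨5,6,5,10,22,16,false,false⟩,⟨4,5,4,5,16,15,false,false⟩]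 (nat_lit 12) (nat_lit 1365) (by decide +kernel)
noncomputable def s600 : Raw := ⟨[(0,[12,10,1,2,3,4,11]),(1,[13,5,2,0,10,14]),(2,[6,3,0,1,5]),(3,[7,4,0,2,6]),(4,[16,11,0,3,7,8,9,15]),(5,[17,6,2,1,13,18]),(6,[7,3,2,5,17]),(7,[19,8,4,3,6,17]),(8,[20,9,4,7,19]),(9,[21,15,4,8,20])], [20,21,15,16,11,12,10,14,13,18,17,19], [(9,20),(9,15),(8,19)]⟩
def c600 : RawB s600 := raw1 s600 (nat_lit 10) [⟨0,1,2,2,2,5,false,false⟩,⟨0,2,2,5,5,1,false,false⟩,⟨0,3,2,1,1,0,false,false⟩,⟨0,4,2,0,0,3,false,false⟩,⟨0,1,3,2,5,6,false,false⟩,⟨4,5,3,0,0,4,false,false⟩,⟨4,0,4,3,6,7,false,false⟩,⟨1,0,5,6,7,17,false,false⟩,⟨0,6,17,7,7,19,false,false⟩,⟨4,6,4,7,19,8,false,false⟩,⟨5,7,0,4,4,11,false,false⟩,⟨4,8,8,4,4,9,false,false⟩,⟨4,6,9,8,19,20,false,true⟩,⟨5,6,0,11,11,12,false,false⟩,⟨3,5,1,0,12,10,false,false⟩,⟨4,9,20,9,9,21,true,false⟩,⟨8,9,4,9,21,15,false,false⟩,⟨7,8,11,4,15,16,false,false⟩,⟨3,4,1,10,10,14,false,false⟩,⟨2,3,5,1,14,13,false,false⟩,⟨2,1,13,5,17,18,false,false⟩]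 (nat_lit 5) (nat_lit 10) (by decide +kernel)
noncomputable def s601 : Raw := ⟨[(0,[10,1,2,3,4,5,11]),(1,[12,6,2,0,10]),(2,[7,3,0,1,6]),(3,[13,8,4,0,2,7,9,14]),(4,[17,15,5,0,3,8,16]),(5,[18,11,0,4,15]),(6,[19,7,2,1,12]),(7,[20,9,3,2,6,19,21]),(8,[16,4,3,13,22]),(9,[23,14,3,7,20])], [16,17,15,18,11,10,12,19,21,20,23,14,13,22], [(5,0),(0,10),(0,3),(6,12)]⟩
def c601 : RawB s601 := raw1 s601 (nat_lit 12) [⟨0,1,0,0,0,1,false,false⟩,⟨0,2,0,1,1,2,false,false⟩,⟨2,3,2,1,1,6,false,false⟩,⟨2,4,2,6,6,7,false,false⟩,⟨0,2,0,2,7,3,false,false⟩,⟨0,5,3,0,0,4,false,false⟩,⟨4,6,7,6,6,19,false,false⟩,⟨3,6,1,6,19,12,false,false⟩,⟨3,7,1,12,12,10,false,false⟩,⟨1,3,0,1,10,10,false,false⟩,⟨0,3,3,4,4,8,false,false⟩,⟨1,8,0,10,10,11,false,false⟩,⟨5,1,4,0,11,5,false,false⟩,⟨1,9,5,11,11,18,false,false⟩,⟨1,10,5,18,18,15,false,false⟩,⟨5,1,4,5,15,15,false,false⟩,⟨0,1,8,3,3,13,false,false⟩,⟨5,11,4,15,15,17,false,false⟩,⟨3,5,8,4,17,16,false,true⟩,⟨0,3,13,8,16,22,false,true⟩,⟨2,3,3,7,7,9,false,false⟩,⟨2,1,9,3,13,14,false,false⟩,⟨4,5,7,19,19,21,false,false⟩,⟨3,4,9,7,21,20,false,false⟩,⟨2,3,14,9,20,23,false,false⟩]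 (nat_lit 13) (nat_lit 2730) (by decide +kernel)
noncomputable def s602 : Raw := ⟨[(0,[7,6,5,4,1,2,10]),(1,[11,3,2,0,4,12]),(2,[14,10,0,1,3,13]),(3,[13,2,1,11,15]),(5,[16,4,0,6,8]),(6,[8,5,0,7,9]),(7,[17,9,6,0,10,18]),(8,[16,5,6,9,19]),(9,[19,8,6,7,17,20])], [11,15,13,14,10,18,17,20,19,16,4,12], [(1,4),(1,11),(2,13),(2,10)]⟩
def c602 : RawB s602 := raw1 s602 (nat_lit 10) [⟨0,1,5,5,5,16,false,false⟩,⟨0,2,5,16,16,8,false,false⟩,⟨2,3,16,8,8,19,false,false⟩,⟨3,4,19,8,8,9,false,false⟩,⟨0,4,5,8,9,6,false,false⟩,⟨4,5,9,6,6,7,false,false⟩,⟨0,5,5,6,7,0,false,false⟩,⟨0,1,0,5,16,4,false,false⟩,⟨0,7,4,0,0,1,false,false⟩,⟨0,6,4,1,1,12,false,false⟩,⟨6,8,1,12,12,11,false,true⟩,⟨6,8,11,1,1,3,false,false⟩,⟨7,8,0,1,3,2,false,false⟩,⟨7,5,2,0,7,10,false,false⟩,⟨6,9,11,3,3,15,true,false⟩,⟨8,9,2,3,15,13,false,false⟩,⟨7,8,10,2,13,14,false,false⟩,⟨5,6,7,10,10,18,false,false⟩,⟨4,5,9,7,18,17,false,false⟩,⟨4,3,17,9,19,20,false,false⟩]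 (nat_lit 9) (nat_lit 341) (by decide +kernel)
noncomputable def s603 : Raw := ⟨[(0,[8,1,2,3,4,9]),(1,[10,7,6,5,2,0,8]),(2,[11,3,0,1,5,12]),(3,[13,4,0,2,11,14]),(4,[15,9,0,3,13]),(5,[17,12,2,1,6,16]),(6,[19,16,5,1,7,18]),(7,[18,6,1,10,20])], [10,20,18,19,16,17,12,11,14,13,15,9,8], [(1,10),(5,16),(5,12)]⟩
def c603 : RawB s603 := raw1 s603 (nat_lit 11) [⟨0,1,0,0,0,2,false,false⟩,⟨0,2,0,2,2,1,false,false⟩,⟨2,3,1,2,2,5,false,false⟩,⟨3,4,2,5,5,12,false,false⟩,⟨3,5,2,12,12,11,false,false⟩,⟨1,3,0,2,11,3,false,false⟩,⟨4,6,5,12,12,17,false,false⟩,⟨4,7,5,17,17,16,false,false⟩,⟨2,4,1,5,16,6,false,false⟩,⟨4,8,6,16,16,19,false,false⟩,⟨4,9,6,19,19,18,false,false⟩,⟨2,4,1,6,18,7,false,false⟩,⟨4,10,7,18,18,20,false,false⟩,⟨2,4,1,7,20,10,false,true⟩,⟨0,2,0,1,10,8,false,true⟩,⟨1,2,0,3,3,4,false,false⟩,⟨1,0,4,0,8,9,false,false⟩,⟨3,4,3,11,11,14,false,false⟩,⟨2,3,4,3,14,13,false,false⟩,⟨1,2,9,4,13,15,false,false⟩]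 (nat_lit 15) (nat_lit 10922) (by decide +kernel)
end Pool.Agent.FCT.R
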