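import Pool.Agent.Lib.MP_fe5cb4_co.FC.RawDef
set_option linter.defProp false
namespace Pool.Agent.FCT.R
open Pool.Agent.Lib.MP_fe5cb4_co.FC
noncomputable def s604 : Raw := ⟨[(0,[11,9,1,2,3,4,10]),(1,[12,5,2,0,9,13]),(2,[16,14,3,0,1,5,15]),(3,[17,6,4,0,2,14]),(4,[10,0,3,6,7,8]),(5,[15,2,1,12,18]),(6,[19,7,4,3,17,20]),(7,[21,8,4,6,19]),(8,[22,10,4,7,21])], [10,11,9,13,12,18,15,16,14,17,20,19,21,22], [(0,10),(0,9),(3,14),(0,2)]⟩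
def c604 : RawB s604 := raw1 s604 (nat_lit 12) [⟨0,1,7,7,7,21,false,false⟩,⟨0,2,21,7,7,8,false,false⟩,⟨2,3,7,8,8,4,false,false⟩,⟨2,4,7,4,4,6,false,false⟩,⟨2,1,6,7,21,19,false,false⟩,⟨3,5,8,4,4,10,false,false⟩,⟨3,0,10,8,21,22,true,false⟩,⟨2,3,19,6,6,20,false,false⟩,⟨5,6,4,10,10,0,false,false⟩,⟨5,4,0,4,6,3,false,false⟩,⟨4,3,3,6,20,17,false,false⟩,⟨6,7,10,0,0,11,true,false⟩,⟨5,6,3,0,0,2,false,false⟩,⟨5,4,2,3,17,14,false,false⟩,⟨7,11,0,11,11,9,false,false⟩,⟨6,7,2,0,9,1,false,false⟩,⟨7,10,1,9,9,13,false,false⟩,⟨7,9,1,13,13,12,false,false⟩,⟨6,7,2,1,12,5,false,false⟩,⟨7,8,5,12,12,18,false,false⟩,⟨6,7,2,5,18,15,false,false⟩,⟨5,6,14,2,15,16,false,false⟩] (nat_lit 17) (nat_lit 43690) (by decide +kernel)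
noncomputable def s605 : Raw := ⟨[(0,[9,1,2,3,4,5,10]),(1,[8,7,6,2,0,9]),(2,[11,3,0,1,6,12]),(3,[13,4,0,2,11,14]),(4,[15,5,0,3,13,16]),(5,[17,10,0,4,15]),(6,[19,12,2,1,7,18]),(7,[21,18,6,1,8,20]),(8,[20,7,1,9,22])], [20,21,18,19,12,11,14,13,16,15,17,10,9,22], [(3,2),(1,6),(6,18),(6,12)]⟩
def c605 : RawB s605 := raw1 s605 (nat_lit 12) [⟨0,1,0,0,0,2,false,false⟩,⟨0,2,2,0,0,3,false,false⟩,⟨2,3,0,3,3,4,false,false⟩,⟨3,4,3,4,4,13,false,false⟩,⟨3,6,3,13,13,14,false,false⟩,⟨3,7,3,14,14,11,false,false⟩,⟨0,3,2,3,11,11,false,false⟩,⟨0,8,2,11,11,12,false,false⟩,⟨0,9,2,12,12,6,false,false⟩,⟨1,0,0,2,6,1,false,false⟩,⟨0,5,1,6,6,7,false,false⟩,⟨0,3,1,7,7,8,false,false⟩,⟨1,0,0,1,8,9,false,false⟩,⟨9,10,12,6,6,19,false,false⟩,⟨5,10,7,6,19,18,false,false⟩,⟨5,11,7,18,18,21,false,false⟩,⟨3,5,8,7,21,20,false,true⟩,⟨0,3,9,8,20,22,false,true⟩,⟨2,3,0,4,4,5,false,false⟩,⟨2,1,5,0,9,10,false,false⟩,⟨4,5,4,13,13,16,false,false⟩,⟨3,4,5,4,16,15,false,false⟩,⟨2,3,10,5,15,17,false,false⟩]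 (nat_lit 13) (nat_lit 5461) (by decide +kernel)
noncomputable def s606 : Raw := ⟨[(0,[8,1,2,3,4,5,9]),(1,[10,6,2,0,8,11]),(2,[12,3,0,1,6,7]),(3,[13,4,0,2,12,14]),(4,[15,5,0,3,13,16]),(5,[17,9,0,4,15]),(6,[18,7,2,1,10,19]),(7,[20,12,2,6,18])], [12,14,13,16,15,17,9,8,11,10,19,18,20], [(5,9),(0,3),(3,12),(3,13)]⟩
def c606 : RawB s606 := raw1 s606 (nat_lit 11) [⟨0,1,2,2,2,6,false,false⟩,⟨0,2,2,6,6,1,false,false⟩,⟨0,3,2,1,1,0,false,false⟩,⟨3,4,1,0,0,8,false,false⟩,⟨4,5,0,8,8,9,false,false⟩,⟨4,6,0,9,9,5,false,false⟩,⟨4,7,0,5,5,4,false,false⟩,⟨0,4,2,0,4,3,false,false⟩,⟨7,8,5,4,4,15,false,false⟩,⟨6,7,9,5,15,17,false,false⟩,⟨8,9,15,4,4,16,false,false⟩,⟨4,9,3,4,16,13,false,false⟩,⟨4,10,3,13,13,14,false,false⟩,⟨0,4,2,3,14,12,false,true⟩,⟨1,0,6,2,12,7,false,false⟩,⟨0,4,7,12,12,20,false,true⟩,⟨1,0,6,7,20,18,false,false⟩,⟨3,4,1,8,8,11,false,false⟩,⟨2,3,6,1,11,10,false,false⟩,⟨2,1,10,6,18,19,false,false⟩]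 (nat_lit 13) (nat_lit 2730) (by decide +kernel)
noncomputable def s607 : Raw := ⟨[(0,[10,1,2,3,4,5,11]),(1,[12,6,2,0,10,13]),(2,[7,3,0,1,6]),(3,[14,4,0,2,7]),(4,[15,8,5,0,3,14,16]),(5,[11,0,4,8,9,17]),(6,[18,7,2,1,12,19]),(7,[14,3,2,6,18]),(8,[20,9,5,4,15,21]),(9,[22,17,5,8,20])], [17,11,10,13,12,19,18,14,16,15,21,20,22], [(9,5),(5,11),(5,4)]⟩
def c607 : RawB s607 := raw1 s607 (nat_lit 11) [⟨0,1,0,0,0,2,false,false⟩,⟨0,2,0,2,2,3,false,false⟩,⟨0,3,0,3,3,4,false,false⟩,⟨1,4,2,0,0,1,false,false⟩,⟨2,5,3,2,2,7,false,false⟩,⟨1,5,1,2,7,6,false,false⟩,⟨5,6,7,6,6,18,false,false⟩,⟨2,5,3,7,18,14,false,false⟩,⟨3,2,4,3,14,14,false,false⟩,⟨6,7,18,6,6,19,false,false⟩,⟨1,7,1,6,19,12,false,false⟩,⟨1,8,1,12,12,13,false,false⟩,⟨1,9,1,13,13,10,false,false⟩,⟨4,1,0,1,10,10,false,false⟩,⟨4,10,0,10,10,11,false,false⟩,⟨0,4,4,0,11,5,false,false⟩,⟨0,2,5,4,4,8,false,false⟩,⟨0,1,5,8,8,9,false,false⟩,⟨0,4,9,5,11,17,false,true⟩,⟨0,4,9,17,17,22,false,true⟩,⟨1,0,8,9,22,20,false,false⟩,⟨3,4,4,14,14,16,false,false⟩,⟨2,3,8,4,16,15,false,false⟩,⟨2,1,15,8,20,21,false,false⟩]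 (nat_lit 7) (nat_lit 85) (by decide +kernel)
noncomputable def s608 : Raw := ⟨[(0,[12,10,1,2,3,4,11]),(1,[13,5,2,0,10,14]),(2,[6,3,0,1,5]),(3,[16,7,4,0,2,6,15]),(4,[11,0,3,7,8,9]),(5,[17,6,2,1,13]),(6,[15,3,2,5,17]),(7,[18,8,4,3,16,19]),(8,[20,9,4,7,18,21]),(9,[22,11,4,8,20])], [21,20,22,11,12,10,14,13,17,15,16,19,18], [(4,7),(7,16),(7,18)]⟩
def c608 : RawB s608 := raw1 s608 (nat_lit 11) [⟨0,1,2,2,2,3,false,false⟩,⟨0,2,2,3,3,6,false,false⟩,⟨0,3,2,6,6,5,false,false⟩,⟨0,4,2,5,5,1,false,false⟩,⟨0,6,2,1,1,0,false,false⟩,⟨0,1,0,2,3,3,false,false⟩,⟨0,7,3,0,0,4,false,false⟩,⟨0,1,4,3,3,7,false,false⟩,⟨7,8,0,4,4,11,false,false⟩,⟨8,9,4,11,11,9,false,false⟩,⟨0,8,7,4,9,8,false,false⟩,⟨9,10,11,9,9,22,false,false⟩,⟨8,10,8,9,22,20,false,false⟩,⟨8,5,8,20,20,21,false,true⟩,⟨4,5,5,1,1,13,false,false⟩,⟨3,4,6,5,13,17,false,false⟩,⟨2,3,3,6,17,15,false,false⟩,⟨1,2,7,3,15,16,false,false⟩,⟨0,8,7,8,21,18,false,true⟩,⟨1,0,16,7,18,19,false,false⟩,⟨7,8,0,11,11,12,false,false⟩,⟨6,7,1,0,12,10,false,false⟩,⟨6,5,10,1,13,14,false,false⟩]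 (nat_lit 7) (nat_lit 85) (by decide +kernel)
noncomputable def s609 : Raw := ⟨[(0,[10,1,2,3,4,5,11]),(1,[12,6,2,0,10]),(2,[7,3,0,1,6]),(3,[15,13,4,0,2,7,14]),(4,[16,8,5,0,3,13]),(5,[11,0,4,8,9,17]),(6,[18,7,2,1,12]),(7,[19,14,3,2,6,18]),(8,[20,9,5,4,16,21]),(9,[22,17,5,8,20])], [11,10,12,18,19,14,15,13,16,21,20,22,17], [(8,16),(8,20),(5,11),(5,4)]⟩
def c609 : RawB s609 := raw1 s609 (nat_lit 11) [⟨0,1,0,0,0,3,false,false⟩,⟨0,2,0,3,3,4,false,false⟩,⟨2,3,4,3,3,13,false,false⟩,⟨2,4,4,13,13,16,false,false⟩,⟨3,5,3,13,13,15,false,false⟩,⟨3,6,3,15,15,14,false,false⟩,⟨3,7,3,14,14,7,false,false⟩,⟨1,3,0,3,7,2,false,false⟩,⟨3,8,2,7,7,6,false,false⟩,⟨3,9,2,6,6,1,false,false⟩,⟨1,3,0,2,1,1,false,false⟩,⟨0,3,4,0,0,5,false,false⟩,⟨9,10,6,1,1,12,false,false⟩,⟨8,9,7,6,12,18,false,false⟩,⟨7,8,14,7,18,19,false,false⟩,⟨1,10,0,1,12,10,false,false⟩,⟨3,1,5,0,10,11,false,true⟩,⟨0,2,5,4,16,8,false,false⟩,⟨0,1,5,8,8,9,false,false⟩,⟨0,3,9,5,11,17,false,true⟩,⟨2,3,8,16,16,21,false,false⟩,⟨1,2,9,8,21,20,false,false⟩,⟨0,1,17,9,20,22,false,false⟩]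 (nat_lit 7) (nat_lit 85) (by decide +kernel)
noncomputable def s610 : Raw := ⟨[(0,[8,1,2,3,4,9]),(1,[10,5,2,0,8]),(2,[11,3,0,1,5,12]),(3,[13,6,4,0,2,11,14]),(4,[16,9,0,3,6,7,15]),(5,[12,2,1,10,17]),(6,[18,7,4,3,13,19]),(7,[20,15,4,6,18])], [9,8,10,17,12,11,14,13,19,18,20,15,16], [(1,10),(3,11),(3,13),(3,4)]⟩
def c610 : RawB s610 := raw1 s610 (nat_lit 11) [⟨0,1,9,9,9,16,false,true⟩,⟨0,3,16,9,9,4,false,false⟩,⟨1,2,4,4,4,6,false,false⟩,⟨2,4,6,4,4,3,false,false⟩,⟨2,5,6,3,3,13,false,false⟩,⟨5,6,13,3,3,14,false,false⟩,⟨4,7,4,3,3,0,false,false⟩,⟨3,4,9,4,0,0,false,false⟩,⟨2,4,6,13,13,19,false,false⟩,⟨7,8,3,0,0,2,false,false⟩,⟨7,6,2,3,14,11,false,false⟩,⟨3,9,9,0,0,8,true,false⟩,⟨8,9,2,0,8,1,false,false⟩,⟨2,3,6,19,19,18,false,false⟩,⟨9,10,1,8,8,10,false,false⟩,⟨8,9,2,1,10,5,false,false⟩,⟨8,7,5,2,11,12,false,false⟩,⟨9,8,10,5,12,17,false,false⟩,⟨1,2,4,6,18,7,false,false⟩,⟨1,0,7,4,16,15,false,false⟩,⟨1,2,15,7,18,20,false,false⟩]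 (nat_lit 18) (nat_lit 87381) (by decide +kernel)
noncomputable def s611 : Raw := ⟨[(0,[10,1,2,3,4,5,11]),(1,[12,6,2,0,10,13]),(2,[14,3,0,1,6,15]),(3,[16,8,7,4,0,2,14,17]),(4,[9,5,0,3,7]),(5,[11,0,4,9,18]),(6,[15,2,1,12,19]),(7,[21,9,4,3,8,20]),(8,[20,7,3,16,22]),(9,[18,5,4,7,21])], [12,19,15,14,17,16,22,20,21,18,11,10,13], [(1,10),(1,2),(0,11),(0,3)]⟩
def c611 : RawB s611 := raw1 s611 (nat_lit 11) [⟨0,1,0,0,0,11,false,false⟩,⟨0,2,0,11,11,5,false,false⟩,⟨2,3,11,5,5,18,false,false⟩,⟨3,4,18,5,5,9,false,false⟩,⟨0,4,0,5,9,4,false,false⟩,⟨4,5,9,4,4,7,false,false⟩,⟨4,3,7,9,18,21,false,false⟩,⟨5,6,7,4,4,3,false,false⟩,⟨6,0,3,4,0,0,false,false⟩,⟨1,0,11,0,0,10,false,false⟩,⟨6,7,0,3,3,2,false,false⟩,⟨6,0,2,0,10,1,false,false⟩,⟨7,8,3,2,2,14,false,false⟩,⟨8,9,2,14,14,15,false,false⟩,⟨6,8,1,2,15,6,false,false⟩,⟨8,10,6,15,15,19,false,false⟩,⟨6,8,1,6,19,12,false,true⟩,⟨0,6,10,1,12,13,false,true⟩,⟨5,6,7,3,3,8,false,false⟩,⟨5,4,8,7,21,20,false,false⟩,⟨7,8,3,14,14,17,false,false⟩,⟨6,7,8,3,17,16,false,false⟩,⟨6,5,16,8,20,22,false,false⟩]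 (nat_lit 7) (nat_lit 85) (by decide +kernel)
noncomputable def s612 : Raw := ⟨[(0,[9,1,2,3,4,5,10]),(1,[8,7,6,2,0,9]),(2,[13,11,3,0,1,6,12]),(3,[14,4,0,2,11,15]),(4,[16,5,0,3,14]),(5,[17,10,0,4,16]),(6,[19,12,2,1,7,18]),(7,[18,6,1,8,20]),(8,[20,7,1,9,21])], [18,19,12,13,11,15,14,16,17,10,9,21,20], [(1,9),(1,2),(6,18),(6,12)]⟩
def c612 : RawB s612 := raw1 s612 (nat_lit 11) [⟨0,2,9,9,9,10,false,false⟩,⟨0,3,9,10,10,0,false,false⟩,⟨3,4,10,0,0,5,false,false⟩,⟨0,5,9,0,0,1,false,false⟩,⟨0,1,1,9,9,8,false,false⟩,⟨5,6,0,1,1,2,false,false⟩,⟨5,7,0,2,2,3,false,false⟩,⟨5,4,3,0,5,4,false,false⟩,⟨6,8,1,2,2,6,false,false⟩,⟨6,0,6,1,8,7,false,false⟩,⟨6,9,7,6,6,18,false,false⟩,⟨0,6,8,7,18,20,false,true⟩,⟨5,6,4,3,3,14,false,false⟩,⟨4,5,5,4,14,16,false,false⟩,⟨3,4,10,5,16,17,false,false⟩,⟨9,10,18,6,6,19,true,false⟩,⟨8,10,2,6,19,12,false,false⟩,⟨8,9,2,12,12,13,false,false⟩,⟨7,8,3,2,13,11,false,false⟩,⟨7,6,11,3,14,15,false,false⟩,⟨1,0,9,8,20,21,false,false⟩]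 (nat_lit 8) (nat_lit 170) (by decide +kernel)
noncomputable def s613 : Raw := ⟨[(0,[8,7,6,1,2,3,11]),(1,[12,4,2,0,6,13]),(2,[5,3,0,1,4]),(3,[11,0,2,5,14]),(4,[15,5,2,1,12,16]),(5,[14,3,2,4,15]),(7,[17,6,0,8,9,10,18]),(8,[19,9,7,0,11,20]),(9,[21,10,7,8,19]),(10,[22,18,7,9,21])], [12,16,15,14,11,20,19,21,22,18,17,6,13], [(9,19),(9,7),(7,0),(0,11)]⟩
def c613 : RawB s613 := raw1 s613 (nat_lit 11) [⟨0,1,0,0,0,7,false,false⟩,⟨0,2,0,7,7,8,false,false⟩,⟨2,3,7,8,8,9,false,false⟩,⟨0,6,0,8,8,11,false,false⟩,⟨0,5,0,11,11,3,false,false⟩,⟨0,4,0,3,3,2,false,false⟩,⟨6,7,8,11,11,20,false,false⟩,⟨3,6,9,8,20,19,false,false⟩,⟨5,8,3,11,11,14,false,false⟩,⟨4,5,2,3,14,5,false,false⟩,⟨5,9,5,14,14,15,false,false⟩,⟨4,5,2,5,15,4,false,false⟩,⟨0,4,0,2,4,1,false,false⟩,⟨0,1,1,0,7,6,false,false⟩,⟨5,10,4,15,15,16,false,false⟩,⟨4,5,1,4,16,12,false,true⟩,⟨0,4,6,1,12,13,false,true⟩,⟨3,5,9,19,19,21,false,false⟩,⟨2,3,7,9,21,10,false,false⟩,⟨3,4,10,21,21,22,false,false⟩,⟨2,3,7,10,22,18,false,false⟩,⟨1,2,6,7,18,17,false,false⟩]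 (nat_lit 8) (nat_lit 85) (by decide +kernel)
noncomputable def s614 : Raw := ⟨[(0,[10,1,2,3,4,5,11]),(1,[12,6,2,0,10]),(2,[7,3,0,1,6]),(3,[15,13,4,0,2,7,14]),(4,[16,8,5,0,3,13]),(5,[18,11,0,4,8,9,17]),(6,[19,7,2,1,12]),(7,[20,14,3,2,6,19]),(8,[21,9,5,4,16,22]),(9,[23,17,5,8,21])], [21,23,17,18,11,10,12,19,20,14,15,13,16,22], [(5,4),(4,16),(0,10),(0,3)]⟩
def c614 : RawB s614 := raw1 s614 (nat_lit 12) [⟨0,1,0,0,0,4,false,false⟩,⟨0,2,4,0,0,5,false,false⟩,⟨1,3,4,0,0,3,false,false⟩,⟨3,4,3,0,0,2,false,false⟩,⟨4,5,2,0,0,1,false,false⟩,⟨4,6,2,1,1,6,false,false⟩,⟨3,4,3,2,6,7,false,false⟩,⟨6,7,6,1,1,12,false,false⟩,⟨5,7,0,1,12,10,false,false⟩,⟨4,6,7,6,12,19,false,false⟩,⟨5,8,0,10,10,11,false,false⟩,⟨2,5,5,0,11,11,false,false⟩,⟨0,5,4,5,5,8,false,false⟩,⟨2,9,5,11,11,18,false,false⟩,⟨2,10,5,18,18,17,false,false⟩,⟨5,2,8,5,17,9,false,false⟩,⟨2,11,9,17,17,23,false,false⟩,⟨5,2,8,9,23,21,false,true⟩,⟨1,2,4,3,3,13,false,false⟩,⟨0,1,8,4,13,16,false,false⟩,⟨0,5,16,8,21,22,false,true⟩,⟨4,5,7,19,19,20,false,false⟩,⟨3,4,3,7,20,14,false,false⟩,⟨2,3,13,3,14,15,false,false⟩]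 (nat_lit 12) (nat_lit 1365) (by decide +kernel)
noncomputable def s615 : Raw := ⟨[(0,[8,7,6,1,2,3,11]),(1,[12,4,2,0,6]),(2,[5,3,0,1,4]),(3,[14,11,0,2,5,13]),(4,[15,5,2,1,12]),(5,[16,13,3,2,4,15]),(7,[17,6,0,8,9,10,18]),(8,[19,9,7,0,11,20]),(9,[21,10,7,8,19]),(10,[22,18,7,9,21])], [11,20,19,21,22,18,17,6,12,15,16,13,14], [(10,21),(7,8),(8,11),(8,19)]⟩
def c615 : RawB s615 := raw1 s615 (nat_lit 11) [⟨0,1,4,4,4,5,false,false⟩,⟨0,2,4,5,5,15,false,false⟩,⟨0,3,4,15,15,12,false,false⟩,⟨0,4,4,12,12,1,false,false⟩,⟨0,1,1,4,5,2,false,false⟩,⟨4,5,12,1,1,6,false,false⟩,⟨0,5,2,1,6,0,false,false⟩,⟨0,1,0,2,5,3,false,false⟩,⟨0,6,3,0,0,11,false,false⟩,⟨0,7,3,11,11,14,false,true⟩,⟨1,0,5,3,14,13,false,false⟩,⟨1,2,13,5,15,16,false,false⟩,⟨6,7,0,11,11,8,false,false⟩,⟨5,6,6,0,8,7,false,false⟩,⟨7,8,8,11,11,20,false,true⟩,⟨7,10,8,20,20,19,false,false⟩,⟨6,7,7,8,19,9,false,false⟩,⟨7,9,9,19,19,21,false,false⟩,⟨6,7,7,9,21,10,false,false⟩,⟨7,8,10,21,21,22,false,false⟩,⟨6,7,7,10,22,18,false,false⟩,⟨5,6,6,7,18,17,false,false⟩]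 (nat_lit 8) (nat_lit 85) (by decide +kernel)
end Pool.Agent.FCT.R
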