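import Pool.Agent.Lib.MP_fe5cb4_co.FC.RawDef
set_option linter.defProp false
namespace Pool.Agent.FCT.R
open Pool.Agent.Lib.MP_fe5cb4_co.FC
noncomputable def s616 : Raw := ⟨[(0,[8,7,6,1,2,3,12]),(1,[13,4,2,0,6]),(2,[5,3,0,1,4]),(3,[15,12,0,2,5,14]),(4,[16,5,2,1,13]),(5,[17,14,3,2,4,16]),(7,[18,6,0,8,9,10,11]),(8,[19,9,7,0,12,20]),(9,[21,10,7,8,19]),(10,[22,11,7,9,21,23]),(11,[24,18,7,10,22])], [13,16,17,14,15,12,20,19,21,23,22,24,18,6], [(7,8),(8,12),(8,19)]⟩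
def c616 : RawB s616 := raw1 s616 (nat_lit 12) [⟨0,1,7,7,7,10,false,false⟩,⟨0,2,7,10,10,9,false,false⟩,⟨2,3,10,9,9,21,false,false⟩,⟨2,4,10,21,21,23,false,false⟩,⟨0,5,7,9,9,8,false,false⟩,⟨5,6,9,8,8,19,false,false⟩,⟨5,3,19,9,21,21,false,false⟩,⟨0,7,7,8,8,0,false,false⟩,⟨0,3,7,0,0,6,false,false⟩,⟨3,8,6,0,0,1,false,false⟩,⟨3,9,1,6,6,13,false,true⟩,⟨3,9,13,1,1,4,false,false⟩,⟨8,9,0,1,4,2,false,false⟩,⟨3,10,13,4,4,16,true,false⟩,⟨9,10,2,4,16,5,false,false⟩,⟨8,9,0,2,5,3,false,false⟩,⟨8,7,3,0,8,12,false,false⟩,⟨7,6,12,8,19,20,false,false⟩,⟨2,3,10,23,23,22,false,false⟩,⟨10,11,5,16,16,17,false,false⟩,⟨9,10,3,5,17,14,false,false⟩,⟨8,9,12,3,14,15,false,false⟩,⟨1,2,7,10,22,11,false,false⟩,⟨0,1,6,7,11,18,false,false⟩,⟨1,2,18,11,22,24,false,false⟩] (nat_lit 9) (nat_lit 341) (by decide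 +kernel)
noncomputable def s617 : Raw := ⟨[(0,[10,1,2,3,4,5,11]),(1,[12,6,2,0,10,13]),(2,[7,3,0,1,6]),(3,[14,4,0,2,7]),(4,[15,8,5,0,3,14,16]),(5,[18,11,0,4,8,9,17]),(6,[19,7,2,1,12,20]),(7,[14,3,2,6,19]),(8,[21,9,5,4,15,22]),(9,[23,17,5,8,21])], [11,10,13,12,20,19,14,16,15,22,21,23,17,18], [(5,4),(4,14),(4,15),(1,6)]⟩
def c617 : RawB s617 := raw1 s617 (nat_lit 12) [⟨0,1,5,5,5,8,false,false⟩,⟨0,2,5,8,8,4,false,false⟩,⟨2,3,8,4,4,15,false,false⟩,⟨2,4,8,15,15,22,false,false⟩,⟨3,5,4,15,15,16,false,false⟩,⟨3,6,4,16,16,14,false,false⟩,⟨3,7,4,14,14,3,false,false⟩,⟨3,0,3,4,5,0,false,false⟩,⟨7,8,14,3,3,7,false,false⟩,⟨3,8,0,3,7,2,false,false⟩,⟨8,9,7,2,2,6,false,false⟩,⟨8,7,6,7,14,19,false,false⟩,⟨3,9,0,2,6,1,false,false⟩,⟨3,10,0,1,1,10,false,false⟩,⟨0,3,5,0,10,11,false,true⟩,⟨2,3,8,22,22,21,false,false⟩,⟨0,11,5,11,11,18,false,true⟩,⟨10,11,1,10,10,13,false,false⟩,⟨9,10,6,1,13,12,false,false⟩,⟨9,8,12,6,19,20,false,false⟩,⟨1,2,5,8,21,9,false,false⟩,⟨1,0,9,5,18,17,false,false⟩,⟨1,2,17,9,21,23,false,false⟩]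 (nat_lit 14) (nat_lit 5461) (by decide +kernel)
noncomputable def s618 : Raw := ⟨[(0,[8,7,6,1,2,3,12]),(1,[13,4,2,0,6]),(2,[5,3,0,1,4]),(3,[15,12,0,2,5,14]),(4,[16,5,2,1,13]),(5,[17,14,3,2,4,16]),(7,[18,6,0,8,9,10,11]),(8,[19,9,7,0,12,20]),(9,[21,10,7,8,19,22]),(10,[23,11,7,9,21]),(11,[24,18,7,10,23])], [17,14,15,12,20,19,22,21,23,24,18,6,13,16], [(7,9),(9,19),(9,21)]⟩
def c618 : RawB s618 := raw1 s618 (nat_lit 12) [⟨0,1,1,1,1,6,false,false⟩,⟨0,2,1,6,6,0,false,false⟩,⟨0,3,1,0,0,2,false,false⟩,⟨0,4,1,2,2,4,false,false⟩,⟨0,1,4,1,6,13,false,false⟩,⟨4,6,4,2,2,5,false,false⟩,⟨2,7,6,0,0,7,false,false⟩,⟨3,8,2,0,0,3,false,false⟩,⟨6,3,5,2,3,3,false,false⟩,⟨3,5,7,7,7,10,false,false⟩,⟨4,9,4,5,5,16,false,false⟩,⟨0,4,13,4,16,16,false,false⟩,⟨3,4,7,10,10,11,false,false⟩,⟨8,10,0,3,3,12,false,false⟩,⟨7,8,7,0,12,8,false,false⟩,⟨7,5,8,7,10,9,false,false⟩,⟨6,11,5,3,3,14,false,false⟩,⟨6,9,14,5,16,17,true,true⟩,⟨10,11,12,3,14,15,false,false⟩,⟨2,3,6,7,11,18,false,false⟩,⟨5,6,10,9,9,21,false,false⟩,⟨4,5,11,10,21,23,false,false⟩,⟨3,4,18,11,23,24,false,false⟩,⟨8,9,8,12,12,20,false,false⟩,⟨7,8,9,8,20,19,false,false⟩,⟨7,6,19,9,21,22,false,false⟩]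 (nat_lit 9) (nat_lit 170) (by decide +kernel)
noncomputable def s619 : Raw := ⟨[(0,[8,7,6,1,2,3,12]),(1,[13,4,2,0,6]),(2,[5,3,0,1,4]),(3,[15,12,0,2,5,14]),(4,[16,5,2,1,13]),(5,[17,14,3,2,4,16]),(7,[18,6,0,8,9,10,19]),(8,[20,11,9,7,0,12]),(9,[21,10,7,8,11,22]),(10,[23,19,7,9,21]),(11,[22,9,8,20,24])], [23,19,18,6,13,16,17,14,15,12,20,24,22,21], [(10,21),(10,7)]⟩
def c619 : RawB s619 := raw1 s619 (nat_lit 12) [⟨0,1,8,8,8,9,false,false⟩,⟨0,2,9,8,8,7,false,false⟩,⟨2,3,8,7,7,0,false,false⟩,⟨2,4,8,0,0,12,false,false⟩,⟨4,5,12,0,0,3,false,false⟩,⟨5,6,3,0,0,2,false,false⟩,⟨6,7,2,0,0,1,false,false⟩,⟨7,8,0,1,1,6,false,false⟩,⟨3,7,7,0,6,6,false,false⟩,⟨8,9,1,6,6,13,false,false⟩,⟨6,8,2,1,13,4,false,false⟩,⟨5,6,3,2,4,5,false,false⟩,⟨6,8,5,4,13,16,false,false⟩,⟨3,10,7,6,6,18,false,false⟩,⟨3,11,7,18,18,19,false,false⟩,⟨0,3,9,7,19,10,false,false⟩,⟨3,7,10,19,19,23,false,true⟩,⟨0,3,9,10,23,21,false,true⟩,⟨2,3,8,12,12,20,false,false⟩,⟨1,2,9,8,20,11,false,false⟩,⟨1,0,11,9,21,22,false,false⟩,⟨2,1,20,11,22,24,false,false⟩,⟨6,7,5,16,16,17,false,false⟩,⟨5,6,3,5,17,14,false,false⟩,⟨4,5,12,3,14,15,false,false⟩]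 (nat_lit 9) (nat_lit 341) (by decide +kernel)
noncomputable def s620 : Raw := ⟨[(0,[10,1,2,3,4,5,6]),(1,[11,7,2,0,10]),(2,[12,3,0,1,7]),(3,[13,4,0,2,12,14]),(4,[15,5,0,3,13,16]),(5,[17,8,6,0,4,15,18]),(6,[20,10,0,5,8,9,19]),(7,[12,2,1,11,21]),(8,[22,9,6,5,17]),(9,[23,19,6,8,22])], [16,15,18,17,22,23,19,20,10,11,21,12,14,13], [(0,10),(5,0),(4,16),(0,3)]⟩
def c620 : RawB s620 := raw1 s620 (nat_lit 12) [⟨0,1,7,7,7,12,false,false⟩,⟨0,2,7,12,12,21,false,false⟩,⟨0,3,7,21,21,11,false,false⟩,⟨0,4,7,11,11,1,false,false⟩,⟨0,1,1,7,12,2,false,false⟩,⟨4,5,11,1,1,10,false,false⟩,⟨0,5,2,1,10,0,false,false⟩,⟨0,1,0,2,12,3,false,false⟩,⟨0,6,3,0,0,4,false,false⟩,⟨0,7,3,4,4,13,false,false⟩,⟨7,8,4,13,13,16,false,true⟩,⟨7,8,4,16,16,15,false,true⟩,⟨6,7,0,4,15,5,false,false⟩,⟨6,5,5,0,10,6,false,false⟩,⟨7,11,5,15,15,18,false,false⟩,⟨7,10,5,18,18,17,false,false⟩,⟨6,7,6,5,17,8,false,false⟩,⟨7,9,8,17,17,22,false,false⟩,⟨6,7,6,8,22,9,false,false⟩,⟨7,8,9,22,22,23,false,false⟩,⟨6,7,6,9,23,19,false,false⟩,⟨5,6,10,6,19,20,false,false⟩,⟨1,0,12,3,13,14,false,false⟩]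 (nat_lit 13) (nat_lit 2730) (by decide +kernel)
noncomputable def s621 : Raw := ⟨[(0,[8,7,6,1,2,3,12]),(1,[13,4,2,0,6,14]),(2,[5,3,0,1,4]),(3,[12,0,2,5,15]),(4,[16,5,2,1,13,17]),(5,[15,3,2,4,16]),(7,[18,6,0,8,9,10,19]),(8,[20,11,9,7,0,12,21]),(9,[22,10,7,8,11]),(10,[23,19,7,9,22]),(11,[22,9,8,20,24])], [13,17,16,15,12,21,20,24,22,23,19,18,6,14], [(10,22),(10,7),(7,8),(8,20)]⟩
def c621 : RawB s621 := raw1 s621 (nat_lit 12) [⟨0,1,0,0,0,7,false,false⟩,⟨0,2,0,7,7,8,false,false⟩,⟨2,3,7,8,8,9,false,false⟩,⟨3,5,9,8,8,11,false,false⟩,⟨0,7,0,8,8,12,false,false⟩,⟨0,6,0,12,12,3,false,false⟩,⟨0,4,0,3,3,2,false,false⟩,⟨7,8,8,12,12,21,false,false⟩,⟨5,7,11,8,21,20,false,false⟩,⟨6,9,3,12,12,15,false,false⟩,⟨4,6,2,3,15,5,false,false⟩,⟨6,10,5,15,15,16,false,false⟩,⟨4,6,2,5,16,4,false,false⟩,⟨0,4,0,2,4,1,false,false⟩,⟨0,1,1,0,7,6,false,false⟩,⟨6,11,4,16,16,17,false,false⟩,⟨4,6,1,4,17,13,false,true⟩,⟨0,4,6,1,13,14,false,true⟩,⟨5,6,11,20,20,24,false,false⟩,⟨3,5,9,11,24,22,false,false⟩,⟨2,3,7,9,22,10,false,false⟩,⟨3,4,10,22,22,23,false,false⟩,⟨2,3,7,10,23,19,false,false⟩,⟨1,2,6,7,19,18,false,false⟩]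 (nat_lit 12) (nat_lit 1365) (by decide +kernel)
noncomputable def s622 : Raw := ⟨[(0,[7,6,5,4,1,2,10]),(1,[11,3,2,0,4]),(2,[10,0,1,3,12]),(3,[12,2,1,11,13]),(5,[14,4,0,6,8,15]),(6,[8,5,0,7,9]),(7,[16,9,6,0,10,17]),(8,[15,5,6,9,18]),(9,[18,8,6,7,16])], [11,13,12,10,17,16,18,15,14,4], [(3,11),(3,12),(1,4),(2,10)]⟩
def c622 : RawB s622 := raw1 s622 (nat_lit 8) [⟨0,1,0,0,0,5,false,false⟩,⟨0,2,5,0,0,4,false,false⟩,⟨1,3,5,0,0,6,false,false⟩,⟨2,4,4,0,0,1,false,false⟩,⟨2,5,1,4,4,11,false,true⟩,⟨2,5,1,11,11,3,false,false⟩,⟨2,6,1,3,3,2,false,false⟩,⟨4,2,0,1,2,2,false,false⟩,⟨1,2,5,6,6,8,false,false⟩,⟨5,7,11,3,3,13,true,false⟩,⟨6,7,2,3,13,12,false,false⟩,⟨4,6,0,2,12,10,false,false⟩,⟨3,4,6,0,10,7,false,false⟩,⟨3,2,7,6,8,9,false,false⟩,⟨4,5,7,10,10,17,false,false⟩,⟨3,4,9,7,17,16,false,false⟩,⟨2,3,8,9,16,18,false,false⟩,⟨1,2,5,8,18,15,false,false⟩,⟨0,1,4,5,15,14,false,false⟩]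 (nat_lit 4) (nat_lit 5) (by decide +kernel)
noncomputable def s623 : Raw := ⟨[(0,[7,6,5,4,1,2,11]),(1,[12,3,2,0,4]),(2,[11,0,1,3,13]),(3,[13,2,1,12,14]),(5,[15,4,0,6,8,9,16]),(6,[8,5,0,7,10]),(7,[17,10,6,0,11,18]),(8,[19,9,5,6,10]),(9,[20,16,5,8,19]),(10,[19,8,6,7,17])], [12,14,13,11,18,17,19,20,16,15,4], [(3,12),(3,13),(0,11),(5,16)]⟩
def c623 : RawB s623 := raw1 s623 (nat_lit 9) [⟨0,1,5,5,5,6,false,false⟩,⟨0,2,5,6,6,0,false,false⟩,⟨2,3,6,0,0,7,false,false⟩,⟨2,4,6,7,7,10,false,false⟩,⟨3,5,0,7,7,11,false,false⟩,⟨0,6,5,0,0,4,false,false⟩,⟨3,7,0,11,11,2,false,false⟩,⟨3,6,2,0,4,1,false,false⟩,⟨7,8,11,2,2,13,false,false⟩,⟨3,8,1,2,13,3,false,false⟩,⟨3,6,3,1,4,12,false,true⟩,⟨3,8,12,3,13,14,true,false⟩,⟨1,2,5,6,10,8,false,false⟩,⟨5,6,7,11,11,18,false,false⟩,⟨4,5,10,7,18,17,false,false⟩,⟨2,4,8,10,17,19,false,false⟩,⟨1,2,5,8,19,9,false,false⟩,⟨2,3,9,19,19,20,false,false⟩,⟨1,2,5,9,20,16,false,false⟩,⟨0,1,4,5,16,15,false,false⟩]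 (nat_lit 5) (nat_lit 10) (by decide +kernel)
noncomputable def s624 : Raw := ⟨[(0,[7,6,5,4,1,2,12]),(1,[13,3,2,0,4]),(2,[12,0,1,3,14]),(3,[14,2,1,13,15]),(5,[16,4,0,6,8,9,10,17]),(6,[8,5,0,7,11]),(7,[18,11,6,0,12,19]),(8,[20,9,5,6,11]),(9,[21,10,5,8,20]),(10,[22,17,5,9,21]),(11,[20,8,6,7,18])], [22,17,16,4,13,15,14,12,19,18,20,21], [(10,9),(9,20)]⟩
def c624 : RawB s624 := raw1 s624 (nat_lit 10) [⟨0,1,11,11,11,18,false,false⟩,⟨0,2,11,18,18,7,false,false⟩,⟨2,3,18,7,7,19,false,false⟩,⟨0,4,11,7,7,6,false,false⟩,⟨0,5,11,6,6,8,false,false⟩,⟨0,1,8,11,18,20,false,false⟩,⟨4,6,7,6,6,0,false,false⟩,⟨6,5,0,6,8,5,false,false⟩,⟨5,0,5,8,20,9,false,false⟩,⟨4,3,0,7,19,12,false,false⟩,⟨0,7,20,9,9,21,false,false⟩,⟨5,7,5,9,21,10,false,false⟩,⟨5,8,10,5,5,17,false,false⟩,⟨5,7,17,10,21,22,true,true⟩,⟨4,5,12,0,0,2,false,false⟩,⟨8,9,5,17,17,16,false,false⟩,⟨6,8,0,5,16,4,false,false⟩,⟨5,6,2,0,4,1,false,false⟩,⟨6,7,1,4,4,13,false,false⟩,⟨5,6,2,1,13,3,false,false⟩,⟨5,4,3,2,12,14,false,false⟩,⟨6,5,13,3,14,15,false,false⟩]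 (nat_lit 5) (nat_lit 21) (by decide +kernel)
noncomputable def s625 : Raw := ⟨[(0,[7,6,5,4,1,2,11]),(1,[12,3,2,0,4]),(2,[14,11,0,1,3,13]),(3,[13,2,1,12,15]),(5,[16,4,0,6,8,9,17]),(6,[8,5,0,7,10]),(7,[18,10,6,0,11]),(8,[19,9,5,6,10,20]),(9,[21,17,5,8,19]),(10,[20,8,6,7,18])], [12,15,13,14,11,18,20,19,21,17,16,4], [(3,15),(1,12),(2,13),(1,2)]⟩
def c625 : RawB s625 := raw1 s625 (nat_lit 10) [⟨0,1,5,5,5,6,false,false⟩,⟨0,2,5,6,6,0,false,false⟩,⟨2,3,6,0,0,7,false,false⟩,⟨0,4,5,0,0,4,false,false⟩,⟨2,5,6,7,7,10,false,false⟩,⟨1,2,5,6,10,8,false,false⟩,⟨5,6,10,7,7,18,false,false⟩,⟨3,6,0,7,18,11,false,false⟩,⟨2,5,8,10,18,20,false,false⟩,⟨3,7,0,11,11,2,false,false⟩,⟨3,4,2,0,4,1,false,false⟩,⟨3,8,1,2,2,3,false,false⟩,⟨3,4,3,1,4,12,false,true⟩,⟨2,4,8,20,20,19,false,false⟩,⟨1,2,5,8,19,9,false,false⟩,⟨3,9,12,3,3,15,true,false⟩,⟨8,9,2,3,15,13,false,false⟩,⟨7,8,11,2,13,14,false,false⟩,⟨2,3,9,19,19,21,false,false⟩,⟨1,2,5,9,21,17,false,false⟩,⟨0,1,4,5,17,16,false,false⟩]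 (nat_lit 6) (nat_lit 21) (by decide +kernel)
noncomputable def s626 : Raw := ⟨[(0,[7,6,5,4,1,2,12]),(1,[13,3,2,0,4]),(2,[12,0,1,3,14]),(3,[14,2,1,13,15]),(5,[16,4,0,6,8,9,10,17]),(6,[8,5,0,7,11]),(7,[18,11,6,0,12,19]),(8,[20,9,5,6,11]),(9,[21,10,5,8,20,22]),(10,[23,17,5,9,21]),(11,[20,8,6,7,18])], [13,15,14,12,19,18,20,22,21,23,17,16,4], [(0,7),(8,20),(5,8)]⟩
def c626 : RawB s626 := raw1 s626 (nat_lit 11) [⟨0,1,5,5,5,9,false,false⟩,⟨0,2,5,9,9,8,false,false⟩,⟨2,3,9,8,8,20,false,false⟩,⟨3,4,8,20,20,11,false,false⟩,⟨0,3,5,8,11,6,false,false⟩,⟨2,5,9,20,20,22,false,false⟩,⟨4,6,11,20,20,18,false,false⟩,⟨3,4,6,11,18,7,false,false⟩,⟨0,3,5,6,7,0,false,false⟩,⟨4,7,7,18,18,19,false,false⟩,⟨4,8,7,19,19,12,false,false⟩,⟨3,4,0,7,12,12,false,false⟩,⟨0,4,5,0,0,4,false,false⟩,⟨3,9,0,12,12,2,false,false⟩,⟨3,4,2,0,4,1,false,false⟩,⟨9,10,12,2,2,14,false,false⟩,⟨3,10,1,2,14,3,false,false⟩,⟨3,4,3,1,4,13,false,true⟩,⟨3,10,13,3,14,15,true,false⟩,⟨2,4,9,22,22,21,false,false⟩,⟨1,2,5,9,21,10,false,false⟩,⟨2,3,10,21,21,23,false,false⟩,⟨1,2,5,10,23,17,false,false⟩,⟨0,1,4,5,17,16,false,false⟩]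 (nat_lit 7) (nat_lit 85) (by decide +kernel)
noncomputable def s627 : Raw := ⟨[(0,[7,6,5,4,1,2,11]),(1,[12,3,2,0,4]),(2,[11,0,1,3,13]),(3,[13,2,1,12,14]),(5,[15,4,0,6,8,9,16]),(6,[8,5,0,7,10]),(7,[17,10,6,0,11,18]),(8,[19,9,5,6,10,20]),(9,[21,16,5,8,19]),(10,[20,8,6,7,17])], [12,14,13,11,18,17,20,19,21,16,15,4], [(3,12),(3,13),(2,11),(1,2)]⟩
def c627 : RawB s627 := raw1 s627 (nat_lit 10) [⟨0,1,6,6,6,8,false,false⟩,⟨0,2,6,8,8,10,false,false⟩,⟨2,3,8,10,10,20,false,false⟩,⟨2,4,8,20,20,19,false,false⟩,⟨3,5,10,20,20,17,false,false⟩,⟨3,6,10,17,17,7,false,false⟩,⟨0,3,6,10,7,7,false,false⟩,⟨1,3,8,6,6,5,false,false⟩,⟨0,7,6,7,7,0,false,false⟩,⟨0,3,0,6,5,5,false,false⟩,⟨0,3,5,0,0,4,false,false⟩,⟨3,8,4,0,0,1,false,false⟩,⟨3,9,1,4,4,12,false,true⟩,⟨3,9,12,1,1,3,false,false⟩,⟨8,9,0,1,3,2,false,false⟩,⟨8,7,2,0,7,11,false,false⟩,⟨9,8,3,2,11,13,false,false⟩,⟨3,9,12,3,13,14,true,false⟩,⟨7,6,11,7,17,18,false,false⟩,⟨1,2,5,8,19,9,false,false⟩,⟨2,3,9,19,19,21,false,false⟩,⟨1,2,5,9,21,16,false,false⟩,⟨0,1,4,5,16,15,false,false⟩]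 (nat_lit 7) (nat_lit 42) (by decide +kernel)
noncomputable def s628 : Raw := ⟨[(0,[7,6,5,4,1,2,11]),(1,[12,3,2,0,4,13]),(2,[15,11,0,1,3,14]),(3,[14,2,1,12,16]),(5,[17,4,0,6,8]),(6,[8,5,0,7,9]),(7,[18,10,9,6,0,11,19]),(8,[17,5,6,9,20]),(9,[20,8,6,7,10,21]),(10,[21,9,7,18,22])], [14,15,11,19,18,22,21,20,17,4,13,12,16], [(1,4),(1,12),(2,14),(2,11)]⟩
def c628 : RawB s628 := raw1 s628 (nat_lit 11) [⟨0,1,0,0,0,4,false,false⟩,⟨0,2,0,4,4,5,false,false⟩,⟨2,3,5,4,4,17,false,false⟩,⟨2,4,5,17,17,8,false,false⟩,⟨0,2,0,5,8,6,false,false⟩,⟨4,5,17,8,8,20,false,false⟩,⟨2,5,6,8,20,9,false,false⟩,⟨2,6,6,9,9,7,false,false⟩,⟨0,2,0,6,7,7,false,false⟩,⟨0,8,0,7,7,11,false,false⟩,⟨0,9,0,11,11,2,false,false⟩,⟨0,1,2,0,4,1,false,false⟩,⟨1,2,1,4,4,13,false,false⟩,⟨0,7,1,2,2,3,false,false⟩,⟨0,1,3,1,13,12,false,false⟩,⟨9,10,2,11,11,15,false,false⟩,⟨7,9,3,2,15,14,false,true⟩,⟨0,7,12,3,14,16,false,true⟩,⟨6,7,9,7,7,10,false,false⟩,⟨6,5,10,9,20,21,false,false⟩,⟨8,9,7,11,11,19,false,false⟩,⟨7,8,10,7,19,18,false,false⟩,⟨7,6,18,10,21,22,false,false⟩]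 (nat_lit 9) (nat_lit 341) (by decide +kernel)
noncomputable def s629 : Raw := ⟨[(0,[6,5,4,1,2,9]),(1,[10,3,2,0,4]),(2,[12,9,0,1,3,11]),(3,[11,2,1,10,13]),(5,[14,4,0,6,7]),(6,[15,8,7,5,0,9,16]),(7,[14,5,6,8,17]),(8,[17,7,6,15,18])], [16,15,18,17,14,4,10,13,11,12,9], [(6,5),(5,4),(8,7),(7,14)]⟩
def c629 : RawB s629 := raw1 s629 (nat_lit 9) [⟨0,1,2,2,2,3,false,false⟩,⟨0,2,2,3,3,1,false,false⟩,⟨2,3,3,1,1,10,false,false⟩,⟨3,4,1,10,10,4,false,false⟩,⟨0,3,2,1,4,0,false,false⟩,⟨3,5,0,4,4,5,false,false⟩,⟨3,6,0,5,5,6,false,false⟩,⟨0,3,2,0,6,9,false,false⟩,⟨3,7,6,9,9,16,false,true⟩,⟨3,7,16,6,6,15,true,false⟩,⟨2,3,3,10,10,13,false,false⟩,⟨1,2,2,3,13,11,false,false⟩,⟨7,8,6,15,15,8,false,false⟩,⟨6,7,5,6,8,7,false,false⟩,⟨5,6,4,5,7,14,false,false⟩,⟨7,6,8,7,14,17,false,false⟩,⟨8,7,15,8,17,18,false,false⟩,⟨0,1,9,2,11,12,false,false⟩]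 (nat_lit 7) (nat_lit 85) (by decide +kernel)
noncomputable def s630 : Raw := ⟨[(0,[6,5,4,1,2,9]),(1,[10,3,2,0,4]),(2,[12,9,0,1,3,11]),(3,[11,2,1,10,13]),(5,[14,4,0,6,7]),(6,[15,8,7,5,0,9,16]),(7,[18,14,5,6,8,17]),(8,[17,7,6,15,19])], [13,11,12,9,16,15,19,17,18,14,4,10], [(6,7),(7,17),(7,14)]⟩
def c630 : RawB s630 := raw1 s630 (nat_lit 10) [⟨0,1,4,4,4,14,false,false⟩,⟨0,2,4,14,14,5,false,false⟩,⟨0,3,4,5,5,0,false,false⟩,⟨0,4,4,0,0,1,false,false⟩,⟨0,5,4,1,1,10,false,false⟩,⟨5,6,10,1,1,3,false,false⟩,⟨4,6,0,1,3,2,false,false⟩,⟨4,8,0,2,2,9,false,false⟩,⟨3,4,5,0,9,6,false,false⟩,⟨3,2,6,5,14,7,false,false⟩,⟨4,7,6,9,9,16,false,false⟩,⟨6,9,3,2,2,11,false,false⟩,⟨5,6,10,3,11,13,true,true⟩,⟨8,9,9,2,11,12,false,false⟩,⟨4,6,6,16,16,15,false,false⟩,⟨3,4,7,6,15,8,false,false⟩,⟨4,5,8,15,15,19,false,false⟩,⟨3,4,7,8,19,17,false,false⟩,⟨2,3,14,7,17,18,false,false⟩]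 (nat_lit 12) (nat_lit 1365) (by decide +kernel)
end Pool.Agent.FCT.R
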