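import Pool.Agent.Lib.MP_fe5cb4_co.FC.RawDef
set_option linter.defProp false
namespace Pool.Agent.FCT.R
open Pool.Agent.Lib.MP_fe5cb4_co.FC
noncomputable def s631 : Raw := ⟨[(0,[7,6,5,4,1,2,12]),(1,[13,3,2,0,4]),(2,[12,0,1,3,14]),(3,[14,2,1,13,15]),(5,[16,4,0,6,8,9,17]),(6,[8,5,0,7,10]),(7,[18,11,10,6,0,12,19]),(8,[20,9,5,6,10]),(9,[21,17,5,8,20]),(10,[20,8,6,7,11]),(11,[20,10,7,18,22])], [12,19,18,22,20,21,17,16,4,13,15,14], [(3,13),(3,14),(1,4)]⟩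
def c631 : RawB s631 := raw1 s631 (nat_lit 10) [⟨0,1,2,2,2,14,false,false⟩,⟨0,2,14,2,2,3,false,false⟩,⟨1,3,14,2,2,12,true,false⟩,⟨0,1,14,3,3,15,false,false⟩,⟨3,4,2,12,12,0,false,false⟩,⟨3,2,0,2,3,1,false,false⟩,⟨2,1,1,3,15,13,false,false⟩,⟨3,2,0,1,13,4,false,false⟩,⟨4,6,0,12,12,7,false,false⟩,⟨4,5,0,7,7,6,false,false⟩,⟨3,4,4,0,6,5,false,false⟩,⟨5,7,6,7,7,10,false,false⟩,⟨4,5,5,6,10,8,false,false⟩,⟨7,8,10,7,7,11,false,false⟩,⟨5,7,8,10,11,20,false,false⟩,⟨4,5,5,8,20,9,false,false⟩,⟨6,9,12,7,7,19,true,false⟩,⟨8,9,11,7,19,18,false,false⟩,⟨8,7,18,11,20,22,false,false⟩,⟨5,6,9,20,20,21,false,false⟩,⟨4,5,5,9,21,17,false,false⟩,⟨3,4,4,5,17,16,false,false⟩] (nat_lit 5) (nat_lit 21) (by decide +kernel)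
noncomputable def s632 : Raw := ⟨[(0,[7,6,5,4,1,2,12]),(1,[13,3,2,0,4]),(2,[12,0,1,3,14]),(3,[14,2,1,13,15]),(5,[16,4,0,6,8,9,17]),(6,[8,5,0,7,10]),(7,[18,11,10,6,0,12,19]),(8,[20,9,5,6,10]),(9,[21,17,5,8,20]),(10,[20,8,6,7,11,22]),(11,[22,10,7,18,23])], [13,15,14,12,19,18,23,22,20,21,17,16,4], [(3,13),(3,14),(0,12),(0,5)]⟩
def c632 : RawB s632 := raw1 s632 (nat_lit 11) [⟨0,1,5,5,5,9,false,false⟩,⟨0,2,5,9,9,8,false,false⟩,⟨2,3,9,8,8,20,false,false⟩,⟨3,4,8,20,20,10,false,false⟩,⟨0,3,5,8,10,6,false,false⟩,⟨3,5,6,10,10,7,false,false⟩,⟨0,3,5,6,7,0,false,false⟩,⟨0,6,5,0,0,4,false,false⟩,⟨3,7,0,7,7,12,false,false⟩,⟨6,8,4,0,0,1,false,false⟩,⟨3,9,0,12,12,2,false,false⟩,⟨3,8,2,0,1,1,false,false⟩,⟨9,10,12,2,2,14,false,false⟩,⟨3,10,1,2,14,3,false,false⟩,⟨3,6,3,1,4,13,false,true⟩,⟨3,10,13,3,14,15,true,false⟩,⟨5,6,10,7,7,11,false,false⟩,⟨5,4,11,10,20,22,false,false⟩,⟨7,8,7,12,12,19,false,false⟩,⟨6,7,11,7,19,18,false,false⟩,⟨6,5,18,11,22,23,false,false⟩,⟨2,3,9,20,20,21,false,false⟩,⟨1,2,5,9,21,17,false,false⟩,⟨0,1,4,5,17,16,false,false⟩]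 (nat_lit 6) (nat_lit 21) (by decide +kernel)
noncomputable def s633 : Raw := ⟨[(0,[9,8,7,1,2,3,12]),(1,[13,4,2,0,7]),(2,[5,3,0,1,4]),(3,[15,12,0,2,5,6,14]),(4,[16,5,2,1,13]),(5,[17,6,3,2,4,16]),(6,[18,14,3,5,17]),(8,[19,7,0,9,10,11,20]),(9,[21,10,8,0,12]),(10,[22,11,8,9,21]),(11,[23,20,8,10,22])], [22,23,20,19,7,13,16,17,18,14,15,12,21], [(11,22),(11,20),(9,21),(9,0)]⟩
def c633 : RawB s633 := raw1 s633 (nat_lit 11) [⟨0,1,3,3,3,12,false,false⟩,⟨0,2,12,3,3,0,false,false⟩,⟨2,3,3,0,0,2,false,false⟩,⟨3,4,2,0,0,1,false,false⟩,⟨3,5,2,1,1,4,false,false⟩,⟨2,3,3,2,4,5,false,false⟩,⟨5,6,1,4,4,13,false,false⟩,⟨3,6,5,4,13,16,false,false⟩,⟨5,7,1,13,13,7,false,false⟩,⟨4,5,0,1,7,7,false,false⟩,⟨4,8,0,7,7,8,false,false⟩,⟨4,0,8,0,12,9,false,false⟩,⟨0,5,12,9,9,21,false,false⟩,⟨4,5,8,9,21,10,false,false⟩,⟨4,9,10,8,8,11,false,false⟩,⟨4,5,11,10,21,22,false,true⟩,⟨3,5,5,16,16,17,false,false⟩,⟨2,3,3,5,17,6,false,false⟩,⟨4,10,22,11,11,23,true,false⟩,⟨9,10,8,11,23,20,false,false⟩,⟨8,9,7,8,20,19,false,false⟩,⟨3,4,6,17,17,18,false,false⟩,⟨2,3,3,6,18,14,false,false⟩,⟨1,2,12,3,14,15,false,false⟩]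 (nat_lit 5) (nat_lit 21) (by decide +kernel)
noncomputable def s634 : Raw := ⟨[(0,[9,7,1,2,3,4,5,8]),(1,[10,6,2,0,7]),(2,[11,3,0,1,6,12]),(3,[13,4,0,2,11,14]),(4,[15,5,0,3,13]),(5,[16,8,0,4,15]),(6,[12,2,1,10,17])], [8,9,7,10,17,12,11,14,13,15,16], [(5,16),(0,3),(3,11),(3,13)]⟩
def c634 : RawB s634 := raw1 s634 (nat_lit 9) [⟨0,1,8,8,8,16,false,true⟩,⟨0,2,16,8,8,5,false,false⟩,⟨0,1,16,5,5,15,false,false⟩,⟨2,3,5,8,8,0,false,false⟩,⟨2,1,0,5,15,4,false,false⟩,⟨2,4,4,0,0,3,false,false⟩,⟨2,1,3,4,15,13,false,false⟩,⟨3,5,8,0,0,9,true,false⟩,⟨4,3,0,3,3,2,false,false⟩,⟨5,8,0,9,9,7,false,false⟩,⟨4,5,2,0,7,1,false,false⟩,⟨5,7,1,7,7,10,false,false⟩,⟨4,5,2,1,10,6,false,false⟩,⟨5,6,6,10,10,17,false,false⟩,⟨4,5,2,6,17,12,false,false⟩,⟨3,4,3,2,12,11,false,false⟩,⟨3,2,11,3,13,14,false,false⟩]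 (nat_lit 9) (nat_lit 170) (by decide +kernel)
noncomputable def s635 : Raw := ⟨[(0,[9,8,7,1,2,3,12]),(1,[13,4,2,0,7]),(2,[5,3,0,1,4]),(3,[15,12,0,2,5,6,14]),(4,[16,5,2,1,13]),(5,[17,6,3,2,4,16]),(6,[18,14,3,5,17]),(8,[19,7,0,9,10,11,20]),(9,[21,10,8,0,12,22]),(10,[23,11,8,9,21]),(11,[24,20,8,10,23])], [7,13,16,17,18,14,15,12,22,21,23,24,20,19], [(8,9),(9,12),(9,21),(4,13)]⟩
def c635 : RawB s635 := raw1 s635 (nat_lit 12) [⟨0,1,0,0,0,9,false,false⟩,⟨0,2,0,9,9,12,false,false⟩,⟨0,3,0,12,12,3,false,false⟩,⟨2,5,9,12,12,22,false,false⟩,⟨2,4,9,22,22,21,false,false⟩,⟨3,6,3,12,12,15,false,false⟩,⟨3,7,3,15,15,14,false,false⟩,⟨3,8,3,14,14,6,false,false⟩,⟨3,9,3,6,6,5,false,false⟩,⟨0,3,0,3,5,2,false,false⟩,⟨9,10,6,5,5,17,false,false⟩,⟨8,9,14,6,17,18,false,false⟩,⟨10,11,17,5,5,16,false,false⟩,⟨3,11,2,5,16,4,false,false⟩,⟨0,3,0,2,4,1,false,false⟩,⟨3,11,1,4,16,13,false,false⟩,⟨0,3,0,1,13,7,false,true⟩,⟨0,1,7,0,9,8,false,false⟩,⟨1,2,8,9,21,10,false,false⟩,⟨0,3,8,7,7,19,false,true⟩,⟨2,3,10,21,21,23,false,false⟩,⟨1,2,8,10,23,11,false,false⟩,⟨1,0,11,8,19,20,false,false⟩,⟨1,2,20,11,23,24,false,false⟩]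 (nat_lit 9) (nat_lit 170) (by decide +kernel)
noncomputable def s636 : Raw := ⟨[(0,[7,6,5,1,2,10]),(1,[11,4,3,2,0,5,12]),(2,[10,0,1,3,13]),(3,[13,2,1,4,14]),(4,[14,3,1,11,15]),(6,[16,5,0,7,8,9,17]),(7,[18,8,6,0,10]),(8,[19,9,6,7,18]),(9,[20,17,6,8,19])], [20,17,16,5,12,11,15,14,13,10,18,19], [(9,8),(8,18),(6,7),(7,10)]⟩
def c636 : RawB s636 := raw1 s636 (nat_lit 10) [⟨0,2,10,10,10,13,false,false⟩,⟨0,3,10,13,13,2,false,false⟩,⟨0,4,10,2,2,0,false,false⟩,⟨0,5,10,0,0,7,false,false⟩,⟨0,1,7,10,10,18,false,false⟩,⟨5,6,7,0,0,6,false,false⟩,⟨5,0,6,7,18,8,false,false⟩,⟨0,7,18,8,8,19,false,false⟩,⟨5,7,6,8,19,9,false,false⟩,⟨6,8,0,6,6,5,false,false⟩,⟨4,6,2,0,5,1,false,false⟩,⟨4,3,1,2,13,3,false,false⟩,⟨5,9,9,6,6,17,false,false⟩,⟨5,7,17,9,19,20,true,true⟩,⟨8,9,5,6,17,16,false,false⟩,⟨4,5,3,1,1,4,false,false⟩,⟨4,3,4,3,13,14,false,false⟩,⟨6,7,1,5,5,12,false,false⟩,⟨5,6,4,1,12,11,false,false⟩,⟨5,4,11,4,14,15,false,false⟩]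 (nat_lit 7) (nat_lit 42) (by decide +kernel)
noncomputable def s637 : Raw := ⟨[(0,[12,1,2,3,4,8,13]),(1,[14,6,5,2,0,12,15]),(2,[7,3,0,1,5]),(3,[16,4,0,2,7]),(4,[11,10,9,8,0,3,16]),(5,[18,7,2,1,6,17]),(6,[17,5,1,14,19]),(7,[16,3,2,5,18]),(9,[20,8,4,10,21]),(10,[21,9,4,11,22]),(11,[22,10,4,16,23])], [20,8,13,12,15,14,19,17,18,16,23,22,21], [(9,21),(9,8),(11,16),(11,22)]⟩
def c637 : RawB s637 := raw1 s637 (nat_lit 11) [⟨0,1,20,20,20,21,false,true⟩,⟨0,1,21,20,20,9,false,false⟩,⟨0,2,21,9,9,10,false,false⟩,⟨1,3,20,9,9,8,true,false⟩,⟨0,1,21,10,10,22,false,false⟩,⟨2,4,10,9,9,4,false,false⟩,⟨2,1,4,10,22,11,false,false⟩,⟨4,3,4,9,8,8,false,false⟩,⟨2,3,11,4,4,16,false,false⟩,⟨2,1,16,11,22,23,false,false⟩,⟨4,9,4,8,8,0,false,false⟩,⟨4,3,0,4,16,3,false,false⟩,⟨4,5,3,0,0,2,false,false⟩,⟨4,3,2,3,16,7,false,false⟩,⟨5,7,2,0,0,1,false,false⟩,⟨5,4,1,2,7,5,false,false⟩,⟨4,3,5,7,16,18,false,false⟩,⟨5,6,5,1,1,6,false,false⟩,⟨5,4,6,5,18,17,false,false⟩,⟨9,10,0,8,8,13,false,false⟩,⟨7,9,1,0,13,12,false,false⟩,⟨7,8,1,12,12,15,false,false⟩,⟨6,7,6,1,15,14,false,false⟩,⟨6,5,14,6,17,19,false,false⟩]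 (nat_lit 5) (nat_lit 21) (by decide +kernel)
noncomputable def s638 : Raw := ⟨[(0,[10,1,2,3,4]),(1,[11,6,5,2,0,10]),(2,[7,3,0,1,5]),(3,[8,4,0,2,7]),(4,[13,10,0,3,8,9,12]),(5,[15,7,2,1,6,14,16]),(6,[14,5,1,11,17]),(7,[18,8,3,2,5,15,19]),(8,[20,9,4,3,7,18,21]),(9,[22,12,4,8,20])], [15,19,18,21,20,22,12,13,10,11,17,14,16], [(1,5),(4,12),(4,10),(4,8)]⟩
def c638 : RawB s638 := raw1 s638 (nat_lit 11) [⟨0,1,0,0,0,1,false,false⟩,⟨0,2,0,1,1,10,false,false⟩,⟨2,3,1,10,10,11,false,false⟩,⟨0,4,0,10,10,4,false,false⟩,⟨0,5,0,4,4,3,false,false⟩,⟨1,0,1,0,3,2,false,false⟩,⟨5,6,4,3,3,8,false,false⟩,⟨0,6,2,3,8,7,false,false⟩,⟨1,0,1,2,7,5,false,false⟩,⟨1,2,5,1,11,6,false,false⟩,⟨0,7,5,7,7,15,false,false⟩,⟨0,8,5,15,15,16,false,true⟩,⟨1,0,6,5,16,14,false,false⟩,⟨2,1,11,6,14,17,false,false⟩,⟨7,10,15,7,7,19,true,false⟩,⟨6,10,8,7,19,18,false,false⟩,⟨6,9,8,18,18,21,false,false⟩,⟨6,8,8,21,21,20,false,false⟩,⟨5,6,4,8,20,9,false,false⟩,⟨6,7,9,20,20,22,false,false⟩,⟨5,6,4,9,22,12,false,false⟩,⟨4,5,10,4,12,13,false,false⟩]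 (nat_lit 6) (nat_lit 21) (by decide +kernel)
noncomputable def s639 : Raw := ⟨[(0,[10,1,2,3,4]),(1,[11,6,5,2,0,10]),(2,[7,3,0,1,5]),(3,[8,4,0,2,7]),(4,[10,0,3,8,9,12]),(5,[14,7,2,1,6,13,15]),(6,[13,5,1,11,16]),(7,[17,8,3,2,5,14,18]),(8,[19,9,4,3,7,17,20]),(9,[21,12,4,8,19])], [11,16,13,15,14,18,17,20,19,21,12,10], [(6,11),(6,13),(1,10),(1,5)]⟩
def c639 : RawB s639 := raw1 s639 (nat_lit 10) [⟨0,1,3,3,3,4,false,false⟩,⟨0,2,4,3,3,0,false,false⟩,⟨2,3,0,3,3,2,false,false⟩,⟨2,4,0,2,2,1,false,false⟩,⟨2,0,1,0,4,10,false,false⟩,⟨3,5,3,2,2,7,false,false⟩,⟨1,3,4,3,7,8,false,false⟩,⟨4,6,1,2,2,5,false,false⟩,⟨6,5,5,2,7,7,false,false⟩,⟨3,5,8,7,7,17,false,false⟩,⟨6,7,7,5,5,14,false,false⟩,⟨6,5,14,7,17,18,false,false⟩,⟨4,8,1,5,5,6,false,false⟩,⟨4,2,6,1,10,11,false,true⟩,⟨1,2,4,8,8,9,false,false⟩,⟨4,9,11,6,6,16,true,false⟩,⟨8,9,5,6,16,13,false,false⟩,⟨8,7,13,5,14,15,false,false⟩,⟨1,0,9,4,10,12,false,false⟩,⟨3,4,8,17,17,20,false,false⟩,⟨2,3,9,8,20,19,false,false⟩,⟨1,2,12,9,19,21,false,false⟩]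 (nat_lit 4) (nat_lit 10) (by decide +kernel)
noncomputable def s640 : Raw := ⟨[(0,[9,8,7,1,2,3,12]),(1,[13,4,2,0,7]),(2,[5,3,0,1,4]),(3,[15,12,0,2,5,6,14]),(4,[16,5,2,1,13]),(5,[17,6,3,2,4,16]),(6,[18,14,3,5,17]),(8,[19,7,0,9,10,11,20]),(9,[21,10,8,0,12]),(10,[22,11,8,9,21,23]),(11,[24,20,8,10,22])], [21,23,22,24,20,19,7,13,16,17,18,14,15,12], [(10,21),(10,22),(10,8),(9,0)]⟩
def c640 : RawB s640 := raw1 s640 (nat_lit 12) [⟨0,1,2,2,2,5,false,false⟩,⟨0,2,2,5,5,4,false,false⟩,⟨2,3,5,4,4,16,false,false⟩,⟨2,4,5,16,16,17,false,false⟩,⟨3,5,4,16,16,13,false,false⟩,⟨0,3,2,4,13,1,false,false⟩,⟨3,6,1,13,13,7,false,false⟩,⟨0,3,2,1,7,0,false,false⟩,⟨0,1,0,2,5,3,false,false⟩,⟨1,2,3,5,17,6,false,false⟩,⟨3,7,0,7,7,8,false,false⟩,⟨3,8,8,0,0,9,false,false⟩,⟨0,8,3,0,9,12,false,false⟩,⟨3,9,9,8,8,10,false,false⟩,⟨3,8,10,9,12,21,false,true⟩,⟨7,8,7,8,8,19,false,false⟩,⟨3,10,21,10,10,23,true,false⟩,⟨2,3,6,17,17,18,false,false⟩,⟨10,11,10,23,23,22,false,false⟩,⟨9,10,8,10,22,11,false,false⟩,⟨9,8,11,8,19,20,false,false⟩,⟨9,10,20,11,22,24,false,false⟩,⟨1,2,3,6,18,14,false,false⟩,⟨0,1,12,3,14,15,false,false⟩]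 (nat_lit 9) (nat_lit 170) (by decide +kernel)
noncomputable def s641 : Raw := ⟨[(0,[9,8,7,1,2,3,13]),(1,[14,4,2,0,7]),(2,[5,3,0,1,4]),(3,[16,13,0,2,5,6,15]),(4,[17,5,2,1,14]),(5,[18,6,3,2,4,17]),(6,[19,15,3,5,18]),(8,[20,7,0,9,10,11,12,21]),(9,[22,10,8,0,13]),(10,[23,11,8,9,22]),(11,[24,12,8,10,23]),(12,[25,21,8,11,24])], [20,7,14,17,18,19,15,16,13,22,23,24,25,21], [(12,25),(11,23),(8,20),(11,8)]⟩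
def c641 : RawB s641 := raw1 s641 (nat_lit 12) [⟨0,1,11,11,11,24,false,false⟩,⟨0,2,11,24,24,23,false,false⟩,⟨0,3,11,23,23,10,false,false⟩,⟨0,4,11,10,10,8,false,false⟩,⟨0,1,8,11,24,12,false,false⟩,⟨4,5,10,8,8,9,false,false⟩,⟨4,3,9,10,23,22,false,false⟩,⟨5,6,9,8,8,0,false,false⟩,⟨5,4,0,9,22,13,false,false⟩,⟨6,7,8,0,0,7,false,false⟩,⟨6,8,7,8,8,20,true,false⟩,⟨5,6,13,0,0,3,false,false⟩,⟨7,10,0,7,7,1,false,false⟩,⟨7,6,1,0,3,2,false,false⟩,⟨10,11,1,7,7,14,false,false⟩,⟨7,10,2,1,14,4,false,false⟩,⟨6,7,3,2,4,5,false,false⟩,⟨7,10,5,4,14,17,false,false⟩,⟨0,8,12,8,20,21,false,true⟩,⟨0,1,21,12,24,25,false,false⟩,⟨7,9,5,17,17,18,false,false⟩,⟨6,7,3,5,18,6,false,false⟩,⟨7,8,6,18,18,19,false,false⟩,⟨6,7,3,6,19,15,false,false⟩,⟨5,6,13,3,15,16,false,false⟩] (nat_lit 8) (nat_lit 85) (by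 decide +kernel)
noncomputable def s642 : Raw := ⟨[(0,[11,1,2,3,4,5,12]),(1,[13,6,2,0,11]),(2,[16,14,3,0,1,6,15]),(3,[17,9,8,7,4,0,2,14]),(4,[10,5,0,3,7]),(5,[12,0,4,10,18]),(6,[15,2,1,13,19]),(7,[21,10,4,3,8,20]),(8,[23,20,7,3,9,22]),(9,[22,8,3,17,24]),(10,[18,5,4,7,21])], [13,19,15,16,14,17,24,22,23,20,21,18,12,11], [(9,24),(3,8),(8,22),(8,20)]⟩
def c642 : RawB s642 := raw1 s642 (nat_lit 12) [⟨0,1,10,10,10,18,false,false⟩,⟨0,2,10,18,18,21,false,false⟩,⟨0,3,10,21,21,7,false,false⟩,⟨0,4,10,7,7,4,false,false⟩,⟨0,1,4,10,18,5,false,false⟩,⟨0,5,5,4,4,0,false,false⟩,⟨5,4,0,4,7,3,false,false⟩,⟨0,1,0,5,18,12,false,false⟩,⟨5,6,0,3,3,2,false,false⟩,⟨5,7,0,2,2,1,false,false⟩,⟨5,8,0,1,1,11,false,false⟩,⟨0,5,12,0,11,11,false,false⟩,⟨4,5,7,3,3,8,false,false⟩,⟨6,9,3,2,2,14,false,false⟩,⟨7,10,1,2,2,6,false,false⟩,⟨7,8,6,1,11,13,false,true⟩,⟨7,11,13,6,6,19,true,false⟩,⟨10,11,2,6,19,15,false,false⟩,⟨9,10,14,2,15,16,false,false⟩,⟨4,3,8,7,21,20,false,false⟩,⟨6,8,3,14,14,17,false,false⟩,⟨5,6,8,3,17,9,false,false⟩,⟨6,7,9,17,17,24,false,false⟩,⟨5,6,8,9,24,22,false,false⟩,⟨4,5,20,8,22,23,false,false⟩]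 (nat_lit 8) (nat_lit 170) (by decide +kernel)
noncomputable def s643 : Raw := ⟨[(0,[6,5,4,1,2,9]),(1,[10,3,2,0,4]),(2,[12,9,0,1,3,11]),(3,[11,2,1,10,13]),(5,[14,4,0,6,7,15]),(6,[16,8,7,5,0,9,17]),(7,[15,5,6,8,18]),(8,[18,7,6,16,19])], [10,13,11,12,9,17,16,19,18,15,14,4], [(1,0),(6,5),(5,15),(5,4)]⟩
def c643 : RawB s643 := raw1 s643 (nat_lit 10) [⟨0,1,5,5,5,15,false,false⟩,⟨0,2,5,15,15,7,false,false⟩,⟨2,3,15,7,7,18,false,false⟩,⟨3,4,18,7,7,8,false,false⟩,⟨0,4,5,7,8,6,false,false⟩,⟨0,5,5,6,6,0,false,false⟩,⟨0,6,5,0,0,4,false,false⟩,⟨6,7,4,0,0,1,false,false⟩,⟨6,8,1,4,4,10,false,true⟩,⟨6,8,10,1,1,3,false,false⟩,⟨7,8,0,1,3,2,false,false⟩,⟨7,5,2,0,6,9,false,false⟩,⟨6,9,10,3,3,13,true,false⟩,⟨8,9,2,3,13,11,false,false⟩,⟨7,8,9,2,11,12,false,false⟩,⟨0,1,4,5,15,14,false,false⟩,⟨5,6,6,9,9,17,false,false⟩,⟨4,5,8,6,17,16,false,false⟩,⟨4,3,16,8,18,19,false,false⟩]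 (nat_lit 12) (nat_lit 1365) (by decide +kernel)
noncomputable def s644 : Raw := ⟨[(0,[9,1,2,3,4,5,10]),(1,[11,6,2,0,9]),(2,[7,3,0,1,6]),(3,[14,12,4,0,2,7,8,13]),(4,[15,5,0,3,12,16]),(5,[17,10,0,4,15]),(6,[18,7,2,1,11]),(7,[19,8,3,2,6,18,20]),(8,[21,13,3,7,19])], [18,20,19,21,13,14,12,16,15,17,10,9,11], [(1,11),(3,7),(7,18),(7,19)]⟩
def c644 : RawB s644 := raw1 s644 (nat_lit 11) [⟨0,1,0,0,0,1,false,false⟩,⟨0,2,1,0,0,2,false,false⟩,⟨0,3,1,2,2,6,false,false⟩,⟨3,4,6,2,2,7,false,false⟩,⟨4,5,2,7,7,3,false,false⟩,⟨2,4,0,2,3,3,false,false⟩,⟨2,4,0,3,3,4,false,false⟩,⟨4,6,4,3,3,12,false,false⟩,⟨6,7,12,3,3,14,false,false⟩,⟨7,8,14,3,3,13,false,false⟩,⟨5,8,7,3,13,8,false,false⟩,⟨8,9,13,8,8,21,false,false⟩,⟨5,9,7,8,21,19,false,false⟩,⟨5,10,7,19,19,20,false,false⟩,⟨3,5,6,7,20,18,false,true⟩,⟨0,3,1,6,18,11,false,true⟩,⟨1,0,0,1,11,9,false,false⟩,⟨2,3,0,4,4,5,false,false⟩,⟨2,1,5,0,9,10,false,false⟩,⟨4,5,4,12,12,16,false,false⟩,⟨3,4,5,4,16,15,false,false⟩,⟨2,3,10,5,15,17,false,false⟩]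 (nat_lit 11) (nat_lit 682) (by decide +kernel)
noncomputable def s645 : Raw := ⟨[(0,[10,1,2,3,4,5,11]),(1,[12,6,2,0,10]),(2,[7,3,0,1,6]),(3,[13,4,0,2,7,8,9,14]),(4,[15,5,0,3,13,16]),(5,[17,11,0,4,15]),(6,[18,7,2,1,12]),(7,[19,8,3,2,6,18,20]),(8,[21,9,3,7,19,22]),(9,[23,14,3,8,21])], [11,10,12,18,20,19,22,21,23,14,13,16,15,17], [(1,12),(3,7),(7,18),(7,19)]⟩
def c645 : RawB s645 := raw1 s645 (nat_lit 12) [⟨0,1,11,11,11,17,false,true⟩,⟨0,1,17,11,11,5,false,false⟩,⟨1,2,5,11,11,0,false,false⟩,⟨1,3,5,0,0,4,false,false⟩,⟨1,0,4,5,17,15,false,false⟩,⟨3,4,4,0,0,3,false,false⟩,⟨2,5,11,0,0,10,true,false⟩,⟨3,2,3,4,4,13,false,false⟩,⟨4,6,3,0,0,2,false,false⟩,⟨5,10,0,10,10,1,false,false⟩,⟨6,5,2,0,1,1,false,false⟩,⟨10,11,1,10,10,12,false,false⟩,⟨6,10,2,1,12,6,false,false⟩,⟨4,6,3,2,6,7,false,false⟩,⟨6,10,7,6,12,18,false,false⟩,⟨2,1,13,4,15,16,false,false⟩,⟨6,9,7,18,18,20,false,false⟩,⟨6,8,7,20,20,19,false,false⟩,⟨4,6,3,7,19,8,false,false⟩,⟨4,5,3,8,8,9,false,false⟩,⟨4,3,9,3,13,14,false,false⟩,⟨6,7,8,19,19,22,false,false⟩,⟨5,6,9,8,22,21,false,false⟩,⟨4,5,14,9,21,23,false,false⟩]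 (nat_lit 12) (nat_lit 1365) (by decide +kernel)
noncomputable def s646 : Raw := ⟨[(0,[12,1,2,3,4,5,13]),(1,[14,6,2,0,12]),(2,[7,3,0,1,6]),(3,[10,8,4,0,2,7,9,11]),(4,[17,15,5,0,3,8,16]),(5,[18,13,0,4,15]),(6,[19,7,2,1,14]),(7,[20,9,3,2,6,19]),(8,[22,16,4,3,10,21]),(9,[23,11,3,7,20]),(10,[25,21,8,3,11,24]),(11,[24,10,3,9,23])], [12,14,19,20,23,24,25,21,22,16,17,15,18,13], [(0,2),(2,7)]⟩
def c646 : RawB s646 := raw1 s646 (nat_lit 12) [⟨0,1,9,9,9,11,false,false⟩,⟨0,2,9,11,11,3,false,false⟩,⟨2,3,3,11,11,10,false,false⟩,⟨2,4,3,10,10,8,false,false⟩,⟨4,6,8,10,10,21,false,false⟩,⟨4,5,8,21,21,22,false,false⟩,⟨6,7,21,10,10,25,false,false⟩,⟨3,7,11,10,25,24,false,false⟩,⟨3,8,11,24,24,23,false,false⟩,⟨1,3,9,11,23,23,false,false⟩,⟨1,9,9,23,23,20,false,false⟩,⟨0,1,3,9,20,7,false,false⟩,⟨0,3,3,7,7,2,false,false⟩,⟨1,10,7,20,20,19,false,false⟩,⟨3,1,2,7,19,6,false,false⟩,⟨1,11,6,19,19,14,false,false⟩,⟨3,1,2,6,14,1,false,false⟩,⟨3,0,1,2,3,0,false,false⟩,⟨3,1,0,1,14,12,false,true⟩,⟨0,2,0,3,8,4,false,false⟩,⟨2,4,4,8,22,16,false,false⟩,⟨0,1,0,4,4,5,false,false⟩,⟨0,3,5,0,12,13,false,true⟩,⟨2,3,4,16,16,17,false,false⟩,⟨1,2,5,4,17,15,false,false⟩,⟨0,1,13,5,15,18,false,false⟩]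 (nat_lit 5) (nat_lit 21) (by decide +kernel)
end Pool.Agent.FCT.R
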