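import Pool.Agent.Lib.MP_fe5cb4_co.FC.RawDef
set_option linter.defProp false
namespace Pool.Agent.FCT.R
open Pool.Agent.Lib.MP_fe5cb4_co.FC
noncomputable def s647 : Raw := ⟨[(0,[11,9,1,2,3,10]),(1,[12,2,0,9,13]),(2,[14,4,3,0,1,12,15]),(3,[10,0,2,4,5,6,7,8]),(4,[16,5,3,2,14,17]),(5,[18,6,3,4,16]),(6,[19,7,3,5,18]),(7,[20,8,3,6,19,21]),(8,[22,10,3,7,20])], [19,21,20,22,10,11,9,13,12,15,14,17,16,18], [(1,12),(0,10),(0,9),(0,2)]⟩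
def c647 : RawB s647 := raw1 s647 (nat_lit 12) [⟨0,1,4,4,4,5,false,false⟩,⟨0,2,5,4,4,3,false,false⟩,⟨2,3,4,3,3,2,false,false⟩,⟨0,4,5,3,3,6,false,false⟩,⟨3,6,2,3,3,0,false,false⟩,⟨3,5,2,0,0,1,false,false⟩,⟨6,7,3,0,0,10,false,false⟩,⟨7,8,0,10,10,11,false,false⟩,⟨5,7,1,0,11,9,false,false⟩,⟨6,9,3,10,10,8,false,false⟩,⟨4,6,6,3,8,7,false,false⟩,⟨9,10,10,8,8,22,false,false⟩,⟨6,10,7,8,22,20,false,false⟩,⟨6,11,7,20,20,21,false,false⟩,⟨4,6,6,7,21,19,false,true⟩,⟨0,4,5,6,19,18,false,true⟩,⟨1,0,4,5,18,16,false,false⟩,⟨5,6,1,9,9,13,false,false⟩,⟨3,5,2,1,13,12,false,false⟩,⟨3,4,2,12,12,15,false,false⟩,⟨2,3,4,2,15,14,false,false⟩,⟨2,1,14,4,16,17,false,false⟩] (nat_lit 15) (nat_lit 10922) (by decide +kernel)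
noncomputable def s648 : Raw := ⟨[(0,[6,5,4,1,2,9]),(1,[10,3,2,0,4,11]),(2,[13,9,0,1,3,12]),(3,[12,2,1,10,14]),(5,[15,4,0,6,7,8,16]),(6,[17,7,5,0,9]),(7,[18,8,5,6,17]),(8,[19,16,5,7,18])], [10,14,12,13,9,17,18,19,16,15,4,11], [(1,4),(1,10),(2,12),(2,9)]⟩
def c648 : RawB s648 := raw1 s648 (nat_lit 10) [⟨0,1,4,4,4,5,false,false⟩,⟨0,2,4,5,5,0,false,false⟩,⟨2,3,5,0,0,6,false,false⟩,⟨3,4,6,0,0,9,false,false⟩,⟨2,5,5,6,6,7,false,false⟩,⟨3,6,6,9,9,17,false,false⟩,⟨3,5,17,6,7,7,false,false⟩,⟨4,7,0,9,9,2,false,false⟩,⟨4,0,2,0,4,1,false,false⟩,⟨0,5,4,1,1,11,false,false⟩,⟨4,8,1,2,2,3,false,false⟩,⟨4,5,3,1,11,10,false,true⟩,⟨3,5,7,17,17,18,false,false⟩,⟨4,9,10,3,3,14,true,false⟩,⟨8,9,2,3,14,12,false,false⟩,⟨7,8,9,2,12,13,false,false⟩,⟨2,3,5,7,18,8,false,false⟩,⟨3,4,8,18,18,19,false,false⟩,⟨2,3,5,8,19,16,false,false⟩,⟨1,2,4,5,16,15,false,false⟩]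 (nat_lit 14) (nat_lit 5461) (by decide +kernel)
noncomputable def s649 : Raw := ⟨[(0,[13,11,1,2,3,4,12]),(1,[14,6,5,2,0,11,15]),(2,[7,3,0,1,5]),(3,[8,4,0,2,7]),(4,[17,12,0,3,8,9,10,16]),(5,[19,7,2,1,6,18]),(6,[18,5,1,14,20]),(7,[8,3,2,5,19]),(8,[21,9,4,3,7,19]),(9,[22,10,4,8,21]),(10,[23,16,4,9,22])], [22,23,16,17,12,13,11,15,14,20,18,19,21], [(10,16)]⟩
def c649 : RawB s649 := raw1 s649 (nat_lit 11) [⟨0,1,7,7,7,19,false,false⟩,⟨0,2,19,7,7,8,false,false⟩,⟨2,3,7,8,8,3,false,false⟩,⟨3,4,8,3,3,4,false,false⟩,⟨3,5,8,4,4,9,false,false⟩,⟨3,0,9,8,19,21,false,false⟩,⟨4,6,3,4,4,0,false,false⟩,⟨4,2,0,3,7,2,false,false⟩,⟨2,1,2,7,19,5,false,false⟩,⟨4,2,0,2,5,1,false,false⟩,⟨6,8,0,4,4,12,false,false⟩,⟨6,7,0,12,12,13,false,false⟩,⟨4,6,1,0,13,11,false,false⟩,⟨5,9,9,4,4,10,false,false⟩,⟨5,3,10,9,21,22,false,true⟩,⟨2,3,5,1,1,6,false,false⟩,⟨5,10,22,10,10,23,true,false⟩,⟨9,10,4,10,23,16,false,false⟩,⟨8,9,12,4,16,17,false,false⟩,⟨2,1,6,5,19,18,false,false⟩,⟨4,5,1,11,11,15,false,false⟩,⟨3,4,6,1,15,14,false,false⟩,⟨3,2,14,6,18,20,false,false⟩]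 (nat_lit 6) (nat_lit 42) (by decide +kernel)
noncomputable def s650 : Raw := ⟨[(0,[6,5,4,1,2,9]),(1,[10,3,2,0,4,11]),(2,[13,9,0,1,3,12]),(3,[12,2,1,10,14]),(5,[15,4,0,6,7,8]),(6,[16,7,5,0,9,17]),(7,[18,8,5,6,16]),(8,[19,15,5,7,18])], [19,15,4,11,10,14,12,13,9,17,16,18], [(1,4),(1,10),(2,12),(2,9)]⟩
def c650 : RawB s650 := raw1 s650 (nat_lit 10) [⟨0,1,18,18,18,19,false,true⟩,⟨0,1,18,19,19,8,false,false⟩,⟨1,2,19,8,8,15,true,false⟩,⟨0,3,18,8,8,7,false,false⟩,⟨0,1,18,7,7,16,false,false⟩,⟨3,4,7,8,8,5,false,false⟩,⟨3,1,5,7,16,6,false,false⟩,⟨4,2,5,8,15,15,false,false⟩,⟨1,2,16,6,6,17,false,false⟩,⟨4,9,5,15,15,4,false,false⟩,⟨4,3,4,5,6,0,false,false⟩,⟨3,2,0,6,17,9,false,false⟩,⟨4,5,0,4,4,1,false,false⟩,⟨4,3,1,0,9,2,false,false⟩,⟨5,8,1,4,4,11,false,false⟩,⟨5,7,1,11,11,10,false,false⟩,⟨4,5,2,1,10,3,false,false⟩,⟨5,6,3,10,10,14,false,false⟩,⟨4,5,2,3,14,12,false,false⟩,⟨3,4,9,2,12,13,false,false⟩]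 (nat_lit 11) (nat_lit 1365) (by decide +kernel)
noncomputable def s651 : Raw := ⟨[(0,[8,7,6,1,2,11]),(1,[12,5,4,3,2,0,6]),(2,[14,11,0,1,3,13]),(3,[16,13,2,1,4,15]),(4,[15,3,1,5,17]),(5,[17,4,1,12,18]),(7,[19,6,0,8,9,10,20]),(8,[21,9,7,0,11]),(9,[22,10,7,8,21]),(10,[23,20,7,9,22])], [22,23,20,19,6,12,18,17,15,16,13,14,11,21], [(10,9),(9,21),(7,0),(0,11)]⟩
def c651 : RawB s651 := raw1 s651 (nat_lit 12) [⟨0,1,0,0,0,11,false,false⟩,⟨0,2,11,0,0,8,false,false⟩,⟨2,3,8,0,0,7,false,false⟩,⟨2,4,8,7,7,9,false,false⟩,⟨2,5,8,9,9,21,false,false⟩,⟨0,2,11,8,21,21,false,false⟩,⟨1,2,11,0,0,2,false,false⟩,⟨5,7,21,9,9,22,true,false⟩,⟨3,9,0,7,7,6,false,false⟩,⟨2,3,2,0,6,1,false,false⟩,⟨3,8,1,6,6,12,false,false⟩,⟨3,6,1,12,12,5,false,false⟩,⟨3,5,1,5,5,4,false,false⟩,⟨4,10,9,7,7,10,false,false⟩,⟨4,7,10,9,22,22,false,false⟩,⟨4,11,22,10,10,23,true,false⟩,⟨10,11,7,10,23,20,false,false⟩,⟨9,10,6,7,20,19,false,false⟩,⟨2,3,2,1,4,3,false,false⟩,⟨6,7,5,12,12,18,false,false⟩,⟨5,6,4,5,18,17,false,false⟩,⟨3,5,3,4,17,15,false,false⟩,⟨3,4,3,15,15,16,false,false⟩,⟨2,3,2,3,16,13,false,false⟩,⟨1,2,11,2,13,14,false,false⟩]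 (nat_lit 11) (nat_lit 1365) (by decide +kernel)
noncomputable def s652 : Raw := ⟨[(0,[7,6,5,4,1,2,12]),(1,[13,3,2,0,4]),(2,[12,0,1,3,14]),(3,[14,2,1,13,15]),(5,[16,4,0,6,8,17]),(6,[10,8,5,0,7,9,11]),(7,[18,9,6,0,12,19]),(8,[17,5,6,10,20]),(9,[21,11,6,7,18,22]),(10,[20,8,6,11,23]),(11,[23,10,6,9,21])], [13,15,14,12,19,18,22,21,23,20,17,16,4], [(3,13),(3,14),(0,12),(8,20)]⟩
def c652 : RawB s652 := raw1 s652 (nat_lit 11) [⟨0,2,6,6,6,10,false,false⟩,⟨0,3,6,10,10,11,false,false⟩,⟨0,4,6,11,11,9,false,false⟩,⟨0,6,6,9,9,7,false,false⟩,⟨0,1,7,6,6,0,false,false⟩,⟨0,7,0,7,7,12,false,false⟩,⟨0,8,0,12,12,2,false,false⟩,⟨0,5,0,2,2,1,false,false⟩,⟨8,9,2,12,12,14,false,false⟩,⟨5,8,1,2,14,3,false,false⟩,⟨8,10,3,14,14,15,false,false⟩,⟨5,8,1,3,15,13,false,true⟩,⟨0,5,0,1,13,4,false,true⟩,⟨0,1,4,0,6,5,false,false⟩,⟨1,2,5,6,10,8,false,false⟩,⟨4,5,11,9,9,21,false,false⟩,⟨3,4,10,11,21,23,false,false⟩,⟨2,3,8,10,23,20,false,false⟩,⟨1,2,5,8,20,17,false,false⟩,⟨0,1,4,5,17,16,false,false⟩,⟨7,8,7,12,12,19,false,false⟩,⟨6,7,9,7,19,18,false,false⟩,⟨6,5,18,9,21,22,false,false⟩]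 (nat_lit 6) (nat_lit 42) (by decide +kernel)
noncomputable def s653 : Raw := ⟨[(0,[9,8,7,1,2,3,12]),(1,[13,5,4,2,0,7,14]),(2,[6,3,0,1,4]),(3,[12,0,2,6,15]),(4,[17,6,2,1,5,16]),(5,[16,4,1,13,18]),(6,[15,3,2,4,17]),(8,[19,7,0,9,10,11,20]),(9,[21,10,8,0,12,22]),(10,[23,11,8,9,21]),(11,[24,20,8,10,23])], [12,22,21,23,24,20,19,7,14,13,18,16,17,15], [(11,24),(8,9),(9,12),(9,21)]⟩
def c653 : RawB s653 := raw1 s653 (nat_lit 12) [⟨0,1,12,12,12,15,false,true⟩,⟨0,2,15,12,12,3,false,false⟩,⟨0,1,15,3,3,6,false,false⟩,⟨2,3,3,12,12,0,false,false⟩,⟨2,1,0,3,6,2,false,false⟩,⟨2,4,2,0,0,1,false,false⟩,⟨2,1,1,2,6,4,false,false⟩,⟨1,0,4,6,15,17,false,false⟩,⟨4,5,1,0,0,7,false,false⟩,⟨5,6,0,7,7,8,false,false⟩,⟨5,7,0,8,8,9,false,false⟩,⟨3,5,12,0,9,9,false,false⟩,⟨3,8,12,9,9,22,true,false⟩,⟨8,11,9,22,22,21,false,false⟩,⟨7,8,8,9,21,10,false,false⟩,⟨8,10,10,21,21,23,false,false⟩,⟨7,8,8,10,23,11,false,false⟩,⟨8,9,11,23,23,24,false,false⟩,⟨7,8,8,11,24,20,false,false⟩,⟨6,7,7,8,20,19,false,false⟩,⟨2,3,4,1,1,5,false,false⟩,⟨2,1,5,4,17,16,false,false⟩,⟨4,5,1,7,7,14,false,false⟩,⟨3,4,5,1,14,13,false,false⟩,⟨3,2,13,5,16,18,false,false⟩]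 (nat_lit 8) (nat_lit 85) (by decide +kernel)
noncomputable def s654 : Raw := ⟨[(0,[7,6,5,4,1,2,13]),(1,[14,3,2,0,4]),(2,[13,0,1,3,15]),(3,[15,2,1,14,16]),(5,[17,4,0,6,8,9,18]),(6,[11,8,5,0,7,10,12]),(7,[19,10,6,0,13,20]),(8,[21,9,5,6,11]),(9,[22,18,5,8,21]),(10,[23,12,6,7,19,24]),(11,[21,8,6,12,25]),(12,[25,11,6,10,23])], [14,16,15,13,20,19,24,23,25,21,22,18,17,4], [(3,14),(3,15),(1,4),(2,13)]⟩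
def c654 : RawB s654 := raw1 s654 (nat_lit 12) [⟨0,1,11,11,11,12,false,false⟩,⟨0,2,12,11,11,6,false,false⟩,⟨1,4,12,11,11,25,false,false⟩,⟨1,5,12,25,25,23,false,false⟩,⟨1,6,12,23,23,10,false,false⟩,⟨0,1,6,12,10,10,false,false⟩,⟨0,7,6,10,10,7,false,false⟩,⟨0,1,7,6,6,0,false,false⟩,⟨0,8,0,7,7,13,false,false⟩,⟨0,9,0,13,13,2,false,false⟩,⟨0,3,0,2,2,1,false,false⟩,⟨9,10,2,13,13,15,false,false⟩,⟨3,9,1,2,15,3,false,false⟩,⟨9,11,3,15,15,16,false,false⟩,⟨3,9,1,3,16,14,false,true⟩,⟨0,3,0,1,14,4,false,true⟩,⟨0,1,4,0,6,5,false,false⟩,⟨1,2,5,6,11,8,false,false⟩,⟨2,4,8,11,25,21,false,false⟩,⟨1,2,5,8,21,9,false,false⟩,⟨8,9,7,13,13,20,false,false⟩,⟨7,8,10,7,20,19,false,false⟩,⟨7,6,19,10,23,24,false,false⟩,⟨2,3,9,21,21,22,false,false⟩,⟨1,2,5,9,22,18,false,false⟩,⟨0,1,4,5,18,17,false,false⟩]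 (nat_lit 6) (nat_lit 21) (by decide +kernel)
noncomputable def s655 : Raw := ⟨[(0,[11,9,1,2,3,4,10]),(1,[12,8,7,6,5,2,0,9]),(2,[13,3,0,1,5,14]),(3,[15,4,0,2,13]),(4,[16,10,0,3,15]),(5,[14,2,1,6,17]),(6,[17,5,1,7,18]),(7,[20,18,6,1,8,19]),(8,[19,7,1,12,21])], [16,10,11,9,12,21,19,20,18,17,14,13,15], [(0,2),(2,13),(1,5),(5,14)]⟩
def c655 : RawB s655 := raw1 s655 (nat_lit 11) [⟨0,1,13,13,13,14,false,false⟩,⟨0,2,13,14,14,2,false,false⟩,⟨0,3,13,2,2,3,false,false⟩,⟨3,4,2,3,3,0,false,false⟩,⟨4,6,3,0,0,4,false,false⟩,⟨4,7,3,4,4,15,false,false⟩,⟨0,4,13,3,15,15,false,false⟩,⟨3,8,2,0,0,1,false,false⟩,⟨3,2,1,2,14,5,false,false⟩,⟨3,4,5,1,1,6,false,false⟩,⟨3,2,6,5,14,17,false,false⟩,⟨4,5,6,1,1,7,false,false⟩,⟨4,3,7,6,17,18,false,false⟩,⟨6,9,4,0,0,10,false,false⟩,⟨6,7,10,4,15,16,true,true⟩,⟨5,6,7,1,1,8,false,false⟩,⟨9,10,0,10,10,11,false,false⟩,⟨8,9,1,0,11,9,false,false⟩,⟨6,8,8,1,9,12,false,false⟩,⟨6,7,8,12,12,21,false,false⟩,⟨5,6,7,8,21,19,false,false⟩,⟨4,5,18,7,19,20,false,false⟩]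 (nat_lit 9) (nat_lit 341) (by decide +kernel)
noncomputable def s656 : Raw := ⟨[(0,[7,1,2,3,4]),(1,[6,5,2,0,7]),(2,[10,8,3,0,1,5,9]),(3,[11,4,0,2,8,12]),(4,[13,7,0,3,11]),(5,[15,9,2,1,6,14]),(6,[14,5,1,7,16])], [13,7,16,14,15,9,10,8,12,11], [(4,13),(3,8),(3,11),(3,0)]⟩
def c656 : RawB s656 := raw1 s656 (nat_lit 8) [⟨0,1,7,7,7,13,false,true⟩,⟨0,1,13,7,7,4,false,false⟩,⟨0,2,4,13,13,11,false,true⟩,⟨0,2,11,4,4,3,false,false⟩,⟨1,3,4,7,7,0,false,false⟩,⟨1,2,0,4,3,3,false,false⟩,⟨1,4,3,0,0,2,false,false⟩,⟨1,2,3,2,2,8,false,false⟩,⟨3,5,0,7,7,1,false,false⟩,⟨4,3,2,0,1,1,false,false⟩,⟨2,3,8,2,2,10,false,false⟩,⟨5,6,1,7,7,6,false,false⟩,⟨4,5,2,1,6,5,false,false⟩,⟨4,3,5,2,10,9,false,false⟩,⟨6,7,6,7,7,16,false,false⟩,⟨5,6,5,6,16,14,false,false⟩,⟨4,5,9,5,14,15,false,false⟩,⟨1,0,8,3,11,12,false,false⟩]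 (nat_lit 5) (nat_lit 21) (by decide +kernel)
noncomputable def s657 : Raw := ⟨[(0,[8,1,2,3,4]),(1,[9,5,2,0,8]),(2,[12,10,3,0,1,5,11]),(3,[13,6,4,0,2,10,14]),(4,[8,0,3,6,7]),(5,[11,2,1,9,15]),(6,[16,7,4,3,13,17]),(7,[18,8,4,6,16])], [12,10,14,13,17,16,18,8,9,15,11], [(5,9),(5,11),(3,4),(4,8)]⟩
def c657 : RawB s657 := raw1 s657 (nat_lit 9) [⟨0,1,1,1,1,9,false,false⟩,⟨0,2,1,9,9,8,false,false⟩,⟨0,3,1,8,8,0,false,false⟩,⟨0,4,1,0,0,2,false,false⟩,⟨0,1,2,1,9,5,false,false⟩,⟨4,5,0,2,2,3,false,false⟩,⟨4,3,3,0,8,4,false,false⟩,⟨0,6,5,2,2,11,false,false⟩,⟨1,0,9,5,11,15,false,false⟩,⟨5,7,2,3,3,10,false,false⟩,⟨5,6,10,2,11,12,true,true⟩,⟨4,5,4,3,3,6,false,false⟩,⟨4,3,6,4,8,7,false,false⟩,⟨7,8,3,10,10,14,false,false⟩,⟨5,7,6,3,14,13,false,false⟩,⟨5,6,6,13,13,17,false,false⟩,⟨4,5,7,6,17,16,false,false⟩,⟨3,4,8,7,16,18,false,false⟩]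 (nat_lit 4) (nat_lit 10) (by decide +kernel)
noncomputable def s658 : Raw := ⟨[(0,[9,1,2,3,4,5,10]),(1,[11,6,2,0,9]),(2,[7,3,0,1,6,12]),(3,[15,13,4,0,2,7,14]),(4,[16,8,5,0,3,13]),(5,[18,10,0,4,8,17]),(6,[12,2,1,11,19]),(7,[14,3,2,12,20]),(8,[17,5,4,16,21])], [11,19,12,20,14,15,13,16,21,17,18,10,9], [(6,1),(1,9)]⟩
def c658 : RawB s658 := raw1 s658 (nat_lit 11) [⟨0,1,0,0,0,5,false,false⟩,⟨0,2,0,5,5,4,false,false⟩,⟨0,3,0,4,4,3,false,false⟩,⟨0,5,0,3,3,2,false,false⟩,⟨0,4,0,2,2,1,false,false⟩,⟨3,6,4,3,3,13,false,false⟩,⟨6,7,13,3,3,15,false,false⟩,⟨7,8,15,3,3,14,false,false⟩,⟨5,8,2,3,14,7,false,false⟩,⟨8,9,14,7,7,20,false,false⟩,⟨5,9,2,7,20,12,false,false⟩,⟨4,5,1,2,12,6,false,false⟩,⟨5,10,6,12,12,19,false,false⟩,⟨4,5,1,6,19,11,false,true⟩,⟨0,4,0,1,11,9,false,true⟩,⟨1,0,5,0,9,10,false,false⟩,⟨3,5,4,13,13,16,false,false⟩,⟨2,3,5,4,16,8,false,false⟩,⟨3,4,8,16,16,21,false,false⟩,⟨2,3,5,8,21,17,false,false⟩,⟨1,2,10,5,17,18,false,false⟩]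 (nat_lit 11) (nat_lit 1365) (by decide +kernel)
noncomputable def s659 : Raw := ⟨[(0,[10,1,2,3,4,5,11]),(1,[12,6,2,0,10]),(2,[14,7,3,0,1,6,13,15]),(3,[16,4,0,2,7,17]),(4,[9,8,5,0,3,16]),(5,[19,11,0,4,8,18]),(6,[13,2,1,12,20]),(7,[17,3,2,14,21]),(8,[18,5,4,9,22]),(9,[22,8,4,16,23])], [13,15,14,21,17,16,23,22,18,19,11,10,12,20], [(0,4),(4,16),(5,18),(5,11)]⟩
def c659 : RawB s659 := raw1 s659 (nat_lit 12) [⟨0,1,1,1,1,10,false,false⟩,⟨0,2,1,10,10,0,false,false⟩,⟨2,3,10,0,0,11,false,false⟩,⟨3,4,11,0,0,5,false,false⟩,⟨0,5,1,0,0,2,false,false⟩,⟨0,6,1,2,2,6,false,false⟩,⟨0,1,6,1,10,12,false,false⟩,⟨5,7,0,2,2,3,false,false⟩,⟨5,4,3,0,5,4,false,false⟩,⟨7,8,2,3,3,7,false,false⟩,⟨8,9,3,7,7,17,false,false⟩,⟨5,8,4,3,17,16,false,false⟩,⟨9,10,17,7,7,21,false,false⟩,⟨7,10,2,7,21,14,false,false⟩,⟨7,11,2,14,14,15,false,false⟩,⟨6,7,6,2,15,13,false,true⟩,⟨0,6,12,6,13,20,false,true⟩,⟨5,6,4,16,16,9,false,false⟩,⟨4,5,5,4,9,8,false,false⟩,⟨6,7,9,16,16,23,false,false⟩,⟨5,6,8,9,23,22,false,false⟩,⟨4,5,5,8,22,18,false,false⟩,⟨3,4,11,5,18,19,false,false⟩]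 (nat_lit 9) (nat_lit 341) (by decide +kernel)
end Pool.Agent.FCT.R
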