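import Pool.Agent.Lib.MP_fe5cb4_co.FC.RawDef
set_option linter.defProp false
namespace Pool.Agent.FCT.R
open Pool.Agent.Lib.MP_fe5cb4_co.FC
noncomputable def s660 : Raw := ⟨[(0,[9,1,2,3,4,10]),(1,[11,5,2,0,9,12]),(2,[13,3,0,1,5,14]),(3,[15,7,6,4,0,2,13]),(4,[10,0,3,6,8,16]),(5,[14,2,1,11,17]),(6,[19,8,4,3,7,18,20]),(7,[18,6,3,15,21]),(8,[22,16,4,6,19])], [15,21,18,20,19,22,16,10,9,12,11,17,14,13], [(2,0),(0,9),(3,4),(4,10)]⟩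
def c660 : RawB s660 := raw1 s660 (nat_lit 12) [⟨0,1,0,0,0,2,false,false⟩,⟨0,2,2,0,0,3,false,false⟩,⟨2,3,3,0,0,4,false,false⟩,⟨3,4,0,4,4,10,false,false⟩,⟨3,5,0,10,10,9,false,false⟩,⟨1,3,2,0,9,1,false,false⟩,⟨4,6,4,10,10,16,false,false⟩,⟨4,7,4,16,16,8,false,false⟩,⟨2,4,3,4,8,6,false,false⟩,⟨7,8,16,8,8,22,false,false⟩,⟨4,8,6,8,22,19,false,false⟩,⟨4,9,6,19,19,20,false,false⟩,⟨4,10,6,20,20,18,false,false⟩,⟨2,4,3,6,18,7,false,false⟩,⟨4,11,7,18,18,21,false,false⟩,⟨2,4,3,7,21,15,false,true⟩,⟨0,2,2,3,15,13,false,true⟩,⟨1,2,2,1,1,5,false,false⟩,⟨1,0,5,2,13,14,false,false⟩,⟨3,4,1,9,9,12,false,false⟩,⟨2,3,5,1,12,11,false,false⟩,⟨2,1,11,5,14,17,false,false⟩] (nat_lit 15) (nat_lit 10922) (by decide +kernel)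
noncomputable def s661 : Raw := ⟨[(0,[7,6,5,1,2,10]),(1,[11,4,3,2,0,5,12]),(2,[10,0,1,3,13]),(3,[15,13,2,1,4,14]),(4,[14,3,1,11,16]),(6,[17,5,0,7,8,9]),(7,[18,8,6,0,10,19]),(8,[20,9,6,7,18]),(9,[21,17,6,8,20])], [14,15,13,10,19,18,20,21,17,5,12,11,16], [(2,10),(1,3),(3,14),(3,13)]⟩
def c661 : RawB s661 := raw1 s661 (nat_lit 11) [⟨0,1,1,1,1,12,false,false⟩,⟨0,2,1,12,12,5,false,false⟩,⟨0,3,1,5,5,0,false,false⟩,⟨3,4,5,0,0,6,false,false⟩,⟨4,5,6,0,0,7,false,false⟩,⟨5,6,7,0,0,10,false,false⟩,⟨6,7,0,10,10,2,false,false⟩,⟨0,6,1,0,2,2,false,false⟩,⟨7,9,2,10,10,13,false,false⟩,⟨0,7,1,2,13,3,false,false⟩,⟨0,6,1,3,3,4,false,false⟩,⟨0,1,4,1,12,11,false,false⟩,⟨5,8,7,10,10,19,false,false⟩,⟨7,10,3,13,13,15,false,false⟩,⟨6,7,4,3,15,14,false,true⟩,⟨0,6,11,4,14,16,false,true⟩,⟨5,7,7,19,19,18,false,false⟩,⟨4,5,6,7,18,8,false,false⟩,⟨5,6,8,18,18,20,false,false⟩,⟨4,5,6,8,20,9,false,false⟩,⟨3,4,5,6,9,17,false,false⟩,⟨4,5,17,9,20,21,false,false⟩]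 (nat_lit 10) (nat_lit 341) (by decide +kernel)
noncomputable def s662 : Raw := ⟨[(0,[9,1,2,3,4,5,10]),(1,[11,6,2,0,9]),(2,[14,12,3,0,1,6,13]),(3,[15,4,0,2,12,16]),(4,[17,8,7,5,0,3,15]),(5,[19,10,0,4,7,18]),(6,[13,2,1,11,20]),(7,[18,5,4,8,21]),(8,[21,7,4,17,22])], [11,20,13,14,12,16,15,17,22,21,18,19,10,9], [(0,4),(4,17),(5,18),(5,10)]⟩
def c662 : RawB s662 := raw1 s662 (nat_lit 12) [⟨0,1,0,0,0,5,false,false⟩,⟨0,2,0,5,5,4,false,false⟩,⟨0,3,0,4,4,3,false,false⟩,⟨3,4,4,3,3,15,false,false⟩,⟨0,5,0,3,3,2,false,false⟩,⟨3,6,4,15,15,17,false,false⟩,⟨4,7,3,15,15,16,false,false⟩,⟨4,8,3,16,16,12,false,false⟩,⟨5,4,2,3,12,12,false,false⟩,⟨0,4,0,2,2,1,false,false⟩,⟨5,9,2,12,12,14,false,false⟩,⟨5,10,2,14,14,13,false,false⟩,⟨4,5,1,2,13,6,false,false⟩,⟨5,11,6,13,13,20,false,false⟩,⟨4,5,1,6,20,11,false,true⟩,⟨0,4,0,1,11,9,false,true⟩,⟨1,0,5,0,9,10,false,false⟩,⟨3,4,4,17,17,8,false,false⟩,⟨2,3,5,4,8,7,false,false⟩,⟨4,5,8,17,17,22,false,false⟩,⟨3,4,7,8,22,21,false,false⟩,⟨2,3,5,7,21,18,false,false⟩,⟨1,2,10,5,18,19,false,false⟩]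 (nat_lit 17) (nat_lit 87381) (by decide +kernel)
noncomputable def s663 : Raw := ⟨[(0,[11,9,1,2,3,10]),(1,[12,5,4,2,0,9,13]),(2,[15,6,3,0,1,4,14]),(3,[10,0,2,6,7,8,16]),(4,[18,14,2,1,5,17]),(5,[17,4,1,12,19]),(6,[20,7,3,2,15]),(7,[21,8,3,6,20]),(8,[22,16,3,7,21])], [9,13,12,19,17,18,14,15,20,21,22,16,10,11], [(3,10),(3,6),(2,14),(2,1)]⟩
def c663 : RawB s663 := raw1 s663 (nat_lit 12) [⟨0,1,3,3,3,16,false,false⟩,⟨0,2,3,16,16,8,false,false⟩,⟨2,3,16,8,8,22,false,false⟩,⟨3,4,22,8,8,21,false,false⟩,⟨0,4,3,8,21,7,false,false⟩,⟨4,5,21,7,7,20,false,false⟩,⟨0,5,3,7,20,6,false,false⟩,⟨5,6,20,6,6,15,false,false⟩,⟨0,6,3,6,15,2,false,false⟩,⟨0,7,3,2,2,0,false,false⟩,⟨0,1,0,3,16,10,false,false⟩,⟨0,8,10,0,0,11,false,false⟩,⟨8,9,0,11,11,9,false,true⟩,⟨7,8,2,0,9,1,false,false⟩,⟨8,9,9,1,1,13,true,false⟩,⟨7,8,2,1,1,4,false,false⟩,⟨7,6,4,2,15,14,false,false⟩,⟨9,11,1,13,13,12,false,false⟩,⟨8,9,4,1,12,5,false,false⟩,⟨9,10,5,12,12,19,false,false⟩,⟨8,9,4,5,19,17,false,false⟩,⟨7,8,14,4,17,18,false,false⟩]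 (nat_lit 16) (nat_lit 21845) (by decide +kernel)
noncomputable def s664 : Raw := ⟨[(0,[7,1,2,3,4,5,8]),(1,[9,6,2,0,7,10]),(2,[11,3,0,1,6]),(3,[12,4,0,2,11,13]),(4,[14,5,0,3,12,15]),(5,[16,8,0,4,14]),(6,[11,2,1,9,17])], [8,7,10,9,17,11,13,12,15,14,16], [(0,3),(3,11),(3,12)]⟩
def c664 : RawB s664 := raw1 s664 (nat_lit 9) [⟨0,1,0,0,0,4,false,false⟩,⟨0,2,0,4,4,3,false,false⟩,⟨2,3,4,3,3,12,false,false⟩,⟨3,4,12,3,3,13,false,false⟩,⟨4,5,13,3,3,11,false,false⟩,⟨0,5,0,3,11,2,false,false⟩,⟨5,6,11,2,2,6,false,false⟩,⟨0,6,0,2,6,1,false,false⟩,⟨0,7,0,1,1,7,false,false⟩,⟨0,8,0,7,7,8,false,true⟩,⟨1,0,4,0,8,5,false,false⟩,⟨0,8,5,8,8,16,false,true⟩,⟨7,8,1,7,7,10,false,false⟩,⟨6,7,6,1,10,9,false,false⟩,⟨6,5,9,6,11,17,false,false⟩,⟨1,0,4,5,16,14,false,false⟩,⟨2,1,12,4,14,15,false,false⟩]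 (nat_lit 9) (nat_lit 170) (by decide +kernel)
noncomputable def s665 : Raw := ⟨[(0,[11,9,1,2,3,4,5,10]),(1,[12,6,2,0,9]),(2,[7,3,0,1,6,13]),(3,[14,4,0,2,7,8,15]),(4,[16,5,0,3,14]),(5,[17,10,0,4,16]),(6,[13,2,1,12,18]),(7,[19,8,3,2,13,20]),(8,[21,15,3,7,19])], [16,17,10,11,9,12,18,13,20,19,21,15,14], [(3,7),(7,13),(7,19)]⟩
def c665 : RawB s665 := raw1 s665 (nat_lit 11) [⟨0,1,3,3,3,4,false,false⟩,⟨0,2,3,4,4,14,false,false⟩,⟨1,4,3,4,4,0,false,false⟩,⟨1,6,3,0,0,2,false,false⟩,⟨1,3,3,2,2,7,false,false⟩,⟨3,5,7,2,2,13,false,false⟩,⟨6,7,2,0,0,1,false,false⟩,⟨6,5,1,2,13,6,false,false⟩,⟨7,8,1,0,0,9,false,false⟩,⟨6,7,6,1,9,12,false,false⟩,⟨6,5,12,6,13,18,false,false⟩,⟨4,9,4,0,0,5,false,false⟩,⟨4,2,5,4,14,16,false,true⟩,⟨1,2,3,7,7,8,false,false⟩,⟨4,10,16,5,5,17,true,false⟩,⟨9,10,0,5,17,10,false,false⟩,⟨8,9,9,0,10,11,false,false⟩,⟨1,0,8,3,14,15,false,false⟩,⟨3,4,7,13,13,20,false,false⟩,⟨2,3,8,7,20,19,false,false⟩,⟨1,2,15,8,19,21,false,false⟩]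 (nat_lit 11) (nat_lit 1365) (by decide +kernel)
noncomputable def s666 : Raw := ⟨[(0,[7,6,5,4,1,2,10]),(1,[11,3,2,0,4]),(2,[13,10,0,1,3,12]),(3,[12,2,1,11,14]),(5,[15,4,0,6,8,16]),(6,[8,5,0,7,9]),(7,[17,9,6,0,10,18]),(8,[16,5,6,9,19]),(9,[19,8,6,7,17])], [14,12,13,10,18,17,19,16,15,4,11], [(3,11),(3,12),(2,10),(1,0)]⟩
def c666 : RawB s666 := raw1 s666 (nat_lit 9) [⟨0,1,4,4,4,5,false,false⟩,⟨0,2,4,5,5,0,false,false⟩,⟨0,3,4,0,0,1,false,false⟩,⟨2,4,5,0,0,6,false,false⟩,⟨3,5,1,0,0,2,false,false⟩,⟨3,6,1,2,2,3,false,false⟩,⟨3,0,3,1,4,11,false,false⟩,⟨6,7,3,2,2,12,false,false⟩,⟨3,6,11,3,12,14,true,true⟩,⟨2,3,5,6,6,8,false,false⟩,⟨7,8,2,12,12,13,false,false⟩,⟨5,7,0,2,13,10,false,false⟩,⟨4,5,6,0,10,7,false,false⟩,⟨4,3,7,6,8,9,false,false⟩,⟨5,6,7,10,10,18,false,false⟩,⟨4,5,9,7,18,17,false,false⟩,⟨3,4,8,9,17,19,false,false⟩,⟨2,3,5,8,19,16,false,false⟩,⟨1,2,4,5,16,15,false,false⟩]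 (nat_lit 5) (nat_lit 21) (by decide +kernel)
noncomputable def s667 : Raw := ⟨[(0,[10,1,2,3,4,11]),(1,[12,5,2,0,10]),(2,[6,3,0,1,5]),(3,[14,7,4,0,2,6,13]),(4,[16,11,0,3,7,8,9,15]),(5,[17,6,2,1,12]),(6,[18,13,3,2,5,17]),(7,[19,8,4,3,14,20]),(8,[21,9,4,7,19]),(9,[22,15,4,8,21])], [16,11,10,12,17,18,13,14,20,19,21,22,15], [(8,21),(4,7),(7,14),(7,19)]⟩
def c667 : RawB s667 := raw1 s667 (nat_lit 11) [⟨0,1,1,1,1,5,false,false⟩,⟨0,2,1,5,5,2,false,false⟩,⟨2,3,5,2,2,6,false,false⟩,⟨0,4,2,1,1,0,false,false⟩,⟨0,3,0,2,6,3,false,false⟩,⟨3,6,3,6,6,13,false,false⟩,⟨3,5,3,13,13,14,false,false⟩,⟨6,7,13,6,6,18,false,false⟩,⟨2,7,5,6,18,17,false,false⟩,⟨2,8,5,17,17,12,false,false⟩,⟨1,2,1,5,12,12,false,false⟩,⟨1,9,1,12,12,10,false,false⟩,⟨4,1,0,1,10,10,false,false⟩,⟨4,10,0,10,10,11,false,false⟩,⟨0,4,3,0,11,4,false,false⟩,⟨0,3,4,3,14,7,false,false⟩,⟨4,1,4,11,11,16,false,true⟩,⟨0,2,4,7,7,8,false,false⟩,⟨0,1,4,8,8,9,false,false⟩,⟨0,4,9,4,16,15,false,true⟩,⟨3,4,7,14,14,20,false,false⟩,⟨2,3,8,7,20,19,false,false⟩,⟨1,2,9,8,19,21,false,false⟩,⟨0,1,15,9,21,22,false,false⟩]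 (nat_lit 7) (nat_lit 85) (by decide +kernel)
noncomputable def s668 : Raw := ⟨[(0,[12,10,1,2,3,4,11]),(1,[13,5,2,0,10,14]),(2,[6,3,0,1,5]),(3,[7,4,0,2,6,15]),(4,[17,11,0,3,7,8,9,16]),(5,[18,6,2,1,13]),(6,[15,3,2,5,18]),(7,[19,8,4,3,15]),(8,[20,9,4,7,19]),(9,[21,16,4,8,20])], [20,21,16,17,11,12,10,14,13,18,15,19], [(9,8),(8,19),(4,7),(7,15)]⟩
def c668 : RawB s668 := raw1 s668 (nat_lit 10) [⟨0,1,5,5,5,18,false,false⟩,⟨0,2,5,18,18,13,false,false⟩,⟨0,3,5,13,13,1,false,false⟩,⟨0,4,5,1,1,2,false,false⟩,⟨0,1,2,5,18,6,false,false⟩,⟨0,5,6,2,2,3,false,false⟩,⟨4,5,1,2,3,0,false,false⟩,⟨0,1,3,6,18,15,false,false⟩,⟨0,6,15,3,3,7,false,false⟩,⟨5,6,0,3,7,4,false,false⟩,⟨6,7,7,4,4,8,false,false⟩,⟨6,0,8,7,15,19,false,false⟩,⟨6,8,8,19,19,20,false,true⟩,⟨6,8,20,8,8,9,false,false⟩,⟨8,7,9,8,4,4,false,false⟩,⟨5,7,0,4,4,11,false,false⟩,⟨6,9,20,9,9,21,true,false⟩,⟨8,9,4,9,21,16,false,false⟩,⟨7,8,11,4,16,17,false,false⟩,⟨5,6,0,11,11,12,false,false⟩,⟨4,5,1,0,12,10,false,false⟩,⟨4,3,10,1,13,14,false,false⟩]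 (nat_lit 5) (nat_lit 10) (by decide +kernel)
noncomputable def s669 : Raw := ⟨[(0,[9,1,2,3,4,5,10]),(1,[11,6,2,0,9]),(2,[7,3,0,1,6,8]),(3,[14,12,4,0,2,7,13]),(4,[15,5,0,3,12,16]),(5,[17,10,0,4,15]),(6,[18,8,2,1,11]),(7,[20,13,3,2,8,19]),(8,[19,7,2,6,18,21])], [10,9,11,18,21,19,20,13,14,12,16,15,17], [(0,3),(3,13),(3,12)]⟩
def c669 : RawB s669 := raw1 s669 (nat_lit 11) [⟨0,1,2,2,2,7,false,false⟩,⟨0,2,2,7,7,3,false,false⟩,⟨2,3,7,3,3,13,false,false⟩,⟨0,4,3,2,2,0,false,false⟩,⟨2,5,7,13,13,20,false,false⟩,⟨2,6,7,20,20,19,false,false⟩,⟨2,7,7,19,19,8,false,false⟩,⟨1,2,2,7,8,8,false,false⟩,⟨0,2,0,3,3,4,false,false⟩,⟨1,8,2,8,8,6,false,false⟩,⟨1,9,2,6,6,1,false,false⟩,⟨4,1,0,2,1,1,false,false⟩,⟨0,1,0,4,4,5,false,false⟩,⟨9,10,6,1,1,11,false,false⟩,⟨8,9,8,6,11,18,false,false⟩,⟨8,7,18,8,19,21,false,false⟩,⟨4,10,0,1,11,9,false,false⟩,⟨0,4,5,0,9,10,false,true⟩,⟨0,4,5,10,10,17,false,true⟩,⟨1,0,4,5,17,15,false,false⟩,⟨3,4,3,13,13,14,false,false⟩,⟨2,3,4,3,14,12,false,false⟩,⟨2,1,12,4,15,16,false,false⟩]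 (nat_lit 9) (nat_lit 341) (by decide +kernel)
noncomputable def s670 : Raw := ⟨[(0,[9,1,2,3,4,10]),(1,[11,7,6,5,2,0,9]),(2,[12,3,0,1,5,8,13]),(3,[14,4,0,2,12]),(4,[15,10,0,3,14]),(5,[17,8,2,1,6,16]),(6,[19,16,5,1,7,18]),(7,[18,6,1,11,20]),(8,[21,13,2,5,17])], [14,15,10,9,11,20,18,19,16,17,21,13,12], [(4,14),(4,10),(0,9),(0,2)]⟩
def c670 : RawB s670 := raw1 s670 (nat_lit 11) [⟨0,1,8,8,8,21,false,false⟩,⟨0,2,8,21,21,17,false,false⟩,⟨0,3,8,17,17,5,false,false⟩,⟨0,4,8,5,5,2,false,false⟩,⟨0,1,2,8,21,13,false,false⟩,⟨4,5,5,2,2,1,false,false⟩,⟨5,6,2,1,1,0,false,false⟩,⟨0,7,13,2,2,12,false,false⟩,⟨5,7,0,2,12,3,false,false⟩,⟨5,9,3,0,0,4,false,false⟩,⟨5,7,4,3,12,14,false,true⟩,⟨5,10,14,4,4,15,true,false⟩,⟨9,10,0,4,15,10,false,false⟩,⟨6,9,1,0,10,9,false,false⟩,⟨4,5,5,1,1,6,false,false⟩,⟨4,3,6,5,17,16,false,false⟩,⟨6,8,1,9,9,11,false,false⟩,⟨5,6,6,1,11,7,false,false⟩,⟨6,7,7,11,11,20,false,false⟩,⟨5,6,6,7,20,18,false,false⟩,⟨4,5,16,6,18,19,false,false⟩]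 (nat_lit 9) (nat_lit 341) (by decide +kernel)
noncomputable def s671 : Raw := ⟨[(0,[8,7,6,1,2,3,11]),(1,[12,4,2,0,6,13]),(2,[5,3,0,1,4]),(3,[15,11,0,2,5,14]),(4,[16,5,2,1,12]),(5,[14,3,2,4,16]),(7,[9,6,0,8,10]),(8,[18,10,7,0,11,19]),(9,[17,6,7,10,20]),(10,[20,9,7,8,18,21])], [20,17,6,13,12,16,14,15,11,19,18,21], [(9,6),(9,10),(7,0)]⟩
def c671 : RawB s671 := raw1 s671 (nat_lit 10) [⟨0,1,0,0,0,8,false,false⟩,⟨0,2,0,8,8,11,false,false⟩,⟨0,3,0,11,11,3,false,false⟩,⟨0,4,0,3,3,2,false,false⟩,⟨4,5,3,2,2,5,false,false⟩,⟨5,6,5,2,2,4,false,false⟩,⟨0,6,0,2,4,1,false,false⟩,⟨0,7,0,1,1,6,false,false⟩,⟨0,1,6,0,8,7,false,false⟩,⟨0,8,7,6,6,9,false,false⟩,⟨1,0,8,7,9,10,false,false⟩,⟨8,9,9,6,6,17,false,false⟩,⟨0,8,10,9,17,20,false,true⟩,⟨0,8,10,20,20,21,false,true⟩,⟨7,8,1,6,6,13,false,false⟩,⟨6,7,4,1,13,12,false,false⟩,⟨5,6,5,4,12,16,false,false⟩,⟨4,5,3,5,16,14,false,false⟩,⟨3,4,11,3,14,15,false,false⟩,⟨1,0,8,10,21,18,false,false⟩,⟨2,1,11,8,18,19,false,false⟩]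 (nat_lit 7) (nat_lit 42) (by decide +kernel)
noncomputable def s672 : Raw := ⟨[(0,[7,1,2,3,4,8]),(1,[6,5,2,0,7]),(2,[11,9,3,0,1,5,10]),(3,[12,4,0,2,9,13]),(4,[14,8,0,3,12]),(5,[16,10,2,1,6,15]),(6,[15,5,1,7,17])], [12,14,8,7,17,15,16,10,11,9,13], [(0,2),(2,10),(2,9),(5,6)]⟩
def c672 : RawB s672 := raw1 s672 (nat_lit 9) [⟨0,1,0,0,0,1,false,false⟩,⟨0,2,0,1,1,2,false,false⟩,⟨2,3,2,1,1,5,false,false⟩,⟨0,4,2,0,0,3,false,false⟩,⟨3,5,5,1,1,6,false,false⟩,⟨1,5,0,1,6,7,false,false⟩,⟨5,6,6,7,7,17,false,false⟩,⟨3,5,5,6,17,15,false,false⟩,⟨1,7,0,7,7,8,false,false⟩,⟨4,1,3,0,8,4,false,false⟩,⟨1,8,4,8,8,14,false,false⟩,⟨4,1,3,4,14,12,false,true⟩,⟨0,1,3,2,2,9,false,false⟩,⟨0,4,9,3,12,13,false,true⟩,⟨3,4,5,15,15,16,false,false⟩,⟨2,3,2,5,16,10,false,false⟩,⟨1,2,9,2,10,11,false,false⟩]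 (nat_lit 8) (nat_lit 170) (by decide +kernel)
noncomputable def s673 : Raw := ⟨[(0,[11,9,1,2,3,4,10]),(1,[12,5,2,0,9,13]),(2,[6,3,0,1,5,7]),(3,[8,4,0,2,6]),(4,[15,10,0,3,8,14]),(5,[16,7,2,1,12,17]),(6,[8,3,2,7,18]),(7,[18,6,2,5,16,19]),(8,[14,4,3,6,18])], [14,15,10,11,9,13,12,17,16,19,18], [(8,14),(2,7),(7,16),(7,18)]⟩
def c673 : RawB s673 := raw1 s673 (nat_lit 9) [⟨0,1,5,5,5,7,false,false⟩,⟨0,2,7,5,5,2,false,false⟩,⟨2,3,5,2,2,1,false,false⟩,⟨3,4,2,1,1,0,false,false⟩,⟨0,5,7,2,2,6,false,false⟩,⟨3,5,0,2,6,3,false,false⟩,⟨4,6,1,0,0,9,false,false⟩,⟨3,7,3,0,0,4,false,false⟩,⟨3,5,4,3,6,8,false,false⟩,⟨0,5,7,6,8,18,false,false⟩,⟨3,5,4,8,18,14,false,true⟩,⟨4,5,1,9,9,13,false,false⟩,⟨2,4,5,1,13,12,false,false⟩,⟨3,8,14,4,4,15,true,false⟩,⟨7,8,0,4,15,10,false,false⟩,⟨6,7,9,0,10,11,false,false⟩,⟨2,3,5,12,12,17,false,false⟩,⟨1,2,7,5,17,16,false,false⟩,⟨1,0,16,7,18,19,false,false⟩]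 (nat_lit 4) (nat_lit 10) (by decide +kernel)
noncomputable def s674 : Raw := ⟨[(0,[8,7,6,1,2,3,11]),(1,[12,4,2,0,6,13]),(2,[5,3,0,1,4]),(3,[15,11,0,2,5,14]),(4,[16,5,2,1,12]),(5,[14,3,2,4,16]),(7,[17,6,0,8,9,10,18]),(8,[19,9,7,0,11]),(9,[20,10,7,8,19]),(10,[21,18,7,9,20])], [19,20,21,18,17,6,13,12,16,14,15,11], [(10,20),(10,7),(8,19),(8,0)]⟩
def c674 : RawB s674 := raw1 s674 (nat_lit 10) [⟨0,1,4,4,4,5,false,false⟩,⟨0,2,4,5,5,16,false,false⟩,⟨0,3,4,16,16,12,false,false⟩,⟨0,4,4,12,12,1,false,false⟩,⟨0,1,1,4,5,2,false,false⟩,⟨0,5,2,1,1,0,false,false⟩,⟨0,1,0,2,5,3,false,false⟩,⟨1,2,3,5,16,14,false,false⟩,⟨5,6,1,0,0,6,false,false⟩,⟨5,4,6,1,12,13,false,false⟩,⟨0,7,3,0,0,11,false,false⟩,⟨0,1,11,3,14,15,false,false⟩,⟨7,8,0,11,11,8,false,false⟩,⟨6,7,6,0,8,7,false,false⟩,⟨8,9,8,11,11,19,false,true⟩,⟨7,8,7,8,19,9,false,false⟩,⟨8,9,9,19,19,20,false,true⟩,⟨7,8,7,9,20,10,false,false⟩,⟨8,9,10,20,20,21,false,false⟩,⟨7,8,7,10,21,18,false,false⟩,⟨6,7,6,7,18,17,false,false⟩]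 (nat_lit 5) (nat_lit 10) (by decide +kernel)
end Pool.Agent.FCT.R
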