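import Pool.Agent.Lib.MP_fe5cb4_co.FC.RawDef
set_option linter.defProp false
namespace Pool.Agent.FCT.R
open Pool.Agent.Lib.MP_fe5cb4_co.FC
noncomputable def s675 : Raw := ⟨[(0,[8,7,6,1,2,3,11]),(1,[12,4,2,0,6,13]),(2,[5,3,0,1,4]),(3,[15,11,0,2,5,14]),(4,[16,5,2,1,12]),(5,[14,3,2,4,16]),(7,[17,6,0,8,9,10,18]),(8,[19,9,7,0,11]),(9,[20,10,7,8,19,21]),(10,[22,18,7,9,20])], [18,17,6,13,12,16,14,15,11,19,21,20,22], [(9,19),(9,20),(9,7)]⟩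
def c675 : RawB s675 := raw1 s675 (nat_lit 11) [⟨0,1,4,4,4,5,false,false⟩,⟨0,2,5,4,4,2,false,false⟩,⟨0,4,2,5,5,3,false,false⟩,⟨0,3,2,3,3,0,false,false⟩,⟨1,5,4,5,5,16,false,false⟩,⟨5,6,5,16,16,14,false,false⟩,⟨4,5,3,5,14,14,false,false⟩,⟨1,7,4,16,16,12,false,false⟩,⟨1,8,4,12,12,1,false,false⟩,⟨1,2,1,4,2,2,false,false⟩,⟨0,1,0,2,1,1,false,false⟩,⟨8,9,12,1,1,13,false,false⟩,⟨0,9,0,1,13,6,false,false⟩,⟨0,2,6,0,0,7,false,false⟩,⟨0,10,7,6,6,17,false,false⟩,⟨0,1,7,17,17,18,false,true⟩,⟨0,1,18,7,7,10,false,false⟩,⟨0,5,10,18,18,22,false,true⟩,⟨4,5,3,14,14,15,false,false⟩,⟨3,4,0,3,15,11,false,false⟩,⟨2,3,7,0,11,8,false,false⟩,⟨2,1,8,7,10,9,false,false⟩,⟨2,3,9,8,11,19,false,false⟩,⟨1,0,9,10,22,20,false,false⟩,⟨2,1,19,9,20,21,false,false⟩] (nat_lit 8) (nat_lit 85) (by decide +kernel)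
noncomputable def s676 : Raw := ⟨[(0,[9,8,7,6,1,2,12]),(1,[4,3,2,0,6]),(2,[14,12,0,1,3,5,13]),(3,[16,5,2,1,4,15,17]),(4,[15,3,1,6,18]),(5,[19,13,2,3,16]),(7,[20,6,0,8,10,21]),(8,[10,7,0,9,11]),(9,[22,11,8,0,12,23]),(10,[21,7,8,11,24]),(11,[24,10,8,9,22])], [6,18,15,17,16,19,13,14,12,23,22,24,21,20], [(4,6),(4,3),(3,2),(2,12)]⟩
def c676 : RawB s676 := raw1 s676 (nat_lit 12) [⟨0,1,11,11,11,24,false,false⟩,⟨0,2,11,24,24,22,false,false⟩,⟨0,3,11,22,22,9,false,false⟩,⟨0,4,11,9,9,8,false,false⟩,⟨0,1,8,11,24,10,false,false⟩,⟨4,5,9,8,8,0,false,false⟩,⟨5,0,0,8,10,7,false,false⟩,⟨0,1,7,10,24,21,false,false⟩,⟨5,6,7,0,0,6,false,false⟩,⟨5,0,6,7,21,20,true,false⟩,⟨4,5,9,0,0,12,false,false⟩,⟨4,3,12,9,22,23,false,false⟩,⟨6,7,0,6,6,1,false,false⟩,⟨6,5,1,0,12,2,false,false⟩,⟨7,8,1,6,6,4,false,false⟩,⟨6,7,2,1,4,3,false,false⟩,⟨8,11,6,4,4,18,true,false⟩,⟨7,11,3,4,18,15,false,false⟩,⟨7,10,3,15,15,17,false,false⟩,⟨7,9,3,17,17,16,false,false⟩,⟨6,7,2,3,16,5,false,false⟩,⟨7,8,5,16,16,19,false,false⟩,⟨6,7,2,5,19,13,false,false⟩,⟨5,6,12,2,13,14,false,false⟩]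 (nat_lit 13) (nat_lit 2730) (by decide +kernel)
noncomputable def s677 : Raw := ⟨[(0,[12,10,1,2,3,4,11]),(1,[13,5,2,0,10,14]),(2,[6,3,0,1,5]),(3,[7,4,0,2,6,15]),(4,[11,0,3,7,8,9,16]),(5,[17,6,2,1,13]),(6,[15,3,2,5,17]),(7,[18,8,4,3,15,19]),(8,[20,9,4,7,18,21]),(9,[22,16,4,8,20])], [14,13,17,15,19,18,21,20,22,16,11,12,10], [(4,7),(7,15),(7,18)]⟩
def c677 : RawB s677 := raw1 s677 (nat_lit 11) [⟨0,1,0,0,0,11,false,false⟩,⟨0,2,0,11,11,4,false,false⟩,⟨0,3,0,4,4,3,false,false⟩,⟨3,4,4,3,3,7,false,false⟩,⟨4,5,3,7,7,15,false,false⟩,⟨0,6,0,3,3,2,false,false⟩,⟨5,8,7,15,15,19,false,false⟩,⟨5,7,7,19,19,18,false,false⟩,⟨4,9,3,15,15,6,false,false⟩,⟨6,4,2,3,6,6,false,false⟩,⟨9,10,15,6,6,17,false,false⟩,⟨6,10,2,6,17,5,false,false⟩,⟨0,6,0,2,5,1,false,false⟩,⟨0,4,0,1,1,10,false,false⟩,⟨6,10,1,5,17,13,false,false⟩,⟨4,6,10,1,13,14,true,true⟩,⟨3,5,4,7,18,8,false,false⟩,⟨0,1,10,0,11,12,false,false⟩,⟨3,4,4,8,8,9,false,false⟩,⟨3,2,9,4,11,16,false,false⟩,⟨5,6,8,18,18,21,false,false⟩,⟨4,5,9,8,21,20,false,false⟩,⟨3,4,16,9,20,22,false,false⟩]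 (nat_lit 7) (nat_lit 42) (by decide +kernel)
noncomputable def s678 : Raw := ⟨[(0,[10,1,2,3,4,5,11]),(1,[12,6,2,0,10]),(2,[13,3,0,1,6,14]),(3,[15,7,4,0,2,13,16]),(4,[18,8,5,0,3,7,17,19]),(5,[11,0,4,8,9]),(6,[14,2,1,12,20]),(7,[17,4,3,15,21]),(8,[22,9,5,4,18]),(9,[23,11,5,8,22])], [22,23,11,10,12,20,14,13,16,15,21,17,19,18], [(6,20),(1,12),(2,13),(2,0)]⟩
def c678 : RawB s678 := raw1 s678 (nat_lit 12) [⟨0,1,3,3,3,4,false,false⟩,⟨0,2,4,3,3,0,false,false⟩,⟨2,3,3,0,0,2,false,false⟩,⟨3,4,0,2,2,1,false,false⟩,⟨4,5,1,2,2,6,false,false⟩,⟨5,6,6,2,2,14,false,false⟩,⟨2,6,3,2,14,13,false,false⟩,⟨5,7,6,14,14,20,false,false⟩,⟨5,8,6,20,20,12,false,false⟩,⟨4,5,1,6,12,12,false,false⟩,⟨4,9,1,12,12,10,false,false⟩,⟨3,4,0,1,10,10,false,false⟩,⟨3,10,0,10,10,11,false,false⟩,⟨0,3,4,0,11,5,false,false⟩,⟨3,4,5,11,11,9,false,false⟩,⟨0,3,4,5,9,8,false,false⟩,⟨2,5,3,13,13,16,false,false⟩,⟨4,11,9,11,11,23,false,false⟩,⟨3,4,8,9,23,22,false,true⟩,⟨0,3,4,8,22,18,false,true⟩,⟨2,4,3,16,16,15,false,false⟩,⟨1,2,4,3,15,7,false,false⟩,⟨2,3,7,15,15,21,false,false⟩,⟨1,2,4,7,21,17,false,false⟩,⟨1,0,17,4,18,19,false,false⟩]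 (nat_lit 17) (nat_lit 87381) (by decide +kernel)
noncomputable def s679 : Raw := ⟨[(0,[8,7,6,1,2,3,12]),(1,[13,4,2,0,6,14]),(2,[5,3,0,1,4]),(3,[16,12,0,2,5,15]),(4,[17,5,2,1,13]),(5,[15,3,2,4,17]),(7,[18,6,0,8,9,10,11,19]),(8,[20,9,7,0,12]),(9,[21,10,7,8,20]),(10,[22,11,7,9,21]),(11,[23,19,7,10,22])], [22,23,19,18,6,14,13,17,15,16,12,20,21], [(11,22),(11,19)]⟩
def c679 : RawB s679 := raw1 s679 (nat_lit 11) [⟨0,2,3,3,3,12,false,false⟩,⟨0,3,12,3,3,0,false,false⟩,⟨3,4,3,0,0,2,false,false⟩,⟨0,5,12,0,0,8,false,false⟩,⟨0,1,8,12,12,20,false,false⟩,⟨5,6,8,0,0,7,false,false⟩,⟨5,0,7,8,20,9,false,false⟩,⟨5,7,9,7,7,10,false,false⟩,⟨5,0,10,9,20,21,false,false⟩,⟨6,8,0,7,7,6,false,false⟩,⟨4,6,2,0,6,1,false,false⟩,⟨7,9,10,7,7,11,false,false⟩,⟨7,5,11,10,21,22,false,true⟩,⟨4,5,2,1,1,4,false,false⟩,⟨3,4,3,2,4,5,false,false⟩,⟨7,10,22,11,11,23,true,false⟩,⟨9,10,7,11,23,19,false,false⟩,⟨8,9,6,7,19,18,false,false⟩,⟨6,7,1,6,6,14,false,false⟩,⟨5,6,4,1,14,13,false,false⟩,⟨4,5,5,4,13,17,false,false⟩,⟨3,4,3,5,17,15,false,false⟩,⟨2,3,12,3,15,16,false,false⟩]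 (nat_lit 7) (nat_lit 85) (by decide +kernel)
noncomputable def s680 : Raw := ⟨[(0,[11,1,2,3,4,7,12]),(1,[13,5,2,0,11,14]),(2,[6,3,0,1,5]),(3,[15,4,0,2,6,16]),(4,[10,9,8,7,0,3,15]),(5,[17,6,2,1,13]),(6,[16,3,2,5,17]),(8,[18,7,4,9,19]),(9,[19,8,4,10,20]),(10,[20,9,4,15,21])], [18,7,12,11,14,13,17,16,15,21,20,19], [(9,19),(4,7),(9,4),(4,3)]⟩
def c680 : RawB s680 := raw1 s680 (nat_lit 10) [⟨0,1,18,18,18,19,false,true⟩,⟨0,1,19,18,18,8,false,false⟩,⟨0,2,19,8,8,9,false,false⟩,⟨1,3,18,8,8,7,true,false⟩,⟨0,1,19,9,9,20,false,false⟩,⟨2,4,9,8,8,4,false,false⟩,⟨2,1,4,9,20,10,false,false⟩,⟨4,3,4,8,7,7,false,false⟩,⟨2,3,10,4,4,15,false,false⟩,⟨2,1,15,10,20,21,false,false⟩,⟨4,8,4,7,7,0,false,false⟩,⟨4,3,0,4,15,3,false,false⟩,⟨4,6,3,0,0,2,false,false⟩,⟨4,5,3,2,2,6,false,false⟩,⟨4,3,6,3,15,16,false,false⟩,⟨6,7,2,0,0,1,false,false⟩,⟨6,5,1,2,6,5,false,false⟩,⟨5,4,5,6,16,17,false,false⟩,⟨6,5,1,5,17,13,false,false⟩,⟨8,9,0,7,7,12,false,false⟩,⟨7,8,1,0,12,11,false,false⟩,⟨7,6,11,1,13,14,false,false⟩]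 (nat_lit 5) (nat_lit 21) (by decide +kernel)
noncomputable def s681 : Raw := ⟨[(0,[11,1,2,3,4,7,12]),(1,[13,5,2,0,11,14]),(2,[6,3,0,1,5]),(3,[15,4,0,2,6,16]),(4,[10,9,8,7,0,3,15]),(5,[17,6,2,1,13]),(6,[16,3,2,5,17]),(8,[18,7,4,9,19]),(9,[21,19,8,4,10,20]),(10,[20,9,4,15,22])], [20,21,19,18,7,12,11,14,13,17,16,15,22], [(9,20),(9,19),(4,7),(4,15)]⟩
def c681 : RawB s681 := raw1 s681 (nat_lit 11) [⟨0,1,5,5,5,6,false,false⟩,⟨0,2,5,6,6,17,false,false⟩,⟨0,3,5,17,17,13,false,false⟩,⟨0,4,5,13,13,1,false,false⟩,⟨0,1,1,5,6,2,false,false⟩,⟨0,5,2,1,1,0,false,false⟩,⟨0,1,0,2,6,3,false,false⟩,⟨1,2,3,6,17,16,false,false⟩,⟨0,6,3,0,0,4,false,false⟩,⟨0,1,4,3,16,15,false,false⟩,⟨0,8,15,4,4,10,false,false⟩,⟨0,7,15,10,10,22,false,false⟩,⟨7,9,10,22,22,20,false,true⟩,⟨8,7,4,10,20,9,false,false⟩,⟨8,9,4,9,9,8,false,false⟩,⟨6,8,0,4,8,7,false,false⟩,⟨7,10,20,9,9,21,true,false⟩,⟨9,10,8,9,21,19,false,false⟩,⟨8,9,7,8,19,18,false,false⟩,⟨6,7,0,7,7,12,false,false⟩,⟨5,6,1,0,12,11,false,false⟩,⟨5,4,11,1,13,14,false,false⟩]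 (nat_lit 8) (nat_lit 85) (by decide +kernel)
noncomputable def s682 : Raw := ⟨[(0,[8,1,2,3,4,5]),(1,[9,6,2,0,8]),(2,[7,3,0,1,6]),(3,[12,10,4,0,2,7,11]),(4,[13,5,0,3,10,14]),(5,[15,8,0,4,13]),(6,[16,7,2,1,9,17]),(7,[18,11,3,2,6,16])], [17,16,18,11,12,10,14,13,15,8,9], [(0,8),(4,0),(3,11),(3,10)]⟩
def c682 : RawB s682 := raw1 s682 (nat_lit 9) [⟨0,1,5,5,5,8,false,false⟩,⟨0,2,8,5,5,0,false,false⟩,⟨0,3,8,0,0,1,false,false⟩,⟨0,4,8,1,1,9,false,false⟩,⟨4,5,9,1,1,6,false,false⟩,⟨3,5,0,1,6,2,false,false⟩,⟨5,6,6,2,2,7,false,false⟩,⟨3,6,0,2,7,3,false,false⟩,⟨3,2,3,0,5,4,false,false⟩,⟨5,7,6,7,7,16,false,false⟩,⟨4,5,9,6,16,17,true,true⟩,⟨3,5,4,3,3,10,false,false⟩,⟨3,4,4,10,10,14,false,false⟩,⟨2,3,5,4,14,13,false,false⟩,⟨7,8,7,16,16,18,false,false⟩,⟨6,7,3,7,18,11,false,false⟩,⟨5,6,10,3,11,12,false,false⟩,⟨1,2,8,5,13,15,false,false⟩]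 (nat_lit 5) (nat_lit 21) (by decide +kernel)
noncomputable def s683 : Raw := ⟨[(0,[10,1,2,3,4,5,11]),(1,[12,6,2,0,10]),(2,[15,13,3,0,1,6,14]),(3,[16,8,7,4,0,2,13]),(4,[9,5,0,3,7,17]),(5,[11,0,4,9,18]),(6,[14,2,1,12,19]),(7,[21,17,4,3,8,20]),(8,[20,7,3,16,22]),(9,[18,5,4,17,23])], [12,19,14,15,13,16,22,20,21,17,23,18,11,10], [(8,22),(3,7),(7,20),(7,17)]⟩
def c683 : RawB s683 := raw1 s683 (nat_lit 12) [⟨0,1,9,9,9,18,false,false⟩,⟨0,2,9,18,18,23,false,false⟩,⟨0,3,9,23,23,17,false,false⟩,⟨0,4,9,17,17,4,false,false⟩,⟨0,1,4,9,18,5,false,false⟩,⟨0,5,5,4,4,0,false,false⟩,⟨0,1,0,5,18,11,false,false⟩,⟨5,6,4,0,0,3,false,false⟩,⟨5,4,3,4,17,7,false,false⟩,⟨0,7,11,0,0,10,false,false⟩,⟨7,8,0,10,10,1,false,false⟩,⟨7,6,1,0,3,2,false,false⟩,⟨7,9,1,2,2,6,false,false⟩,⟨7,8,6,1,10,12,false,true⟩,⟨7,11,12,6,6,19,true,false⟩,⟨9,11,2,6,19,14,false,false⟩,⟨9,10,2,14,14,15,false,false⟩,⟨6,9,3,2,15,13,false,false⟩,⟨6,8,3,13,13,16,false,false⟩,⟨5,6,7,3,16,8,false,false⟩,⟨6,7,8,16,16,22,false,false⟩,⟨5,6,7,8,22,20,false,false⟩,⟨4,5,17,7,20,21,false,false⟩]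 (nat_lit 12) (nat_lit 2730) (by decide +kernel)
noncomputable def s684 : Raw := ⟨[(0,[7,6,5,4,1,2,11]),(1,[12,3,2,0,4]),(2,[14,11,0,1,3,13]),(3,[13,2,1,12,15]),(5,[16,4,0,6,8,17]),(6,[10,8,5,0,7,9]),(7,[18,9,6,0,11]),(8,[20,17,5,6,10,19]),(9,[21,10,6,7,18]),(10,[22,19,8,6,9,21])], [12,15,13,14,11,18,21,22,19,20,17,16,4], [(3,12),(3,13),(2,11),(1,0)]⟩
def c684 : RawB s684 := raw1 s684 (nat_lit 11) [⟨0,1,5,5,5,8,false,false⟩,⟨0,2,5,8,8,6,false,false⟩,⟨0,3,5,6,6,0,false,false⟩,⟨3,4,0,6,6,7,false,false⟩,⟨0,5,5,0,0,4,false,false⟩,⟨4,6,6,7,7,9,false,false⟩,⟨2,4,8,6,9,10,false,false⟩,⟨6,7,9,7,7,18,false,false⟩,⟨4,6,10,9,18,21,false,false⟩,⟨3,7,0,7,18,11,false,false⟩,⟨3,8,0,11,11,2,false,false⟩,⟨3,5,2,0,4,1,false,false⟩,⟨3,9,1,2,2,3,false,false⟩,⟨3,5,3,1,4,12,false,true⟩,⟨4,5,10,21,21,22,false,false⟩,⟨2,4,8,10,22,19,false,false⟩,⟨3,10,12,3,3,15,true,false⟩,⟨9,10,2,3,15,13,false,false⟩,⟨8,9,11,2,13,14,false,false⟩,⟨2,3,8,19,19,20,false,false⟩,⟨1,2,5,8,20,17,false,false⟩,⟨0,1,4,5,17,16,false,false⟩]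 (nat_lit 7) (nat_lit 85) (by decide +kernel)
noncomputable def s685 : Raw := ⟨[(0,[7,6,5,4,1,2,11]),(1,[12,3,2,0,4]),(2,[14,11,0,1,3,13]),(3,[13,2,1,12,15]),(5,[16,4,0,6,8,17]),(6,[8,5,0,7,9]),(7,[18,10,9,6,0,11,19]),(8,[17,5,6,9,20]),(9,[20,8,6,7,10]),(10,[20,9,7,18,21])], [12,15,13,14,11,19,18,21,20,17,16,4], [(3,12),(3,13),(1,4),(2,14)]⟩
def c685 : RawB s685 := raw1 s685 (nat_lit 10) [⟨0,1,6,6,6,8,false,false⟩,⟨0,2,6,8,8,9,false,false⟩,⟨2,3,8,9,9,20,false,false⟩,⟨3,4,20,9,9,10,false,false⟩,⟨0,4,6,9,10,7,false,false⟩,⟨0,5,6,7,7,0,false,false⟩,⟨0,1,0,6,8,5,false,false⟩,⟨0,6,5,0,0,4,false,false⟩,⟨6,7,4,0,0,1,false,false⟩,⟨6,8,1,4,4,12,false,true⟩,⟨6,8,12,1,1,3,false,false⟩,⟨7,8,0,1,3,2,false,false⟩,⟨7,5,2,0,7,11,false,false⟩,⟨6,9,12,3,3,15,true,false⟩,⟨8,9,2,3,15,13,false,false⟩,⟨7,8,11,2,13,14,false,false⟩,⟨1,2,5,8,20,17,false,false⟩,⟨0,1,4,5,17,16,false,false⟩,⟨5,6,7,11,11,19,false,false⟩,⟨4,5,10,7,19,18,false,false⟩,⟨4,3,18,10,20,21,false,false⟩]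 (nat_lit 7) (nat_lit 42) (by decide +kernel)
noncomputable def s686 : Raw := ⟨[(0,[7,6,5,4,1,2,11]),(1,[12,3,2,0,4]),(2,[14,11,0,1,3,13]),(3,[13,2,1,12,15]),(5,[16,4,0,6,8,17]),(6,[8,5,0,7,9]),(7,[18,10,9,6,0,11,19]),(8,[17,5,6,9,20]),(9,[20,8,6,7,10,21]),(10,[21,9,7,18,22])], [12,15,13,14,11,19,18,22,21,20,17,16,4], [(3,1),(1,4),(2,0)]⟩
def c686 : RawB s686 := raw1 s686 (nat_lit 11) [⟨0,1,5,5,5,17,false,false⟩,⟨0,2,5,17,17,8,false,false⟩,⟨2,3,17,8,8,20,false,false⟩,⟨3,4,20,8,8,9,false,false⟩,⟨0,4,5,8,9,6,false,false⟩,⟨4,5,9,6,6,7,false,false⟩,⟨0,5,5,6,7,0,false,false⟩,⟨5,6,0,7,7,11,false,false⟩,⟨0,7,5,0,0,4,false,false⟩,⟨5,8,0,11,11,2,false,false⟩,⟨5,7,2,0,4,1,false,false⟩,⟨5,9,1,2,2,3,false,false⟩,⟨5,7,3,1,4,12,false,true⟩,⟨5,10,12,3,3,15,true,false⟩,⟨9,10,2,3,15,13,false,false⟩,⟨8,9,11,2,13,14,false,false⟩,⟨0,1,4,5,17,16,false,false⟩,⟨4,5,9,7,7,10,false,false⟩,⟨4,3,10,9,20,21,false,false⟩,⟨6,7,7,11,11,19,false,false⟩,⟨5,6,10,7,19,18,false,false⟩,⟨5,4,18,10,21,22,false,false⟩]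 (nat_lit 8) (nat_lit 170) (by decide +kernel)
noncomputable def s687 : Raw := ⟨[(0,[7,6,5,4,1,2,12]),(1,[13,3,2,0,4]),(2,[15,12,0,1,3,14]),(3,[14,2,1,13,16]),(5,[17,4,0,6,8,18]),(6,[8,5,0,7,9]),(7,[19,11,10,9,6,0,12,20]),(8,[18,5,6,9,21]),(9,[21,8,6,7,10]),(10,[21,9,7,11,22]),(11,[22,10,7,19,23])], [15,12,20,19,23,22,21,18,17,4,13,16,14], [(1,0),(11,10),(10,21)]⟩
def c687 : RawB s687 := raw1 s687 (nat_lit 11) [⟨0,1,4,4,4,5,false,false⟩,⟨0,2,5,4,4,0,false,false⟩,⟨1,3,5,4,4,17,false,false⟩,⟨1,4,5,17,17,18,false,false⟩,⟨1,5,5,18,18,8,false,false⟩,⟨0,1,0,5,8,6,false,false⟩,⟨5,6,18,8,8,21,false,false⟩,⟨1,6,6,8,21,9,false,false⟩,⟨6,7,21,9,9,10,false,false⟩,⟨1,7,6,9,10,7,false,false⟩,⟨0,1,0,6,7,7,false,false⟩,⟨7,8,10,7,7,11,false,false⟩,⟨7,6,11,10,21,22,false,false⟩,⟨0,9,0,7,7,12,false,false⟩,⟨0,1,12,0,0,2,false,false⟩,⟨0,10,2,12,12,15,false,true⟩,⟨0,10,2,15,15,14,false,true⟩,⟨9,10,7,12,12,20,false,false⟩,⟨8,9,11,7,20,19,false,false⟩,⟨8,7,19,11,22,23,false,false⟩,⟨1,2,2,0,4,1,false,false⟩,⟨1,0,1,2,14,3,false,false⟩,⟨1,2,3,1,4,13,false,false⟩,⟨1,0,13,3,14,16,false,false⟩]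 (nat_lit 7) (nat_lit 85) (by decide +kernel)
noncomputable def s688 : Raw := ⟨[(0,[8,1,2,3,4]),(1,[9,5,2,0,8]),(2,[12,10,3,0,1,5,11]),(3,[13,6,4,0,2,10,14]),(4,[8,0,3,6,7,15]),(5,[11,2,1,9,16]),(6,[17,7,4,3,13,18]),(7,[19,15,4,6,17])], [12,10,14,13,18,17,19,15,8,9,16,11], [(5,9),(5,11),(0,8),(0,3)]⟩
def c688 : RawB s688 := raw1 s688 (nat_lit 10) [⟨0,1,1,1,1,9,false,false⟩,⟨0,2,1,9,9,8,false,false⟩,⟨0,3,1,8,8,0,false,false⟩,⟨0,4,1,0,0,2,false,false⟩,⟨0,1,2,1,9,5,false,false⟩,⟨4,5,0,2,2,3,false,false⟩,⟨4,3,3,0,8,4,false,false⟩,⟨4,6,4,3,3,6,false,false⟩,⟨0,7,5,2,2,11,false,false⟩,⟨1,0,9,5,11,16,false,false⟩,⟨5,8,2,3,3,10,false,false⟩,⟨5,7,10,2,11,12,true,true⟩,⟨4,5,4,6,6,7,false,false⟩,⟨4,3,7,4,8,15,false,false⟩,⟨8,9,3,10,10,14,false,false⟩,⟨6,8,6,3,14,13,false,false⟩,⟨6,7,6,13,13,18,false,false⟩,⟨5,6,7,6,18,17,false,false⟩,⟨4,5,15,7,17,19,false,false⟩]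 (nat_lit 7) (nat_lit 85) (by decide +kernel)
noncomputable def s689 : Raw := ⟨[(0,[5,3,1,2,4]),(1,[6,2,0,3,10]),(2,[13,11,4,0,1,6,12]),(3,[10,1,0,5,7]),(4,[14,8,5,0,2,11,15]),(5,[9,7,3,0,4,8]),(6,[12,2,1,10,16]),(7,[18,10,3,5,9,17]),(8,[19,9,5,4,14,20]),(9,[21,17,7,5,8,19])], [10,16,12,13,11,15,14,20,19,21,17,18], [(0,3),(4,5),(7,17),(7,10)]⟩
def c689 : RawB s689 := raw1 s689 (nat_lit 10) [⟨0,1,0,0,0,5,false,false⟩,⟨0,2,0,5,5,4,false,false⟩,⟨0,3,0,4,4,2,false,false⟩,⟨0,4,0,2,2,1,false,false⟩,⟨0,1,1,0,5,3,false,false⟩,⟨0,5,3,1,1,10,false,false⟩,⟨1,0,5,3,10,7,false,false⟩,⟨0,6,7,10,10,18,false,true⟩,⟨3,7,4,2,2,11,false,false⟩,⟨3,6,4,11,11,15,false,false⟩,⟨4,8,1,2,2,6,false,false⟩,⟨4,5,6,1,10,10,false,false⟩,⟨3,5,4,15,15,14,false,false⟩,⟨4,9,10,6,6,16,true,false⟩,⟨8,9,2,6,16,12,false,false⟩,⟨7,8,11,2,12,13,false,false⟩,⟨2,3,5,4,14,8,false,false⟩,⟨1,2,7,5,8,9,false,false⟩,⟨1,0,9,7,18,17,false,false⟩,⟨3,4,8,14,14,20,false,false⟩,⟨2,3,9,8,20,19,false,false⟩,⟨1,2,17,9,19,21,false,false⟩]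 (nat_lit 4) (nat_lit 10) (by decide +kernel)
noncomputable def s690 : Raw := ⟨[(0,[12,10,1,2,3,4,11]),(1,[13,5,2,0,10,14]),(2,[6,3,0,1,5,15]),(3,[7,4,0,2,6]),(4,[17,11,0,3,7,8,9,16]),(5,[15,2,1,13,18]),(6,[19,7,3,2,15]),(7,[8,4,3,6,19]),(8,[20,9,4,7,19]),(9,[21,16,4,8,20])], [17,11,12,10,14,13,18,15,19,20,21,16], [(8,19),(8,4)]⟩
def c690 : RawB s690 := raw1 s690 (nat_lit 10) [⟨0,1,8,8,8,20,false,false⟩,⟨0,2,8,20,20,19,false,false⟩,⟨0,3,8,19,19,7,false,false⟩,⟨0,4,8,7,7,4,false,false⟩,⟨0,1,4,8,20,9,false,false⟩,⟨4,5,7,4,4,3,false,false⟩,⟨4,3,3,7,19,6,false,false⟩,⟨5,6,3,4,4,0,false,false⟩,⟨5,4,0,3,6,2,false,false⟩,⟨4,3,2,6,19,15,false,false⟩,⟨0,7,9,4,4,16,false,false⟩,⟨0,1,16,9,20,21,false,false⟩,⟨6,8,4,0,0,11,false,false⟩,⟨6,7,11,4,16,17,true,true⟩,⟨5,6,2,0,0,1,false,false⟩,⟨5,4,1,2,15,5,false,false⟩,⟨8,9,0,11,11,12,false,false⟩,⟨6,8,1,0,12,10,false,false⟩,⟨6,7,1,10,10,14,false,false⟩,⟨5,6,5,1,14,13,false,false⟩,⟨5,4,13,5,15,18,false,false⟩]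 (nat_lit 5) (nat_lit 21) (by decide +kernel)
end Pool.Agent.FCT.R
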