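import Pool.Agent.Lib.MP_fe5cb4_co.FC.RawDef
set_option linter.defProp false
namespace Pool.Agent.FCT.R
open Pool.Agent.Lib.MP_fe5cb4_co.FC
noncomputable def s691 : Raw := ⟨[(0,[9,8,7,1,2,3,12]),(1,[13,4,2,0,7]),(2,[5,3,0,1,4,6]),(3,[15,12,0,2,5,14]),(4,[16,6,2,1,13]),(5,[18,14,3,2,6,17]),(6,[17,5,2,4,16,19]),(8,[20,7,0,9,10,11,21]),(9,[22,10,8,0,12]),(10,[23,11,8,9,22]),(11,[24,21,8,10,23])], [21,20,7,13,16,19,17,18,14,15,12,22,23,24], [(11,23),(11,8),(9,22),(9,0)]⟩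
def c691 : RawB s691 := raw1 s691 (nat_lit 12) [⟨0,1,10,10,10,22,false,false⟩,⟨0,2,10,22,22,9,false,false⟩,⟨0,3,10,9,9,8,false,false⟩,⟨0,4,10,8,8,11,false,false⟩,⟨0,1,11,10,22,23,false,false⟩,⟨4,6,11,8,8,21,false,false⟩,⟨4,0,21,11,23,24,true,false⟩,⟨3,7,9,8,8,0,false,false⟩,⟨3,2,0,9,22,12,false,false⟩,⟨3,4,12,0,0,3,false,false⟩,⟨4,5,3,0,0,2,false,false⟩,⟨6,11,21,8,8,20,true,false⟩,⟨7,11,0,8,20,7,false,false⟩,⟨5,7,2,0,7,1,false,false⟩,⟨7,10,1,7,7,13,false,false⟩,⟨5,7,2,1,13,4,false,false⟩,⟨7,9,4,13,13,16,false,false⟩,⟨5,7,2,4,16,6,false,false⟩,⟨4,5,3,2,6,5,false,false⟩,⟨7,8,6,16,16,19,false,false⟩,⟨5,7,5,6,19,17,false,false⟩,⟨5,6,5,17,17,18,false,false⟩,⟨4,5,3,5,18,14,false,false⟩,⟨3,4,12,3,14,15,false,false⟩] (nat_lit 6) (nat_lit 42) (by decide +kernel)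
noncomputable def s692 : Raw := ⟨[(0,[13,11,1,2,3,4,12]),(1,[14,5,2,0,11,15]),(2,[6,3,0,1,5,7]),(3,[8,4,0,2,6]),(4,[17,12,0,3,8,9,10,16]),(5,[18,7,2,1,14,19]),(6,[8,3,2,7,20]),(7,[20,6,2,5,18,21]),(8,[9,4,3,6,20]),(9,[22,10,4,8,20,23]),(10,[24,16,4,9,22])], [16,17,12,13,11,15,14,19,18,21,20,23,22,24], [(4,8),(8,20),(7,18),(7,20)]⟩
def c692 : RawB s692 := raw1 s692 (nat_lit 12) [⟨0,1,9,9,9,23,false,false⟩,⟨0,2,9,23,23,20,false,false⟩,⟨0,3,9,20,20,8,false,false⟩,⟨0,4,9,8,8,4,false,false⟩,⟨0,5,9,4,4,10,false,false⟩,⟨0,1,10,9,23,22,false,false⟩,⟨5,6,10,4,4,16,false,false⟩,⟨5,0,16,10,22,24,true,false⟩,⟨4,5,8,4,4,3,false,false⟩,⟨4,3,3,8,20,6,false,false⟩,⟨5,9,3,4,4,0,false,false⟩,⟨5,4,0,3,6,2,false,false⟩,⟨4,3,2,6,20,7,false,false⟩,⟨5,7,2,0,0,1,false,false⟩,⟨5,4,1,2,7,5,false,false⟩,⟨6,11,16,4,4,17,true,false⟩,⟨9,11,0,4,17,12,false,false⟩,⟨9,10,0,12,12,13,false,false⟩,⟨7,9,1,0,13,11,false,false⟩,⟨7,8,1,11,11,15,false,false⟩,⟨5,7,5,1,15,14,false,false⟩,⟨5,6,5,14,14,19,false,false⟩,⟨4,5,7,5,19,18,false,false⟩,⟨4,3,18,7,20,21,false,false⟩]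 (nat_lit 5) (nat_lit 21) (by decide +kernel)
noncomputable def s693 : Raw := ⟨[(0,[13,11,1,2,3,4,12]),(1,[14,5,2,0,11,15]),(2,[6,3,0,1,5,7]),(3,[8,4,0,2,6]),(4,[17,12,0,3,8,9,10,16]),(5,[18,7,2,1,14,19]),(6,[8,3,2,7,20]),(7,[20,6,2,5,18,21]),(8,[9,4,3,6,20]),(9,[22,10,4,8,20]),(10,[23,16,4,9,22])], [22,23,16,17,12,13,11,15,14,19,18,21,20], [(9,20),(9,4),(6,20),(6,2)]⟩
def c693 : RawB s693 := raw1 s693 (nat_lit 11) [⟨0,1,2,2,2,7,false,false⟩,⟨0,2,7,2,2,6,false,false⟩,⟨2,3,2,6,6,3,false,false⟩,⟨3,4,6,3,3,8,false,false⟩,⟨0,3,7,6,8,20,false,false⟩,⟨3,5,8,20,20,9,false,false⟩,⟨4,3,3,8,9,4,false,false⟩,⟨4,6,3,4,4,0,false,false⟩,⟨2,4,2,3,0,0,false,false⟩,⟨2,4,2,0,0,1,false,false⟩,⟨6,8,0,4,4,12,false,false⟩,⟨6,7,0,12,12,13,false,false⟩,⟨4,6,1,0,13,11,false,false⟩,⟨3,9,9,4,4,10,false,false⟩,⟨3,5,10,9,20,22,false,true⟩,⟨4,5,1,11,11,15,false,false⟩,⟨3,10,22,10,10,23,true,false⟩,⟨9,10,4,10,23,16,false,false⟩,⟨8,9,12,4,16,17,false,false⟩,⟨2,1,1,2,7,5,false,false⟩,⟨2,4,5,1,15,14,false,false⟩,⟨2,3,5,14,14,19,false,false⟩,⟨1,2,7,5,19,18,false,false⟩,⟨1,0,18,7,20,21,false,false⟩]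 (nat_lit 5) (nat_lit 10) (by decide +kernel)
noncomputable def s694 : Raw := ⟨[(0,[5,3,1,2,4]),(1,[11,6,2,0,3,10]),(2,[14,12,4,0,1,6,13]),(3,[10,1,0,5,7]),(4,[15,8,5,0,2,12,16]),(5,[9,7,3,0,4,8]),(6,[13,2,1,11,17]),(7,[19,10,3,5,9,18]),(8,[20,9,5,4,15,21]),(9,[22,18,7,5,8,20])], [11,17,13,14,12,16,15,21,20,22,18,19,10], [(6,11),(6,13),(2,0)]⟩
def c694 : RawB s694 := raw1 s694 (nat_lit 11) [⟨0,1,3,3,3,5,false,false⟩,⟨0,2,3,5,5,0,false,false⟩,⟨0,3,3,0,0,1,false,false⟩,⟨2,5,5,0,0,4,false,false⟩,⟨2,4,5,4,4,8,false,false⟩,⟨4,6,8,4,4,15,false,false⟩,⟨5,7,0,4,4,2,false,false⟩,⟨3,5,1,0,2,2,false,false⟩,⟨0,5,3,1,1,10,false,false⟩,⟨7,8,4,2,2,12,false,false⟩,⟨7,6,12,4,15,16,false,false⟩,⟨3,9,1,2,2,6,false,false⟩,⟨3,5,6,1,10,11,false,true⟩,⟨4,5,8,15,15,21,false,false⟩,⟨3,10,11,6,6,17,true,false⟩,⟨9,10,2,6,17,13,false,false⟩,⟨8,9,12,2,13,14,false,false⟩,⟨1,0,5,3,10,7,false,false⟩,⟨1,2,7,5,8,9,false,false⟩,⟨2,4,9,8,21,20,false,false⟩,⟨2,3,9,20,20,22,false,false⟩,⟨1,2,7,9,22,18,false,false⟩,⟨0,1,10,7,18,19,false,false⟩]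 (nat_lit 6) (nat_lit 42) (by decide +kernel)
noncomputable def s695 : Raw := ⟨[(0,[11,9,1,2,3,4,10]),(1,[12,5,2,0,9,13]),(2,[6,3,0,1,5,14]),(3,[7,4,0,2,6]),(4,[16,10,0,3,7,8,15]),(5,[14,2,1,12,17]),(6,[18,7,3,2,14]),(7,[19,8,4,3,6,18]),(8,[20,15,4,7,19])], [10,11,9,13,12,17,14,18,19,20,15,16], [(5,14),(1,9),(1,12),(1,2)]⟩
def c695 : RawB s695 := raw1 s695 (nat_lit 10) [⟨0,1,6,6,6,7,false,false⟩,⟨0,2,6,7,7,18,false,false⟩,⟨2,3,7,18,18,19,false,false⟩,⟨0,4,6,18,18,14,false,false⟩,⟨0,5,6,14,14,2,false,false⟩,⟨0,1,2,6,7,3,false,false⟩,⟨0,6,3,2,2,0,false,false⟩,⟨0,1,0,3,7,4,false,false⟩,⟨1,2,4,7,19,8,false,false⟩,⟨0,7,4,0,0,10,false,false⟩,⟨0,8,4,10,10,16,false,true⟩,⟨1,0,8,4,16,15,false,false⟩,⟨1,2,15,8,19,20,false,false⟩,⟨6,8,2,0,0,1,false,false⟩,⟨6,5,1,2,14,5,false,false⟩,⟨7,9,10,0,0,11,true,false⟩,⟨8,9,1,0,11,9,false,false⟩,⟨8,7,9,1,1,13,false,false⟩,⟨6,7,5,1,13,12,false,false⟩,⟨6,5,12,5,14,17,false,false⟩]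 (nat_lit 5) (nat_lit 21) (by decide +kernel)
noncomputable def s696 : Raw := ⟨[(0,[11,9,1,2,3,4,10]),(1,[12,5,2,0,9,13]),(2,[6,3,0,1,5,14]),(3,[7,4,0,2,6]),(4,[16,10,0,3,7,8,15]),(5,[14,2,1,12,17]),(6,[18,7,3,2,14]),(7,[19,8,4,3,6,18,20]),(8,[21,15,4,7,19])], [12,17,14,18,20,19,21,15,16,10,11,9,13], [(5,17),(2,14),(1,2),(2,3)]⟩
def c696 : RawB s696 := raw1 s696 (nat_lit 11) [⟨0,1,6,6,6,7,false,false⟩,⟨0,2,6,7,7,3,false,false⟩,⟨2,3,3,7,7,4,false,false⟩,⟨3,4,4,7,7,8,false,false⟩,⟨4,5,7,8,8,19,false,false⟩,⟨5,6,8,19,19,21,false,false⟩,⟨3,5,4,8,21,15,false,false⟩,⟨4,7,7,19,19,20,false,false⟩,⟨4,8,7,20,20,18,false,false⟩,⟨1,4,6,7,18,18,false,false⟩,⟨1,9,6,18,18,14,false,false⟩,⟨0,1,3,6,14,2,false,false⟩,⟨0,2,2,3,4,0,false,false⟩,⟨1,4,14,2,2,5,false,false⟩,⟨0,4,0,2,5,1,false,false⟩,⟨1,10,5,14,14,17,false,false⟩,⟨4,1,1,5,17,12,false,true⟩,⟨0,1,1,0,0,9,false,false⟩,⟨0,4,9,1,12,13,false,true⟩,⟨3,4,4,15,15,16,false,false⟩,⟨2,3,0,4,16,10,false,false⟩,⟨1,2,9,0,10,11,false,false⟩]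 (nat_lit 9) (nat_lit 341) (by decide +kernel)
noncomputable def s697 : Raw := ⟨[(0,[12,10,1,2,3,4,11]),(1,[13,6,5,2,0,10,14]),(2,[7,3,0,1,5]),(3,[8,4,0,2,7,15]),(4,[11,0,3,8,9,16]),(5,[18,7,2,1,6,17]),(6,[17,5,1,13,19]),(7,[15,3,2,5,18]),(8,[20,9,4,3,15,21]),(9,[22,16,4,8,20])], [19,17,18,15,21,20,22,16,11,12,10,14,13], [(8,15),(8,4),(1,5),(5,18)]⟩
def c697 : RawB s697 := raw1 s697 (nat_lit 11) [⟨0,1,0,0,0,1,false,false⟩,⟨0,2,1,0,0,2,false,false⟩,⟨2,3,0,2,2,3,false,false⟩,⟨2,4,0,3,3,4,false,false⟩,⟨3,5,2,3,3,7,false,false⟩,⟨0,3,1,2,7,5,false,false⟩,⟨5,6,3,7,7,15,false,false⟩,⟨4,7,4,3,3,8,false,false⟩,⟨7,5,8,3,15,15,false,false⟩,⟨4,5,4,8,8,9,false,false⟩,⟨7,8,8,15,15,21,false,false⟩,⟨5,7,9,8,21,20,false,false⟩,⟨6,9,7,15,15,18,false,false⟩,⟨3,6,5,7,18,18,false,false⟩,⟨3,10,5,18,18,17,false,false⟩,⟨0,3,1,5,17,6,false,false⟩,⟨3,6,6,17,17,19,false,true⟩,⟨0,3,1,6,19,13,false,true⟩,⟨5,6,9,20,20,22,false,false⟩,⟨4,5,4,9,22,16,false,false⟩,⟨2,4,0,4,16,11,false,false⟩,⟨2,3,0,11,11,12,false,false⟩,⟨1,2,1,0,12,10,false,false⟩,⟨1,0,10,1,13,14,false,false⟩]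 (nat_lit 6) (nat_lit 21) (by decide +kernel)
noncomputable def s698 : Raw := ⟨[(0,[11,9,1,2,3,4,10]),(1,[12,5,2,0,9,13]),(2,[6,3,0,1,5,7]),(3,[8,4,0,2,6]),(4,[15,10,0,3,8,14]),(5,[16,7,2,1,12,17]),(6,[19,8,3,2,7,18]),(7,[18,6,2,5,16,20]),(8,[14,4,3,6,19])], [14,15,10,11,9,13,12,17,16,20,18,19], [(0,10),(0,9),(5,12),(5,16)]⟩
def c698 : RawB s698 := raw1 s698 (nat_lit 10) [⟨0,1,14,14,14,19,false,true⟩,⟨0,1,19,14,14,8,false,false⟩,⟨0,2,19,8,8,6,false,false⟩,⟨2,3,6,8,8,3,false,false⟩,⟨1,4,8,14,14,4,false,false⟩,⟨3,1,3,8,4,4,false,false⟩,⟨0,1,19,6,6,18,false,false⟩,⟨3,7,3,4,4,0,false,false⟩,⟨3,2,0,3,6,2,false,false⟩,⟨2,1,2,6,18,7,false,false⟩,⟨3,5,2,0,0,1,false,false⟩,⟨3,2,1,2,7,5,false,false⟩,⟨4,9,14,4,4,15,true,false⟩,⟨7,9,0,4,15,10,false,false⟩,⟨7,8,0,10,10,11,false,false⟩,⟨5,7,1,0,11,9,false,false⟩,⟨5,6,1,9,9,13,false,false⟩,⟨3,5,5,1,13,12,false,false⟩,⟨3,4,5,12,12,17,false,false⟩,⟨2,3,7,5,17,16,false,false⟩,⟨2,1,16,7,18,20,false,false⟩]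 (nat_lit 5) (nat_lit 10) (by decide +kernel)
noncomputable def s699 : Raw := ⟨[(0,[7,6,5,4,1,2,11]),(1,[12,3,2,0,4,13]),(2,[15,11,0,1,3,14]),(3,[14,2,1,12,16]),(5,[17,4,0,6,8]),(6,[10,8,5,0,7,9]),(7,[18,9,6,0,11,19]),(8,[17,5,6,10,20]),(9,[21,10,6,7,18,22]),(10,[23,20,8,6,9,21])], [14,15,11,19,18,22,21,23,20,17,4,13,12,16], [(1,4),(1,12),(2,14),(2,11)]⟩
def c699 : RawB s699 := raw1 s699 (nat_lit 12) [⟨0,1,8,8,8,17,false,false⟩,⟨0,3,8,17,17,5,false,false⟩,⟨1,4,8,17,17,20,false,false⟩,⟨1,5,8,20,20,10,false,false⟩,⟨1,6,8,10,10,6,false,false⟩,⟨0,1,5,8,6,6,false,false⟩,⟨0,7,5,6,6,0,false,false⟩,⟨0,3,0,5,17,4,false,false⟩,⟨0,1,0,4,4,1,false,false⟩,⟨1,2,1,4,4,13,false,false⟩,⟨7,9,6,0,0,7,false,false⟩,⟨7,6,7,6,10,9,false,false⟩,⟨9,10,7,0,0,11,false,false⟩,⟨0,10,1,0,11,2,false,false⟩,⟨0,8,1,2,2,3,false,false⟩,⟨0,1,3,1,13,12,false,false⟩,⟨10,11,2,11,11,15,false,false⟩,⟨8,10,3,2,15,14,false,true⟩,⟨0,8,12,3,14,16,false,true⟩,⟨9,10,7,11,11,19,false,false⟩,⟨7,9,9,7,19,18,false,false⟩,⟨7,8,9,18,18,22,false,false⟩,⟨6,7,10,9,22,21,false,false⟩,⟨5,6,20,10,21,23,false,false⟩]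 (nat_lit 11) (nat_lit 1365) (by decide +kernel)
noncomputable def s700 : Raw := ⟨[(0,[7,6,5,4,1,2,9]),(1,[10,3,2,0,4,11]),(2,[13,9,0,1,3,12]),(3,[12,2,1,10,14]),(5,[15,4,0,6,8,16]),(6,[18,8,5,0,7,17]),(7,[17,6,0,9,19]),(8,[20,16,5,6,18])], [15,4,11,10,14,12,13,9,19,17,18,20,16], [(1,4),(1,10),(2,12),(2,9)]⟩
def c700 : RawB s700 := raw1 s700 (nat_lit 11) [⟨0,1,0,0,0,6,false,false⟩,⟨0,2,0,6,6,7,false,false⟩,⟨0,3,0,7,7,9,false,false⟩,⟨3,4,7,9,9,19,false,false⟩,⟨0,5,0,9,9,2,false,false⟩,⟨5,6,9,2,2,13,false,false⟩,⟨6,7,13,2,2,12,false,false⟩,⟨7,8,12,2,2,3,false,false⟩,⟨0,8,0,2,3,1,false,false⟩,⟨0,9,0,1,1,4,false,false⟩,⟨0,1,4,0,6,5,false,false⟩,⟨0,10,5,4,4,15,false,true⟩,⟨0,10,5,15,15,16,false,true⟩,⟨9,10,1,4,4,11,false,false⟩,⟨8,9,3,1,11,10,false,false⟩,⟨8,7,10,3,12,14,false,false⟩,⟨2,3,6,7,19,17,false,false⟩,⟨1,0,6,5,16,8,false,false⟩,⟨1,2,8,6,17,18,false,false⟩,⟨0,1,16,8,18,20,false,false⟩]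 (nat_lit 25) (nat_lit 11184810) (by decide +kernel)
noncomputable def s701 : Raw := ⟨[(0,[7,5,3,1,2,4,6]),(1,[13,8,2,0,3,12]),(2,[16,14,4,0,1,8,15]),(3,[12,1,0,5,9,17]),(4,[18,6,0,2,14,19]),(5,[9,3,0,7,10]),(6,[20,11,7,0,4,18,21]),(7,[22,10,5,0,6,11]),(8,[15,2,1,13,23]),(9,[17,3,5,10,24]),(10,[24,9,5,7,22]),(11,[22,7,6,20,25])], [13,23,15,16,14,19,18,21,20,25,22,24,17,12], [(8,1),(1,12)]⟩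
def c701 : RawB s701 := raw1 s701 (nat_lit 12) [⟨0,1,7,7,7,10,false,false⟩,⟨0,2,7,10,10,22,false,false⟩,⟨0,3,7,22,22,11,false,false⟩,⟨0,4,7,11,11,6,false,false⟩,⟨0,5,7,6,6,0,false,false⟩,⟨0,1,0,7,10,5,false,false⟩,⟨0,6,5,0,0,3,false,false⟩,⟨0,1,3,5,10,9,false,false⟩,⟨1,2,9,10,22,24,false,false⟩,⟨0,1,3,9,24,17,false,false⟩,⟨5,7,6,0,0,4,false,false⟩,⟨0,8,17,3,3,12,false,false⟩,⟨6,8,0,3,12,1,false,false⟩,⟨6,7,1,0,4,2,false,false⟩,⟨6,9,1,2,2,8,false,false⟩,⟨6,8,8,1,12,13,false,true⟩,⟨6,11,13,8,8,23,true,false⟩,⟨9,11,2,8,23,15,false,false⟩,⟨9,10,2,15,15,16,false,false⟩,⟨7,9,4,2,16,14,false,false⟩,⟨7,8,4,14,14,19,false,false⟩,⟨5,7,6,4,19,18,false,false⟩,⟨5,6,6,18,18,21,false,false⟩,⟨4,5,11,6,21,20,false,false⟩,⟨4,3,20,11,22,25,false,false⟩] (nat_lit 6) (nat_lit 42) (by decide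 +kernel)
noncomputable def s702 : Raw := ⟨[(0,[11,9,1,2,3,10]),(1,[12,5,4,2,0,9]),(2,[14,6,3,0,1,4,13]),(3,[10,0,2,6,7,8,15]),(4,[17,13,2,1,5,16]),(5,[16,4,1,12,18]),(6,[19,7,3,2,14,20]),(7,[21,8,3,6,19]),(8,[22,15,3,7,21])], [21,22,15,10,11,9,12,18,16,17,13,14,20,19], [(3,6),(6,14),(6,19),(0,11)]⟩
def c702 : RawB s702 := raw1 s702 (nat_lit 12) [⟨0,1,6,6,6,14,false,false⟩,⟨0,2,6,14,14,2,false,false⟩,⟨2,3,14,2,2,13,false,false⟩,⟨3,4,13,2,2,4,false,false⟩,⟨0,5,6,2,2,3,false,false⟩,⟨0,6,6,3,3,7,false,false⟩,⟨5,7,2,3,3,0,false,false⟩,⟨5,4,0,2,4,1,false,false⟩,⟨7,8,3,0,0,10,false,false⟩,⟨8,9,0,10,10,11,false,false⟩,⟨5,8,1,0,11,9,false,false⟩,⟨7,10,3,10,10,15,false,false⟩,⟨6,7,7,3,15,8,false,false⟩,⟨7,11,8,15,15,22,false,false⟩,⟨6,7,7,8,22,21,false,true⟩,⟨0,6,6,7,21,19,false,true⟩,⟨1,0,14,6,19,20,false,false⟩,⟨5,7,1,9,9,12,false,false⟩,⟨4,5,4,1,12,5,false,false⟩,⟨5,6,5,12,12,18,false,false⟩,⟨4,5,4,5,18,16,false,false⟩,⟨3,4,13,4,16,17,false,false⟩]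 (nat_lit 15) (nat_lit 21845) (by decide +kernel)
noncomputable def s703 : Raw := ⟨[(0,[12,10,1,2,3,4,11]),(1,[13,7,6,5,2,0,10]),(2,[16,14,3,0,1,5,15]),(3,[17,8,4,0,2,14]),(4,[11,0,3,8,9]),(5,[15,2,1,6,18]),(6,[20,18,5,1,7,19]),(7,[19,6,1,13,21]),(8,[22,9,4,3,17]),(9,[23,11,4,8,22])], [15,16,14,17,22,23,11,12,10,13,21,19,20,18], [(0,10),(0,2),(1,5),(5,15)]⟩
def c703 : RawB s703 := raw1 s703 (nat_lit 12) [⟨0,1,0,0,0,2,false,false⟩,⟨0,2,2,0,0,1,false,false⟩,⟨2,3,1,0,0,10,false,false⟩,⟨1,4,0,2,2,3,false,false⟩,⟨3,5,0,10,10,12,false,false⟩,⟨3,6,0,12,12,11,false,false⟩,⟨1,3,3,0,11,4,false,false⟩,⟨3,7,4,11,11,9,false,false⟩,⟨3,8,4,9,9,8,false,false⟩,⟨1,3,3,4,8,8,false,false⟩,⟨0,3,1,2,2,5,false,false⟩,⟨8,9,9,8,8,22,false,false⟩,⟨7,8,11,9,22,23,false,false⟩,⟨1,9,3,8,22,17,false,false⟩,⟨1,10,3,17,17,14,false,false⟩,⟨4,1,2,3,14,14,false,false⟩,⟨0,1,5,1,1,6,false,false⟩,⟨4,11,2,14,14,16,false,false⟩,⟨3,4,5,2,16,15,false,true⟩,⟨0,3,6,5,15,18,false,true⟩,⟨2,4,1,10,10,13,false,false⟩,⟨1,2,6,1,13,7,false,false⟩,⟨2,3,7,13,13,21,false,false⟩,⟨1,2,6,7,21,19,false,false⟩,⟨0,1,18,6,19,20,false,false⟩]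 (nat_lit 17) (nat_lit 43690) (by decide +kernel)
end Pool.Agent.FCT.R
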