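import Pool.Agent.Lib.MP_fe5cb4_co.FC.RawDef
set_option linter.defProp false
namespace Pool.Agent.FCT.R
open Pool.Agent.Lib.MP_fe5cb4_co.FC
noncomputable def s704 : Raw := ⟨[(0,[7,6,5,4,1,2,11]),(1,[12,3,2,0,4,13]),(2,[15,11,0,1,3,14]),(3,[14,2,1,12,16]),(5,[17,4,0,6,8,9,10]),(6,[19,8,5,0,7,18]),(7,[18,6,0,11,20]),(8,[21,9,5,6,19]),(9,[22,10,5,8,21]),(10,[23,17,5,9,22])], [14,15,11,20,18,19,21,22,23,17,4,13,12,16], [(1,4),(1,12),(2,14),(2,11)]⟩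
def c704 : RawB s704 := raw1 s704 (nat_lit 12) [⟨0,1,1,1,1,13,false,false⟩,⟨0,2,1,13,13,4,false,false⟩,⟨0,3,1,4,4,0,false,false⟩,⟨3,4,4,0,0,5,false,false⟩,⟨4,6,5,0,0,6,false,false⟩,⟨4,5,5,6,6,8,false,false⟩,⟨0,7,1,0,0,2,false,false⟩,⟨6,8,0,6,6,7,false,false⟩,⟨6,9,0,7,7,11,false,false⟩,⟨7,6,2,0,11,11,false,false⟩,⟨0,6,1,2,2,3,false,false⟩,⟨9,10,7,11,11,20,false,false⟩,⟨8,9,6,7,20,18,false,false⟩,⟨5,8,8,6,18,19,false,false⟩,⟨0,1,3,1,13,12,false,false⟩,⟨7,11,2,11,11,15,false,false⟩,⟨6,7,3,2,15,14,false,true⟩,⟨0,6,12,3,14,16,false,true⟩,⟨5,7,8,19,19,21,false,false⟩,⟨4,5,5,8,21,9,false,false⟩,⟨5,6,9,21,21,22,false,false⟩,⟨4,5,5,9,22,10,false,false⟩,⟨3,4,4,5,10,17,false,false⟩,⟨4,5,17,10,22,23,false,false⟩] (nat_lit 13) (nat_lit 5461) (by decide +kernel)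
noncomputable def s705 : Raw := ⟨[(0,[8,1,2,3,4,5,9]),(1,[10,6,2,0,8,11]),(2,[12,3,0,1,6,13]),(3,[14,4,0,2,12]),(4,[15,7,5,0,3,14]),(5,[17,9,0,4,7,16]),(6,[13,2,1,10,18]),(7,[16,5,4,15,19])], [8,11,10,18,13,12,14,15,19,16,17,9], [(3,14),(0,3),(5,16),(5,9)]⟩
def c705 : RawB s705 := raw1 s705 (nat_lit 10) [⟨0,1,0,0,0,5,false,false⟩,⟨0,2,5,0,0,9,false,false⟩,⟨2,3,9,0,0,8,true,false⟩,⟨1,5,5,0,0,4,false,false⟩,⟨1,2,5,4,4,7,false,false⟩,⟨2,4,7,4,4,15,false,false⟩,⟨5,6,4,0,0,3,false,false⟩,⟨5,4,3,4,15,14,false,false⟩,⟨3,7,8,0,0,1,false,false⟩,⟨7,6,1,0,3,2,false,false⟩,⟨6,5,2,3,14,12,false,false⟩,⟨3,8,8,1,1,11,true,false⟩,⟨2,3,7,15,15,19,false,false⟩,⟨1,2,5,7,19,16,false,false⟩,⟨8,9,1,11,11,10,false,false⟩,⟨7,8,2,1,10,6,false,false⟩,⟨7,6,6,2,12,13,false,false⟩,⟨8,7,10,6,13,18,false,false⟩,⟨0,1,9,5,16,17,false,false⟩]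 (nat_lit 8) (nat_lit 85) (by decide +kernel)
noncomputable def s706 : Raw := ⟨[(0,[8,1,2,3,4,9]),(1,[10,5,2,0,8]),(2,[13,11,3,0,1,5,12]),(3,[14,6,4,0,2,11,15]),(4,[9,0,3,6,7,16]),(5,[12,2,1,10,17]),(6,[18,7,4,3,14,19]),(7,[20,16,4,6,18])], [10,17,12,13,11,15,14,19,18,20,16,9,8], [(1,8),(1,2),(3,4),(4,9)]⟩
def c706 : RawB s706 := raw1 s706 (nat_lit 11) [⟨0,1,0,0,0,4,false,false⟩,⟨0,2,0,4,4,3,false,false⟩,⟨2,4,4,3,3,6,false,false⟩,⟨0,5,0,3,3,2,false,false⟩,⟨0,3,0,2,2,1,false,false⟩,⟨5,6,2,3,3,11,false,false⟩,⟨6,7,3,11,11,15,false,false⟩,⟨4,6,6,3,15,14,false,false⟩,⟨5,8,2,11,11,13,false,false⟩,⟨5,9,2,13,13,12,false,false⟩,⟨3,5,1,2,12,5,false,false⟩,⟨5,10,5,12,12,17,false,false⟩,⟨3,5,1,5,17,10,false,true⟩,⟨0,3,0,1,10,8,false,true⟩,⟨1,0,4,0,8,9,false,false⟩,⟨2,3,4,6,6,7,false,false⟩,⟨2,1,7,4,9,16,false,false⟩,⟨4,5,6,14,14,19,false,false⟩,⟨3,4,7,6,19,18,false,false⟩,⟨2,3,16,7,18,20,false,false⟩]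 (nat_lit 17) (nat_lit 43690) (by decide +kernel)
noncomputable def s707 : Raw := ⟨[(0,[8,1,2,3,4,9]),(1,[10,5,2,0,8]),(2,[11,3,0,1,5,12]),(3,[13,6,4,0,2,11,14]),(4,[9,0,3,6,7,15]),(5,[12,2,1,10,16]),(6,[17,7,4,3,13,18]),(7,[19,15,4,6,17])], [10,16,12,11,14,13,18,17,19,15,9,8], [(5,16),(0,9),(0,3)]⟩
def c707 : RawB s707 := raw1 s707 (nat_lit 10) [⟨0,1,4,4,4,9,false,false⟩,⟨0,2,9,4,4,0,false,false⟩,⟨0,3,9,0,0,8,false,false⟩,⟨2,5,4,0,0,3,false,false⟩,⟨2,4,4,3,3,6,false,false⟩,⟨4,6,6,3,3,13,false,false⟩,⟨5,7,0,3,3,2,false,false⟩,⟨5,3,2,0,8,1,false,false⟩,⟨5,8,1,2,2,5,false,false⟩,⟨5,3,5,1,8,10,false,true⟩,⟨2,3,4,6,6,7,false,false⟩,⟨5,9,10,5,5,16,true,false⟩,⟨8,9,2,5,16,12,false,false⟩,⟨7,8,3,2,12,11,false,false⟩,⟨7,6,11,3,13,14,false,false⟩,⟨2,1,7,4,9,15,false,false⟩,⟨4,5,6,13,13,18,false,false⟩,⟨3,4,7,6,18,17,false,false⟩,⟨2,3,15,7,17,19,false,false⟩]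 (nat_lit 9) (nat_lit 341) (by decide +kernel)
noncomputable def s708 : Raw := ⟨[(0,[9,1,2,3,4,10]),(1,[11,5,2,0,9]),(2,[12,3,0,1,5,13]),(3,[14,6,4,0,2,12,15]),(4,[10,0,3,6,7,8,16]),(5,[13,2,1,11,17]),(6,[18,7,4,3,14,19]),(7,[20,8,4,6,18,21]),(8,[22,16,4,7,20])], [17,13,12,15,14,19,18,21,20,22,16,10,9,11], [(3,12),(3,14),(3,4)]⟩
def c708 : RawB s708 := raw1 s708 (nat_lit 12) [⟨0,1,0,0,0,9,false,false⟩,⟨0,2,9,0,0,1,false,false⟩,⟨2,3,1,0,0,2,false,false⟩,⟨2,4,1,2,2,5,false,false⟩,⟨2,0,5,1,9,11,false,false⟩,⟨4,5,5,2,2,13,false,false⟩,⟨2,4,11,5,13,17,true,true⟩,⟨1,2,9,0,0,10,false,false⟩,⟨5,11,2,13,13,12,false,false⟩,⟨3,5,0,2,12,3,false,false⟩,⟨3,2,3,0,10,4,false,false⟩,⟨5,10,3,12,12,15,false,false⟩,⟨5,9,3,15,15,14,false,false⟩,⟨3,5,4,3,14,6,false,false⟩,⟨5,8,6,14,14,19,false,false⟩,⟨5,7,6,19,19,18,false,false⟩,⟨3,5,4,6,18,7,false,false⟩,⟨3,4,4,7,7,8,false,false⟩,⟨3,2,8,4,10,16,false,false⟩,⟨5,6,7,18,18,21,false,false⟩,⟨4,5,8,7,21,20,false,false⟩,⟨3,4,16,8,20,22,false,false⟩]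 (nat_lit 17) (nat_lit 87381) (by decide +kernel)
noncomputable def s709 : Raw := ⟨[(0,[9,1,2,3,4,5,6,10]),(1,[8,7,2,0,9]),(2,[13,11,3,0,1,7,12]),(3,[14,4,0,2,11,15]),(4,[16,5,0,3,14]),(5,[17,6,0,4,16]),(6,[18,10,0,5,17]),(7,[20,12,2,1,8,19]),(8,[19,7,1,9,21])], [21,19,20,12,13,11,15,14,16,17,18,10,9], [(0,9),(0,2),(3,11),(3,14)]⟩
def c709 : RawB s709 := raw1 s709 (nat_lit 11) [⟨0,1,6,6,6,18,false,false⟩,⟨0,2,6,18,18,17,false,false⟩,⟨0,3,6,17,17,5,false,false⟩,⟨0,4,6,5,5,0,false,false⟩,⟨0,1,0,6,18,10,false,false⟩,⟨4,5,5,0,0,4,false,false⟩,⟨4,3,4,5,17,16,false,false⟩,⟨5,6,4,0,0,3,false,false⟩,⟨5,4,3,4,16,14,false,false⟩,⟨0,7,10,0,0,9,false,false⟩,⟨7,8,0,9,9,1,false,false⟩,⟨7,6,1,0,3,2,false,false⟩,⟨8,9,9,1,1,8,false,false⟩,⟨7,9,2,1,8,7,false,false⟩,⟨8,10,8,9,9,21,false,true⟩,⟨9,8,7,8,21,19,false,true⟩,⟨9,10,7,19,19,20,false,false⟩,⟨7,9,2,7,20,12,false,false⟩,⟨7,8,2,12,12,13,false,false⟩,⟨6,7,3,2,13,11,false,false⟩,⟨6,5,11,3,14,15,false,false⟩]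 (nat_lit 9) (nat_lit 341) (by decide +kernel)
noncomputable def s710 : Raw := ⟨[(0,[8,1,2,3,4,5]),(1,[9,7,6,2,0,8]),(2,[12,10,3,0,1,6,11]),(3,[13,4,0,2,10,14]),(4,[15,5,0,3,13]),(5,[16,8,0,4,15]),(6,[18,11,2,1,7,17]),(7,[17,6,1,9,19])], [8,9,19,17,18,11,12,10,14,13,15,16], [(0,8),(3,10),(3,13),(0,2)]⟩
def c710 : RawB s710 := raw1 s710 (nat_lit 10) [⟨0,1,8,8,8,16,false,true⟩,⟨0,2,16,8,8,5,false,false⟩,⟨0,1,16,5,5,15,false,false⟩,⟨1,3,15,5,5,4,false,false⟩,⟨2,4,5,8,8,0,false,false⟩,⟨2,3,0,5,4,4,false,false⟩,⟨2,3,4,0,0,3,false,false⟩,⟨2,1,3,4,15,13,false,false⟩,⟨4,5,0,8,8,1,false,false⟩,⟨4,3,1,0,3,2,false,false⟩,⟨5,6,8,1,1,9,true,false⟩,⟨6,8,1,9,9,7,false,false⟩,⟨4,6,2,1,7,6,false,false⟩,⟨8,9,7,9,9,19,false,false⟩,⟨6,8,6,7,19,17,false,false⟩,⟨6,7,6,17,17,18,false,false⟩,⟨4,6,2,6,18,11,false,false⟩,⟨4,5,2,11,11,12,false,false⟩,⟨3,4,3,2,12,10,false,false⟩,⟨3,2,10,3,13,14,false,false⟩]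 (nat_lit 8) (nat_lit 170) (by decide +kernel)
noncomputable def s711 : Raw := ⟨[(0,[7,5,3,1,2,4,6]),(1,[12,8,2,0,3,11]),(2,[15,13,4,0,1,8,14]),(3,[11,1,0,5,9,16]),(4,[17,6,0,2,13,18]),(5,[9,3,0,7,10]),(6,[19,7,0,4,17,20]),(7,[21,10,5,0,6,19,22]),(8,[14,2,1,12,23]),(9,[16,3,5,10,24]),(10,[24,9,5,7,21])], [12,23,14,15,13,18,17,20,19,22,21,24,16,11], [(0,7),(7,19),(7,21),(3,5)]⟩
def c711 : RawB s711 := raw1 s711 (nat_lit 12) [⟨0,1,10,10,10,24,false,false⟩,⟨0,2,10,24,24,21,false,false⟩,⟨0,3,10,21,21,7,false,false⟩,⟨0,4,10,7,7,5,false,false⟩,⟨0,1,5,10,24,9,false,false⟩,⟨1,5,24,9,9,16,false,false⟩,⟨4,6,7,5,5,0,false,false⟩,⟨6,0,0,5,9,3,false,false⟩,⟨0,5,3,9,16,16,false,false⟩,⟨4,5,7,0,0,6,false,false⟩,⟨5,7,6,0,0,4,false,false⟩,⟨0,8,16,3,3,11,false,false⟩,⟨6,8,0,3,11,1,false,false⟩,⟨6,7,1,0,4,2,false,false⟩,⟨6,9,1,2,2,8,false,false⟩,⟨6,8,8,1,11,12,false,true⟩,⟨6,11,12,8,8,23,true,false⟩,⟨9,11,2,8,23,14,false,false⟩,⟨9,10,2,14,14,15,false,false⟩,⟨7,9,4,2,15,13,false,false⟩,⟨7,8,4,13,13,18,false,false⟩,⟨5,7,6,4,18,17,false,false⟩,⟨5,6,6,17,17,20,false,false⟩,⟨4,5,7,6,20,19,false,false⟩,⟨4,3,19,7,21,22,false,false⟩]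 (nat_lit 7) (nat_lit 42) (by decide +kernel)
noncomputable def s712 : Raw := ⟨[(0,[6,5,4,1,2,9]),(1,[10,3,2,0,4,11]),(2,[13,9,0,1,3,12]),(3,[12,2,1,10,14]),(5,[15,4,0,6,7,8]),(6,[16,7,5,0,9,17]),(7,[18,8,5,6,16,19]),(8,[20,15,5,7,18])], [13,9,17,16,19,18,20,15,4,11,10,14,12], [(1,4),(1,10),(2,12),(2,9)]⟩
def c712 : RawB s712 := raw1 s712 (nat_lit 11) [⟨0,1,0,0,0,1,false,false⟩,⟨0,2,0,1,1,4,false,false⟩,⟨0,3,0,4,4,5,false,false⟩,⟨3,4,5,4,4,15,false,false⟩,⟨3,5,5,15,15,8,false,false⟩,⟨5,6,15,8,8,20,false,false⟩,⟨6,7,20,8,8,18,false,false⟩,⟨3,7,5,8,18,7,false,false⟩,⟨3,8,5,7,7,6,false,false⟩,⟨0,3,0,5,6,6,false,false⟩,⟨2,3,1,4,4,11,false,false⟩,⟨0,9,0,6,6,9,false,false⟩,⟨1,0,1,0,9,2,false,false⟩,⟨0,10,2,9,9,13,false,true⟩,⟨0,10,2,13,13,12,false,true⟩,⟨9,10,6,9,9,17,false,false⟩,⟨8,9,7,6,17,16,false,false⟩,⟨8,7,16,7,18,19,false,false⟩,⟨1,0,1,2,12,3,false,false⟩,⟨1,2,3,1,11,10,false,false⟩,⟨1,0,10,3,12,14,false,false⟩]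 (nat_lit 19) (nat_lit 349525) (by decide +kernel)
noncomputable def s713 : Raw := ⟨[(0,[8,1,2,3,4,5,9]),(1,[10,6,2,0,8,11]),(2,[14,12,3,0,1,6,13]),(3,[15,4,0,2,12]),(4,[16,7,5,0,3,15]),(5,[18,9,0,4,7,17]),(6,[13,2,1,10,19]),(7,[17,5,4,16,20])], [10,19,13,14,12,15,16,20,17,18,9,8,11], [(3,15),(0,3),(5,17),(5,9)]⟩
def c713 : RawB s713 := raw1 s713 (nat_lit 11) [⟨0,1,8,8,8,9,false,false⟩,⟨0,2,8,9,9,0,false,false⟩,⟨2,3,9,0,0,5,false,false⟩,⟨0,4,8,0,0,1,false,false⟩,⟨4,5,0,1,1,2,false,false⟩,⟨4,6,0,2,2,3,false,false⟩,⟨4,3,3,0,5,4,false,false⟩,⟨6,7,2,3,3,12,false,false⟩,⟨4,7,4,3,12,15,false,false⟩,⟨6,8,2,12,12,14,false,false⟩,⟨6,9,2,14,14,13,false,false⟩,⟨5,6,1,2,13,6,false,false⟩,⟨6,10,6,13,13,19,false,false⟩,⟨5,6,1,6,19,10,false,true⟩,⟨0,5,8,1,10,11,false,true⟩,⟨4,6,4,15,15,16,false,false⟩,⟨3,4,5,4,16,7,false,false⟩,⟨4,5,7,16,16,20,false,false⟩,⟨3,4,5,7,20,17,false,false⟩,⟨2,3,9,5,17,18,false,false⟩]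 (nat_lit 17) (nat_lit 87381) (by decide +kernel)
noncomputable def s714 : Raw := ⟨[(0,[6,5,4,1,2,9]),(1,[10,3,2,0,4]),(2,[12,9,0,1,3,11]),(3,[11,2,1,10,13]),(5,[14,4,0,6,7,15]),(6,[16,8,7,5,0,9]),(7,[18,15,5,6,8,17]),(8,[17,7,6,16,19])], [10,13,11,12,9,16,19,17,18,15,14,4], [(3,1),(1,4),(2,0)]⟩
def c714 : RawB s714 := raw1 s714 (nat_lit 10) [⟨0,1,5,5,5,7,false,false⟩,⟨0,2,5,7,7,6,false,false⟩,⟨0,3,5,6,6,0,false,false⟩,⟨3,4,0,6,6,9,false,false⟩,⟨0,5,5,0,0,4,false,false⟩,⟨4,6,6,9,9,16,false,false⟩,⟨2,4,7,6,16,8,false,false⟩,⟨3,7,0,9,9,2,false,false⟩,⟨3,5,2,0,4,1,false,false⟩,⟨3,8,1,2,2,3,false,false⟩,⟨3,5,3,1,4,10,false,true⟩,⟨4,5,8,16,16,19,false,false⟩,⟨2,4,7,8,19,17,false,false⟩,⟨3,9,10,3,3,13,true,false⟩,⟨8,9,2,3,13,11,false,false⟩,⟨7,8,9,2,11,12,false,false⟩,⟨2,3,7,17,17,18,false,false⟩,⟨1,2,5,7,18,15,false,false⟩,⟨0,1,4,5,15,14,false,false⟩]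 (nat_lit 11) (nat_lit 1365) (by decide +kernel)
end Pool.Agent.FCT.R
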