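import Pool.Agent.Lib.MP_fe5cb4_co.FC.RawDef
set_option linter.defProp false
namespace Pool.Agent.FCT.R
open Pool.Agent.Lib.MP_fe5cb4_co.FC
noncomputable def s715 : Raw := ⟨[(0,[6,5,4,1,2,10]),(1,[11,3,2,0,4]),(2,[13,10,0,1,3,12]),(3,[12,2,1,11,14]),(5,[15,4,0,6,7,16]),(6,[17,9,8,7,5,0,10]),(7,[16,5,6,8,18]),(8,[20,18,7,6,9,19]),(9,[19,8,6,17,21])], [11,14,12,13,10,17,21,19,20,18,16,15,4], [(3,1),(1,4),(6,7),(7,16)]⟩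
def c715 : RawB s715 := raw1 s715 (nat_lit 11) [⟨0,1,5,5,5,7,false,false⟩,⟨0,2,5,7,7,6,false,false⟩,⟨2,4,7,6,6,8,false,false⟩,⟨0,5,5,6,6,0,false,false⟩,⟨0,3,5,0,0,4,false,false⟩,⟨5,6,6,0,0,10,false,false⟩,⟨5,7,6,10,10,17,false,false⟩,⟨4,5,8,6,17,9,false,false⟩,⟨6,8,0,10,10,2,false,false⟩,⟨6,3,2,0,4,1,false,false⟩,⟨6,9,1,2,2,3,false,false⟩,⟨6,3,3,1,4,11,false,true⟩,⟨2,3,7,8,8,18,false,false⟩,⟨6,10,11,3,3,14,true,false⟩,⟨9,10,2,3,14,12,false,false⟩,⟨8,9,10,2,12,13,false,false⟩,⟨1,2,5,7,18,16,false,false⟩,⟨0,1,4,5,16,15,false,false⟩,⟨5,6,9,17,17,21,false,false⟩,⟨4,5,8,9,21,19,false,false⟩,⟨3,4,18,8,19,20,false,false⟩] (nat_lit 15) (nat_lit 10922) (by decide +kernel)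
noncomputable def s716 : Raw := ⟨[(0,[10,1,2,3,4,5,6]),(1,[11,7,2,0,10,12]),(2,[15,13,3,0,1,7,14]),(3,[16,4,0,2,13,17]),(4,[18,8,5,0,3,16,19]),(5,[9,6,0,4,8]),(6,[21,10,0,5,9,20]),(7,[14,2,1,11,22]),(8,[23,9,5,4,18]),(9,[20,6,5,8,23])], [15,13,17,16,19,18,23,20,21,10,12,11,22,14], [(2,0),(0,10),(0,4),(6,9)]⟩
def c716 : RawB s716 := raw1 s716 (nat_lit 12) [⟨0,1,0,0,0,10,false,false⟩,⟨0,2,0,10,10,1,false,false⟩,⟨1,3,10,0,0,6,false,false⟩,⟨1,4,6,10,10,21,false,false⟩,⟨1,5,6,21,21,20,false,false⟩,⟨1,6,6,20,20,9,false,false⟩,⟨3,1,0,6,9,5,false,false⟩,⟨6,7,20,9,9,23,false,false⟩,⟨1,7,5,9,23,8,false,false⟩,⟨7,8,23,8,8,18,false,false⟩,⟨1,8,5,8,18,4,false,false⟩,⟨3,1,0,5,4,4,false,false⟩,⟨3,9,0,4,4,3,false,false⟩,⟨0,3,1,0,3,2,false,false⟩,⟨0,1,2,1,1,7,false,false⟩,⟨3,10,2,3,3,13,false,false⟩,⟨3,11,2,13,13,15,false,true⟩,⟨0,3,7,2,15,14,false,true⟩,⟨2,3,1,10,10,12,false,false⟩,⟨10,11,3,13,13,17,false,false⟩,⟨9,10,4,3,17,16,false,false⟩,⟨9,8,16,4,18,19,false,false⟩,⟨1,2,7,1,12,11,false,false⟩,⟨1,0,11,7,14,22,false,false⟩]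 (nat_lit 11) (nat_lit 1365) (by decide +kernel)
noncomputable def s717 : Raw := ⟨[(0,[9,1,2,3,4,5,10]),(1,[11,6,2,0,9,12]),(2,[13,3,0,1,6,14]),(3,[15,4,0,2,13,16]),(4,[17,7,5,0,3,15]),(5,[19,10,0,4,7,8,18]),(6,[14,2,1,11,20]),(7,[21,8,5,4,17]),(8,[22,18,5,7,21])], [21,22,18,19,10,9,12,11,20,14,13,16,15,17], [(7,17),(7,5),(0,3),(3,15)]⟩
def c717 : RawB s717 := raw1 s717 (nat_lit 12) [⟨0,1,3,3,3,4,false,false⟩,⟨0,2,4,3,3,0,false,false⟩,⟨2,4,3,0,0,2,false,false⟩,⟨2,3,3,2,2,13,false,false⟩,⟨0,6,4,0,0,5,false,false⟩,⟨0,5,4,5,5,7,false,false⟩,⟨6,7,0,5,5,10,false,false⟩,⟨6,8,0,10,10,9,false,false⟩,⟨4,6,2,0,9,1,false,false⟩,⟨7,9,5,10,10,19,false,false⟩,⟨7,10,5,19,19,18,false,false⟩,⟨5,7,7,5,18,8,false,false⟩,⟨7,11,8,18,18,22,false,false⟩,⟨5,7,7,8,22,21,false,true⟩,⟨0,5,4,7,21,17,false,true⟩,⟨1,0,3,4,17,15,false,false⟩,⟨2,1,13,3,15,16,false,false⟩,⟨4,5,2,1,1,6,false,false⟩,⟨4,3,6,2,13,14,false,false⟩,⟨6,7,1,9,9,12,false,false⟩,⟨5,6,6,1,12,11,false,false⟩,⟨5,4,11,6,14,20,false,false⟩]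 (nat_lit 16) (nat_lit 21845) (by decide +kernel)
noncomputable def s718 : Raw := ⟨[(0,[8,7,6,1,2,11]),(1,[12,5,4,3,2,0,6,13]),(2,[11,0,1,3,14]),(3,[14,2,1,4,15]),(4,[15,3,1,5,16]),(5,[16,4,1,12,17]),(7,[18,6,0,8,9,10,19]),(8,[20,9,7,0,11]),(9,[21,10,7,8,20]),(10,[22,19,7,9,21])], [21,22,19,18,6,13,12,17,16,15,14,11,20], [(10,9),(9,20),(7,8),(8,11)]⟩
def c718 : RawB s718 := raw1 s718 (nat_lit 11) [⟨0,1,2,2,2,14,false,false⟩,⟨0,2,2,14,14,3,false,false⟩,⟨0,3,2,3,3,1,false,false⟩,⟨3,4,3,1,1,4,false,false⟩,⟨1,5,14,2,2,11,false,false⟩,⟨0,6,2,1,1,0,false,false⟩,⟨0,5,0,2,11,11,false,false⟩,⟨0,7,11,0,0,8,false,false⟩,⟨0,5,11,8,8,20,false,false⟩,⟨7,8,8,0,0,7,false,false⟩,⟨7,5,7,8,20,9,false,false⟩,⟨6,8,1,0,7,6,false,false⟩,⟨3,2,4,3,14,15,false,false⟩,⟨7,9,9,7,7,10,false,false⟩,⟨7,5,10,9,20,21,false,true⟩,⟨4,5,4,1,1,5,false,false⟩,⟨4,3,5,4,15,16,false,false⟩,⟨7,10,21,10,10,22,true,false⟩,⟨9,10,7,10,22,19,false,false⟩,⟨8,9,6,7,19,18,false,false⟩,⟨6,7,1,6,6,13,false,false⟩,⟨5,6,5,1,13,12,false,false⟩,⟨5,4,12,5,16,17,false,false⟩]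 (nat_lit 8) (nat_lit 170) (by decide +kernel)
noncomputable def s719 : Raw := ⟨[(0,[11,9,1,2,3,4,10]),(1,[12,5,2,0,9,13]),(2,[16,14,3,0,1,5,15]),(3,[17,6,4,0,2,14]),(4,[10,0,3,6,7,8,18]),(5,[15,2,1,12,19]),(6,[20,7,4,3,17]),(7,[21,8,4,6,20]),(8,[22,18,4,7,21])], [21,22,18,10,11,9,13,12,19,15,16,14,17,20], [(8,21),(0,10),(0,9),(0,2)]⟩
def c719 : RawB s719 := raw1 s719 (nat_lit 12) [⟨0,2,2,2,2,3,false,false⟩,⟨0,3,3,2,2,0,false,false⟩,⟨3,4,2,0,0,1,false,false⟩,⟨4,5,1,0,0,9,false,false⟩,⟨0,6,3,0,0,4,false,false⟩,⟨0,1,4,3,3,6,false,false⟩,⟨4,7,1,9,9,13,false,false⟩,⟨5,8,0,9,9,11,false,false⟩,⟨5,9,0,11,11,10,false,false⟩,⟨6,5,4,0,10,10,false,false⟩,⟨0,5,6,4,4,7,false,false⟩,⟨6,10,4,10,10,18,false,false⟩,⟨5,6,7,4,18,8,false,false⟩,⟨6,11,8,18,18,22,false,false⟩,⟨5,6,7,8,22,21,false,true⟩,⟨0,5,6,7,21,20,false,true⟩,⟨1,0,3,6,20,17,false,false⟩,⟨2,1,2,3,17,14,false,false⟩,⟨4,6,1,13,13,12,false,false⟩,⟨3,4,2,1,12,5,false,false⟩,⟨4,5,5,12,12,19,false,false⟩,⟨3,4,2,5,19,15,false,false⟩,⟨2,3,14,2,15,16,false,false⟩]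 (nat_lit 17) (nat_lit 87381) (by decide +kernel)
noncomputable def s720 : Raw := ⟨[(0,[10,8,1,2,3,4,5,9]),(1,[11,7,6,2,0,8]),(2,[12,3,0,1,6,13]),(3,[14,4,0,2,12]),(4,[15,5,0,3,14]),(5,[16,9,0,4,15]),(6,[18,13,2,1,7,17]),(7,[17,6,1,11,19])], [15,16,9,10,8,11,19,17,18,13,12,14], [(5,15),(5,9),(4,3)]⟩
def c720 : RawB s720 := raw1 s720 (nat_lit 10) [⟨0,1,2,2,2,12,false,false⟩,⟨0,2,12,2,2,3,false,false⟩,⟨2,3,2,3,3,0,false,false⟩,⟨2,4,2,0,0,1,false,false⟩,⟨3,5,3,0,0,4,false,false⟩,⟨3,0,4,3,12,14,false,false⟩,⟨3,6,14,4,4,15,true,false⟩,⟨2,3,2,1,1,6,false,false⟩,⟨4,7,1,0,0,8,false,false⟩,⟨5,8,4,0,0,5,false,false⟩,⟨5,6,5,4,15,15,false,false⟩,⟨5,9,15,5,5,16,true,false⟩,⟨8,9,0,5,16,9,false,false⟩,⟨7,8,8,0,9,10,false,false⟩,⟨2,1,6,2,12,13,false,false⟩,⟨4,6,1,8,8,11,false,false⟩,⟨3,4,6,1,11,7,false,false⟩,⟨4,5,7,11,11,19,false,false⟩,⟨3,4,6,7,19,17,false,false⟩,⟨2,3,13,6,17,18,false,false⟩]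 (nat_lit 9) (nat_lit 341) (by decide +kernel)
noncomputable def s721 : Raw := ⟨[(0,[7,6,5,4,1,2,11]),(1,[12,3,2,0,4]),(2,[14,11,0,1,3,13]),(3,[13,2,1,12,15]),(5,[16,4,0,6,8,9,17]),(6,[8,5,0,7,10]),(7,[18,10,6,0,11,19]),(8,[20,9,5,6,10]),(9,[21,17,5,8,20]),(10,[20,8,6,7,18])], [20,21,17,16,4,12,15,13,14,11,19,18], [(3,12),(3,13),(1,4),(2,14)]⟩
def c721 : RawB s721 := raw1 s721 (nat_lit 10) [⟨0,1,0,0,0,7,false,false⟩,⟨0,2,7,0,0,6,false,false⟩,⟨2,3,6,0,0,5,false,false⟩,⟨2,4,6,5,5,8,false,false⟩,⟨0,2,7,6,8,10,false,false⟩,⟨2,5,10,8,8,20,false,false⟩,⟨0,2,7,10,20,18,false,true⟩,⟨1,2,7,0,0,11,false,false⟩,⟨3,7,0,5,5,4,false,false⟩,⟨4,8,8,5,5,9,false,false⟩,⟨4,5,9,8,20,20,false,false⟩,⟨4,9,20,9,9,21,true,false⟩,⟨8,9,5,9,21,17,false,false⟩,⟨7,8,4,5,17,16,false,false⟩,⟨1,0,11,7,18,19,false,false⟩,⟨3,4,0,4,4,1,false,false⟩,⟨3,2,1,0,11,2,false,false⟩,⟨4,6,1,4,4,12,false,false⟩,⟨3,4,2,1,12,3,false,false⟩,⟨4,5,3,12,12,15,false,false⟩,⟨3,4,2,3,15,13,false,false⟩,⟨2,3,11,2,13,14,false,false⟩]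 (nat_lit 6) (nat_lit 21) (by decide +kernel)
noncomputable def s722 : Raw := ⟨[(0,[10,1,2,3,4,5,11]),(1,[12,6,2,0,10]),(2,[13,3,0,1,6,14]),(3,[15,8,7,4,0,2,13,16]),(4,[9,5,0,3,7,17]),(5,[11,0,4,9,18]),(6,[14,2,1,12,19]),(7,[21,17,4,3,8,20]),(8,[20,7,3,15,22]),(9,[18,5,4,17,23])], [19,14,13,16,15,22,20,21,17,23,18,11,10,12], [(6,1),(1,10),(3,4),(4,17)]⟩
def c722 : RawB s722 := raw1 s722 (nat_lit 12) [⟨0,1,10,10,10,11,false,false⟩,⟨0,2,10,11,11,0,false,false⟩,⟨2,3,11,0,0,5,false,false⟩,⟨3,5,5,0,0,4,false,false⟩,⟨3,4,5,4,4,9,false,false⟩,⟨0,6,10,0,0,1,false,false⟩,⟨5,7,4,0,0,3,false,false⟩,⟨6,7,1,0,3,2,false,false⟩,⟨6,8,1,2,2,6,false,false⟩,⟨6,0,6,1,10,12,false,false⟩,⟨8,11,6,2,2,14,false,false⟩,⟨6,8,12,6,14,19,true,true⟩,⟨7,11,3,2,14,13,false,false⟩,⟨3,2,9,5,11,18,false,false⟩,⟨5,6,4,3,3,7,false,false⟩,⟨5,4,7,4,9,17,false,false⟩,⟨4,3,17,9,18,23,false,false⟩,⟨7,10,3,13,13,16,false,false⟩,⟨7,9,3,16,16,15,false,false⟩,⟨6,7,7,3,15,8,false,false⟩,⟨7,8,8,15,15,22,false,false⟩,⟨6,7,7,8,22,20,false,false⟩,⟨5,6,17,7,20,21,false,false⟩]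 (nat_lit 9) (nat_lit 341) (by decide +kernel)
noncomputable def s723 : Raw := ⟨[(0,[12,10,1,2,3,4,11]),(1,[13,6,5,2,0,10,14]),(2,[7,3,0,1,5]),(3,[8,4,0,2,7,15]),(4,[17,11,0,3,8,9,16]),(5,[7,2,1,6,18]),(6,[18,5,1,13,19]),(7,[15,3,2,5,18]),(8,[20,9,4,3,15,21]),(9,[22,16,4,8,20])], [12,10,14,13,19,18,15,21,20,22,16,17,11], [(4,3),(3,15),(1,5),(5,18)]⟩
def c723 : RawB s723 := raw1 s723 (nat_lit 11) [⟨0,1,3,3,3,8,false,false⟩,⟨0,2,3,8,8,15,false,false⟩,⟨0,3,3,15,15,7,false,false⟩,⟨2,5,8,15,15,21,false,false⟩,⟨2,4,8,21,21,20,false,false⟩,⟨3,6,7,15,15,18,false,false⟩,⟨3,7,7,18,18,5,false,false⟩,⟨0,3,3,7,5,2,false,false⟩,⟨7,8,18,5,5,6,false,false⟩,⟨3,8,2,5,6,1,false,false⟩,⟨3,0,1,2,3,0,false,false⟩,⟨0,1,0,3,8,4,false,false⟩,⟨1,2,4,8,20,9,false,false⟩,⟨3,9,0,1,1,10,false,false⟩,⟨3,10,0,10,10,12,false,true⟩,⟨0,3,4,0,12,11,false,true⟩,⟨2,3,9,20,20,22,false,false⟩,⟨9,10,1,10,10,14,false,false⟩,⟨8,9,6,1,14,13,false,false⟩,⟨8,7,13,6,18,19,false,false⟩,⟨1,2,4,9,22,16,false,false⟩,⟨0,1,11,4,16,17,false,false⟩]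 (nat_lit 6) (nat_lit 21) (by decide +kernel)
noncomputable def s724 : Raw := ⟨[(0,[13,11,1,2,3,4,12]),(1,[14,6,5,2,0,11,15]),(2,[7,3,0,1,5]),(3,[8,4,0,2,7,16]),(4,[12,0,3,8,9,10,17]),(5,[7,2,1,6,18]),(6,[18,5,1,14,19]),(7,[16,3,2,5,18]),(8,[20,9,4,3,16,21]),(9,[22,10,4,8,20,23]),(10,[24,17,4,9,22])], [22,24,17,12,13,11,15,14,19,18,16,21,20,23], [(4,8),(8,16),(8,20)]⟩
def c724 : RawB s724 := raw1 s724 (nat_lit 12) [⟨0,1,3,3,3,7,false,false⟩,⟨0,2,7,3,3,2,false,false⟩,⟨1,3,3,7,7,16,false,false⟩,⟨3,4,16,7,7,18,false,false⟩,⟨0,4,2,7,18,5,false,false⟩,⟨4,5,18,5,5,6,false,false⟩,⟨0,5,2,5,6,1,false,false⟩,⟨0,6,2,1,1,0,false,false⟩,⟨0,2,0,2,3,3,false,false⟩,⟨1,7,16,3,3,8,false,false⟩,⟨1,2,8,16,16,21,false,false⟩,⟨0,8,3,0,0,4,false,false⟩,⟨0,7,4,3,8,8,false,false⟩,⟨0,7,8,4,4,9,false,false⟩,⟨0,1,9,8,21,20,false,false⟩,⟨8,9,0,4,4,12,false,false⟩,⟨9,10,4,12,12,17,false,false⟩,⟨7,9,9,4,17,10,false,false⟩,⟨9,11,10,17,17,24,false,false⟩,⟨7,9,9,10,24,22,false,true⟩,⟨0,7,20,9,22,23,false,true⟩,⟨8,9,0,12,12,13,false,false⟩,⟨6,8,1,0,13,11,false,false⟩,⟨6,7,1,11,11,15,false,false⟩,⟨5,6,6,1,15,14,false,false⟩,⟨5,4,14,6,18,19,false,false⟩]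 (nat_lit 7) (nat_lit 85) (by decide +kernel)
noncomputable def s725 : Raw := ⟨[(0,[12,10,1,2,3,4,11]),(1,[13,6,5,2,0,10,14]),(2,[7,3,0,1,5]),(3,[8,4,0,2,7,15]),(4,[17,11,0,3,8,9,16]),(5,[7,2,1,6,18]),(6,[18,5,1,13,19]),(7,[15,3,2,5,18]),(8,[20,9,4,3,15]),(9,[21,16,4,8,20])], [16,17,11,12,10,14,13,19,18,15,20,21], [(4,3),(3,15),(1,6),(6,18)]⟩
def c725 : RawB s725 := raw1 s725 (nat_lit 10) [⟨0,1,15,15,15,20,false,false⟩,⟨0,2,20,15,15,8,false,false⟩,⟨2,3,15,8,8,3,false,false⟩,⟨2,4,15,3,3,7,false,false⟩,⟨3,5,8,3,3,4,false,false⟩,⟨3,0,4,8,20,9,false,false⟩,⟨3,6,9,4,4,16,false,false⟩,⟨3,0,16,9,20,21,true,false⟩,⟨2,3,15,7,7,18,false,false⟩,⟨5,7,3,4,4,0,false,false⟩,⟨5,4,0,3,7,2,false,false⟩,⟨4,3,2,7,18,5,false,false⟩,⟨5,4,0,2,5,1,false,false⟩,⟨4,3,1,5,18,6,false,false⟩,⟨6,9,16,4,4,17,true,false⟩,⟨7,9,0,4,17,11,false,false⟩,⟨7,8,0,11,11,12,false,false⟩,⟨5,7,1,0,12,10,false,false⟩,⟨5,6,1,10,10,14,false,false⟩,⟨4,5,6,1,14,13,false,false⟩,⟨4,3,13,6,18,19,false,false⟩]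 (nat_lit 4) (nat_lit 5) (by decide +kernel)
noncomputable def s726 : Raw := ⟨[(0,[9,8,7,1,2,3,12]),(1,[13,4,2,0,7,14]),(2,[5,3,0,1,4]),(3,[16,12,0,2,5,6,15]),(4,[17,5,2,1,13]),(5,[6,3,2,4,17]),(6,[18,15,3,5,17]),(8,[19,7,0,9,10,11,20]),(9,[21,10,8,0,12]),(10,[22,11,8,9,21,23]),(11,[24,20,8,10,22])], [21,23,22,24,20,19,7,14,13,17,18,15,16,12], [(10,21),(10,22),(10,8),(9,0)]⟩
def c726 : RawB s726 := raw1 s726 (nat_lit 12) [⟨0,1,3,3,3,6,false,false⟩,⟨0,2,3,6,6,5,false,false⟩,⟨2,3,6,5,5,17,false,false⟩,⟨3,4,5,17,17,4,false,false⟩,⟨0,3,3,5,4,2,false,false⟩,⟨3,5,2,4,4,1,false,false⟩,⟨3,0,1,2,3,0,false,false⟩,⟨3,6,0,1,1,7,false,false⟩,⟨3,7,0,7,7,8,false,false⟩,⟨3,8,8,0,0,9,false,false⟩,⟨0,8,3,0,9,12,false,false⟩,⟨3,9,9,8,8,10,false,false⟩,⟨3,8,10,9,12,21,false,true⟩,⟨7,8,7,8,8,19,false,false⟩,⟨3,10,21,10,10,23,true,false⟩,⟨2,3,6,17,17,18,false,false⟩,⟨10,11,10,23,23,22,false,false⟩,⟨9,10,8,10,22,11,false,false⟩,⟨9,8,11,8,19,20,false,false⟩,⟨9,10,20,11,22,24,false,false⟩,⟨5,4,1,4,17,13,false,false⟩,⟨6,5,7,1,13,14,false,false⟩,⟨1,2,3,6,18,15,false,false⟩,⟨0,1,12,3,15,16,false,false⟩]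 (nat_lit 8) (nat_lit 85) (by decide +kernel)
end Pool.Agent.FCT.R
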