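import Pool.Agent.Lib.MP_fe5cb4_co.FC.RawDef
set_option linter.defProp false
namespace Pool.Agent.FCT.R
open Pool.Agent.Lib.MP_fe5cb4_co.FC
noncomputable def s727 : Raw := ⟨[(0,[13,11,1,2,3,4,12]),(1,[14,6,5,2,0,11,15]),(2,[7,3,0,1,5]),(3,[8,4,0,2,7,16]),(4,[18,12,0,3,8,9,10,17]),(5,[7,2,1,6,19]),(6,[19,5,1,14,20]),(7,[16,3,2,5,19]),(8,[21,9,4,3,16]),(9,[22,10,4,8,21]),(10,[23,17,4,9,22])], [23,17,18,12,13,11,15,14,20,19,16,21,22], [(10,22),(10,17),(9,8)]⟩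
def c727 : RawB s727 := raw1 s727 (nat_lit 11) [⟨0,1,5,5,5,7,false,false⟩,⟨0,2,5,7,7,19,false,false⟩,⟨0,3,5,19,19,6,false,false⟩,⟨0,4,5,6,6,1,false,false⟩,⟨0,1,1,5,7,2,false,false⟩,⟨0,5,2,1,1,0,false,false⟩,⟨0,1,0,2,7,3,false,false⟩,⟨1,2,3,7,19,16,false,false⟩,⟨0,8,3,0,0,4,false,false⟩,⟨0,1,4,3,16,8,false,false⟩,⟨0,6,8,4,4,9,false,false⟩,⟨0,1,9,8,16,21,false,false⟩,⟨0,7,21,9,9,22,false,false⟩,⟨6,7,4,9,22,10,false,false⟩,⟨6,9,10,4,4,17,false,false⟩,⟨6,7,17,10,22,23,true,true⟩,⟨5,7,1,0,0,11,false,false⟩,⟨5,6,1,11,11,15,false,false⟩,⟨4,5,6,1,15,14,false,false⟩,⟨9,10,4,17,17,18,false,false⟩,⟨8,9,0,4,18,12,false,false⟩,⟨7,8,11,0,12,13,false,false⟩,⟨4,3,14,6,19,20,false,false⟩] (nat_lit 5) (nat_lit 21) (by decide +kernel)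
noncomputable def s728 : Raw := ⟨[(0,[6,5,4,1,2,10]),(1,[11,3,2,0,4]),(2,[10,0,1,3,12]),(3,[12,2,1,11,13]),(5,[14,4,0,6,7,8,9,15]),(6,[16,7,5,0,10]),(7,[17,8,5,6,16]),(8,[18,9,5,7,17]),(9,[19,15,5,8,18])], [18,19,15,14,4,11,13,12,10,16,17], [(9,18),(9,15),(7,17),(7,6)]⟩
def c728 : RawB s728 := raw1 s728 (nat_lit 9) [⟨0,1,6,6,6,10,false,false⟩,⟨0,2,6,10,10,0,false,false⟩,⟨0,3,6,0,0,5,false,false⟩,⟨0,4,6,5,5,7,false,false⟩,⟨0,1,7,6,10,16,false,false⟩,⟨4,5,7,5,5,8,false,false⟩,⟨4,0,8,7,16,17,false,false⟩,⟨3,6,0,5,5,4,false,false⟩,⟨5,7,8,5,5,9,false,false⟩,⟨5,4,9,8,17,18,false,true⟩,⟨3,4,0,4,4,1,false,false⟩,⟨3,2,1,0,10,2,false,false⟩,⟨5,8,18,9,9,19,true,false⟩,⟨7,8,5,9,19,15,false,false⟩,⟨6,7,4,5,15,14,false,false⟩,⟨4,5,1,4,4,11,false,false⟩,⟨3,4,2,1,11,3,false,false⟩,⟨3,2,3,2,10,12,false,false⟩,⟨4,3,11,3,12,13,false,false⟩]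 (nat_lit 8) (nat_lit 85) (by decide +kernel)
noncomputable def s729 : Raw := ⟨[(0,[12,10,1,2,3,4,11]),(1,[13,6,5,2,0,10,14]),(2,[7,3,0,1,5]),(3,[8,4,0,2,7,15]),(4,[17,11,0,3,8,9,16]),(5,[19,7,2,1,6,18]),(6,[18,5,1,13,20]),(7,[15,3,2,5,19]),(8,[21,9,4,3,15]),(9,[22,16,4,8,21])], [21,22,16,17,11,12,10,14,13,20,18,19,15], [(9,21),(9,16),(4,3),(3,15)]⟩
def c729 : RawB s729 := raw1 s729 (nat_lit 11) [⟨0,1,5,5,5,7,false,false⟩,⟨0,2,7,5,5,2,false,false⟩,⟨2,3,5,2,2,1,false,false⟩,⟨3,4,2,1,1,0,false,false⟩,⟨3,5,2,0,0,3,false,false⟩,⟨0,3,7,2,3,3,false,false⟩,⟨0,3,7,3,3,15,false,false⟩,⟨4,6,1,0,0,10,false,false⟩,⟨5,7,3,0,0,4,false,false⟩,⟨5,3,4,3,15,8,false,false⟩,⟨7,8,0,4,4,11,false,false⟩,⟨6,7,10,0,11,12,false,false⟩,⟨5,9,8,4,4,9,false,false⟩,⟨5,3,9,8,15,21,false,true⟩,⟨2,3,5,1,1,6,false,false⟩,⟨5,10,21,9,9,22,true,false⟩,⟨9,10,4,9,22,16,false,false⟩,⟨8,9,11,4,16,17,false,false⟩,⟨1,0,5,7,15,19,false,false⟩,⟨2,1,6,5,19,18,false,false⟩,⟨4,5,1,10,10,14,false,false⟩,⟨3,4,6,1,14,13,false,false⟩,⟨3,2,13,6,18,20,false,false⟩]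 (nat_lit 6) (nat_lit 42) (by decide +kernel)
noncomputable def s730 : Raw := ⟨[(0,[12,10,1,2,3,4,11]),(1,[13,6,5,2,0,10,14]),(2,[7,3,0,1,5]),(3,[8,4,0,2,7,15]),(4,[17,11,0,3,8,9,16]),(5,[19,7,2,1,6,18]),(6,[18,5,1,13,20]),(7,[15,3,2,5,19]),(8,[21,9,4,3,15,22]),(9,[23,16,4,8,21])], [21,23,16,17,11,12,10,14,13,20,18,19,15,22], [(8,15),(8,21),(8,4)]⟩
def c730 : RawB s730 := raw1 s730 (nat_lit 12) [⟨0,1,7,7,7,19,false,false⟩,⟨0,2,7,19,19,5,false,false⟩,⟨0,3,7,5,5,2,false,false⟩,⟨0,4,7,2,2,3,false,false⟩,⟨0,1,3,7,19,15,false,false⟩,⟨4,5,3,2,2,0,false,false⟩,⟨5,3,0,2,5,1,false,false⟩,⟨4,6,3,0,0,4,false,false⟩,⟨4,0,4,3,15,8,false,false⟩,⟨6,7,4,0,0,11,false,false⟩,⟨7,8,0,11,11,12,false,false⟩,⟨5,7,1,0,12,10,false,false⟩,⟨6,9,4,11,11,17,false,false⟩,⟨6,10,4,17,17,16,false,false⟩,⟨4,6,8,4,16,9,false,false⟩,⟨6,11,9,16,16,23,false,false⟩,⟨4,6,8,9,23,21,false,true⟩,⟨0,4,15,8,21,22,false,true⟩,⟨3,4,5,1,1,6,false,false⟩,⟨3,2,6,5,19,18,false,false⟩,⟨5,6,1,10,10,14,false,false⟩,⟨4,5,6,1,14,13,false,false⟩,⟨4,3,13,6,18,20,false,false⟩]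 (nat_lit 9) (nat_lit 341) (by decide +kernel)
noncomputable def s731 : Raw := ⟨[(0,[7,6,5,4,1,2,12]),(1,[13,3,2,0,4]),(2,[15,12,0,1,3,14]),(3,[14,2,1,13,16]),(5,[17,4,0,6,8,9,18]),(6,[8,5,0,7,10]),(7,[19,11,10,6,0,12,20]),(8,[21,9,5,6,10]),(9,[22,18,5,8,21]),(10,[21,8,6,7,11,23]),(11,[23,10,7,19,24])], [13,16,14,15,12,20,19,24,23,21,22,18,17,4], [(3,13),(3,14),(1,4),(2,15)]⟩
def c731 : RawB s731 := raw1 s731 (nat_lit 12) [⟨0,1,5,5,5,9,false,false⟩,⟨0,2,5,9,9,8,false,false⟩,⟨2,3,9,8,8,21,false,false⟩,⟨3,4,8,21,21,10,false,false⟩,⟨0,5,5,8,8,6,false,false⟩,⟨5,3,6,8,10,10,false,false⟩,⟨0,3,5,6,6,0,false,false⟩,⟨0,6,5,0,0,4,false,false⟩,⟨5,7,10,6,6,7,false,false⟩,⟨7,3,7,6,0,0,false,false⟩,⟨6,3,4,0,0,1,false,false⟩,⟨6,8,1,4,4,13,false,true⟩,⟨7,8,7,0,0,12,false,false⟩,⟨8,9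,0,12,12,2,false,false⟩,⟨3,8,1,0,2,2,false,false⟩,⟨3,10,1,2,2,3,false,false⟩,⟨3,6,3,1,13,13,false,false⟩,⟨3,11,13,3,3,16,true,false⟩,⟨10,11,2,3,16,14,false,false⟩,⟨9,10,12,2,14,15,false,false⟩,⟨5,6,10,7,7,11,false,false⟩,⟨5,4,11,10,21,23,false,false⟩,⟨7,8,7,12,12,20,false,false⟩,⟨6,7,11,7,20,19,false,false⟩,⟨6,5,19,11,23,24,false,false⟩,⟨2,3,9,21,21,22,false,false⟩,⟨1,2,5,9,22,18,false,false⟩,⟨0,1,4,5,18,17,false,false⟩] (nat_lit 8) (nat_lit 85) (by decide +kernel)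
noncomputable def s732 : Raw := ⟨[(0,[12,10,1,2,3,4,11]),(1,[13,6,5,2,0,10,14]),(2,[7,3,0,1,5]),(3,[8,4,0,2,7,15]),(4,[17,11,0,3,8,9,16]),(5,[19,7,2,1,6,18,20]),(6,[18,5,1,13,21]),(7,[15,3,2,5,19]),(8,[22,9,4,3,15]),(9,[23,16,4,8,22])], [22,23,16,17,11,12,10,14,13,21,18,20,19,15], [(9,23),(8,15),(8,4),(4,0)]⟩
def c732 : RawB s732 := raw1 s732 (nat_lit 12) [⟨0,1,2,2,2,5,false,false⟩,⟨0,2,2,5,5,1,false,false⟩,⟨0,3,2,1,1,0,false,false⟩,⟨0,4,2,0,0,3,false,false⟩,⟨0,1,3,2,5,7,false,false⟩,⟨0,5,7,3,3,15,false,false⟩,⟨1,0,5,7,15,19,false,false⟩,⟨4,7,3,0,0,4,false,false⟩,⟨4,5,4,3,15,8,false,false⟩,⟨4,9,8,4,4,9,false,false⟩,⟨4,5,9,8,15,22,false,true⟩,⟨4,11,22,9,9,23,true,false⟩,⟨9,11,4,9,23,16,false,false⟩,⟨9,10,4,16,16,17,false,false⟩,⟨7,9,0,4,17,11,false,false⟩,⟨7,8,0,11,11,12,false,false⟩,⟨3,7,1,0,12,10,false,false⟩,⟨3,6,1,10,10,14,false,false⟩,⟨3,5,1,14,14,13,false,false⟩,⟨2,3,5,1,13,6,false,false⟩,⟨3,4,6,13,13,21,false,false⟩,⟨2,3,5,6,21,18,false,false⟩,⟨2,1,18,5,19,20,false,false⟩]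 (nat_lit 10) (nat_lit 682) (by decide +kernel)
noncomputable def s733 : Raw := ⟨[(0,[7,6,5,4,1,2,12]),(1,[13,3,2,0,4]),(2,[15,12,0,1,3,14]),(3,[14,2,1,13,16]),(5,[17,4,0,6,8,9,18]),(6,[8,5,0,7,10]),(7,[19,11,10,6,0,12,20]),(8,[21,9,5,6,10,22]),(9,[23,18,5,8,21]),(10,[22,8,6,7,11]),(11,[22,10,7,19,24])], [13,16,14,15,12,20,19,24,22,21,23,18,17,4], [(3,13),(3,14),(1,4),(2,15)]⟩
def c733 : RawB s733 := raw1 s733 (nat_lit 12) [⟨0,1,5,5,5,6,false,false⟩,⟨0,2,5,6,6,0,false,false⟩,⟨2,3,6,0,0,7,false,false⟩,⟨0,4,5,0,0,4,false,false⟩,⟨2,5,6,7,7,10,false,false⟩,⟨1,2,5,6,10,8,false,false⟩,⟨5,6,10,7,7,11,false,false⟩,⟨2,5,8,10,11,22,false,false⟩,⟨6,7,11,7,7,19,false,false⟩,⟨6,5,19,11,22,24,false,false⟩,⟨7,8,19,7,7,20,false,false⟩,⟨3,8,0,7,20,12,false,false⟩,⟨3,9,0,12,12,2,false,false⟩,⟨3,4,2,0,4,1,false,false⟩,⟨3,10,1,2,2,3,false,false⟩,⟨3,4,3,1,4,13,false,true⟩,⟨2,4,8,22,22,21,false,false⟩,⟨3,11,13,3,3,16,true,false⟩,⟨10,11,2,3,16,14,false,false⟩,⟨9,10,12,2,14,15,false,false⟩,⟨1,2,5,8,21,9,false,false⟩,⟨2,3,9,21,21,23,false,false⟩,⟨1,2,5,9,23,18,false,false⟩,⟨0,1,4,5,18,17,false,false⟩]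 (nat_lit 8) (nat_lit 85) (by decide +kernel)
noncomputable def s734 : Raw := ⟨[(0,[7,6,5,4,1,2,10]),(1,[11,3,2,0,4,12]),(2,[14,10,0,1,3,13]),(3,[13,2,1,11,15]),(5,[16,4,0,6,8,17]),(6,[8,5,0,7,9]),(7,[18,9,6,0,10,19]),(8,[17,5,6,9,20]),(9,[20,8,6,7,18])], [13,14,10,19,18,20,17,16,4,12,11,15], [(1,4),(1,11),(2,13),(2,10)]⟩
def c734 : RawB s734 := raw1 s734 (nat_lit 10) [⟨0,1,0,0,0,1,false,false⟩,⟨0,2,0,1,1,4,false,false⟩,⟨0,3,0,4,4,5,false,false⟩,⟨0,4,0,5,5,6,false,false⟩,⟨4,5,5,6,6,8,false,false⟩,⟨5,6,8,6,6,9,false,false⟩,⟨0,6,0,6,9,7,false,false⟩,⟨0,7,0,7,7,10,false,false⟩,⟨1,8,1,0,0,2,false,false⟩,⟨8,0,2,0,10,10,false,false⟩,⟨1,0,1,2,2,3,false,false⟩,⟨8,9,2,10,10,14,false,false⟩,⟨0,8,3,2,14,13,false,true⟩,⟨0,8,3,13,13,15,false,true⟩,⟨7,8,7,10,10,19,false,false⟩,⟨6,7,9,7,19,18,false,false⟩,⟨5,6,8,9,18,20,false,false⟩,⟨4,5,5,8,20,17,false,false⟩,⟨3,4,4,5,17,16,false,false⟩,⟨1,0,1,3,15,11,false,false⟩,⟨2,1,4,1,11,12,false,false⟩]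 (nat_lit 9) (nat_lit 170) (by decide +kernel)
noncomputable def s735 : Raw := ⟨[(0,[10,1,2,3,4,5]),(1,[9,8,7,6,2,0,10]),(2,[13,11,3,0,1,6,12]),(3,[14,4,0,2,11,15]),(4,[16,5,0,3,14]),(5,[17,10,0,4,16]),(6,[19,12,2,1,7,18]),(7,[18,6,1,8,20]),(8,[22,20,7,1,9,21]),(9,[21,8,1,10,23])], [11,15,14,16,17,10,23,21,22,20,18,19,12,13], [(0,10),(3,11),(3,14),(0,2)]⟩
def c735 : RawB s735 := raw1 s735 (nat_lit 12) [⟨0,1,1,1,1,6,false,false⟩,⟨0,2,1,6,6,7,false,false⟩,⟨0,3,1,7,7,8,false,false⟩,⟨3,4,7,8,8,20,false,false⟩,⟨0,5,1,8,8,9,false,false⟩,⟨0,6,1,9,9,10,false,false⟩,⟨0,7,1,10,10,0,false,false⟩,⟨0,1,0,1,6,2,false,false⟩,⟨7,8,0,10,10,5,false,false⟩,⟨7,9,0,5,5,4,false,false⟩,⟨0,7,2,0,4,3,false,false⟩,⟨9,10,5,4,4,16,false,false⟩,⟨8,9,10,5,16,17,false,false⟩,⟨7,10,3,4,16,14,false,false⟩,⟨2,3,6,7,20,18,false,false⟩,⟨7,11,3,14,14,15,false,false⟩,⟨0,7,2,3,15,11,false,true⟩,⟨0,7,2,11,11,13,false,true⟩,⟨1,0,6,2,13,12,false,false⟩,⟨1,2,12,6,18,19,false,false⟩,⟨6,7,9,10,10,23,false,false⟩,⟨5,6,8,9,23,21,false,false⟩,⟨4,5,20,8,21,22,false,false⟩]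 (nat_lit 7) (nat_lit 85) (by decide +kernel)
noncomputable def s736 : Raw := ⟨[(0,[8,7,6,1,2,3,11]),(1,[12,4,2,0,6,13]),(2,[5,3,0,1,4]),(3,[15,11,0,2,5,14]),(4,[16,5,2,1,12]),(5,[14,3,2,4,16]),(7,[17,6,0,8,9,10]),(8,[18,9,7,0,11,19]),(9,[20,10,7,8,18,21]),(10,[22,17,7,9,20])], [19,18,21,20,22,17,6,13,12,16,14,15,11], [(10,17),(10,9),(7,6),(7,8)]⟩
def c736 : RawB s736 := raw1 s736 (nat_lit 11) [⟨0,1,2,2,2,3,false,false⟩,⟨0,2,3,2,2,0,false,false⟩,⟨0,3,3,0,0,11,false,false⟩,⟨3,4,11,0,0,8,false,false⟩,⟨4,5,0,8,8,7,false,false⟩,⟨4,6,0,7,7,6,false,false⟩,⟨2,4,2,0,6,1,false,false⟩,⟨6,7,6,7,7,17,false,false⟩,⟨7,8,17,7,7,10,false,false⟩,⟨5,8,8,7,10,9,false,false⟩,⟨5,9,8,9,9,18,false,false⟩,⟨3,5,11,8,18,19,true,true⟩,⟨2,3,2,1,1,4,false,false⟩,⟨1,2,3,2,4,5,false,false⟩,⟨9,10,9,18,18,21,false,false⟩,⟨8,9,10,9,21,20,false,false⟩,⟨7,8,17,10,20,22,false,false⟩,⟨4,5,1,6,6,13,false,false⟩,⟨3,4,4,1,13,12,false,false⟩,⟨2,3,5,4,12,16,false,false⟩,⟨1,2,3,5,16,14,false,false⟩,⟨0,1,11,3,14,15,false,false⟩]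 (nat_lit 7) (nat_lit 85) (by decide +kernel)
noncomputable def s737 : Raw := ⟨[(0,[8,7,6,1,2,3,11]),(1,[12,4,2,0,6,13]),(2,[5,3,0,1,4]),(3,[15,11,0,2,5,14]),(4,[16,5,2,1,12]),(5,[14,3,2,4,16]),(7,[17,6,0,8,9,10,18]),(8,[19,9,7,0,11,20]),(9,[21,10,7,8,19]),(10,[22,18,7,9,21])], [17,6,13,12,16,14,15,11,20,19,21,22,18], [(10,9),(7,8),(8,11),(8,19)]⟩
def c737 : RawB s737 := raw1 s737 (nat_lit 11) [⟨0,1,3,3,3,11,false,false⟩,⟨0,2,11,3,3,0,false,false⟩,⟨0,3,0,11,11,8,false,false⟩,⟨2,4,3,0,0,2,false,false⟩,⟨1,5,3,11,11,15,false,false⟩,⟨1,6,3,15,15,14,false,false⟩,⟨2,1,2,3,14,5,false,false⟩,⟨1,7,5,14,14,16,false,false⟩,⟨2,1,2,5,16,4,false,false⟩,⟨1,8,4,16,16,12,false,false⟩,⟨1,9,4,12,12,1,false,false⟩,⟨1,2,1,4,2,2,false,false⟩,⟨4,1,0,2,1,1,false,false⟩,⟨9,10,12,1,1,13,false,false⟩,⟨4,10,0,1,13,6,false,false⟩,⟨4,0,6,0,8,7,false,false⟩,⟨4,1,7,6,6,17,false,true⟩,⟨0,2,7,8,8,9,false,false⟩,⟨0,1,7,9,9,10,false,false⟩,⟨0,4,10,7,17,18,false,true⟩,⟨3,4,8,11,11,20,false,false⟩,⟨2,3,9,8,20,19,false,false⟩,⟨1,2,10,9,19,21,false,false⟩,⟨0,1,18,10,21,22,false,false⟩]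 (nat_lit 8) (nat_lit 85) (by decide +kernel)
noncomputable def s738 : Raw := ⟨[(0,[8,7,6,1,2,3,12]),(1,[13,4,2,0,6,14]),(2,[5,3,0,1,4]),(3,[16,12,0,2,5,15]),(4,[17,5,2,1,13]),(5,[15,3,2,4,17]),(7,[18,6,0,8,9,10,11]),(8,[19,9,7,0,12,20]),(9,[21,10,7,8,19]),(10,[22,11,7,9,21,23]),(11,[24,18,7,10,22])], [17,15,16,12,20,19,21,23,22,24,18,6,14,13], [(9,21),(7,8),(8,12),(8,19)]⟩
def c738 : RawB s738 := raw1 s738 (nat_lit 12) [⟨0,1,1,1,1,14,false,false⟩,⟨0,2,14,1,1,13,false,false⟩,⟨2,3,1,13,13,4,false,false⟩,⟨2,4,1,4,4,2,false,false⟩,⟨2,5,1,2,2,0,false,false⟩,⟨2,1,0,1,14,6,false,false⟩,⟨3,6,13,4,4,17,true,false⟩,⟨4,6,2,4,17,5,false,false⟩,⟨5,4,0,2,5,3,false,false⟩,⟨2,3,6,0,0,7,false,false⟩,⟨6,10,17,5,5,15,true,false⟩,⟨10,4,15,5,3,3,false,false⟩,⟨10,11,3,15,15,16,false,false⟩,⟨5,10,0,3,16,12,false,false⟩,⟨3,5,7,0,12,8,false,false⟩,⟨5,9,8,12,12,20,false,false⟩,⟨5,8,8,20,20,19,false,false⟩,⟨3,5,7,8,19,9,false,false⟩,⟨5,7,9,19,19,21,false,false⟩,⟨3,5,7,9,21,10,false,false⟩,⟨3,4,7,10,10,11,false,false⟩,⟨2,3,6,7,11,18,false,false⟩,⟨5,6,10,21,21,23,false,false⟩,⟨4,5,11,10,23,22,false,false⟩,⟨3,4,18,11,22,24,false,false⟩]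 (nat_lit 9) (nat_lit 170) (by decide +kernel)
noncomputable def s739 : Raw := ⟨[(0,[8,7,6,1,2,3,12]),(1,[13,4,2,0,6,14]),(2,[5,3,0,1,4]),(3,[16,12,0,2,5,15]),(4,[17,5,2,1,13]),(5,[15,3,2,4,17]),(7,[18,6,0,8,9,10,11]),(8,[19,9,7,0,12,20]),(9,[21,10,7,8,19,22]),(10,[23,11,7,9,21]),(11,[24,18,7,10,23])], [23,24,18,6,14,13,17,15,16,12,20,19,22,21], [(11,7),(7,9),(9,19),(9,21)]⟩
def c739 : RawB s739 := raw1 s739 (nat_lit 12) [⟨0,1,2,2,2,3,false,false⟩,⟨0,2,2,3,3,0,false,false⟩,⟨1,4,2,3,3,5,false,false⟩,⟨1,3,5,2,2,4,false,false⟩,⟨1,5,4,5,5,17,false,false⟩,⟨5,6,5,17,17,15,false,false⟩,⟨4,5,3,5,15,15,false,false⟩,⟨1,7,4,17,17,13,false,false⟩,⟨1,8,4,13,13,1,false,false⟩,⟨1,3,1,4,2,2,false,false⟩,⟨0,1,0,2,1,1,false,false⟩,⟨8,9,13,1,1,14,false,false⟩,⟨0,9,0,1,14,6,false,false⟩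,⟨0,1,6,0,0,7,false,false⟩,⟨0,10,7,6,6,18,false,false⟩,⟨0,5,7,18,18,11,false,false⟩,⟨0,3,7,11,11,10,false,false⟩,⟨5,11,11,18,18,24,false,false⟩,⟨3,5,10,11,24,23,false,true⟩,⟨4,5,3,15,15,16,false,false⟩,⟨2,4,0,3,16,12,false,false⟩,⟨1,2,7,0,12,8,false,false⟩,⟨1,0,8,7,10,9,false,false⟩,⟨0,3,9,10,23,21,false,true⟩,⟨2,3,8,12,12,20,false,false⟩,⟨1,2,9,8,20,19,false,false⟩,⟨1,0,19,9,21,22,false,false⟩] (nat_lit 8) (nat_lit 85) (by decide +kernel)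
noncomputable def s740 : Raw := ⟨[(0,[8,7,6,1,2,3,12]),(1,[13,4,2,0,6,14]),(2,[5,3,0,1,4]),(3,[16,12,0,2,5,15]),(4,[17,5,2,1,13]),(5,[15,3,2,4,17]),(7,[18,6,0,8,9,10,19]),(8,[20,11,9,7,0,12]),(9,[21,10,7,8,11,22]),(10,[23,19,7,9,21]),(11,[22,9,8,20,24])], [21,23,19,18,6,14,13,17,15,16,12,20,24,22], [(9,21),(8,12),(11,20),(11,22)]⟩
def c740 : RawB s740 := raw1 s740 (nat_lit 12) [⟨0,1,8,8,8,9,false,false⟩,⟨0,2,9,8,8,7,false,false⟩,⟨2,3,8,7,7,0,false,false⟩,⟨3,6,0,7,7,6,false,false⟩,⟨3,7,0,6,6,1,false,false⟩,⟨3,4,0,1,1,2,false,false⟩,⟨4,5,2,1,1,4,false,false⟩,⟨7,8,1,6,6,14,false,false⟩,⟨5,7,4,1,14,13,false,false⟩,⟨6,9,7,6,6,18,false,false⟩,⟨6,10,7,18,18,19,false,false⟩,⟨0,6,9,7,19,10,false,false⟩,⟨6,11,10,19,19,23,false,false⟩,⟨0,6,9,10,23,21,false,true⟩,⟨0,6,9,21,21,22,false,true⟩,⟨5,6,4,13,13,17,false,false⟩,⟨4,5,2,4,17,5,false,false⟩,⟨3,4,0,2,5,3,false,false⟩,⟨4,5,3,5,17,15,false,false⟩,⟨3,2,3,0,8,12,false,false⟩,⟨3,4,12,3,15,16,false,false⟩,⟨1,0,8,9,22,11,false,false⟩,⟨1,2,11,8,12,20,false,false⟩,⟨1,0,20,11,22,24,false,false⟩]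 (nat_lit 9) (nat_lit 170) (by decide +kernel)
end Pool.Agent.FCT.R
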