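import Pool.Agent.Lib.MP_fe5cb4_co.FC.RawDef
set_option linter.defProp false
namespace Pool.Agent.FCT.R
open Pool.Agent.Lib.MP_fe5cb4_co.FC
noncomputable def s99 : Raw := ⟨[(0,[7,1,2,3,4,5,8]),(1,[9,6,2,0,7,10]),(2,[13,11,3,0,1,6,12]),(3,[14,4,0,2,11,15]),(4,[16,5,0,3,14]),(5,[17,8,0,4,16]),(6,[12,2,1,9,18])], [12,13,11,15,14,16,17,8,7,10,9,18], [(1,7),(1,9),(1,2),(6,18)]⟩
def c99 : RawB s99 := raw1 s99 (nat_lit 10) [⟨0,1,0,0,0,2,false,false⟩,⟨0,2,2,0,0,1,false,false⟩,⟨1,3,2,0,0,3,false,false⟩,⟨3,4,0,3,3,4,false,false⟩,⟨4,5,4,3,3,14,false,false⟩,⟨4,6,4,14,14,16,false,false⟩,⟨3,4,0,4,16,5,false,false⟩,⟨5,7,3,14,14,15,false,false⟩,⟨5,8,3,15,15,11,false,false⟩,⟨1,5,2,3,11,11,false,false⟩,⟨0,5,1,2,2,6,false,false⟩,⟨1,9,2,11,11,13,false,false⟩,⟨5,1,6,2,13,12,false,true⟩,⟨0,1,6,1,1,9,false,false⟩,⟨0,5,9,6,12,18,false,true⟩,⟨4,5,5,16,16,17,false,false⟩,⟨3,4,0,5,17,8,false,false⟩,⟨2,3,1,0,8,7,false,false⟩,⟨2,1,7,1,9,10,false,false⟩]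 (nat_lit 23) (nat_lit 5592405) (by decide +kernel)
noncomputable def s100 : Raw := ⟨[(0,[8,1,2,3,4,5,6]),(1,[9,7,2,0,8,10]),(2,[13,11,3,0,1,7,12]),(3,[14,4,0,2,11,15]),(4,[16,5,0,3,14,17]),(5,[18,6,0,4,16]),(6,[19,8,0,5,18]),(7,[12,2,1,9,20])], [18,19,8,10,9,20,12,13,11,15,14,17,16], [(1,8),(1,9),(1,2),(7,20)]⟩
def c100 : RawB s100 := raw1 s100 (nat_lit 11) [⟨0,1,3,3,3,4,false,false⟩,⟨0,2,4,3,3,0,false,false⟩,⟨2,3,3,0,0,2,false,false⟩,⟨3,4,0,2,2,1,false,false⟩,⟨4,7,2,1,1,7,false,false⟩,⟨4,6,2,7,7,12,false,false⟩,⟨7,8,7,1,1,9,false,false⟩,⟨7,6,9,7,12,20,false,false⟩,⟨8,9,9,1,1,10,false,false⟩,⟨3,9,0,1,10,8,false,false⟩,⟨3,5,0,8,8,6,false,false⟩,⟨0,3,4,0,6,5,false,false⟩,⟨5,10,6,8,8,19,false,false⟩,⟨3,5,5,6,19,18,false,true⟩,⟨0,3,4,5,18,16,false,true⟩,⟨4,5,2,12,12,13,false,false⟩,⟨2,4,3,2,13,11,false,false⟩,⟨2,3,3,11,11,15,false,false⟩,⟨1,2,4,3,15,14,false,false⟩,⟨1,0,14,4,16,17,false,false⟩]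 (nat_lit 18) (nat_lit 87381) (by decide +kernel)
noncomputable def s101 : Raw := ⟨[(0,[9,7,1,2,3,4,8]),(1,[10,6,5,2,0,7,11]),(2,[12,3,0,1,5,13]),(3,[14,4,0,2,12]),(4,[15,8,0,3,14]),(5,[17,13,2,1,6,16]),(6,[16,5,1,10,18])], [12,14,15,8,9,7,11,10,18,16,17,13], [(3,2),(2,13),(2,1),(6,18)]⟩
def c101 : RawB s101 := raw1 s101 (nat_lit 10) [⟨0,1,5,5,5,6,false,false⟩,⟨0,2,5,6,6,1,false,false⟩,⟨2,4,6,1,1,10,false,false⟩,⟨4,5,10,1,1,11,false,false⟩,⟨0,6,5,1,1,2,false,false⟩,⟨0,3,5,2,2,13,false,false⟩,⟨3,7,2,13,13,12,false,true⟩,⟨3,7,12,2,2,3,false,false⟩,⟨6,7,1,2,3,0,false,false⟩,⟨6,5,0,1,11,7,false,false⟩,⟨3,8,12,3,3,14,true,false⟩,⟨7,8,0,3,14,4,false,false⟩,⟨2,3,6,10,10,18,false,false⟩,⟨8,9,4,14,14,15,false,false⟩,⟨7,8,0,4,15,8,false,false⟩,⟨6,7,7,0,8,9,false,false⟩,⟨1,2,5,6,18,16,false,false⟩,⟨0,1,13,5,16,17,false,false⟩]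 (nat_lit 23) (nat_lit 2796202) (by decide +kernel)
noncomputable def s102 : Raw := ⟨[(0,[9,1,2,3,4,5,6]),(1,[10,8,7,2,0,9]),(2,[13,11,3,0,1,7,12]),(3,[14,4,0,2,11,15]),(4,[16,5,0,3,14,17]),(5,[18,6,0,4,16]),(6,[19,9,0,5,18]),(7,[21,12,2,1,8,20]),(8,[20,7,1,10,22])], [18,19,9,10,22,20,21,12,13,11,15,14,17,16], [(1,9),(1,2),(7,20),(7,12)]⟩
def c102 : RawB s102 := raw1 s102 (nat_lit 12) [⟨0,1,8,8,8,20,false,false⟩,⟨0,2,8,20,20,7,false,false⟩,⟨0,3,7,8,8,1,false,false⟩,⟨0,4,1,7,7,2,false,false⟩,⟨4,6,2,7,7,12,false,false⟩,⟨2,7,7,20,20,21,false,false⟩,⟨6,2,12,7,21,21,false,false⟩,⟨1,8,8,20,20,22,false,false⟩,⟨1,9,8,22,22,10,false,false⟩,⟨3,1,1,8,10,10,false,false⟩,⟨3,10,1,10,10,9,false,false⟩,⟨0,3,2,1,9,0,false,false⟩,⟨3,5,0,9,9,6,false,false⟩,⟨0,2,0,2,2,3,false,false⟩,⟨0,1,0,3,3,4,false,false⟩,⟨0,3,4,0,6,5,false,false⟩,⟨5,11,6,9,9,19,false,false⟩,⟨3,5,5,6,19,18,false,true⟩,⟨0,3,4,5,18,16,false,true⟩,⟨4,5,2,12,12,13,false,false⟩,⟨2,4,3,2,13,11,false,false⟩,⟨2,3,3,11,11,15,false,false⟩,⟨1,2,4,3,15,14,false,false⟩,⟨1,0,14,4,16,17,false,false⟩]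 (nat_lit 17) (nat_lit 87381) (by decide +kernel)
noncomputable def s103 : Raw := ⟨[(0,[9,7,1,2,3,4,8]),(1,[10,6,5,2,0,7]),(2,[11,3,0,1,5,12]),(3,[13,4,0,2,11]),(4,[14,8,0,3,13]),(5,[16,12,2,1,6,15]),(6,[15,5,1,10,17])], [13,14,8,9,7,10,17,15,16,12,11], [(1,7),(2,1),(6,10),(6,15)]⟩
def c103 : RawB s103 := raw1 s103 (nat_lit 9) [⟨0,1,2,2,2,5,false,false⟩,⟨0,2,2,5,5,1,false,false⟩,⟨0,3,2,1,1,0,false,false⟩,⟨0,4,2,0,0,3,false,false⟩,⟨0,5,2,3,3,11,false,false⟩,⟨5,6,3,11,11,13,false,true⟩,⟨3,6,1,0,0,7,false,false⟩,⟨4,7,3,0,0,4,false,false⟩,⟨4,5,4,3,13,13,false,false⟩,⟨4,8,13,4,4,14,true,false⟩,⟨7,8,0,4,14,8,false,false⟩,⟨6,7,7,0,8,9,false,false⟩,⟨1,0,5,2,11,12,false,false⟩,⟨3,5,1,7,7,10,false,false⟩,⟨2,3,5,1,10,6,false,false⟩,⟨3,4,6,10,10,17,false,false⟩,⟨2,3,5,6,17,15,false,false⟩,⟨1,2,12,5,15,16,false,false⟩]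 (nat_lit 9) (nat_lit 170) (by decide +kernel)
noncomputable def s104 : Raw := ⟨[(0,[7,1,2,3,8]),(1,[9,2,0,7,10]),(2,[11,4,3,0,1,9,12]),(3,[8,0,2,4,5,6]),(4,[13,5,3,2,11,14]),(5,[15,6,3,4,13,16]),(6,[17,8,3,5,15])], [7,10,9,12,11,14,13,16,15,17,8], [(1,0),(0,8),(2,9),(2,11)]⟩
def c104 : RawB s104 := raw1 s104 (nat_lit 9) [⟨0,1,0,0,0,3,false,false⟩,⟨0,2,3,0,0,8,false,false⟩,⟨1,3,3,0,0,2,false,false⟩,⟨1,4,3,2,2,4,false,false⟩,⟨2,5,8,0,0,7,true,false⟩,⟨1,2,3,4,4,5,false,false⟩,⟨4,6,4,2,2,11,false,false⟩,⟨3,7,0,2,2,1,false,false⟩,⟨3,5,1,0,7,7,false,false⟩,⟨3,8,7,1,1,10,true,false⟩,⟨7,8,2,1,10,9,false,false⟩,⟨7,6,9,2,11,12,false,false⟩,⟨1,0,5,3,8,6,false,false⟩,⟨4,5,4,11,11,14,false,false⟩,⟨2,4,5,4,14,13,false,false⟩,⟨2,3,5,13,13,16,false,false⟩,⟨1,2,6,5,16,15,false,false⟩,⟨0,1,8,6,15,17,false,false⟩]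 (nat_lit 8) (nat_lit 170) (by decide +kernel)
noncomputable def s105 : Raw := ⟨[(0,[8,1,2,3,4,5,9]),(1,[10,6,2,0,8,11]),(2,[12,3,0,1,6,7,13]),(3,[14,4,0,2,12,15]),(4,[16,5,0,3,14]),(5,[17,9,0,4,16]),(6,[18,7,2,1,10,19]),(7,[20,13,2,6,18])], [8,11,10,19,18,20,13,12,15,14,16,17,9], [(1,8),(1,10),(1,2),(6,19)]⟩
def c105 : RawB s105 := raw1 s105 (nat_lit 11) [⟨0,1,0,0,0,3,false,false⟩,⟨0,2,0,3,3,4,false,false⟩,⟨1,3,0,3,3,2,false,false⟩,⟨1,4,2,0,0,1,false,false⟩,⟨3,5,3,2,2,12,false,false⟩,⟨5,6,12,2,2,13,false,false⟩,⟨6,7,13,2,2,7,false,false⟩,⟨1,7,1,2,7,6,false,false⟩,⟨7,8,7,6,6,18,false,false⟩,⟨6,7,13,7,18,20,false,false⟩,⟨8,9,18,6,6,19,false,false⟩,⟨1,9,1,6,19,10,false,false⟩,⟨1,10,1,10,10,11,false,false⟩,⟨4,1,0,1,11,8,false,true⟩,⟨0,1,0,4,4,5,false,false⟩,⟨0,4,5,0,8,9,false,true⟩,⟨3,4,3,12,12,15,false,false⟩,⟨2,3,4,3,15,14,false,false⟩,⟨1,2,5,4,14,16,false,false⟩,⟨0,1,9,5,16,17,false,false⟩]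 (nat_lit 21) (nat_lit 699050) (by decide +kernel)
noncomputable def s106 : Raw := ⟨[(0,[9,1,2,3,4,5,6]),(1,[10,8,7,2,0,9]),(2,[13,11,3,0,1,7,12]),(3,[14,4,0,2,11,15]),(4,[16,5,0,3,14]),(5,[17,6,0,4,16]),(6,[18,9,0,5,17]),(7,[20,12,2,1,8,19]),(8,[19,7,1,10,21])], [9,10,21,19,20,12,13,11,15,14,16,17,18], [(6,17),(6,9),(1,9),(1,2)]⟩
def c106 : RawB s106 := raw1 s106 (nat_lit 11) [⟨0,1,5,5,5,16,false,false⟩,⟨0,2,5,16,16,4,false,false⟩,⟨0,3,5,4,4,0,false,false⟩,⟨0,4,5,0,0,6,false,false⟩,⟨0,1,6,5,16,17,false,false⟩,⟨4,5,6,0,0,9,false,false⟩,⟨4,0,9,6,17,18,true,false⟩,⟨3,4,4,0,0,3,false,false⟩,⟨3,2,3,4,16,14,false,false⟩,⟨5,6,0,9,9,1,false,false⟩,⟨5,4,1,0,3,2,false,false⟩,⟨6,7,9,1,1,10,true,false⟩,⟨7,9,1,10,10,8,false,false⟩,⟨5,7,2,1,8,7,false,false⟩,⟨9,10,8,10,10,21,false,false⟩,⟨7,9,7,8,21,19,false,false⟩,⟨7,8,7,19,19,20,false,false⟩,⟨5,7,2,7,20,12,false,false⟩,⟨5,6,2,12,12,13,false,false⟩,⟨4,5,3,2,13,11,false,false⟩,⟨4,3,11,3,14,15,false,false⟩]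 (nat_lit 9) (nat_lit 170) (by decide +kernel)
end Pool.Agent.FCT.R
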