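import Pool.Agent.Lib.MP_fe5cb4_co.FC.RawDef
set_option linter.defProp false
namespace Pool.Agent.FCT.R
open Pool.Agent.Lib.MP_fe5cb4_co.FC
noncomputable def s786 : Raw := ⟨[(0,[10,1,2,3,4,5,6,11]),(1,[12,7,2,0,10]),(2,[8,3,0,1,7]),(3,[14,9,4,0,2,8,13,15]),(4,[16,5,0,3,9]),(5,[17,6,0,4,16,18]),(6,[19,11,0,5,17]),(7,[20,8,2,1,12]),(8,[21,13,3,2,7,20]),(9,[16,4,3,14,22])], [18,17,19,11,10,12,20,21,13,15,14,22,16], [(5,16),(5,17),(5,0),(4,9)]⟩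
def c786 : RawB s786 := raw1 s786 (nat_lit 11) [⟨0,1,3,3,3,4,false,false⟩,⟨0,2,4,3,3,0,false,false⟩,⟨0,3,4,0,0,5,false,false⟩,⟨2,4,3,0,0,2,false,false⟩,⟨4,5,2,0,0,1,false,false⟩,⟨4,6,2,1,1,7,false,false⟩,⟨2,4,3,2,7,8,false,false⟩,⟨6,7,7,1,1,12,false,false⟩,⟨5,7,0,1,12,10,false,false⟩,⟨4,6,8,7,12,20,false,false⟩,⟨5,8,0,10,10,11,false,false⟩,⟨5,9,0,11,11,6,false,false⟩,⟨3,5,5,0,6,6,false,false⟩,⟨9,10,11,6,6,19,false,false⟩,⟨3,10,5,6,19,17,false,false⟩,⟨3,5,5,17,17,18,false,true⟩,⟨0,3,4,5,18,16,false,true⟩,⟨1,0,3,4,16,9,false,false⟩,⟨4,5,8,20,20,21,false,false⟩,⟨2,4,3,8,21,13,false,false⟩,⟨2,3,3,13,13,15,false,false⟩,⟨1,2,9,3,15,14,false,false⟩,⟨1,0,14,9,16,22,false,false⟩] (nat_lit 9) (nat_lit 170) (by decide +kernel)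
noncomputable def s787 : Raw := ⟨[(0,[12,10,1,2,3,4,5,11]),(1,[13,6,2,0,10,14]),(2,[7,3,0,1,6]),(3,[15,4,0,2,7,8,9,16]),(4,[17,5,0,3,15]),(5,[18,11,0,4,17]),(6,[19,7,2,1,13]),(7,[8,3,2,6,19]),(8,[20,9,3,7,19,21]),(9,[22,16,3,8,20])], [14,13,19,21,20,22,16,15,17,18,11,12,10], [(1,10),(1,13),(3,7),(7,19)]⟩
def c787 : RawB s787 := raw1 s787 (nat_lit 11) [⟨0,1,2,2,2,3,false,false⟩,⟨0,3,2,3,3,7,false,false⟩,⟨2,4,3,3,3,16,false,false⟩,⟨2,5,3,16,16,15,false,false⟩,⟨4,6,3,16,16,9,false,false⟩,⟨4,7,3,9,9,8,false,false⟩,⟨3,4,7,3,8,8,false,false⟩,⟨6,4,16,9,9,22,false,false⟩,⟨7,8,9,8,8,20,false,false⟩,⟨7,4,20,9,22,22,false,false⟩,⟨8,9,20,8,8,21,false,false⟩,⟨3,9,7,8,21,19,false,false⟩,⟨0,3,2,7,19,6,false,false⟩,⟨3,10,6,19,19,13,false,false⟩,⟨0,3,2,6,13,1,false,false⟩,⟨0,1,1,2,3,0,false,false⟩,⟨1,2,0,3,15,4,false,false⟩,⟨3,4,1,13,13,14,false,true⟩,⟨0,3,0,1,14,10,false,true⟩,⟨2,4,4,15,15,17,false,false⟩,⟨1,2,0,4,17,5,false,false⟩,⟨2,3,5,17,17,18,false,false⟩,⟨1,2,0,5,18,11,false,false⟩,⟨0,1,10,0,11,12,false,false⟩]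 (nat_lit 7) (nat_lit 85) (by decide +kernel)
noncomputable def s788 : Raw := ⟨[(0,[11,9,1,2,3,4,5,10]),(1,[12,6,2,0,9,13]),(2,[7,3,0,1,6]),(3,[16,14,4,0,2,7,8,15]),(4,[17,5,0,3,14,18]),(5,[19,10,0,4,17]),(6,[20,7,2,1,12]),(7,[8,3,2,6,20]),(8,[21,15,3,7,20])], [9,13,12,20,21,15,16,14,18,17,19,10,11], [(0,3),(3,15),(3,14),(6,12)]⟩
def c788 : RawB s788 := raw1 s788 (nat_lit 11) [⟨0,1,2,2,2,3,false,false⟩,⟨0,2,2,3,3,7,false,false⟩,⟨2,3,7,3,3,8,false,false⟩,⟨0,4,2,7,7,6,false,false⟩,⟨3,7,3,8,8,15,false,false⟩,⟨3,6,3,15,15,16,false,false⟩,⟨3,5,3,16,16,14,false,false⟩,⟨7,8,15,8,8,21,false,false⟩,⟨2,8,7,8,21,20,false,false⟩,⟨4,2,6,7,20,20,false,false⟩,⟨4,9,6,20,20,12,false,false⟩,⟨0,4,2,6,12,1,false,false⟩,⟨0,1,1,2,3,0,false,false⟩,⟨1,3,0,3,14,4,false,false⟩,⟨1,2,0,4,4,5,false,false⟩,⟨4,10,1,12,12,13,false,false⟩,⟨0,4,0,1,13,9,false,true⟩,⟨0,4,0,9,9,11,false,true⟩,⟨1,0,5,0,11,10,false,false⟩,⟨3,4,4,14,14,18,false,false⟩,⟨2,3,5,4,18,17,false,false⟩,⟨1,2,10,5,17,19,false,false⟩]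 (nat_lit 17) (nat_lit 87381) (by decide +kernel)
noncomputable def s789 : Raw := ⟨[(0,[11,9,1,2,3,4,5,10]),(1,[12,6,2,0,9]),(2,[7,3,0,1,6]),(3,[15,13,4,0,2,7,8,14]),(4,[16,5,0,3,13,17]),(5,[18,10,0,4,16]),(6,[19,7,2,1,12]),(7,[20,8,3,2,6,19]),(8,[21,14,3,7,20])], [14,15,13,17,16,18,10,11,9,12,19,20,21], [(0,3),(3,14),(3,13),(3,7)]⟩
def c789 : RawB s789 := raw1 s789 (nat_lit 11) [⟨0,1,14,14,14,21,false,true⟩,⟨0,2,21,14,14,8,false,false⟩,⟨0,1,21,8,8,20,false,false⟩,⟨1,3,20,8,8,7,false,false⟩,⟨2,4,8,14,14,3,false,false⟩,⟨3,2,7,8,3,3,false,false⟩,⟨1,2,20,7,7,19,false,false⟩,⟨3,5,7,3,3,2,false,false⟩,⟨3,2,2,7,19,6,false,false⟩,⟨4,6,14,3,3,15,true,false⟩,⟨5,4,3,2,2,0,false,false⟩,⟨4,3,0,2,6,1,false,false⟩,⟨3,2,1,6,19,12,false,false⟩,⟨4,3,0,1,12,9,false,false⟩,⟨6,10,3,15,15,13,false,false⟩,⟨5,6,0,3,13,4,false,false⟩,⟨6,9,4,13,13,17,false,false⟩,⟨6,8,4,17,17,16,false,false⟩,⟨5,6,0,4,16,5,false,false⟩,⟨6,7,5,16,16,18,false,false⟩,⟨5,6,0,5,18,10,false,false⟩,⟨4,5,9,0,10,11,false,false⟩]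 (nat_lit 14) (nat_lit 5461) (by decide +kernel)
noncomputable def s790 : Raw := ⟨[(0,[11,9,1,2,3,4,5,10]),(1,[12,6,2,0,9]),(2,[13,3,0,1,6,7,8,14]),(3,[15,4,0,2,13,16]),(4,[17,5,0,3,15]),(5,[18,10,0,4,17]),(6,[19,7,2,1,12]),(7,[20,8,2,6,19]),(8,[21,14,2,7,20])], [9,12,19,20,21,14,13,16,15,17,18,10,11], [(0,3),(3,13),(3,15),(6,12)]⟩
def c790 : RawB s790 := raw1 s790 (nat_lit 11) [⟨0,1,2,2,2,3,false,false⟩,⟨0,2,2,3,3,13,false,false⟩,⟨2,5,3,13,13,16,false,false⟩,⟨2,4,3,16,16,15,false,false⟩,⟨0,6,2,13,13,14,false,false⟩,⟨0,3,2,14,14,8,false,false⟩,⟨3,7,8,14,14,21,false,false⟩,⟨3,8,8,21,21,20,false,false⟩,⟨0,3,2,8,20,7,false,false⟩,⟨3,9,7,20,20,19,false,false⟩,⟨0,3,2,7,19,6,false,false⟩,⟨3,10,6,19,19,12,false,false⟩,⟨0,3,2,6,12,1,false,false⟩,⟨0,1,1,2,3,0,false,false⟩,⟨1,2,0,3,15,4,false,false⟩,⟨0,3,0,1,12,9,false,true⟩,⟨0,3,0,9,9,11,false,true⟩,⟨2,3,4,15,15,17,false,false⟩,⟨1,2,0,4,17,5,false,false⟩,⟨1,0,5,0,11,10,false,false⟩,⟨1,2,10,5,17,18,false,false⟩]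 (nat_lit 10) (nat_lit 682) (by decide +kernel)
noncomputable def s791 : Raw := ⟨[(0,[10,8,1,2,3,4,5,9]),(1,[11,7,6,2,0,8]),(2,[12,3,0,1,6,13]),(3,[14,4,0,2,12,15]),(4,[16,5,0,3,14]),(5,[17,9,0,4,16]),(6,[19,13,2,1,7,18]),(7,[18,6,1,11,20])], [12,15,14,16,17,9,10,8,11,20,18,19,13], [(4,16),(0,3),(3,12),(3,14)]⟩
def c791 : RawB s791 := raw1 s791 (nat_lit 11) [⟨0,1,6,6,6,7,false,false⟩,⟨0,2,6,7,7,1,false,false⟩,⟨0,3,6,1,1,2,false,false⟩,⟨3,4,2,1,1,0,false,false⟩,⟨4,5,1,0,0,8,false,false⟩,⟨2,4,7,1,8,11,false,false⟩,⟨5,6,8,0,0,10,false,false⟩,⟨0,7,6,2,2,13,false,false⟩,⟨3,8,2,0,0,3,false,false⟩,⟨3,7,3,2,13,12,false,true⟩,⟨6,7,10,0,0,9,false,false⟩,⟨3,9,12,3,3,15,true,false⟩,⟨2,3,7,11,11,20,false,false⟩,⟨9,10,3,15,15,14,false,false⟩,⟨8,9,0,3,14,4,false,false⟩,⟨8,7,4,0,9,5,false,false⟩,⟨8,9,5,4,14,16,false,false⟩,⟨7,8,9,5,16,17,false,false⟩,⟨1,2,6,7,20,18,false,false⟩,⟨0,1,13,6,18,19,false,false⟩]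 (nat_lit 15) (nat_lit 10922) (by decide +kernel)
noncomputable def s792 : Raw := ⟨[(0,[10,8,1,2,3,4,5,9]),(1,[11,6,2,0,8,12]),(2,[7,3,0,1,6]),(3,[13,4,0,2,7]),(4,[14,5,0,3,13]),(5,[15,9,0,4,14]),(6,[16,7,2,1,11,17]),(7,[13,3,2,6,16])], [14,15,9,10,8,12,11,17,16,13], [(4,13),(4,0),(3,2),(6,16)]⟩
def c792 : RawB s792 := raw1 s792 (nat_lit 8) [⟨0,1,2,2,2,6,false,false⟩,⟨0,2,2,6,6,1,false,false⟩,⟨0,3,2,1,1,0,false,false⟩,⟨0,4,2,0,0,3,false,false⟩,⟨0,1,3,2,6,7,false,false⟩,⟨4,5,3,0,0,4,false,false⟩,⟨4,0,4,3,7,13,false,false⟩,⟨1,0,6,7,13,16,false,false⟩,⟨4,6,4,13,13,14,false,true⟩,⟨4,6,14,4,4,5,false,false⟩,⟨6,5,5,4,0,0,false,false⟩,⟨3,5,1,0,0,8,false,false⟩,⟨4,7,14,5,5,15,true,false⟩,⟨6,7,0,5,15,9,false,false⟩,⟨5,6,8,0,9,10,false,false⟩,⟨3,4,1,8,8,12,false,false⟩,⟨2,3,6,1,12,11,false,false⟩,⟨2,1,11,6,16,17,false,false⟩]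 (nat_lit 4) (nat_lit 10) (by decide +kernel)
noncomputable def s793 : Raw := ⟨[(0,[10,8,1,2,3,4,5,9]),(1,[11,6,2,0,8,12]),(2,[13,3,0,1,6,7]),(3,[14,4,0,2,13]),(4,[15,5,0,3,14]),(5,[16,9,0,4,15]),(6,[17,7,2,1,11,18]),(7,[19,13,2,6,17])], [15,16,9,10,8,12,11,18,17,19,13,14], [(5,15),(1,8),(1,11),(1,2)]⟩
def c793 : RawB s793 := raw1 s793 (nat_lit 10) [⟨0,1,3,3,3,13,false,false⟩,⟨0,2,13,3,3,14,false,false⟩,⟨2,3,3,14,14,4,false,false⟩,⟨2,4,3,4,4,0,false,false⟩,⟨2,1,0,3,13,2,false,false⟩,⟨2,5,2,0,0,1,false,false⟩,⟨3,6,14,4,4,15,true,false⟩,⟨2,3,2,1,1,6,false,false⟩,⟨5,7,1,0,0,8,false,false⟩,⟨4,8,4,0,0,5,false,false⟩,⟨4,6,5,4,15,15,false,false⟩,⟨4,9,15,5,5,16,true,false⟩,⟨8,9,0,5,16,9,false,false⟩,⟨7,8,8,0,9,10,false,false⟩,⟨2,1,6,2,13,7,false,false⟩,⟨5,6,1,8,8,12,false,false⟩,⟨3,5,6,1,12,11,false,false⟩,⟨3,4,6,11,11,18,false,false⟩,⟨2,3,7,6,18,17,false,false⟩,⟨1,2,13,7,17,19,false,false⟩]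 (nat_lit 9) (nat_lit 341) (by decide +kernel)
noncomputable def s794 : Raw := ⟨[(0,[10,1,2,3,4,5,6,11]),(1,[12,7,2,0,10,13]),(2,[8,3,0,1,7]),(3,[16,14,4,0,2,8,9,15]),(4,[17,5,0,3,14,18]),(5,[19,6,0,4,17,20]),(6,[21,11,0,5,19]),(7,[22,8,2,1,12]),(8,[9,3,2,7,22]),(9,[23,15,3,8,22])], [10,13,12,22,23,15,16,14,18,17,20,19,21,11], [(6,19),(0,4),(4,14),(4,17)]⟩
def c794 : RawB s794 := raw1 s794 (nat_lit 12) [⟨0,1,7,7,7,22,false,false⟩,⟨0,2,7,22,22,8,false,false⟩,⟨0,3,8,7,7,2,false,false⟩,⟨2,5,8,22,22,9,false,false⟩,⟨2,4,9,8,8,3,false,false⟩,⟨2,8,3,9,9,15,false,false⟩,⟨2,7,3,15,15,16,false,false⟩,⟨2,6,3,16,16,14,false,false⟩,⟨5,9,9,22,22,23,false,false⟩,⟨8,5,15,9,23,23,false,false⟩,⟨0,4,2,8,3,3,false,false⟩,⟨1,10,7,22,22,12,false,false⟩,⟨3,1,2,7,12,1,false,false⟩,⟨3,0,1,2,3,0,false,false⟩,⟨0,2,0,3,14,4,false,false⟩,⟨2,5,4,14,14,18,false,false⟩,⟨2,4,4,18,18,17,false,false⟩,⟨0,2,0,4,17,5,false,false⟩,⟨1,11,1,12,12,13,false,false⟩,⟨3,1,0,1,13,10,false,true⟩,⟨0,1,0,5,5,6,false,false⟩,⟨0,3,6,0,10,11,false,true⟩,⟨2,3,5,17,17,20,false,false⟩,⟨1,2,6,5,20,19,false,false⟩,⟨0,1,11,6,19,21,false,false⟩]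 (nat_lit 15) (nat_lit 10922) (by decide +kernel)
noncomputable def s795 : Raw := ⟨[(0,[10,8,1,2,3,4,5,9]),(1,[11,6,2,0,8,12]),(2,[7,3,0,1,6]),(3,[13,4,0,2,7,14]),(4,[15,5,0,3,13]),(5,[16,9,0,4,15]),(6,[17,7,2,1,11,18]),(7,[14,3,2,6,17])], [15,16,9,10,8,12,11,18,17,14,13], [(5,15),(5,9),(7,6)]⟩
def c795 : RawB s795 := raw1 s795 (nat_lit 9) [⟨0,1,7,7,7,17,false,false⟩,⟨0,2,7,17,17,6,false,false⟩,⟨0,3,7,6,6,2,false,false⟩,⟨0,4,7,2,2,3,false,false⟩,⟨0,1,3,7,17,14,false,false⟩,⟨4,5,2,3,3,0,false,false⟩,⟨4,3,0,2,6,1,false,false⟩,⟨5,6,3,0,0,4,false,false⟩,⟨5,0,4,3,14,13,false,false⟩,⟨5,7,4,13,13,15,false,true⟩,⟨5,7,15,4,4,5,false,false⟩,⟨7,6,5,4,0,0,false,false⟩,⟨4,6,1,0,0,8,false,false⟩,⟨5,8,15,5,5,16,true,false⟩,⟨7,8,0,5,16,9,false,false⟩,⟨6,7,8,0,9,10,false,false⟩,⟨4,5,1,8,8,12,false,false⟩,⟨3,4,6,1,12,11,false,false⟩,⟨3,2,11,6,17,18,false,false⟩]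 (nat_lit 7) (nat_lit 42) (by decide +kernel)
noncomputable def s796 : Raw := ⟨[(0,[8,1,2,3,4,5,6,9]),(1,[10,7,2,0,8,11]),(2,[12,3,0,1,7,13]),(3,[14,4,0,2,12]),(4,[15,5,0,3,14,16]),(5,[17,6,0,4,15]),(6,[18,9,0,5,17]),(7,[13,2,1,10,19])], [14,16,15,17,18,9,8,11,10,19,13,12], [(0,4),(4,14),(4,15)]⟩
def c796 : RawB s796 := raw1 s796 (nat_lit 10) [⟨0,1,1,1,1,2,false,false⟩,⟨0,2,2,1,1,0,false,false⟩,⟨2,3,0,1,1,8,false,false⟩,⟨2,5,0,8,8,9,false,false⟩,⟨2,4,0,9,9,6,false,false⟩,⟨4,6,6,9,9,18,false,false⟩,⟨4,7,6,18,18,17,false,false⟩,⟨2,4,0,6,17,5,false,false⟩,⟨4,8,5,17,17,15,false,false⟩,⟨2,4,0,5,15,4,false,false⟩,⟨0,2,2,0,4,3,false,false⟩,⟨4,9,4,15,15,16,false,false⟩,⟨2,4,3,4,16,14,false,true⟩,⟨0,2,2,3,14,12,false,true⟩,⟨1,2,2,1,1,7,false,false⟩,⟨1,0,7,2,12,13,false,false⟩,⟨3,4,1,8,8,11,false,false⟩,⟨2,3,7,1,11,10,false,false⟩,⟨2,1,10,7,13,19,false,false⟩]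 (nat_lit 7) (nat_lit 42) (by decide +kernel)
noncomputable def s797 : Raw := ⟨[(0,[10,8,1,2,3,4,5,9]),(1,[11,6,2,0,8,12]),(2,[7,3,0,1,6]),(3,[13,4,0,2,7]),(4,[14,5,0,3,13,15]),(5,[16,9,0,4,14]),(6,[17,7,2,1,11,18]),(7,[13,3,2,6,17])], [9,10,8,12,11,18,17,13,15,14,16], [(4,13),(4,14),(4,0),(1,6)]⟩
def c797 : RawB s797 := raw1 s797 (nat_lit 9) [⟨0,1,3,3,3,4,false,false⟩,⟨0,2,3,4,4,13,false,false⟩,⟨0,3,3,13,13,7,false,false⟩,⟨3,4,13,7,7,17,false,false⟩,⟨4,5,17,7,7,6,false,false⟩,⟨0,5,3,7,6,2,false,false⟩,⟨0,6,3,2,2,0,false,false⟩,⟨6,5,0,2,6,1,false,false⟩,⟨0,1,0,3,4,4,false,false⟩,⟨0,1,0,4,4,5,false,false⟩,⟨0,7,5,0,0,9,false,false⟩,⟨0,8,5,9,9,16,false,true⟩,⟨1,0,4,5,16,14,false,false⟩,⟨2,1,13,4,14,15,false,false⟩,⟨7,8,9,0,0,10,true,false⟩,⟨6,8,1,0,10,8,false,false⟩,⟨6,7,1,8,8,12,false,false⟩,⟨5,6,6,1,12,11,false,false⟩,⟨5,4,11,6,17,18,false,false⟩]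 (nat_lit 5) (nat_lit 21) (by decide +kernel)
noncomputable def s798 : Raw := ⟨[(0,[10,1,2,3,4]),(1,[11,5,2,0,10]),(2,[6,3,0,1,5]),(3,[13,7,4,0,2,6,12,14]),(4,[10,0,3,7,8,9]),(5,[15,6,2,1,11,16]),(6,[17,12,3,2,5,15]),(7,[18,8,4,3,13,19]),(8,[20,9,4,7,18,21]),(9,[22,10,4,8,20])], [20,22,10,11,16,15,17,12,14,13,19,18,21], [(4,10),(8,4),(4,3),(5,16)]⟩
def c798 : RawB s798 := raw1 s798 (nat_lit 11) [⟨0,1,0,0,0,2,false,false⟩,⟨0,2,0,2,2,3,false,false⟩,⟨2,3,2,3,3,6,false,false⟩,⟨3,4,3,6,6,12,false,false⟩,⟨4,5,6,12,12,17,false,false⟩,⟨4,6,6,17,17,15,false,false⟩,⟨4,7,6,15,15,5,false,false⟩,⟨2,4,2,6,5,5,false,false⟩,⟨2,8,2,5,5,1,false,false⟩,⟨1,2,0,2,1,1,false,false⟩,⟨8,9,5,1,1,11,false,false⟩,⟨8,7,11,5,15,16,false,false⟩,⟨1,9,0,1,11,10,false,false⟩,⟨0,1,3,0,10,4,false,false⟩,⟨1,4,10,4,4,9,false,false⟩,⟨0,2,4,3,3,7,false,false⟩,⟨0,4,7,4,9,8,false,false⟩,⟨1,10,9,10,10,22,false,false⟩,⟨4,1,8,9,22,20,false,true⟩,⟨0,1,8,7,7,18,false,false⟩,⟨0,4,18,8,20,21,false,true⟩,⟨3,4,3,12,12,14,false,false⟩,⟨2,3,7,3,14,13,false,false⟩,⟨2,1,13,7,18,19,false,false⟩]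 (nat_lit 7) (nat_lit 42) (by decide +kernel)
noncomputable def s799 : Raw := ⟨[(0,[10,1,2,3,4]),(1,[11,5,2,0,10]),(2,[6,3,0,1,5]),(3,[13,7,4,0,2,6,12,14]),(4,[10,0,3,7,8,9,15]),(5,[16,6,2,1,11,17]),(6,[18,12,3,2,5,16]),(7,[19,8,4,3,13]),(8,[20,9,4,7,19,21]),(9,[22,15,4,8,20])], [14,13,19,21,20,22,15,10,11,17,16,18,12], [(4,3),(3,12),(3,13),(6,5)]⟩
def c799 : RawB s799 := raw1 s799 (nat_lit 11) [⟨0,1,0,0,0,1,false,false⟩,⟨0,2,0,1,1,10,false,false⟩,⟨0,3,0,10,10,4,false,false⟩,⟨0,4,0,4,4,3,false,false⟩,⟨3,5,4,10,10,15,false,false⟩,⟨3,6,4,15,15,9,false,false⟩,⟨6,7,15,9,9,22,false,false⟩,⟨7,8,22,9,9,20,false,false⟩,⟨3,8,4,9,20,8,false,false⟩,⟨3,9,4,8,8,7,false,false⟩,⟨3,4,7,4,3,3,false,false⟩,⟨9,10,8,7,7,19,false,false⟩,⟨9,8,19,8,20,21,false,false⟩,⟨3,10,3,7,19,13,false,false⟩,⟨1,0,1,0,3,2,false,false⟩,⟨3,4,3,13,13,14,false,true⟩,⟨2,4,1,10,10,11,false,false⟩,⟨1,2,2,1,11,5,false,false⟩,⟨0,1,3,2,5,6,false,false⟩,⟨0,3,6,3,14,12,false,true⟩,⟨2,3,5,11,11,17,false,false⟩,⟨1,2,6,5,17,16,false,false⟩,⟨0,1,12,6,16,18,false,false⟩]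 (nat_lit 8) (nat_lit 85) (by decide +kernel)
noncomputable def s800 : Raw := ⟨[(0,[8,7,6,5,4,1,2,11]),(1,[12,3,2,0,4,13]),(2,[15,11,0,1,3,14]),(3,[14,2,1,12,16]),(5,[17,4,0,6,9]),(6,[9,5,0,7,10]),(7,[19,10,6,0,8,18]),(8,[18,7,0,11,20]),(9,[17,5,6,10,21]),(10,[21,9,6,7,19,22])], [19,22,21,17,4,13,12,16,14,15,11,20,18], [(1,4),(1,12),(2,14),(2,11)]⟩
def c800 : RawB s800 := raw1 s800 (nat_lit 11) [⟨0,1,0,0,0,4,false,false⟩,⟨0,2,0,4,4,5,false,false⟩,⟨1,4,0,4,4,1,false,false⟩,⟨1,3,0,1,1,2,false,false⟩,⟨0,5,0,5,5,6,false,false⟩,⟨5,6,6,5,5,9,false,false⟩,⟨4,7,1,4,4,13,false,false⟩,⟨2,8,5,4,4,17,false,false⟩,⟨6,2,9,5,17,17,false,false⟩,⟨1,2,0,2,2,11,false,false⟩,⟨6,9,9,17,17,21,false,false⟩,⟨5,6,6,9,21,10,false,false⟩,⟨0,5,0,6,10,7,false,false⟩,⟨0,1,7,0,11,8,false,false⟩,⟨6,10,10,21,21,22,false,false⟩,⟨5,6,7,10,22,19,false,true⟩,⟨0,5,8,7,19,18,false,true⟩,⟨1,0,11,8,18,20,false,false⟩,⟨4,6,1,13,13,12,false,false⟩,⟨3,4,2,1,12,3,false,false⟩,⟨4,5,3,12,12,16,false,false⟩,⟨3,4,2,3,16,14,false,false⟩,⟨2,3,11,2,14,15,false,false⟩]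 (nat_lit 10) (nat_lit 341) (by decide +kernel)
end Pool.Agent.FCT.R
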