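import Pool.Agent.Lib.MP_fe5cb4_co.FC.RawDef
set_option linter.defProp false
namespace Pool.Agent.FCT.R
open Pool.Agent.Lib.MP_fe5cb4_co.FC
noncomputable def s835 : Raw := ⟨[(0,[11,9,1,2,3,4,5,10]),(1,[12,6,2,0,9,13]),(2,[14,3,0,1,6,15]),(3,[16,7,4,0,2,14]),(4,[8,5,0,3,7]),(5,[10,0,4,8,17]),(6,[15,2,1,12,18]),(7,[19,8,4,3,16,20]),(8,[17,5,4,7,19])], [16,20,19,17,10,11,9,13,12,18,15,14], [(6,18),(2,14),(2,0)]⟩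
def c835 : RawB s835 := raw1 s835 (nat_lit 10) [⟨0,1,0,0,0,5,false,false⟩,⟨0,2,0,5,5,4,false,false⟩,⟨1,4,0,5,5,10,false,false⟩,⟨1,6,0,10,10,11,false,false⟩,⟨1,5,0,11,11,9,false,false⟩,⟨1,3,0,9,9,1,false,false⟩,⟨4,7,5,10,10,17,false,false⟩,⟨2,4,4,5,17,8,false,false⟩,⟨4,8,8,17,17,19,false,false⟩,⟨2,4,4,8,19,7,false,false⟩,⟨0,2,0,4,7,3,false,false⟩,⟨1,0,1,0,3,2,false,false⟩,⟨4,9,7,19,19,20,false,false⟩,⟨2,4,3,7,20,16,false,true⟩,⟨0,2,2,3,16,14,false,true⟩,⟨1,2,2,1,1,6,false,false⟩,⟨1,0,6,2,14,15,false,false⟩,⟨3,4,1,9,9,13,false,false⟩,⟨2,3,6,1,13,12,false,false⟩,⟨2,1,12,6,15,18,false,false⟩] (nat_lit 7) (nat_lit 85) (by decide +kernel)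
noncomputable def s836 : Raw := ⟨[(0,[11,9,1,2,3,4,5,10]),(1,[12,6,2,0,9,13]),(2,[7,3,0,1,6,8]),(3,[14,4,0,2,7]),(4,[15,5,0,3,14]),(5,[16,10,0,4,15]),(6,[17,8,2,1,12,18]),(7,[14,3,2,8,19]),(8,[19,7,2,6,17,20])], [15,16,10,11,9,13,12,18,17,20,19,14], [(1,9),(0,2),(8,17),(8,19)]⟩
def c836 : RawB s836 := raw1 s836 (nat_lit 10) [⟨0,1,7,7,7,8,false,false⟩,⟨0,2,7,8,8,2,false,false⟩,⟨0,3,7,2,2,3,false,false⟩,⟨3,4,2,3,3,0,false,false⟩,⟨3,5,2,0,0,1,false,false⟩,⟨3,2,1,2,8,6,false,false⟩,⟨0,6,7,3,3,14,false,false⟩,⟨4,6,0,3,14,4,false,false⟩,⟨1,0,8,7,14,19,false,false⟩,⟨4,7,4,0,0,5,false,false⟩,⟨4,6,5,4,14,15,false,true⟩,⟨4,9,15,5,5,16,true,false⟩,⟨7,9,0,5,16,10,false,false⟩,⟨7,8,0,10,10,11,false,false⟩,⟨5,7,1,0,11,9,false,false⟩,⟨5,6,1,9,9,13,false,false⟩,⟨3,5,6,1,13,12,false,false⟩,⟨3,4,6,12,12,18,false,false⟩,⟨2,3,8,6,18,17,false,false⟩,⟨2,1,17,8,19,20,false,false⟩]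 (nat_lit 5) (nat_lit 10) (by decide +kernel)
noncomputable def s837 : Raw := ⟨[(0,[11,9,1,2,3,4,5,10]),(1,[12,7,6,2,0,9]),(2,[15,13,3,0,1,6,8,14]),(3,[16,4,0,2,13]),(4,[17,5,0,3,16]),(5,[18,10,0,4,17]),(6,[8,2,1,7,19]),(7,[19,6,1,12,20]),(8,[21,14,2,6,19])], [11,9,12,20,19,21,14,15,13,16,17,18,10], [(0,10),(0,9),(4,0),(0,2)]⟩
def c837 : RawB s837 := raw1 s837 (nat_lit 11) [⟨0,1,4,4,4,16,false,false⟩,⟨0,2,4,16,16,3,false,false⟩,⟨2,3,3,16,16,13,false,false⟩,⟨2,4,3,13,13,2,false,false⟩,⟨2,5,3,2,2,0,false,false⟩,⟨0,2,4,3,0,0,false,false⟩,⟨1,2,4,16,16,17,false,false⟩,⟨5,7,2,0,0,1,false,false⟩,⟨5,8,2,1,1,6,false,false⟩,⟨5,6,2,6,6,8,false,false⟩,⟨7,9,0,1,1,9,false,false⟩,⟨7,10,0,9,9,11,false,true⟩,⟨9,10,1,9,9,12,false,false⟩,⟨8,9,6,1,12,7,false,false⟩,⟨8,6,7,6,8,19,false,false⟩,⟨9,8,12,7,19,20,false,false⟩,⟨0,1,0,4,17,5,false,false⟩,⟨0,7,5,0,11,10,false,true⟩,⟨0,1,10,5,17,18,false,false⟩,⟨6,7,8,19,19,21,false,false⟩,⟨5,6,2,8,21,14,false,false⟩,⟨4,5,13,2,14,15,false,false⟩]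 (nat_lit 10) (nat_lit 341) (by decide +kernel)
noncomputable def s838 : Raw := ⟨[(0,[8,7,6,5,4,1,2,11]),(1,[12,3,2,0,4]),(2,[11,0,1,3,13]),(3,[13,2,1,12,14]),(5,[15,4,0,6,9,16]),(6,[9,5,0,7,10]),(7,[10,6,0,8,17]),(8,[17,7,0,11,18]),(9,[20,16,5,6,10,19]),(10,[19,9,6,7,17])], [12,14,13,11,18,17,19,20,16,15,4], [(3,12),(3,13),(0,4)]⟩
def c838 : RawB s838 := raw1 s838 (nat_lit 9) [⟨0,1,0,0,0,7,false,false⟩,⟨0,2,0,7,7,8,false,false⟩,⟨0,3,0,8,8,11,false,false⟩,⟨0,4,0,11,11,2,false,false⟩,⟨2,5,7,8,8,17,false,false⟩,⟨3,6,8,11,11,18,false,false⟩,⟨5,3,17,8,18,18,false,false⟩,⟨0,3,0,2,2,1,false,false⟩,⟨4,7,2,11,11,13,false,false⟩,⟨3,4,1,2,13,3,false,false⟩,⟨4,8,3,13,13,14,false,false⟩,⟨3,4,1,3,14,12,false,true⟩,⟨0,3,0,1,12,4,false,true⟩,⟨2,4,7,17,17,10,false,false⟩,⟨1,2,0,7,10,6,false,false⟩,⟨0,1,4,0,6,5,false,false⟩,⟨1,2,5,6,10,9,false,false⟩,⟨2,4,9,10,17,19,false,false⟩,⟨2,3,9,19,19,20,false,false⟩,⟨1,2,5,9,20,16,false,false⟩,⟨0,1,4,5,16,15,false,false⟩]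 (nat_lit 5) (nat_lit 21) (by decide +kernel)
noncomputable def s839 : Raw := ⟨[(0,[11,9,1,2,3,4,5,10]),(1,[12,6,2,0,9,13]),(2,[7,3,0,1,6]),(3,[15,8,4,0,2,7,14,16]),(4,[17,5,0,3,8]),(5,[18,10,0,4,17]),(6,[19,7,2,1,12]),(7,[14,3,2,6,19]),(8,[17,4,3,15,20])], [13,12,19,14,16,15,20,17,18,10,11,9], [(0,1),(1,12),(7,14)]⟩
def c839 : RawB s839 := raw1 s839 (nat_lit 10) [⟨0,1,2,2,2,3,false,false⟩,⟨0,2,2,3,3,7,false,false⟩,⟨0,3,2,7,7,6,false,false⟩,⟨2,5,3,7,7,14,false,false⟩,⟨2,7,3,14,14,16,false,false⟩,⟨2,6,3,16,16,15,false,false⟩,⟨2,4,3,15,15,8,false,false⟩,⟨5,8,7,14,14,19,false,false⟩,⟨3,5,6,7,19,19,false,false⟩,⟨3,9,6,19,19,12,false,false⟩,⟨0,3,2,6,12,1,false,false⟩,⟨0,1,1,2,3,0,false,false⟩,⟨1,2,0,3,8,4,false,false⟩,⟨3,5,1,12,12,13,false,true⟩,⟨0,3,0,1,13,9,false,true⟩,⟨4,5,8,15,15,20,false,false⟩,⟨2,4,4,8,20,17,false,false⟩,⟨1,2,0,4,17,5,false,false⟩,⟨2,3,5,17,17,18,false,false⟩,⟨1,2,0,5,18,10,false,false⟩,⟨0,1,9,0,10,11,false,false⟩]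 (nat_lit 11) (nat_lit 1365) (by decide +kernel)
noncomputable def s840 : Raw := ⟨[(0,[7,1,2,3,8]),(1,[9,2,0,7,10]),(2,[11,4,3,0,1,9]),(3,[13,8,0,2,4,5,6,12]),(4,[14,5,3,2,11,15]),(5,[16,6,3,4,14,17]),(6,[18,12,3,5,16])], [10,9,11,15,14,17,16,18,12,13,8,7], [(1,7),(4,11),(4,14),(3,4)]⟩
def c840 : RawB s840 := raw1 s840 (nat_lit 10) [⟨0,1,9,9,9,10,false,true⟩,⟨0,1,10,9,9,1,false,false⟩,⟨0,2,1,10,10,7,false,true⟩,⟨0,2,7,1,1,0,false,false⟩,⟨1,3,1,9,9,2,false,false⟩,⟨1,2,2,1,0,0,false,false⟩,⟨1,2,0,2,2,3,false,false⟩,⟨1,0,3,0,7,8,false,false⟩,⟨3,9,2,9,9,11,false,false⟩,⟨2,3,3,2,11,4,false,false⟩,⟨3,8,4,11,11,15,false,false⟩,⟨3,7,4,15,15,14,false,false⟩,⟨2,3,3,4,14,5,false,false⟩,⟨3,6,5,14,14,17,false,false⟩,⟨3,5,5,17,17,16,false,false⟩,⟨2,3,3,5,16,6,false,false⟩,⟨3,4,6,16,16,18,false,false⟩,⟨2,3,3,6,18,12,false,false⟩,⟨1,2,8,3,12,13,false,false⟩]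 (nat_lit 23) (nat_lit 5592405) (by decide +kernel)
noncomputable def s841 : Raw := ⟨[(0,[8,7,6,5,4,1,2,10]),(1,[11,3,2,0,4]),(2,[13,10,0,1,3,12]),(3,[12,2,1,11,14]),(5,[15,4,0,6,16]),(6,[16,5,0,7,17]),(7,[17,6,0,8,9]),(8,[18,9,7,0,10,19]),(9,[20,17,7,8,18])], [11,14,12,13,10,19,18,20,17,16,15,4], [(8,10),(8,18),(7,6)]⟩
def c841 : RawB s841 := raw1 s841 (nat_lit 10) [⟨0,1,0,0,0,7,false,false⟩,⟨0,2,0,7,7,8,false,false⟩,⟨2,4,7,8,8,9,false,false⟩,⟨0,5,0,8,8,10,false,false⟩,⟨0,7,0,10,10,2,false,false⟩,⟨0,6,0,2,2,1,false,false⟩,⟨0,3,0,1,1,4,false,false⟩,⟨6,8,1,2,2,3,false,false⟩,⟨6,3,3,1,4,11,false,true⟩,⟨2,3,7,9,9,17,false,false⟩,⟨6,9,11,3,3,14,true,false⟩,⟨8,9,2,3,14,12,false,false⟩,⟨7,8,10,2,12,13,false,false⟩,⟨1,2,0,7,17,6,false,false⟩,⟨0,1,4,0,6,5,false,false⟩,⟨1,2,5,6,17,16,false,false⟩,⟨0,1,4,5,16,15,false,false⟩,⟨5,6,8,10,10,19,false,false⟩,⟨4,5,9,8,19,18,false,false⟩,⟨3,4,17,9,18,20,false,false⟩]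 (nat_lit 8) (nat_lit 85) (by decide +kernel)
noncomputable def s842 : Raw := ⟨[(0,[8,1,2,3,9]),(1,[10,2,0,8,11]),(2,[4,3,0,1,10]),(3,[9,0,2,4,5,6,7,12]),(4,[13,5,3,2,10,14]),(5,[15,6,3,4,13,16]),(6,[17,7,3,5,15,18]),(7,[19,12,3,6,17])], [16,15,18,17,19,12,9,8,11,10,14,13], [(1,8),(1,10),(5,13),(5,15)]⟩
def c842 : RawB s842 := raw1 s842 (nat_lit 10) [⟨0,1,1,1,1,10,false,false⟩,⟨0,2,1,10,10,11,false,false⟩,⟨0,3,1,11,11,8,false,false⟩,⟨0,4,1,8,8,0,false,false⟩,⟨0,1,0,1,10,2,false,false⟩,⟨4,5,8,0,0,9,false,false⟩,⟨0,5,2,0,9,3,false,false⟩,⟨0,1,3,2,10,4,false,false⟩,⟨0,6,4,3,3,5,false,false⟩,⟨0,7,4,5,5,13,false,false⟩,⟨1,0,10,4,13,14,false,false⟩,⟨7,8,5,13,13,16,false,true⟩,⟨7,8,16,5,5,15,true,false⟩,⟨6,8,3,5,15,6,false,false⟩,⟨6,7,3,6,6,7,false,false⟩,⟨6,5,7,3,9,12,false,false⟩,⟨8,9,6,15,15,18,false,false⟩,⟨7,8,7,6,18,17,false,false⟩,⟨6,7,12,7,17,19,false,false⟩]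 (nat_lit 11) (nat_lit 1365) (by decide +kernel)
noncomputable def s843 : Raw := ⟨[(0,[8,7,6,5,4,1,2,11]),(1,[12,3,2,0,4]),(2,[14,11,0,1,3,13]),(3,[13,2,1,12,15]),(5,[16,4,0,6,17]),(6,[17,5,0,7,9]),(7,[9,6,0,8,10]),(8,[18,10,7,0,11,19]),(9,[17,6,7,10,20]),(10,[20,9,7,8,18,21])], [12,15,13,14,11,19,18,21,20,17,16,4], [(3,12),(3,13),(2,11),(1,0)]⟩
def c843 : RawB s843 := raw1 s843 (nat_lit 10) [⟨0,1,6,6,6,17,false,false⟩,⟨0,2,6,17,17,9,false,false⟩,⟨2,3,17,9,9,20,false,false⟩,⟨3,4,20,9,9,10,false,false⟩,⟨0,4,6,9,10,7,false,false⟩,⟨4,5,10,7,7,8,false,false⟩,⟨0,5,6,7,8,0,false,false⟩,⟨0,1,0,6,17,5,false,false⟩,⟨0,6,5,0,0,4,false,false⟩,⟨0,1,4,5,17,16,false,false⟩,⟨6,7,4,0,0,1,false,false⟩,⟨6,8,1,4,4,12,false,true⟩,⟨6,8,12,1,1,3,false,false⟩,⟨7,8,0,1,3,2,false,false⟩,⟨7,5,2,0,8,11,false,false⟩,⟨6,9,12,3,3,15,true,false⟩,⟨8,9,2,3,15,13,false,false⟩,⟨7,8,11,2,13,14,false,false⟩,⟨5,6,8,11,11,19,false,false⟩,⟨4,5,10,8,19,18,false,false⟩,⟨4,3,18,10,20,21,false,false⟩]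 (nat_lit 7) (nat_lit 42) (by decide +kernel)
noncomputable def s844 : Raw := ⟨[(0,[8,7,6,5,4,1,2,11]),(1,[12,3,2,0,4]),(2,[14,11,0,1,3,13]),(3,[13,2,1,12,15]),(5,[16,4,0,6,9,17]),(6,[9,5,0,7,10]),(7,[10,6,0,8,18]),(8,[18,7,0,11,19]),(9,[21,17,5,6,10,20]),(10,[20,9,6,7,18])], [12,15,13,14,11,19,18,20,21,17,16,4], [(3,15),(2,14),(2,0)]⟩
def c844 : RawB s844 := raw1 s844 (nat_lit 10) [⟨0,1,6,6,6,9,false,false⟩,⟨0,2,6,9,9,10,false,false⟩,⟨2,3,9,10,10,20,false,false⟩,⟨3,4,10,20,20,18,false,false⟩,⟨0,3,6,10,18,7,false,false⟩,⟨3,5,7,18,18,8,false,false⟩,⟨0,3,6,7,8,0,false,false⟩,⟨0,1,0,6,9,5,false,false⟩,⟨5,6,18,8,8,19,false,false⟩,⟨3,6,0,8,19,11,false,false⟩,⟨3,7,0,11,11,2,false,false⟩,⟨3,8,0,2,2,1,false,false⟩,⟨3,0,1,0,5,4,false,false⟩,⟨3,9,1,4,4,12,false,true⟩,⟨8,3,2,1,12,3,false,false⟩,⟨3,9,12,3,3,15,true,false⟩,⟨8,9,2,3,15,13,false,false⟩,⟨7,8,11,2,13,14,false,false⟩,⟨2,3,9,20,20,21,false,false⟩,⟨1,2,5,9,21,17,false,false⟩,⟨0,1,4,5,17,16,false,false⟩]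 (nat_lit 7) (nat_lit 85) (by decide +kernel)
noncomputable def s845 : Raw := ⟨[(0,[12,10,1,2,3,4,5,11]),(1,[13,6,2,0,10,14]),(2,[7,3,0,1,6]),(3,[15,4,0,2,7]),(4,[8,5,0,3,15]),(5,[17,11,0,4,8,9,16]),(6,[18,7,2,1,13,19]),(7,[15,3,2,6,18]),(8,[20,9,5,4,15]),(9,[21,16,5,8,20])], [20,21,16,17,11,12,10,14,13,19,18,15], [(0,3),(3,15),(1,6)]⟩
def c845 : RawB s845 := raw1 s845 (nat_lit 10) [⟨0,1,2,2,2,6,false,false⟩,⟨0,2,2,6,6,1,false,false⟩,⟨0,3,2,1,1,0,false,false⟩,⟨0,4,2,0,0,3,false,false⟩,⟨0,1,3,2,6,7,false,false⟩,⟨4,5,3,0,0,4,false,false⟩,⟨4,0,4,3,7,15,false,false⟩,⟨1,0,6,7,15,18,false,false⟩,⟨4,6,4,15,15,8,false,false⟩,⟨5,4,0,4,8,5,false,false⟩,⟨4,7,8,5,5,9,false,false⟩,⟨4,6,9,8,15,20,false,true⟩,⟨4,9,20,9,9,21,true,false⟩,⟨7,9,5,9,21,16,false,false⟩,⟨7,8,5,16,16,17,false,false⟩,⟨5,7,0,5,17,11,false,false⟩,⟨5,6,0,11,11,12,false,false⟩,⟨3,5,1,0,12,10,false,false⟩,⟨3,4,1,10,10,14,false,false⟩,⟨2,3,6,1,14,13,false,false⟩,⟨2,1,13,6,18,19,false,false⟩]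 (nat_lit 4) (nat_lit 5) (by decide +kernel)
noncomputable def s846 : Raw := ⟨[(0,[8,1,2,3,4,9]),(1,[10,7,6,5,2,0,8,11]),(2,[12,3,0,1,5,13]),(3,[14,4,0,2,12]),(4,[15,9,0,3,14]),(5,[17,13,2,1,6,16]),(6,[19,16,5,1,7,18]),(7,[18,6,1,10,20])], [8,11,10,20,18,19,16,17,13,12,14,15,9], [(3,14),(1,5),(5,16),(5,13)]⟩
def c846 : RawB s846 := raw1 s846 (nat_lit 11) [⟨0,1,4,4,4,14,false,false⟩,⟨0,2,4,14,14,3,false,false⟩,⟨0,3,4,3,3,0,false,false⟩,⟨0,4,4,0,0,9,false,false⟩,⟨0,1,9,4,14,15,false,false⟩,⟨4,5,0,9,9,8,false,true⟩,⟨4,5,0,8,8,1,false,false⟩,⟨4,3,1,0,3,2,false,false⟩,⟨3,2,2,3,14,12,false,false⟩,⟨4,6,2,1,1,5,false,false⟩,⟨4,3,5,2,12,13,false,false⟩,⟨5,8,8,1,1,11,true,false⟩,⟨6,5,1,5,5,6,false,false⟩,⟨8,10,1,11,11,10,false,false⟩,⟨6,8,6,1,10,7,false,false⟩,⟨8,9,7,10,10,20,false,false⟩,⟨6,8,6,7,20,18,false,false⟩,⟨6,7,6,18,18,19,false,false⟩,⟨5,6,5,6,19,16,false,false⟩,⟨4,5,13,5,16,17,false,false⟩]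 (nat_lit 16) (nat_lit 43690) (by decide +kernel)
noncomputable def s847 : Raw := ⟨[(0,[11,1,2,3,4]),(1,[12,5,2,0,11]),(2,[6,3,0,1,5]),(3,[14,7,4,0,2,6,13,15]),(4,[11,0,3,7,8,9,10,16]),(5,[17,6,2,1,12,18]),(6,[19,13,3,2,5,17]),(7,[20,8,4,3,14]),(8,[21,9,4,7,20]),(9,[22,10,4,8,21,23]),(10,[24,16,4,9,22])], [24,16,11,12,18,17,19,13,15,14,20,21,23,22], [(4,8),(0,11),(0,3),(6,5)]⟩
def c847 : RawB s847 := raw1 s847 (nat_lit 12) [⟨0,1,8,8,8,21,false,false⟩,⟨0,2,8,21,21,20,false,false⟩,⟨0,3,8,20,20,7,false,false⟩,⟨0,4,8,7,7,4,false,false⟩,⟨4,5,7,4,4,3,false,false⟩,⟨4,3,3,7,20,14,false,false⟩,⟨5,6,3,4,4,0,false,false⟩,⟨6,7,0,4,4,11,false,false⟩,⟨6,8,0,11,11,1,false,false⟩,⟨6,5,1,0,3,2,false,false⟩,⟨1,9,21,8,8,9,false,false⟩,⟨8,10,1,11,11,12,false,false⟩,⟨6,8,2,1,12,5,false,false⟩,⟨5,6,3,2,5,6,false,false⟩,⟨0,9,4,8,9,9,false,false⟩,⟨7,11,4,11,11,16,false,false⟩,⟨0,7,9,4,16,10,false,false⟩,⟨7,9,10,16,16,24,false,true⟩,⟨0,7,9,10,24,22,false,true⟩,⟨1,0,21,9,22,23,false,false⟩,⟨8,9,5,12,12,18,false,false⟩,⟨6,8,6,5,18,17,false,false⟩,⟨6,7,6,17,17,19,false,false⟩,⟨5,6,3,6,19,13,false,false⟩,⟨5,4,13,3,14,15,false,false⟩]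 (nat_lit 8) (nat_lit 85) (by decide +kernel)
noncomputable def s848 : Raw := ⟨[(0,[10,8,1,2,3,9]),(1,[11,2,0,8,12]),(2,[13,4,3,0,1,11]),(3,[9,0,2,4,5,6,7,14]),(4,[15,5,3,2,13]),(5,[16,6,3,4,15,17]),(6,[18,7,3,5,16,19]),(7,[20,14,3,6,18])], [13,15,17,16,19,18,20,14,9,10,8,12,11], [(4,13),(3,5),(5,15),(5,16)]⟩
def c848 : RawB s848 := raw1 s848 (nat_lit 11) [⟨0,1,0,0,0,2,false,false⟩,⟨0,2,2,0,0,3,false,false⟩,⟨2,3,0,3,3,9,false,false⟩,⟨3,4,3,9,9,14,false,false⟩,⟨3,5,3,14,14,7,false,false⟩,⟨5,6,14,7,7,20,false,false⟩,⟨6,7,20,7,7,18,false,false⟩,⟨3,7,3,7,18,6,false,false⟩,⟨3,8,3,6,6,5,false,false⟩,⟨0,3,2,3,5,4,false,false⟩,⟨3,9,4,5,5,15,false,false⟩,⟨0,3,2,4,15,13,false,true⟩,⟨2,3,0,9,9,10,false,false⟩,⟨0,10,2,13,13,11,false,true⟩,⟨9,10,5,15,15,17,false,false⟩,⟨8,9,6,5,17,16,false,false⟩,⟨8,7,16,6,18,19,false,false⟩,⟨1,0,0,2,11,1,false,false⟩,⟨1,2,1,0,10,8,false,false⟩,⟨1,0,8,1,11,12,false,false⟩]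 (nat_lit 15) (nat_lit 10922) (by decide +kernel)
noncomputable def s849 : Raw := ⟨[(0,[11,9,1,2,3,4,5,10]),(1,[12,6,2,0,9,13]),(2,[7,3,0,1,6,8]),(3,[14,4,0,2,7]),(4,[15,5,0,3,14,16]),(5,[17,10,0,4,15]),(6,[18,8,2,1,12,19]),(7,[14,3,2,8,20]),(8,[20,7,2,6,18,21])], [11,9,13,12,19,18,21,20,14,16,15,17,10], [(2,8),(8,18),(8,20)]⟩
def c849 : RawB s849 := raw1 s849 (nat_lit 11) [⟨0,1,0,0,0,4,false,false⟩,⟨0,2,0,4,4,3,false,false⟩,⟨2,3,4,3,3,14,false,false⟩,⟨3,4,3,14,14,7,false,false⟩,⟨0,3,0,3,7,2,false,false⟩,⟨4,5,14,7,7,20,false,false⟩,⟨3,5,2,7,20,8,false,false⟩,⟨5,6,20,8,8,21,false,false⟩,⟨6,7,21,8,8,18,false,false⟩,⟨3,7,2,8,18,6,false,false⟩,⟨3,8,2,6,6,1,false,false⟩,⟨0,3,0,2,1,1,false,false⟩,⟨2,3,4,14,14,16,false,false⟩,⟨0,9,0,1,1,9,false,false⟩,⟨0,10,0,9,9,11,false,true⟩,⟨0,10,0,11,11,10,false,true⟩,⟨9,10,1,9,9,13,false,false⟩,⟨8,9,6,1,13,12,false,false⟩,⟨8,7,12,6,18,19,false,false⟩,⟨1,0,4,0,10,5,false,false⟩,⟨1,2,5,4,16,15,false,false⟩,⟨0,1,10,5,15,17,false,false⟩]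 (nat_lit 7) (nat_lit 85) (by decide +kernel)
noncomputable def s850 : Raw := ⟨[(0,[8,7,6,5,4,1,2,10]),(1,[11,3,2,0,4]),(2,[13,10,0,1,3,12]),(3,[12,2,1,11,14]),(5,[15,4,0,6,16]),(6,[16,5,0,7,9,17]),(7,[19,9,6,0,8,18]),(8,[18,7,0,10,20]),(9,[21,17,6,7,19])], [11,14,12,13,10,20,18,19,21,17,16,15,4], [(3,11),(3,12),(1,4),(1,2)]⟩
def c850 : RawB s850 := raw1 s850 (nat_lit 11) [⟨0,1,0,0,0,6,false,false⟩,⟨0,2,0,6,6,7,false,false⟩,⟨0,3,0,7,7,8,false,false⟩,⟨0,4,0,8,8,10,false,false⟩,⟨0,5,0,10,10,2,false,false⟩,⟨3,6,7,8,8,18,false,false⟩,⟨4,7,8,10,10,20,false,false⟩,⟨6,4,18,8,20,20,false,false⟩,⟨0,4,0,2,2,1,false,false⟩,⟨5,8,2,10,10,13,false,false⟩,⟨5,9,2,13,13,12,false,false⟩,⟨4,5,1,2,12,3,false,false⟩,⟨5,10,3,12,12,14,false,false⟩,⟨4,5,1,3,14,11,false,true⟩,⟨0,4,0,1,11,4,false,true⟩,⟨0,1,4,0,6,5,false,false⟩,⟨3,5,7,18,18,19,false,false⟩,⟨2,3,6,7,19,9,false,false⟩,⟨3,4,9,19,19,21,false,false⟩,⟨2,3,6,9,21,17,false,false⟩,⟨1,2,5,6,17,16,false,false⟩,⟨0,1,4,5,16,15,false,false⟩]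 (nat_lit 11) (nat_lit 1365) (by decide +kernel)
end Pool.Agent.FCT.R
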