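import Pool.Agent.Lib.MP_fe5cb4_co.FC.RawDef
set_option linter.defProp false
namespace Pool.Agent.FCT.R
open Pool.Agent.Lib.MP_fe5cb4_co.FC
noncomputable def s851 : Raw := ⟨[(0,[8,7,6,5,4,1,2,10]),(1,[11,3,2,0,4]),(2,[13,10,0,1,3,12]),(3,[12,2,1,11,14]),(5,[15,4,0,6,16]),(6,[18,16,5,0,7,17]),(7,[17,6,0,8,9,19]),(8,[20,9,7,0,10]),(9,[21,19,7,8,20])], [12,13,10,20,21,19,17,18,16,15,4,11,14], [(8,10),(0,7),(7,17),(9,19)]⟩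
def c851 : RawB s851 := raw1 s851 (nat_lit 11) [⟨0,1,7,7,7,9,false,false⟩,⟨0,3,9,7,7,8,false,false⟩,⟨1,4,9,7,7,19,false,false⟩,⟨1,7,9,19,19,21,false,false⟩,⟨1,8,9,21,21,20,false,false⟩,⟨0,1,8,9,20,20,false,false⟩,⟨0,9,8,20,20,10,false,false⟩,⟨3,0,7,8,10,0,false,false⟩,⟨0,6,0,10,10,2,false,false⟩,⟨0,1,2,0,0,1,false,false⟩,⟨1,2,1,0,0,4,false,false⟩,⟨0,5,1,2,2,3,false,false⟩,⟨0,1,3,1,4,11,false,false⟩,⟨6,10,2,10,10,13,false,false⟩,⟨5,6,3,2,13,12,false,true⟩,⟨0,5,11,3,12,14,false,true⟩,⟨4,6,7,19,19,17,false,false⟩,⟨3,4,0,7,17,6,false,false⟩,⟨2,3,4,0,6,5,false,false⟩,⟨4,5,6,17,17,18,false,false⟩,⟨3,4,5,6,18,16,false,false⟩,⟨2,3,4,5,16,15,false,false⟩] (nat_lit 13) (nat_lit 2730) (by decide +kernel)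
noncomputable def s852 : Raw := ⟨[(0,[11,9,1,2,3,4,5,10]),(1,[12,6,2,0,9,13]),(2,[14,3,0,1,6]),(3,[15,7,4,0,2,14]),(4,[8,5,0,3,7]),(5,[17,10,0,4,8,16]),(6,[14,2,1,12,18]),(7,[19,8,4,3,15]),(8,[16,5,4,7,19])], [12,18,14,15,19,16,17,10,11,9,13], [(6,18),(1,13),(2,14),(2,0)]⟩
def c852 : RawB s852 := raw1 s852 (nat_lit 9) [⟨0,1,4,4,4,5,false,false⟩,⟨0,2,4,5,5,0,false,false⟩,⟨1,3,4,5,5,8,false,false⟩,⟨1,4,4,8,8,7,false,false⟩,⟨0,1,0,4,7,3,false,false⟩,⟨4,5,7,8,8,19,false,false⟩,⟨3,5,5,8,19,16,false,false⟩,⟨4,6,7,19,19,15,false,false⟩,⟨1,4,3,7,15,15,false,false⟩,⟨1,7,3,15,15,14,false,false⟩,⟨0,1,0,3,14,2,false,false⟩,⟨1,4,14,2,2,6,false,false⟩,⟨0,4,0,2,6,1,false,false⟩,⟨1,8,6,14,14,18,false,false⟩,⟨4,1,1,6,18,12,false,true⟩,⟨0,1,1,0,0,9,false,false⟩,⟨0,4,9,1,12,13,false,true⟩,⟨3,4,5,16,16,17,false,false⟩,⟨2,3,0,5,17,10,false,false⟩,⟨1,2,9,0,10,11,false,false⟩]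 (nat_lit 5) (nat_lit 10) (by decide +kernel)
noncomputable def s853 : Raw := ⟨[(0,[10,1,2,3,4,5]),(1,[11,6,2,0,10,12]),(2,[14,7,3,0,1,6,13]),(3,[16,8,4,0,2,7,15,17]),(4,[9,5,0,3,8]),(5,[10,0,4,9,18]),(6,[13,2,1,11,19]),(7,[15,3,2,14,20]),(8,[21,9,4,3,16,22]),(9,[18,5,4,8,21])], [11,19,13,14,20,15,17,16,22,21,18,10,12], [(6,19),(1,10),(1,11),(1,2)]⟩
def c853 : RawB s853 := raw1 s853 (nat_lit 11) [⟨0,1,9,9,9,18,false,false⟩,⟨0,2,9,18,18,21,false,false⟩,⟨0,3,9,21,21,8,false,false⟩,⟨0,4,9,8,8,4,false,false⟩,⟨0,1,4,9,18,5,false,false⟩,⟨0,5,5,4,4,0,false,false⟩,⟨5,4,0,4,8,3,false,false⟩,⟨0,1,0,5,18,10,false,false⟩,⟨5,6,3,0,0,2,false,false⟩,⟨6,7,0,2,2,1,false,false⟩,⟨0,6,10,0,1,1,false,false⟩,⟨0,6,10,1,1,12,false,false⟩,⟨6,8,1,12,12,11,false,true⟩,⟨7,6,2,1,11,6,false,false⟩,⟨6,10,11,6,6,19,true,false⟩,⟨7,10,2,6,19,13,false,false⟩,⟨7,9,2,13,13,14,false,false⟩,⟨5,7,3,2,14,7,false,false⟩,⟨7,8,7,14,14,20,false,false⟩,⟨5,7,3,7,20,15,false,false⟩,⟨5,6,3,15,15,17,false,false⟩,⟨4,5,8,3,17,16,false,false⟩,⟨4,3,16,8,21,22,false,false⟩]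 (nat_lit 8) (nat_lit 85) (by decide +kernel)
noncomputable def s854 : Raw := ⟨[(0,[11,1,2,3,4,12]),(1,[13,5,2,0,11]),(2,[6,3,0,1,5]),(3,[15,7,4,0,2,6,14,16]),(4,[12,0,3,7,8,9,10]),(5,[17,6,2,1,13]),(6,[18,14,3,2,5,17]),(7,[19,8,4,3,15]),(8,[20,9,4,7,19,21]),(9,[22,10,4,8,20,23]),(10,[24,12,4,9,22])], [22,24,12,11,13,17,18,14,16,15,19,21,20,23], [(10,24),(9,20),(9,22),(9,4)]⟩
def c854 : RawB s854 := raw1 s854 (nat_lit 12) [⟨0,1,1,1,1,2,false,false⟩,⟨0,2,2,1,1,0,false,false⟩,⟨1,3,1,2,2,5,false,false⟩,⟨3,4,5,2,2,6,false,false⟩,⟨4,5,2,6,6,3,false,false⟩,⟨0,4,0,2,3,3,false,false⟩,⟨3,6,5,6,6,17,false,false⟩,⟨3,8,5,17,17,13,false,false⟩,⟨1,3,1,5,13,13,false,false⟩,⟨1,9,1,13,13,11,false,false⟩,⟨2,1,0,1,11,11,false,false⟩,⟨2,10,0,11,11,12,false,false⟩,⟨0,2,3,0,12,4,false,fal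se⟩,⟨0,1,4,3,3,7,false,false⟩,⟨1,4,7,3,3,15,false,false⟩,⟨1,3,7,15,15,19,false,false⟩,⟨0,1,4,7,19,8,false,false⟩,⟨2,7,12,4,4,10,false,false⟩,⟨0,7,8,4,10,9,false,false⟩,⟨2,11,10,12,12,24,false,false⟩,⟨7,2,9,10,24,22,false,true⟩,⟨1,2,8,19,19,21,false,false⟩,⟨0,1,9,8,21,20,false,false⟩,⟨0,7,20,9,22,23,false,true⟩,⟨6,7,6,17,17,18,false,false⟩,⟨5,6,3,6,18,14,false,false⟩,⟨5,4,14,3,15,16,false,false⟩] (nat_lit 9) (nat_lit 170) (by decide +kernel)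
noncomputable def s855 : Raw := ⟨[(0,[13,11,1,2,3,4,5,12]),(1,[14,2,0,11,15]),(2,[16,6,3,0,1,14]),(3,[7,4,0,2,6]),(4,[8,5,0,3,7,17]),(5,[12,0,4,8,9,10,18]),(6,[19,7,3,2,16]),(7,[17,4,3,6,19]),(8,[20,9,5,4,17,21]),(9,[22,10,5,8,20,23]),(10,[24,18,5,9,22])], [12,13,11,15,14,16,19,17,21,20,23,22,24,18], [(5,8),(8,17),(8,20),(1,2)]⟩
def c855 : RawB s855 := raw1 s855 (nat_lit 12) [⟨0,1,8,8,8,9,false,false⟩,⟨0,2,8,9,9,20,false,false⟩,⟨1,3,9,8,8,5,false,false⟩,⟨0,4,8,20,20,21,false,false⟩,⟨0,5,8,21,21,17,false,false⟩,⟨0,6,8,17,17,4,false,false⟩,⟨0,3,4,8,5,5,false,false⟩,⟨0,7,5,4,4,0,false,false⟩,⟨0,3,5,0,0,12,false,false⟩,⟨0,8,5,12,12,18,false,true⟩,⟨7,8,4,0,0,3,false,false⟩,⟨7,6,3,4,17,7,false,false⟩,⟨8,9,3,0,0,2,false,false⟩,⟨8,7,2,3,7,6,false,false⟩,⟨7,6,6,7,17,19,false,false⟩,⟨8,7,2,6,19,16,false,false⟩,⟨1,0,9,5,18,10,false,false⟩,⟨3,10,12,0,0,13,true,false⟩,⟨2,3,9,20,20,23,false,false⟩,⟨10,11,0,13,13,11,false,false⟩,⟨9,10,2,0,11,1,false,false⟩,⟨9,8,1,2,16,14,false,false⟩,⟨10,9,11,1,14,15,false,false⟩,⟨1,2,10,9,23,22,false,false⟩,⟨0,1,18,10,22,24,false,false⟩]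 (nat_lit 7) (nat_lit 85) (by decide +kernel)
noncomputable def s856 : Raw := ⟨[(0,[10,1,2,3,4,11]),(1,[12,5,2,0,10]),(2,[6,3,0,1,5]),(3,[14,7,4,0,2,6,13,15]),(4,[17,11,0,3,7,8,9,16]),(5,[18,6,2,1,12]),(6,[19,13,3,2,5,18]),(7,[20,8,4,3,14]),(8,[21,9,4,7,20]),(9,[22,16,4,8,21])], [22,16,17,11,10,12,18,19,13,15,14,20,21], [(4,16),(4,11),(8,4),(4,3)]⟩
def c856 : RawB s856 := raw1 s856 (nat_lit 11) [⟨0,1,0,0,0,3,false,false⟩,⟨0,2,0,3,3,2,false,false⟩,⟨2,3,2,3,3,6,false,false⟩,⟨2,4,2,6,6,5,false,false⟩,⟨0,2,0,2,5,1,false,false⟩,⟨4,5,6,5,5,18,false,false⟩,⟨5,6,5,18,18,12,false,false⟩,⟨2,5,1,5,12,12,false,false⟩,⟨2,7,1,12,12,10,false,false⟩,⟨0,2,0,1,10,10,false,false⟩,⟨0,8,0,10,10,11,false,false⟩,⟨1,0,3,0,11,4,false,false⟩,⟨0,9,4,11,11,17,false,false⟩,⟨0,10,4,17,17,16,false,false⟩,⟨0,5,4,16,16,9,false,false⟩,⟨5,2,9,16,16,22,false,true⟩,⟨1,2,4,3,3,7,false,false⟩,⟨1,0,7,4,9,8,false,false⟩,⟨0,5,8,9,22,21,false,true⟩,⟨1,0,7,8,21,20,false,false⟩,⟨2,1,3,7,20,14,false,false⟩,⟨4,5,6,18,18,19,false,false⟩,⟨3,4,3,6,19,13,false,false⟩,⟨3,2,13,3,14,15,false,false⟩]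 (nat_lit 8) (nat_lit 85) (by decide +kernel)
noncomputable def s857 : Raw := ⟨[(0,[12,10,1,2,3,4,5,11]),(1,[13,6,2,0,10]),(2,[15,7,3,0,1,6,14,16]),(3,[8,4,0,2,7,17]),(4,[9,5,0,3,8]),(5,[19,11,0,4,9,18]),(6,[14,2,1,13,20]),(7,[17,3,2,15,21]),(8,[22,9,4,3,17]),(9,[18,5,4,8,22])], [13,20,14,16,15,21,17,22,18,19,11,12,10], [(6,13),(6,14),(2,16),(2,0)]⟩
def c857 : RawB s857 := raw1 s857 (nat_lit 11) [⟨0,1,4,4,4,5,false,false⟩,⟨0,2,4,5,5,9,false,false⟩,⟨2,3,5,9,9,18,false,false⟩,⟨3,4,9,18,18,22,false,false⟩,⟨0,3,4,9,22,8,false,false⟩,⟨3,5,8,22,22,17,false,false⟩,⟨0,3,4,8,17,3,false,false⟩,⟨0,1,3,4,5,0,false,false⟩,⟨3,6,3,17,17,7,false,false⟩,⟨3,7,3,7,7,2,false,false⟩,⟨0,3,0,3,2,2,false,false⟩,⟨0,3,0,2,2,1,false,false⟩,⟨3,8,1,2,2,6,false,false⟩,⟨8,9,2,6,6,14,false,false⟩,⟨9,10,6,14,14,20,false,false⟩,⟨3,9,1,6,20,13,false,true⟩,⟨8,9,2,14,14,16,false,false⟩,⟨7,8,7,2,16,15,false,false⟩,⟨7,6,15,7,17,21,false,false⟩,⟨0,3,0,1,13,10,false,true⟩,⟨2,3,5,18,18,19,false,false⟩,⟨1,2,0,5,19,11,false,false⟩,⟨0,1,10,0,11,12,false,false⟩]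 (nat_lit 13) (nat_lit 2730) (by decide +kernel)
noncomputable def s858 : Raw := ⟨[(0,[10,1,2,3,4,5]),(1,[11,6,2,0,10,12]),(2,[14,7,3,0,1,6,13,15]),(3,[17,8,4,0,2,7,16,18]),(4,[9,5,0,3,8]),(5,[10,0,4,9,19]),(6,[13,2,1,11,20]),(7,[16,3,2,14,21]),(8,[22,9,4,3,17,23]),(9,[19,5,4,8,22])], [18,17,23,22,19,10,12,11,20,13,15,14,21,16], [(6,20),(1,10),(1,11),(1,2)]⟩
def c858 : RawB s858 := raw1 s858 (nat_lit 12) [⟨0,1,0,0,0,1,false,false⟩,⟨0,2,0,1,1,2,false,false⟩,⟨2,3,2,1,1,6,false,false⟩,⟨3,4,1,6,6,11,false,false⟩,⟨4,5,6,11,11,20,false,false⟩,⟨2,4,2,6,20,13,false,false⟩,⟨3,6,1,11,11,12,false,false⟩,⟨3,7,1,12,12,10,false,false⟩,⟨1,3,0,1,10,10,false,false⟩,⟨1,3,0,10,10,5,false,false⟩,⟨3,8,5,10,10,19,false,false⟩,⟨3,9,5,19,19,9,false,false⟩,⟨1,3,0,5,9,4,false,false⟩,⟨9,10,19,9,9,22,false,false⟩,⟨3,10,4,9,22,8,false,false⟩,⟨1,3,0,4,8,3,false,false⟩,⟨0,1,2,0,3,3,false,false⟩,⟨10,11,22,8,8,23,false,false⟩,⟨3,11,3,8,23,17,false,false⟩,⟨3,1,3,17,17,18,false,true⟩,⟨0,1,3,2,2,7,false,false⟩,⟨0,3,7,3,18,16,false,true⟩,⟨2,3,2,13,13,15,false,false⟩,⟨1,2,7,2,15,14,false,false⟩,⟨1,0,14,7,16,21,false,false⟩]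 (nat_lit 14) (nat_lit 5461) (by decide +kernel)
noncomputable def s859 : Raw := ⟨[(0,[11,1,2,3,4,12]),(1,[13,5,2,0,11]),(2,[6,3,0,1,5]),(3,[15,7,4,0,2,6,14,16]),(4,[12,0,3,7,8,9,10,17]),(5,[18,6,2,1,13]),(6,[19,14,3,2,5,18]),(7,[20,8,4,3,15]),(8,[21,9,4,7,20]),(9,[22,10,4,8,21,23]),(10,[24,17,4,9,22])], [12,11,13,18,19,14,16,15,20,21,23,22,24,17], [(10,22),(10,4),(4,8),(8,21)]⟩
def c859 : RawB s859 := raw1 s859 (nat_lit 12) [⟨0,1,3,3,3,4,false,false⟩,⟨0,2,4,3,3,7,false,false⟩,⟨1,3,3,4,4,0,false,false⟩,⟨2,4,7,3,3,15,false,false⟩,⟨2,5,7,15,15,20,false,false⟩,⟨0,2,4,7,20,8,false,false⟩,⟨4,6,3,15,15,16,false,false⟩,⟨4,7,3,16,16,14,false,false⟩,⟨4,8,3,14,14,6,false,false⟩,⟨1,4,0,3,6,2,false,false⟩,⟨4,9,2,6,6,5,false,false⟩,⟨4,10,2,5,5,1,false,false⟩,⟨1,4,0,2,1,1,false,false⟩,⟨2,4,8,20,20,21,false,false⟩,⟨10,11,5,1,1,13,false,false⟩,⟨9,10,6,5,13,18,false,false⟩,⟨8,9,14,6,18,19,false,false⟩,⟨1,11,0,1,13,11,false,false⟩,⟨3,1,4,0,11,12,false,true⟩,⟨0,2,4,8,21,9,false,false⟩,⟨0,1,4,9,9,10,false,false⟩,⟨0,3,10,4,12,17,false,true⟩,⟨2,3,9,21,21,23,false,false⟩,⟨1,2,10,9,23,22,false,false⟩,⟨0,1,17,10,22,24,false,false⟩]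 (nat_lit 9) (nat_lit 170) (by decide +kernel)
noncomputable def s860 : Raw := ⟨[(0,[10,1,2,3,4,5]),(1,[11,6,2,0,10]),(2,[13,7,3,0,1,6,12,14]),(3,[16,8,4,0,2,7,15,17]),(4,[9,5,0,3,8]),(5,[10,0,4,9,18]),(6,[12,2,1,11,19]),(7,[15,3,2,13,20]),(8,[21,9,4,3,16,22]),(9,[18,5,4,8,21])], [11,19,12,14,13,20,15,17,16,22,21,18,10], [(6,1),(1,10),(3,4),(5,18)]⟩
def c860 : RawB s860 := raw1 s860 (nat_lit 11) [⟨0,1,5,5,5,9,false,false⟩,⟨0,2,5,9,9,4,false,false⟩,⟨0,3,5,4,4,0,false,false⟩,⟨0,4,5,0,0,10,false,false⟩,⟨1,0,9,5,10,18,false,false⟩,⟨3,5,4,0,0,3,false,false⟩,⟨3,2,3,4,9,8,false,false⟩,⟨2,1,8,9,18,21,false,false⟩,⟨5,6,0,3,3,2,false,false⟩,⟨5,7,2,0,0,1,false,false⟩,⟨7,4,1,0,10,10,false,false⟩,⟨6,4,2,3,3,7,false,false⟩,⟨5,8,1,2,2,6,false,false⟩,⟨5,7,6,1,10,11,false,true⟩,⟨5,10,11,6,6,19,true,false⟩,⟨8,10,2,6,19,12,false,false⟩,⟨8,9,2,12,12,14,false,false⟩,⟨6,8,7,2,14,13,false,false⟩,⟨6,7,7,13,13,20,false,false⟩,⟨4,6,3,7,20,15,false,false⟩,⟨4,5,3,15,15,17,false,false⟩,⟨3,4,8,3,17,16,false,false⟩,⟨3,2,16,8,21,22,false,false⟩]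 (nat_lit 8) (nat_lit 170) (by decide +kernel)
noncomputable def s861 : Raw := ⟨[(0,[10,1,2,3,4,11]),(1,[12,5,2,0,10]),(2,[6,3,0,1,5]),(3,[14,7,4,0,2,6,13,15]),(4,[17,11,0,3,7,8,9,16]),(5,[18,6,2,1,12]),(6,[19,13,3,2,5,18]),(7,[20,8,4,3,14]),(8,[21,9,4,7,20,22]),(9,[23,16,4,8,21])], [21,23,16,17,11,10,12,18,19,13,15,14,20,22], [(4,3),(3,13),(3,14)]⟩
def c861 : RawB s861 := raw1 s861 (nat_lit 12) [⟨0,1,3,3,3,7,false,false⟩,⟨0,2,7,3,3,4,false,false⟩,⟨2,3,4,3,3,0,false,false⟩,⟨3,4,3,0,0,2,false,false⟩,⟨4,5,2,0,0,1,false,false⟩,⟨4,6,2,1,1,5,false,false⟩,⟨3,4,3,2,5,6,false,false⟩,⟨6,7,5,1,1,12,false,false⟩,⟨5,7,0,1,12,10,false,false⟩,⟨4,6,6,5,12,18,false,false⟩,⟨5,8,0,10,10,11,false,false⟩,⟨2,5,4,0,11,11,false,false⟩,⟨0,5,7,4,4,8,false,false⟩,⟨2,9,4,11,11,17,false,false⟩,⟨2,10,4,17,17,16,false,false⟩,⟨5,2,8,4,16,9,false,false⟩,⟨2,11,9,16,16,23,false,false⟩,⟨5,2,8,9,23,21,false,true⟩,⟨1,2,7,3,3,14,false,false⟩,⟨0,1,8,7,14,20,false,false⟩,⟨0,5,20,8,21,22,false,true⟩,⟨4,5,6,18,18,19,false,false⟩,⟨3,4,3,6,19,13,false,false⟩,⟨3,2,13,3,14,15,false,false⟩]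 (nat_lit 17) (nat_lit 87381) (by decide +kernel)
noncomputable def s862 : Raw := ⟨[(0,[10,8,1,2,3,4,5,9]),(1,[11,6,2,0,8,12]),(2,[7,3,0,1,6]),(3,[13,4,0,2,7,14]),(4,[15,5,0,3,13,16]),(5,[17,9,0,4,15]),(6,[18,7,2,1,11,19]),(7,[14,3,2,6,18])], [14,13,16,15,17,9,10,8,12,11,19,18], [(5,17),(4,13),(4,15),(4,0)]⟩
def c862 : RawB s862 := raw1 s862 (nat_lit 10) [⟨0,1,14,14,14,18,false,true⟩,⟨0,2,18,14,14,7,false,false⟩,⟨0,1,18,7,7,6,false,false⟩,⟨2,3,7,14,14,3,false,false⟩,⟨2,1,3,7,6,2,false,false⟩,⟨2,4,2,3,3,0,false,false⟩,⟨2,1,0,2,6,1,false,false⟩,⟨3,8,14,3,3,13,true,false⟩,⟨4,8,0,3,13,4,false,false⟩,⟨4,7,0,4,4,5,false,false⟩,⟨4,6,0,5,5,9,false,false⟩,⟨4,5,0,9,9,10,false,false⟩,⟨2,4,1,0,10,8,false,false⟩,⟨2,3,1,8,8,12,false,false⟩,⟨8,9,4,13,13,16,false,false⟩,⟨7,8,5,4,16,15,false,false⟩,⟨6,7,9,5,15,17,false,false⟩,⟨1,2,6,1,12,11,false,false⟩,⟨1,0,11,6,18,19,false,false⟩]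 (nat_lit 9) (nat_lit 170) (by decide +kernel)
end Pool.Agent.FCT.R
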