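import Pool.Agent.Lib.MP_fe5cb4_co.FC.RawDef
set_option linter.defProp false
namespace Pool.Agent.FCT.R
open Pool.Agent.Lib.MP_fe5cb4_co.FC
noncomputable def s863 : Raw := ⟨[(0,[11,9,1,2,3,4,5,10]),(1,[12,6,2,0,9,13]),(2,[7,3,0,1,6]),(3,[15,8,4,0,2,7,14,16]),(4,[17,5,0,3,8,18]),(5,[19,10,0,4,17]),(6,[20,7,2,1,12]),(7,[14,3,2,6,20]),(8,[18,4,3,15,21])], [14,16,15,21,18,17,19,10,11,9,13,12,20], [(0,1),(1,12),(3,2)]⟩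
def c863 : RawB s863 := raw1 s863 (nat_lit 11) [⟨0,1,1,1,1,2,false,false⟩,⟨0,2,2,1,1,0,false,false⟩,⟨0,3,2,0,0,3,false,false⟩,⟨0,4,2,3,3,7,false,false⟩,⟨1,0,1,2,7,6,false,false⟩,⟨3,6,0,3,3,4,false,false⟩,⟨3,5,0,4,4,5,false,false⟩,⟨6,7,3,4,4,8,false,false⟩,⟨7,8,4,8,8,18,false,false⟩,⟨5,7,5,4,18,17,false,false⟩,⟨8,9,18,8,8,21,false,false⟩,⟨6,9,3,8,21,15,false,false⟩,⟨6,10,3,15,15,16,false,false⟩,⟨4,6,7,3,16,14,false,true⟩,⟨0,4,6,7,14,20,false,true⟩,⟨1,0,1,6,20,12,false,false⟩,⟨5,6,5,17,17,19,false,false⟩,⟨3,5,0,5,19,10,false,false⟩,⟨3,4,0,10,10,11,false,false⟩,⟨2,3,1,0,11,9,false,false⟩,⟨2,1,9,1,12,13,false,false⟩] (nat_lit 16) (nat_lit 21845) (by decide +kernel)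
noncomputable def s864 : Raw := ⟨[(0,[6,5,4,1,2,11]),(1,[12,3,2,0,4]),(2,[14,11,0,1,3,13]),(3,[13,2,1,12,15]),(5,[10,9,7,4,0,6,8,17]),(6,[18,8,5,0,11]),(7,[16,4,5,9,19]),(8,[20,17,5,6,18]),(9,[19,7,5,10,21]),(10,[21,9,5,17,22])], [12,15,13,14,11,18,20,17,22,21,19,16,4], [(3,15),(1,4),(2,13),(2,11)]⟩
def c864 : RawB s864 := raw1 s864 (nat_lit 11) [⟨0,1,0,0,0,5,false,false⟩,⟨0,2,5,0,0,4,false,false⟩,⟨1,3,5,0,0,6,false,false⟩,⟨1,4,5,6,6,8,false,false⟩,⟨4,5,6,8,8,18,false,false⟩,⟨5,6,8,18,18,20,false,false⟩,⟨1,5,5,8,20,17,false,false⟩,⟨4,7,6,18,18,11,false,false⟩,⟨4,3,11,6,0,0,false,false⟩,⟨4,8,0,11,11,2,false,false⟩,⟨4,2,2,0,4,1,false,false⟩,⟨2,3,1,4,4,12,false,true⟩,⟨1,3,5,17,17,10,false,false⟩,⟨4,9,1,2,2,3,false,false⟩,⟨4,2,3,1,12,12,false,false⟩,⟨1,2,5,10,10,9,false,false⟩,⟨4,10,12,3,3,15,true,false⟩,⟨9,10,2,3,15,13,false,false⟩,⟨8,9,11,2,13,14,false,false⟩,⟨0,1,4,5,9,7,false,false⟩,⟨3,4,10,17,17,22,false,false⟩,⟨2,3,9,10,22,21,false,false⟩,⟨1,2,7,9,21,19,false,false⟩,⟨0,1,4,7,19,16,false,false⟩]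 (nat_lit 12) (nat_lit 2730) (by decide +kernel)
noncomputable def s865 : Raw := ⟨[(0,[10,1,2,3,4,5]),(1,[11,6,2,0,10]),(2,[7,3,0,1,6]),(3,[13,8,4,0,2,7,12,14]),(4,[9,5,0,3,8]),(5,[10,0,4,9,15]),(6,[16,7,2,1,11,17]),(7,[18,12,3,2,6,16]),(8,[19,9,4,3,13,20]),(9,[15,5,4,8,19])], [11,17,16,18,12,14,13,20,19,15,10], [(1,11),(3,12),(3,13),(3,4)]⟩
def c865 : RawB s865 := raw1 s865 (nat_lit 9) [⟨0,1,4,4,4,9,false,false⟩,⟨0,2,4,9,9,8,false,false⟩,⟨0,3,4,8,8,3,false,false⟩,⟨0,4,4,3,3,0,false,false⟩,⟨0,1,0,4,9,5,false,false⟩,⟨0,5,5,0,0,10,false,false⟩,⟨1,0,9,5,10,15,false,false⟩,⟨2,1,8,9,15,19,false,false⟩,⟨5,6,10,0,0,1,false,false⟩,⟨6,4,1,0,3,2,false,false⟩,⟨5,7,1,10,10,11,false,true⟩,⟨6,5,2,1,11,6,false,false⟩,⟨4,7,3,2,2,7,false,false⟩,⟨7,6,7,2,6,6,false,false⟩,⟨4,6,3,7,7,12,false,false⟩,⟨5,8,11,6,6,17,true,false⟩,⟨7,8,7,6,17,16,false,false⟩,⟨6,7,12,7,16,18,false,false⟩,⟨4,5,3,12,12,14,false,false⟩,⟨3,4,8,3,14,13,false,false⟩,⟨3,2,13,8,19,20,false,false⟩]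 (nat_lit 4) (nat_lit 10) (by decide +kernel)
noncomputable def s866 : Raw := ⟨[(0,[13,11,1,2,3,4,5,12]),(1,[7,6,2,0,11]),(2,[14,3,0,1,6,8,15]),(3,[16,9,4,0,2,14]),(4,[10,5,0,3,9]),(5,[18,12,0,4,10,17]),(6,[20,8,2,1,7,19,21]),(7,[19,6,1,11,22]),(8,[23,15,2,6,20]),(9,[24,10,4,3,16]),(10,[17,5,4,9,24])], [21,20,23,15,14,16,24,17,18,12,13,11,22,19], [(7,11),(7,19),(2,14),(2,0)]⟩
def c866 : RawB s866 := raw1 s866 (nat_lit 12) [⟨0,1,4,4,4,9,false,false⟩,⟨0,2,4,9,9,3,false,false⟩,⟨1,3,9,4,4,10,false,false⟩,⟨3,4,4,10,10,5,false,false⟩,⟨0,3,3,4,5,0,false,false⟩,⟨0,5,0,3,3,2,false,false⟩,⟨4,6,5,10,10,17,false,false⟩,⟨1,6,9,10,17,24,false,false⟩,⟨1,7,9,24,24,16,false,false⟩,⟨2,1,3,9,16,16,false,false⟩,⟨0,1,2,0,0,1,false,false⟩,⟨2,8,3,16,16,14,false,false⟩,⟨5,2,2,3,14,14,false,false⟩,⟨5,9,2,14,14,15,false,false⟩,⟨5,10,2,15,15,8,false,false⟩,⟨0,5,1,2,8,6,false,false⟩,⟨10,11,15,8,8,23,false,false⟩,⟨5,11,6,8,23,20,false,false⟩,⟨5,2,6,20,20,21,false,true⟩,⟨1,2,1,0,0,11,false,false⟩,⟨0,1,6,1,11,7,false,false⟩,⟨0,5,7,6,21,19,false,true⟩,⟨1,0,11,7,19,22,false,false⟩,⟨4,5,5,17,17,18,false,false⟩,⟨3,4,0,5,18,12,false,false⟩,⟨2,3,11,0,12,13,false,false⟩]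 (nat_lit 8) (nat_lit 170) (by decide +kernel)
noncomputable def s867 : Raw := ⟨[(0,[9,1,2,3,4,5]),(1,[10,6,2,0,9]),(2,[7,3,0,1,6]),(3,[13,11,4,0,2,7,8,12]),(4,[14,5,0,3,11,15]),(5,[16,9,0,4,14]),(6,[17,7,2,1,10]),(7,[18,8,3,2,6,17]),(8,[19,12,3,7,18])], [14,16,9,10,17,18,19,12,13,11,15], [(0,9),(0,3),(3,8),(8,18)]⟩
def c867 : RawB s867 := raw1 s867 (nat_lit 9) [⟨0,1,2,2,2,7,false,false⟩,⟨0,2,2,7,7,3,false,false⟩,⟨2,3,3,7,7,8,false,false⟩,⟨0,4,3,2,2,0,false,false⟩,⟨1,5,2,7,7,6,false,false⟩,⟨1,6,2,6,6,1,false,false⟩,⟨1,4,1,2,0,0,false,false⟩,⟨0,4,3,0,0,4,false,false⟩,⟨6,7,6,1,1,10,false,false⟩,⟨5,6,7,6,10,17,false,false⟩,⟨1,7,0,1,10,9,false,false⟩,⟨4,1,4,0,9,5,false,false⟩,⟨3,5,8,7,17,18,false,false⟩,⟨1,8,5,9,9,16,false,false⟩,⟨4,1,4,5,16,14,false,true⟩,⟨0,1,4,3,3,11,false,false⟩,⟨0,4,11,4,14,15,false,true⟩,⟨3,4,8,18,18,19,false,false⟩,⟨2,3,3,8,19,12,false,false⟩,⟨1,2,11,3,12,13,false,false⟩]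 (nat_lit 4) (nat_lit 10) (by decide +kernel)
noncomputable def s868 : Raw := ⟨[(0,[11,9,1,2,3,4,5,10]),(1,[12,6,2,0,9,13]),(2,[14,3,0,1,6,15]),(3,[16,7,4,0,2,14]),(4,[8,5,0,3,7]),(5,[18,10,0,4,8,17]),(6,[15,2,1,12,19]),(7,[20,8,4,3,16]),(8,[17,5,4,7,20])], [15,14,16,20,17,18,10,11,9,13,12,19], [(6,12),(6,15),(2,14),(2,0)]⟩
def c868 : RawB s868 := raw1 s868 (nat_lit 10) [⟨0,1,4,4,4,8,false,false⟩,⟨0,2,4,8,8,5,false,false⟩,⟨0,3,4,5,5,0,false,false⟩,⟨1,4,8,4,4,7,false,false⟩,⟨0,4,0,4,7,3,false,false⟩,⟨3,5,0,5,5,10,false,false⟩,⟨5,6,10,5,5,18,false,false⟩,⟨2,6,8,5,18,17,false,false⟩,⟨2,7,8,17,17,20,false,false⟩,⟨1,2,7,8,20,20,false,false⟩,⟨1,8,7,20,20,16,false,false⟩,⟨4,1,3,7,16,16,false,false⟩,⟨4,9,3,16,16,14,false,false⟩,⟨0,4,0,3,14,2,false,false⟩,⟨4,1,2,14,14,15,false,true⟩,⟨0,2,2,0,0,1,false,false⟩,⟨0,4,1,2,15,6,false,false⟩,⟨0,1,6,1,1,12,false,false⟩,⟨0,4,12,6,15,19,false,true⟩,⟨3,4,0,10,10,11,false,false⟩,⟨2,3,1,0,11,9,false,false⟩,⟨2,1,9,1,12,13,false,false⟩]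 (nat_lit 7) (nat_lit 85) (by decide +kernel)
noncomputable def s869 : Raw := ⟨[(0,[12,10,1,2,3,4,5,11]),(1,[13,6,2,0,10,14]),(2,[7,3,0,1,6]),(3,[15,4,0,2,7,16]),(4,[17,8,5,0,3,15]),(5,[11,0,4,8,9,18]),(6,[19,7,2,1,13]),(7,[16,3,2,6,19]),(8,[20,9,5,4,17,21]),(9,[22,18,5,8,20])], [20,22,18,11,12,10,14,13,19,16,15,17,21], [(0,3),(3,15),(0,1),(1,13)]⟩
def c869 : RawB s869 := raw1 s869 (nat_lit 11) [⟨0,1,3,3,3,7,false,false⟩,⟨0,2,7,3,3,2,false,false⟩,⟨1,3,3,7,7,16,false,false⟩,⟨3,4,16,7,7,19,false,false⟩,⟨0,4,2,7,19,6,false,false⟩,⟨4,5,19,6,6,13,false,false⟩,⟨0,5,2,6,13,1,false,false⟩,⟨0,6,2,1,1,0,false,false⟩,⟨0,2,0,2,3,3,false,false⟩,⟨1,2,3,16,16,15,false,false⟩,⟨0,1,0,3,15,4,false,false⟩,⟨0,7,4,0,0,5,false,false⟩,⟨1,8,15,4,4,17,false,false⟩,⟨0,9,4,5,5,8,false,false⟩,⟨0,8,8,4,17,17,false,false⟩,⟨0,8,17,8,8,21,false,false⟩,⟨8,10,8,21,21,20,false,true⟩,⟨9,8,5,8,20,9,false,false⟩,⟨8,10,20,9,9,22,true,false⟩,⟨9,10,5,9,22,18,false,false⟩,⟨7,9,0,5,18,11,false,false⟩,⟨7,8,0,11,11,12,false,false⟩,⟨6,7,1,0,12,10,false,false⟩,⟨6,5,10,1,13,14,false,false⟩]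 (nat_lit 7) (nat_lit 85) (by decide +kernel)
noncomputable def s870 : Raw := ⟨[(0,[11,1,2,3,4,5,6,12]),(1,[13,7,2,0,11,14]),(2,[15,3,0,1,7,16]),(3,[17,8,4,0,2,15,18]),(4,[9,5,0,3,8,19]),(5,[10,6,0,4,9]),(6,[21,12,0,5,10,20]),(7,[16,2,1,13,22]),(8,[19,4,3,17,23]),(9,[24,10,5,4,19]),(10,[20,6,5,9,24])], [23,19,24,20,21,12,11,14,13,22,16,15,18,17], [(7,16),(1,11),(1,13),(1,2)]⟩
def c870 : RawB s870 := raw1 s870 (nat_lit 12) [⟨0,2,0,0,0,5,false,false⟩,⟨1,3,0,0,0,2,false,false⟩,⟨2,4,5,0,0,6,false,false⟩,⟨3,5,2,0,0,1,false,false⟩,⟨4,6,6,0,0,12,false,false⟩,⟨6,7,0,12,12,11,false,false⟩,⟨5,6,1,0,11,11,false,false⟩,⟨4,8,6,12,12,21,false,false⟩,⟨4,9,6,21,21,20,false,false⟩,⟨4,10,6,20,20,10,false,false⟩,⟨2,4,5,6,10,10,false,false⟩,⟨10,11,20,10,10,24,false,false⟩,⟨2,11,5,10,24,9,false,false⟩,⟨0,2,0,5,9,4,false,false⟩,⟨2,11,4,9,24,19,false,false⟩,⟨1,0,2,0,4,3,false,false⟩,⟨0,2,3,4,19,8,false,false⟩,⟨2,4,8,19,19,23,false,true⟩,⟨0,2,3,8,23,17,false,true⟩,⟨1,2,3,2,2,15,false,false⟩,⟨1,0,15,3,17,18,false,false⟩,⟨3,4,2,1,1,7,false,false⟩,⟨3,2,7,2,15,16,false,false⟩,⟨5,6,1,11,11,14,false,false⟩,⟨4,5,7,1,14,13,false,false⟩,⟨4,3,13,7,16,22,false,false⟩]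 (nat_lit 8) (nat_lit 85) (by decide +kernel)
noncomputable def s871 : Raw := ⟨[(0,[11,9,1,2,3,4,5,10]),(1,[12,6,2,0,9,13]),(2,[16,14,3,0,1,6,15]),(3,[17,7,4,0,2,14]),(4,[8,5,0,3,7]),(5,[19,10,0,4,8,18]),(6,[15,2,1,12,20]),(7,[21,8,4,3,17]),(8,[18,5,4,7,21])], [10,11,9,13,12,20,15,16,14,17,21,18,19], [(2,0),(0,10),(0,9),(3,14)]⟩
def c871 : RawB s871 := raw1 s871 (nat_lit 11) [⟨0,1,5,5,5,18,false,false⟩,⟨0,2,18,5,5,19,false,false⟩,⟨2,3,19,5,5,10,true,false⟩,⟨1,2,18,5,5,8,false,false⟩,⟨3,4,5,10,10,0,false,false⟩,⟨3,2,0,5,8,4,false,false⟩,⟨3,5,4,0,0,3,false,false⟩,⟨3,2,3,4,8,7,false,false⟩,⟨2,1,7,8,18,21,false,false⟩,⟨3,2,3,7,21,17,false,false⟩,⟨4,6,10,0,0,11,true,false⟩,⟨5,4,0,3,3,2,false,false⟩,⟨4,3,2,3,17,14,false,false⟩,⟨6,10,0,11,11,9,false,false⟩,⟨5,6,2,0,9,1,false,false⟩,⟨6,9,1,9,9,13,false,false⟩,⟨6,8,1,13,13,12,false,false⟩,⟨5,6,2,1,12,6,false,false⟩,⟨6,7,6,12,12,20,false,false⟩,⟨5,6,2,6,20,15,false,false⟩,⟨4,5,14,2,15,16,false,false⟩]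 (nat_lit 15) (nat_lit 21845) (by decide +kernel)
noncomputable def s872 : Raw := ⟨[(0,[11,9,1,2,3,10]),(1,[5,4,2,0,9]),(2,[13,6,3,0,1,4,12,14]),(3,[10,0,2,6,7,8]),(4,[16,12,2,1,5,15]),(5,[15,4,1,9,17]),(6,[18,7,3,2,13,19]),(7,[20,8,3,6,18]),(8,[21,10,3,7,20])], [20,21,10,11,9,17,15,16,12,14,13,19,18], [(0,10),(0,9),(0,2),(6,2)]⟩
def c872 : RawB s872 := raw1 s872 (nat_lit 11) [⟨0,1,2,2,2,6,false,false⟩,⟨0,2,6,2,2,3,false,false⟩,⟨0,3,6,3,3,7,false,false⟩,⟨2,5,2,3,3,0,false,false⟩,⟨2,6,2,0,0,1,false,false⟩,⟨2,4,2,1,1,4,false,false⟩,⟨6,8,1,0,0,9,false,false⟩,⟨4,6,4,1,9,5,false,false⟩,⟨6,7,5,9,9,17,false,false⟩,⟨4,6,4,5,17,15,false,false⟩,⟨8,9,9,0,0,11,false,false⟩,⟨5,9,3,0,11,10,false,false⟩,⟨3,5,7,3,10,8,false,false⟩,⟨5,10,8,10,10,21,false,false⟩,⟨3,5,7,8,21,20,false,true⟩,⟨0,3,6,7,20,18,false,true⟩,⟨4,5,4,15,15,16,false,false⟩,⟨2,4,2,4,16,12,false,false⟩,⟨2,3,2,12,12,14,false,false⟩,⟨1,2,6,2,14,13,false,false⟩,⟨1,0,13,6,18,19,false,false⟩]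 (nat_lit 8) (nat_lit 170) (by decide +kernel)
noncomputable def s873 : Raw := ⟨[(0,[13,11,1,2,3,4,5,12]),(1,[14,6,2,0,11,15]),(2,[7,3,0,1,6]),(3,[16,4,0,2,7,17]),(4,[18,8,5,0,3,16]),(5,[12,0,4,8,9,10]),(6,[19,7,2,1,14]),(7,[17,3,2,6,19]),(8,[20,9,5,4,18,21]),(9,[22,10,5,8,20,23]),(10,[24,12,5,9,22])], [22,24,12,13,11,15,14,19,17,16,18,21,20,23], [(9,23),(5,8),(8,18),(8,20)]⟩
def c873 : RawB s873 := raw1 s873 (nat_lit 12) [⟨0,1,4,4,4,16,false,false⟩,⟨0,2,16,4,4,3,false,false⟩,⟨1,3,4,16,16,18,false,false⟩,⟨0,4,3,16,16,17,false,false⟩,⟨0,5,3,17,17,7,false,false⟩,⟨0,6,3,7,7,2,false,false⟩,⟨0,7,3,2,2,0,false,false⟩,⟨0,2,0,3,4,4,false,false⟩,⟨0,2,4,0,0,5,false,false⟩,⟨7,8,2,0,0,1,false,false⟩,⟨7,6,1,2,7,6,false,false⟩,⟨6,5,6,7,17,19,false,false⟩,⟨7,6,1,6,19,14,false,false⟩,⟨0,1,5,4,18,8,false,false⟩,⟨2,9,5,0,0,12,false,false⟩,⟨2,10,12,5,5,10,false,false⟩,⟨0,10,8,5,10,9,false,false⟩,⟨2,11,10,12,12,24,false,false⟩,⟨10,2,9,10,24,22,false,true⟩,⟨1,2,8,18,18,21,false,false⟩,⟨0,1,9,8,21,20,false,false⟩,⟨0,10,20,9,22,23,false,true⟩,⟨9,10,0,12,12,13,false,false⟩,⟨8,9,1,0,13,11,false,false⟩,⟨8,7,11,1,14,15,false,false⟩]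 (nat_lit 8) (nat_lit 170) (by decide +kernel)
noncomputable def s874 : Raw := ⟨[(0,[12,10,1,2,3,4,5,11]),(1,[13,6,2,0,10,14]),(2,[7,3,0,1,6,8]),(3,[9,4,0,2,7]),(4,[15,5,0,3,9,16]),(5,[17,11,0,4,15]),(6,[18,8,2,1,13,19]),(7,[21,9,3,2,8,20]),(8,[20,7,2,6,18,22]),(9,[16,4,3,7,21])], [15,17,11,12,10,14,13,19,18,22,20,21,16], [(5,15),(5,11)]⟩
def c874 : RawB s874 := raw1 s874 (nat_lit 11) [⟨0,1,3,3,3,7,false,false⟩,⟨0,2,3,7,7,2,false,false⟩,⟨2,3,7,2,2,8,false,false⟩,⟨0,4,3,2,2,0,false,false⟩,⟨0,5,3,0,0,4,false,false⟩,⟨0,1,4,3,7,9,false,false⟩,⟨4,6,2,0,0,1,false,false⟩,⟨4,3,1,2,8,6,false,false⟩,⟨0,7,9,4,4,16,false,false⟩,⟨1,0,7,9,16,21,false,false⟩,⟨2,1,8,7,21,20,false,false⟩,⟨5,8,4,0,0,5,false,false⟩,⟨5,7,5,4,16,15,false,true⟩,⟨5,10,15,5,5,17,true,false⟩,⟨8,10,0,5,17,11,false,false⟩,⟨8,9,0,11,11,12,false,false⟩,⟨6,8,1,0,12,10,false,false⟩,⟨6,7,1,10,10,14,false,false⟩,⟨4,6,6,1,14,13,false,false⟩,⟨4,5,6,13,13,19,false,false⟩,⟨3,4,8,6,19,18,false,false⟩,⟨3,2,18,8,20,22,false,false⟩]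 (nat_lit 6) (nat_lit 42) (by decide +kernel)
noncomputable def s875 : Raw := ⟨[(0,[11,9,1,2,3,4,5,10]),(1,[12,6,2,0,9,13]),(2,[7,3,0,1,6,8]),(3,[14,4,0,2,7,15]),(4,[16,5,0,3,14,17]),(5,[18,10,0,4,16]),(6,[19,8,2,1,12,20]),(7,[15,3,2,8,21]),(8,[21,7,2,6,19])], [20,19,21,15,14,17,16,18,10,11,9,13,12], [(5,16),(5,0),(0,3),(3,14)]⟩
def c875 : RawB s875 := raw1 s875 (nat_lit 11) [⟨0,1,0,0,0,2,false,false⟩,⟨0,2,2,0,0,3,false,false⟩,⟨2,3,0,3,3,4,false,false⟩,⟨2,4,0,4,4,5,false,false⟩,⟨4,5,5,4,4,16,false,false⟩,⟨5,6,4,16,16,17,false,false⟩,⟨5,7,4,17,17,14,false,false⟩,⟨5,3,14,4,3,3,false,false⟩,⟨5,8,3,14,14,15,false,false⟩,⟨0,5,2,3,15,7,false,false⟩,⟨0,3,2,7,7,8,false,false⟩,⟨5,9,7,15,15,21,false,false⟩,⟨3,5,8,7,21,21,false,false⟩,⟨3,10,8,21,21,19,false,false⟩,⟨0,3,2,8,19,6,false,false⟩,⟨1,0,0,2,6,1,false,false⟩,⟨3,5,6,19,19,20,false,true⟩,⟨0,3,1,6,20,12,false,true⟩,⟨4,5,5,16,16,18,false,false⟩,⟨2,4,0,5,18,10,false,false⟩,⟨2,3,0,10,10,11,false,false⟩,⟨1,2,1,0,11,9,false,false⟩,⟨1,0,9,1,12,13,false,false⟩]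 (nat_lit 7) (nat_lit 85) (by decide +kernel)
noncomputable def s876 : Raw := ⟨[(0,[11,9,1,2,3,4,5,10]),(1,[12,6,2,0,9,13]),(2,[14,3,0,1,6]),(3,[15,7,4,0,2,14]),(4,[8,5,0,3,7,16]),(5,[18,10,0,4,8,17]),(6,[14,2,1,12,19]),(7,[16,4,3,15,20]),(8,[17,5,4,16,21])], [12,19,14,15,20,16,21,17,18,10,11,9,13], [(6,1),(0,10),(0,9),(0,3)]⟩
def c876 : RawB s876 := raw1 s876 (nat_lit 11) [⟨0,1,3,3,3,4,false,false⟩,⟨0,2,3,4,4,0,false,false⟩,⟨2,3,0,4,4,5,false,false⟩,⟨3,4,5,4,4,8,false,false⟩,⟨4,5,4,8,8,16,false,false⟩,⟨1,4,3,4,16,7,false,false⟩,⟨5,6,8,16,16,21,false,false⟩,⟨3,5,5,8,21,17,false,false⟩,⟨4,7,7,16,16,20,false,false⟩,⟨4,8,7,20,20,15,false,false⟩,⟨1,4,3,7,15,15,false,false⟩,⟨1,9,3,15,15,14,false,false⟩,⟨0,1,0,3,14,2,false,false⟩,⟨1,4,14,2,2,6,false,false⟩,⟨0,4,0,2,6,1,false,false⟩,⟨1,10,6,14,14,19,false,false⟩,⟨4,1,1,6,19,12,false,true⟩,⟨0,1,1,0,0,9,false,false⟩,⟨0,4,9,1,12,13,false,true⟩,⟨3,4,5,17,17,18,false,false⟩,⟨2,3,0,5,18,10,false,false⟩,⟨1,2,9,0,10,11,false,false⟩]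 (nat_lit 10) (nat_lit 341) (by decide +kernel)
end Pool.Agent.FCT.R
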