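import Pool.Agent.Lib.MP_fe5cb4_co.FC.RawDef
set_option linter.defProp false
namespace Pool.Agent.FCT.R
open Pool.Agent.Lib.MP_fe5cb4_co.FC
noncomputable def s877 : Raw := ⟨[(0,[8,1,2,3,4,9]),(1,[10,6,5,2,0,8]),(2,[13,11,3,0,1,5,7,12]),(3,[14,4,0,2,11,15]),(4,[16,9,0,3,14]),(5,[18,7,2,1,6,17]),(6,[17,5,1,10,19]),(7,[20,12,2,5,18])], [9,8,10,19,17,18,20,12,13,11,15,14,16], [(4,9),(4,3),(0,8),(0,2)]⟩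
def c877 : RawB s877 := raw1 s877 (nat_lit 11) [⟨0,1,5,5,5,7,false,false⟩,⟨0,2,5,7,7,2,false,false⟩,⟨2,3,7,2,2,12,false,false⟩,⟨0,4,2,5,5,1,false,false⟩,⟨2,5,7,12,12,20,false,false⟩,⟨2,6,7,20,20,18,false,false⟩,⟨1,2,5,7,18,18,false,false⟩,⟨1,7,5,18,18,17,false,false⟩,⟨4,1,1,5,17,6,false,false⟩,⟨1,8,6,17,17,19,false,false⟩,⟨1,9,6,19,19,10,false,false⟩,⟨4,1,1,6,10,10,false,false⟩,⟨4,10,1,10,10,8,false,false⟩,⟨0,4,2,1,8,0,false,false⟩,⟨0,2,0,2,2,3,false,false⟩,⟨0,1,0,3,3,4,false,false⟩,⟨0,4,4,0,8,9,false,true⟩,⟨0,4,4,9,9,16,false,true⟩,⟨1,0,3,4,16,14,false,false⟩,⟨3,4,2,12,12,13,false,false⟩,⟨2,3,3,2,13,11,false,false⟩,⟨2,1,11,3,14,15,false,false⟩] (nat_lit 15) (nat_lit 10922) (by decide +kernel)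
noncomputable def s878 : Raw := ⟨[(0,[9,7,1,2,3,8]),(1,[10,2,0,7,11]),(2,[12,5,4,3,0,1,10,13]),(3,[8,0,2,4,6,14]),(4,[6,3,2,5,15]),(5,[15,4,2,12,16]),(6,[17,14,3,4,15])], [8,9,7,11,10,13,12,16,15,17,14], [(0,8),(0,7),(0,2),(3,4)]⟩
def c878 : RawB s878 := raw1 s878 (nat_lit 9) [⟨0,1,6,6,6,15,false,false⟩,⟨0,2,6,15,15,4,false,false⟩,⟨0,3,6,4,4,3,false,false⟩,⟨0,4,6,3,3,14,false,false⟩,⟨0,1,14,6,15,17,false,false⟩,⟨4,5,3,14,14,8,false,true⟩,⟨4,5,3,8,8,0,false,false⟩,⟨4,3,0,3,4,2,false,false⟩,⟨3,2,2,4,15,5,false,false⟩,⟨5,6,8,0,0,9,true,false⟩,⟨6,8,0,9,9,7,false,false⟩,⟨4,6,2,0,7,1,false,false⟩,⟨6,7,1,7,7,11,false,false⟩,⟨4,6,2,1,11,10,false,false⟩,⟨4,5,2,10,10,13,false,false⟩,⟨3,4,5,2,13,12,false,false⟩,⟨3,2,12,5,15,16,false,false⟩] (nat_lit 9) (nat_lit 170) (by decide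 +kernel)
noncomputable def s879 : Raw := ⟨[(0,[8,7,6,5,4,1,2,11]),(1,[12,3,2,0,4]),(2,[11,0,1,3,13]),(3,[13,2,1,12,14]),(5,[15,4,0,6,9,16]),(6,[9,5,0,7,10]),(7,[18,10,6,0,8,17]),(8,[17,7,0,11,19]),(9,[16,5,6,10,20]),(10,[20,9,6,7,18])], [12,14,13,11,19,17,18,20,16,15,4], [(3,12),(3,13),(1,4)]⟩
def c879 : RawB s879 := raw1 s879 (nat_lit 9) [⟨0,1,0,0,0,8,false,false⟩,⟨0,2,0,8,8,11,false,false⟩,⟨1,3,0,8,8,7,false,false⟩,⟨0,4,0,11,11,2,false,false⟩,⟨3,5,7,8,8,17,false,false⟩,⟨2,6,8,11,11,19,false,false⟩,⟨5,2,17,8,19,19,false,false⟩,⟨0,2,0,2,2,1,false,false⟩,⟨4,7,2,11,11,13,false,false⟩,⟨2,4,1,2,13,3,false,false⟩,⟨4,8,3,13,13,14,false,false⟩,⟨2,4,1,3,14,12,false,true⟩,⟨0,2,0,1,12,4,false,true⟩,⟨1,2,0,7,7,6,false,false⟩,⟨0,1,4,0,6,5,false,false⟩,⟨3,4,7,17,17,18,false,false⟩,⟨2,3,6,7,18,10,false,false⟩,⟨1,2,5,6,10,9,false,false⟩,⟨2,3,9,10,18,20,false,false⟩,⟨1,2,5,9,20,16,false,false⟩,⟨0,1,4,5,16,15,false,false⟩]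 (nat_lit 6) (nat_lit 42) (by decide +kernel)
noncomputable def s880 : Raw := ⟨[(0,[12,10,1,2,3,4,5,11]),(1,[13,6,2,0,10,14]),(2,[7,3,0,1,6]),(3,[16,8,4,0,2,7,15,17]),(4,[9,5,0,3,8]),(5,[19,11,0,4,9,18]),(6,[20,7,2,1,13]),(7,[21,15,3,2,6,20]),(8,[22,9,4,3,16]),(9,[18,5,4,8,22])], [18,19,11,12,10,14,13,20,21,15,17,16,22], [(0,3),(3,15),(3,16),(7,20)]⟩
def c880 : RawB s880 := raw1 s880 (nat_lit 11) [⟨0,1,2,2,2,7,false,false⟩,⟨0,2,2,7,7,3,false,false⟩,⟨1,3,2,7,7,6,false,false⟩,⟨0,5,3,2,2,0,false,false⟩,⟨0,4,3,0,0,4,false,false⟩,⟨5,6,2,0,0,1,false,false⟩,⟨5,1,1,2,6,6,false,false⟩,⟨0,1,4,3,3,8,false,false⟩,⟨4,7,4,0,0,5,false,false⟩,⟨4,0,5,4,8,9,false,false⟩,⟨7,8,5,0,0,11,false,false⟩,⟨8,9,0,11,11,12,false,false⟩,⟨6,8,1,0,12,10,false,false⟩,⟨7,10,5,11,11,19,false,false⟩,⟨4,7,9,5,19,18,false,true⟩,⟨0,4,8,9,18,22,false,true⟩,⟨1,0,3,8,22,16,false,false⟩,⟨6,7,1,10,10,14,false,false⟩,⟨5,6,6,1,14,13,false,false⟩,⟨3,5,7,6,13,20,false,false⟩,⟨3,4,7,20,20,21,false,false⟩,⟨2,3,3,7,21,15,false,false⟩,⟨2,1,15,3,16,17,false,false⟩]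 (nat_lit 9) (nat_lit 170) (by decide +kernel)
noncomputable def s881 : Raw := ⟨[(0,[12,10,1,2,3,4,5,11]),(1,[13,6,2,0,10]),(2,[7,3,0,1,6]),(3,[15,8,4,0,2,7,14,16]),(4,[9,5,0,3,8]),(5,[18,11,0,4,9,17]),(6,[19,7,2,1,13]),(7,[20,14,3,2,6,19]),(8,[21,9,4,3,15]),(9,[17,5,4,8,21])], [17,18,11,12,10,13,19,20,14,16,15,21], [(0,3),(3,14),(3,15),(1,6)]⟩
def c881 : RawB s881 := raw1 s881 (nat_lit 10) [⟨0,1,0,0,0,2,false,false⟩,⟨0,2,0,2,2,1,false,false⟩,⟨2,3,2,1,1,6,false,false⟩,⟨0,4,0,1,1,10,false,false⟩,⟨4,6,1,10,10,13,false,false⟩,⟨3,4,6,1,13,13,false,false⟩,⟨0,7,0,10,10,12,false,false⟩,⟨0,8,0,12,12,11,false,false⟩,⟨0,4,0,11,11,5,false,false⟩,⟨4,9,5,11,11,18,false,false⟩,⟨4,5,5,18,18,17,false,true⟩,⟨3,5,6,13,13,19,false,false⟩,⟨2,3,2,6,19,7,false,false⟩,⟨1,2,0,2,7,3,false,false⟩,⟨1,0,3,0,5,4,false,false⟩,⟨0,4,4,5,17,9,false,false⟩,⟨1,0,3,4,9,8,false,false⟩,⟨0,4,8,9,17,21,false,true⟩,⟨1,0,3,8,21,15,false,false⟩,⟨3,4,7,19,19,20,false,false⟩,⟨2,3,3,7,20,14,false,false⟩,⟨2,1,14,3,15,16,false,false⟩]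 (nat_lit 7) (nat_lit 42) (by decide +kernel)
noncomputable def s882 : Raw := ⟨[(0,[8,7,6,5,4,1,2,11]),(1,[12,3,2,0,4]),(2,[14,11,0,1,3,13]),(3,[13,2,1,12,15]),(5,[16,4,0,6,17]),(6,[17,5,0,7,9,18]),(7,[9,6,0,8,10]),(8,[19,10,7,0,11,20]),(9,[18,6,7,10,21]),(10,[21,9,7,8,19])], [14,11,20,19,21,18,17,16,4,12,15,13], [(3,12),(3,13),(0,11),(0,4)]⟩
def c882 : RawB s882 := raw1 s882 (nat_lit 10) [⟨0,1,6,6,6,7,false,false⟩,⟨0,2,7,6,6,0,false,false⟩,⟨2,3,0,6,6,5,false,false⟩,⟨3,4,5,6,6,17,false,false⟩,⟨4,5,6,17,17,18,false,false⟩,⟨1,4,7,6,18,9,false,false⟩,⟨4,6,9,18,18,21,false,false⟩,⟨1,4,7,9,21,10,false,false⟩,⟨4,7,10,21,21,19,false,false⟩,⟨4,8,10,19,19,8,false,false⟩,⟨1,4,7,10,8,8,false,false⟩,⟨0,1,0,7,8,8,false,false⟩,⟨8,9,19,8,8,20,false,false⟩,⟨0,9,0,8,20,11,false,false⟩,⟨0,1,11,0,0,2,false,false⟩,⟨0,4,2,11,11,14,false,true⟩,⟨0,4,2,14,14,13,false,true⟩,⟨3,4,5,17,17,16,false,false⟩,⟨2,3,0,5,16,4,false,false⟩,⟨1,2,2,0,4,1,false,false⟩,⟨1,0,1,2,13,3,false,false⟩,⟨1,2,3,1,4,12,false,false⟩,⟨1,0,12,3,13,15,false,false⟩]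 (nat_lit 6) (nat_lit 21) (by decide +kernel)
noncomputable def s883 : Raw := ⟨[(0,[10,1,2,3,4,5,6,11]),(1,[12,7,2,0,10,13]),(2,[8,3,0,1,7]),(3,[9,4,0,2,8,14]),(4,[17,15,5,0,3,9,16]),(5,[18,6,0,4,15,19]),(6,[20,11,0,5,18]),(7,[21,8,2,1,12]),(8,[14,3,2,7,21]),(9,[16,4,3,14,22])], [10,13,12,21,14,22,16,17,15,19,18,20,11], [(0,4),(4,17),(9,14),(9,16)]⟩
def c883 : RawB s883 := raw1 s883 (nat_lit 11) [⟨0,1,0,0,0,4,false,false⟩,⟨0,2,0,4,4,5,false,false⟩,⟨1,3,4,0,0,3,false,false⟩,⟨2,4,5,4,4,15,false,false⟩,⟨4,5,15,4,4,17,false,false⟩,⟨5,6,17,4,4,16,false,false⟩,⟨1,6,3,4,16,9,false,false⟩,⟨6,7,16,9,9,22,false,false⟩,⟨1,7,3,9,22,14,false,false⟩,⟨1,8,3,14,14,8,false,false⟩,⟨3,1,0,3,8,2,false,false⟩,⟨8,9,14,8,8,21,false,false⟩,⟨1,9,2,8,21,7,false,false⟩,⟨3,1,0,2,7,1,false,false⟩,⟨1,9,1,7,21,12,false,false⟩,⟨1,10,1,12,12,13,false,false⟩,⟨3,1,0,1,13,10,false,true⟩,⟨0,1,0,5,5,6,false,false⟩,⟨0,3,6,0,10,11,false,true⟩,⟨2,3,5,15,15,19,false,false⟩,⟨1,2,6,5,19,18,false,false⟩,⟨0,1,11,6,18,20,false,false⟩]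 (nat_lit 9) (nat_lit 341) (by decide +kernel)
noncomputable def s884 : Raw := ⟨[(0,[10,1,2,3,4,11]),(1,[12,5,2,0,10]),(2,[13,3,0,1,5]),(3,[14,7,6,4,0,2,13,15]),(4,[11,0,3,6,8,9,16]),(5,[13,2,1,12,17]),(6,[19,8,4,3,7,18]),(7,[18,6,3,14,20]),(8,[21,9,4,6,19,22]),(9,[23,16,4,8,21])], [17,13,15,14,20,18,19,22,21,23,16,11,10,12], [(2,13),(2,0),(0,11),(4,6)]⟩
def c884 : RawB s884 := raw1 s884 (nat_lit 12) [⟨0,1,0,0,0,1,false,false⟩,⟨0,2,1,0,0,2,false,false⟩,⟨2,5,0,2,2,3,false,false⟩,⟨2,3,0,3,3,4,false,false⟩,⟨3,8,4,3,3,6,false,false⟩,⟨3,4,4,6,6,8,false,false⟩,⟨4,7,8,6,6,19,false,false⟩,⟨8,9,6,3,3,7,false,false⟩,⟨8,7,7,6,19,18,false,false⟩,⟨5,10,2,3,3,13,false,false⟩,⟨0,5,1,2,13,5,false,false⟩,⟨5,6,5,13,13,17,false,true⟩,⟨0,5,1,5,17,12,false,true⟩,⟨4,6,8,19,19,22,false,false⟩,⟨4,5,8,22,22,21,false,false⟩,⟨10,11,3,13,13,15,false,false⟩,⟨9,10,7,3,15,14,false,false⟩,⟨9,8,14,7,18,20,false,false⟩,⟨3,4,4,8,21,9,false,false⟩,⟨1,0,0,1,12,10,false,false⟩,⟨2,1,4,0,10,11,false,false⟩,⟨3,2,9,4,11,16,false,false⟩,⟨3,4,16,9,21,23,false,false⟩]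 (nat_lit 16) (nat_lit 43690) (by decide +kernel)
noncomputable def s885 : Raw := ⟨[(0,[13,11,1,2,3,4,5,12]),(1,[14,6,2,0,11,15]),(2,[7,3,0,1,6]),(3,[8,4,0,2,7,16]),(4,[9,5,0,3,8]),(5,[18,12,0,4,9,10,17]),(6,[19,7,2,1,14]),(7,[16,3,2,6,19]),(8,[20,9,4,3,16]),(9,[21,10,5,4,8,20,22]),(10,[23,17,5,9,21])], [21,23,17,18,12,13,11,15,14,19,16,20,22], [(5,4),(0,3),(3,16),(0,1)]⟩
def c885 : RawB s885 := raw1 s885 (nat_lit 11) [⟨0,1,6,6,6,7,false,false⟩,⟨0,2,6,7,7,19,false,false⟩,⟨0,3,6,19,19,14,false,false⟩,⟨0,4,6,14,14,1,false,false⟩,⟨0,1,1,6,7,2,false,false⟩,⟨0,5,2,1,1,0,false,false⟩,⟨0,1,0,2,7,3,false,false⟩,⟨1,2,3,7,19,16,false,false⟩,⟨0,6,3,0,0,4,false,false⟩,⟨0,1,4,3,16,8,false,false⟩,⟨1,7,16,8,8,20,false,false⟩,⟨0,8,8,4,4,9,false,false⟩,⟨6,8,0,4,9,5,false,false⟩,⟨0,7,9,8,20,20,false,false⟩,⟨0,7,20,9,9,22,false,false⟩,⟨7,9,9,22,22,21,false,true⟩,⟨8,7,5,9,21,10,false,false⟩,⟨7,10,21,10,10,23,true,false⟩,⟨8,10,5,10,23,17,false,false⟩,⟨8,9,5,17,17,18,false,false⟩,⟨6,8,0,5,18,12,false,false⟩,⟨6,7,0,12,12,13,false,false⟩,⟨5,6,1,0,13,11,false,false⟩,⟨5,4,11,1,14,15,false,false⟩]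 (nat_lit 7) (nat_lit 42) (by decide +kernel)
noncomputable def s886 : Raw := ⟨[(0,[13,11,1,2,3,4,5,12]),(1,[14,6,2,0,11]),(2,[15,3,0,1,6,16]),(3,[17,8,7,4,0,2,15]),(4,[9,5,0,3,7,18]),(5,[12,0,4,9,10]),(6,[16,2,1,14,19]),(7,[21,18,4,3,8,20]),(8,[20,7,3,17,22]),(9,[23,10,5,4,18]),(10,[24,12,5,9,23])], [12,13,11,14,19,16,15,17,22,20,21,18,23,24], [(3,15),(0,3),(3,7),(7,18)]⟩
def c886 : RawB s886 := raw1 s886 (nat_lit 12) [⟨0,1,12,12,12,24,false,true⟩,⟨0,2,24,12,12,10,false,false⟩,⟨0,1,24,10,10,23,false,false⟩,⟨2,3,10,12,12,5,false,false⟩,⟨2,1,5,10,23,9,false,false⟩,⟨2,4,9,5,5,4,false,false⟩,⟨2,1,4,9,23,18,false,false⟩,⟨3,5,5,12,12,0,false,false⟩,⟨3,4,0,5,4,4,false,false⟩,⟨3,7,4,0,0,3,false,false⟩,⟨3,2,3,4,18,7,false,false⟩,⟨3,4,7,3,3,8,false,false⟩,⟨4,6,8,3,3,17,false,false⟩,⟨7,9,3,0,0,2,false,false⟩,⟨7,6,2,3,17,15,false,false⟩,⟨7,8,15,2,2,16,false,false⟩,⟨5,10,12,0,0,13,true,false⟩,⟨4,5,8,17,17,22,false,false⟩,⟨10,11,0,13,13,11,false,false⟩,⟨9,10,2,0,11,1,false,false⟩,⟨9,8,1,2,16,6,false,false⟩,⟨9,10,6,1,11,14,false,false⟩,⟨9,8,14,6,16,19,false,false⟩,⟨3,4,7,8,22,20,false,false⟩,⟨2,3,18,7,20,21,false,false⟩]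 (nat_lit 10) (nat_lit 341) (by decide +kernel)
noncomputable def s887 : Raw := ⟨[(0,[12,10,1,2,3,4,5,11]),(1,[13,6,2,0,10,14]),(2,[15,3,0,1,6]),(3,[16,8,7,4,0,2,15,17]),(4,[9,5,0,3,7]),(5,[11,0,4,9,18]),(6,[15,2,1,13,19]),(7,[21,9,4,3,8,20]),(8,[20,7,3,16,22]),(9,[18,5,4,7,21])], [15,17,16,22,20,21,18,11,12,10,14,13,19], [(0,11),(0,10),(0,3),(5,18)]⟩
def c887 : RawB s887 := raw1 s887 (nat_lit 11) [⟨0,1,15,15,15,19,false,true⟩,⟨0,1,19,15,15,6,false,false⟩,⟨1,3,6,15,15,2,false,false⟩,⟨1,2,6,2,2,1,false,false⟩,⟨3,4,2,15,15,3,false,false⟩,⟨2,3,1,2,3,0,false,false⟩,⟨3,7,0,3,3,4,false,false⟩,⟨3,6,0,4,4,5,false,false⟩,⟨3,5,0,5,5,11,false,false⟩,⟨7,8,4,3,3,7,false,false⟩,⟨6,7,5,4,7,9,false,false⟩,⟨6,5,9,5,11,18,false,false⟩,⟨7,6,7,9,18,21,false,false⟩,⟨4,9,15,3,3,17,true,false⟩,⟨3,4,0,11,11,12,false,false⟩,⟨9,10,3,17,17,16,false,false⟩,⟨8,9,7,3,16,8,false,false⟩,⟨8,7,8,7,21,20,false,false⟩,⟨9,8,16,8,20,22,false,false⟩,⟨2,3,1,0,12,10,false,false⟩,⟨1,0,1,6,19,13,false,false⟩,⟨2,1,10,1,13,14,false,false⟩]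 (nat_lit 7) (nat_lit 85) (by decide +kernel)
noncomputable def s888 : Raw := ⟨[(0,[10,1,2,3,4,5,6,11]),(1,[12,2,0,10,13]),(2,[14,8,7,3,0,1,12,15]),(3,[9,4,0,2,7]),(4,[16,5,0,3,9]),(5,[17,6,0,4,16,18]),(6,[19,11,0,5,17]),(7,[21,9,3,2,8,20]),(8,[20,7,2,14,22]),(9,[16,4,3,7,21])], [13,12,15,14,22,20,21,16,18,17,19,11,10], [(5,16),(5,17),(5,0)]⟩
def c888 : RawB s888 := raw1 s888 (nat_lit 11) [⟨0,1,0,0,0,5,false,false⟩,⟨0,2,0,5,5,4,false,false⟩,⟨2,3,5,4,4,16,false,false⟩,⟨3,5,4,16,16,9,false,false⟩,⟨3,6,4,9,9,3,false,false⟩,⟨0,3,0,4,3,3,false,false⟩,⟨6,7,9,3,3,7,false,false⟩,⟨6,5,7,9,16,21,false,false⟩,⟨0,7,0,3,7,2,false,false⟩,⟨0,4,0,2,2,1,false,false⟩,⟨0,3,0,1,1,10,false,false⟩,⟨7,8,7,2,2,8,false,false⟩,⟨7,6,8,7,21,20,false,false⟩,⟨4,9,1,2,2,12,false,false⟩,⟨3,4,10,1,12,13,true,true⟩,⟨2,4,5,16,16,18,false,false⟩,⟨2,3,5,18,18,17,false,false⟩,⟨1,2,0,5,17,6,false,false⟩,⟨9,10,2,12,12,15,false,false⟩,⟨8,9,8,2,15,14,false,false⟩,⟨8,7,14,8,20,22,false,false⟩,⟨1,0,6,0,10,11,false,false⟩,⟨1,2,11,6,17,19,false,false⟩]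 (nat_lit 7) (nat_lit 42) (by decide +kernel)
noncomputable def s889 : Raw := ⟨[(0,[8,7,6,5,4,1,2,11]),(1,[12,3,2,0,4]),(2,[14,11,0,1,3,13]),(3,[13,2,1,12,15]),(5,[16,4,0,6,9,17]),(6,[9,5,0,7,10]),(7,[19,10,6,0,8,18]),(8,[18,7,0,11,20]),(9,[17,5,6,10,21]),(10,[21,9,6,7,19])], [15,13,14,11,20,18,19,21,17,16,4,12], [(3,15),(1,12),(2,13),(1,2)]⟩
def c889 : RawB s889 := raw1 s889 (nat_lit 10) [⟨0,1,0,0,0,4,false,false⟩,⟨0,2,4,0,0,1,false,false⟩,⟨0,3,4,1,1,12,false,false⟩,⟨3,4,12,1,1,3,false,false⟩,⟨2,4,0,1,3,2,false,false⟩,⟨4,8,3,2,2,13,false,false⟩,⟨3,4,12,3,13,15,true,true⟩,⟨8,9,2,13,13,14,false,false⟩,⟨2,8,0,2,14,11,false,false⟩,⟨2,4,0,11,11,8,false,false⟩,⟨4,7,8,11,11,20,false,false⟩,⟨4,6,8,20,20,18,false,false⟩,⟨2,4,0,8,18,7,false,false⟩,⟨2,3,0,7,7,6,false,false⟩,⟨1,2,4,0,6,5,false,false⟩,⟨4,5,7,18,18,19,false,false⟩,⟨3,4,6,7,19,10,false,false⟩,⟨2,3,5,6,10,9,false,false⟩,⟨3,4,9,10,19,21,false,false⟩,⟨2,3,5,9,21,17,false,false⟩,⟨1,2,4,5,17,16,false,false⟩]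 (nat_lit 6) (nat_lit 42) (by decide +kernel)
noncomputable def s890 : Raw := ⟨[(0,[13,11,1,2,3,4,5,12]),(1,[14,6,2,0,11,15]),(2,[7,3,0,1,6]),(3,[8,4,0,2,7,16]),(4,[9,5,0,3,8]),(5,[18,12,0,4,9,10,17]),(6,[19,7,2,1,14]),(7,[16,3,2,6,19]),(8,[20,9,4,3,16]),(9,[21,10,5,4,8,20]),(10,[22,17,5,9,21])], [21,22,17,18,12,13,11,15,14,19,16,20], [(10,9),(9,20),(9,4),(4,3)]⟩
def c890 : RawB s890 := raw1 s890 (nat_lit 10) [⟨0,1,6,6,6,19,false,false⟩,⟨0,2,6,19,19,14,false,false⟩,⟨0,3,6,14,14,1,false,false⟩,⟨0,4,6,1,1,2,false,false⟩,⟨0,1,2,6,19,7,false,false⟩,⟨0,5,7,2,2,3,false,false⟩,⟨4,5,1,2,3,0,false,false⟩,⟨0,1,3,7,19,16,false,false⟩,⟨0,6,16,3,3,8,false,false⟩,⟨5,6,0,3,8,4,false,false⟩,⟨6,7,8,4,4,9,false,false⟩,⟨6,0,9,8,16,20,false,false⟩,⟨5,7,0,4,9,5,false,false⟩,⟨6,8,9,20,20,21,false,true⟩,⟨6,8,21,9,9,10,false,false⟩,⟨8,7,10,9,5,5,false,false⟩,⟨5,7,0,5,5,12,false,false⟩,⟨6,9,21,10,10,22,true,false⟩,⟨8,9,5,10,22,17,false,false⟩,⟨7,8,12,5,17,18,false,false⟩,⟨5,6,0,12,12,13,false,false⟩,⟨4,5,1,0,13,11,false,false⟩,⟨4,3,11,1,14,15,false,false⟩]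 (nat_lit 4) (nat_lit 10) (by decide +kernel)
noncomputable def s891 : Raw := ⟨[(0,[11,9,1,2,3,4,5,10]),(1,[12,6,2,0,9]),(2,[13,3,0,1,6,14]),(3,[7,4,0,2,13]),(4,[16,8,5,0,3,7,15]),(5,[18,10,0,4,8,17]),(6,[14,2,1,12,19]),(7,[15,4,3,13,20]),(8,[17,5,4,16,21])], [14,13,20,15,16,21,17,18,10,11,9,12,19], [(3,13),(0,3)]⟩
def c891 : RawB s891 := raw1 s891 (nat_lit 11) [⟨0,1,14,14,14,19,false,true⟩,⟨0,1,19,14,14,6,false,false⟩,⟨1,2,6,14,14,2,false,false⟩,⟨2,3,14,2,2,13,true,false⟩,⟨1,2,6,2,2,1,false,false⟩,⟨1,0,1,6,19,12,false,false⟩,⟨3,4,2,13,13,3,false,false⟩,⟨2,3,1,2,3,0,false,false⟩,⟨2,1,0,1,12,9,false,false⟩,⟨4,9,3,13,13,7,false,false⟩,⟨3,4,0,3,7,4,false,false⟩,⟨9,10,7,13,13,20,false,false⟩,⟨4,9,4,7,20,15,false,false⟩,⟨4,8,4,15,15,16,false,false⟩,⟨4,6,4,16,16,8,false,false⟩,⟨3,4,0,4,8,5,false,false⟩,⟨6,7,8,16,16,21,false,false⟩,⟨4,6,5,8,21,17,false,false⟩,⟨4,5,5,17,17,18,false,false⟩,⟨3,4,0,5,18,10,false,false⟩,⟨2,3,9,0,10,11,false,false⟩]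 (nat_lit 10) (nat_lit 341) (by decide +kernel)
noncomputable def s892 : Raw := ⟨[(0,[9,1,2,3,4,5]),(1,[10,6,2,0,9,11]),(2,[13,7,3,0,1,6,12,14]),(3,[15,4,0,2,7,8]),(4,[16,5,0,3,15]),(5,[17,9,0,4,16]),(6,[12,2,1,10,18]),(7,[19,8,3,2,13,20]),(8,[21,15,3,7,19])], [9,11,10,18,12,14,13,20,19,21,15,16,17], [(0,9),(4,0),(0,2)]⟩
def c892 : RawB s892 := raw1 s892 (nat_lit 11) [⟨0,1,4,4,4,15,false,false⟩,⟨0,2,4,15,15,3,false,false⟩,⟨0,3,4,3,3,0,false,false⟩,⟨0,4,4,0,0,5,false,false⟩,⟨0,1,5,4,15,16,false,false⟩,⟨4,5,5,0,0,9,false,false⟩,⟨4,0,9,5,16,17,true,false⟩,⟨5,6,9,0,0,1,false,false⟩,⟨6,3,1,0,3,2,false,false⟩,⟨3,4,3,2,2,7,false,false⟩,⟨6,9,2,1,1,6,false,false⟩,⟨6,8,2,6,6,12,false,false⟩,⟨5,10,9,1,1,11,true,false⟩,⟨9,10,6,1,11,10,false,false⟩,⟨9,8,10,6,12,18,false,false⟩,⟨3,2,7,3,15,8,false,false⟩,⟨6,7,2,12,12,14,false,false⟩,⟨4,6,7,2,14,13,false,false⟩,⟨4,5,7,13,13,20,false,false⟩,⟨3,4,8,7,20,19,false,false⟩,⟨2,3,15,8,19,21,false,false⟩]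 (nat_lit 9) (nat_lit 170) (by decide +kernel)
end Pool.Agent.FCT.R
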