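import Pool.Agent.Lib.MP_fe5cb4_co.FC.RawDef
set_option linter.defProp false
namespace Pool.Agent.FCT.R
open Pool.Agent.Lib.MP_fe5cb4_co.FC
noncomputable def s938 : Raw := ⟨[(0,[11,9,1,2,3,4,5,10]),(1,[12,6,2,0,9,13]),(2,[14,3,0,1,6]),(3,[15,4,0,2,14]),(4,[16,7,5,0,3,15]),(5,[18,10,0,4,7,8,17]),(6,[14,2,1,12,19]),(7,[20,8,5,4,16]),(8,[21,17,5,7,20])], [20,21,17,18,10,11,9,13,12,19,14,15,16], [(0,3),(3,15),(1,9),(1,12)]⟩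
def c938 : RawB s938 := raw1 s938 (nat_lit 11) [⟨0,1,14,14,14,15,false,false⟩,⟨0,2,15,14,14,3,false,false⟩,⟨2,3,14,3,3,2,false,false⟩,⟨0,4,15,3,3,4,false,false⟩,⟨3,5,2,3,3,0,false,false⟩,⟨5,4,0,3,4,4,false,false⟩,⟨0,4,15,4,4,16,false,false⟩,⟨5,6,4,0,0,5,false,false⟩,⟨5,4,5,4,16,7,false,false⟩,⟨4,7,16,7,7,20,true,false⟩,⟨3,4,2,0,0,1,false,false⟩,⟨6,8,0,5,5,10,false,false⟩,⟨5,9,7,5,5,8,false,false⟩,⟨5,7,8,7,20,20,false,false⟩,⟨5,10,20,8,8,21,true,false⟩,⟨9,10,5,8,21,17,false,false⟩,⟨8,9,10,5,17,18,false,false⟩,⟨3,2,1,2,14,6,false,false⟩,⟨6,7,0,10,10,11,false,false⟩,⟨4,6,1,0,11,9,false,false⟩,⟨4,5,1,9,9,13,false,false⟩,⟨3,4,6,1,13,12,false,false⟩,⟨3,2,12,6,14,19,false,false⟩] (nat_lit 10) (nat_lit 682) (by decide +kernel)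
noncomputable def s939 : Raw := ⟨[(0,[12,10,1,2,3,4,5,11]),(1,[13,6,2,0,10,14]),(2,[7,3,0,1,6]),(3,[15,4,0,2,7]),(4,[16,8,5,0,3,15]),(5,[18,11,0,4,8,9,17]),(6,[19,7,2,1,13,20]),(7,[15,3,2,6,19]),(8,[21,9,5,4,16,22]),(9,[23,17,5,8,21])], [18,11,12,10,14,13,20,19,15,16,22,21,23,17], [(5,4),(4,16),(0,3),(3,15)]⟩
def c939 : RawB s939 := raw1 s939 (nat_lit 12) [⟨0,1,4,4,4,8,false,false⟩,⟨0,2,4,8,8,16,false,false⟩,⟨2,3,8,16,16,22,false,false⟩,⟨0,4,4,16,16,15,false,false⟩,⟨0,5,4,15,15,3,false,false⟩,⟨0,6,4,3,3,0,false,false⟩,⟨6,7,3,0,0,2,false,false⟩,⟨6,5,2,3,15,7,false,false⟩,⟨7,9,2,0,0,1,false,false⟩,⟨7,6,1,2,7,6,false,false⟩,⟨7,8,6,1,1,13,false,false⟩,⟨6,5,6,7,15,19,false,false⟩,⟨7,6,13,6,19,20,false,false⟩,⟨0,1,0,4,8,5,false,false⟩,⟨0,10,5,0,0,11,false,false⟩,⟨0,11,5,11,11,18,false,true⟩,⟨0,11,5,18,18,17,false,true⟩,⟨10,11,0,11,11,12,false,false⟩,⟨9,10,1,0,12,10,false,false⟩,⟨9,8,10,1,13,14,false,false⟩,⟨1,0,8,5,17,9,false,false⟩,⟨1,2,9,8,22,21,false,false⟩,⟨0,1,17,9,21,23,false,false⟩]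 (nat_lit 11) (nat_lit 1365) (by decide +kernel)
noncomputable def s940 : Raw := ⟨[(0,[13,11,1,2,3,4,5,12]),(1,[14,6,2,0,11,15]),(2,[7,3,0,1,6]),(3,[16,4,0,2,7]),(4,[17,8,5,0,3,16]),(5,[12,0,4,8,9,10,18]),(6,[19,7,2,1,14,20]),(7,[16,3,2,6,19]),(8,[21,9,5,4,17]),(9,[22,10,5,8,21,23]),(10,[24,18,5,9,22])], [21,23,22,24,18,12,13,11,15,14,20,19,16,17], [(9,21),(9,22),(9,5)]⟩
def c940 : RawB s940 := raw1 s940 (nat_lit 12) [⟨0,1,3,3,3,4,false,false⟩,⟨0,2,4,3,3,0,false,false⟩,⟨2,3,3,0,0,2,false,false⟩,⟨3,4,2,0,0,1,false,false⟩,⟨0,6,4,0,0,5,false,false⟩,⟨0,5,4,5,5,8,false,false⟩,⟨6,7,0,5,5,12,false,false⟩,⟨7,8,5,12,12,18,false,false⟩,⟨7,9,5,18,18,10,false,false⟩,⟨5,7,8,5,10,9,false,false⟩,⟨9,10,18,10,10,24,false,false⟩,⟨7,10,9,10,24,22,false,false⟩,⟨7,11,9,22,22,23,false,false⟩,⟨5,7,8,9,23,21,false,true⟩,⟨0,5,4,8,21,17,false,true⟩,⟨1,0,3,4,17,16,false,false⟩,⟨2,1,2,3,16,7,false,false⟩,⟨3,2,1,2,7,6,false,false⟩,⟨2,1,6,7,16,19,false,false⟩,⟨6,7,0,12,12,13,false,false⟩,⟨4,6,1,0,13,11,false,false⟩,⟨4,5,1,11,11,15,false,false⟩,⟨3,4,6,1,15,14,false,false⟩,⟨3,2,14,6,19,20,false,false⟩]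 (nat_lit 9) (nat_lit 170) (by decide +kernel)
noncomputable def s941 : Raw := ⟨[(0,[11,9,1,2,3,4,5,10]),(1,[12,6,2,0,9,13]),(2,[16,14,3,0,1,6,15]),(3,[17,7,4,0,2,14]),(4,[8,5,0,3,7]),(5,[10,0,4,8,18]),(6,[15,2,1,12,19]),(7,[20,8,4,3,17,21]),(8,[18,5,4,7,20])], [15,16,14,17,21,20,18,10,11,9,13,12,19], [(6,19),(2,0),(0,10),(0,9)]⟩
def c941 : RawB s941 := raw1 s941 (nat_lit 11) [⟨0,1,0,0,0,2,false,false⟩,⟨0,2,2,0,0,1,false,false⟩,⟨1,3,2,0,0,3,false,false⟩,⟨3,4,0,3,3,4,false,false⟩,⟨4,5,3,4,4,7,false,false⟩,⟨5,6,4,7,7,8,false,false⟩,⟨3,5,0,4,8,5,false,false⟩,⟨6,7,8,7,7,20,false,false⟩,⟨5,6,5,8,20,18,false,false⟩,⟨3,5,0,5,18,10,false,false⟩,⟨7,8,20,7,7,21,false,false⟩,⟨4,8,3,7,21,17,false,false⟩,⟨4,9,3,17,17,14,false,false⟩,⟨1,4,2,3,14,14,false,false⟩,⟨0,4,1,2,2,6,false,false⟩,⟨1,10,2,14,14,16,false,false⟩,⟨4,1,6,2,16,15,false,true⟩,⟨0,1,6,1,1,12,false,false⟩,⟨0,4,12,6,15,19,false,true⟩,⟨3,4,0,10,10,11,false,false⟩,⟨2,3,1,0,11,9,false,false⟩,⟨2,1,9,1,12,13,false,false⟩]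 (nat_lit 15) (nat_lit 10922) (by decide +kernel)
noncomputable def s942 : Raw := ⟨[(0,[12,10,1,2,3,4,5,11]),(1,[13,6,2,0,10,14]),(2,[7,3,0,1,6]),(3,[15,4,0,2,7]),(4,[16,8,5,0,3,15]),(5,[18,11,0,4,8,9,17]),(6,[19,7,2,1,13,20]),(7,[15,3,2,6,19]),(8,[21,9,5,4,16]),(9,[22,17,5,8,21])], [18,11,12,10,14,13,20,19,15,16,21,22,17], [(0,3),(3,15),(1,6)]⟩
def c942 : RawB s942 := raw1 s942 (nat_lit 11) [⟨0,1,4,4,4,15,false,false⟩,⟨0,2,4,15,15,3,false,false⟩,⟨1,3,4,15,15,16,false,false⟩,⟨2,4,3,15,15,7,false,false⟩,⟨2,5,3,7,7,2,false,false⟩,⟨2,0,2,3,4,0,false,false⟩,⟨5,6,7,2,2,6,false,false⟩,⟨5,4,6,7,15,19,false,false⟩,⟨2,7,2,0,0,1,false,false⟩,⟨6,2,6,2,1,1,false,false⟩,⟨0,9,4,0,0,5,false,false⟩,⟨0,1,5,4,16,8,false,false⟩,⟨1,2,8,16,16,21,false,false⟩,⟨0,1,5,8,21,9,false,false⟩,⟨0,8,9,5,5,17,false,false⟩,⟨0,1,17,9,21,22,false,false⟩,⟨8,10,5,17,17,18,false,true⟩,⟨9,8,0,5,18,11,false,true⟩,⟨9,10,0,11,11,12,false,false⟩,⟨7,9,1,0,12,10,false,false⟩,⟨7,8,1,10,10,14,false,false⟩,⟨6,7,6,1,14,13,false,false⟩,⟨6,5,13,6,19,20,false,false⟩]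 (nat_lit 7) (nat_lit 85) (by decide +kernel)
noncomputable def s943 : Raw := ⟨[(0,[9,8,7,6,1,2,3,10]),(1,[11,4,2,0,6,12]),(2,[5,3,0,1,4]),(3,[10,0,2,5,13]),(4,[14,5,2,1,11,15]),(5,[13,3,2,4,14]),(7,[16,6,0,8,17]),(8,[19,17,7,0,9,18]),(9,[18,8,0,10,20])], [6,12,11,15,14,13,10,20,18,19,17,16], [(8,18),(8,17),(0,6),(0,10)]⟩
def c943 : RawB s943 := raw1 s943 (nat_lit 10) [⟨0,1,7,7,7,8,false,false⟩,⟨0,2,7,8,8,0,false,false⟩,⟨2,3,8,0,0,9,false,false⟩,⟨0,4,7,0,0,6,false,false⟩,⟨0,5,7,6,6,16,false,true⟩,⟨3,5,9,0,0,10,false,false⟩,⟨4,6,6,0,0,1,false,false⟩,⟨6,7,0,1,1,2,false,false⟩,⟨6,5,2,0,10,3,false,false⟩,⟨7,8,2,1,1,4,false,false⟩,⟨6,7,3,2,4,5,false,false⟩,⟨6,5,5,3,10,13,false,false⟩,⟨7,6,4,5,13,14,false,false⟩,⟨4,9,6,1,1,12,true,false⟩,⟨8,9,4,1,12,11,false,false⟩,⟨8,7,11,4,14,15,false,false⟩,⟨1,0,8,7,16,17,false,false⟩,⟨3,4,9,10,10,20,false,false⟩,⟨2,3,8,9,20,18,false,false⟩,⟨1,2,17,8,18,19,false,false⟩]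 (nat_lit 9) (nat_lit 170) (by decide +kernel)
noncomputable def s944 : Raw := ⟨[(0,[9,8,7,6,1,2,3,12]),(1,[13,4,2,0,6]),(2,[5,3,0,1,4]),(3,[15,12,0,2,5,14]),(4,[16,5,2,1,13]),(5,[17,14,3,2,4,16]),(7,[18,6,0,8,10,19]),(8,[10,7,0,9,11]),(9,[20,11,8,0,12]),(10,[22,19,7,8,11,21]),(11,[21,10,8,9,20])], [21,22,19,18,6,13,16,17,14,15,12,20], [(10,22),(10,11),(10,7),(7,18)]⟩
def c944 : RawB s944 := raw1 s944 (nat_lit 10) [⟨0,1,20,20,20,21,false,true⟩,⟨0,2,20,21,21,11,false,false⟩,⟨0,1,20,11,11,9,false,false⟩,⟨1,3,9,11,11,8,false,false⟩,⟨2,4,11,21,21,10,false,false⟩,⟨2,3,10,11,8,8,false,false⟩,⟨2,8,8,10,10,7,false,false⟩,⟨2,1,7,8,9,0,false,false⟩,⟨1,0,0,9,20,12,false,false⟩,⟨2,7,0,7,7,6,false,false⟩,⟨2,5,0,6,6,1,false,false⟩,⟨2,3,0,1,1,2,false,false⟩,⟨2,1,2,0,12,3,false,false⟩,⟨5,6,1,6,6,13,false,false⟩,⟨3,5,2,1,13,4,false,false⟩,⟨2,3,3,2,4,5,false,false⟩,⟨3,5,5,4,13,16,false,false⟩,⟨4,9,21,10,10,22,true,false⟩,⟨8,9,7,10,22,19,false,false⟩,⟨7,8,6,7,19,18,false,false⟩,⟨3,4,5,16,16,17,false,false⟩,⟨2,3,3,5,17,14,false,false⟩,⟨1,2,12,3,14,15,false,false⟩]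 (nat_lit 5) (nat_lit 10) (by decide +kernel)
noncomputable def s945 : Raw := ⟨[(0,[9,1,2,3,4,10]),(1,[11,5,2,0,9]),(2,[12,3,0,1,5]),(3,[13,7,6,4,0,2,12,14]),(4,[10,0,3,6,8,15]),(5,[12,2,1,11,16]),(6,[18,8,4,3,7,17,19]),(7,[17,6,3,13,20]),(8,[21,15,4,6,18])], [16,12,14,13,20,17,19,18,21,15,10,9,11], [(7,13),(7,17),(3,6),(6,18)]⟩
def c945 : RawB s945 := raw1 s945 (nat_lit 11) [⟨0,1,9,9,9,10,false,false⟩,⟨0,2,9,10,10,0,false,false⟩,⟨2,3,10,0,0,4,false,false⟩,⟨3,4,4,0,0,3,false,false⟩,⟨3,5,4,3,3,6,false,false⟩,⟨4,6,0,3,3,2,false,false⟩,⟨4,0,2,0,9,1,false,false⟩,⟨5,8,6,3,3,7,false,false⟩,⟨5,7,6,7,7,17,false,false⟩,⟨6,9,2,3,3,12,false,false⟩,⟨4,6,1,2,12,5,false,false⟩,⟨4,0,5,1,9,11,false,false⟩,⟨4,6,11,5,12,16,true,true⟩,⟨3,4,4,6,6,8,false,false⟩,⟨9,10,3,12,12,14,false,false⟩,⟨8,9,7,3,14,13,false,false⟩,⟨8,7,13,7,17,20,false,false⟩,⟨3,2,8,4,10,15,false,false⟩,⟨5,6,6,17,17,19,false,false⟩,⟨4,5,8,6,19,18,false,false⟩,⟨3,4,15,8,18,21,false,false⟩]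 (nat_lit 17) (nat_lit 43690) (by decide +kernel)
noncomputable def s946 : Raw := ⟨[(0,[9,8,7,6,1,2,3,12]),(1,[13,4,2,0,6,14]),(2,[5,3,0,1,4]),(3,[12,0,2,5,15]),(4,[16,5,2,1,13,17]),(5,[15,3,2,4,16]),(7,[18,6,0,8,10,19]),(8,[10,7,0,9,11]),(9,[20,11,8,0,12]),(10,[22,19,7,8,11,21]),(11,[21,10,8,9,20])], [21,22,19,18,6,14,13,17,16,15,12,20], [(10,22),(9,20),(7,0),(9,0)]⟩
def c946 : RawB s946 := raw1 s946 (nat_lit 10) [⟨0,1,20,20,20,21,false,true⟩,⟨0,2,20,21,21,11,false,false⟩,⟨0,1,20,11,11,9,false,false⟩,⟨1,3,9,11,11,8,false,false⟩,⟨2,6,11,21,21,10,false,false⟩,⟨2,3,10,11,8,8,false,false⟩,⟨2,8,8,10,10,7,false,false⟩,⟨2,1,7,8,9,0,false,false⟩,⟨1,0,0,9,20,12,false,false⟩,⟨2,7,0,7,7,6,false,false⟩,⟨2,5,0,6,6,1,false,false⟩,⟨2,3,0,1,1,2,false,false⟩,⟨2,1,2,0,12,3,false,false⟩,⟨3,4,2,1,1,4,false,false⟩,⟨2,3,3,2,4,5,false,false⟩,⟨2,1,5,3,12,15,false,false⟩,⟨3,2,4,5,15,16,false,false⟩,⟨6,9,21,10,10,22,true,false⟩,⟨8,9,7,10,22,19,false,false⟩,⟨7,8,6,7,19,18,false,false⟩,⟨5,6,1,6,6,14,false,false⟩,⟨4,5,4,1,14,13,false,false⟩,⟨4,3,13,4,16,17,false,false⟩]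 (nat_lit 5) (nat_lit 10) (by decide +kernel)
noncomputable def s947 : Raw := ⟨[(0,[9,8,7,6,1,2,3,12]),(1,[13,4,2,0,6,14]),(2,[5,3,0,1,4]),(3,[16,12,0,2,5,15]),(4,[17,5,2,1,13]),(5,[15,3,2,4,17]),(7,[18,6,0,8,10,19]),(8,[10,7,0,9,11]),(9,[20,11,8,0,12]),(10,[22,19,7,8,11,21]),(11,[21,10,8,9,20])], [21,22,19,18,6,14,13,17,15,16,12,20], [(10,22),(9,20),(7,0),(9,0)]⟩
def c947 : RawB s947 := raw1 s947 (nat_lit 10) [⟨0,1,20,20,20,21,false,true⟩,⟨0,2,20,21,21,11,false,false⟩,⟨0,1,20,11,11,9,false,false⟩,⟨1,3,9,11,11,8,false,false⟩,⟨2,6,11,21,21,10,false,false⟩,⟨2,3,10,11,8,8,false,false⟩,⟨2,8,8,10,10,7,false,false⟩,⟨2,1,7,8,9,0,false,false⟩,⟨1,0,0,9,20,12,false,false⟩,⟨2,7,0,7,7,6,false,false⟩,⟨2,5,0,6,6,1,false,false⟩,⟨2,3,0,1,1,2,false,false⟩,⟨2,1,2,0,12,3,false,false⟩,⟨3,4,2,1,1,4,false,false⟩,⟨2,3,3,2,4,5,false,false⟩,⟨6,9,21,10,10,22,true,false⟩,⟨8,9,7,10,22,19,false,false⟩,⟨7,8,6,7,19,18,false,false⟩,⟨5,6,1,6,6,14,false,false⟩,⟨4,5,4,1,14,13,false,false⟩,⟨3,4,5,4,13,17,false,false⟩,⟨2,3,3,5,17,15,false,false⟩,⟨1,2,12,3,15,16,false,false⟩]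 (nat_lit 5) (nat_lit 10) (by decide +kernel)
noncomputable def s948 : Raw := ⟨[(0,[8,7,6,5,4,1,2,13]),(1,[14,3,2,0,4]),(2,[13,0,1,3,15]),(3,[15,2,1,14,16]),(5,[17,4,0,6,9,10,18]),(6,[19,9,5,0,7,11]),(7,[11,6,0,8,12]),(8,[20,12,7,0,13,21]),(9,[22,10,5,6,19,23]),(10,[24,18,5,9,22]),(11,[19,6,7,12,25]),(12,[25,11,7,8,20])], [20,25,19,23,22,24,18,17,4,14,16,15,13,21], [(12,11),(9,19),(9,22),(5,9)]⟩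
def c948 : RawB s948 := raw1 s948 (nat_lit 12) [⟨0,1,0,0,0,2,false,false⟩,⟨0,2,0,2,2,1,false,false⟩,⟨0,3,0,1,1,4,false,false⟩,⟨0,5,0,4,4,5,false,false⟩,⟨0,6,0,5,5,6,false,false⟩,⟨0,4,0,6,6,7,false,false⟩,⟨4,7,7,6,6,11,false,false⟩,⟨4,8,11,7,7,12,false,false⟩,⟨0,8,0,7,12,8,false,false⟩,⟨4,11,12,11,11,25,false,false⟩,⟨8,4,8,12,25,20,false,true⟩,⟨7,11,6,11,25,19,false,false⟩,⟨6,7,5,6,19,9,false,false⟩,⟨1,0,2,0,8,13,false,false⟩,⟨3,4,1,4,4,14,false,false⟩,⟨2,3,2,1,14,3,false,false⟩,⟨2,1,3,2,13,15,false,false⟩,⟨3,2,14,3,15,16,false,false⟩,⟨0,8,13,8,20,21,false,true⟩,⟨7,10,9,19,19,23,false,false⟩,⟨7,9,9,23,23,22,false,false⟩,⟨6,7,5,9,22,10,false,false⟩,⟨7,8,10,22,22,24,false,false⟩,⟨6,7,5,10,24,18,false,false⟩,⟨5,6,4,5,18,17,false,false⟩] (nat_lit 8) (nat_lit 85) (by decide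 +kernel)
noncomputable def s949 : Raw := ⟨[(0,[13,11,1,2,3,4,5,12]),(1,[14,7,6,2,0,11,15]),(2,[8,3,0,1,6]),(3,[16,4,0,2,8]),(4,[17,9,5,0,3,16]),(5,[19,12,0,4,9,10,18]),(6,[21,8,2,1,7,20]),(7,[20,6,1,14,22]),(8,[16,3,2,6,21]),(9,[23,10,5,4,17]),(10,[24,18,5,9,23])], [23,24,18,19,12,13,11,15,14,22,20,21,16,17], [(0,2),(2,8),(8,16),(7,6)]⟩
def c949 : RawB s949 := raw1 s949 (nat_lit 12) [⟨0,1,8,8,8,16,false,false⟩,⟨0,2,16,8,8,3,false,false⟩,⟨2,3,8,3,3,2,false,false⟩,⟨3,4,2,3,3,0,false,false⟩,⟨3,5,2,0,0,1,false,false⟩,⟨3,2,1,2,8,6,false,false⟩,⟨4,6,3,0,0,4,false,false⟩,⟨0,4,16,3,4,4,false,false⟩,⟨0,4,16,4,4,17,false,false⟩,⟨5,7,1,0,0,11,false,false⟩,⟨6,8,4,0,0,5,false,false⟩,⟨6,4,5,4,17,9,false,false⟩,⟨8,9,0,5,5,12,false,false⟩,⟨7,8,11,0,12,13,false,false⟩,⟨6,10,9,5,5,10,false,false⟩,⟨6,4,10,9,17,23,false,true⟩,⟨3,4,6,1,1,7,false,false⟩,⟨6,11,23,10,10,24,true,false⟩,⟨10,11,5,10,24,18,false,false⟩,⟨9,10,12,5,18,19,false,false⟩,⟨2,1,6,8,16,21,false,false⟩,⟨3,2,7,6,21,20,false,false⟩,⟨5,6,1,11,11,15,false,false⟩,⟨4,5,7,1,15,14,false,false⟩,⟨4,3,14,7,20,22,false,false⟩]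 (nat_lit 8) (nat_lit 170) (by decide +kernel)
noncomputable def s950 : Raw := ⟨[(0,[8,7,6,5,1,2,3,11]),(1,[12,4,2,0,5]),(2,[15,13,3,0,1,4,14]),(3,[16,11,0,2,13]),(4,[14,2,1,12,17]),(6,[18,5,0,7,9]),(7,[9,6,0,8,10]),(8,[19,10,7,0,11,20]),(9,[18,6,7,10,21]),(10,[21,9,7,8,19,22])], [12,17,14,15,13,16,11,20,19,22,21,18,5], [(4,12),(4,14),(1,5)]⟩
def c950 : RawB s950 := raw1 s950 (nat_lit 11) [⟨0,1,7,7,7,9,false,false⟩,⟨0,2,7,9,9,10,false,false⟩,⟨0,3,7,10,10,8,false,false⟩,⟨0,4,7,8,8,0,false,false⟩,⟨0,1,0,7,9,6,false,false⟩,⟨0,5,6,0,0,5,false,false⟩,⟨0,1,5,6,9,18,false,false⟩,⟨2,1,10,9,18,21,false,false⟩,⟨4,6,8,0,0,11,false,false⟩,⟨5,7,5,0,0,1,false,false⟩,⟨5,8,1,5,5,12,false,true⟩,⟨5,8,12,1,1,4,false,false⟩,⟨7,8,0,1,4,2,false,false⟩,⟨7,6,2,0,11,3,false,false⟩,⟨5,10,12,4,4,17,true,false⟩,⟨8,10,2,4,17,14,false,false⟩,⟨8,9,2,14,14,15,false,false⟩,⟨7,8,3,2,15,13,false,false⟩,⟨6,7,11,3,13,16,false,false⟩,⟨4,5,8,11,11,20,false,false⟩,⟨3,4,10,8,20,19,false,false⟩,⟨3,2,19,10,21,22,false,false⟩]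 (nat_lit 10) (nat_lit 682) (by decide +kernel)
noncomputable def s951 : Raw := ⟨[(0,[8,7,6,5,1,2,3,11]),(1,[12,4,2,0,5]),(2,[15,13,3,0,1,4,14]),(3,[16,11,0,2,13]),(4,[14,2,1,12,17]),(6,[18,5,0,7,9,19]),(7,[9,6,0,8,10]),(8,[20,10,7,0,11]),(9,[22,19,6,7,10,21]),(10,[21,9,7,8,20])], [20,21,22,19,18,5,12,17,14,15,13,16,11], [(4,12),(4,14),(1,5),(1,2)]⟩
def c951 : RawB s951 := raw1 s951 (nat_lit 11) [⟨0,1,0,0,0,2,false,false⟩,⟨0,2,0,2,2,1,false,false⟩,⟨2,3,2,1,1,4,false,false⟩,⟨3,4,1,4,4,12,false,false⟩,⟨3,6,1,12,12,5,false,false⟩,⟨0,3,0,1,5,5,false,false⟩,⟨0,7,0,5,5,6,false,false⟩,⟨0,5,0,6,6,7,false,false⟩,⟨0,3,0,7,7,8,false,false⟩,⟨5,8,7,6,6,9,false,false⟩,⟨3,5,8,7,9,10,false,false⟩,⟨5,9,10,9,9,21,false,false⟩,⟨3,5,8,10,21,20,false,true⟩,⟨0,3,0,8,20,11,false,true⟩,⟨1,0,2,0,11,3,false,false⟩,⟨4,5,4,12,12,17,false,false⟩,⟨2,4,2,4,17,14,false,false⟩,⟨2,3,2,14,14,15,false,false⟩,⟨9,10,9,21,21,22,false,false⟩,⟨8,9,6,9,22,19,false,false⟩,⟨7,8,5,6,19,18,false,false⟩,⟨1,2,3,2,15,13,false,false⟩,⟨0,1,11,3,13,16,false,false⟩]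 (nat_lit 9) (nat_lit 341) (by decide +kernel)
end Pool.Agent.FCT.R
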