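import Pool.Agent.Lib.MP_fe5cb4_co.FC.RawDef
set_option linter.defProp false
namespace Pool.Agent.FCT.R
open Pool.Agent.Lib.MP_fe5cb4_co.FC
noncomputable def s959 : Raw := ⟨[(0,[12,10,1,2,3,4,5,11]),(1,[13,6,2,0,10]),(2,[15,7,3,0,1,6,14,16]),(3,[8,4,0,2,7]),(4,[18,9,5,0,3,8,17]),(5,[20,11,0,4,9,19]),(6,[14,2,1,13,21]),(7,[22,8,3,2,15]),(8,[17,4,3,7,22]),(9,[19,5,4,18,23])], [17,18,23,19,20,11,12,10,13,21,14,16,15,22], [(0,4),(4,17),(9,18),(5,9)]⟩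
def c959 : RawB s959 := raw1 s959 (nat_lit 12) [⟨0,1,17,17,17,22,false,true⟩,⟨0,2,22,17,17,8,false,false⟩,⟨0,1,22,8,8,7,false,false⟩,⟨1,3,7,8,8,3,false,false⟩,⟨2,4,8,17,17,4,false,false⟩,⟨2,3,4,8,3,3,false,false⟩,⟨2,7,3,4,4,0,false,false⟩,⟨2,1,0,3,7,2,false,false⟩,⟨2,3,2,0,0,1,false,false⟩,⟨3,6,1,0,0,10,false,false⟩,⟨3,5,1,10,10,13,false,false⟩,⟨2,3,2,1,13,6,false,false⟩,⟨7,9,0,4,4,5,false,false⟩,⟨7,8,0,5,5,11,false,false⟩,⟨6,7,10,0,11,12,false,false⟩,⟨4,10,17,4,4,18,true,false⟩,⟨9,10,5,4,18,9,false,false⟩,⟨3,4,6,13,13,21,false,false⟩,⟨10,11,9,18,18,23,false,false⟩,⟨9,10,5,9,23,19,false,false⟩,⟨8,9,11,5,19,20,false,false⟩,⟨2,3,2,6,21,14,false,false⟩,⟨1,0,2,7,22,15,false,false⟩,⟨2,1,14,2,15,16,false,false⟩] (nat_lit 15) (nat_lit 21845) (by decide +kernel)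
noncomputable def s960 : Raw := ⟨[(0,[13,11,1,2,3,4,5,12]),(1,[14,6,2,0,11]),(2,[16,7,3,0,1,6,15,17]),(3,[8,4,0,2,7]),(4,[9,5,0,3,8,10]),(5,[19,12,0,4,9,18]),(6,[15,2,1,14,20]),(7,[21,8,3,2,16]),(8,[10,4,3,7,21]),(9,[23,18,5,4,10,22]),(10,[22,9,4,8,21,24])], [12,13,11,14,20,15,17,16,21,24,22,23,18,19], [(2,7),(7,21),(8,10)]⟩
def c960 : RawB s960 := raw1 s960 (nat_lit 12) [⟨0,1,4,4,4,9,false,false⟩,⟨0,2,4,9,9,10,false,false⟩,⟨0,3,4,10,10,8,false,false⟩,⟨3,4,10,8,8,21,false,false⟩,⟨4,5,8,21,21,7,false,false⟩,⟨0,4,4,8,7,3,false,false⟩,⟨5,6,21,7,7,16,false,false⟩,⟨4,6,3,7,16,2,false,false⟩,⟨4,0,2,3,4,0,false,false⟩,⟨6,7,16,2,2,17,false,false⟩,⟨7,8,17,2,2,15,false,false⟩,⟨8,9,15,2,2,6,false,false⟩,⟨4,9,0,2,6,1,false,false⟩,⟨9,10,6,1,1,14,false,false⟩,⟨9,8,14,6,15,20,false,false⟩,⟨4,10,0,1,14,11,false,false⟩,⟨0,1,0,4,9,5,false,false⟩,⟨4,11,0,11,11,13,false,false⟩,⟨0,4,5,0,13,12,false,true⟩,⟨0,4,5,12,12,19,false,true⟩,⟨1,0,9,5,19,18,false,false⟩,⟨3,4,10,21,21,24,false,false⟩,⟨2,3,9,10,24,22,false,false⟩,⟨1,2,18,9,22,23,false,false⟩]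 (nat_lit 8) (nat_lit 85) (by decide +kernel)
noncomputable def s961 : Raw := ⟨[(0,[6,5,4,1,2,10]),(1,[11,3,2,0,4]),(2,[10,0,1,3,12]),(3,[12,2,1,11,13]),(5,[9,7,4,0,6,8]),(6,[15,8,5,0,10,16]),(7,[14,4,5,9,17]),(8,[18,9,5,6,15,19]),(9,[20,17,7,5,8,18])], [11,13,12,10,16,15,19,18,20,17,14,4], [(3,11),(3,12),(0,4),(0,6)]⟩
def c961 : RawB s961 := raw1 s961 (nat_lit 10) [⟨0,1,5,5,5,9,false,false⟩,⟨0,2,5,9,9,8,false,false⟩,⟨0,3,5,8,8,6,false,false⟩,⟨3,4,6,8,8,15,false,false⟩,⟨0,5,5,6,6,0,false,false⟩,⟨3,6,6,15,15,16,false,false⟩,⟨3,7,6,16,16,10,false,false⟩,⟨3,5,10,6,0,0,false,false⟩,⟨0,5,5,0,0,4,false,false⟩,⟨3,8,0,10,10,2,false,false⟩,⟨3,5,2,0,4,1,false,false⟩,⟨8,9,10,2,2,12,false,false⟩,⟨3,9,1,2,12,3,false,false⟩,⟨3,5,3,1,4,11,false,true⟩,⟨3,9,11,3,12,13,true,false⟩,⟨0,1,4,5,9,7,false,false⟩,⟨4,5,8,15,15,19,false,false⟩,⟨2,4,9,8,19,18,false,false⟩,⟨2,3,9,18,18,20,false,false⟩,⟨1,2,7,9,20,17,false,false⟩,⟨0,1,4,7,17,14,false,false⟩]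 (nat_lit 9) (nat_lit 170) (by decide +kernel)
noncomputable def s962 : Raw := ⟨[(0,[12,10,1,2,3,4,5,11]),(1,[13,6,2,0,10,14]),(2,[7,3,0,1,6,8]),(3,[9,4,0,2,7,15]),(4,[18,16,5,0,3,9,17]),(5,[19,11,0,4,16]),(6,[20,8,2,1,13,21]),(7,[15,3,2,8,22]),(8,[22,7,2,6,20]),(9,[17,4,3,15,23])], [16,19,11,12,10,14,13,21,20,22,15,23,17,18], [(0,11),(0,10),(4,0),(6,13)]⟩
def c962 : RawB s962 := raw1 s962 (nat_lit 12) [⟨0,1,3,3,3,7,false,false⟩,⟨0,2,7,3,3,2,false,false⟩,⟨1,3,3,7,7,15,false,false⟩,⟨3,4,15,7,7,22,false,false⟩,⟨0,4,2,7,22,8,false,false⟩,⟨4,5,22,8,8,20,false,false⟩,⟨0,5,2,8,20,6,false,false⟩,⟨0,6,2,6,6,1,false,false⟩,⟨0,7,2,1,1,0,false,false⟩,⟨0,2,0,2,3,3,false,false⟩,⟨0,9,3,0,0,4,false,false⟩,⟨0,1,4,3,15,9,false,false⟩,⟨1,2,9,15,15,23,false,false⟩,⟨0,1,4,9,23,17,false,false⟩,⟨0,8,17,4,4,18,false,false⟩,⟨8,10,4,18,18,16,false,true⟩,⟨9,8,0,4,16,5,false,false⟩,⟨8,11,16,5,5,19,true,false⟩,⟨9,11,0,5,19,11,false,false⟩,⟨9,10,0,11,11,12,false,false⟩,⟨7,9,1,0,12,10,false,false⟩,⟨7,8,1,10,10,14,false,false⟩,⟨6,7,6,1,14,13,false,false⟩,⟨6,5,13,6,20,21,false,false⟩]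 (nat_lit 10) (nat_lit 682) (by decide +kernel)
noncomputable def s963 : Raw := ⟨[(0,[12,10,1,2,3,4,5,11]),(1,[13,6,2,0,10,14]),(2,[7,3,0,1,6,15]),(3,[17,8,4,0,2,7,16]),(4,[9,5,0,3,8]),(5,[19,11,0,4,9,18]),(6,[15,2,1,13,20]),(7,[16,3,2,15,21]),(8,[22,9,4,3,17]),(9,[18,5,4,8,22])], [16,17,22,18,19,11,12,10,14,13,20,15,21], [(3,4),(9,18)]⟩
def c963 : RawB s963 := raw1 s963 (nat_lit 11) [⟨0,1,2,2,2,15,false,false⟩,⟨0,2,15,2,2,7,false,false⟩,⟨2,3,2,7,7,3,false,false⟩,⟨2,4,2,3,3,0,false,false⟩,⟨4,5,3,0,0,4,false,false⟩,⟨5,6,0,4,4,5,false,false⟩,⟨5,7,0,5,5,11,false,false⟩,⟨6,8,4,5,5,9,false,false⟩,⟨6,9,4,9,9,8,false,false⟩,⟨4,6,3,4,8,8,false,false⟩,⟨9,10,9,8,8,22,false,false⟩,⟨8,9,5,9,22,18,false,false⟩,⟨7,8,11,5,18,19,false,false⟩,⟨4,10,3,8,22,17,false,false⟩,⟨3,4,7,3,17,16,false,true⟩,⟨0,3,15,7,16,21,false,true⟩,⟨2,3,2,0,0,1,false,false⟩,⟨2,1,1,2,15,6,false,false⟩,⟨5,6,0,11,11,12,false,false⟩,⟨3,5,1,0,12,10,false,false⟩,⟨3,4,1,10,10,14,false,false⟩,⟨2,3,6,1,14,13,false,false⟩,⟨2,1,13,6,15,20,false,false⟩]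 (nat_lit 9) (nat_lit 341) (by decide +kernel)
noncomputable def s964 : Raw := ⟨[(0,[11,1,2,3,4,5,6,7]),(1,[12,8,2,0,11,13]),(2,[14,3,0,1,8,15]),(3,[16,9,4,0,2,14,17]),(4,[10,5,0,3,9]),(5,[18,6,0,4,10,19]),(6,[20,7,0,5,18,21]),(7,[22,11,0,6,20]),(8,[15,2,1,12,23]),(9,[24,10,4,3,16]),(10,[19,5,4,9,24])], [18,21,20,22,11,13,12,23,15,14,17,16,24,19], [(0,6),(6,18),(6,20)]⟩
def c964 : RawB s964 := raw1 s964 (nat_lit 12) [⟨0,1,9,9,9,10,false,false⟩,⟨0,2,10,9,9,4,false,false⟩,⟨0,3,10,4,4,5,false,false⟩,⟨0,4,10,5,5,19,false,false⟩,⟨1,0,9,10,19,24,false,false⟩,⟨4,5,5,19,19,18,false,true⟩,⟨4,5,18,5,5,6,false,false⟩,⟨3,5,4,5,6,0,false,false⟩,⟨3,2,0,4,9,3,false,false⟩,⟨2,1,3,9,24,16,false,false⟩,⟨5,10,0,6,6,7,false,false⟩,⟨5,9,0,7,7,11,false,false⟩,⟨4,11,18,6,6,21,true,false⟩,⟨10,11,7,6,21,20,false,false⟩,⟨9,10,11,7,20,22,false,false⟩,⟨5,7,0,11,11,1,false,false⟩,⟨5,3,1,0,3,2,false,false⟩,⟨3,4,3,2,2,14,false,false⟩,⟨3,2,14,3,16,17,false,false⟩,⟨5,6,2,1,1,8,false,false⟩,⟨5,4,8,2,14,15,false,false⟩,⟨7,8,1,11,11,13,false,false⟩,⟨6,7,8,1,13,12,false,false⟩,⟨6,5,12,8,15,23,false,false⟩]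 (nat_lit 7) (nat_lit 42) (by decide +kernel)
noncomputable def s965 : Raw := ⟨[(0,[12,10,1,2,3,4,5,11]),(1,[13,6,2,0,10]),(2,[7,3,0,1,6]),(3,[14,4,0,2,7,8,9,15]),(4,[16,5,0,3,14,17]),(5,[18,11,0,4,16]),(6,[19,7,2,1,13]),(7,[20,8,3,2,6,19]),(8,[21,9,3,7,20,22]),(9,[23,15,3,8,21])], [20,22,21,23,15,14,17,16,18,11,12,10,13,19], [(3,8),(8,20),(8,21),(9,15)]⟩
def c965 : RawB s965 := raw1 s965 (nat_lit 12) [⟨0,1,1,1,1,10,false,false⟩,⟨0,2,1,10,10,0,false,false⟩,⟨0,3,1,0,0,2,false,false⟩,⟨0,4,1,2,2,6,false,false⟩,⟨0,1,6,1,10,13,false,false⟩,⟨4,5,6,2,2,7,false,false⟩,⟨3,5,0,2,7,3,false,false⟩,⟨4,6,6,7,7,19,false,false⟩,⟨0,4,13,6,19,19,false,false⟩,⟨3,4,0,3,3,4,false,false⟩,⟨4,8,4,3,3,14,false,false⟩,⟨4,7,4,14,14,17,false,false⟩,⟨5,9,7,3,3,8,false,false⟩,⟨5,6,8,7,19,20,false,true⟩,⟨9,10,3,8,8,9,false,false⟩,⟨9,8,9,3,14,15,false,false⟩,⟨5,11,20,8,8,22,true,false⟩,⟨10,11,9,8,22,21,false,false⟩,⟨9,10,15,9,21,23,false,false⟩,⟨4,6,4,17,17,16,false,false⟩,⟨3,4,0,4,16,5,false,false⟩,⟨4,5,5,16,16,18,false,false⟩,⟨3,4,0,5,18,11,false,false⟩,⟨2,3,10,0,11,12,false,false⟩]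 (nat_lit 11) (nat_lit 682) (by decide +kernel)
noncomputable def s966 : Raw := ⟨[(0,[12,10,1,2,3,4,5,11]),(1,[13,6,2,0,10,14]),(2,[16,7,3,0,1,6,15]),(3,[8,4,0,2,7]),(4,[9,5,0,3,8,17]),(5,[19,11,0,4,9,18]),(6,[15,2,1,13,20]),(7,[21,8,3,2,16]),(8,[17,4,3,7,21]),(9,[18,5,4,17,22])], [12,10,14,13,20,15,16,21,17,22,18,19,11], [(1,10),(1,13),(2,16),(2,0)]⟩
def c966 : RawB s966 := raw1 s966 (nat_lit 11) [⟨0,1,4,4,4,9,false,false⟩,⟨0,2,4,9,9,17,false,false⟩,⟨0,3,4,17,17,8,false,false⟩,⟨3,4,8,17,17,21,false,false⟩,⟨3,5,8,21,21,7,false,false⟩,⟨0,3,4,8,7,3,false,false⟩,⟨5,6,21,7,7,16,false,false⟩,⟨3,6,3,7,16,2,false,false⟩,⟨3,0,2,3,4,0,false,false⟩,⟨0,1,0,4,9,5,false,false⟩,⟨6,7,16,2,2,15,false,false⟩,⟨7,8,15,2,2,6,false,false⟩,⟨3,8,0,2,6,1,false,false⟩,⟨3,9,0,1,1,10,false,false⟩,⟨3,10,0,10,10,12,false,true⟩,⟨0,3,5,0,12,11,false,true⟩,⟨2,3,9,17,17,22,false,false⟩,⟨1,2,5,9,22,18,false,false⟩,⟨9,10,1,10,10,14,false,false⟩,⟨8,9,6,1,14,13,false,false⟩,⟨8,7,13,6,15,20,false,false⟩,⟨0,1,11,5,18,19,false,false⟩]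 (nat_lit 7) (nat_lit 85) (by decide +kernel)
noncomputable def s967 : Raw := ⟨[(0,[13,11,1,2,3,4,5,12]),(1,[14,6,2,0,11,15]),(2,[17,7,3,0,1,6,16]),(3,[8,4,0,2,7]),(4,[9,5,0,3,8,10]),(5,[19,12,0,4,9,18]),(6,[16,2,1,14,20]),(7,[21,8,3,2,17]),(8,[10,4,3,7,21]),(9,[23,18,5,4,10,22]),(10,[22,9,4,8,21,24])], [16,17,21,24,22,23,18,19,12,13,11,15,14,20], [(0,4),(4,10)]⟩
def c967 : RawB s967 := raw1 s967 (nat_lit 12) [⟨0,1,9,9,9,10,false,false⟩,⟨0,2,10,9,9,4,false,false⟩,⟨2,3,9,4,4,5,false,false⟩,⟨0,4,4,10,10,8,false,false⟩,⟨2,5,9,5,5,18,false,false⟩,⟨5,6,5,18,18,19,false,false⟩,⟨1,7,10,9,9,22,false,false⟩,⟨7,8,9,22,22,23,false,false⟩,⟨7,2,23,9,18,18,false,false⟩,⟨1,9,10,22,22,24,false,false⟩,⟨1,10,10,24,24,21,false,false⟩,⟨4,1,8,10,21,21,false,false⟩,⟨4,11,8,21,21,7,false,false⟩,⟨0,4,4,8,7,3,false,false⟩,⟨0,3,3,4,5,0,false,false⟩,⟨0,4,0,3,7,2,false,false⟩,⟨4,11,2,7,21,17,false,false⟩,⟨3,5,0,5,19,12,false,false⟩,⟨4,1,2,17,17,16,false,true⟩,⟨0,2,2,0,0,1,false,false⟩,⟨0,4,1,2,16,6,false,false⟩,⟨0,1,6,1,1,14,false,false⟩,⟨0,4,14,6,16,20,false,true⟩,⟨3,4,0,12,12,13,false,false⟩,⟨2,3,1,0,13,11,false,false⟩,⟨2,1,11,1,14,15,false,false⟩]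 (nat_lit 7) (nat_lit 85) (by decide +kernel)
noncomputable def s968 : Raw := ⟨[(0,[11,1,2,3,4,5,6,12]),(1,[13,7,2,0,11,14]),(2,[15,8,3,0,1,7,9]),(3,[10,4,0,2,8]),(4,[16,5,0,3,10,17]),(5,[18,6,0,4,16,19]),(6,[20,12,0,5,18]),(7,[21,9,2,1,13,22]),(8,[23,10,3,2,15]),(9,[24,15,2,7,21]),(10,[17,4,3,8,23])], [12,11,14,13,22,21,24,15,23,17,16,19,18,20], [(6,12),(5,16),(5,18),(5,0)]⟩
def c968 : RawB s968 := raw1 s968 (nat_lit 12) [⟨0,1,4,4,4,5,false,false⟩,⟨0,2,4,5,5,16,false,false⟩,⟨0,3,4,16,16,17,false,false⟩,⟨0,4,4,17,17,10,false,false⟩,⟨0,5,4,10,10,3,false,false⟩,⟨0,6,4,3,3,0,false,false⟩,⟨0,1,0,4,5,5,false,false⟩,⟨0,1,0,5,5,6,false,false⟩,⟨6,7,3,0,0,2,false,false⟩,⟨6,5,2,3,10,8,false,false⟩,⟨5,4,8,10,17,23,false,false⟩,⟨6,5,2,8,23,15,false,false⟩,⟨0,8,6,0,0,12,false,false⟩,⟨0,9,6,12,12,20,false,true⟩,⟨1,0,5,6,20,18,false,false⟩,⟨2,1,16,5,18,19,false,false⟩,⟨8,10,12,0,0,11,true,false⟩,⟨7,10,2,0,11,1,false,false⟩,⟨7,8,2,1,1,7,false,false⟩,⟨7,6,7,2,15,9,false,false⟩,⟨10,11,1,11,11,14,false,false⟩,⟨8,10,7,1,14,13,false,false⟩,⟨8,9,7,13,13,22,false,false⟩,⟨7,8,9,7,22,21,false,false⟩,⟨6,7,15,9,21,24,false,false⟩]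 (nat_lit 7) (nat_lit 85) (by decide +kernel)
noncomputable def s969 : Raw := ⟨[(0,[12,10,1,2,3,4,5,11]),(1,[13,6,2,0,10]),(2,[15,7,3,0,1,6,14,16]),(3,[8,4,0,2,7]),(4,[9,5,0,3,8,17]),(5,[19,11,0,4,9,18]),(6,[14,2,1,13,20]),(7,[21,8,3,2,15]),(8,[17,4,3,7,21]),(9,[18,5,4,17,22])], [16,15,21,17,22,18,19,11,12,10,13,20,14], [(0,4),(4,17),(5,18),(5,11)]⟩
def c969 : RawB s969 := raw1 s969 (nat_lit 11) [⟨0,1,1,1,1,13,false,false⟩,⟨0,2,1,13,13,10,false,false⟩,⟨0,3,1,10,10,0,false,false⟩,⟨0,4,1,0,0,2,false,false⟩,⟨0,1,2,1,13,6,false,false⟩,⟨4,5,0,2,2,3,false,false⟩,⟨5,6,3,2,2,7,false,false⟩,⟨5,9,3,7,7,8,false,false⟩,⟨4,5,0,3,8,4,false,false⟩,⟨9,10,8,7,7,21,false,false⟩,⟨6,10,2,7,21,15,false,false⟩,⟨5,9,4,8,21,17,false,false⟩,⟨6,7,2,15,15,16,false,true⟩,⟨0,6,6,2,16,14,false,true⟩,⟨1,0,13,6,14,20,false,false⟩,⟨5,7,4,17,17,9,false,false⟩,⟨4,5,0,4,9,5,false,false⟩,⟨7,8,9,17,17,22,false,false⟩,⟨5,7,5,9,22,18,false,false⟩,⟨5,6,5,18,18,19,false,false⟩,⟨4,5,0,5,19,11,false,false⟩,⟨3,4,10,0,11,12,false,false⟩]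 (nat_lit 9) (nat_lit 341) (by decide +kernel)
noncomputable def s970 : Raw := ⟨[(0,[12,10,1,2,3,4,5,11]),(1,[13,6,2,0,10,14]),(2,[7,3,0,1,6,8]),(3,[9,4,0,2,7]),(4,[17,15,5,0,3,9,16]),(5,[18,11,0,4,15]),(6,[19,8,2,1,13,20]),(7,[9,3,2,8,21]),(8,[21,7,2,6,19,22]),(9,[23,16,4,3,7,21])], [10,14,13,20,19,22,21,23,16,17,15,18,11,12], [(6,20),(2,8),(8,19),(8,21)]⟩
def c970 : RawB s970 := raw1 s970 (nat_lit 12) [⟨0,1,0,0,0,5,false,false⟩,⟨0,2,0,5,5,4,false,false⟩,⟨0,3,0,4,4,3,false,false⟩,⟨3,4,4,3,3,9,false,false⟩,⟨3,5,4,9,9,16,false,false⟩,⟨4,6,3,9,9,7,false,false⟩,⟨0,4,0,3,7,2,false,false⟩,⟨6,7,9,7,7,21,false,false⟩,⟨5,6,16,9,21,23,false,false⟩,⟨4,7,2,7,21,8,false,false⟩,⟨4,8,2,8,8,6,false,false⟩,⟨0,4,0,2,6,1,false,false⟩,⟨8,9,8,6,6,19,false,false⟩,⟨8,7,19,8,21,22,false,false⟩,⟨9,10,19,6,6,20,false,false⟩,⟨4,10,1,6,20,13,false,false⟩,⟨4,11,1,13,13,14,false,false⟩,⟨0,4,0,1,14,10,false,true⟩,⟨0,4,0,10,10,12,false,true⟩,⟨1,0,5,0,12,11,false,false⟩,⟨3,4,4,16,16,17,false,false⟩,⟨2,3,5,4,17,15,false,false⟩,⟨1,2,11,5,15,18,false,false⟩]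 (nat_lit 7) (nat_lit 85) (by decide +kernel)
noncomputable def s971 : Raw := ⟨[(0,[13,11,1,2,3,4,5,12]),(1,[14,6,2,0,11,15]),(2,[16,3,0,1,6]),(3,[17,7,4,0,2,16]),(4,[10,8,5,0,3,7,9]),(5,[19,12,0,4,8,18]),(6,[16,2,1,14,20]),(7,[21,9,4,3,17]),(8,[23,18,5,4,10,22]),(9,[24,10,4,7,21]),(10,[22,8,4,9,24])], [14,20,16,17,21,24,22,23,18,19,12,13,11,15], [(6,20),(1,11),(1,14),(6,2)]⟩
def c971 : RawB s971 := raw1 s971 (nat_lit 12) [⟨0,1,4,4,4,5,false,false⟩,⟨0,2,4,5,5,0,false,false⟩,⟨1,3,4,5,5,8,false,false⟩,⟨3,4,5,8,8,18,false,false⟩,⟨4,5,8,18,18,23,false,false⟩,⟨4,6,8,23,23,22,false,false⟩,⟨1,4,4,8,22,10,false,false⟩,⟨4,7,10,22,22,24,false,false⟩,⟨1,4,4,10,24,9,false,false⟩,⟨4,8,9,24,24,21,false,false⟩,⟨1,4,4,9,21,7,false,false⟩,⟨0,1,0,4,7,3,false,false⟩,⟨4,9,7,21,21,17,false,false⟩,⟨1,4,3,7,17,17,false,false⟩,⟨1,10,3,17,17,16,false,false⟩,⟨0,1,0,3,16,2,false,false⟩,⟨1,4,16,2,2,6,false,false⟩,⟨0,4,0,2,6,1,false,false⟩,⟨1,11,6,16,16,20,false,false⟩,⟨4,1,1,6,20,14,false,true⟩,⟨0,1,1,0,0,11,false,false⟩,⟨0,4,11,1,14,15,false,true⟩,⟨3,4,5,18,18,19,false,false⟩,⟨2,3,0,5,19,12,false,false⟩,⟨1,2,11,0,12,13,false,false⟩]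 (nat_lit 6) (nat_lit 21) (by decide +kernel)
end Pool.Agent.FCT.R
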