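import Pool.Agent.Lib.MP_fe5cb4_co.FC.RawDef
set_option linter.defProp false
namespace Pool.Agent.FCT.R
open Pool.Agent.Lib.MP_fe5cb4_co.FC
noncomputable def s983 : Raw := ⟨[(0,[9,8,7,6,1,2,3,13]),(1,[14,4,2,0,6,15]),(2,[5,3,0,1,4]),(3,[17,13,0,2,5,16]),(4,[18,5,2,1,14]),(5,[16,3,2,4,18]),(7,[19,6,0,8,10,11,20]),(8,[10,7,0,9,12]),(9,[21,12,8,0,13]),(10,[24,22,11,7,8,12,23]),(11,[25,20,7,10,22]),(12,[23,10,8,9,21])], [22,25,20,19,6,15,14,18,16,17,13,21,23,24], [(10,23),(10,22),(10,7)]⟩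
def c983 : RawB s983 := raw1 s983 (nat_lit 12) [⟨0,1,9,9,9,21,false,false⟩,⟨0,2,9,21,21,13,false,false⟩,⟨0,3,9,13,13,0,false,false⟩,⟨3,4,13,0,0,3,false,false⟩,⟨4,5,3,0,0,2,false,false⟩,⟨1,6,21,9,9,12,false,false⟩,⟨0,7,9,0,0,8,false,false⟩,⟨0,6,8,9,12,12,false,false⟩,⟨1,6,21,12,12,23,false,false⟩,⟨0,8,12,8,8,10,false,false⟩,⟨7,8,0,8,10,7,false,false⟩,⟨0,6,10,12,23,23,false,false⟩,⟨0,6,23,10,10,24,false,false⟩,⟨7,9,0,7,7,6,false,false⟩,⟨5,7,2,0,6,1,false,false⟩,⟨8,10,10,7,7,11,false,false⟩,⟨8,6,11,10,24,22,false,true⟩,⟨5,6,2,1,1,4,false,false⟩,⟨8,11,22,11,11,25,true,false⟩,⟨10,11,7,11,25,20,false,false⟩,⟨9,10,6,7,20,19,false,false⟩,⟨4,5,3,2,4,5,false,false⟩,⟨7,8,1,6,6,15,false,false⟩,⟨6,7,4,1,15,14,false,false⟩,⟨5,6,5,4,14,18,false,false⟩,⟨4,5,3,5,18,16,false,false⟩,⟨3,4,13,3,16,17,false,false⟩]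 (nat_lit 7) (nat_lit 85) (by decide +kernel)
noncomputable def s984 : Raw := ⟨[(0,[12,10,1,2,3,4,5,11]),(1,[13,6,2,0,10,14]),(2,[7,3,0,1,6]),(3,[15,4,0,2,7,16]),(4,[17,8,5,0,3,15]),(5,[19,11,0,4,8,9,18]),(6,[20,7,2,1,13]),(7,[16,3,2,6,20]),(8,[21,9,5,4,17,22]),(9,[23,18,5,8,21])], [19,11,12,10,14,13,20,16,15,17,22,21,23,18], [(8,17),(8,5),(4,15),(4,0)]⟩
def c984 : RawB s984 := raw1 s984 (nat_lit 12) [⟨0,1,4,4,4,5,false,false⟩,⟨0,2,5,4,4,8,false,false⟩,⟨2,3,8,4,4,17,false,false⟩,⟨3,4,4,17,17,15,false,false⟩,⟨3,5,4,15,15,3,false,false⟩,⟨5,6,15,3,3,16,false,false⟩,⟨3,7,4,3,3,0,false,false⟩,⟨3,1,0,4,5,5,false,false⟩,⟨0,1,5,8,8,9,false,false⟩,⟨7,8,3,0,0,2,false,false⟩,⟨7,6,2,3,16,7,false,false⟩,⟨8,9,2,0,0,1,false,false⟩,⟨8,7,1,2,7,6,false,false⟩,⟨7,6,6,7,16,20,false,false⟩,⟨8,7,1,6,20,13,false,false⟩,⟨3,10,5,0,0,11,false,false⟩,⟨3,11,5,11,11,19,false,true⟩,⟨0,3,9,5,19,18,false,true⟩,⟨2,3,8,17,17,22,false,false⟩,⟨1,2,9,8,22,21,false,false⟩,⟨10,11,0,11,11,12,false,false⟩,⟨9,10,1,0,12,10,false,false⟩,⟨9,8,10,1,13,14,false,false⟩,⟨0,1,18,9,21,23,false,false⟩]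 (nat_lit 13) (nat_lit 5461) (by decide +kernel)
noncomputable def s985 : Raw := ⟨[(0,[8,7,6,5,4,1,2,13]),(1,[14,3,2,0,4]),(2,[13,0,1,3,15]),(3,[15,2,1,14,16]),(5,[17,4,0,6,9,10,18]),(6,[19,9,5,0,7,11]),(7,[11,6,0,8,12]),(8,[20,12,7,0,13,21]),(9,[22,10,5,6,19]),(10,[23,18,5,9,22]),(11,[19,6,7,12,24]),(12,[24,11,7,8,20])], [22,23,18,17,4,14,16,15,13,21,20,24,19], [(5,18),(6,19),(6,0)]⟩
def c985 : RawB s985 := raw1 s985 (nat_lit 11) [⟨0,1,11,11,11,12,false,false⟩,⟨0,2,11,12,12,7,false,false⟩,⟨0,3,11,7,7,6,false,false⟩,⟨0,4,11,6,6,19,false,false⟩,⟨1,0,12,11,19,24,false,false⟩,⟨3,5,7,6,6,0,false,false⟩,⟨3,2,0,7,12,8,false,false⟩,⟨2,1,8,12,24,20,false,false⟩,⟨4,6,19,6,6,9,false,false⟩,⟨5,6,0,6,9,5,false,false⟩,⟨4,7,19,9,9,22,true,false⟩,⟨3,4,8,0,0,13,false,false⟩,⟨5,8,0,5,5,4,false,false⟩,⟨6,9,9,5,5,10,false,false⟩,⟨6,7,10,9,22,22,false,false⟩,⟨6,10,22,10,10,23,true,false⟩,⟨9,10,5,10,23,18,false,false⟩,⟨8,9,4,5,18,17,false,false⟩,⟨3,2,13,8,20,21,false,false⟩,⟨5,6,0,4,4,1,false,false⟩,⟨5,4,1,0,13,2,false,false⟩,⟨6,7,1,4,4,14,false,false⟩,⟨5,6,2,1,14,3,false,false⟩,⟨5,4,3,2,13,15,false,false⟩,⟨6,5,14,3,15,16,false,false⟩]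 (nat_lit 6) (nat_lit 42) (by decide +kernel)
noncomputable def s986 : Raw := ⟨[(0,[11,6,5,3,1,2,4,10]),(1,[13,7,2,0,3,12,14]),(2,[17,15,4,0,1,7,16]),(3,[12,1,0,5,8,18]),(4,[19,10,0,2,15]),(5,[8,3,0,6,9]),(6,[20,9,5,0,11,21]),(7,[16,2,1,13,22]),(8,[18,3,5,9,23]),(9,[23,8,5,6,20])], [17,15,19,10,11,21,20,23,18,12,14,13,22,16], [(1,12),(1,13),(2,16),(1,2)]⟩
def c986 : RawB s986 := raw1 s986 (nat_lit 12) [⟨0,1,0,0,0,3,false,false⟩,⟨0,2,0,3,3,1,false,false⟩,⟨0,3,1,0,0,2,false,false⟩,⟨1,4,0,3,3,5,false,false⟩,⟨4,5,3,5,5,8,false,false⟩,⟨5,6,8,5,5,9,false,false⟩,⟨1,6,0,5,9,6,false,false⟩,⟨6,7,9,6,6,20,false,false⟩,⟨5,6,8,9,20,23,false,false⟩,⟨4,5,3,8,23,18,false,false⟩,⟨2,4,1,3,18,12,false,false⟩,⟨7,8,20,6,6,21,false,false⟩,⟨1,8,0,6,21,11,false,false⟩,⟨1,9,0,11,11,10,false,false⟩,⟨1,10,0,10,10,4,false,false⟩,⟨3,1,2,0,4,4,false,false⟩,⟨10,11,10,4,4,19,false,false⟩,⟨3,11,2,4,19,15,false,false⟩,⟨3,1,2,15,15,17,false,true⟩,⟨0,1,2,1,1,7,false,false⟩,⟨0,3,7,2,17,16,false,true⟩,⟨2,3,1,12,12,14,false,false⟩,⟨1,2,7,1,14,13,false,false⟩,⟨1,0,13,7,16,22,false,false⟩]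 (nat_lit 17) (nat_lit 43690) (by decide +kernel)
noncomputable def s987 : Raw := ⟨[(0,[9,8,7,6,1,2,3,13]),(1,[14,4,2,0,6,15]),(2,[5,3,0,1,4]),(3,[17,13,0,2,5,16]),(4,[18,5,2,1,14]),(5,[16,3,2,4,18]),(7,[19,6,0,8,10,11,20]),(8,[10,7,0,9,12]),(9,[21,12,8,0,13]),(10,[22,11,7,8,12,23]),(11,[24,20,7,10,22]),(12,[23,10,8,9,21])], [22,24,20,19,6,15,14,18,16,17,13,21,23], [(11,10),(10,23),(7,0),(0,13)]⟩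
def c987 : RawB s987 := raw1 s987 (nat_lit 11) [⟨0,1,13,13,13,21,false,false⟩,⟨0,2,21,13,13,9,false,false⟩,⟨0,4,21,9,9,12,false,false⟩,⟨2,5,13,9,9,0,false,false⟩,⟨2,3,13,0,0,3,false,false⟩,⟨5,6,9,0,0,8,false,false⟩,⟨5,4,8,9,12,12,false,false⟩,⟨3,4,3,0,0,2,false,false⟩,⟨5,7,12,8,8,10,false,false⟩,⟨6,7,0,8,10,7,false,false⟩,⟨5,0,10,12,21,23,false,false⟩,⟨6,8,0,7,7,6,false,false⟩,⟨4,6,2,0,6,1,false,false⟩,⟨7,9,10,7,7,11,false,false⟩,⟨7,5,11,10,23,22,false,true⟩,⟨4,5,2,1,1,4,false,false⟩,⟨3,4,3,2,4,5,false,false⟩,⟨7,10,22,11,11,24,true,false⟩,⟨9,10,7,11,24,20,false,false⟩,⟨8,9,6,7,20,19,false,false⟩,⟨6,7,1,6,6,15,false,false⟩,⟨5,6,4,1,15,14,false,false⟩,⟨4,5,5,4,14,18,false,false⟩,⟨3,4,3,5,18,16,false,false⟩,⟨2,3,13,3,16,17,false,false⟩] (nat_lit 5) (nat_lit 10) (by decide +kernel)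
noncomputable def s988 : Raw := ⟨[(0,[8,7,6,5,4,1,2,12]),(1,[13,3,2,0,4]),(2,[15,12,0,1,3,14]),(3,[14,2,1,13,16]),(5,[17,4,0,6,9,18]),(6,[9,5,0,7,10]),(7,[10,6,0,8,11]),(8,[19,11,7,0,12,20]),(9,[22,18,5,6,10,21]),(10,[21,9,6,7,11]),(11,[21,10,7,8,19,23])], [13,16,14,15,12,20,19,23,21,22,18,17,4], [(3,16),(1,13),(2,14),(1,2)]⟩
def c988 : RawB s988 := raw1 s988 (nat_lit 11) [⟨0,1,6,6,6,9,false,false⟩,⟨0,2,6,9,9,10,false,false⟩,⟨1,3,9,6,6,5,false,false⟩,⟨2,4,9,10,10,21,false,false⟩,⟨4,5,21,10,10,11,false,false⟩,⟨0,5,6,10,11,7,false,false⟩,⟨5,6,11,7,7,8,false,false⟩,⟨0,6,6,7,8,0,false,false⟩,⟨0,3,0,6,5,5,false,false⟩,⟨0,3,5,0,0,4,false,false⟩,⟨3,7,0,4,4,1,false,false⟩,⟨7,8,1,4,4,13,false,true⟩,⟨6,8,8,0,0,12,false,false⟩,⟨3,8,1,0,12,2,false,false⟩,⟨3,9,1,2,2,3,false,false⟩,⟨3,7,3,1,13,13,false,false⟩,⟨3,10,13,3,3,16,true,false⟩,⟨9,10,2,3,16,14,false,false⟩,⟨8,9,12,2,14,15,false,false⟩,⟨6,7,8,12,12,20,false,false⟩,⟨5,6,11,8,20,19,false,false⟩,⟨5,4,19,11,21,23,false,false⟩,⟨2,3,9,21,21,22,false,false⟩,⟨1,2,5,9,22,18,false,false⟩,⟨0,1,4,5,18,17,false,false⟩]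 (nat_lit 6) (nat_lit 21) (by decide +kernel)
noncomputable def s989 : Raw := ⟨[(0,[9,8,7,6,1,2,3,13]),(1,[14,4,2,0,6]),(2,[5,3,0,1,4]),(3,[16,13,0,2,5,15]),(4,[17,5,2,1,14]),(5,[18,15,3,2,4,17]),(7,[19,6,0,8,10,11,20]),(8,[10,7,0,9,12]),(9,[21,12,8,0,13,22]),(10,[23,11,7,8,12]),(11,[24,20,7,10,23]),(12,[23,10,8,9,21])], [20,19,6,14,17,18,15,16,13,22,21,23,24], [(11,23),(11,20)]⟩
def c989 : RawB s989 := raw1 s989 (nat_lit 11) [⟨0,1,20,20,20,24,false,true⟩,⟨0,2,24,20,20,11,false,false⟩,⟨0,1,24,11,11,23,false,false⟩,⟨1,3,23,11,11,10,false,false⟩,⟨2,4,11,20,20,7,false,false⟩,⟨2,3,7,11,10,10,false,false⟩,⟨2,3,10,7,7,8,false,false⟩,⟨2,1,8,10,23,12,false,false⟩,⟨3,5,8,7,7,0,false,false⟩,⟨3,2,0,8,12,9,false,false⟩,⟨4,10,20,7,7,19,true,false⟩,⟨5,10,0,7,19,6,false,false⟩,⟨5,4,6,0,0,1,false,false⟩,⟨5,9,1,6,6,14,false,false⟩,⟨5,6,1,14,14,4,false,false⟩,⟨4,5,0,1,4,2,false,false⟩,⟨6,8,4,14,14,17,false,false⟩,⟨5,6,2,4,17,5,false,false⟩,⟨4,5,0,2,5,3,false,false⟩,⟨4,3,3,0,9,13,false,false⟩,⟨2,1,9,12,23,21,false,false⟩,⟨3,2,13,9,21,22,false,false⟩,⟨6,7,5,17,17,18,false,false⟩,⟨5,6,3,5,18,15,false,false⟩,⟨4,5,13,3,15,16,false,false⟩]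 (nat_lit 5) (nat_lit 21) (by decide +kernel)
noncomputable def s990 : Raw := ⟨[(0,[8,7,6,5,4,1,2,13]),(1,[14,3,2,0,4]),(2,[16,13,0,1,3,15]),(3,[15,2,1,14,17]),(5,[18,4,0,6,9,10,19]),(6,[9,5,0,7,11]),(7,[11,6,0,8,12]),(8,[20,12,7,0,13,21]),(9,[22,10,5,6,11,23]),(10,[24,19,5,9,22]),(11,[23,9,6,7,12]),(12,[23,11,7,8,20,25])], [14,17,15,16,13,21,20,25,23,22,24,19,18,4], [(3,17),(1,14),(2,15),(1,2)]⟩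
def c990 : RawB s990 := raw1 s990 (nat_lit 12) [⟨0,1,5,5,5,6,false,false⟩,⟨0,2,5,6,6,0,false,false⟩,⟨2,3,6,0,0,7,false,false⟩,⟨0,4,5,0,0,4,false,false⟩,⟨2,5,6,7,7,11,false,false⟩,⟨1,2,5,6,11,9,false,false⟩,⟨5,6,11,7,7,12,false,false⟩,⟨3,6,0,7,12,8,false,false⟩,⟨2,5,9,11,12,23,false,false⟩,⟨6,7,12,8,8,20,false,false⟩,⟨6,5,20,12,23,25,false,false⟩,⟨7,8,20,8,8,21,false,false⟩,⟨3,8,0,8,21,13,false,false⟩,⟨3,9,0,13,13,2,false,false⟩,⟨3,4,2,0,4,1,false,false⟩,⟨3,10,1,2,2,3,false,false⟩,⟨3,4,3,1,4,14,false,true⟩,⟨2,4,9,23,23,22,false,false⟩,⟨3,11,14,3,3,17,true,false⟩,⟨10,11,2,3,17,15,false,false⟩,⟨9,10,13,2,15,16,false,false⟩,⟨1,2,5,9,22,10,false,false⟩,⟨2,3,10,22,22,24,false,false⟩,⟨1,2,5,10,24,19,false,false⟩,⟨0,1,4,5,19,18,false,false⟩] (nat_lit 7) (nat_lit 42) (by decide +kernel)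
noncomputable def s991 : Raw := ⟨[(0,[8,7,6,5,4,1,2,13]),(1,[14,3,2,0,4]),(2,[16,13,0,1,3,15]),(3,[15,2,1,14,17]),(5,[18,4,0,6,9,10,19]),(6,[20,9,5,0,7,11]),(7,[11,6,0,8,12]),(8,[21,12,7,0,13,22]),(9,[23,10,5,6,20]),(10,[24,19,5,9,23]),(11,[20,6,7,12,25]),(12,[25,11,7,8,21])], [14,17,15,16,13,22,21,25,20,23,24,19,18,4], [(1,14),(2,15),(1,2)]⟩
def c991 : RawB s991 := raw1 s991 (nat_lit 12) [⟨0,1,5,5,5,6,false,false⟩,⟨0,2,5,6,6,0,false,false⟩,⟨2,3,6,0,0,7,false,false⟩,⟨0,4,5,0,0,4,false,false⟩,⟨3,5,0,7,7,8,false,false⟩,⟨5,6,7,8,8,12,false,false⟩,⟨2,5,6,7,12,11,false,false⟩,⟨6,7,12,8,8,21,false,false⟩,⟨5,6,11,12,21,25,false,false⟩,⟨2,5,6,11,25,20,false,false⟩,⟨1,2,5,6,20,9,false,false⟩,⟨7,8,21,8,8,22,false,false⟩,⟨3,8,0,8,22,13,false,false⟩,⟨3,9,0,13,13,2,false,false⟩,⟨3,4,2,0,4,1,false,false⟩,⟨3,10,1,2,2,3,false,false⟩,⟨3,4,3,1,4,14,false,true⟩,⟨2,4,9,20,20,23,false,false⟩,⟨3,11,14,3,3,17,true,false⟩,⟨10,11,2,3,17,15,false,false⟩,⟨9,10,13,2,15,16,false,false⟩,⟨1,2,5,9,23,10,false,false⟩,⟨2,3,10,23,23,24,false,false⟩,⟨1,2,5,10,24,19,false,false⟩,⟨0,1,4,5,19,18,false,false⟩]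 (nat_lit 7) (nat_lit 85) (by decide +kernel)
noncomputable def s992 : Raw := ⟨[(0,[9,8,7,6,1,2,3,13]),(1,[14,4,2,0,6,15]),(2,[5,3,0,1,4]),(3,[17,13,0,2,5,16]),(4,[18,5,2,1,14]),(5,[16,3,2,4,18]),(7,[19,6,0,8,10,11,20]),(8,[10,7,0,9,12]),(9,[21,12,8,0,13,22]),(10,[23,11,7,8,12]),(11,[24,20,7,10,23]),(12,[23,10,8,9,21])], [23,24,20,19,6,15,14,18,16,17,13,22,21], [(11,23)]⟩
def c992 : RawB s992 := raw1 s992 (nat_lit 11) [⟨0,1,0,0,0,9,false,false⟩,⟨0,2,9,0,0,8,false,false⟩,⟨2,3,0,8,8,7,false,false⟩,⟨3,4,8,7,7,10,false,false⟩,⟨0,3,9,8,10,12,false,false⟩,⟨3,5,12,10,10,23,false,false⟩,⟨0,3,9,12,23,21,false,true⟩,⟨2,8,0,7,7,6,false,false⟩,⟨2,3,0,6,6,1,false,false⟩,⟨3,7,1,6,6,15,false,false⟩,⟨3,6,1,15,15,14,false,false⟩,⟨4,9,10,7,7,11,false,false⟩,⟨4,5,11,10,23,23,false,false⟩,⟨4,10,23,11,11,24,true,false⟩,⟨9,10,7,11,24,20,false,false⟩,⟨8,9,6,7,20,19,false,false⟩,⟨3,4,1,14,14,4,false,false⟩,⟨2,3,0,1,4,2,false,false⟩,⟨4,5,4,14,14,18,false,false⟩,⟨3,4,2,4,18,5,false,false⟩,⟨2,3,0,2,5,3,false,false⟩,⟨3,4,3,5,18,16,false,false⟩,⟨2,1,3,0,9,13,false,false⟩,⟨2,3,13,3,16,17,false,false⟩,⟨1,0,13,9,21,22,false,false⟩]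 (nat_lit 6) (nat_lit 42) (by decide +kernel)
noncomputable def s993 : Raw := ⟨[(0,[12,10,1,2,3,4,11]),(1,[13,2,0,10,14]),(2,[15,5,3,0,1,13,16]),(3,[8,6,4,0,2,5,7,9]),(4,[18,11,0,3,6,17]),(5,[19,7,3,2,15,20]),(6,[17,4,3,8,21]),(7,[22,9,3,5,19]),(8,[21,6,3,9,23]),(9,[23,8,3,7,22])], [15,20,19,22,23,21,17,18,11,12,10,14,13,16], [(3,4),(4,17),(4,11)]⟩
def c993 : RawB s993 := raw1 s993 (nat_lit 12) [⟨0,1,3,3,3,6,false,false⟩,⟨0,2,3,6,6,4,false,false⟩,⟨0,3,3,4,4,0,false,false⟩,⟨1,4,3,6,6,8,false,false⟩,⟨3,5,0,4,4,11,false,false⟩,⟨5,6,11,4,4,18,false,false⟩,⟨2,6,6,4,18,17,false,false⟩,⟨2,7,6,17,17,21,false,false⟩,⟨2,4,21,6,8,8,false,false⟩,⟨2,8,8,21,21,23,false,false⟩,⟨1,2,3,8,23,9,false,false⟩,⟨1,4,9,3,3,7,false,false⟩,⟨2,9,9,23,23,22,false,false⟩,⟨1,2,7,9,22,22,false,false⟩,⟨1,10,7,22,22,19,false,false⟩,⟨4,1,3,7,19,5,false,false⟩,⟨0,4,0,3,5,2,false,false⟩,⟨0,2,2,0,0,1,false,false⟩,⟨1,11,5,19,19,20,false,false⟩,⟨4,1,2,5,20,15,false,true⟩,⟨0,1,2,1,1,13,false,false⟩,⟨0,4,13,2,15,16,false,true⟩,⟨3,4,0,11,11,12,false,false⟩,⟨2,3,1,0,12,10,false,false⟩,⟨2,1,10,1,13,14,false,false⟩]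 (nat_lit 9) (nat_lit 341) (by decide +kernel)
noncomputable def s994 : Raw := ⟨[(0,[13,11,1,2,3,4,12]),(1,[14,6,5,2,0,11,15]),(2,[9,7,3,0,1,5,8,10]),(3,[16,4,0,2,7,17]),(4,[18,12,0,3,16]),(5,[20,8,2,1,6,19]),(6,[19,5,1,14,21]),(7,[17,3,2,9,22]),(8,[23,10,2,5,20]),(9,[22,7,2,10,24]),(10,[24,9,2,8,23])], [16,18,12,13,11,15,14,21,19,20,23,24,22,17], [(2,8),(8,23),(9,24),(7,9)]⟩
def c994 : RawB s994 := raw1 s994 (nat_lit 12) [⟨0,1,10,10,10,24,false,false⟩,⟨0,2,10,24,24,23,false,false⟩,⟨0,3,10,23,23,8,false,false⟩,⟨0,4,10,8,8,2,false,false⟩,⟨0,1,2,10,24,9,false,false⟩,⟨4,5,8,2,2,5,false,false⟩,⟨4,3,5,8,23,20,false,false⟩,⟨0,6,9,2,2,7,false,false⟩,⟨0,1,7,9,24,22,false,false⟩,⟨6,7,7,2,2,3,false,false⟩,⟨6,0,3,7,22,17,false,false⟩,⟨7,8,2,3,3,0,false,false⟩,⟨7,5,0,2,5,1,false,false⟩,⟨7,9,1,0,0,11,false,false⟩,⟨8,10,3,0,0,4,false,false⟩,⟨8,6,4,3,17,16,false,true⟩,⟨5,6,5,1,1,6,false,false⟩,⟨8,11,16,4,4,18,true,false⟩,⟨10,11,0,4,18,12,false,false⟩,⟨9,10,11,0,12,13,false,false⟩,⟨5,4,6,5,20,19,false,false⟩,⟨7,8,1,11,11,15,false,false⟩,⟨6,7,6,1,15,14,false,false⟩,⟨6,5,14,6,19,21,false,false⟩]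 (nat_lit 7) (nat_lit 42) (by decide +kernel)
noncomputable def s995 : Raw := ⟨[(0,[8,7,6,5,4,1,2,13]),(1,[14,3,2,0,4]),(2,[16,13,0,1,3,15]),(3,[15,2,1,14,17]),(5,[18,4,0,6,9,19]),(6,[9,5,0,7,10]),(7,[12,10,6,0,8,11]),(8,[20,11,7,0,13,21]),(9,[19,5,6,10,22]),(10,[22,9,6,7,12]),(11,[23,12,7,8,20,24]),(12,[25,22,10,7,11,23])], [14,17,15,16,13,21,20,24,23,25,22,19,18,4], [(3,17),(1,14),(2,15),(1,2)]⟩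
def c995 : RawB s995 := raw1 s995 (nat_lit 12) [⟨0,1,0,0,0,6,false,false⟩,⟨0,2,0,6,6,7,false,false⟩,⟨2,3,6,7,7,10,false,false⟩,⟨3,4,10,7,7,12,false,false⟩,⟨4,5,12,7,7,11,false,false⟩,⟨0,5,0,7,11,8,false,false⟩,⟨0,7,0,8,8,13,false,false⟩,⟨0,8,0,13,13,2,false,false⟩,⟨0,6,0,2,2,1,false,false⟩,⟨8,9,2,13,13,16,false,false⟩,⟨8,10,2,16,16,15,false,false⟩,⟨6,8,1,2,15,3,false,false⟩,⟨8,11,3,15,15,17,false,false⟩,⟨6,8,1,3,17,14,false,true⟩,⟨0,6,0,1,14,4,false,true⟩,⟨0,1,4,0,6,5,false,false⟩,⟨1,2,5,6,10,9,false,false⟩,⟨2,3,9,10,12,22,false,false⟩,⟨1,2,5,9,22,19,false,false⟩,⟨0,1,4,5,19,18,false,false⟩,⟨7,8,8,13,13,21,false,false⟩,⟨5,7,11,8,21,20,false,false⟩,⟨5,6,11,20,20,24,false,false⟩,⟨4,5,12,11,24,23,false,false⟩,⟨3,4,22,12,23,25,false,false⟩] (nat_lit 6) (nat_lit 21) (by decide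 +kernel)
noncomputable def s996 : Raw := ⟨[(0,[8,7,6,5,4,1,2,12]),(1,[13,3,2,0,4]),(2,[15,12,0,1,3,14]),(3,[14,2,1,13,16]),(5,[17,4,0,6,18]),(6,[18,5,0,7,9]),(7,[9,6,0,8,10]),(8,[19,11,10,7,0,12,20]),(9,[18,6,7,10,21]),(10,[21,9,7,8,11,22]),(11,[22,10,8,19,23])], [13,16,14,15,12,20,19,23,22,21,18,17,4], [(3,16),(1,13),(2,14),(1,2)]⟩
def c996 : RawB s996 := raw1 s996 (nat_lit 11) [⟨0,1,9,9,9,18,false,false⟩,⟨0,2,9,18,18,21,false,false⟩,⟨0,3,9,21,21,10,false,false⟩,⟨3,4,21,10,10,22,false,false⟩,⟨0,5,9,10,10,7,false,false⟩,⟨0,1,7,9,18,6,false,false⟩,⟨5,6,10,7,7,8,false,false⟩,⟨5,4,8,10,22,11,false,false⟩,⟨0,6,6,7,8,0,false,false⟩,⟨0,1,0,6,18,5,false,false⟩,⟨0,7,5,0,0,4,false,false⟩,⟨7,8,4,0,0,1,false,false⟩,⟨7,9,1,4,4,13,false,true⟩,⟨7,9,13,1,1,3,false,false⟩,⟨8,9,0,1,3,2,false,false⟩,⟨8,6,2,0,8,12,false,false⟩,⟨7,10,13,3,3,16,true,false⟩,⟨9,10,2,3,16,14,false,false⟩,⟨8,9,12,2,14,15,false,false⟩,⟨0,1,4,5,18,17,false,false⟩,⟨6,7,8,12,12,20,false,false⟩,⟨5,6,11,8,20,19,false,false⟩,⟨5,4,19,11,22,23,false,false⟩]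 (nat_lit 6) (nat_lit 21) (by decide +kernel)
end Pool.Agent.FCT.R
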