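import Pool.Agent.Lib.MP_fe5cb4_co.FC.RawDef
set_option linter.defProp false
namespace Pool.Agent.FCT.R
open Pool.Agent.Lib.MP_fe5cb4_co.FC
noncomputable def s997 : Raw := ⟨[(0,[8,7,6,5,4,1,2,13]),(1,[14,3,2,0,4]),(2,[16,13,0,1,3,15]),(3,[15,2,1,14,17]),(5,[18,4,0,6,9,19]),(6,[9,5,0,7,10]),(7,[10,6,0,8,11]),(8,[20,12,11,7,0,13,21]),(9,[23,19,5,6,10,22]),(10,[22,9,6,7,11]),(11,[22,10,7,8,12,24]),(12,[24,11,8,20,25])], [14,17,15,16,13,21,20,25,24,22,23,19,18,4], [(3,17),(1,14),(2,15),(1,2)]⟩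
def c997 : RawB s997 := raw1 s997 (nat_lit 12) [⟨0,1,6,6,6,9,false,false⟩,⟨0,2,6,9,9,10,false,false⟩,⟨2,3,9,10,10,22,false,false⟩,⟨3,4,10,22,22,11,false,false⟩,⟨4,5,22,11,11,24,false,false⟩,⟨3,6,10,11,11,7,false,false⟩,⟨0,3,6,10,7,7,false,false⟩,⟨1,3,9,6,6,5,false,false⟩,⟨6,7,11,7,7,8,false,false⟩,⟨6,5,8,11,24,12,false,false⟩,⟨0,7,6,7,8,0,false,false⟩,⟨0,3,0,6,5,5,false,false⟩,⟨0,3,5,0,0,4,false,false⟩,⟨3,8,0,4,4,1,false,false⟩,⟨8,9,1,4,4,14,false,true⟩,⟨7,9,8,0,0,13,false,false⟩,⟨3,9,1,0,13,2,false,false⟩,⟨3,10,1,2,2,3,false,false⟩,⟨3,8,3,1,14,14,false,false⟩,⟨3,11,14,3,3,17,true,false⟩,⟨10,11,2,3,17,15,false,false⟩,⟨9,10,13,2,15,16,false,false⟩,⟨7,8,8,13,13,21,false,false⟩,⟨6,7,12,8,21,20,false,false⟩,⟨6,5,20,12,24,25,false,false⟩,⟨2,3,9,22,22,23,false,false⟩,⟨1,2,5,9,23,19,false,false⟩,⟨0,1,4,5,19,18,false,false⟩]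 (nat_lit 7) (nat_lit 42) (by decide +kernel)
noncomputable def s998 : Raw := ⟨[(0,[6,5,4,1,2,11]),(1,[12,3,2,0,4]),(2,[11,0,1,3,13]),(3,[13,2,1,12,14]),(5,[10,9,7,4,0,6,8,16]),(6,[17,8,5,0,11]),(7,[15,4,5,9,18]),(8,[19,16,5,6,17]),(9,[18,7,5,10,20]),(10,[20,9,5,16,21])], [12,14,13,11,17,19,16,21,20,18,15,4], [(3,12),(3,13),(0,5)]⟩
def c998 : RawB s998 := raw1 s998 (nat_lit 10) [⟨0,1,5,5,5,16,false,false⟩,⟨0,2,5,16,16,8,false,false⟩,⟨1,3,5,16,16,10,false,false⟩,⟨0,4,5,8,8,6,false,false⟩,⟨2,5,8,16,16,19,false,false⟩,⟨2,6,8,19,19,17,false,false⟩,⟨4,2,6,8,17,17,false,false⟩,⟨0,2,5,6,6,0,false,false⟩,⟨4,7,6,17,17,11,false,false⟩,⟨2,4,0,6,11,11,false,false⟩,⟨0,4,5,0,0,4,false,false⟩,⟨2,8,0,11,11,2,false,false⟩,⟨2,4,2,0,4,1,false,false⟩,⟨8,9,11,2,2,13,false,false⟩,⟨2,9,1,2,13,3,false,false⟩,⟨2,4,3,1,4,12,false,true⟩,⟨2,9,12,3,13,14,true,false⟩,⟨1,2,5,10,10,9,false,false⟩,⟨0,1,4,5,9,7,false,false⟩,⟨3,4,10,16,16,21,false,false⟩,⟨2,3,9,10,21,20,false,false⟩,⟨1,2,7,9,20,18,false,false⟩,⟨0,1,4,7,18,15,false,false⟩]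 (nat_lit 10) (nat_lit 682) (by decide +kernel)
noncomputable def s999 : Raw := ⟨[(0,[12,10,1,2,3,4,5,11]),(1,[13,6,2,0,10]),(2,[14,3,0,1,6]),(3,[15,7,4,0,2,14,16]),(4,[18,8,5,0,3,7,17]),(5,[11,0,4,8,9]),(6,[14,2,1,13,19]),(7,[17,4,3,15,20]),(8,[21,9,5,4,18,22]),(9,[23,11,5,8,21])], [18,22,21,23,11,12,10,13,19,14,16,15,20,17], [(2,0),(0,11),(0,10),(0,4)]⟩
def c999 : RawB s999 := raw1 s999 (nat_lit 12) [⟨0,1,0,0,0,1,false,false⟩,⟨0,2,0,1,1,2,false,false⟩,⟨2,3,2,1,1,6,false,false⟩,⟨2,4,2,6,6,14,false,false⟩,⟨0,2,0,2,14,3,false,false⟩,⟨4,5,14,6,6,19,false,false⟩,⟨3,5,1,6,19,13,false,false⟩,⟨3,6,1,13,13,10,false,false⟩,⟨1,3,0,1,10,10,false,false⟩,⟨0,3,3,0,0,4,false,false⟩,⟨1,7,0,10,10,12,false,false⟩,⟨1,8,0,12,12,11,false,false⟩,⟨3,1,4,0,11,5,false,false⟩,⟨1,9,5,11,11,9,false,false⟩,⟨3,1,4,5,9,8,false,false⟩,⟨9,10,11,9,9,23,false,false⟩,⟨1,10,8,9,23,21,false,false⟩,⟨1,11,8,21,21,22,false,false⟩,⟨3,1,4,8,22,18,false,true⟩,⟨0,1,4,3,3,7,false,false⟩,⟨0,3,7,4,18,17,false,true⟩,⟨2,3,3,14,14,16,false,false⟩,⟨1,2,7,3,16,15,false,false⟩,⟨1,0,15,7,17,20,false,false⟩]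 (nat_lit 17) (nat_lit 87381) (by decide +kernel)
noncomputable def s1000 : Raw := ⟨[(0,[8,7,6,5,4,1,2,10]),(1,[11,3,2,0,4]),(2,[10,0,1,3,12]),(3,[12,2,1,11,13]),(5,[14,4,0,6,9]),(6,[16,9,5,0,7,15]),(7,[18,15,6,0,8,17]),(8,[17,7,0,10,19]),(9,[20,14,5,6,16])], [10,19,17,18,15,16,20,14,4,11,13,12], [(0,6),(6,15),(9,20)]⟩
def c1000 : RawB s1000 := raw1 s1000 (nat_lit 10) [⟨0,1,6,6,6,7,false,false⟩,⟨0,2,7,6,6,0,false,false⟩,⟨2,3,0,6,6,5,false,false⟩,⟨3,4,5,6,6,9,false,false⟩,⟨0,5,0,7,7,8,false,false⟩,⟨4,6,9,6,6,16,false,false⟩,⟨1,6,7,6,16,15,false,false⟩,⟨1,7,7,15,15,18,false,false⟩,⟨1,8,7,18,18,17,false,false⟩,⟨1,5,17,7,8,8,false,false⟩,⟨1,9,8,17,17,19,false,false⟩,⟨0,1,0,8,19,10,false,true⟩,⟨0,1,10,0,0,2,false,false⟩,⟨0,5,2,10,10,12,false,true⟩,⟨4,5,9,16,16,20,false,false⟩,⟨3,4,5,9,20,14,false,false⟩,⟨2,3,0,5,14,4,false,false⟩,⟨1,2,2,0,4,1,false,false⟩,⟨1,0,1,2,12,3,false,false⟩,⟨1,2,3,1,4,11,false,false⟩,⟨1,0,11,3,12,13,false,false⟩]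 (nat_lit 10) (nat_lit 341) (by decide +kernel)
noncomputable def s1001 : Raw := ⟨[(0,[8,7,6,5,4,1,2,11]),(1,[12,3,2,0,4]),(2,[14,11,0,1,3,13]),(3,[13,2,1,12,15]),(5,[16,4,0,6,9]),(6,[18,9,5,0,7,17]),(7,[20,17,6,0,8,10,19]),(8,[21,10,7,0,11]),(9,[22,16,5,6,18]),(10,[23,19,7,8,21])], [17,18,22,16,4,12,15,13,14,11,21,23,19,20], [(0,6),(6,17),(5,4),(5,9)]⟩
def c1001 : RawB s1001 := raw1 s1001 (nat_lit 12) [⟨0,1,0,0,0,8,false,false⟩,⟨0,2,0,8,8,11,false,false⟩,⟨2,3,8,11,11,21,false,false⟩,⟨0,4,0,11,11,2,false,false⟩,⟨0,5,0,2,2,1,false,false⟩,⟨5,6,2,1,1,3,false,false⟩,⟨6,7,3,1,1,12,false,false⟩,⟨7,8,1,12,12,4,false,false⟩,⟨0,7,0,1,4,4,false,false⟩,⟨0,9,0,4,4,5,false,false⟩,⟨0,10,0,5,5,6,false,false⟩,⟨0,1,6,0,8,7,false,false⟩,⟨0,7,7,6,6,17,false,false⟩,⟨0,11,7,17,17,20,false,true⟩,⟨7,11,17,6,6,18,true,false⟩,⟨10,11,5,6,18,9,false,false⟩,⟨9,10,4,5,9,16,false,false⟩,⟨10,11,16,9,18,22,false,false⟩,⟨1,2,7,8,21,10,false,false⟩,⟨1,0,10,7,20,19,false,false⟩,⟨1,2,19,10,21,23,false,false⟩,⟨6,7,3,12,12,15,false,false⟩,⟨5,6,2,3,15,13,false,false⟩,⟨4,5,11,2,13,14,false,false⟩]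 (nat_lit 15) (nat_lit 10922) (by decide +kernel)
noncomputable def s1002 : Raw := ⟨[(0,[11,1,2,3,4,5,6,12]),(1,[13,7,2,0,11]),(2,[15,8,3,0,1,7,14,16]),(3,[9,4,0,2,8]),(4,[10,5,0,3,9,17]),(5,[20,18,6,0,4,10,19]),(6,[21,12,0,5,18]),(7,[14,2,1,13,22]),(8,[23,9,3,2,15]),(9,[17,4,3,8,23]),(10,[19,5,4,17,24])], [16,15,23,17,24,19,20,18,21,12,11,13,22,14], [(4,5),(10,17),(10,19)]⟩
def c1002 : RawB s1002 := raw1 s1002 (nat_lit 12) [⟨1,2,0,0,0,12,false,false⟩,⟨0,3,0,0,0,3,false,false⟩,⟨1,4,0,12,12,6,false,false⟩,⟨1,5,0,6,6,5,false,false⟩,⟨5,6,6,5,5,18,false,false⟩,⟨6,7,18,5,5,20,false,false⟩,⟨3,8,3,0,0,4,false,false⟩,⟨8,1,4,0,5,5,false,false⟩,⟨0,1,3,0,0,2,false,false⟩,⟨3,9,3,4,4,9,false,false⟩,⟨3,10,3,9,9,8,false,false⟩,⟨0,3,2,3,8,8,false,false⟩,⟨0,11,2,8,8,15,false,false⟩,⟨0,3,2,15,15,16,false,true⟩,⟨10,11,9,8,15,23,false,false⟩,⟨0,3,2,16,16,14,false,true⟩,⟨9,10,4,9,23,17,false,false⟩,⟨2,3,0,12,12,11,false,false⟩,⟨8,9,5,4,17,10,false,false⟩,⟨8,7,10,5,20,19,false,false⟩,⟨9,8,17,10,19,24,false,false⟩,⟨4,5,12,6,18,21,false,false⟩,⟨1,2,2,0,11,1,false,false⟩,⟨1,0,1,2,14,7,false,false⟩,⟨1,2,7,1,11,13,false,false⟩,⟨1,0,13,7,14,22,false,false⟩]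 (nat_lit 10) (nat_lit 341) (by decide +kernel)
noncomputable def s1003 : Raw := ⟨[(0,[6,5,4,1,2,11]),(1,[12,3,2,0,4]),(2,[11,0,1,3,13]),(3,[13,2,1,12,14]),(5,[9,7,4,0,6,8,10]),(6,[16,8,5,0,11,17]),(7,[15,4,5,9,18]),(8,[19,10,5,6,16,20]),(9,[22,18,7,5,10,21]),(10,[21,9,5,8,19])], [12,14,13,11,17,16,20,19,21,22,18,15,4], [(3,2),(2,11),(1,0)]⟩
def c1003 : RawB s1003 := raw1 s1003 (nat_lit 11) [⟨0,1,5,5,5,8,false,false⟩,⟨0,2,5,8,8,6,false,false⟩,⟨0,3,5,6,6,0,false,false⟩,⟨2,4,8,6,6,16,false,false⟩,⟨2,6,8,16,16,20,false,false⟩,⟨2,5,8,20,20,19,false,false⟩,⟨4,7,6,16,16,17,false,false⟩,⟨4,8,6,17,17,11,false,false⟩,⟨3,4,0,6,11,11,false,false⟩,⟨0,4,5,0,0,4,false,false⟩,⟨3,9,0,11,11,2,false,false⟩,⟨3,4,2,0,4,1,false,false⟩,⟨9,10,11,2,2,13,false,false⟩,⟨3,10,1,2,13,3,false,false⟩,⟨3,4,3,1,4,12,false,true⟩,⟨3,10,12,3,13,14,true,false⟩,⟨1,2,5,8,19,10,false,false⟩,⟨2,4,10,19,19,21,false,false⟩,⟨1,2,5,10,21,9,false,false⟩,⟨0,1,4,5,9,7,false,false⟩,⟨2,3,9,21,21,22,false,false⟩,⟨1,2,7,9,22,18,false,false⟩,⟨0,1,4,7,18,15,false,false⟩]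 (nat_lit 12) (nat_lit 2730) (by decide +kernel)
noncomputable def s1004 : Raw := ⟨[(0,[9,8,7,1,2,3,4,12]),(1,[13,2,0,7,14]),(2,[15,5,3,0,1,13,16]),(3,[6,4,0,2,5]),(4,[12,0,3,6,17]),(5,[18,6,3,2,15,19]),(6,[17,4,3,5,18]),(8,[20,7,0,9,10,11]),(9,[21,10,8,0,12,22]),(10,[23,11,8,9,21]),(11,[24,20,8,10,23])], [23,24,20,7,14,13,16,15,19,18,17,12,22,21], [(0,7),(0,12),(0,2),(3,4)]⟩
def c1004 : RawB s1004 := raw1 s1004 (nat_lit 12) [⟨0,1,0,0,0,12,false,false⟩,⟨0,2,0,12,12,4,false,false⟩,⟨2,3,12,4,4,17,false,false⟩,⟨3,4,17,4,4,6,false,false⟩,⟨0,4,0,4,6,3,false,false⟩,⟨4,5,6,3,3,5,false,false⟩,⟨4,3,5,6,17,18,false,false⟩,⟨0,5,0,3,5,2,false,false⟩,⟨0,6,0,2,2,1,false,false⟩,⟨1,7,12,0,0,9,false,false⟩,⟨0,8,0,1,1,7,false,false⟩,⟨0,9,0,7,7,8,false,false⟩,⟨0,7,8,0,9,9,false,false⟩,⟨0,7,9,8,8,10,false,false⟩,⟨9,10,8,7,7,20,false,false⟩,⟨7,9,10,8,20,11,false,false⟩,⟨9,11,11,20,20,24,false,false⟩,⟨7,9,10,11,24,23,false,true⟩,⟨0,7,9,10,23,21,false,true⟩,⟨1,0,12,9,21,22,false,false⟩,⟨8,9,1,7,7,14,false,false⟩,⟨6,8,2,1,14,13,false,false⟩,⟨6,7,2,13,13,16,false,false⟩,⟨5,6,5,2,16,15,false,false⟩,⟨5,4,15,5,18,19,false,false⟩]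 (nat_lit 9) (nat_lit 341) (by decide +kernel)
noncomputable def s1005 : Raw := ⟨[(0,[12,10,1,2,3,4,5,11]),(1,[13,6,2,0,10]),(2,[16,14,3,0,1,6,15]),(3,[7,4,0,2,14]),(4,[8,5,0,3,7]),(5,[18,11,0,4,8,9,17]),(6,[15,2,1,13,19]),(7,[20,8,4,3,14]),(8,[21,9,5,4,7,20]),(9,[22,17,5,8,21])], [13,19,15,16,14,20,21,22,17,18,11,12,10], [(0,4),(7,20)]⟩
def c1005 : RawB s1005 := raw1 s1005 (nat_lit 11) [⟨0,1,4,4,4,5,false,false⟩,⟨0,2,4,5,5,8,false,false⟩,⟨2,3,5,8,8,9,false,false⟩,⟨3,4,8,9,9,21,false,false⟩,⟨3,6,8,21,21,20,false,false⟩,⟨3,7,8,20,20,7,false,false⟩,⟨0,3,4,8,7,7,false,false⟩,⟨7,8,20,7,7,14,false,false⟩,⟨0,8,4,7,14,3,false,false⟩,⟨0,1,3,4,5,0,false,false⟩,⟨0,8,0,3,14,2,false,false⟩,⟨0,3,0,2,2,1,false,false⟩,⟨0,5,0,1,1,10,false,false⟩,⟨5,9,1,10,10,13,false,true⟩,⟨3,9,1,2,2,6,false,false⟩,⟨3,5,6,1,13,13,false,false⟩,⟨4,5,9,21,21,22,false,false⟩,⟨3,10,13,6,6,19,true,false⟩,⟨9,10,2,6,19,15,false,false⟩,⟨8,9,14,2,15,16,false,false⟩,⟨2,4,5,9,22,17,false,false⟩,⟨2,3,5,17,17,18,false,false⟩,⟨1,2,0,5,18,11,false,false⟩,⟨0,1,10,0,11,12,false,false⟩]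 (nat_lit 10) (nat_lit 682) (by decide +kernel)
noncomputable def s1006 : Raw := ⟨[(0,[5,3,1,2,4]),(1,[11,6,2,0,3,10]),(2,[14,12,4,0,1,6,13]),(3,[10,1,0,5,7]),(4,[15,9,8,5,0,2,12,16]),(5,[7,3,0,4,8]),(6,[13,2,1,11,17]),(7,[19,10,3,5,8,18]),(8,[21,18,7,5,4,9,20]),(9,[20,8,4,15,22])], [17,13,14,12,16,15,22,20,21,18,19,10,11], [(6,1),(1,10),(7,10),(7,8)]⟩
def c1006 : RawB s1006 := raw1 s1006 (nat_lit 11) [⟨0,1,3,3,3,10,false,false⟩,⟨0,2,10,3,3,1,false,false⟩,⟨2,3,3,1,1,0,false,false⟩,⟨0,4,10,1,1,11,false,false⟩,⟨4,5,11,1,1,6,false,false⟩,⟨5,6,1,6,6,2,false,false⟩,⟨3,5,0,1,2,2,false,false⟩,⟨3,8,0,2,2,4,false,false⟩,⟨2,3,3,0,4,5,false,false⟩,⟨2,1,5,3,10,7,false,false⟩,⟨3,2,4,5,7,8,false,false⟩,⟨3,5,8,4,4,9,false,false⟩,⟨5,7,9,4,4,15,false,false⟩,⟨6,9,6,2,2,13,false,false⟩,⟨4,6,11,6,13,17,true,true⟩,⟨5,6,9,15,15,22,false,false⟩,⟨3,5,8,9,22,20,false,false⟩,⟨3,4,8,20,20,21,false,false⟩,⟨9,10,2,13,13,14,false,false⟩,⟨8,9,4,2,14,12,false,false⟩,⟨8,7,12,4,15,16,false,false⟩,⟨2,3,7,8,21,18,false,false⟩,⟨1,2,10,7,18,19,false,false⟩]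 (nat_lit 6) (nat_lit 21) (by decide +kernel)
noncomputable def s1007 : Raw := ⟨[(0,[9,1,2,3,4,5]),(1,[10,6,2,0,9]),(2,[7,3,0,1,6]),(3,[13,11,4,0,2,7,8,12]),(4,[14,5,0,3,11,15]),(5,[16,9,0,4,14]),(6,[17,7,2,1,10,18]),(7,[19,8,3,2,6,17,20]),(8,[21,12,3,7,19])], [14,16,9,10,18,17,20,19,21,12,13,11,15], [(0,9),(3,12),(3,11),(3,7)]⟩
def c1007 : RawB s1007 := raw1 s1007 (nat_lit 11) [⟨0,1,2,2,2,7,false,false⟩,⟨0,2,2,7,7,3,false,false⟩,⟨2,3,3,7,7,8,false,false⟩,⟨0,4,3,2,2,0,false,false⟩,⟨3,5,8,7,7,19,false,false⟩,⟨5,6,19,7,7,20,false,false⟩,⟨6,7,20,7,7,17,false,false⟩,⟨1,7,2,7,17,6,false,false⟩,⟨1,8,2,6,6,1,false,false⟩,⟨1,4,1,2,0,0,false,false⟩,⟨8,9,6,1,1,10,false,false⟩,⟨8,7,10,6,17,18,false,false⟩,⟨1,9,0,1,10,9,false,false⟩,⟨1,4,9,0,0,5,false,false⟩,⟨0,4,3,0,5,4,false,false⟩,⟨1,10,5,9,9,16,false,false⟩,⟨4,1,4,5,16,14,false,true⟩,⟨0,1,4,3,3,11,false,false⟩,⟨0,4,11,4,14,15,false,true⟩,⟨3,4,8,19,19,21,false,false⟩,⟨2,3,3,8,21,12,false,false⟩,⟨1,2,11,3,12,13,false,false⟩]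 (nat_lit 10) (nat_lit 682) (by decide +kernel)
noncomputable def s1008 : Raw := ⟨[(0,[12,10,1,2,3,4,5,11]),(1,[13,6,2,0,10,14]),(2,[7,3,0,1,6,8]),(3,[9,4,0,2,7]),(4,[17,15,5,0,3,9,16]),(5,[18,11,0,4,15]),(6,[19,8,2,1,13,20]),(7,[9,3,2,8,21]),(8,[21,7,2,6,19,22]),(9,[16,4,3,7,21])], [15,18,11,12,10,14,13,20,19,22,21,16,17], [(9,7),(2,8),(8,19),(8,21)]⟩
def c1008 : RawB s1008 := raw1 s1008 (nat_lit 11) [⟨0,1,7,7,7,21,false,false⟩,⟨0,2,7,21,21,8,false,false⟩,⟨0,3,7,8,8,2,false,false⟩,⟨0,4,7,2,2,3,false,false⟩,⟨0,1,3,7,21,9,false,false⟩,⟨0,5,9,3,3,4,false,false⟩,⟨4,5,2,3,4,0,false,false⟩,⟨0,1,4,9,21,16,false,false⟩,⟨4,6,2,0,0,1,false,false⟩,⟨4,3,1,2,8,6,false,false⟩,⟨0,7,16,4,4,17,false,false⟩,⟨6,8,1,0,0,10,false,false⟩,⟨5,9,4,0,0,5,false,false⟩,⟨5,7,5,4,17,15,false,true⟩,⟨6,7,1,10,10,14,false,false⟩,⟨5,10,15,5,5,18,true,false⟩,⟨9,10,0,5,18,11,false,false⟩,⟨8,9,10,0,11,12,false,false⟩,⟨4,6,6,1,14,13,false,false⟩,⟨4,5,6,13,13,20,false,false⟩,⟨3,4,8,6,20,19,false,false⟩,⟨3,2,19,8,21,22,false,false⟩]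 (nat_lit 6) (nat_lit 42) (by decide +kernel)
end Pool.Agent.FCT.R
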