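import Pool.Agent.Lib.MP_fe5cb4_co.FC.RawDef
set_option linter.defProp false
namespace Pool.Agent.FCT.R
open Pool.Agent.Lib.MP_fe5cb4_co.FC
noncomputable def s1019 : Raw := ⟨[(0,[5,3,1,2,4]),(1,[11,6,2,0,3,10]),(2,[14,12,4,0,1,6,13]),(3,[10,1,0,5,15]),(4,[16,8,7,5,0,2,12,17]),(5,[15,3,0,4,7,9]),(6,[13,2,1,11,18]),(7,[20,9,5,4,8,19,21]),(8,[19,7,4,16,22]),(9,[23,15,5,7,20])], [11,18,13,14,12,17,16,22,19,21,20,23,15,10], [(2,13),(2,12),(2,0),(0,5)]⟩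
def c1019 : RawB s1019 := raw1 s1019 (nat_lit 12) [⟨0,1,9,9,9,15,false,false⟩,⟨0,2,15,9,9,5,false,false⟩,⟨0,3,15,5,5,3,false,false⟩,⟨3,4,5,3,3,0,false,false⟩,⟨3,5,5,0,0,4,false,false⟩,⟨3,2,4,5,9,7,false,false⟩,⟨0,6,15,3,3,10,false,false⟩,⟨4,6,0,3,10,1,false,false⟩,⟨4,5,1,0,4,2,false,false⟩,⟨5,9,4,2,2,12,false,false⟩,⟨5,8,4,12,12,17,false,false⟩,⟨4,10,1,2,2,6,false,false⟩,⟨4,6,6,1,10,11,false,true⟩,⟨4,11,11,6,6,18,true,false⟩,⟨10,11,2,6,18,13,false,false⟩,⟨9,10,12,2,13,14,false,false⟩,⟨5,7,4,17,17,16,false,false⟩,⟨3,5,7,4,16,8,false,false⟩,⟨5,6,8,16,16,22,false,false⟩,⟨3,5,7,8,22,19,false,false⟩,⟨3,4,7,19,19,21,false,false⟩,⟨2,3,9,7,21,20,false,false⟩,⟨1,2,15,9,20,23,false,false⟩] (nat_lit 11) (nat_lit 682) (by decide +kernel)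
noncomputable def s1020 : Raw := ⟨[(0,[11,1,2,3,4,5,6,12]),(1,[13,7,2,0,11,14]),(2,[16,8,3,0,1,7,15]),(3,[9,4,0,2,8]),(4,[10,5,0,3,9,17]),(5,[20,18,6,0,4,10,19]),(6,[21,12,0,5,18]),(7,[15,2,1,13,22]),(8,[23,9,3,2,16]),(9,[17,4,3,8,23]),(10,[19,5,4,17,24])], [15,16,23,17,24,19,20,18,21,12,11,14,13,22], [(1,11),(1,13),(2,16),(2,0)]⟩
def c1020 : RawB s1020 := raw1 s1020 (nat_lit 12) [⟨0,1,4,4,4,10,false,false⟩,⟨0,2,4,10,10,5,false,false⟩,⟨0,4,4,5,5,0,false,false⟩,⟨0,3,0,4,4,3,false,false⟩,⟨2,6,10,5,5,19,false,false⟩,⟨2,8,10,19,19,24,false,false⟩,⟨2,9,10,24,24,17,false,false⟩,⟨1,2,4,10,17,17,false,false⟩,⟨1,10,4,17,17,9,false,false⟩,⟨3,1,3,4,9,9,false,false⟩,⟨10,11,17,9,9,23,false,false⟩,⟨3,11,3,9,23,8,false,false⟩,⟨0,3,0,3,8,2,false,false⟩,⟨3,11,2,8,23,16,false,false⟩,⟨3,1,2,16,16,15,false,true⟩,⟨0,2,2,0,0,1,false,false⟩,⟨0,3,1,2,15,7,false,false⟩,⟨0,1,7,1,1,13,false,false⟩,⟨0,3,13,7,15,22,false,true⟩,⟨2,3,1,0,0,11,false,false⟩,⟨2,1,11,1,13,14,false,false⟩,⟨4,5,0,5,5,6,false,false⟩,⟨4,3,6,0,11,12,false,false⟩,⟨6,7,5,19,19,20,false,false⟩,⟨5,6,6,5,20,18,false,false⟩,⟨4,5,12,6,18,21,false,false⟩]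 (nat_lit 8) (nat_lit 85) (by decide +kernel)
noncomputable def s1021 : Raw := ⟨[(0,[12,10,1,2,3,4,5,11]),(1,[13,6,2,0,10]),(2,[16,14,3,0,1,6,15]),(3,[17,7,4,0,2,14]),(4,[8,5,0,3,7]),(5,[19,11,0,4,8,9,18]),(6,[15,2,1,13,20]),(7,[21,8,4,3,17]),(8,[9,5,4,7,21]),(9,[22,18,5,8,21])], [13,20,15,16,14,17,21,22,18,19,11,12,10], [(3,14),(0,3),(5,9),(9,21)]⟩
def c1021 : RawB s1021 := raw1 s1021 (nat_lit 11) [⟨0,1,0,0,0,5,false,false⟩,⟨0,2,0,5,5,4,false,false⟩,⟨2,3,5,4,4,8,false,false⟩,⟨2,4,5,8,8,9,false,false⟩,⟨3,5,8,4,4,7,false,false⟩,⟨3,4,7,8,9,21,false,false⟩,⟨3,6,7,21,21,17,false,false⟩,⟨3,7,7,17,17,3,false,false⟩,⟨3,5,3,7,4,4,false,false⟩,⟨0,3,0,4,3,3,false,false⟩,⟨7,8,17,3,3,14,false,false⟩,⟨0,8,0,3,14,2,false,false⟩,⟨0,3,0,2,2,1,false,false⟩,⟨0,5,0,1,1,10,false,false⟩,⟨3,9,1,2,2,6,false,false⟩,⟨3,5,6,1,10,13,false,true⟩,⟨4,5,9,21,21,22,false,false⟩,⟨3,10,13,6,6,20,true,false⟩,⟨9,10,2,6,20,15,false,false⟩,⟨8,9,14,2,15,16,false,false⟩,⟨2,4,5,9,22,18,false,false⟩,⟨2,3,5,18,18,19,false,false⟩,⟨1,2,0,5,19,11,false,false⟩,⟨0,1,10,0,11,12,false,false⟩]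 (nat_lit 8) (nat_lit 170) (by decide +kernel)
noncomputable def s1022 : Raw := ⟨[(0,[12,10,1,2,3,4,5,11]),(1,[13,6,2,0,10,14]),(2,[7,3,0,1,6]),(3,[17,15,4,0,2,7,16]),(4,[8,5,0,3,15]),(5,[19,11,0,4,8,9,18]),(6,[20,7,2,1,13]),(7,[21,16,3,2,6,20]),(8,[22,9,5,4,15]),(9,[23,18,5,8,22])], [22,23,18,19,11,12,10,14,13,20,21,16,17,15], [(5,18),(0,3),(3,16),(3,15)]⟩
def c1022 : RawB s1022 := raw1 s1022 (nat_lit 12) [⟨0,1,2,2,2,3,false,false⟩,⟨0,2,3,2,2,0,false,false⟩,⟨0,3,3,0,0,4,false,false⟩,⟨2,5,2,0,0,1,false,false⟩,⟨2,4,2,1,1,6,false,false⟩,⟨0,6,3,4,4,15,false,false⟩,⟨5,7,1,0,0,10,false,false⟩,⟨3,8,4,0,0,5,false,false⟩,⟨3,6,5,4,15,8,false,false⟩,⟨6,9,8,15,15,22,false,true⟩,⟨8,9,0,5,5,11,false,false⟩,⟨7,8,10,0,11,12,false,false⟩,⟨3,10,8,5,5,9,false,false⟩,⟨3,6,9,8,22,22,false,false⟩,⟨3,11,22,9,9,23,true,false⟩,⟨10,11,5,9,23,18,false,false⟩,⟨9,10,11,5,18,19,false,false⟩,⟨1,2,3,2,6,7,false,false⟩,⟨5,6,1,10,10,14,false,false⟩,⟨4,5,6,1,14,13,false,false⟩,⟨2,4,7,6,13,20,false,false⟩,⟨2,3,7,20,20,21,false,false⟩,⟨1,2,3,7,21,16,false,false⟩,⟨0,1,15,3,16,17,false,false⟩]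 (nat_lit 9) (nat_lit 341) (by decide +kernel)
noncomputable def s1023 : Raw := ⟨[(0,[8,7,6,5,4,1,2,12]),(1,[13,3,2,0,4]),(2,[12,0,1,3,14]),(3,[14,2,1,13,15]),(5,[16,4,0,6,9,10,17]),(6,[9,5,0,7,11]),(7,[19,11,6,0,8,18]),(8,[18,7,0,12,20]),(9,[21,10,5,6,11]),(10,[22,17,5,9,21]),(11,[21,9,6,7,19])], [13,15,14,12,20,18,19,21,22,17,16,4], [(3,15),(1,4),(2,12),(1,2)]⟩
def c1023 : RawB s1023 := raw1 s1023 (nat_lit 10) [⟨0,1,0,0,0,6,false,false⟩,⟨0,2,0,6,6,7,false,false⟩,⟨0,4,0,7,7,8,false,false⟩,⟨0,3,0,8,8,12,false,false⟩,⟨0,5,0,12,12,2,false,false⟩,⟨4,6,7,8,8,18,false,false⟩,⟨3,7,8,12,12,20,false,false⟩,⟨6,3,18,8,20,20,false,false⟩,⟨0,3,0,2,2,1,false,false⟩,⟨5,8,2,12,12,14,false,false⟩,⟨3,5,1,2,14,3,false,false⟩,⟨5,9,3,14,14,15,false,false⟩,⟨3,5,1,3,15,13,false,true⟩,⟨0,3,0,1,13,4,false,true⟩,⟨0,1,4,0,6,5,false,false⟩,⟨4,5,7,18,18,19,false,false⟩,⟨2,4,6,7,19,11,false,false⟩,⟨1,2,5,6,11,9,false,false⟩,⟨2,4,9,11,19,21,false,false⟩,⟨1,2,5,9,21,10,false,false⟩,⟨2,3,10,21,21,22,false,false⟩,⟨1,2,5,10,22,17,false,false⟩,⟨0,1,4,5,17,16,false,false⟩]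 (nat_lit 5) (nat_lit 10) (by decide +kernel)
noncomputable def s1024 : Raw := ⟨[(0,[10,9,8,7,1,2,3,11]),(1,[12,5,4,2,0,7,13]),(2,[6,3,0,1,4]),(3,[11,0,2,6,14]),(4,[16,6,2,1,5,15]),(5,[15,4,1,12,17]),(6,[14,3,2,4,16]),(8,[18,7,0,9,19]),(9,[21,19,8,0,10,20]),(10,[20,9,0,11,22])], [19,18,7,13,12,17,15,16,14,11,22,20,21], [(9,20),(9,19),(0,7),(0,11)]⟩
def c1024 : RawB s1024 := raw1 s1024 (nat_lit 11) [⟨0,1,0,0,0,11,false,false⟩,⟨0,2,0,11,11,3,false,false⟩,⟨2,3,3,11,11,14,false,false⟩,⟨2,4,3,14,14,6,false,false⟩,⟨0,2,0,3,6,2,false,false⟩,⟨4,5,14,6,6,16,false,false⟩,⟨2,5,2,6,16,4,false,false⟩,⟨2,6,2,4,4,1,false,false⟩,⟨0,2,0,2,1,1,false,false⟩,⟨1,2,0,11,11,10,false,false⟩,⟨1,7,10,0,0,9,false,false⟩,⟨0,8,0,1,1,7,false,false⟩,⟨0,7,7,0,9,8,false,false⟩,⟨0,10,8,7,7,18,false,false⟩,⟨7,0,9,8,18,19,false,true⟩,⟨7,0,19,9,9,21,true,false⟩,⟨1,0,10,9,21,20,false,false⟩,⟨2,1,11,10,20,22,false,false⟩,⟨6,7,4,1,1,5,false,false⟩,⟨6,5,5,4,16,15,false,false⟩,⟨8,9,1,7,7,13,false,false⟩,⟨7,8,5,1,13,12,false,false⟩,⟨7,6,12,5,15,17,false,false⟩]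 (nat_lit 9) (nat_lit 341) (by decide +kernel)
noncomputable def s1025 : Raw := ⟨[(0,[8,7,6,5,4,1,2,12]),(1,[13,3,2,0,4]),(2,[12,0,1,3,14]),(3,[14,2,1,13,15]),(5,[16,4,0,6,9,10,17]),(6,[9,5,0,7,11]),(7,[19,11,6,0,8,18]),(8,[18,7,0,12,20]),(9,[21,10,5,6,11,22]),(10,[23,17,5,9,21]),(11,[22,9,6,7,19])], [13,15,14,12,20,18,19,22,21,23,17,16,4], [(3,13),(3,14),(0,4),(0,7)]⟩
def c1025 : RawB s1025 := raw1 s1025 (nat_lit 11) [⟨0,1,6,6,6,9,false,false⟩,⟨0,2,6,9,9,11,false,false⟩,⟨2,3,9,11,11,22,false,false⟩,⟨2,4,9,22,22,21,false,false⟩,⟨3,5,11,22,22,19,false,false⟩,⟨3,6,11,19,19,7,false,false⟩,⟨0,3,6,11,7,7,false,false⟩,⟨1,3,9,6,6,5,false,false⟩,⟨0,7,6,7,7,0,false,false⟩,⟨0,3,0,6,5,5,false,false⟩,⟨0,3,5,0,0,4,false,false⟩,⟨3,8,4,0,0,1,false,false⟩,⟨3,9,1,4,4,13,false,true⟩,⟨3,9,13,1,1,3,false,false⟩,⟨8,9,0,1,3,2,false,false⟩,⟨3,10,13,3,3,15,true,false⟩,⟨9,10,2,3,15,14,false,false⟩,⟨8,9,0,2,14,12,false,false⟩,⟨7,8,7,0,12,8,false,false⟩,⟨7,6,8,7,19,18,false,false⟩,⟨8,7,12,8,18,20,false,false⟩,⟨1,2,5,9,21,10,false,false⟩,⟨2,3,10,21,21,23,false,false⟩,⟨1,2,5,10,23,17,false,false⟩,⟨0,1,4,5,17,16,false,false⟩]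 (nat_lit 7) (nat_lit 42) (by decide +kernel)
noncomputable def s1026 : Raw := ⟨[(0,[12,10,1,2,3,4,5,11]),(1,[13,6,2,0,10,14]),(2,[17,15,3,0,1,6,16]),(3,[7,4,0,2,15]),(4,[8,5,0,3,7]),(5,[19,11,0,4,8,9,18]),(6,[16,2,1,13,20]),(7,[21,8,4,3,15]),(8,[22,9,5,4,7,21]),(9,[23,18,5,8,22])], [22,23,18,19,11,12,10,14,13,20,16,17,15,21], [(2,0),(0,11),(0,10),(5,8)]⟩
def c1026 : RawB s1026 := raw1 s1026 (nat_lit 12) [⟨0,1,3,3,3,15,false,false⟩,⟨0,2,15,3,3,7,false,false⟩,⟨2,3,3,7,7,4,false,false⟩,⟨2,4,3,4,4,0,false,false⟩,⟨2,1,0,3,15,2,false,false⟩,⟨2,5,2,0,0,1,false,false⟩,⟨5,7,1,0,0,10,false,false⟩,⟨5,6,1,10,10,14,false,false⟩,⟨4,8,4,0,0,5,false,false⟩,⟨4,3,5,4,7,8,false,false⟩,⟨3,0,8,7,15,21,false,false⟩,⟨8,9,0,5,5,11,false,false⟩,⟨7,8,10,0,11,12,false,false⟩,⟨4,10,8,5,5,9,false,false⟩,⟨4,3,9,8,21,22,false,true⟩,⟨5,3,14,1,1,13,false,false⟩,⟨4,11,22,9,9,23,true,false⟩,⟨10,11,5,9,23,18,false,false⟩,⟨9,10,11,5,18,19,false,false⟩,⟨2,3,2,1,13,6,false,false⟩,⟨3,4,6,13,13,20,false,false⟩,⟨2,3,2,6,20,16,false,false⟩,⟨1,2,15,2,16,17,false,false⟩]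 (nat_lit 15) (nat_lit 10922) (by decide +kernel)
noncomputable def s1027 : Raw := ⟨[(0,[9,1,2,3,4]),(1,[10,5,2,0,9]),(2,[13,11,3,0,1,5,12]),(3,[14,7,6,4,0,2,11,15]),(4,[9,0,3,6,8]),(5,[12,2,1,10,16]),(6,[18,8,4,3,7,17,19]),(7,[17,6,3,14,20]),(8,[21,9,4,6,18])], [10,16,12,13,11,15,14,20,17,19,18,21,9], [(5,1),(2,0),(0,9)]⟩
def c1027 : RawB s1027 := raw1 s1027 (nat_lit 11) [⟨0,1,4,4,4,8,false,false⟩,⟨0,2,8,4,4,9,false,false⟩,⟨2,3,4,9,9,0,false,false⟩,⟨2,4,4,0,0,3,false,false⟩,⟨2,1,3,4,8,6,false,false⟩,⟨3,5,0,9,9,1,false,false⟩,⟨3,4,1,0,3,2,false,false⟩,⟨5,6,1,9,9,10,false,true⟩,⟨4,8,3,2,2,11,false,false⟩,⟨4,7,3,11,11,15,false,false⟩,⟨3,9,1,2,2,5,false,false⟩,⟨3,5,5,1,10,10,false,false⟩,⟨3,10,10,5,5,16,true,false⟩,⟨9,10,2,5,16,12,false,false⟩,⟨8,9,11,2,12,13,false,false⟩,⟨4,6,3,15,15,14,false,false⟩,⟨2,4,6,3,14,7,false,false⟩,⟨4,5,7,14,14,20,false,false⟩,⟨2,4,6,7,20,17,false,false⟩,⟨2,3,6,17,17,19,false,false⟩,⟨1,2,8,6,19,18,false,false⟩,⟨0,1,9,8,18,21,false,false⟩]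 (nat_lit 10) (nat_lit 682) (by decide +kernel)
noncomputable def s1028 : Raw := ⟨[(0,[10,9,8,7,1,2,3,14]),(1,[15,5,4,2,0,7,16]),(2,[6,3,0,1,4]),(3,[14,0,2,6,17]),(4,[19,6,2,1,5,18]),(5,[18,4,1,15,20]),(6,[17,3,2,4,19]),(8,[21,7,0,9,11,12,22]),(9,[11,8,0,10,13]),(10,[23,13,9,0,14]),(11,[24,12,8,9,13,25]),(12,[26,22,8,11,24]),(13,[25,11,9,10,23])], [24,26,22,21,7,16,15,20,18,19,17,14,23,25], [(0,2),(2,6)]⟩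
def c1028 : RawB s1028 := raw1 s1028 (nat_lit 12) [⟨0,1,3,3,3,17,false,false⟩,⟨0,2,3,17,17,14,false,false⟩,⟨1,3,3,17,17,6,false,false⟩,⟨0,4,14,3,3,0,false,false⟩,⟨4,5,3,0,0,2,false,false⟩,⟨4,1,2,3,6,6,false,false⟩,⟨0,6,14,0,0,10,false,false⟩,⟨0,1,10,14,14,23,false,false⟩,⟨6,7,10,0,0,9,false,false⟩,⟨6,0,9,10,23,13,false,false⟩,⟨6,8,13,9,9,11,false,false⟩,⟨7,8,0,9,11,8,false,false⟩,⟨6,0,11,13,23,25,false,false⟩,⟨7,9,0,8,8,7,false,false⟩,⟨5,7,2,0,7,1,false,false⟩,⟨5,4,1,2,6,4,false,false⟩,⟨4,3,4,6,17,19,false,false⟩,⟨8,10,11,8,8,12,false,false⟩,⟨8,6,12,11,25,24,false,true⟩,⟨5,6,4,1,1,5,false,false⟩,⟨5,4,5,4,19,18,false,false⟩,⟨8,11,24,12,12,26,true,false⟩,⟨10,11,8,12,26,22,false,false⟩,⟨9,10,7,8,22,21,false,false⟩,⟨7,8,1,7,7,16,false,false⟩,⟨6,7,5,1,16,15,false,false⟩,⟨6,5,15,5,18,20,false,false⟩]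 (nat_lit 6) (nat_lit 42) (by decide +kernel)
noncomputable def s1029 : Raw := ⟨[(0,[10,1,2,3,4,5,6,11]),(1,[12,7,2,0,10]),(2,[14,8,3,0,1,7,13,15]),(3,[16,4,0,2,8]),(4,[9,5,0,3,16]),(5,[19,17,6,0,4,9,18]),(6,[20,11,0,5,17]),(7,[13,2,1,12,21]),(8,[16,3,2,14,22]),(9,[18,5,4,16,23])], [21,13,15,14,22,16,23,18,19,17,20,11,10,12], [(3,16),(0,3),(9,16),(9,18)]⟩
def c1029 : RawB s1029 := raw1 s1029 (nat_lit 12) [⟨0,1,4,4,4,5,false,false⟩,⟨0,2,4,5,5,0,false,false⟩,⟨1,3,4,5,5,9,false,false⟩,⟨1,4,4,9,9,16,false,false⟩,⟨3,6,5,9,9,18,false,false⟩,⟨4,7,9,16,16,23,false,false⟩,⟨6,4,18,9,23,23,false,false⟩,⟨1,8,4,16,16,3,false,false⟩,⟨0,1,0,4,3,3,false,false⟩,⟨8,9,16,3,3,8,false,false⟩,⟨0,9,0,3,8,2,false,false⟩,⟨0,1,2,0,0,1,false,false⟩,⟨0,5,1,2,2,7,false,false⟩,⟨0,4,1,7,7,12,false,false⟩,⟨5,10,7,2,2,13,false,false⟩,⟨4,5,12,7,13,21,true,true⟩,⟨3,5,5,18,18,19,false,false⟩,⟨3,4,5,19,19,17,false,false⟩,⟨10,11,2,13,13,15,false,false⟩,⟨9,10,8,2,15,14,false,false⟩,⟨9,8,14,8,16,22,false,false⟩,⟨2,3,0,5,17,6,false,false⟩,⟨1,0,0,1,12,10,false,false⟩,⟨2,1,6,0,10,11,false,false⟩,⟨2,3,11,6,17,20,false,false⟩]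 (nat_lit 13) (nat_lit 5461) (by decide +kernel)
noncomputable def s1030 : Raw := ⟨[(0,[8,7,6,5,4,1,2,11]),(1,[12,3,2,0,4]),(2,[14,11,0,1,3,13]),(3,[13,2,1,12,15]),(5,[16,4,0,6,17]),(6,[19,17,5,0,7,9,18]),(7,[9,6,0,8,10]),(8,[20,10,7,0,11]),(9,[22,18,6,7,10,21]),(10,[21,9,7,8,20])], [12,15,13,14,11,20,21,22,18,19,17,16,4], [(7,10),(9,21),(6,9)]⟩
def c1030 : RawB s1030 := raw1 s1030 (nat_lit 11) [⟨0,1,0,0,0,6,false,false⟩,⟨0,2,0,6,6,7,false,false⟩,⟨2,3,6,7,7,9,false,false⟩,⟨3,4,7,9,9,10,false,false⟩,⟨0,3,0,7,10,8,false,false⟩,⟨3,5,8,10,10,20,false,false⟩,⟨5,6,10,20,20,21,false,false⟩,⟨4,5,9,10,21,21,false,false⟩,⟨3,7,8,20,20,11,false,false⟩,⟨0,3,0,8,11,11,false,false⟩,⟨0,8,0,11,11,2,false,false⟩,⟨0,3,0,2,2,1,false,false⟩,⟨0,5,0,1,1,4,false,false⟩,⟨3,9,1,2,2,3,false,false⟩,⟨3,5,3,1,4,12,false,true⟩,⟨4,5,9,21,21,22,false,false⟩,⟨3,10,12,3,3,15,true,false⟩,⟨9,10,2,3,15,13,false,false⟩,⟨8,9,11,2,13,14,false,false⟩,⟨2,4,6,9,22,18,false,false⟩,⟨0,1,4,0,6,5,false,false⟩,⟨2,3,6,18,18,19,false,false⟩,⟨1,2,5,6,19,17,false,false⟩,⟨0,1,4,5,17,16,false,false⟩]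 (nat_lit 11) (nat_lit 682) (by decide +kernel)
noncomputable def s1031 : Raw := ⟨[(0,[8,7,6,5,4,1,2,11]),(1,[12,3,2,0,4]),(2,[11,0,1,3,13]),(3,[13,2,1,12,14]),(5,[15,4,0,6,9,16]),(6,[9,5,0,7,10]),(7,[18,10,6,0,8,17,19]),(8,[17,7,0,11,20]),(9,[16,5,6,10,21]),(10,[21,9,6,7,18])], [12,14,13,11,20,17,19,18,21,16,15,4], [(0,7),(7,17),(7,18),(5,9)]⟩
def c1031 : RawB s1031 := raw1 s1031 (nat_lit 10) [⟨0,1,5,5,5,9,false,false⟩,⟨0,2,5,9,9,6,false,false⟩,⟨0,3,5,6,6,0,false,false⟩,⟨0,4,5,0,0,4,false,false⟩,⟨3,5,6,0,0,7,false,false⟩,⟨3,2,7,6,9,10,false,false⟩,⟨4,6,4,0,0,1,false,false⟩,⟨4,7,4,1,1,12,true,false⟩,⟨3,4,10,7,7,18,false,false⟩,⟨7,8,12,1,1,3,false,false⟩,⟨6,8,0,1,3,2,false,false⟩,⟨7,9,12,3,3,14,true,false⟩,⟨8,9,2,3,14,13,false,false⟩,⟨6,8,0,2,13,11,false,false⟩,⟨5,6,7,0,11,8,false,false⟩,⟨2,3,9,10,18,21,false,false⟩,⟨1,2,5,9,21,16,false,false⟩,⟨0,1,4,5,16,15,false,false⟩,⟨6,7,8,11,11,20,false,false⟩,⟨5,6,7,8,20,17,false,false⟩,⟨5,4,17,7,18,19,false,false⟩]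 (nat_lit 8) (nat_lit 85) (by decide +kernel)
end Pool.Agent.FCT.R
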