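import Pool.Agent.Lib.MP_fe5cb4_co.FC.RawDef
set_option linter.defProp false
namespace Pool.Agent.FCT.R
open Pool.Agent.Lib.MP_fe5cb4_co.FC
noncomputable def s1041 : Raw := ⟨[(0,[8,7,6,5,4,1,2,10]),(1,[11,3,2,0,4]),(2,[13,10,0,1,3,12]),(3,[12,2,1,11,14]),(5,[15,4,0,6,16]),(6,[16,5,0,7,17]),(7,[19,17,6,0,8,9,18]),(8,[20,9,7,0,10]),(9,[21,18,7,8,20])], [14,12,13,10,20,21,18,19,17,16,15,4,11], [(1,11),(2,12),(1,2)]⟩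
def c1041 : RawB s1041 := raw1 s1041 (nat_lit 11) [⟨0,1,4,4,4,5,false,false⟩,⟨0,2,4,5,5,0,false,false⟩,⟨2,3,5,0,0,6,false,false⟩,⟨3,5,6,0,0,7,false,false⟩,⟨3,4,6,7,7,17,false,false⟩,⟨0,6,4,0,0,1,false,false⟩,⟨0,7,4,1,1,11,false,false⟩,⟨7,8,11,1,1,3,false,false⟩,⟨6,8,0,1,3,2,false,false⟩,⟨8,9,3,2,2,12,false,false⟩,⟨7,8,11,3,12,14,true,true⟩,⟨9,10,2,12,12,13,false,false⟩,⟨6,9,0,2,13,10,false,false⟩,⟨5,6,7,0,10,8,false,false⟩,⟨2,3,5,6,17,16,false,false⟩,⟨1,2,4,5,16,15,false,false⟩,⟨6,8,8,10,10,20,false,false⟩,⟨5,6,7,8,20,9,false,false⟩,⟨6,7,9,20,20,21,false,false⟩,⟨5,6,7,9,21,18,false,false⟩,⟨4,5,17,7,18,19,false,false⟩] (nat_lit 15) (nat_lit 10922) (by decide +kernel)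
noncomputable def s1042 : Raw := ⟨[(0,[9,1,2,3,4,5,6,10]),(1,[11,7,2,0,9]),(2,[14,12,3,0,1,7,13]),(3,[15,4,0,2,12]),(4,[16,5,0,3,15]),(5,[17,8,6,0,4,16,18]),(6,[10,0,5,8,19]),(7,[13,2,1,11,20]),(8,[19,6,5,17,21])], [14,12,15,16,18,17,21,19,10,9,11,20,13], [(7,11),(7,13),(0,10),(0,5)]⟩
def c1042 : RawB s1042 := raw1 s1042 (nat_lit 11) [⟨0,1,1,1,1,11,false,false⟩,⟨0,2,1,11,11,9,false,false⟩,⟨0,3,1,9,9,0,false,false⟩,⟨0,4,1,0,0,2,false,false⟩,⟨0,1,2,1,11,7,false,false⟩,⟨0,5,7,2,2,13,false,false⟩,⟨1,0,11,7,13,20,false,false⟩,⟨5,6,2,13,13,14,false,true⟩,⟨5,7,14,2,2,12,true,false⟩,⟨4,7,0,2,12,3,false,false⟩,⟨7,10,3,12,12,15,false,false⟩,⟨4,7,0,3,15,4,false,false⟩,⟨7,9,4,15,15,16,false,false⟩,⟨4,7,0,4,16,5,false,false⟩,⟨4,5,0,5,5,6,false,false⟩,⟨4,3,6,0,9,10,false,false⟩,⟨5,6,6,5,5,8,false,false⟩,⟨5,4,8,6,10,19,false,false⟩,⟨7,8,5,16,16,18,false,false⟩,⟨6,7,8,5,18,17,false,false⟩,⟨6,5,17,8,19,21,false,false⟩]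 (nat_lit 12) (nat_lit 1365) (by decide +kernel)
noncomputable def s1043 : Raw := ⟨[(0,[9,8,7,1,2,3,4,11]),(1,[12,5,2,0,7]),(2,[15,13,3,0,1,5,14]),(3,[16,6,4,0,2,13]),(4,[11,0,3,6,17]),(5,[14,2,1,12,18]),(6,[17,4,3,16,19]),(8,[20,7,0,9,10]),(9,[21,10,8,0,11]),(10,[22,20,8,9,21])], [13,16,19,17,11,21,22,20,7,12,18,14,15], [(3,13),(0,3),(4,11),(4,6)]⟩
def c1043 : RawB s1043 := raw1 s1043 (nat_lit 11) [⟨0,1,9,9,9,10,false,false⟩,⟨0,2,9,10,10,8,false,false⟩,⟨0,3,8,9,9,0,false,false⟩,⟨2,4,10,8,8,20,false,false⟩,⟨0,4,0,8,20,7,false,false⟩,⟨2,5,10,20,20,22,false,false⟩,⟨2,6,10,22,22,21,false,false⟩,⟨1,2,9,10,21,21,false,false⟩,⟨0,2,0,7,7,1,false,false⟩,⟨1,7,9,21,21,11,false,false⟩,⟨3,1,0,9,11,11,false,false⟩,⟨0,1,0,1,1,2,false,false⟩,⟨3,8,0,11,11,4,false,false⟩,⟨0,3,2,0,4,3,false,false⟩,⟨8,9,11,4,4,17,false,false⟩,⟨3,9,3,4,17,6,false,false⟩,⟨9,10,17,6,6,19,false,false⟩,⟨3,10,3,6,19,16,false,false⟩,⟨0,3,2,3,16,13,false,true⟩,⟨0,3,2,13,13,15,false,true⟩,⟨2,3,1,7,7,12,false,false⟩,⟨1,2,2,1,12,5,false,false⟩,⟨1,0,5,2,15,14,false,false⟩,⟨2,1,12,5,14,18,false,false⟩]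 (nat_lit 13) (nat_lit 2730) (by decide +kernel)
noncomputable def s1044 : Raw := ⟨[(0,[11,1,2,3,4]),(1,[12,5,2,0,11]),(2,[6,3,0,1,5]),(3,[13,7,4,0,2,6,8,14]),(4,[11,0,3,7,9,10,15]),(5,[16,6,2,1,12,17]),(6,[18,8,3,2,5,16,19]),(7,[20,9,4,3,13]),(8,[21,14,3,6,18]),(9,[22,10,4,7,20,23]),(10,[24,15,4,9,22])], [16,19,18,21,14,13,20,23,22,24,15,11,12,17], [(0,11),(0,3),(5,12),(5,16)]⟩
def c1044 : RawB s1044 := raw1 s1044 (nat_lit 12) [⟨0,1,1,1,1,11,false,false⟩,⟨0,2,1,11,11,0,false,false⟩,⟨2,3,11,0,0,4,false,false⟩,⟨3,4,4,0,0,3,false,false⟩,⟨4,5,0,3,3,2,false,false⟩,⟨0,4,1,0,2,2,false,false⟩,⟨3,7,4,3,3,7,false,false⟩,⟨3,4,4,7,7,9,false,false⟩,⟨7,8,7,3,3,13,false,false⟩,⟨4,7,9,7,13,20,false,false⟩,⟨5,9,2,3,3,6,false,false⟩,⟨0,5,1,2,6,5,false,false⟩,⟨0,1,5,1,11,12,false,false⟩,⟨5,6,6,5,5,16,false,false⟩,⟨0,6,12,5,16,17,false,true⟩,⟨4,6,9,20,20,23,false,false⟩,⟨5,10,16,6,6,19,true,false⟩,⟨4,5,9,23,23,22,false,false⟩,⟨10,11,6,19,19,18,false,false⟩,⟨9,10,3,6,18,8,false,false⟩,⟨9,8,8,3,13,14,false,false⟩,⟨9,10,14,8,18,21,false,false⟩,⟨3,4,4,9,22,10,false,false⟩,⟨3,2,10,4,11,15,false,false⟩,⟨3,4,15,10,22,24,false,false⟩]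 (nat_lit 8) (nat_lit 170) (by decide +kernel)
noncomputable def s1045 : Raw := ⟨[(0,[9,1,2,3,4]),(1,[10,2,0,9,11]),(2,[12,5,3,0,1,10,13]),(3,[15,7,6,4,0,2,5,14]),(4,[9,0,3,6,8]),(5,[14,3,2,12,16]),(6,[18,8,4,3,7,17,19]),(7,[17,6,3,15,20]),(8,[21,9,4,6,18])], [9,11,10,13,12,16,14,15,20,17,19,18,21], [(0,9),(0,3),(8,18),(8,9)]⟩
def c1045 : RawB s1045 := raw1 s1045 (nat_lit 11) [⟨0,1,4,4,4,6,false,false⟩,⟨0,2,4,6,6,3,false,false⟩,⟨0,3,4,3,3,0,false,false⟩,⟨3,4,3,0,0,2,false,false⟩,⟨3,7,3,2,2,5,false,false⟩,⟨3,6,3,5,5,14,false,false⟩,⟨3,5,3,14,14,15,false,false⟩,⟨7,8,5,2,2,12,false,false⟩,⟨7,6,12,5,14,16,false,false⟩,⟨4,9,0,2,2,1,false,false⟩,⟨4,0,1,0,4,9,false,false⟩,⟨1,0,6,4,9,8,false,false⟩,⟨0,10,8,9,9,21,false,true⟩,⟨4,10,9,1,1,11,true,false⟩,⟨9,10,2,1,11,10,false,false⟩,⟨9,8,10,2,12,13,false,false⟩,⟨2,3,6,3,15,7,false,false⟩,⟨1,0,6,8,21,18,false,false⟩,⟨3,4,7,15,15,20,false,false⟩,⟨2,3,6,7,20,17,false,false⟩,⟨2,1,17,6,18,19,false,false⟩]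 (nat_lit 9) (nat_lit 341) (by decide +kernel)
noncomputable def s1046 : Raw := ⟨[(0,[8,7,6,5,4,1,2,13]),(1,[14,3,2,0,4]),(2,[13,0,1,3,15]),(3,[15,2,1,14,16]),(5,[17,4,0,6,9,18]),(6,[11,9,5,0,7,10,12]),(7,[20,10,6,0,8,19]),(8,[19,7,0,13,21]),(9,[23,18,5,6,11,22]),(10,[24,12,6,7,20]),(11,[22,9,6,12,25]),(12,[25,11,6,10,24])], [14,16,15,13,21,19,20,24,25,22,23,18,17,4], [(3,14),(3,15),(2,13),(1,2)]⟩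
def c1046 : RawB s1046 := raw1 s1046 (nat_lit 12) [⟨0,1,0,0,0,6,false,false⟩,⟨0,2,0,6,6,7,false,false⟩,⟨2,3,6,7,7,10,false,false⟩,⟨2,4,6,10,10,12,false,false⟩,⟨3,5,7,10,10,20,false,false⟩,⟨5,6,10,20,20,24,false,false⟩,⟨4,5,12,10,24,24,false,false⟩,⟨3,7,7,20,20,19,false,false⟩,⟨3,8,7,19,19,8,false,false⟩,⟨0,3,0,7,8,8,false,false⟩,⟨8,9,19,8,8,21,false,false⟩,⟨0,9,0,8,21,13,false,false⟩,⟨0,5,0,13,13,2,false,false⟩,⟨0,3,0,2,2,1,false,false⟩,⟨5,10,2,13,13,15,false,false⟩,⟨3,5,1,2,15,3,false,false⟩,⟨5,11,3,15,15,16,false,false⟩,⟨3,5,1,3,16,14,false,true⟩,⟨0,3,0,1,14,4,false,true⟩,⟨0,1,4,0,6,5,false,false⟩,⟨4,5,12,24,24,25,false,false⟩,⟨2,4,6,12,25,11,false,false⟩,⟨1,2,5,6,11,9,false,false⟩,⟨2,4,9,11,25,22,false,false⟩,⟨2,3,9,22,22,23,false,false⟩,⟨1,2,5,9,23,18,false,false⟩,⟨0,1,4,5,18,17,false,false⟩]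 (nat_lit 7) (nat_lit 42) (by decide +kernel)
noncomputable def s1047 : Raw := ⟨[(0,[5,3,1,2,4]),(1,[6,2,0,3,10]),(2,[13,11,4,0,1,6,12]),(3,[10,1,0,5,14]),(4,[15,8,7,5,0,2,11,16]),(5,[14,3,0,4,7,9]),(6,[12,2,1,10,17]),(7,[19,9,5,4,8,18,20]),(8,[18,7,4,15,21]),(9,[22,14,5,7,19])], [10,17,12,13,11,16,15,21,18,20,19,22,14], [(6,10),(6,12),(2,4),(5,14)]⟩
def c1047 : RawB s1047 := raw1 s1047 (nat_lit 11) [⟨0,1,10,10,10,14,false,true⟩,⟨0,1,14,10,10,3,false,false⟩,⟨0,2,14,3,3,5,false,false⟩,⟨1,3,3,10,10,1,false,false⟩,⟨1,4,3,1,1,0,false,false⟩,⟨2,1,5,3,0,0,false,false⟩,⟨0,1,14,5,5,9,false,false⟩,⟨4,5,0,1,1,2,false,false⟩,⟨4,2,2,0,5,4,false,false⟩,⟨2,1,4,5,9,7,false,false⟩,⟨4,8,4,2,2,11,false,false⟩,⟨4,7,4,11,11,16,false,false⟩,⟨5,9,1,2,2,6,false,false⟩,⟨3,5,10,1,6,6,false,false⟩,⟨3,10,10,6,6,17,true,false⟩,⟨9,10,2,6,17,12,false,false⟩,⟨8,9,11,2,12,13,false,false⟩,⟨4,6,4,16,16,15,false,false⟩,⟨2,4,7,4,15,8,false,false⟩,⟨4,5,8,15,15,21,false,false⟩,⟨2,4,7,8,21,18,false,false⟩,⟨2,3,7,18,18,20,false,false⟩,⟨1,2,9,7,20,19,false,false⟩,⟨0,1,14,9,19,22,false,false⟩]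 (nat_lit 8) (nat_lit 170) (by decide +kernel)
noncomputable def s1048 : Raw := ⟨[(0,[8,7,6,5,4,1,2,11]),(1,[12,3,2,0,4]),(2,[14,11,0,1,3,13]),(3,[13,2,1,12,15]),(5,[16,4,0,6,9,17]),(6,[9,5,0,7,10]),(7,[19,10,6,0,8,18,20]),(8,[18,7,0,11,21]),(9,[17,5,6,10,22]),(10,[22,9,6,7,19])], [15,13,14,11,21,18,20,19,22,17,16,4,12], [(0,6),(7,10),(10,22)]⟩
def c1048 : RawB s1048 := raw1 s1048 (nat_lit 11) [⟨0,1,5,5,5,9,false,false⟩,⟨0,2,9,5,5,6,false,false⟩,⟨1,3,5,9,9,17,false,false⟩,⟨3,4,17,9,9,22,false,false⟩,⟨0,4,6,9,22,10,false,false⟩,⟨4,5,22,10,10,19,false,false⟩,⟨0,5,6,10,19,7,false,false⟩,⟨0,6,6,7,7,0,false,false⟩,⟨0,2,0,6,5,5,false,false⟩,⟨1,2,5,17,17,16,false,false⟩,⟨0,1,0,5,16,4,false,false⟩,⟨0,7,4,0,0,1,false,false⟩,⟨0,8,4,1,1,12,false,false⟩,⟨8,9,12,1,1,3,false,false⟩,⟨7,9,0,1,3,2,false,false⟩,⟨8,10,3,12,12,15,false,true⟩,⟨9,8,2,3,15,13,false,true⟩,⟨9,10,2,13,13,14,false,false⟩,⟨7,9,0,2,14,11,false,false⟩,⟨6,7,7,0,11,8,false,false⟩,⟨7,8,8,11,11,21,false,false⟩,⟨6,7,7,8,21,18,false,false⟩,⟨6,5,18,7,19,20,false,false⟩]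 (nat_lit 10) (nat_lit 341) (by decide +kernel)
noncomputable def s1049 : Raw := ⟨[(0,[6,5,4,1,2,11]),(1,[12,3,2,0,4]),(2,[14,11,0,1,3,13]),(3,[13,2,1,12,15]),(5,[9,7,4,0,6,8,10]),(6,[17,8,5,0,11,18]),(7,[16,4,5,9,19]),(8,[20,10,5,6,17,21]),(9,[23,19,7,5,10,22]),(10,[22,9,5,8,20])], [12,15,13,14,11,18,17,21,20,22,23,19,16,4], [(3,12),(3,13),(2,14),(2,0)]⟩
def c1049 : RawB s1049 := raw1 s1049 (nat_lit 12) [⟨0,1,5,5,5,10,false,false⟩,⟨0,2,5,10,10,8,false,false⟩,⟨2,5,10,8,8,20,false,false⟩,⟨0,6,5,8,8,6,false,false⟩,⟨0,3,5,6,6,0,false,false⟩,⟨0,4,5,0,0,4,false,false⟩,⟨6,7,8,6,6,17,false,false⟩,⟨6,5,17,8,20,21,false,false⟩,⟨7,8,17,6,6,18,false,false⟩,⟨3,8,0,6,18,11,false,false⟩,⟨3,9,0,11,11,2,false,false⟩,⟨3,4,2,0,4,1,false,false⟩,⟨3,10,1,2,2,3,false,false⟩,⟨3,4,3,1,4,12,false,true⟩,⟨2,4,10,20,20,22,false,false⟩,⟨3,11,12,3,3,15,true,false⟩,⟨10,11,2,3,15,13,false,false⟩,⟨9,10,11,2,13,14,false,false⟩,⟨1,2,5,10,22,9,false,false⟩,⟨0,1,4,5,9,7,false,false⟩,⟨2,3,9,22,22,23,false,false⟩,⟨1,2,7,9,23,19,false,false⟩,⟨0,1,4,7,19,16,false,false⟩]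 (nat_lit 13) (nat_lit 5461) (by decide +kernel)
noncomputable def s1050 : Raw := ⟨[(0,[13,11,1,2,3,4,5,12]),(1,[14,7,6,2,0,11,15]),(2,[8,3,0,1,6]),(3,[18,16,4,0,2,8,17]),(4,[9,5,0,3,16]),(5,[20,12,0,4,9,10,19]),(6,[8,2,1,7,21]),(7,[21,6,1,14,22]),(8,[17,3,2,6,21]),(9,[23,10,5,4,16]),(10,[24,19,5,9,23])], [24,19,20,12,13,11,15,14,22,21,17,18,16,23], [(0,3),(3,17),(3,16)]⟩
def c1050 : RawB s1050 := raw1 s1050 (nat_lit 12) [⟨0,1,3,3,3,8,false,false⟩,⟨0,2,8,3,3,2,false,false⟩,⟨1,3,3,8,8,17,false,false⟩,⟨3,4,17,8,8,21,false,false⟩,⟨0,4,2,8,21,6,false,false⟩,⟨4,5,21,6,6,7,false,false⟩,⟨0,5,2,6,7,1,false,false⟩,⟨0,6,2,1,1,0,false,false⟩,⟨0,2,0,2,3,3,false,false⟩,⟨1,2,3,17,17,18,false,false⟩,⟨0,7,3,0,0,4,false,false⟩,⟨0,1,4,3,18,16,false,false⟩,⟨7,8,4,0,0,5,false,false⟩,⟨7,0,5,4,16,9,false,false⟩,⟨0,9,16,9,9,23,false,false⟩,⟨7,9,5,9,23,10,false,false⟩,⟨7,10,10,5,5,19,false,false⟩,⟨7,9,19,10,23,24,true,true⟩,⟨10,11,5,19,19,20,false,false⟩,⟨8,10,0,5,20,12,false,false⟩,⟨8,9,0,12,12,13,false,false⟩,⟨6,8,1,0,13,11,false,false⟩,⟨6,7,1,11,11,15,false,false⟩,⟨5,6,7,1,15,14,false,false⟩,⟨5,4,14,7,21,22,false,false⟩]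 (nat_lit 7) (nat_lit 85) (by decide +kernel)
noncomputable def s1051 : Raw := ⟨[(0,[11,1,2,3,4,5,6,12]),(1,[13,7,2,0,11]),(2,[15,8,3,0,1,7,14,16]),(3,[17,4,0,2,8]),(4,[18,9,5,0,3,17,19]),(5,[10,6,0,4,9]),(6,[21,12,0,5,10,20]),(7,[14,2,1,13,22]),(8,[17,3,2,15,23]),(9,[24,10,5,4,18]),(10,[20,6,5,9,24])], [13,22,14,16,15,23,17,19,18,24,20,21,12,11], [(0,4),(4,17),(4,18)]⟩
def c1051 : RawB s1051 := raw1 s1051 (nat_lit 12) [⟨0,1,0,0,0,4,false,false⟩,⟨0,2,0,4,4,3,false,false⟩,⟨2,3,4,3,3,17,false,false⟩,⟨3,4,17,3,3,8,false,false⟩,⟨0,4,0,3,8,2,false,false⟩,⟨2,6,4,17,17,19,false,false⟩,⟨2,5,4,19,19,18,false,false⟩,⟨3,7,8,17,17,23,false,false⟩,⟨3,8,8,23,23,15,false,false⟩,⟨4,3,2,8,15,15,false,false⟩,⟨0,3,0,2,2,1,false,false⟩,⟨4,9,2,15,15,16,false,false⟩,⟨4,10,2,16,16,14,false,false⟩,⟨3,4,1,2,14,7,false,false⟩,⟨4,11,7,14,14,22,false,false⟩,⟨3,4,1,7,22,13,false,true⟩,⟨0,3,0,1,13,11,false,true⟩,⟨2,3,4,18,18,9,false,false⟩,⟨1,2,0,4,9,5,false,false⟩,⟨3,4,9,18,18,24,false,false⟩,⟨2,3,5,9,24,10,false,false⟩,⟨1,2,0,5,10,6,false,false⟩,⟨2,3,6,10,24,20,false,false⟩,⟨1,0,6,0,11,12,false,false⟩,⟨1,2,12,6,20,21,false,false⟩]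 (nat_lit 9) (nat_lit 341) (by decide +kernel)
noncomputable def s1052 : Raw := ⟨[(0,[8,7,6,5,4,1,2,11]),(1,[12,3,2,0,4]),(2,[14,11,0,1,3,13]),(3,[13,2,1,12,15]),(5,[16,4,0,6,17]),(6,[19,17,5,0,7,9,18]),(7,[9,6,0,8,10]),(8,[20,10,7,0,11,21]),(9,[18,6,7,10,22]),(10,[22,9,7,8,20])], [12,15,13,14,11,21,20,22,18,19,17,16,4], [(0,8),(8,20)]⟩
def c1052 : RawB s1052 := raw1 s1052 (nat_lit 11) [⟨0,1,0,0,0,7,false,false⟩,⟨0,2,0,7,7,8,false,false⟩,⟨2,4,7,8,8,10,false,false⟩,⟨0,6,0,8,8,11,false,false⟩,⟨0,5,0,11,11,2,false,false⟩,⟨0,3,0,2,2,1,false,false⟩,⟨6,7,8,11,11,21,false,false⟩,⟨4,6,10,8,21,20,false,false⟩,⟨5,8,2,11,11,14,false,false⟩,⟨5,9,2,14,14,13,false,false⟩,⟨3,5,1,2,13,3,false,false⟩,⟨5,10,3,13,13,15,false,false⟩,⟨3,5,1,3,15,12,false,true⟩,⟨0,3,0,1,12,4,false,true⟩,⟨4,5,10,20,20,22,false,false⟩,⟨2,4,7,10,22,9,false,false⟩,⟨1,2,0,7,9,6,false,false⟩,⟨2,4,6,9,22,18,false,false⟩,⟨0,1,4,0,6,5,false,false⟩,⟨2,3,6,18,18,19,false,false⟩,⟨1,2,5,6,19,17,false,false⟩,⟨0,1,4,5,17,16,false,false⟩]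 (nat_lit 11) (nat_lit 1365) (by decide +kernel)
end Pool.Agent.FCT.R
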