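import Pool.Agent.Lib.MP_fe5cb4_co.FC.RawDef
set_option linter.defProp false
namespace Pool.Agent.FCT.R
open Pool.Agent.Lib.MP_fe5cb4_co.FC
noncomputable def s1066 : Raw := ⟨[(0,[9,7,1,2,8]),(1,[10,6,5,4,3,2,0,7,11]),(2,[8,0,1,3,12]),(3,[12,2,1,4,13]),(4,[13,3,1,5,14]),(5,[14,4,1,6,15]),(6,[15,5,1,10,16])], [9,7,11,10,16,15,14,13,12,8], [(0,8),(0,7),(6,10),(6,15)]⟩
def c1066 : RawB s1066 := raw1 s1066 (nat_lit 8) [⟨0,1,3,3,3,13,false,false⟩,⟨0,2,3,13,13,4,false,false⟩,⟨0,3,3,4,4,1,false,false⟩,⟨0,4,3,1,1,2,false,false⟩,⟨0,1,2,3,13,12,false,false⟩,⟨0,5,12,2,2,8,false,false⟩,⟨4,5,1,2,8,0,false,false⟩,⟨4,6,0,1,1,7,false,false⟩,⟨4,5,7,0,8,9,true,true⟩,⟨3,4,4,1,1,5,false,false⟩,⟨3,2,5,4,13,14,false,false⟩,⟨4,5,5,1,1,6,false,false⟩,⟨4,3,6,5,14,15,false,false⟩,⟨6,7,1,7,7,11,false,false⟩,⟨5,6,6,1,11,10,false,false⟩,⟨5,4,10,6,15,16,false,false⟩]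 (nat_lit 6) (nat_lit 21) (by decide +kernel)
noncomputable def s1067 : Raw := ⟨[(0,[9,7,1,2,8]),(1,[10,6,5,4,3,2,0,7,11]),(2,[8,0,1,3,12]),(3,[12,2,1,4,13]),(4,[13,3,1,5,14]),(5,[16,14,4,1,6,15]),(6,[15,5,1,10,17])], [8,9,7,11,10,17,15,16,14,13,12], [(0,8),(0,7),(2,12),(2,1)]⟩
def c1067 : RawB s1067 := raw1 s1067 (nat_lit 9) [⟨0,1,3,3,3,13,false,false⟩,⟨0,2,13,3,3,12,false,false⟩,⟨2,3,3,12,12,2,false,false⟩,⟨2,4,3,2,2,1,false,false⟩,⟨2,1,1,3,13,4,false,false⟩,⟨3,5,12,2,2,8,true,false⟩,⟨4,5,1,2,8,0,false,false⟩,⟨2,3,4,1,1,5,false,false⟩,⟨2,1,5,4,13,14,false,false⟩,⟨5,8,8,0,0,9,true,false⟩,⟨4,8,1,0,9,7,false,false⟩,⟨4,7,1,7,7,11,false,false⟩,⟨4,6,1,11,11,10,false,false⟩,⟨3,4,5,1,10,6,false,false⟩,⟨4,5,6,10,10,17,false,false⟩,⟨3,4,5,6,17,15,false,false⟩,⟨2,3,14,5,15,16,false,false⟩]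 (nat_lit 10) (nat_lit 341) (by decide +kernel)
noncomputable def s1068 : Raw := ⟨[(0,[10,8,1,2,3,4,5,6,9]),(1,[11,7,2,0,8,12]),(2,[13,3,0,1,7]),(3,[14,4,0,2,13]),(4,[15,5,0,3,14]),(5,[16,6,0,4,15]),(6,[17,9,0,5,16]),(7,[13,2,1,11,18])], [16,17,9,10,8,12,11,18,13,14,15], [(6,16),(6,9),(0,3),(3,13)]⟩
def c1068 : RawB s1068 := raw1 s1068 (nat_lit 9) [⟨0,1,2,2,2,13,false,false⟩,⟨0,2,2,13,13,7,false,false⟩,⟨0,3,2,7,7,1,false,false⟩,⟨0,4,2,1,1,0,false,false⟩,⟨0,1,0,2,13,3,false,false⟩,⟨0,5,3,0,0,4,false,false⟩,⟨0,1,4,3,13,14,false,false⟩,⟨5,6,4,0,0,5,false,false⟩,⟨5,0,5,4,14,15,false,false⟩,⟨5,7,5,15,15,16,false,true⟩,⟨5,7,16,5,5,6,false,false⟩,⟨7,6,6,5,0,0,false,false⟩,⟨4,6,1,0,0,8,false,false⟩,⟨5,8,16,6,6,17,true,false⟩,⟨7,8,0,6,17,9,false,false⟩,⟨6,7,8,0,9,10,false,false⟩,⟨4,5,1,8,8,12,false,false⟩,⟨3,4,7,1,12,11,false,false⟩,⟨3,2,11,7,13,18,false,false⟩]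 (nat_lit 6) (nat_lit 42) (by decide +kernel)
noncomputable def s1069 : Raw := ⟨[(0,[10,8,1,2,3,4,5,6,9]),(1,[11,7,2,0,8,12]),(2,[13,3,0,1,7,14]),(3,[15,4,0,2,13]),(4,[16,5,0,3,15]),(5,[17,6,0,4,16]),(6,[18,9,0,5,17]),(7,[14,2,1,11,19])], [18,9,10,8,12,11,19,14,13,15,16,17], [(6,17),(6,9),(0,3),(3,13)]⟩
def c1069 : RawB s1069 := raw1 s1069 (nat_lit 10) [⟨0,1,3,3,3,15,false,false⟩,⟨0,2,3,15,15,13,false,false⟩,⟨0,3,3,13,13,2,false,false⟩,⟨0,4,3,2,2,0,false,false⟩,⟨0,1,0,3,15,4,false,false⟩,⟨0,5,4,0,0,5,false,false⟩,⟨0,1,5,4,15,16,false,false⟩,⟨0,6,16,5,5,17,false,false⟩,⟨5,6,0,5,17,6,false,false⟩,⟨4,7,2,0,0,1,false,false⟩,⟨5,8,6,0,0,9,false,false⟩,⟨5,6,9,6,17,18,true,true⟩,⟨4,5,2,1,1,7,false,false⟩,⟨4,3,7,2,13,14,false,false⟩,⟨5,6,7,1,1,11,false,false⟩,⟨5,4,11,7,14,19,false,false⟩,⟨8,9,0,9,9,10,false,false⟩,⟨7,8,1,0,10,8,false,false⟩,⟨7,6,8,1,11,12,false,false⟩]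 (nat_lit 9) (nat_lit 341) (by decide +kernel)
noncomputable def s1070 : Raw := ⟨[(0,[11,9,1,2,3,4,5,6,10]),(1,[12,7,2,0,9,13]),(2,[8,3,0,1,7]),(3,[14,4,0,2,8]),(4,[15,5,0,3,14]),(5,[16,6,0,4,15]),(6,[17,10,0,5,16]),(7,[18,8,2,1,12,19]),(8,[14,3,2,7,18])], [16,17,10,11,9,13,12,19,18,14,15], [(6,5),(0,3),(3,14),(1,7)]⟩
def c1070 : RawB s1070 := raw1 s1070 (nat_lit 9) [⟨0,1,2,2,2,8,false,false⟩,⟨0,2,2,8,8,7,false,false⟩,⟨0,3,2,7,7,1,false,false⟩,⟨0,4,2,1,1,0,false,false⟩,⟨0,1,0,2,8,3,false,false⟩,⟨0,5,3,0,0,4,false,false⟩,⟨0,1,4,3,8,14,false,false⟩,⟨2,1,7,8,14,18,false,false⟩,⟨5,6,4,0,0,5,false,false⟩,⟨5,0,5,4,14,15,false,false⟩,⟨5,7,5,15,15,16,false,true⟩,⟨5,7,16,5,5,6,false,false⟩,⟨7,6,6,5,0,0,false,false⟩,⟨4,6,1,0,0,9,false,false⟩,⟨5,8,16,6,6,17,true,false⟩,⟨7,8,0,6,17,10,false,false⟩,⟨6,7,9,0,10,11,false,false⟩,⟨4,5,1,9,9,13,false,false⟩,⟨3,4,7,1,13,12,false,false⟩,⟨3,2,12,7,18,19,false,false⟩]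 (nat_lit 5) (nat_lit 10) (by decide +kernel)
noncomputable def s1071 : Raw := ⟨[(0,[11,9,1,2,3,4,5,6,10]),(1,[12,7,2,0,9,13]),(2,[14,3,0,1,7,8]),(3,[15,4,0,2,14,16]),(4,[17,5,0,3,15]),(5,[18,6,0,4,17]),(6,[19,10,0,5,18]),(7,[20,8,2,1,12]),(8,[21,14,2,7,20])], [11,9,13,12,20,21,14,16,15,17,18,19,10], [(1,9),(1,12),(0,2),(2,14)]⟩
def c1071 : RawB s1071 := raw1 s1071 (nat_lit 11) [⟨0,1,0,0,0,4,false,false⟩,⟨0,2,0,4,4,3,false,false⟩,⟨2,3,4,3,3,15,false,false⟩,⟨3,4,3,15,15,16,false,false⟩,⟨3,5,3,16,16,14,false,false⟩,⟨0,3,0,3,14,2,false,false⟩,⟨3,6,2,14,14,8,false,false⟩,⟨6,7,14,8,8,21,false,false⟩,⟨7,8,21,8,8,20,false,false⟩,⟨3,8,2,8,20,7,false,false⟩,⟨8,9,20,7,7,12,false,false⟩,⟨3,9,2,7,12,1,false,false⟩,⟨0,3,0,2,1,1,false,false⟩,⟨9,10,12,1,1,13,false,false⟩,⟨0,10,0,1,13,9,false,false⟩,⟨0,3,0,9,9,11,false,true⟩,⟨0,3,0,11,11,10,false,true⟩,⟨2,3,4,15,15,17,false,false⟩,⟨1,2,0,4,17,5,false,false⟩,⟨1,0,5,0,10,6,false,false⟩,⟨1,2,6,5,17,18,false,false⟩,⟨0,1,10,6,18,19,false,false⟩]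 (nat_lit 9) (nat_lit 170) (by decide +kernel)
noncomputable def s1072 : Raw := ⟨[(0,[9,7,1,2,8]),(1,[10,6,5,4,3,2,0,7,11]),(2,[8,0,1,3,12]),(3,[12,2,1,4,13]),(4,[15,13,3,1,5,14]),(5,[14,4,1,6,16]),(6,[16,5,1,10,17])], [8,9,7,11,10,17,16,14,15,13,12], [(2,12),(1,4),(4,14),(4,13)]⟩
def c1072 : RawB s1072 := raw1 s1072 (nat_lit 9) [⟨0,1,4,4,4,15,false,false⟩,⟨0,2,4,15,15,14,false,false⟩,⟨0,3,4,14,14,5,false,false⟩,⟨0,4,4,5,5,1,false,false⟩,⟨0,5,4,1,1,3,false,false⟩,⟨0,1,3,4,15,13,false,false⟩,⟨5,6,3,1,1,2,false,false⟩,⟨5,0,2,3,13,12,false,false⟩,⟨5,7,12,2,2,8,true,false⟩,⟨6,7,1,2,8,0,false,false⟩,⟨4,5,5,1,1,6,false,false⟩,⟨4,3,6,5,14,16,false,false⟩,⟨7,8,8,0,0,9,true,false⟩,⟨6,8,1,0,9,7,false,false⟩,⟨6,7,1,7,7,11,false,false⟩,⟨5,6,6,1,11,10,false,false⟩,⟨5,4,10,6,16,17,false,false⟩]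 (nat_lit 10) (nat_lit 682) (by decide +kernel)
noncomputable def s1073 : Raw := ⟨[(0,[10,8,1,2,3,4,5,6,9]),(1,[11,7,2,0,8,12]),(2,[13,3,0,1,7]),(3,[14,4,0,2,13,15]),(4,[16,5,0,3,14]),(5,[17,6,0,4,16]),(6,[18,9,0,5,17]),(7,[13,2,1,11,19])], [17,18,9,10,8,12,11,19,13,15,14,16], [(5,0),(0,3),(3,13),(3,14)]⟩
def c1073 : RawB s1073 := raw1 s1073 (nat_lit 10) [⟨0,1,3,3,3,15,false,false⟩,⟨0,2,3,15,15,13,false,false⟩,⟨0,3,3,13,13,2,false,false⟩,⟨0,4,3,2,2,0,false,false⟩,⟨0,5,3,0,0,4,false,false⟩,⟨0,1,4,3,15,14,false,false⟩,⟨5,6,4,0,0,5,false,false⟩,⟨5,0,5,4,14,16,false,false⟩,⟨6,7,5,0,0,6,false,false⟩,⟨6,5,6,5,16,17,false,true⟩,⟨4,5,2,0,0,1,false,false⟩,⟨4,3,1,2,13,7,false,false⟩,⟨6,9,17,6,6,18,true,false⟩,⟨7,9,0,6,18,9,false,false⟩,⟨7,8,0,9,9,10,false,false⟩,⟨5,7,1,0,10,8,false,false⟩,⟨5,6,1,8,8,12,false,false⟩,⟨4,5,7,1,12,11,false,false⟩,⟨4,3,11,7,13,19,false,false⟩]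 (nat_lit 10) (nat_lit 682) (by decide +kernel)
noncomputable def s1074 : Raw := ⟨[(0,[10,8,1,2,3,4,5,6,9]),(1,[11,7,2,0,8,12]),(2,[13,3,0,1,7]),(3,[14,4,0,2,13]),(4,[15,5,0,3,14]),(5,[16,6,0,4,15,17]),(6,[18,9,0,5,16]),(7,[13,2,1,11,19])], [10,8,12,11,19,13,14,15,17,16,18,9], [(5,15),(5,16),(5,0),(4,14)]⟩
def c1074 : RawB s1074 := raw1 s1074 (nat_lit 10) [⟨0,1,5,5,5,6,false,false⟩,⟨0,2,6,5,5,0,false,false⟩,⟨2,3,5,0,0,4,false,false⟩,⟨3,4,0,4,4,3,false,false⟩,⟨4,5,4,3,3,14,false,false⟩,⟨2,4,5,4,14,15,false,false⟩,⟨5,6,14,3,3,13,false,false⟩,⟨3,6,0,3,13,2,false,false⟩,⟨6,7,13,2,2,7,false,false⟩,⟨3,7,0,2,7,1,false,false⟩,⟨3,8,0,1,1,8,false,false⟩,⟨3,9,0,8,8,10,false,true⟩,⟨0,3,6,0,10,9,false,true⟩,⟨2,3,5,15,15,17,false,false⟩,⟨1,2,6,5,17,16,false,false⟩,⟨8,9,1,8,8,12,false,false⟩,⟨7,8,7,1,12,11,false,false⟩,⟨7,6,11,7,13,19,false,false⟩,⟨0,1,9,6,16,18,false,false⟩]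 (nat_lit 9) (nat_lit 170) (by decide +kernel)
noncomputable def s1075 : Raw := ⟨[(0,[9,7,1,2,8]),(1,[10,6,5,4,3,2,0,7,11]),(2,[8,0,1,3,12]),(3,[12,2,1,4,13]),(4,[15,13,3,1,5,14]),(5,[17,14,4,1,6,16]),(6,[16,5,1,10,18])], [17,14,15,13,12,8,9,7,11,10,18,16], [(0,2),(1,4),(4,14),(4,13)]⟩
def c1075 : RawB s1075 := raw1 s1075 (nat_lit 10) [⟨0,1,0,0,0,2,false,false⟩,⟨0,2,2,0,0,1,false,false⟩,⟨0,3,1,2,2,3,false,false⟩,⟨2,4,1,0,0,7,false,false⟩,⟨4,5,7,0,0,9,false,false⟩,⟨1,5,2,0,9,8,false,false⟩,⟨1,6,2,8,8,12,false,false⟩,⟨3,1,3,2,12,12,false,false⟩,⟨3,7,3,12,12,13,false,false⟩,⟨0,3,1,3,13,4,false,false⟩,⟨3,8,4,13,13,15,false,false⟩,⟨3,9,4,15,15,14,false,false⟩,⟨0,3,1,4,14,5,false,false⟩,⟨3,1,5,14,14,17,false,true⟩,⟨0,1,5,1,1,6,false,false⟩,⟨0,3,6,5,17,16,false,true⟩,⟨2,3,1,7,7,11,false,false⟩,⟨1,2,6,1,11,10,false,false⟩,⟨1,0,10,6,16,18,false,false⟩]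 (nat_lit 25) (nat_lit 22369621) (by decide +kernel)
noncomputable def s1076 : Raw := ⟨[(0,[10,8,1,2,3,4,5,6,9]),(1,[11,2,0,8,12]),(2,[13,7,3,0,1,11]),(3,[14,4,0,2,7]),(4,[15,5,0,3,14,16]),(5,[17,6,0,4,15,18]),(6,[19,9,0,5,17]),(7,[14,3,2,13,20])], [14,16,15,18,17,19,9,10,8,12,11,13,20], [(6,19),(0,4),(4,14),(4,15)]⟩
def c1076 : RawB s1076 := raw1 s1076 (nat_lit 11) [⟨0,1,0,0,0,3,false,false⟩,⟨0,2,3,0,0,2,false,false⟩,⟨0,3,2,3,3,7,false,false⟩,⟨1,4,3,0,0,4,false,false⟩,⟨1,5,3,4,4,14,false,false⟩,⟨3,1,7,3,14,14,false,false⟩,⟨4,9,0,4,4,5,false,false⟩,⟨4,6,0,5,5,6,false,false⟩,⟨6,8,6,5,5,17,false,false⟩,⟨6,7,6,17,17,19,false,false⟩,⟨4,6,0,6,19,9,false,false⟩,⟨0,1,7,2,2,13,false,false⟩,⟨5,10,14,4,4,16,true,false⟩,⟨9,10,5,4,16,15,false,false⟩,⟨9,8,15,5,17,18,false,false⟩,⟨0,3,13,7,14,20,false,true⟩,⟨2,3,2,0,0,1,false,false⟩,⟨2,1,1,2,13,11,false,false⟩,⟨4,5,0,9,9,10,false,false⟩,⟨3,4,1,0,10,8,false,false⟩,⟨3,2,8,1,11,12,false,false⟩]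 (nat_lit 23) (nat_lit 2796202) (by decide +kernel)
noncomputable def s1077 : Raw := ⟨[(0,[11,9,1,2,3,4,5,6,10]),(1,[12,7,2,0,9,13]),(2,[8,3,0,1,7]),(3,[14,4,0,2,8]),(4,[15,5,0,3,14]),(5,[16,6,0,4,15,17]),(6,[18,10,0,5,16]),(7,[19,8,2,1,12,20]),(8,[14,3,2,7,19])], [15,17,16,18,10,11,9,13,12,20,19,14], [(5,15),(5,16),(5,0)]⟩
def c1077 : RawB s1077 := raw1 s1077 (nat_lit 10) [⟨0,1,2,2,2,7,false,false⟩,⟨0,2,2,7,7,1,false,false⟩,⟨0,3,2,1,1,0,false,false⟩,⟨0,4,2,0,0,3,false,false⟩,⟨0,1,3,2,7,8,false,false⟩,⟨4,5,3,0,0,4,false,false⟩,⟨4,0,4,3,8,14,false,false⟩,⟨1,0,7,8,14,19,false,false⟩,⟨4,6,4,14,14,15,false,true⟩,⟨5,4,0,4,15,5,false,false⟩,⟨4,7,15,5,5,17,true,false⟩,⟨7,9,5,17,17,16,false,false⟩,⟨5,7,0,5,16,6,false,false⟩,⟨7,8,6,16,16,18,false,false⟩,⟨5,7,0,6,18,10,false,false⟩,⟨5,6,0,10,10,11,false,false⟩,⟨3,5,1,0,11,9,false,false⟩,⟨3,4,1,9,9,13,false,false⟩,⟨2,3,7,1,13,12,false,false⟩,⟨2,1,12,7,19,20,false,false⟩]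 (nat_lit 6) (nat_lit 21) (by decide +kernel)
noncomputable def s1078 : Raw := ⟨[(0,[11,9,1,2,3,4,5,6,10]),(1,[12,7,2,0,9,13]),(2,[8,3,0,1,7]),(3,[14,4,0,2,8,15]),(4,[16,5,0,3,14]),(5,[17,6,0,4,16]),(6,[18,10,0,5,17]),(7,[19,8,2,1,12,20]),(8,[15,3,2,7,19])], [18,10,11,9,13,12,20,19,15,14,16,17], [(6,17),(6,10),(5,16),(5,0)]⟩
def c1078 : RawB s1078 := raw1 s1078 (nat_lit 10) [⟨0,1,3,3,3,14,false,false⟩,⟨0,2,3,14,14,15,false,false⟩,⟨0,3,3,15,15,8,false,false⟩,⟨0,4,3,8,8,2,false,false⟩,⟨0,5,3,2,2,0,false,false⟩,⟨0,1,0,3,14,4,false,false⟩,⟨0,6,4,0,0,5,false,false⟩,⟨0,1,5,4,14,16,false,false⟩,⟨5,7,2,0,0,1,false,false⟩,⟨5,4,1,2,8,7,false,false⟩,⟨4,3,7,8,15,19,false,false⟩,⟨6,8,5,0,0,6,false,false⟩,⟨6,0,6,5,16,17,false,false⟩,⟨6,9,6,17,17,18,false,true⟩,⟨8,6,0,6,18,10,false,true⟩,⟨5,6,7,1,1,12,false,false⟩,⟨5,4,12,7,19,20,false,false⟩,⟨8,9,0,10,10,11,false,false⟩,⟨7,8,1,0,11,9,false,false⟩,⟨7,6,9,1,12,13,false,false⟩]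 (nat_lit 6) (nat_lit 21) (by decide +kernel)
noncomputable def s1079 : Raw := ⟨[(0,[11,9,1,2,3,4,5,6,10]),(1,[12,7,2,0,9,13]),(2,[14,3,0,1,7,15]),(3,[16,4,0,2,14]),(4,[17,5,0,3,16]),(5,[8,6,0,4,17]),(6,[19,10,0,5,8,18]),(7,[15,2,1,12,20]),(8,[18,6,5,17,21])], [16,17,21,18,19,10,11,9,13,12,20,15,14], [(2,15),(1,2),(3,14),(0,3)]⟩
def c1079 : RawB s1079 := raw1 s1079 (nat_lit 11) [⟨0,1,14,14,14,16,false,true⟩,⟨0,1,14,16,16,3,false,false⟩,⟨1,2,3,16,16,4,false,false⟩,⟨1,3,3,4,4,0,false,false⟩,⟨1,0,0,3,14,2,false,false⟩,⟨1,4,2,0,0,1,false,false⟩,⟨4,5,1,0,0,9,false,false⟩,⟨5,6,9,0,0,11,false,false⟩,⟨2,7,16,4,4,17,true,false⟩,⟨4,2,9,1,1,13,false,false⟩,⟨7,8,4,17,17,5,false,false⟩,⟨7,3,5,4,0,0,false,false⟩,⟨2,3,1,13,13,12,false,false⟩,⟨8,9,5,17,17,8,false,false⟩,⟨7,8,0,5,8,6,false,false⟩,⟨7,6,6,0,11,10,false,false⟩,⟨9,10,8,17,17,21,false,false⟩,⟨8,9,6,8,21,18,false,false⟩,⟨7,8,10,6,18,19,false,false⟩,⟨1,2,2,1,12,7,false,false⟩,⟨1,0,7,2,14,15,false,false⟩,⟨2,1,12,7,15,20,false,false⟩]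 (nat_lit 9) (nat_lit 170) (by decide +kernel)
noncomputable def s1080 : Raw := ⟨[(0,[10,8,1,2,3,4,5,6,9]),(1,[11,2,0,8,12]),(2,[7,3,0,1,11]),(3,[13,4,0,2,7,14]),(4,[15,5,0,3,13]),(5,[16,6,0,4,15,17]),(6,[18,9,0,5,16]),(7,[14,3,2,11,19])], [11,19,14,13,15,17,16,18,9,10,8,12], [(6,16),(6,0),(0,4),(4,15)]⟩
def c1080 : RawB s1080 := raw1 s1080 (nat_lit 10) [⟨0,1,4,4,4,5,false,false⟩,⟨0,2,4,5,5,0,false,false⟩,⟨2,3,0,5,5,6,false,false⟩,⟨0,4,0,4,4,3,false,false⟩,⟨3,5,6,5,5,16,false,false⟩,⟨5,6,16,5,5,17,false,false⟩,⟨1,6,4,5,17,15,false,false⟩,⟨1,7,4,15,15,13,false,false⟩,⟨1,4,13,4,3,3,false,false⟩,⟨0,4,0,3,3,2,false,false⟩,⟨1,8,3,13,13,14,false,false⟩,⟨4,1,2,3,14,7,false,false⟩,⟨1,9,7,14,14,19,false,false⟩,⟨4,1,2,7,19,11,false,true⟩,⟨0,4,0,2,11,1,false,false⟩,⟨0,1,1,0,0,8,false,false⟩,⟨0,4,8,1,11,12,false,true⟩,⟨3,4,6,16,16,18,false,false⟩,⟨2,3,0,6,18,9,false,false⟩,⟨1,2,8,0,9,10,false,false⟩]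 (nat_lit 11) (nat_lit 1365) (by decide +kernel)
noncomputable def s1081 : Raw := ⟨[(0,[11,9,1,2,3,4,5,6,10]),(1,[12,7,2,0,9,13]),(2,[8,3,0,1,7]),(3,[14,4,0,2,8,15]),(4,[16,5,0,3,14]),(5,[17,6,0,4,16,18]),(6,[19,10,0,5,17]),(7,[20,8,2,1,12]),(8,[15,3,2,7,20])], [11,9,13,12,20,15,14,16,18,17,19,10], [(5,16),(5,17),(5,0)]⟩
def c1081 : RawB s1081 := raw1 s1081 (nat_lit 10) [⟨0,1,3,3,3,14,false,false⟩,⟨0,2,3,14,14,4,false,false⟩,⟨0,3,4,3,3,0,false,false⟩,⟨2,4,4,14,14,16,false,false⟩,⟨0,2,0,4,16,5,false,false⟩,⟨1,5,3,14,14,15,false,false⟩,⟨1,6,3,15,15,8,false,false⟩,⟨3,1,0,3,8,2,false,false⟩,⟨6,7,15,8,8,20,false,false⟩,⟨1,7,2,8,20,7,false,false⟩,⟨7,8,20,7,7,12,false,false⟩,⟨1,8,2,7,12,1,false,false⟩,⟨3,1,0,2,1,1,false,false⟩,⟨8,9,12,1,1,13,false,false⟩,⟨3,9,0,1,13,9,false,false⟩,⟨3,1,0,9,9,11,false,true⟩,⟨0,1,0,5,5,6,false,false⟩,⟨0,3,6,0,11,10,false,true⟩,⟨2,3,5,16,16,18,false,false⟩,⟨1,2,6,5,18,17,false,false⟩,⟨0,1,10,6,17,19,false,false⟩]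 (nat_lit 7) (nat_lit 42) (by decide +kernel)
noncomputable def s1082 : Raw := ⟨[(0,[9,7,1,2,8]),(1,[10,6,5,4,3,2,0,7,11]),(2,[13,8,0,1,3,12]),(3,[12,2,1,4,14]),(4,[14,3,1,5,15]),(5,[17,15,4,1,6,16]),(6,[16,5,1,10,18])], [16,17,15,14,12,13,8,9,7,11,10,18], [(3,12),(1,5),(5,16),(5,15)]⟩
def c1082 : RawB s1082 := raw1 s1082 (nat_lit 10) [⟨0,1,0,0,0,2,false,false⟩,⟨0,2,2,0,0,1,false,false⟩,⟨1,3,2,0,0,8,false,false⟩,⟨0,4,1,2,2,3,false,false⟩,⟨1,5,2,8,8,13,false,false⟩,⟨1,6,2,13,13,12,false,false⟩,⟨4,1,3,2,12,12,false,false⟩,⟨4,7,3,12,12,14,false,false⟩,⟨0,4,1,3,14,4,false,false⟩,⟨0,1,1,4,4,5,false,false⟩,⟨4,8,4,14,14,15,false,false⟩,⟨1,4,5,4,15,15,false,false⟩,⟨0,4,1,5,5,6,false,false⟩,⟨1,9,5,15,15,17,false,false⟩,⟨4,1,6,5,17,16,false,true⟩,⟨0,1,6,1,1,10,false,false⟩,⟨0,4,10,6,16,18,false,true⟩,⟨3,4,0,8,8,9,false,false⟩,⟨2,3,1,0,9,7,false,false⟩,⟨2,1,7,1,10,11,false,false⟩]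 (nat_lit 19) (nat_lit 174762) (by decide +kernel)
noncomputable def s1083 : Raw := ⟨[(0,[11,9,1,2,3,4,5,6,10]),(1,[12,2,0,9,13]),(2,[14,7,3,0,1,12]),(3,[8,4,0,2,7]),(4,[15,5,0,3,8,16]),(5,[17,6,0,4,15]),(6,[18,10,0,5,17]),(7,[19,8,3,2,14]),(8,[16,4,3,7,19])], [9,13,12,14,19,16,15,17,18,10,11], [(6,17),(6,10),(1,2),(2,14)]⟩
def c1083 : RawB s1083 := raw1 s1083 (nat_lit 9) [⟨0,1,3,3,3,4,false,false⟩,⟨0,2,3,4,4,8,false,false⟩,⟨2,3,4,8,8,16,false,false⟩,⟨2,4,4,16,16,15,false,false⟩,⟨3,5,8,16,16,19,false,false⟩,⟨0,3,3,8,19,7,false,false⟩,⟨3,6,7,19,19,14,false,false⟩,⟨0,3,3,7,14,2,false,false⟩,⟨0,1,2,3,4,0,false,false⟩,⟨1,2,0,4,15,5,false,false⟩,⟨3,7,2,14,14,12,false,false⟩,⟨0,3,0,2,12,1,false,false⟩,⟨3,8,1,12,12,13,false,false⟩,⟨0,3,0,1,13,9,false,true⟩,⟨0,3,0,9,9,11,false,true⟩,⟨2,3,5,15,15,17,false,false⟩,⟨1,2,0,5,17,6,false,false⟩,⟨1,0,6,0,11,10,false,false⟩,⟨1,2,10,6,17,18,false,false⟩]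 (nat_lit 4) (nat_lit 5) (by decide +kernel)
end Pool.Agent.FCT.R
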