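import Pool.Agent.Lib.MP_fe5cb4_co.FC.RawDef
set_option linter.defProp false
namespace Pool.Agent.FCT.R
open Pool.Agent.Lib.MP_fe5cb4_co.FC
noncomputable def s1084 : Raw := ⟨[(0,[8,1,2,3,9]),(1,[10,2,0,8,11]),(2,[4,3,0,1,10]),(3,[13,9,0,2,4,5,6,7,12]),(4,[14,5,3,2,10,15]),(5,[16,6,3,4,14]),(6,[17,7,3,5,16,18]),(7,[19,12,3,6,17])], [16,18,17,19,12,13,9,8,11,10,15,14], [(4,10),(4,14),(3,4)]⟩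
def c1084 : RawB s1084 := raw1 s1084 (nat_lit 10) [⟨0,1,1,1,1,10,false,false⟩,⟨0,2,1,10,10,11,false,false⟩,⟨0,3,1,11,11,8,false,false⟩,⟨0,4,1,8,8,0,false,false⟩,⟨0,1,0,1,10,2,false,false⟩,⟨4,5,8,0,0,9,false,false⟩,⟨0,5,2,0,9,3,false,false⟩,⟨0,1,3,2,10,4,false,false⟩,⟨0,6,4,3,3,5,false,false⟩,⟨0,7,4,5,5,14,false,false⟩,⟨1,0,10,4,14,15,false,false⟩,⟨7,8,5,14,14,16,false,true⟩,⟨6,7,3,5,16,6,false,false⟩,⟨7,8,6,16,16,18,false,true⟩,⟨7,9,6,18,18,17,false,false⟩,⟨6,7,3,6,17,7,false,false⟩,⟨7,8,7,17,17,19,false,false⟩,⟨6,7,3,7,19,12,false,false⟩,⟨5,6,9,3,12,13,false,false⟩] (nat_lit 15) (nat_lit 21845) (by decide +kernel)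
noncomputable def s1085 : Raw := ⟨[(0,[10,8,1,2,3,4,5,6,9]),(1,[11,2,0,8,12]),(2,[7,3,0,1,11]),(3,[13,4,0,2,7,14]),(4,[15,5,0,3,13,16]),(5,[17,6,0,4,15]),(6,[18,9,0,5,17]),(7,[14,3,2,11,19])], [10,8,12,11,19,14,13,16,15,17,18,9], [(0,4),(4,13),(4,15),(2,11)]⟩
def c1085 : RawB s1085 := raw1 s1085 (nat_lit 10) [⟨0,1,2,2,2,7,false,false⟩,⟨0,2,2,7,7,3,false,false⟩,⟨2,3,7,3,3,14,false,false⟩,⟨0,4,3,2,2,0,false,false⟩,⟨3,5,3,14,14,13,false,false⟩,⟨0,3,0,3,13,4,false,false⟩,⟨2,6,7,14,14,19,false,false⟩,⟨2,7,7,19,19,11,false,false⟩,⟨1,2,2,7,11,11,false,false⟩,⟨1,8,2,11,11,1,false,false⟩,⟨4,1,0,2,1,1,false,false⟩,⟨8,9,11,1,1,12,false,false⟩,⟨4,9,0,1,12,8,false,false⟩,⟨4,1,0,8,8,10,false,true⟩,⟨0,2,0,4,4,5,false,false⟩,⟨0,1,0,5,5,6,false,false⟩,⟨0,4,6,0,10,9,false,true⟩,⟨3,4,4,13,13,16,false,false⟩,⟨2,3,5,4,16,15,false,false⟩,⟨1,2,6,5,15,17,false,false⟩,⟨0,1,9,6,17,18,false,false⟩]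 (nat_lit 11) (nat_lit 1365) (by decide +kernel)
noncomputable def s1086 : Raw := ⟨[(0,[11,9,1,2,3,4,5,6,10]),(1,[12,7,2,0,9]),(2,[13,3,0,1,7,14]),(3,[15,8,4,0,2,13]),(4,[16,5,0,3,8,17]),(5,[18,6,0,4,16]),(6,[19,10,0,5,18]),(7,[14,2,1,12,20]),(8,[17,4,3,15,21])], [18,19,10,11,9,12,20,14,13,15,21,17,16], [(5,16),(5,0),(0,3),(3,13)]⟩
def c1086 : RawB s1086 := raw1 s1086 (nat_lit 11) [⟨0,1,3,3,3,4,false,false⟩,⟨0,2,4,3,3,0,false,false⟩,⟨0,3,4,0,0,5,false,false⟩,⟨2,4,3,0,0,2,false,false⟩,⟨4,5,2,0,0,1,false,false⟩,⟨5,6,1,0,0,9,false,false⟩,⟨5,7,1,9,9,12,false,false⟩,⟨4,5,2,1,12,7,false,false⟩,⟨6,8,0,9,9,11,false,false⟩,⟨6,9,0,11,11,10,false,false⟩,⟨3,6,5,0,10,6,false,false⟩,⟨6,10,6,10,10,19,false,false⟩,⟨3,6,5,6,19,18,false,true⟩,⟨0,3,4,5,18,16,false,true⟩,⟨5,6,7,12,12,20,false,false⟩,⟨4,5,2,7,20,14,false,false⟩,⟨2,4,3,2,14,13,false,false⟩,⟨2,3,3,13,13,15,false,false⟩,⟨1,2,4,3,15,8,false,false⟩,⟨1,0,8,4,16,17,false,false⟩,⟨2,1,15,8,17,21,false,false⟩]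 (nat_lit 10) (nat_lit 682) (by decide +kernel)
noncomputable def s1087 : Raw := ⟨[(0,[10,8,1,2,3,4,5,6,9]),(1,[11,7,2,0,8,12]),(2,[13,3,0,1,7]),(3,[14,4,0,2,13]),(4,[15,5,0,3,14,16]),(5,[17,6,0,4,15]),(6,[18,9,0,5,17]),(7,[13,2,1,11,19])], [9,10,8,12,11,19,13,14,16,15,17,18], [(0,4),(4,14),(4,15)]⟩
def c1087 : RawB s1087 := raw1 s1087 (nat_lit 10) [⟨0,1,4,4,4,15,false,false⟩,⟨0,2,4,15,15,16,false,false⟩,⟨0,3,4,16,16,14,false,false⟩,⟨0,4,4,14,14,3,false,false⟩,⟨0,5,4,3,3,0,false,false⟩,⟨0,1,0,4,15,5,false,false⟩,⟨0,6,5,0,0,6,false,false⟩,⟨0,1,6,5,15,17,false,false⟩,⟨6,7,6,0,0,9,false,false⟩,⟨6,0,9,6,17,18,true,false⟩,⟨5,6,3,0,0,2,false,false⟩,⟨5,4,2,3,14,13,false,false⟩,⟨6,8,2,0,0,1,false,false⟩,⟨6,5,1,2,13,7,false,false⟩,⟨7,9,9,0,0,10,true,false⟩,⟨8,9,1,0,10,8,false,false⟩,⟨8,7,8,1,1,12,false,false⟩,⟨6,7,7,1,12,11,false,false⟩,⟨6,5,11,7,13,19,false,false⟩]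 (nat_lit 10) (nat_lit 341) (by decide +kernel)
noncomputable def s1088 : Raw := ⟨[(0,[11,9,1,2,3,4,5,6,10]),(1,[12,7,2,0,9,13]),(2,[8,3,0,1,7]),(3,[14,4,0,2,8]),(4,[15,5,0,3,14,16]),(5,[17,6,0,4,15]),(6,[18,10,0,5,17]),(7,[19,8,2,1,12,20]),(8,[14,3,2,7,19])], [10,11,9,13,12,20,19,14,16,15,17,18], [(6,17),(0,4),(4,14),(4,15)]⟩
def c1088 : RawB s1088 := raw1 s1088 (nat_lit 10) [⟨0,1,4,4,4,15,false,false⟩,⟨0,2,4,15,15,16,false,false⟩,⟨0,3,4,16,16,14,false,false⟩,⟨0,4,4,14,14,3,false,false⟩,⟨0,5,4,3,3,0,false,false⟩,⟨0,1,0,4,15,5,false,false⟩,⟨5,6,3,0,0,2,false,false⟩,⟨5,4,2,3,14,8,false,false⟩,⟨0,7,5,0,0,6,false,false⟩,⟨0,1,6,5,15,17,false,false⟩,⟨7,8,6,0,0,10,false,false⟩,⟨7,0,10,6,17,18,true,false⟩,⟨6,7,2,0,0,1,false,false⟩,⟨6,5,1,2,8,7,false,false⟩,⟨5,4,7,8,14,19,false,false⟩,⟨8,9,10,0,0,11,true,false⟩,⟨7,9,1,0,11,9,false,false⟩,⟨7,8,1,9,9,13,false,false⟩,⟨6,7,7,1,13,12,false,false⟩,⟨6,5,12,7,19,20,false,false⟩]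 (nat_lit 7) (nat_lit 42) (by decide +kernel)
noncomputable def s1089 : Raw := ⟨[(0,[11,9,1,2,3,4,5,6,10]),(1,[12,7,2,0,9,13]),(2,[8,3,0,1,7]),(3,[14,4,0,2,8]),(4,[15,5,0,3,14,16]),(5,[17,6,0,4,15,18]),(6,[19,10,0,5,17]),(7,[20,8,2,1,12,21]),(8,[14,3,2,7,20])], [12,21,20,14,16,15,18,17,19,10,11,9,13], [(0,4),(4,14),(4,15)]⟩
def c1089 : RawB s1089 := raw1 s1089 (nat_lit 11) [⟨0,1,4,4,4,5,false,false⟩,⟨0,2,4,5,5,0,false,false⟩,⟨2,3,0,5,5,6,false,false⟩,⟨1,4,4,5,5,15,false,false⟩,⟨3,5,6,5,5,17,false,false⟩,⟨4,6,5,15,15,18,false,false⟩,⟨5,4,17,5,18,18,false,false⟩,⟨1,7,4,15,15,16,false,false⟩,⟨1,8,4,16,16,14,false,false⟩,⟨0,1,0,4,14,3,false,false⟩,⟨1,4,14,3,3,8,false,false⟩,⟨0,4,0,3,8,2,false,false⟩,⟨1,9,8,14,14,20,false,false⟩,⟨4,1,2,8,20,7,false,false⟩,⟨0,4,0,2,7,1,false,false⟩,⟨1,10,7,20,20,21,false,false⟩,⟨4,1,1,7,21,12,false,true⟩,⟨0,1,1,0,0,9,false,false⟩,⟨0,4,9,1,12,13,false,true⟩,⟨3,4,6,17,17,19,false,false⟩,⟨2,3,0,6,19,10,false,false⟩,⟨1,2,9,0,10,11,false,false⟩]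 (nat_lit 11) (nat_lit 682) (by decide +kernel)
noncomputable def s1090 : Raw := ⟨[(0,[11,9,1,2,3,4,5,6,10]),(1,[12,7,2,0,9]),(2,[8,3,0,1,7]),(3,[13,4,0,2,8,14]),(4,[15,5,0,3,13,16]),(5,[17,6,0,4,15]),(6,[18,10,0,5,17]),(7,[19,8,2,1,12]),(8,[20,14,3,2,7,19])], [16,15,17,18,10,11,9,12,19,20,14,13], [(0,4),(4,13),(4,15)]⟩
def c1090 : RawB s1090 := raw1 s1090 (nat_lit 10) [⟨0,1,8,8,8,19,false,false⟩,⟨0,2,19,8,8,7,false,false⟩,⟨0,3,7,19,19,12,false,false⟩,⟨0,4,7,12,12,1,false,false⟩,⟨0,2,1,7,8,2,false,false⟩,⟨4,5,12,1,1,9,false,false⟩,⟨0,5,2,1,9,0,false,false⟩,⟨0,6,2,0,0,3,false,false⟩,⟨0,2,3,2,8,8,false,false⟩,⟨1,2,8,19,19,20,false,false⟩,⟨0,1,3,8,20,14,false,false⟩,⟨0,7,14,3,3,13,false,false⟩,⟨6,7,0,3,13,4,false,false⟩,⟨7,8,4,13,13,16,false,true⟩,⟨7,8,4,16,16,15,false,true⟩,⟨6,7,0,4,15,5,false,false⟩,⟨7,9,5,15,15,17,false,false⟩,⟨6,7,0,5,17,6,false,false⟩,⟨7,8,6,17,17,18,false,false⟩,⟨6,7,0,6,18,10,false,false⟩,⟨5,6,9,0,10,11,false,false⟩]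 (nat_lit 7) (nat_lit 42) (by decide +kernel)
noncomputable def s1091 : Raw := ⟨[(0,[11,9,1,2,3,4,5,6,10]),(1,[12,7,2,0,9,13]),(2,[8,3,0,1,7]),(3,[14,4,0,2,8,15]),(4,[16,5,0,3,14,17]),(5,[18,6,0,4,16]),(6,[19,10,0,5,18]),(7,[20,8,2,1,12]),(8,[15,3,2,7,20])], [14,17,16,18,19,10,11,9,13,12,20,15], [(6,19),(0,4),(4,14),(4,16)]⟩
def c1091 : RawB s1091 := raw1 s1091 (nat_lit 10) [⟨0,1,7,7,7,8,false,false⟩,⟨0,2,8,7,7,2,false,false⟩,⟨0,3,8,2,2,3,false,false⟩,⟨0,4,8,3,3,15,false,false⟩,⟨1,0,7,8,15,20,false,false⟩,⟨4,5,3,15,15,14,false,true⟩,⟨4,5,3,14,14,4,false,false⟩,⟨3,4,2,3,4,0,false,false⟩,⟨3,2,0,2,7,1,false,false⟩,⟨2,1,1,7,20,12,false,false⟩,⟨4,8,0,4,4,5,false,false⟩,⟨4,6,0,5,5,6,false,false⟩,⟨5,9,14,4,4,17,true,false⟩,⟨8,9,5,4,17,16,false,false⟩,⟨6,8,6,5,16,18,false,false⟩,⟨6,7,6,18,18,19,false,false⟩,⟨4,6,0,6,19,10,false,false⟩,⟨4,5,0,10,10,11,false,false⟩,⟨3,4,1,0,11,9,false,false⟩,⟨3,2,9,1,12,13,false,false⟩]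 (nat_lit 7) (nat_lit 42) (by decide +kernel)
noncomputable def s1092 : Raw := ⟨[(0,[11,9,1,2,3,4,5,6,10]),(1,[12,7,2,0,9]),(2,[8,3,0,1,7]),(3,[13,4,0,2,8,14]),(4,[15,5,0,3,13,16]),(5,[17,6,0,4,15,18]),(6,[19,10,0,5,17]),(7,[20,8,2,1,12]),(8,[21,14,3,2,7,20])], [16,15,18,17,19,10,11,9,12,20,21,14,13], [(6,19),(0,4),(4,13),(4,15)]⟩
def c1092 : RawB s1092 := raw1 s1092 (nat_lit 11) [⟨0,1,8,8,8,20,false,false⟩,⟨0,2,20,8,8,7,false,false⟩,⟨0,3,7,20,20,12,false,false⟩,⟨0,4,7,12,12,1,false,false⟩,⟨0,2,1,7,8,2,false,false⟩,⟨4,5,12,1,1,9,false,false⟩,⟨0,5,2,1,9,0,false,false⟩,⟨0,6,2,0,0,3,false,false⟩,⟨0,2,3,2,8,8,false,false⟩,⟨1,2,8,20,20,21,false,false⟩,⟨0,1,3,8,21,14,false,false⟩,⟨0,7,14,3,3,13,false,false⟩,⟨6,7,0,3,13,4,false,false⟩,⟨7,8,4,13,13,16,false,true⟩,⟨7,8,4,16,16,15,false,true⟩,⟨6,7,0,4,15,5,false,false⟩,⟨7,10,5,15,15,18,false,false⟩,⟨7,9,5,18,18,17,false,false⟩,⟨6,7,0,5,17,6,false,false⟩,⟨7,8,6,17,17,19,false,false⟩,⟨6,7,0,6,19,10,false,false⟩,⟨5,6,9,0,10,11,false,false⟩]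 (nat_lit 12) (nat_lit 1365) (by decide +kernel)
noncomputable def s1093 : Raw := ⟨[(0,[10,9,8,7,6,1,2,3,13]),(1,[14,4,2,0,6,15]),(2,[5,3,0,1,4]),(3,[17,13,0,2,5,16]),(4,[18,5,2,1,14]),(5,[16,3,2,4,18]),(7,[19,6,0,8,20]),(8,[20,7,0,9,11,21]),(9,[11,8,0,10,12]),(10,[22,12,9,0,13,23]),(11,[21,8,9,12,24]),(12,[24,11,9,10,22])], [20,19,6,15,14,18,16,17,13,23,22,24,21], [(7,20)]⟩
def c1093 : RawB s1093 := raw1 s1093 (nat_lit 11) [⟨0,1,2,2,2,3,false,false⟩,⟨0,2,2,3,3,0,false,false⟩,⟨1,3,3,2,2,5,false,false⟩,⟨2,4,0,3,3,13,false,false⟩,⟨4,5,13,3,3,17,false,false⟩,⟨1,5,5,3,17,16,false,false⟩,⟨1,6,5,16,16,18,false,false⟩,⟨3,1,2,5,18,4,false,false⟩,⟨1,7,4,18,18,14,false,false⟩,⟨1,8,4,14,14,1,false,false⟩,⟨1,3,1,4,2,2,false,false⟩,⟨0,1,0,2,1,1,false,false⟩,⟨8,9,14,1,1,15,false,false⟩,⟨0,9,0,1,15,6,false,false⟩,⟨0,3,0,6,6,7,false,false⟩,⟨0,1,7,0,0,8,false,false⟩,⟨3,10,7,6,6,19,false,false⟩,⟨0,3,8,7,19,20,false,true⟩,⟨0,3,8,20,20,21,false,true⟩,⟨2,3,0,13,13,10,false,false⟩,⟨1,2,8,0,10,9,false,false⟩,⟨1,0,9,8,21,11,false,false⟩,⟨2,1,10,9,11,12,false,false⟩,⟨1,0,12,11,21,24,false,false⟩,⟨2,1,10,12,24,22,false,false⟩,⟨3,2,13,10,22,23,false,false⟩]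 (nat_lit 6) (nat_lit 42) (by decide +kernel)
noncomputable def s1094 : Raw := ⟨[(0,[13,11,1,2,3,4,5,6,12]),(1,[14,7,2,0,11,15]),(2,[8,3,0,1,7]),(3,[16,4,0,2,8,17]),(4,[18,9,5,0,3,16]),(5,[10,6,0,4,9]),(6,[20,12,0,5,10,19]),(7,[21,8,2,1,14]),(8,[17,3,2,7,21]),(9,[22,10,5,4,18]),(10,[19,6,5,9,22])], [19,20,12,13,11,15,14,21,17,16,18,22], [(6,20),(6,0),(0,4),(4,18)]⟩
def c1094 : RawB s1094 := raw1 s1094 (nat_lit 10) [⟨0,2,3,3,3,4,false,false⟩,⟨0,3,4,3,3,0,false,false⟩,⟨3,5,3,0,0,2,false,false⟩,⟨3,4,3,2,2,8,false,false⟩,⟨0,6,4,0,0,5,false,false⟩,⟨0,1,5,4,4,9,false,false⟩,⟨6,7,5,0,0,6,false,false⟩,⟨6,0,6,5,9,10,false,false⟩,⟨6,8,10,6,6,19,false,false⟩,⟨0,6,9,10,19,22,false,true⟩,⟨1,0,4,9,22,18,false,false⟩,⟨2,1,3,4,18,16,false,false⟩,⟨3,2,8,3,16,17,false,false⟩,⟨5,6,2,0,0,1,false,false⟩,⟨5,4,1,2,8,7,false,false⟩,⟨4,3,7,8,17,21,false,false⟩,⟨5,4,1,7,21,14,false,false⟩,⟨8,9,19,6,6,20,true,false⟩,⟨7,9,0,6,20,12,false,false⟩,⟨7,8,0,12,12,13,false,false⟩,⟨6,7,1,0,13,11,false,false⟩,⟨6,5,11,1,14,15,false,false⟩]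 (nat_lit 4) (nat_lit 5) (by decide +kernel)
noncomputable def s1095 : Raw := ⟨[(0,[13,11,1,2,3,4,5,6,12]),(1,[14,7,2,0,11,15]),(2,[8,3,0,1,7]),(3,[16,4,0,2,8]),(4,[9,5,0,3,16]),(5,[10,6,0,4,9]),(6,[18,12,0,5,10,17]),(7,[19,8,2,1,14,20]),(8,[16,3,2,7,19]),(9,[21,10,5,4,16]),(10,[22,17,6,5,9,21])], [21,22,17,18,12,13,11,15,14,20,19,16], [(10,17),(0,3),(3,16),(1,7)]⟩
def c1095 : RawB s1095 := raw1 s1095 (nat_lit 10) [⟨0,1,2,2,2,7,false,false⟩,⟨0,2,2,7,7,1,false,false⟩,⟨0,3,2,1,1,0,false,false⟩,⟨0,4,2,0,0,3,false,false⟩,⟨0,1,3,2,7,8,false,false⟩,⟨4,5,3,0,0,4,false,false⟩,⟨4,0,4,3,8,16,false,false⟩,⟨1,0,7,8,16,19,false,false⟩,⟨4,6,4,16,16,9,false,false⟩,⟨5,4,0,4,9,5,false,false⟩,⟨4,7,9,5,5,10,false,false⟩,⟨5,7,0,5,10,6,false,false⟩,⟨4,6,10,9,16,21,false,true⟩,⟨4,9,21,10,10,22,true,false⟩,⟨7,9,6,10,22,17,false,false⟩,⟨7,8,6,17,17,18,false,false⟩,⟨5,7,0,6,18,12,false,false⟩,⟨5,6,0,12,12,13,false,false⟩,⟨3,5,1,0,13,11,false,false⟩,⟨3,4,1,11,11,15,false,false⟩,⟨2,3,7,1,15,14,false,false⟩,⟨2,1,14,7,19,20,false,false⟩]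 (nat_lit 4) (nat_lit 10) (by decide +kernel)
noncomputable def s1096 : Raw := ⟨[(0,[13,11,1,2,3,4,5,6,12]),(1,[14,7,2,0,11,15]),(2,[8,3,0,1,7]),(3,[16,4,0,2,8,17]),(4,[9,5,0,3,16]),(5,[10,6,0,4,9]),(6,[19,12,0,5,10,18]),(7,[20,8,2,1,14]),(8,[17,3,2,7,20]),(9,[21,10,5,4,16]),(10,[22,18,6,5,9,21])], [21,22,18,19,12,13,11,15,14,20,17,16], [(10,21),(10,18)]⟩
def c1096 : RawB s1096 := raw1 s1096 (nat_lit 10) [⟨0,1,7,7,7,20,false,false⟩,⟨0,2,7,20,20,14,false,false⟩,⟨0,3,7,14,14,1,false,false⟩,⟨0,4,7,1,1,2,false,false⟩,⟨0,1,2,7,20,8,false,false⟩,⟨0,5,8,2,2,3,false,false⟩,⟨4,5,1,2,3,0,false,false⟩,⟨0,1,3,8,20,17,false,false⟩,⟨0,6,17,3,3,16,false,false⟩,⟨5,6,0,3,16,4,false,false⟩,⟨6,7,16,4,4,9,false,false⟩,⟨5,7,0,4,9,5,false,false⟩,⟨6,8,9,16,16,21,false,true⟩,⟨7,6,5,9,21,10,false,false⟩,⟨5,8,0,5,5,6,false,false⟩,⟨8,7,6,5,10,10,false,false⟩,⟨5,7,0,6,6,12,false,false⟩,⟨6,9,21,10,10,22,true,false⟩,⟨8,9,6,10,22,18,false,false⟩,⟨7,8,12,6,18,19,false,false⟩,⟨5,6,0,12,12,13,false,false⟩,⟨4,5,1,0,13,11,false,false⟩,⟨4,3,11,1,14,15,false,false⟩]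 (nat_lit 5) (nat_lit 10) (by decide +kernel)
noncomputable def s1097 : Raw := ⟨[(0,[11,9,1,2,3,4,5,6,10]),(1,[12,7,2,0,9,13]),(2,[14,3,0,1,7]),(3,[15,4,0,2,14]),(4,[16,5,0,3,15]),(5,[8,6,0,4,16]),(6,[18,10,0,5,8,17]),(7,[14,2,1,12,19]),(8,[17,6,5,16,20])], [15,16,20,17,18,10,11,9,13,12,19,14], [(7,19),(1,9),(1,12),(7,2)]⟩
def c1097 : RawB s1097 := raw1 s1097 (nat_lit 10) [⟨0,1,1,1,1,2,false,false⟩,⟨0,2,2,1,1,0,false,false⟩,⟨0,3,2,0,0,3,false,false⟩,⟨0,4,2,3,3,14,false,false⟩,⟨1,0,1,2,14,7,false,false⟩,⟨2,5,1,0,0,9,false,false⟩,⟨3,6,3,0,0,4,false,false⟩,⟨3,4,4,3,14,15,false,true⟩,⟨5,4,0,9,9,11,false,false⟩,⟨3,7,15,4,4,16,true,false⟩,⟨6,7,0,4,16,5,false,false⟩,⟨2,3,1,9,9,13,false,false⟩,⟨7,8,5,16,16,8,false,false⟩,⟨6,7,0,5,8,6,false,false⟩,⟨6,5,6,0,11,10,false,false⟩,⟨8,9,8,16,16,20,false,false⟩,⟨7,8,6,8,20,17,false,false⟩,⟨6,7,10,6,17,18,false,false⟩,⟨1,2,7,1,13,12,false,false⟩,⟨1,0,12,7,14,19,false,false⟩]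 (nat_lit 6) (nat_lit 21) (by decide +kernel)
noncomputable def s1098 : Raw := ⟨[(0,[12,10,1,2,3,4,5,6,11]),(1,[13,7,2,0,10,14]),(2,[15,3,0,1,7]),(3,[16,4,0,2,15]),(4,[17,8,5,0,3,16]),(5,[9,6,0,4,8]),(6,[19,11,0,5,9,18]),(7,[15,2,1,13,20]),(8,[21,9,5,4,17]),(9,[18,6,5,8,21])], [15,16,17,21,18,19,11,12,10,14,13,20], [(7,13),(7,15)]⟩
def c1098 : RawB s1098 := raw1 s1098 (nat_lit 10) [⟨0,1,15,15,15,20,false,true⟩,⟨0,2,20,15,15,7,false,false⟩,⟨0,1,20,7,7,13,false,false⟩,⟨2,3,7,15,15,2,false,false⟩,⟨2,1,2,7,13,1,false,false⟩,⟨3,4,2,15,15,3,false,false⟩,⟨2,3,1,2,3,0,false,false⟩,⟨4,8,15,3,3,16,true,false⟩,⟨3,8,0,3,16,4,false,false⟩,⟨3,7,0,4,4,5,false,false⟩,⟨3,6,0,5,5,6,false,false⟩,⟨3,5,0,6,6,11,false,false⟩,⟨8,9,4,16,16,17,false,false⟩,⟨7,8,5,4,17,8,false,false⟩,⟨6,7,6,5,8,9,false,false⟩,⟨7,8,9,8,17,21,false,false⟩,⟨6,7,6,9,21,18,false,false⟩,⟨5,6,11,6,18,19,false,false⟩,⟨3,4,0,11,11,12,false,false⟩,⟨2,3,1,0,12,10,false,false⟩,⟨2,1,10,1,13,14,false,false⟩]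 (nat_lit 5) (nat_lit 21) (by decide +kernel)
noncomputable def s1099 : Raw := ⟨[(0,[10,5,1,2,9]),(1,[11,4,3,2,0,5,6,7,8]),(2,[9,0,1,3,12]),(3,[12,2,1,4,13]),(4,[13,3,1,11,14]),(6,[16,7,1,5,15]),(7,[17,8,1,6,16]),(8,[18,11,1,7,17])], [5,15,16,17,18,11,14,13,12,9,10], [(6,5),(6,16),(8,17),(8,11)]⟩
def c1099 : RawB s1099 := raw1 s1099 (nat_lit 9) [⟨0,1,6,6,6,7,false,false⟩,⟨0,2,6,7,7,1,false,false⟩,⟨2,3,7,1,1,8,false,false⟩,⟨3,4,1,8,8,11,false,false⟩,⟨4,5,8,11,11,18,false,false⟩,⟨4,6,8,18,18,17,false,false⟩,⟨2,4,7,8,17,17,false,false⟩,⟨2,7,7,17,17,16,false,false⟩,⟨1,2,6,7,16,16,false,false⟩,⟨1,8,6,16,16,15,false,false⟩,⟨0,1,1,6,15,5,false,true⟩,⟨0,1,5,1,1,0,false,false⟩,⟨1,2,0,1,1,2,false,false⟩,⟨0,4,0,5,5,10,false,true⟩,⟨1,0,2,0,10,9,false,false⟩,⟨3,4,1,11,11,4,false,false⟩,⟨2,3,2,1,4,3,false,false⟩,⟨2,1,3,2,9,12,false,false⟩,⟨3,2,4,3,12,13,false,false⟩,⟨4,3,11,4,13,14,false,false⟩]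 (nat_lit 7) (nat_lit 85) (by decide +kernel)
noncomputable def s1100 : Raw := ⟨[(0,[10,1,2,3,4]),(1,[11,2,0,10,12]),(2,[13,3,0,1,11]),(3,[9,8,7,6,5,4,0,2,13]),(5,[14,4,3,6,15]),(6,[15,5,3,7,16]),(7,[16,6,3,8,17]),(8,[17,7,3,9,18]),(9,[18,8,3,13,19])], [18,17,16,15,14,4,10,12,11,13,19], [(9,8),(8,17),(6,16),(6,5)]⟩
def c1100 : RawB s1100 := raw1 s1100 (nat_lit 9) [⟨0,1,2,2,2,13,false,false⟩,⟨0,2,13,2,2,3,false,false⟩,⟨2,3,2,3,3,0,false,false⟩,⟨0,4,13,3,3,9,false,false⟩,⟨0,5,13,9,9,19,false,false⟩,⟨4,6,9,3,3,8,false,false⟩,⟨4,5,8,9,19,18,false,true⟩,⟨3,5,0,3,3,4,false,false⟩,⟨4,7,18,8,8,17,true,false⟩,⟨6,7,3,8,17,7,false,false⟩,⟨3,4,0,4,4,10,false,false⟩,⟨7,8,7,17,17,16,false,false⟩,⟨6,7,3,7,16,6,false,false⟩,⟨5,6,4,3,6,5,false,false⟩,⟨6,7,5,6,16,15,false,false⟩,⟨5,6,4,5,15,14,false,false⟩,⟨2,3,2,0,10,1,false,false⟩,⟨2,1,1,2,13,11,false,false⟩,⟨3,2,10,1,11,12,false,false⟩]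 (nat_lit 7) (nat_lit 85) (by decide +kernel)
noncomputable def s1101 : Raw := ⟨[(0,[9,8,7,6,5,4,1,2,11]),(1,[12,3,2,0,4]),(2,[11,0,1,3,13]),(3,[13,2,1,12,14]),(5,[15,4,0,6,10]),(6,[10,5,0,7,16]),(7,[18,16,6,0,8,17]),(8,[20,17,7,0,9,19]),(9,[19,8,0,11,21]),(10,[22,15,5,6,16])], [12,14,13,11,21,19,20,17,18,16,22,15,4], [(0,7),(7,17),(7,16),(6,5)]⟩
def c1101 : RawB s1101 := raw1 s1101 (nat_lit 11) [⟨0,1,6,6,6,10,false,false⟩,⟨0,2,6,10,10,16,false,false⟩,⟨0,3,6,16,16,7,false,false⟩,⟨0,4,6,7,7,0,false,false⟩,⟨0,1,0,6,10,5,false,false⟩,⟨0,5,5,0,0,4,false,false⟩,⟨5,6,0,4,4,1,false,false⟩,⟨6,7,1,4,4,12,false,true⟩,⟨6,9,12,1,1,3,false,false⟩,⟨5,9,0,1,3,2,false,false⟩,⟨6,10,12,3,3,14,true,false⟩,⟨9,10,2,3,14,13,false,false⟩,⟨5,9,0,2,13,11,false,false⟩,⟨0,1,4,5,10,15,false,false⟩,⟨1,2,15,10,16,22,false,false⟩,⟨5,7,0,11,11,9,false,false⟩,⟨4,5,7,0,9,8,false,false⟩,⟨7,8,9,11,11,21,false,false⟩,⟨5,7,8,9,21,19,false,false⟩,⟨5,6,8,19,19,20,false,false⟩,⟨4,5,7,8,20,17,false,false⟩,⟨3,4,16,7,17,18,false,false⟩]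 (nat_lit 16) (nat_lit 21845) (by decide +kernel)
end Pool.Agent.FCT.R
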