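import Pool.Agent.Lib.MP_fe5cb4_co.FC.RawDef
set_option linter.defProp false
namespace Pool.Agent.FCT.R
open Pool.Agent.Lib.MP_fe5cb4_co.FC
noncomputable def s1113 : Raw := ⟨[(0,[12,10,1,2,3,4,5,6,11]),(1,[13,2,0,10,14]),(2,[15,3,0,1,13]),(3,[9,8,7,4,0,2,15]),(4,[16,5,0,3,7]),(5,[17,6,0,4,16]),(6,[18,11,0,5,17]),(7,[20,16,4,3,8,19]),(8,[22,19,7,3,9,21]),(9,[21,8,3,15,23])], [17,18,11,12,10,14,13,15,23,21,22,19,20,16], [(5,0),(3,7),(7,19),(7,16)]⟩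
def c1113 : RawB s1113 := raw1 s1113 (nat_lit 12) [⟨0,1,2,2,2,15,false,false⟩,⟨0,2,2,15,15,3,false,false⟩,⟨0,3,3,2,2,0,false,false⟩,⟨2,4,3,15,15,9,false,false⟩,⟨3,5,2,0,0,1,false,false⟩,⟨1,6,2,15,15,13,false,false⟩,⟨3,1,1,2,13,13,false,false⟩,⟨0,1,0,3,3,4,false,false⟩,⟨3,7,1,13,13,14,false,false⟩,⟨3,8,1,14,14,10,false,false⟩,⟨5,3,0,1,10,10,false,false⟩,⟨0,3,4,0,0,5,false,false⟩,⟨5,9,0,10,10,12,false,false⟩,⟨5,10,0,12,12,11,false,false⟩,⟨3,5,5,0,11,6,false,false⟩,⟨5,11,6,11,11,18,false,false⟩,⟨3,5,5,6,18,17,false,true⟩,⟨0,3,4,5,17,16,false,true⟩,⟨1,0,3,4,16,7,false,false⟩,⟨1,2,7,3,9,8,false,false⟩,⟨4,5,9,15,15,23,false,false⟩,⟨2,4,8,9,23,21,false,false⟩,⟨2,3,8,21,21,22,false,false⟩,⟨1,2,7,8,22,19,false,false⟩,⟨0,1,16,7,19,20,false,false⟩] (nat_lit 10) (nat_lit 341) (by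 decide +kernel)
noncomputable def s1114 : Raw := ⟨[(0,[12,10,1,2,3,4,5,6,11]),(1,[13,2,0,10,14]),(2,[7,3,0,1,13]),(3,[8,4,0,2,7]),(4,[15,5,0,3,8,9,16]),(5,[17,6,0,4,15]),(6,[18,11,0,5,17]),(7,[19,8,3,2,13]),(8,[20,9,4,3,7,19,21]),(9,[22,16,4,8,20])], [14,13,19,21,20,22,16,15,17,18,11,12,10], [(0,1),(1,13),(7,13),(8,7)]⟩
def c1114 : RawB s1114 := raw1 s1114 (nat_lit 11) [⟨0,1,3,3,3,4,false,false⟩,⟨0,2,3,4,4,8,false,false⟩,⟨2,3,4,8,8,9,false,false⟩,⟨2,4,4,9,9,16,false,false⟩,⟨2,5,4,16,16,15,false,false⟩,⟨4,6,9,16,16,22,false,false⟩,⟨4,7,9,22,22,20,false,false⟩,⟨4,3,20,9,8,8,false,false⟩,⟨0,3,3,8,8,7,false,false⟩,⟨4,8,8,20,20,21,false,false⟩,⟨4,9,8,21,21,19,false,false⟩,⟨3,4,7,8,19,19,false,false⟩,⟨3,10,7,19,19,13,false,false⟩,⟨0,3,3,7,13,2,false,false⟩,⟨0,1,2,3,4,0,false,false⟩,⟨1,2,0,4,15,5,false,false⟩,⟨0,3,0,2,13,1,false,false⟩,⟨3,4,1,13,13,14,false,true⟩,⟨0,3,0,1,14,10,false,true⟩,⟨2,4,5,15,15,17,false,false⟩,⟨1,2,0,5,17,6,false,false⟩,⟨2,3,6,17,17,18,false,false⟩,⟨1,2,0,6,18,11,false,false⟩,⟨0,1,10,0,11,12,false,false⟩]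 (nat_lit 8) (nat_lit 85) (by decide +kernel)
noncomputable def s1115 : Raw := ⟨[(0,[11,9,1,2,3,4,5,6,10]),(1,[12,7,2,0,9]),(2,[8,3,0,1,7]),(3,[15,13,4,0,2,8,14]),(4,[16,5,0,3,13]),(5,[17,6,0,4,16]),(6,[18,10,0,5,17]),(7,[19,8,2,1,12]),(8,[20,14,3,2,7,19])], [17,18,10,11,9,12,19,20,14,15,13,16], [(6,17),(6,10),(0,9),(0,3)]⟩
def c1115 : RawB s1115 := raw1 s1115 (nat_lit 10) [⟨0,1,0,0,0,2,false,false⟩,⟨0,2,0,2,2,1,false,false⟩,⟨2,3,2,1,1,7,false,false⟩,⟨3,4,7,1,1,12,false,false⟩,⟨4,6,1,12,12,9,false,false⟩,⟨0,4,0,1,9,9,false,false⟩,⟨0,7,0,9,9,11,false,false⟩,⟨0,8,0,11,11,10,false,false⟩,⟨0,5,0,10,10,6,false,false⟩,⟨0,4,0,6,6,5,false,false⟩,⟨5,9,6,10,10,18,false,false⟩,⟨4,5,5,6,18,17,false,true⟩,⟨3,5,7,12,12,19,false,false⟩,⟨2,3,2,7,19,8,false,false⟩,⟨1,2,0,2,8,3,false,false⟩,⟨1,0,3,0,5,4,false,false⟩,⟨0,4,4,5,17,16,false,true⟩,⟨1,0,3,4,16,13,false,false⟩,⟨3,4,8,19,19,20,false,false⟩,⟨2,3,3,8,20,14,false,false⟩,⟨1,2,13,3,14,15,false,false⟩]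 (nat_lit 9) (nat_lit 341) (by decide +kernel)
noncomputable def s1116 : Raw := ⟨[(0,[12,10,1,2,3,4,5,6,11]),(1,[13,7,2,0,10]),(2,[8,3,0,1,7]),(3,[14,4,0,2,8,9,15]),(4,[16,5,0,3,14]),(5,[17,6,0,4,16]),(6,[18,11,0,5,17]),(7,[19,8,2,1,13]),(8,[20,9,3,2,7,19,21]),(9,[22,15,3,8,20])], [11,12,10,13,19,21,20,22,15,14,16,17,18], [(1,13)]⟩
def c1116 : RawB s1116 := raw1 s1116 (nat_lit 11) [⟨0,1,5,5,5,6,false,false⟩,⟨0,2,6,5,5,0,false,false⟩,⟨2,3,5,0,0,4,false,false⟩,⟨3,4,4,0,0,3,false,false⟩,⟨4,5,3,0,0,2,false,false⟩,⟨5,6,0,2,2,1,false,false⟩,⟨6,7,2,1,1,7,false,false⟩,⟨4,6,3,2,7,8,false,false⟩,⟨7,8,1,7,7,13,false,false⟩,⟨6,8,8,7,13,19,false,false⟩,⟨7,9,1,13,13,10,false,false⟩,⟨5,7,0,1,10,10,false,false⟩,⟨5,10,0,10,10,12,false,false⟩,⟨0,5,6,0,12,11,false,true⟩,⟨0,5,6,11,11,18,false,true⟩,⟨1,0,5,6,18,17,false,false⟩,⟨2,1,4,5,17,16,false,false⟩,⟨3,2,3,4,16,14,false,false⟩,⟨4,5,3,8,8,9,false,false⟩,⟨4,3,9,3,14,15,false,false⟩,⟨6,7,8,19,19,21,false,false⟩,⟨5,6,9,8,21,20,false,false⟩,⟨4,5,15,9,20,22,false,false⟩]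 (nat_lit 9) (nat_lit 341) (by decide +kernel)
noncomputable def s1117 : Raw := ⟨[(0,[12,10,1,2,3,4,5,6,11]),(1,[13,7,2,0,10,14]),(2,[8,3,0,1,7]),(3,[9,4,0,2,8]),(4,[17,15,5,0,3,9,16]),(5,[18,6,0,4,15]),(6,[19,11,0,5,18]),(7,[20,8,2,1,13,21]),(8,[9,3,2,7,20]),(9,[22,16,4,3,8,20])], [14,13,21,20,22,16,17,15,18,19,11,12,10], [(9,22)]⟩
def c1117 : RawB s1117 := raw1 s1117 (nat_lit 11) [⟨0,1,0,0,0,5,false,false⟩,⟨0,2,0,5,5,4,false,false⟩,⟨0,3,0,4,4,3,false,false⟩,⟨0,4,0,3,3,2,false,false⟩,⟨2,5,5,4,4,15,false,false⟩,⟨5,6,15,4,4,17,false,false⟩,⟨6,7,17,4,4,16,false,false⟩,⟨3,7,3,4,16,9,false,false⟩,⟨3,8,3,9,9,8,false,false⟩,⟨3,4,8,3,2,2,false,false⟩,⟨8,9,9,8,8,20,false,false⟩,⟨7,8,16,9,20,22,false,false⟩,⟨3,9,2,8,20,7,false,false⟩,⟨0,3,0,2,7,1,false,false⟩,⟨9,10,20,7,7,21,false,false⟩,⟨3,10,1,7,21,13,false,false⟩,⟨3,4,1,13,13,14,false,true⟩,⟨0,3,0,1,14,10,false,true⟩,⟨2,4,5,15,15,18,false,false⟩,⟨1,2,0,5,18,6,false,false⟩,⟨2,3,6,18,18,19,false,false⟩,⟨1,2,0,6,19,11,false,false⟩,⟨0,1,10,0,11,12,false,false⟩]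 (nat_lit 9) (nat_lit 341) (by decide +kernel)
noncomputable def s1118 : Raw := ⟨[(0,[13,11,1,2,3,4,5,6,12]),(1,[14,7,2,0,11]),(2,[8,3,0,1,7]),(3,[17,15,4,0,2,8,16]),(4,[9,5,0,3,15]),(5,[10,6,0,4,9]),(6,[19,12,0,5,10,18]),(7,[20,8,2,1,14]),(8,[21,16,3,2,7,20]),(9,[22,10,5,4,15]),(10,[23,18,6,5,9,22])], [12,13,11,14,20,21,16,17,15,22,23,18,19], [(10,6),(4,15),(4,0)]⟩
def c1118 : RawB s1118 := raw1 s1118 (nat_lit 11) [⟨0,1,9,9,9,10,false,false⟩,⟨0,2,9,10,10,22,false,false⟩,⟨0,3,9,22,22,15,false,false⟩,⟨0,4,9,15,15,4,false,false⟩,⟨0,1,4,9,10,5,false,false⟩,⟨0,5,5,4,4,0,false,false⟩,⟨5,4,0,4,15,3,false,false⟩,⟨5,6,3,0,0,2,false,false⟩,⟨6,7,2,0,0,1,false,false⟩,⟨6,8,2,1,1,7,false,false⟩,⟨5,6,3,2,7,8,false,false⟩,⟨8,9,7,1,1,14,false,false⟩,⟨7,9,0,1,14,11,false,false⟩,⟨6,8,8,7,14,20,false,false⟩,⟨0,1,0,5,10,6,false,false⟩,⟨7,10,0,11,11,13,false,false⟩,⟨0,7,6,0,13,12,false,true⟩,⟨0,7,6,12,12,19,false,true⟩,⟨1,0,10,6,19,18,false,false⟩,⟨1,2,18,10,22,23,false,false⟩,⟨6,7,8,20,20,21,false,false⟩,⟨5,6,3,8,21,16,false,false⟩,⟨4,5,15,3,16,17,false,false⟩]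 (nat_lit 7) (nat_lit 85) (by decide +kernel)
noncomputable def s1119 : Raw := ⟨[(0,[10,9,8,7,6,1,2,3,11]),(1,[12,4,2,0,6,13]),(2,[5,3,0,1,4]),(3,[11,0,2,5,14]),(4,[15,5,2,1,12,16]),(5,[14,3,2,4,15]),(7,[17,6,0,8,18]),(8,[18,7,0,9,19]),(9,[19,8,0,10,20]),(10,[20,9,0,11,21])], [18,17,6,13,12,16,15,14,11,21,20,19], [(8,18),(8,0),(9,19),(9,10)]⟩
def c1119 : RawB s1119 := raw1 s1119 (nat_lit 10) [⟨0,1,0,0,0,11,false,false⟩,⟨0,2,0,11,11,3,false,false⟩,⟨2,3,3,11,11,14,false,false⟩,⟨2,4,3,14,14,5,false,false⟩,⟨0,2,0,3,5,2,false,false⟩,⟨4,5,14,5,5,15,false,false⟩,⟨2,5,2,5,15,4,false,false⟩,⟨2,6,2,4,4,1,false,false⟩,⟨0,2,0,2,1,1,false,false⟩,⟨0,7,0,1,1,6,false,false⟩,⟨0,2,0,6,6,7,false,false⟩,⟨0,8,0,7,7,8,false,false⟩,⟨2,9,7,6,6,17,false,false⟩,⟨8,2,8,7,17,18,false,true⟩,⟨1,2,0,11,11,10,false,false⟩,⟨0,1,8,0,10,9,false,false⟩,⟨0,8,9,8,18,19,false,true⟩,⟨1,0,10,9,19,20,false,false⟩,⟨2,1,11,10,20,21,false,false⟩,⟨7,8,1,6,6,13,false,false⟩,⟨6,7,4,1,13,12,false,false⟩,⟨6,5,12,4,15,16,false,false⟩]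 (nat_lit 5) (nat_lit 21) (by decide +kernel)
noncomputable def s1120 : Raw := ⟨[(0,[10,1,2,3,4]),(1,[11,2,0,10,12]),(2,[13,3,0,1,11,14]),(3,[9,8,7,6,5,4,0,2,13]),(5,[15,4,3,6,16]),(6,[16,5,3,7,17]),(7,[17,6,3,8,18]),(8,[18,7,3,9,19]),(9,[19,8,3,13,20])], [10,12,11,14,13,20,19,18,17,16,15,4], [(1,10),(1,11),(2,14),(2,3)]⟩
def c1120 : RawB s1120 := raw1 s1120 (nat_lit 10) [⟨0,1,3,3,3,8,false,false⟩,⟨0,2,3,8,8,9,false,false⟩,⟨0,3,3,9,9,13,false,false⟩,⟨0,4,3,13,13,2,false,false⟩,⟨2,5,8,9,9,19,false,false⟩,⟨3,6,9,13,13,20,false,false⟩,⟨5,3,19,9,20,20,false,false⟩,⟨0,3,3,2,2,0,false,false⟩,⟨4,7,2,13,13,14,false,false⟩,⟨4,8,2,14,14,11,false,false⟩,⟨3,4,0,2,11,1,false,false⟩,⟨4,9,1,11,11,12,false,false⟩,⟨3,4,0,1,12,10,false,true⟩,⟨0,3,3,0,10,4,false,true⟩,⟨2,4,8,19,19,18,false,false⟩,⟨1,2,3,8,18,7,false,false⟩,⟨2,3,7,18,18,17,false,false⟩,⟨1,2,3,7,17,6,false,false⟩,⟨0,1,4,3,6,5,false,false⟩,⟨1,2,5,6,17,16,false,false⟩,⟨0,1,4,5,16,15,false,false⟩]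 (nat_lit 9) (nat_lit 341) (by decide +kernel)
noncomputable def s1121 : Raw := ⟨[(0,[10,9,8,7,6,1,2,3,11]),(1,[12,4,2,0,6,13]),(2,[5,3,0,1,4]),(3,[15,11,0,2,5,14]),(4,[16,5,2,1,12]),(5,[14,3,2,4,16]),(7,[17,6,0,8,18]),(8,[18,7,0,9,19]),(9,[21,19,8,0,10,20]),(10,[20,9,0,11,22])], [18,17,6,13,12,16,14,15,11,22,20,21,19], [(0,9),(9,20),(9,19),(10,22)]⟩
def c1121 : RawB s1121 := raw1 s1121 (nat_lit 11) [⟨0,1,0,0,0,3,false,false⟩,⟨0,2,0,3,3,2,false,false⟩,⟨2,3,3,2,2,5,false,false⟩,⟨2,4,5,3,3,14,false,false⟩,⟨4,5,3,14,14,15,false,false⟩,⟨1,4,0,3,15,11,false,false⟩,⟨2,6,5,14,14,16,false,false⟩,⟨3,2,2,5,16,4,false,false⟩,⟨2,7,4,16,16,12,false,false⟩,⟨2,8,4,12,12,1,false,false⟩,⟨2,3,1,4,2,2,false,false⟩,⟨0,2,0,2,1,1,false,false⟩,⟨8,9,12,1,1,13,false,false⟩,⟨0,9,0,1,13,6,false,false⟩,⟨0,2,0,6,6,7,false,false⟩,⟨0,3,0,7,7,8,false,false⟩,⟨2,10,7,6,6,17,false,false⟩,⟨3,2,8,7,17,18,false,true⟩,⟨1,2,0,11,11,10,false,false⟩,⟨0,1,8,0,10,9,false,false⟩,⟨0,3,9,8,18,19,false,true⟩,⟨2,3,10,11,11,22,false,false⟩,⟨1,2,9,10,22,20,false,false⟩,⟨0,1,19,9,20,21,false,false⟩]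 (nat_lit 9) (nat_lit 170) (by decide +kernel)
noncomputable def s1122 : Raw := ⟨[(0,[11,9,1,2,3,4,5,6,10]),(1,[12,2,0,9,13]),(2,[14,3,0,1,12]),(3,[15,8,7,4,0,2,14]),(4,[16,5,0,3,7,17]),(5,[18,6,0,4,16]),(6,[19,10,0,5,18]),(7,[17,4,3,8,20]),(8,[20,7,3,15,21])], [18,19,10,11,9,13,12,14,15,21,20,17,16], [(5,16),(5,0),(7,17),(7,8)]⟩
def c1122 : RawB s1122 := raw1 s1122 (nat_lit 11) [⟨0,1,8,8,8,20,false,false⟩,⟨0,2,8,20,20,21,false,false⟩,⟨0,3,8,21,21,15,false,false⟩,⟨0,4,8,15,15,3,false,false⟩,⟨0,1,3,8,20,7,false,false⟩,⟨4,5,15,3,3,14,false,false⟩,⟨0,6,7,3,3,4,false,false⟩,⟨0,1,4,7,20,17,false,false⟩,⟨6,7,3,4,4,0,false,false⟩,⟨6,5,0,3,14,2,false,false⟩,⟨7,8,4,0,0,5,false,false⟩,⟨7,0,5,4,17,16,false,false⟩,⟨7,9,16,5,5,18,true,false⟩,⟨8,9,0,5,18,6,false,false⟩,⟨6,7,2,0,0,1,false,false⟩,⟨6,5,1,2,14,12,false,false⟩,⟨9,10,18,6,6,19,true,false⟩,⟨8,10,0,6,19,10,false,false⟩,⟨8,9,0,10,10,11,false,false⟩,⟨7,8,1,0,11,9,false,false⟩,⟨7,6,9,1,12,13,false,false⟩]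 (nat_lit 11) (nat_lit 1365) (by decide +kernel)
noncomputable def s1123 : Raw := ⟨[(0,[11,9,1,2,3,4,5,6,10]),(1,[12,2,0,9,13]),(2,[7,3,0,1,12]),(3,[8,4,0,2,7]),(4,[16,14,5,0,3,8,15]),(5,[17,6,0,4,14,18]),(6,[19,10,0,5,17]),(7,[20,8,3,2,12]),(8,[21,15,4,3,7,20])], [15,16,14,18,17,19,10,11,9,13,12,20,21], [(6,17),(0,4),(4,15),(4,14)]⟩
def c1123 : RawB s1123 := raw1 s1123 (nat_lit 11) [⟨0,1,3,3,3,7,false,false⟩,⟨0,2,3,7,7,2,false,false⟩,⟨0,3,3,2,2,0,false,false⟩,⟨0,4,3,0,0,4,false,false⟩,⟨0,1,4,3,7,8,false,false⟩,⟨0,5,8,4,4,15,false,false⟩,⟨0,6,8,15,15,21,false,true⟩,⟨1,0,7,8,21,20,false,false⟩,⟨2,1,2,7,20,12,false,false⟩,⟨3,2,0,2,12,1,false,false⟩,⟨5,6,15,4,4,16,true,false⟩,⟨6,10,4,16,16,14,false,false⟩,⟨4,6,0,4,14,5,false,false⟩,⟨6,9,5,14,14,18,false,false⟩,⟨6,8,5,18,18,17,false,false⟩,⟨4,6,0,5,17,6,false,false⟩,⟨6,7,6,17,17,19,false,false⟩,⟨4,6,0,6,19,10,false,false⟩,⟨4,5,0,10,10,11,false,false⟩,⟨3,4,1,0,11,9,false,false⟩,⟨3,2,9,1,12,13,false,false⟩]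 (nat_lit 16) (nat_lit 43690) (by decide +kernel)
noncomputable def s1124 : Raw := ⟨[(0,[10,8,1,2,3,4,5,6,9]),(1,[11,2,0,8,12]),(2,[13,7,3,0,1,11,14]),(3,[15,4,0,2,7,16]),(4,[17,5,0,3,15]),(5,[18,6,0,4,17]),(6,[19,9,0,5,18]),(7,[16,3,2,13,20])], [18,19,9,10,8,12,11,14,13,20,16,15,17], [(0,9),(1,8),(1,11),(0,2)]⟩
def c1124 : RawB s1124 := raw1 s1124 (nat_lit 11) [⟨0,1,3,3,3,4,false,false⟩,⟨0,2,4,3,3,0,false,false⟩,⟨0,3,4,0,0,5,false,false⟩,⟨2,4,3,0,0,2,false,false⟩,⟨4,5,2,0,0,1,false,false⟩,⟨5,6,0,1,1,8,false,false⟩,⟨6,7,1,8,8,12,false,false⟩,⟨4,6,2,1,12,11,false,false⟩,⟨5,8,0,8,8,10,false,false⟩,⟨5,9,0,10,10,9,false,false⟩,⟨3,5,5,0,9,6,false,false⟩,⟨5,10,6,9,9,19,false,false⟩,⟨3,5,5,6,19,18,false,true⟩,⟨0,3,4,5,18,17,false,true⟩,⟨1,0,3,4,17,15,false,false⟩,⟨2,3,3,2,2,7,false,false⟩,⟨2,1,7,3,15,16,false,false⟩,⟨4,5,2,11,11,14,false,false⟩,⟨3,4,7,2,14,13,false,false⟩,⟨3,2,13,7,16,20,false,false⟩]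 (nat_lit 23) (nat_lit 5592405) (by decide +kernel)
end Pool.Agent.FCT.R
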